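import Pool.Agent.Lib.H25S.Defs
import Pool.Agent.Lib.H83D.A4

/-!
# Chunk A1 (M)
`F p = H p.1 p.2` is `C²` and `ℤ³`-periodic (`pers`, `per`; `H (s + n) = H s` by induction over integers). `fderiv ℝ F` is `C¹` and periodic, so it is bounded, and its derivative is bounded (compactness of `[0,1]³`, as in `H83D.a4_bdd`), hence `fderiv ℝ F` is Lipschitz (`lipschitzWith_of_nnnorm_fderiv_le`).
Chain rule: `d1 (H s) z = fderiv ℝ F (s, z) (0, (1, 0))`, `d2 (H s) z = fderiv ℝ F (s, z) (0, (0, 1))`, `dS H s z = fderiv ℝ F (s, z) (1, 0)`. TAYLOR: `G h = F (q + h) - F q - fderiv ℝ F q h` has `‖fderiv G h‖ ≤ C ‖h‖`, so `|G h| ≤ C ‖h‖ ^ 2` on the segment (`Convex.norm_image_sub_le_of_norm_hasFDerivWithin_le` on the ball of radius `‖h‖`),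
and `‖(σ, ζ)‖ ≤ |σ| + ‖ζ‖`. Enlarge `C`.
-/

namespace H25S

open MeasureTheory H83D Set Filter Topology

/-- the function of three variables -/
def a1F (H : ℝ → ℝ × ℝ → ℝ) (p : ℝ × (ℝ × ℝ)) : ℝ := H p.1 p.2

theorem a1_bdd {G : Type*} [NormedAddCommGroup G] {u : ℝ × (ℝ × ℝ) → G} (hu : Continuous u)
    (pu : ∀ (p : ℝ × (ℝ × ℝ)) (n : ℤ) (k : ℤ × ℤ), u (p + ((n : ℝ), iv k)) = u p) : ∃ C, ∀ p, ‖u p‖ ≤ C := by
  obtain ⟨C, hC⟩ := (isCompact_Icc.prod (isCompact_Icc.prod isCompact_Icc) :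
    IsCompact (Set.Icc (0 : ℝ) 1 ×ˢ (Set.Icc (0 : ℝ) 1 ×ˢ Set.Icc (0 : ℝ) 1))).exists_bound_of_continuousOn
    hu.continuousOn
  refine ⟨C, fun p => ?_⟩
  obtain ⟨s, x⟩ := p
  obtain ⟨z, k, hz, rfl⟩ := a3_red x
  have h1 : ((s, z + iv k) : ℝ × (ℝ × ℝ)) = (Int.fract s, z) + (((⌊s⌋ : ℤ) : ℝ), iv k) := by
    refine Prod.ext ?_ rfl
    exact (Int.fract_add_floor s).symm
  rw [h1, pu]
  exact hC _ ⟨⟨Int.fract_nonneg _, (Int.fract_lt_one _).le⟩, hz⟩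

theorem a1_per {H : ℝ → ℝ × ℝ → ℝ} (hH : Ham H) (p : ℝ × (ℝ × ℝ)) (n : ℤ) (k : ℤ × ℤ) :
    a1F H (p + ((n : ℝ), iv k)) = a1F H p := by
  show H (p.1 + n) (p.2 + iv k) = H p.1 p.2
  rw [hH.per]
  have h1 : Function.Periodic (fun s => H s p.2) 1 := fun s => hH.pers s p.2
  have h2 := h1.int_mul n p.1
  simpa using h2

theorem a1_smooth {H : ℝ → ℝ × ℝ → ℝ} (hH : Ham H) : ContDiff ℝ 2 (a1F H) := hH.smooth

theorem a1_smooth1 {H : ℝ → ℝ × ℝ → ℝ} (hH : Ham H) : ContDiff ℝ 1 (fderiv ℝ (a1F H)) :=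
  (a1_smooth hH).fderiv_right (by norm_num)

theorem a1_perd {G : Type*} [NormedAddCommGroup G] [NormedSpace ℝ G] {u : ℝ × (ℝ × ℝ) → G}
    (pu : ∀ (p : ℝ × (ℝ × ℝ)) (n : ℤ) (k : ℤ × ℤ), u (p + ((n : ℝ), iv k)) = u p)
    (p : ℝ × (ℝ × ℝ)) (n : ℤ) (k : ℤ × ℤ) : fderiv ℝ u (p + ((n : ℝ), iv k)) = fderiv ℝ u p := by
  have h1 : (fun q => u (q + (((n : ℝ), iv k) : ℝ × (ℝ × ℝ)))) = u := funext fun q => pu q n k
  have h2 := fderiv_comp_add_right (𝕜 := ℝ) (f := u) (x := p) (((n : ℝ), iv k) : ℝ × (ℝ × ℝ))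
  rw [h1] at h2
  exact h2.symm

theorem a1_C1 {H : ℝ → ℝ × ℝ → ℝ} (hH : Ham H) : ∃ C, 0 ≤ C ∧ ∀ p, ‖fderiv ℝ (a1F H) p‖ ≤ C := by
  obtain ⟨C, hC⟩ := a1_bdd (a1_smooth1 hH).continuous (fun p n k => a1_perd (a1_per hH) p n k)
  exact ⟨C, (norm_nonneg _).trans (hC 0), hC⟩

theorem a1_C2 {H : ℝ → ℝ × ℝ → ℝ} (hH : Ham H) : ∃ C, 0 ≤ C ∧ ∀ p q,
    ‖fderiv ℝ (a1F H) p - fderiv ℝ (a1F H) q‖ ≤ C * ‖p - q‖ := by
  obtain ⟨C, hC⟩ := a1_bdd ((a1_smooth1 hH).continuous_fderiv (by norm_num))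
    (fun p n k => a1_perd (fun p n k => a1_perd (a1_per hH) p n k) p n k)
  have hC0 : 0 ≤ C := (norm_nonneg _).trans (hC 0)
  refine ⟨C, hC0, fun p q => ?_⟩
  have hl : LipschitzWith C.toNNReal (fderiv ℝ (a1F H)) := by
    refine lipschitzWith_of_nnnorm_fderiv_le (𝕜 := ℝ) ((a1_smooth1 hH).differentiable (by norm_num)) fun x => ?_
    rw [← NNReal.coe_le_coe, Real.coe_toNNReal _ hC0]
    exact hC x
  have h2 := hl.dist_le_mul p q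
  rw [dist_eq_norm, dist_eq_norm, Real.coe_toNNReal _ hC0] at h2
  exact h2

theorem a1_diff {H : ℝ → ℝ × ℝ → ℝ} (hH : Ham H) (p : ℝ × (ℝ × ℝ)) : DifferentiableAt ℝ (a1F H) p :=
  (a1_smooth hH).differentiable (by norm_num) p

theorem a1_fd {H : ℝ → ℝ × ℝ → ℝ} (hH : Ham H) (s : ℝ) (z v : ℝ × ℝ) :
    fderiv ℝ (H s) z v = fderiv ℝ (a1F H) (s, z) (0, v) := by
  have h1 : HasFDerivAt (fun w : ℝ × ℝ => ((s, w) : ℝ × (ℝ × ℝ))) (ContinuousLinearMap.inr ℝ ℝ (ℝ × ℝ)) z :=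
    hasFDerivAt_prodMk_right s z
  have h2 : HasFDerivAt (H s) ((fderiv ℝ (a1F H) (s, z)).comp (ContinuousLinearMap.inr ℝ ℝ (ℝ × ℝ))) z :=
    (a1_diff hH (s, z)).hasFDerivAt.comp z h1
  rw [h2.fderiv]
  rfl

theorem a1_d1 {H : ℝ → ℝ × ℝ → ℝ} (hH : Ham H) (s : ℝ) (z : ℝ × ℝ) :
    d1 (H s) z = fderiv ℝ (a1F H) (s, z) (0, (1, 0)) := a1_fd hH s z (1, 0)

theorem a1_d2 {H : ℝ → ℝ × ℝ → ℝ} (hH : Ham H) (s : ℝ) (z : ℝ × ℝ) :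
    d2 (H s) z = fderiv ℝ (a1F H) (s, z) (0, (0, 1)) := a1_fd hH s z (0, 1)

theorem a1_dS {H : ℝ → ℝ × ℝ → ℝ} (hH : Ham H) (s : ℝ) (z : ℝ × ℝ) :
    dS H s z = fderiv ℝ (a1F H) (s, z) (1, 0) := by
  have h1 : HasDerivAt (fun s' : ℝ => ((s', z) : ℝ × (ℝ × ℝ))) (1, 0) s :=
    (hasDerivAt_id s).prodMk (hasDerivAt_const s z)
  have h2 : HasDerivAt (a1F H ∘ fun s' : ℝ => ((s', z) : ℝ × (ℝ × ℝ))) (fderiv ℝ (a1F H) (s, z) (1, 0)) s :=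
    HasFDerivAt.comp_hasDerivAt (l := a1F H) (l' := fderiv ℝ (a1F H) (s, z)) s (a1_diff hH (s, z)).hasFDerivAt h1
  exact h2.deriv

theorem ham_p2 {H : ℝ → ℝ × ℝ → ℝ} (hH : Ham H) (s : ℝ) : P2 (H s) := by
  refine ⟨?_, hH.per s⟩
  exact (a1_smooth hH).comp (contDiff_const.prodMk contDiff_id)

theorem ham_ds {H : ℝ → ℝ × ℝ → ℝ} (hH : Ham H) : (Continuous fun p : ℝ × (ℝ × ℝ) => dS H p.1 p.2) ∧
    (Continuous fun p : ℝ × (ℝ × ℝ) => d1 (H p.1) p.2) ∧ (Continuous fun p : ℝ × (ℝ × ℝ) => d2 (H p.1) p.2) ∧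
    (∀ s z (k : ℤ × ℤ), dS H s (z + iv k) = dS H s z) ∧ (∀ s z, dS H (s + 1) z = dS H s z) := by
  have hc : Continuous (fderiv ℝ (a1F H)) := (a1_smooth1 hH).continuous
  refine ⟨?_, ?_, ?_, ?_, ?_⟩
  · have h1 : (fun p : ℝ × (ℝ × ℝ) => dS H p.1 p.2) = fun p => fderiv ℝ (a1F H) p (1, 0) :=
      funext fun p => a1_dS hH p.1 p.2
    rw [h1]
    exact hc.clm_apply continuous_const
  · have h1 : (fun p : ℝ × (ℝ × ℝ) => d1 (H p.1) p.2) = fun p => fderiv ℝ (a1F H) p (0, (1, 0)) :=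
      funext fun p => a1_d1 hH p.1 p.2
    rw [h1]
    exact hc.clm_apply continuous_const
  · have h1 : (fun p : ℝ × (ℝ × ℝ) => d2 (H p.1) p.2) = fun p => fderiv ℝ (a1F H) p (0, (0, 1)) :=
      funext fun p => a1_d2 hH p.1 p.2
    rw [h1]
    exact hc.clm_apply continuous_const
  · intro s z k
    have h1 : (fun s' => H s' (z + iv k)) = fun s' => H s' z := funext fun s' => hH.per s' z k
    show deriv (fun s' => H s' (z + iv k)) s = deriv (fun s' => H s' z) s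
    rw [h1]
  · intro s z
    have h1 : (fun s' => H (s' + 1) z) = fun s' => H s' z := funext fun s' => hH.pers s' z
    show deriv (fun s' => H s' z) (s + 1) = deriv (fun s' => H s' z) s
    rw [← deriv_comp_add_const (fun s' => H s' z) 1 s, h1]

theorem a1_norm (σ : ℝ) (ζ : ℝ × ℝ) : ‖((σ, ζ) : ℝ × (ℝ × ℝ))‖ ≤ |σ| + ‖ζ‖ := by
  rw [Prod.norm_mk, Real.norm_eq_abs]
  exact max_le (by linarith [norm_nonneg ζ]) (by linarith [abs_nonneg σ])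

theorem a1_app {L : ℝ × (ℝ × ℝ) →L[ℝ] ℝ} {C : ℝ} (hL : ‖L‖ ≤ C) (hC : 0 ≤ C) {v : ℝ × (ℝ × ℝ)} (hv : ‖v‖ ≤ 1) :
    |L v| ≤ C := by
  rw [← Real.norm_eq_abs]
  refine (L.le_opNorm v).trans ?_
  calc ‖L‖ * ‖v‖ ≤ C * 1 := mul_le_mul hL hv (norm_nonneg _) hC
    _ = C := mul_one _

theorem a1_n1 : ‖(((1 : ℝ), (0 : ℝ × ℝ)) : ℝ × (ℝ × ℝ))‖ ≤ 1 := by
  rw [Prod.norm_mk]; simp

theorem a1_n2 : ‖(((0 : ℝ), ((1 : ℝ), (0 : ℝ))) : ℝ × (ℝ × ℝ))‖ ≤ 1 := by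
  rw [Prod.norm_mk, Prod.norm_mk]; simp

theorem a1_n3 : ‖(((0 : ℝ), ((0 : ℝ), (1 : ℝ))) : ℝ × (ℝ × ℝ))‖ ≤ 1 := by
  rw [Prod.norm_mk, Prod.norm_mk]; simp

theorem a1_sub (s : ℝ) (z z' : ℝ × ℝ) : ‖((s, z) : ℝ × (ℝ × ℝ)) - (s, z')‖ = ‖z - z'‖ := by
  rw [Prod.mk_sub_mk, sub_self, Prod.norm_mk, norm_zero]
  exact max_eq_right (norm_nonneg _)

theorem a1_lin (L : ℝ × (ℝ × ℝ) →L[ℝ] ℝ) (σ : ℝ) (ζ : ℝ × ℝ) :
    L (σ, ζ) = σ * L (1, 0) + (ζ.1 * L (0, (1, 0)) + ζ.2 * L (0, (0, 1))) := by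
  have h1 : ((σ, ζ) : ℝ × (ℝ × ℝ)) = σ • ((1 : ℝ), (0 : ℝ × ℝ)) + (ζ.1 • ((0 : ℝ), ((1 : ℝ), (0 : ℝ))) +
      ζ.2 • ((0 : ℝ), ((0 : ℝ), (1 : ℝ)))) := by
    refine Prod.ext ?_ (Prod.ext ?_ ?_)
    · simp
    · simp
    · simp
  rw [h1, map_add, map_add, map_smul, map_smul, map_smul]
  simp only [smul_eq_mul]

theorem ham_const {H : ℝ → ℝ × ℝ → ℝ} (hH : Ham H) : ∃ C : ℝ, 1 ≤ C ∧
    (∀ s z, |d1 (H s) z| ≤ C ∧ |d2 (H s) z| ≤ C ∧ |dS H s z| ≤ C) ∧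
    (∀ s z z', |d1 (H s) z - d1 (H s) z'| ≤ C * ‖z - z'‖ ∧ |d2 (H s) z - d2 (H s) z'| ≤ C * ‖z - z'‖) ∧
    ∀ (s σ : ℝ) (z ζ : ℝ × ℝ), |H (s + σ) (z + ζ) - H s z - σ * dS H s z - (ζ.1 * d1 (H s) z + ζ.2 * d2 (H s) z)|
      ≤ C * (|σ| + ‖ζ‖) ^ 2 := by
  obtain ⟨C₁, h10, h1⟩ := a1_C1 hH
  obtain ⟨C₂, h20, h2⟩ := a1_C2 hH
  have e1 : C₁ ≤ 1 + C₁ + C₂ := by linarith
  have e2 : C₂ ≤ 1 + C₁ + C₂ := by linarith
  refine ⟨1 + C₁ + C₂, by linarith, fun s z => ⟨?_, ?_, ?_⟩, fun s z z' => ⟨?_, ?_⟩, fun s σ z ζ => ?_⟩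
  · rw [a1_d1 hH]
    exact (a1_app (h1 _) h10 a1_n2).trans e1
  · rw [a1_d2 hH]
    exact (a1_app (h1 _) h10 a1_n3).trans e1
  · rw [a1_dS hH]
    exact (a1_app (h1 _) h10 a1_n1).trans e1
  · rw [a1_d1 hH, a1_d1 hH, ← sub_apply]
    have h3 := h2 (s, z) (s, z')
    rw [a1_sub] at h3
    exact (a1_app h3 (mul_nonneg h20 (norm_nonneg _)) a1_n2).trans
      (mul_le_mul_of_nonneg_right e2 (norm_nonneg _))
  · rw [a1_d2 hH, a1_d2 hH, ← sub_apply]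
    have h3 := h2 (s, z) (s, z')
    rw [a1_sub] at h3
    exact (a1_app h3 (mul_nonneg h20 (norm_nonneg _)) a1_n3).trans
      (mul_le_mul_of_nonneg_right e2 (norm_nonneg _))
  · have h3 : ‖a1F H ((s, z) + (σ, ζ)) - a1F H (s, z) - fderiv ℝ (a1F H) (s, z) (((s, z) + (σ, ζ)) - (s, z))‖ ≤
        C₂ * ‖((σ, ζ) : ℝ × (ℝ × ℝ))‖ * ‖((s, z) + (σ, ζ)) - ((s, z) : ℝ × (ℝ × ℝ))‖ := by
      refine Convex.norm_image_sub_le_of_norm_fderiv_le' (𝕜 := ℝ)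
        (s := Metric.closedBall (s, z) ‖((σ, ζ) : ℝ × (ℝ × ℝ))‖) (fun x _ => a1_diff hH x) (fun x hx => ?_)
        (convex_closedBall _ _) (Metric.mem_closedBall_self (norm_nonneg _)) ?_
      · refine (h2 x (s, z)).trans (mul_le_mul_of_nonneg_left ?_ h20)
        rw [← dist_eq_norm]
        exact Metric.mem_closedBall.1 hx
      · rw [Metric.mem_closedBall, dist_eq_norm, add_sub_cancel_left]
    rw [add_sub_cancel_left, a1_lin, ← a1_dS hH, ← a1_d1 hH, ← a1_d2 hH, Real.norm_eq_abs] at h3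
    have h4 : a1F H ((s, z) + (σ, ζ)) = H (s + σ) (z + ζ) := rfl
    have h5 : a1F H (s, z) = H s z := rfl
    rw [h4, h5] at h3
    have h6 : H (s + σ) (z + ζ) - H s z - σ * dS H s z - (ζ.1 * d1 (H s) z + ζ.2 * d2 (H s) z) =
        H (s + σ) (z + ζ) - H s z - (σ * dS H s z + (ζ.1 * d1 (H s) z + ζ.2 * d2 (H s) z)) := by ring
    rw [h6]
    refine h3.trans ?_
    have h7 := a1_norm σ ζ
    have h8 : 0 ≤ ‖((σ, ζ) : ℝ × (ℝ × ℝ))‖ := norm_nonneg _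
    have h9 : ‖((σ, ζ) : ℝ × (ℝ × ℝ))‖ ^ 2 ≤ (|σ| + ‖ζ‖) ^ 2 := pow_le_pow_left₀ h8 h7 2
    calc C₂ * ‖((σ, ζ) : ℝ × (ℝ × ℝ))‖ * ‖((σ, ζ) : ℝ × (ℝ × ℝ))‖ = C₂ * ‖((σ, ζ) : ℝ × (ℝ × ℝ))‖ ^ 2 := by ring
      _ ≤ (1 + C₁ + C₂) * (|σ| + ‖ζ‖) ^ 2 := mul_le_mul e2 h9 (by positivity) (by linarith)

theorem a1_lip {H : ℝ → ℝ × ℝ → ℝ} (hH : Ham H) {C : ℝ} (h : ∀ p, ‖fderiv ℝ (a1F H) p‖ ≤ C)
    (p q : ℝ × (ℝ × ℝ)) : |a1F H p - a1F H q| ≤ C * ‖p - q‖ := by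
  have h1 := Convex.norm_image_sub_le_of_norm_fderiv_le (𝕜 := ℝ) (f := a1F H) (s := Set.univ)
    (fun x _ => a1_diff hH x) (fun x _ => h x) convex_univ (Set.mem_univ q) (Set.mem_univ p)
  rwa [Real.norm_eq_abs] at h1

/-- Lipschitz bounds -/
theorem ham_lip {H : ℝ → ℝ × ℝ → ℝ} (hH : Ham H) : ∃ L : ℝ, 1 ≤ L ∧ (∀ s s' z, |H s z - H s' z| ≤ L * |s - s'|) ∧
    ∀ s (z ζ : ℝ × ℝ), |H s (z + ζ) - H s z| ≤ L * ‖ζ‖ := by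
  obtain ⟨C, h0, h⟩ := a1_C1 hH
  refine ⟨1 + C, by linarith, fun s s' z => ?_, fun s z ζ => ?_⟩
  · have h1 := a1_lip hH h (s, z) (s', z)
    rw [Prod.mk_sub_mk, sub_self, Prod.norm_mk, norm_zero, Real.norm_eq_abs, max_eq_left (abs_nonneg _)] at h1
    exact h1.trans (mul_le_mul_of_nonneg_right (by linarith) (abs_nonneg _))
  · have h1 := a1_lip hH h (s, z + ζ) (s, z)
    rw [a1_sub, add_sub_cancel_left] at h1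
    exact h1.trans (mul_le_mul_of_nonneg_right (by linarith) (norm_nonneg _))

end H25S
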