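import Pool.Agent.Lib.H25S.A1

/-!
# Chunk A2 (M)
`Q = [0,1] × ([0,1] × [0,1])` compact; `g = dS H`, `n = d1 ^ 2 + d2 ^ 2` continuous and periodic. (1) `η`: the set `Z₀ = {q ∈ Q | n q = 0}` is compact, `|g| < 1` on it (`hH.crit`), so there is `0 < η < 1/2` with `|g| < 1 - 2 η` on `Z₀`. (2) `Z₁ = {q ∈ Q | 1 - 2 η ≤ |g q|}` is compact and `0 < n` on it, so
`n ≥ d > 0` there; `|g| ≤ B` on `Q`, `κ = B / d`: `|g| ≤ 1 - 2 η + κ n` on `Q`, hence everywhere by periodicity. (3) TAYLOR (`ham_const`): `ζ = (|σ| κ) • (d1, d2)`, `‖ζ‖ ≤ |σ| κ C`: `H (s+σ) (z+ζ) ≥ H s z + σ g + |σ| κ n - C (|σ| + |σ| κ C)^2 ≥ H s z - (1 - 2 η) |σ| - C (1 + κ C)^2 σ ^ 2`,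
and `τ = η / (C (1 + κ C)^2)`. Compare H83D/A3.lean.
-/

namespace H25S

open MeasureTheory H83D Set Filter Topology

/-- the unit cube -/
def a2_cube : Set (ℝ × (ℝ × ℝ)) := Icc (0 : ℝ) 1 ×ˢ (Icc (0 : ℝ) 1 ×ˢ Icc (0 : ℝ) 1)

/-- the square of the gradient -/
noncomputable def a2_n (H : ℝ → ℝ × ℝ → ℝ) (q : ℝ × (ℝ × ℝ)) : ℝ := d1 (H q.1) q.2 ^ 2 + d2 (H q.1) q.2 ^ 2

theorem a2_per {f : ℝ × ℝ → ℝ} (hf : ∀ (z : ℝ × ℝ) (k : ℤ × ℤ), f (z + iv k) = f z) (v x : ℝ × ℝ) (k : ℤ × ℤ) :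
    fderiv ℝ f (x + iv k) v = fderiv ℝ f x v := by
  have h1 : (fun x => f (x + iv k)) = f := funext fun x => hf x k
  have h2 := fderiv_comp_add_right (𝕜 := ℝ) (f := f) (x := x) (iv k)
  rw [h1] at h2
  rw [← h2]

theorem a2_int {X : Type*} {u : ℝ → X} (hu : ∀ s, u (s + 1) = u s) (n : ℤ) : ∀ s, u (s + n) = u s := by
  induction n using Int.induction_on with
  | zero =>
    intro s
    rw [Int.cast_zero, add_zero]
  | succ n ih =>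
    intro s
    have e : s + ((n + 1 : ℤ) : ℝ) = (s + (n : ℤ)) + 1 := by
      push_cast
      ring
    rw [e, hu, ih]
  | pred n ih =>
    intro s
    have e : s + ((-n : ℤ) : ℝ) = (s + ((-n - 1 : ℤ) : ℝ)) + 1 := by
      push_cast
      ring
    rw [← hu (s + ((-n - 1 : ℤ) : ℝ)), ← e, ih]

theorem a2_red {H : ℝ → ℝ × ℝ → ℝ} (hH : Ham H) (s : ℝ) (z : ℝ × ℝ) :
    ∃ q ∈ a2_cube, dS H s z = dS H q.1 q.2 ∧ a2_n H (s, z) = a2_n H q := by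
  obtain ⟨z', k, hz', rfl⟩ := a3_red z
  obtain ⟨-, -, -, hp, hp1⟩ := ham_ds hH
  have e2 : H s = H (Int.fract s) := by
    have h1 := a2_int (u := H) (fun s => funext fun z => hH.pers s z) ⌊s⌋ (Int.fract s)
    rw [Int.fract_add_floor] at h1
    exact h1
  have e3 : dS H s z' = dS H (Int.fract s) z' := by
    have h1 := a2_int (u := fun s => dS H s z') (fun s => hp1 s z') ⌊s⌋ (Int.fract s)
    rw [Int.fract_add_floor] at h1
    exact h1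
  refine ⟨(Int.fract s, z'), ⟨⟨Int.fract_nonneg _, (Int.fract_lt_one _).le⟩, hz'⟩, ?_, ?_⟩
  · rw [hp, e3]
  · have p1 : d1 (H s) (z' + iv k) = d1 (H s) z' := a2_per (hH.per s) _ _ _
    have p2 : d2 (H s) (z' + iv k) = d2 (H s) z' := a2_per (hH.per s) _ _ _
    show d1 (H s) (z' + iv k) ^ 2 + d2 (H s) (z' + iv k) ^ 2 = d1 (H (Int.fract s)) z' ^ 2 + d2 (H (Int.fract s)) z' ^ 2
    rw [p1, p2, e2]

theorem a2_lin {H : ℝ → ℝ × ℝ → ℝ} (hH : Ham H) : ∃ κ η : ℝ, 0 ≤ κ ∧ 0 < η ∧ 2 * η < 1 ∧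
    ∀ (s : ℝ) (z : ℝ × ℝ), |dS H s z| ≤ 1 - 2 * η + κ * (d1 (H s) z ^ 2 + d2 (H s) z ^ 2) := by
  obtain ⟨cg, c1, c2, -, -⟩ := ham_ds hH
  have cn : Continuous (a2_n H) := (c1.pow 2).add (c2.pow 2)
  have ca : Continuous fun p : ℝ × (ℝ × ℝ) => |dS H p.1 p.2| := cg.abs
  have hQ : IsCompact a2_cube := isCompact_Icc.prod (isCompact_Icc.prod isCompact_Icc)
  have n0 : ∀ q, 0 ≤ a2_n H q := fun q => add_nonneg (sq_nonneg _) (sq_nonneg _)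
  -- the constant `η`
  have hη : ∃ η : ℝ, 0 < η ∧ 2 * η < 1 ∧ ∀ q ∈ a2_cube, a2_n H q = 0 → |dS H q.1 q.2| < 1 - 2 * η := by
    obtain ⟨Z, hZ⟩ : ∃ Z : Set (ℝ × (ℝ × ℝ)), Z = a2_cube ∩ {q | a2_n H q = 0} := ⟨_, rfl⟩
    have cZ : IsCompact Z := by
      rw [hZ]
      exact hQ.inter_right (isClosed_eq cn continuous_const)
    have hlt : ∀ q ∈ Z, |dS H q.1 q.2| < 1 := fun q hq => by
      rw [hZ] at hq
      have h0 : d1 (H q.1) q.2 ^ 2 + d2 (H q.1) q.2 ^ 2 = 0 := hq.2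
      have h1 := sq_nonneg (d1 (H q.1) q.2)
      have h2 := sq_nonneg (d2 (H q.1) q.2)
      refine hH.crit q.1 q.2 ⟨?_, ?_⟩
      · exact pow_eq_zero_iff (two_ne_zero) |>.1 (by linarith)
      · exact pow_eq_zero_iff (two_ne_zero) |>.1 (by linarith)
    rcases Z.eq_empty_or_nonempty with he | hn
    · refine ⟨1 / 4, by norm_num, by norm_num, fun q hq h0 => ?_⟩
      have : q ∈ Z := by
        rw [hZ]
        exact ⟨hq, h0⟩
      rw [he] at this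
      exact absurd this (notMem_empty _)
    · obtain ⟨m, hm, hmax⟩ := cZ.exists_isMaxOn hn ca.continuousOn
      have hmax' : ∀ q ∈ Z, |dS H q.1 q.2| ≤ |dS H m.1 m.2| := fun q hq => hmax hq
      have hm1 := hlt m hm
      have hm0 := abs_nonneg (dS H m.1 m.2)
      refine ⟨(1 - |dS H m.1 m.2|) / 4, by linarith, by linarith, fun q hq h0 => ?_⟩
      have : q ∈ Z := by
        rw [hZ]
        exact ⟨hq, h0⟩
      have := hmax' q this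
      linarith
  obtain ⟨η, hη0, hη1, hη2⟩ := hη
  suffices hs : ∃ κ : ℝ, 0 ≤ κ ∧ ∀ q ∈ a2_cube, |dS H q.1 q.2| ≤ 1 - 2 * η + κ * a2_n H q by
    obtain ⟨κ, hκ, hs⟩ := hs
    refine ⟨κ, η, hκ, hη0, hη1, fun s z => ?_⟩
    obtain ⟨q, hq, e1, e2⟩ := a2_red hH s z
    have h1 := hs q hq
    rw [← e1, ← e2] at h1
    exact h1
  obtain ⟨Z, hZ⟩ : ∃ Z : Set (ℝ × (ℝ × ℝ)), Z = a2_cube ∩ {q | 1 - 2 * η ≤ |dS H q.1 q.2|} := ⟨_, rfl⟩
  have cZ : IsCompact Z := by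
    rw [hZ]
    exact hQ.inter_right (isClosed_le continuous_const ca)
  rcases Z.eq_empty_or_nonempty with he | hn
  · refine ⟨0, le_rfl, fun q hq => ?_⟩
    by_contra hc
    have : q ∈ Z := by
      rw [hZ]
      refine ⟨hq, ?_⟩
      show 1 - 2 * η ≤ |dS H q.1 q.2|
      rw [zero_mul, add_zero] at hc
      exact (not_le.1 hc).le
    rw [he] at this
    exact this
  · obtain ⟨m, hm, hmin⟩ := cZ.exists_isMinOn hn cn.continuousOn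
    have hmin' : ∀ q ∈ Z, a2_n H m ≤ a2_n H q := fun q hq => hmin hq
    have hδ : 0 < a2_n H m := by
      rcases (n0 m).eq_or_lt with h | h
      · rw [hZ] at hm
        have h1 := hη2 m hm.1 h.symm
        have h2 : 1 - 2 * η ≤ |dS H m.1 m.2| := hm.2
        linarith
      · exact h
    obtain ⟨B, hB⟩ := hQ.exists_bound_of_continuousOn (f := fun p : ℝ × (ℝ × ℝ) => dS H p.1 p.2) cg.continuousOn
    refine ⟨|B| / a2_n H m, div_nonneg (abs_nonneg B) hδ.le, fun q hq => ?_⟩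
    have k0 : 0 ≤ |B| / a2_n H m * a2_n H q := mul_nonneg (div_nonneg (abs_nonneg B) hδ.le) (n0 q)
    by_cases hq0 : 1 - 2 * η ≤ |dS H q.1 q.2|
    · have hqZ : q ∈ Z := by
        rw [hZ]
        exact ⟨hq, hq0⟩
      have k1 := hmin' q hqZ
      have k2 : |dS H q.1 q.2| ≤ |B| := (hB q hq).trans (le_abs_self B)
      have k3 : |B| ≤ |B| / a2_n H m * a2_n H q := by
        rw [div_mul_eq_mul_div, le_div_iff₀ hδ]
        exact mul_le_mul_of_nonneg_left k1 (abs_nonneg B)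
      linarith
    · push Not at hq0
      linarith

theorem push_const {H : ℝ → ℝ × ℝ → ℝ} (hH : Ham H) : ∃ κ η τ : ℝ, 0 ≤ κ ∧ 0 < η ∧ η < 1 ∧ 0 < τ ∧
    ∀ (s σ : ℝ) (z : ℝ × ℝ), |σ| ≤ τ →
      H s z - (1 - η) * |σ| ≤ H (s + σ) (z + (|σ| * κ) • ((d1 (H s) z, d2 (H s) z) : ℝ × ℝ)) := by
  obtain ⟨κ, η, hκ, hη0, hη1, hlin⟩ := a2_lin hH
  obtain ⟨C, hC1, hC2, -, hT⟩ := ham_const hH
  have hC0 : 0 < C := by linarith
  have hκC : 0 ≤ κ * C := mul_nonneg hκ hC0.le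
  have hA : 0 < C * (1 + κ * C) ^ 2 := mul_pos hC0 (pow_pos (by linarith) 2)
  refine ⟨κ, η, η / (C * (1 + κ * C) ^ 2), hκ, hη0, by linarith, div_pos hη0 hA, fun s σ z hσ => ?_⟩
  have hσ0 := abs_nonneg σ
  have hs : |σ| * (C * (1 + κ * C) ^ 2) ≤ η := (le_div_iff₀ hA).1 hσ
  have h1 := hT s σ z ((|σ| * κ) • ((d1 (H s) z, d2 (H s) z) : ℝ × ℝ))
  obtain ⟨b1, b2, -⟩ := hC2 s z
  have hσκ : 0 ≤ |σ| * κ := mul_nonneg hσ0 hκ
  have h2 : ‖(|σ| * κ) • ((d1 (H s) z, d2 (H s) z) : ℝ × ℝ)‖ ≤ |σ| * κ * C := by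
    rw [norm_smul, Real.norm_eq_abs, abs_of_nonneg hσκ]
    refine mul_le_mul_of_nonneg_left ?_ hσκ
    rw [Prod.norm_def]
    exact max_le b1 b2
  have h3 : C * (|σ| + ‖(|σ| * κ) • ((d1 (H s) z, d2 (H s) z) : ℝ × ℝ)‖) ^ 2 ≤ η * |σ| := by
    have k1 : |σ| + ‖(|σ| * κ) • ((d1 (H s) z, d2 (H s) z) : ℝ × ℝ)‖ ≤ |σ| * (1 + κ * C) := by
      have e : |σ| * (1 + κ * C) = |σ| + |σ| * κ * C := by ring
      rw [e]
      linarith
    have k2 : (|σ| + ‖(|σ| * κ) • ((d1 (H s) z, d2 (H s) z) : ℝ × ℝ)‖) ^ 2 ≤ (|σ| * (1 + κ * C)) ^ 2 :=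
      pow_le_pow_left₀ (add_nonneg hσ0 (norm_nonneg _)) k1 2
    calc C * (|σ| + ‖(|σ| * κ) • ((d1 (H s) z, d2 (H s) z) : ℝ × ℝ)‖) ^ 2
        ≤ C * (|σ| * (1 + κ * C)) ^ 2 := mul_le_mul_of_nonneg_left k2 hC0.le
      _ = |σ| * (C * (1 + κ * C) ^ 2) * |σ| := by ring
      _ ≤ η * |σ| := mul_le_mul_of_nonneg_right hs hσ0
  have e1 : ((|σ| * κ) • ((d1 (H s) z, d2 (H s) z) : ℝ × ℝ)).1 = |σ| * κ * d1 (H s) z := rfl
  have e2 : ((|σ| * κ) • ((d1 (H s) z, d2 (H s) z) : ℝ × ℝ)).2 = |σ| * κ * d2 (H s) z := rfl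
  rw [e1, e2] at h1
  have h4 := (abs_le.1 (h1.trans h3)).1
  have h5 := hlin s z
  have h6 : -(|σ| * |dS H s z|) ≤ σ * dS H s z := by
    rw [← abs_mul]
    exact neg_abs_le _
  have h7 : |σ| * |dS H s z| ≤ |σ| * (1 - 2 * η + κ * (d1 (H s) z ^ 2 + d2 (H s) z ^ 2)) :=
    mul_le_mul_of_nonneg_left h5 hσ0
  nlinarith

end H25S
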