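import Pool.Agent.Lib.H25S.Defs
import Pool.Agent.Lib.H83D.A4
import Pool.Agent.Lib.H17U.F1

/-!
# Chunk A3 (M)
The field `X z = (d2 f z, - d1 f z)` is `C¹`, periodic, hence bounded and Lipschitz (as in H83D/A4.lean: `a4_bdd`, `lipschitzWith_of_nnnorm_fderiv_le`). Existence: `NullU.glob_gen` with `f := fun _ => X`. Uniqueness: `ODE_solution_unique_univ` (Mathlib) for `t ↦ γ (a + t)` and `t ↦ γ' (b + t)`, which agree at `0`. `orb_level`: the derivative of `f (γ t)` is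
`d1 f * d2 f + d2 f * (- d1 f) = 0` (`HasFDerivAt.comp_hasDerivAt`, `fderiv f z (a, b) = a * d1 f z + b * d2 f z`). `orb_reg`: if `Crit f (γ t)` then the constant curve is the orbit through `γ t`, so `γ` is constant.
-/

namespace H25S

open MeasureTheory H83D Set Filter Topology

/-- the Hamiltonian vector field -/
noncomputable def a3_X (f : ℝ × ℝ → ℝ) (z : ℝ × ℝ) : ℝ × ℝ := (d2 f z, -d1 f z)

theorem a3_pf {f : ℝ × ℝ → ℝ} (hf : P2 f) (z : ℝ × ℝ) (k : ℤ × ℤ) : fderiv ℝ f (z + iv k) = fderiv ℝ f z := by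
  have h1 : (fun x => f (x + iv k)) = f := funext fun x => hf.per x k
  have h2 := fderiv_comp_add_right (𝕜 := ℝ) (f := f) (x := z) (iv k)
  rw [h1] at h2
  exact h2.symm

theorem a3_lip {f : ℝ × ℝ → ℝ} (hf : P2 f) :
    ∃ (K : NNReal) (C : ℝ), LipschitzWith K (a3_X f) ∧ ∀ z, ‖a3_X f z‖ ≤ C := by
  have s1 : ContDiff ℝ 1 (fderiv ℝ f) := hf.smooth.fderiv_right (by norm_num)
  have s2 : ContDiff ℝ 1 (a3_X f) := (s1.clm_apply contDiff_const).prodMk (s1.clm_apply contDiff_const).neg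
  have p2 : ∀ (z : ℝ × ℝ) (k : ℤ × ℤ), a3_X f (z + iv k) = a3_X f z := by
    intro z k
    unfold a3_X d1 d2
    rw [a3_pf hf]
  have c3 : Continuous (fderiv ℝ (a3_X f)) := s2.continuous_fderiv (by norm_num)
  have p3 : ∀ (z : ℝ × ℝ) (k : ℤ × ℤ), fderiv ℝ (a3_X f) (z + iv k) = fderiv ℝ (a3_X f) z := by
    intro z k
    have h1 : (fun x => a3_X f (x + iv k)) = a3_X f := funext fun x => p2 x k
    have h2 := fderiv_comp_add_right (𝕜 := ℝ) (f := a3_X f) (x := z) (iv k)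
    rw [h1] at h2
    exact h2.symm
  obtain ⟨C, hC⟩ := a4_bdd s2.continuous p2
  obtain ⟨C', hC'⟩ := a4_bdd c3 p3
  have hC0 : 0 ≤ C' := (norm_nonneg _).trans (hC' 0)
  refine ⟨C'.toNNReal, C, ?_, hC⟩
  refine lipschitzWith_of_nnnorm_fderiv_le (𝕜 := ℝ) (s2.differentiable (by norm_num)) fun x => ?_
  rw [← NNReal.coe_le_coe, Real.coe_toNNReal _ hC0]
  exact hC' x

theorem a3_fd (f : ℝ × ℝ → ℝ) (z : ℝ × ℝ) (a b : ℝ) : fderiv ℝ f z (a, b) = a * d1 f z + b * d2 f z := by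
  have h : ((a, b) : ℝ × ℝ) = a • ((1, 0) : ℝ × ℝ) + b • ((0, 1) : ℝ × ℝ) := by
    ext <;> simp
  rw [h, map_add, map_smul, map_smul]
  rfl

theorem orb_ex {f : ℝ × ℝ → ℝ} (hf : P2 f) (z : ℝ × ℝ) : ∃ γ, Orb f γ ∧ γ 0 = z := by
  obtain ⟨K, C, h1, h2⟩ := a3_lip hf
  obtain ⟨γ, h0, h⟩ := NullU.glob h1 h2 z
  exact ⟨γ, h, h0⟩

theorem orb_uniq {f : ℝ × ℝ → ℝ} (hf : P2 f) {γ γ' : ℝ → ℝ × ℝ} (h : Orb f γ) (h' : Orb f γ') {a b : ℝ} (e : γ a = γ' b) :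
    ∀ t, γ (a + t) = γ' (b + t) := by
  obtain ⟨K, C, h1, h2⟩ := a3_lip hf
  have hs : ∀ {δ : ℝ → ℝ × ℝ}, Orb f δ → ∀ c t, HasDerivAt (fun t => δ (c + t)) (a3_X f (δ (c + t))) t :=
    fun {δ} hδ c t => (hδ (c + t)).comp_const_add c t
  have key : (fun t => γ (a + t)) = fun t => γ' (b + t) := by
    refine ODE_solution_unique_univ (v := fun _ => a3_X f) (s := fun _ => Set.univ) (K := K) (t₀ := 0)
      (fun t => h1.lipschitzOnWith) (fun t => ⟨hs h a t, Set.mem_univ _⟩) (fun t => ⟨hs h' b t, Set.mem_univ _⟩) ?_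
    simpa using e
  intro t
  exact congrFun key t

theorem orb_add {f : ℝ × ℝ → ℝ} (hf : P2 f) {γ : ℝ → ℝ × ℝ} (h : Orb f γ) (k : ℤ × ℤ) : Orb f (fun t => γ t + iv k) := by
  intro t
  have h1 : d2 f (γ t + iv k) = d2 f (γ t) := by unfold d2; rw [a3_pf hf]
  have h2 : d1 f (γ t + iv k) = d1 f (γ t) := by unfold d1; rw [a3_pf hf]
  show HasDerivAt (fun t => γ t + iv k) (d2 f (γ t + iv k), -d1 f (γ t + iv k)) t
  rw [h1, h2]
  exact (h t).add_const _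

theorem orb_shift {f : ℝ × ℝ → ℝ} {γ : ℝ → ℝ × ℝ} (h : Orb f γ) (a : ℝ) : Orb f (fun t => γ (a + t)) := by
  intro t
  exact (h (a + t)).comp_const_add a t

theorem orb_cont {f : ℝ × ℝ → ℝ} {γ : ℝ → ℝ × ℝ} (h : Orb f γ) : Continuous γ := by
  exact continuous_iff_continuousAt.2 fun t => (h t).continuousAt

theorem orb_level {f : ℝ × ℝ → ℝ} (hf : P2 f) {γ : ℝ → ℝ × ℝ} (h : Orb f γ) (t : ℝ) : f (γ t) = f (γ 0) := by
  have hd : Differentiable ℝ f := hf.smooth.differentiable (by norm_num)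
  have hder : ∀ s, HasDerivAt (fun s => f (γ s)) 0 s := by
    intro s
    have h1 := (hd (γ s)).hasFDerivAt.comp_hasDerivAt s (h s)
    rw [a3_fd] at h1
    have h2 : d2 f (γ s) * d1 f (γ s) + -d1 f (γ s) * d2 f (γ s) = 0 := by ring
    rw [h2] at h1
    exact h1
  exact is_const_of_deriv_eq_zero (fun s => (hder s).differentiableAt) (fun s => (hder s).deriv) t 0

theorem orb_reg {f : ℝ × ℝ → ℝ} (hf : P2 f) {γ : ℝ → ℝ × ℝ} (h : Orb f γ) (h0 : ¬ Crit f (γ 0)) (t : ℝ) : ¬ Crit f (γ t) := by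
  intro hc
  have h1 : Orb f (fun _ => γ t) := by
    intro s
    rw [hc.1, hc.2, neg_zero]
    exact hasDerivAt_const s (γ t)
  have h2 := orb_uniq hf h h1 (a := t) (b := 0) rfl (-t)
  rw [add_neg_cancel] at h2
  exact h0 (h2 ▸ hc)

end H25S
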