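import Pool.Agent.Lib.H25S.A1
import Pool.Agent.Lib.H25S.A3
import Pool.Agent.Lib.H83D.A1

/-!
# Chunk A4 (M)
`ham_lm`: `H83D.d1_lm`, `H83D.d2_lm`: `d1 (f ∘ lm) z = p d1 f + r d2 f`, `d2 (f ∘ lm) z = q d1 f + s d2 f` at `lm z`; `dS` of the composition is `dS H t (lm z)`; `lm` has the inverse of `lm_inv`, so critical points correspond. If `Orb (f ∘ lm) γ` then `lm ∘ γ` has the derivative `e • (d2 f, - d1 f)` (`p (q d1 + s d2) - q (p d1 + r d2) = e d2`,
`r (q d1 + s d2) - s (p d1 + r d2) = - e d1`). `e = 1`: `lm ∘ γ` is an orbit; `e = -1`: `t ↦ lm (γ (-t))` is an orbit; period `T` with the vector `± lm k` (`lm_add`), and `∫_0^T dS (γ (-t)) = ∫_(-T)^0 = ∫_0^T` (substitution, periodicity: `Function.Periodic.intervalIntegral_add_eq`). `ham_neg`: `Orb (-f) γ` gives `Orb f (γ ∘ neg)`, `dS (-H) = - dS H`,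
the integral is `-n`. `(e : ℤ)`, `e * e = 1` gives `e = 1 ∨ e = -1`.
-/

namespace H25S

open MeasureTheory H83D Set Filter Topology

theorem a4_rev {F : ℝ → ℝ} {T : ℝ} (hF : Function.Periodic F T) :
    (∫ t in (0 : ℝ)..T, F (-t)) = ∫ t in (0 : ℝ)..T, F t := by
  have h1 : (∫ t in (0 : ℝ)..T, F (-t)) = ∫ t in (-T)..(-0), F t :=
    intervalIntegral.integral_comp_neg F
  have h2 := hF.intervalIntegral_add_eq (-T) 0
  rw [neg_add_cancel, zero_add] at h2
  rw [h1, neg_zero, h2]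

theorem a4_perneg {γ : ℝ → ℝ × ℝ} {T : ℝ} {k : ℤ × ℤ} (hp : ∀ t, γ (t + T) = γ t + iv k) (t : ℝ) :
    γ (-(t + T)) = γ (-t) + iv (-k) := by
  have h1 := hp (-(t + T))
  have h2 : -(t + T) + T = -t := by ring
  rw [h2] at h1
  rw [h1, add_assoc]
  have h3 : iv k + iv (-k) = 0 := by
    unfold iv
    ext <;> simp
  rw [h3, add_zero]

theorem a4_dper {H : ℝ → ℝ × ℝ → ℝ} (hH : Ham H) (s : ℝ) {γ : ℝ → ℝ × ℝ} {T : ℝ} {k : ℤ × ℤ}
    (hp : ∀ t, γ (t + T) = γ t + iv k) : Function.Periodic (fun t => dS H s (γ t)) T := by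
  intro t
  show dS H s (γ (t + T)) = dS H s (γ t)
  rw [hp]
  exact (ham_ds hH).2.2.2.1 s (γ t) k

theorem a4_crit {H : ℝ → ℝ × ℝ → ℝ} (hH : Ham H) {p q r s e : ℤ} (hd : p * s - q * r = e) (he : e * e = 1)
    (t : ℝ) (z : ℝ × ℝ) : Crit (fun z => H t (lm p q r s z)) z ↔ Crit (H t) (lm p q r s z) := by
  have hd' : (p : ℝ) * s - q * r = e := by exact_mod_cast hd
  have he' : (e : ℝ) * e = 1 := by exact_mod_cast he
  have s1 := (ham_p2 hH t).smooth
  unfold Crit
  rw [d1_lm s1, d2_lm s1]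
  constructor
  · rintro ⟨h1, h2⟩
    constructor
    · linear_combination -(d1 (H t) (lm p q r s z)) * he' - (e : ℝ) * d1 (H t) (lm p q r s z) * hd' +
        (e : ℝ) * s * h1 - (e : ℝ) * r * h2
    · linear_combination -(d2 (H t) (lm p q r s z)) * he' - (e : ℝ) * d2 (H t) (lm p q r s z) * hd' +
        (e : ℝ) * p * h2 - (e : ℝ) * q * h1
  · rintro ⟨h1, h2⟩
    rw [h1, h2]
    constructor <;> ring

theorem a4_der {H : ℝ → ℝ × ℝ → ℝ} (hH : Ham H) {p q r s e : ℤ} (hd : p * s - q * r = e) (t0 : ℝ)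
    {γ : ℝ → ℝ × ℝ} (hγ : Orb (fun z => H t0 (lm p q r s z)) γ) (t : ℝ) :
    HasDerivAt (fun t => lm p q r s (γ t))
      ((e : ℝ) * d2 (H t0) (lm p q r s (γ t)), -((e : ℝ) * d1 (H t0) (lm p q r s (γ t)))) t := by
  have hd' : (p : ℝ) * s - q * r = e := by exact_mod_cast hd
  have s1 := (ham_p2 hH t0).smooth
  have h1 := (H83D.a1_lin p q r s).hasFDerivAt.comp_hasDerivAt t (hγ t)
  rw [d1_lm s1, d2_lm s1] at h1
  have h2 : H83D.a1_lin p q r s ((q : ℝ) * d1 (H t0) (lm p q r s (γ t)) + (s : ℝ) * d2 (H t0) (lm p q r s (γ t)),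
      -((p : ℝ) * d1 (H t0) (lm p q r s (γ t)) + (r : ℝ) * d2 (H t0) (lm p q r s (γ t)))) =
      ((e : ℝ) * d2 (H t0) (lm p q r s (γ t)), -((e : ℝ) * d1 (H t0) (lm p q r s (γ t)))) := by
    rw [H83D.a1_lin_apply]
    unfold lm
    refine Prod.ext ?_ ?_
    · show (p : ℝ) * ((q : ℝ) * _ + (s : ℝ) * _) + (q : ℝ) * -((p : ℝ) * _ + (r : ℝ) * _) = (e : ℝ) * _
      rw [← hd']
      ring
    · show (r : ℝ) * ((q : ℝ) * _ + (s : ℝ) * _) + (s : ℝ) * -((p : ℝ) * _ + (r : ℝ) * _) = -((e : ℝ) * _)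
      rw [← hd']
      ring
  rw [h2] at h1
  exact h1

theorem a4_neg {γ : ℝ → ℝ × ℝ} {v : ℝ × ℝ} {t : ℝ} (h : HasDerivAt γ v (-t)) :
    HasDerivAt (fun t => γ (-t)) (-v) t := by
  have h1 := HasDerivAt.scomp (𝕜 := ℝ) t h (hasDerivAt_neg t)
  rw [neg_smul, one_smul] at h1
  exact h1

theorem ham_lm {H : ℝ → ℝ × ℝ → ℝ} (hH : Ham H) {p q r s e : ℤ} (hd : p * s - q * r = e) (he : e * e = 1) :
    Ham (fun t z => H t (lm p q r s z)) := by
  refine ⟨?_, ?_, ?_, ?_, ?_⟩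
  · exact hH.smooth.comp (contDiff_fst.prodMk ((H83D.a1_lin p q r s).contDiff.comp contDiff_snd))
  · intro t z k
    show H t (lm p q r s (z + iv k)) = H t (lm p q r s z)
    rw [lm_add, hH.per]
  · intro t z
    exact hH.pers t _
  · intro t z hc
    exact hH.crit t _ ((a4_crit hH hd he t z).1 hc)
  · intro t0 γ T k n hT hT1 hγ hp hI
    refine (a4_crit hH hd he t0 (γ 0)).2 ?_
    have hI' : (∫ t in (0 : ℝ)..T, dS H t0 (lm p q r s (γ t))) = n := hI
    have hp' : ∀ t, lm p q r s (γ (t + T)) = lm p q r s (γ t) + iv (p * k.1 + q * k.2, r * k.1 + s * k.2) := by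
      intro t
      rw [hp, lm_add]
    have he2 : e = 1 ∨ e = -1 := by
      rcases Int.isUnit_iff.1 (IsUnit.of_mul_eq_one e he) with h | h
      · exact Or.inl h
      · exact Or.inr h
    rcases he2 with he1 | he1
    · refine hH.orb t0 (fun t => lm p q r s (γ t)) T _ n hT hT1 (fun t => ?_) hp' hI'
      have h1 := a4_der hH hd t0 hγ t
      rw [he1, Int.cast_one, one_mul, one_mul] at h1
      exact h1
    · have h2 : Crit (H t0) ((fun t => lm p q r s (γ (-t))) 0) := by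
        refine hH.orb t0 (fun t => lm p q r s (γ (-t))) T (-(p * k.1 + q * k.2, r * k.1 + s * k.2)) n hT hT1
          (fun t => ?_) (fun t => ?_) ?_
        · have h1 := a4_neg (a4_der hH hd t0 hγ (-t))
          rw [he1, Int.cast_neg, Int.cast_one, neg_one_mul, neg_one_mul, neg_neg, Prod.neg_mk, neg_neg] at h1
          exact h1
        · exact a4_perneg (γ := fun t => lm p q r s (γ t)) hp' t
        · rw [← hI']
          exact a4_rev (a4_dper hH t0 (γ := fun t => lm p q r s (γ t)) hp')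
      simpa using h2

theorem a4_d (f : ℝ × ℝ → ℝ) (z v : ℝ × ℝ) : fderiv ℝ (fun z => -f z) z v = -fderiv ℝ f z v := by
  have h : fderiv ℝ (fun z => -f z) z = -fderiv ℝ f z := fderiv_neg
  rw [h]
  rfl

theorem ham_neg {H : ℝ → ℝ × ℝ → ℝ} (hH : Ham H) : Ham (fun s z => -H s z) := by
  have e1 : ∀ s z, d1 (fun z => -H s z) z = -d1 (H s) z := fun s z => a4_d (H s) z (1, 0)
  have e2 : ∀ s z, d2 (fun z => -H s z) z = -d2 (H s) z := fun s z => a4_d (H s) z (0, 1)
  have e3 : ∀ s z, dS (fun s z => -H s z) s z = -dS H s z := by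
    intro s z
    show deriv (fun s' => -H s' z) s = -deriv (fun s' => H s' z) s
    exact deriv.neg
  have hc : ∀ s z, Crit (fun z => -H s z) z ↔ Crit (H s) z := by
    intro s z
    unfold Crit
    rw [e1, e2, neg_eq_zero, neg_eq_zero]
  refine ⟨hH.smooth.neg, ?_, ?_, ?_, ?_⟩
  · intro t z k
    show -H t (z + iv k) = -H t z
    rw [hH.per]
  · intro t z
    show -H (t + 1) z = -H t z
    rw [hH.pers]
  · intro t z h
    rw [e3, abs_neg]
    exact hH.crit t z ((hc t z).1 h)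
  · intro t0 γ T k n hT hT1 hγ hp hI
    refine (hc t0 (γ 0)).2 ?_
    have h2 : Crit (H t0) ((fun t => γ (-t)) 0) := by
      refine hH.orb t0 (fun t => γ (-t)) T (-k) (-n) hT hT1 (fun t => ?_) (fun t => a4_perneg hp t) ?_
      · have h1 := a4_neg (hγ (-t))
        rw [e1, e2, neg_neg, Prod.neg_mk, neg_neg] at h1
        exact h1
      · have h3 : (∫ t in (0 : ℝ)..T, -dS H t0 (γ t)) = n := by
          rw [← hI]
          refine intervalIntegral.integral_congr fun t _ => ?_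
          exact (e3 t0 (γ t)).symm
        rw [intervalIntegral.integral_neg] at h3
        rw [a4_rev (a4_dper hH t0 hp)]
        push_cast
        linarith
    simpa using h2

theorem ham_rf {H : ℝ → ℝ × ℝ → ℝ} (hH : Ham H) : Ham (fun s z => H s (z.1, -z.2)) := by
  have h1 := ham_lm hH (p := 1) (q := 0) (r := 0) (s := -1) (e := -1) (by norm_num) (by norm_num)
  have h2 : (fun t z => H t (lm 1 0 0 (-1) z)) = fun s z => H s (z.1, -z.2) := by
    funext t z
    have h3 : lm 1 0 0 (-1) z = (z.1, -z.2) := by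
      unfold lm
      refine Prod.ext ?_ ?_
      · simp
      · simp
    rw [h3]
  rw [h2] at h1
  exact h1

end H25S
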