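import Pool.Agent.Lib.H83D.Defs

/-!
# H25S: circle-invariant Hamiltonians on the symplectic torus `T^4` (MP_dec836): definitions

`H s z`, `s ∈ ℝ` (the conserved coordinate), `z = (x, y) ∈ ℝ²`; everything is `1`-periodic in all coordinates.
`Cyl` is the cylinder `ℝ/ℤ × ℝ`, `pr : ℝ² → Cyl` the covering.
-/

namespace H25S

open MeasureTheory H83D

/-- The cylinder. -/
abbrev Cyl : Type := AddCircle (1 : ℝ) × ℝ

/-- The covering of the cylinder. -/
def pr (z : ℝ × ℝ) : Cyl := ((z.1 : AddCircle (1 : ℝ)), z.2)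

/-- The vertical translation of the cylinder. -/
def sh (j : ℝ) (w : Cyl) : Cyl := (w.1, w.2 + j)

/-- The reflection of the cylinder. -/
def rf (w : Cyl) : Cyl := (w.1, -w.2)

/-- The part of the complement of `K` which is connected to the upper end. -/
def Up (K : Set Cyl) : Set Cyl :=
  {z | ∃ S : Set Cyl, IsPreconnected S ∧ Disjoint S K ∧ z ∈ S ∧ ∃ M : ℝ, ∀ w : Cyl, M ≤ w.2 → w ∈ S}

/-- The part of the complement of `K` which is connected to the lower end. -/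
def Dn (K : Set Cyl) : Set Cyl :=
  {z | ∃ S : Set Cyl, IsPreconnected S ∧ Disjoint S K ∧ z ∈ S ∧ ∃ M : ℝ, ∀ w : Cyl, w.2 ≤ M → w ∈ S}

/-- `K` separates the two ends. -/
def Sep (K : Set Cyl) : Prop := Disjoint (Up K) (Dn K)

/-- A choice of a point above `w`. -/
noncomputable def lft (w : Cyl) : ℝ × ℝ := (Function.surjInv (QuotientAddGroup.mk_surjective (s := AddSubgroup.zmultiples (1 : ℝ))) w.1, w.2)

/-- The function on the cylinder defined by a periodic function. -/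
noncomputable def dsc (f : ℝ × ℝ → ℝ) (w : Cyl) : ℝ := f (lft w)

/-- The superlevel set on the cylinder. -/
def SL (f : ℝ × ℝ → ℝ) (c : ℝ) : Set Cyl := {w | c ≤ dsc f w}

/-- `C²` and periodic. -/
structure P2 (f : ℝ × ℝ → ℝ) : Prop where
  smooth : ContDiff ℝ 2 f
  per : ∀ (z : ℝ × ℝ) (k : ℤ × ℤ), f (z + iv k) = f z

/-- Orbits of the Hamiltonian flow of `f` on the plane. -/
def Orb (f : ℝ × ℝ → ℝ) (γ : ℝ → ℝ × ℝ) : Prop := ∀ t, HasDerivAt γ (d2 f (γ t), -d1 f (γ t)) t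

/-- `z` is a critical point of `f`. -/
def Crit (f : ℝ × ℝ → ℝ) (z : ℝ × ℝ) : Prop := d1 f z = 0 ∧ d2 f z = 0

/-- The derivative with respect to the parameter. -/
noncomputable def dS (H : ℝ → ℝ × ℝ → ℝ) (s : ℝ) (z : ℝ × ℝ) : ℝ := deriv (fun s' => H s' z) s

/-- The reduced Hamiltonians of a circle-invariant Hamiltonian on `T^4` without fast orbits. -/
structure Ham (H : ℝ → ℝ × ℝ → ℝ) : Prop where
  smooth : ContDiff ℝ 2 (fun p : ℝ × (ℝ × ℝ) => H p.1 p.2)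
  per : ∀ (s : ℝ) (z : ℝ × ℝ) (k : ℤ × ℤ), H s (z + iv k) = H s z
  pers : ∀ (s : ℝ) (z : ℝ × ℝ), H (s + 1) z = H s z
  crit : ∀ (s : ℝ) (z : ℝ × ℝ), Crit (H s) z → |dS H s z| < 1
  orb : ∀ (s : ℝ) (γ : ℝ → ℝ × ℝ) (T : ℝ) (k : ℤ × ℤ) (n : ℤ), 0 < T → T ≤ 1 → Orb (H s) γ →
    (∀ t, γ (t + T) = γ t + iv k) → (∫ t in (0 : ℝ)..T, dS H s (γ t)) = n → Crit (H s) (γ 0)

/-- `K` is a compact connected component of `A`. -/
structure IsComp (K A : Set Cyl) : Prop where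
  cpt : IsCompact K
  con : IsConnected K
  sub : K ⊆ A
  max : ∀ S : Set Cyl, IsPreconnected S → S ⊆ A → (S ∩ K).Nonempty → S ⊆ K

/-- A set which contains the lower end and does not meet the upper end. -/
def Low (D : Set Cyl) : Prop := ∃ M : ℝ, (∀ w : Cyl, w.2 ≤ -M → w ∈ D) ∧ ∀ w : Cyl, M ≤ w.2 → w ∉ D

/-- The renormalised area of a lower set. -/
noncomputable def ar (D : Set Cyl) : ℝ :=
  (volume (D ∩ {w | 0 < w.2})).toReal - (volume (Dᶜ ∩ {w | w.2 ≤ 0})).toReal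

/-- The upper and the lower area position of `K`. -/
noncomputable def aU (K : Set Cyl) : ℝ := ar (Up K)ᶜ
noncomputable def aL (K : Set Cyl) : ℝ := ar (Dn K)

/-- There is an essential continuum in `{f ≥ c}` at the position `a`. -/
def Ess (f : ℝ × ℝ → ℝ) (c a : ℝ) : Prop :=
  ∃ K : Set Cyl, IsCompact K ∧ IsConnected K ∧ K ⊆ SL f c ∧ Sep K ∧ aL K ≤ a ∧ a ≤ aU K

/-- There is an essential continuum in `{f ≥ c}` which meets one of its vertical translates. -/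
def Dbl (f : ℝ × ℝ → ℝ) (c : ℝ) : Prop :=
  ∃ (K : Set Cyl) (j : ℤ), IsCompact K ∧ IsConnected K ∧ K ⊆ SL f c ∧ Sep K ∧ 0 < j ∧ (K ∩ sh j '' K).Nonempty

/-- The best level of an essential continuum at the position `a`. -/
noncomputable def hh (H : ℝ → ℝ × ℝ → ℝ) (s a : ℝ) : ℝ := sSup {c | Ess (H s) c a}

/-- The translates of a continuum by a small square. -/
def thk (r : ℝ) (K : Set Cyl) : Set Cyl :=
  (fun p : Cyl × (ℝ × ℝ) => p.1 + pr p.2) '' (K ×ˢ (Set.Icc (-r) r ×ˢ Set.Icc (-r) r))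

/-- The normal vector field, and the coordinates near an orbit. -/
noncomputable def nv (f : ℝ × ℝ → ℝ) (z : ℝ × ℝ) : ℝ × ℝ :=
  (d1 f z / (d1 f z ^ 2 + d2 f z ^ 2), d2 f z / (d1 f z ^ 2 + d2 f z ^ 2))

noncomputable def Psi (f : ℝ × ℝ → ℝ) (γ : ℝ → ℝ × ℝ) (p : ℝ × ℝ) : ℝ × ℝ := γ p.1 + p.2 • nv f (γ p.1)

/-- Arcs in all integral directions (abstract form of `H83D.arc_gen`). -/
def Arcs (f : ℝ × ℝ → ℝ) : Prop :=
  ∀ v : ℤ × ℤ, IsCoprime v.1 v.2 → ∀ y : ℝ × ℝ, ∃ γ : ℝ → ℝ × ℝ, Continuous γ ∧ γ 0 = y ∧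
    (∀ c, lf v (γ c) = lf v y + c) ∧ ∀ c, |c| ≤ 20 → f y - max |c| 1 ≤ f (γ c)

end H25S
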