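import Pool.Agent.Lib.H25S.Defs

/-!
# H25S: further definitions (tube around a periodic orbit, circles)
-/

namespace H25S

open MeasureTheory H83D Set

/-- Euclidean circles. -/
noncomputable def cz (z₀ : ℝ × ℝ) (ρ θ : ℝ) : ℝ × ℝ := (z₀.1 + ρ * Real.cos θ, z₀.2 + ρ * Real.sin θ)

/-- The square of the Euclidean distance. -/
def d2q (z z₀ : ℝ × ℝ) : ℝ := (z.1 - z₀.1) ^ 2 + (z.2 - z₀.2) ^ 2

/-- The tube around the orbit. -/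
def tub (f : ℝ × ℝ → ℝ) (γ : ℝ → ℝ × ℝ) (ε : ℝ) : Set Cyl := {w | ∃ t u : ℝ, |u| < ε ∧ w = pr (Psi f γ (t, u))}

/-- The curve `u = b t`. -/
def crv (f : ℝ × ℝ → ℝ) (γ : ℝ → ℝ × ℝ) (b : ℝ → ℝ) : Set Cyl := {w | ∃ t : ℝ, w = pr (Psi f γ (t, b t))}

/-- The set `D` modified to `{u ≥ b t}` in the tube. -/
def mdf (f : ℝ × ℝ → ℝ) (γ : ℝ → ℝ × ℝ) (ε : ℝ) (b : ℝ → ℝ) (D : Set Cyl) : Set Cyl :=
  (D \ tub f γ ε) ∪ {w | ∃ t u : ℝ, b t ≤ u ∧ |u| < ε ∧ w = pr (Psi f γ (t, u))}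

/-- The situation of a tube around the frontier of `Up K`. -/
structure Tube (f : ℝ × ℝ → ℝ) (γ : ℝ → ℝ × ℝ) (T : ℝ) (k : ℤ) (ε : ℝ) (K : Set Cyl) : Prop where
  p2 : P2 f
  orb : Orb f γ
  reg : ¬ Crit f (γ 0)
  Tpos : 0 < T
  epos : 0 < ε
  per : ∀ t, γ (t + T) = γ t + iv (k, 0)
  inj : ∀ t u t' u' : ℝ, |u| < ε → |u'| < ε → pr (Psi f γ (t, u)) = pr (Psi f γ (t', u')) → u = u' ∧ ∃ n : ℤ, t' = t + n * T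
  opn : ∀ O : Set (ℝ × ℝ), O ⊆ univ ×ˢ Ioo (-ε) ε → IsOpen O → IsOpen (Psi f γ '' O)
  cpt : IsCompact K
  inK : ∀ t u : ℝ, 0 ≤ u → u < ε → pr (Psi f γ (t, u)) ∈ K
  inU : ∀ t u : ℝ, -ε < u → u < 0 → pr (Psi f γ (t, u)) ∈ Up K
  fro : frontier (Up K) = range (fun t => pr (γ t))

end H25S
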