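import Pool.Agent.Lib.H25S.Defs2

/-!
# H25S: levels without non-contractible paths
-/

namespace H25S

open MeasureTheory H83D Set

/-- Above the level `c₁` no superlevel set contains a path from `z` to `z + k`, `k ≠ 0` integral. -/
def NoPath (H : ℝ → ℝ × ℝ → ℝ) (c₁ : ℝ) : Prop :=
  ∀ (s c : ℝ) (z : ℝ × ℝ) (k : ℤ × ℤ), c₁ < c → JoinedIn {x | c ≤ H s x} z (z + iv k) → k = 0

end H25S
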