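import Pool.Agent.Lib.H25S.Defs

/-!
# H25S: Hamiltonians on `T^4`
-/

namespace H25S

open MeasureTheory H83D Set

/-- `ℝ⁴`, points `(x, y)`. -/
abbrev E4 : Type := (Fin 2 → ℝ) × (Fin 2 → ℝ)

/-- The Hamiltonian vector of a linear form: `(∂/∂y, - ∂/∂x)`. -/
noncomputable def jv (l : E4 →L[ℝ] ℝ) : E4 :=
  ((fun i => l ((0 : Fin 2 → ℝ), (Pi.single i (1 : ℝ) : Fin 2 → ℝ))),
    (fun i => -l ((Pi.single i (1 : ℝ) : Fin 2 → ℝ), (0 : Fin 2 → ℝ))))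

/-- Integral vectors. -/
def zv (a b : Fin 2 → ℤ) : E4 := ((fun i => (a i : ℝ)), (fun i => (b i : ℝ)))

/-- Hamiltonians on `T^4` without fast orbits. -/
structure T4 (H : E4 → ℝ) : Prop where
  smooth : ContDiff ℝ 2 H
  per : ∀ (z : E4) (a b : Fin 2 → ℤ), H (z + zv a b) = H z
  orb : ∀ (T : ℝ) (γ : ℝ → E4), 0 < T → T ≤ 1 → (∀ t : ℝ, HasDerivAt γ (jv (fderiv ℝ H (γ t))) t) →
    (∃ a b : Fin 2 → ℤ, γ T = γ 0 + zv a b) → ∀ t : ℝ, γ t = γ 0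

/-- The reduced Hamiltonians. -/
def red (H : E4 → ℝ) (s : ℝ) (z : ℝ × ℝ) : ℝ := H (![z.1, s], ![z.2, 0])

end H25S
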