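import Pool.Agent.Lib.H25S.T14

/-!
# Chunk E1 (M)
A logarithm. `w₀ ∈ K`, `z₀` above it. `Õ = {z | JoinedIn (pr ⁻¹' O) z₀ z}` is open (`ℝ × ℝ` locally path connected: balls inside the open set `pr ⁻¹' O`). `pr` is injective on `Õ`: `pr z = pr z'`, `z' = z + iv (k,0)` (`pr_eq`), `z`, `z'` are joined in `pr ⁻¹' O`, so `k = 0`. `K ⊆ pr '' Õ` (`joined_lift`). So `pr : Õ → pr '' Õ` is a continuous open bijection;
for `w ∈ K` let `u w` be the first coordinate of the point of `Õ` above `w`: continuous on `K` (for an open `V ⊆ ℝ`: `{w ∈ pr '' Õ | u w ∈ V} = pr '' (Õ ∩ Prod.fst ⁻¹' V)` is open). Extend from the compact (closed) set `K` to `Cyl` by Tietze (`ContinuousMap.exists_restrict_eq`, `Cyl` is a metric space).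
-/

namespace H25S

open MeasureTheory H83D Set Filter Topology

theorem log_ex {K O : Set Cyl} (hK : IsCompact K) (cK : IsConnected K) (hO : IsOpen O) (hKO : K ⊆ O)
    (hno : ∀ (z : ℝ × ℝ) (k : ℤ), JoinedIn (pr ⁻¹' O) z (z + iv (k, 0)) → k = 0) :
    ∃ θ : Cyl → ℝ, Continuous θ ∧ ∀ w ∈ K, (θ w : AddCircle (1 : ℝ)) = w.1 := by
  classical
  obtain ⟨w₀, hw₀⟩ := cK.nonempty
  obtain ⟨z₀, hz₀⟩ := pr_surj w₀
  have oP : IsOpen (pr ⁻¹' O) := hO.preimage pr_cont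
  have oT : IsOpen (pathComponentIn (pr ⁻¹' O) z₀) := oP.pathComponentIn z₀
  have inj : ∀ z ∈ pathComponentIn (pr ⁻¹' O) z₀, ∀ z' ∈ pathComponentIn (pr ⁻¹' O) z₀, pr z = pr z' → z = z' := by
    intro z hz z' hz' h
    obtain ⟨k, hk⟩ := pr_eq.1 h
    have h1 : JoinedIn (pr ⁻¹' O) z (z + iv (k, 0)) := by
      rw [← hk]
      exact (JoinedIn.symm hz).trans hz'
    have k0 := hno z k h1
    rw [hk, k0]
    ext <;> simp [iv]
  have cov : ∀ w ∈ K, ∃ z ∈ pathComponentIn (pr ⁻¹' O) z₀, pr z = w := fun w hw => by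
    obtain ⟨z', h1, h2⟩ := joined_lift cK.isPreconnected hO hKO hw₀ hw hz₀
    exact ⟨z', h2, h1⟩
  obtain ⟨s, hs⟩ : ∃ s : Cyl → ℝ × ℝ, ∀ w, (∃ z ∈ pathComponentIn (pr ⁻¹' O) z₀, pr z = w) →
      s w ∈ pathComponentIn (pr ⁻¹' O) z₀ ∧ pr (s w) = w := by
    refine ⟨fun w => if h : ∃ z ∈ pathComponentIn (pr ⁻¹' O) z₀, pr z = w then h.choose else 0, fun w h => ?_⟩
    simp only [dif_pos h]
    exact h.choose_spec
  have su : ∀ z ∈ pathComponentIn (pr ⁻¹' O) z₀, s (pr z) = z := fun z hz =>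
    inj _ (hs _ ⟨z, hz, rfl⟩).1 _ hz (hs _ ⟨z, hz, rfl⟩).2
  have cs : ContinuousOn s K := by
    intro w hw
    obtain ⟨z, hz, rfl⟩ := cov w hw
    apply ContinuousAt.continuousWithinAt
    rw [ContinuousAt, su z hz]
    intro V hV
    have h2 : pr '' (pathComponentIn (pr ⁻¹' O) z₀ ∩ V) ∈ 𝓝 (pr z) :=
      pr_open.image_mem_nhds (inter_mem (oT.mem_nhds hz) hV)
    rw [mem_map]
    filter_upwards [h2]
    rintro _ ⟨y, ⟨hyT, hyV⟩, rfl⟩
    rw [mem_preimage, su y hyT]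
    exact hyV
  have cs1 : Continuous (fun w : K => (s w).1) := continuous_fst.comp (continuousOn_iff_continuous_domRestrict.1 cs)
  obtain ⟨g, hg⟩ := ContinuousMap.exists_restrict_eq (Y := ℝ) hK.isClosed ⟨fun w : K => (s w).1, cs1⟩
  refine ⟨g, g.continuous, fun w hw => ?_⟩
  have h1 : g w = (s w).1 := DFunLike.congr_fun hg ⟨w, hw⟩
  rw [h1]
  exact congrArg Prod.fst (hs w (cov w hw)).2

end H25S
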