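import Pool.Agent.Lib.H25S.Defs

/-!
# Chunk L1 (S)
`circ_lift`: `IsCoveringMap.existsUnique_continuousMap_lifts` for `AddCircle.isCoveringMap_coe` (`ℝ × ℝ` is simply connected and locally path connected). `int_const`: a continuous function with integral values (i.e. `(u x : AddCircle 1) = 0`) on a preconnected set is constant there
(`IsPreconnected.constant`-type: the values are in the discrete set `range Int.cast`; or: two different integral values give by the intermediate value property a non-integral one).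
-/

namespace H25S

open MeasureTheory H83D Set Filter Topology

theorem l1_int {X : Type*} [TopologicalSpace X] {S : Set X} (hS : IsPreconnected S) {u : X → ℝ} (hu : ContinuousOn u S)
    (h1 : ∀ x ∈ S, ∃ k : ℤ, u x = k) {x y : X} (hx : x ∈ S) (hy : y ∈ S) : u y ≤ u x := by
  by_contra hc
  push Not at hc
  obtain ⟨k, hk⟩ := h1 x hx
  obtain ⟨l, hl⟩ := h1 y hy
  have hkl : k < l := by
    have h : (k : ℝ) < l := by rw [← hk, ← hl]; exact hc
    exact_mod_cast h
  have hkl' : (k : ℝ) + 1 ≤ l := by exact_mod_cast hkl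
  have hm : (k : ℝ) + 1 / 2 ∈ Icc (u x) (u y) := by
    rw [hk, hl]
    constructor <;> linarith
  obtain ⟨z, hz, hz2⟩ := hS.intermediate_value hx hy hu hm
  obtain ⟨m, hm2⟩ := h1 z hz
  have h3 : (m : ℝ) = k + 1 / 2 := by rw [← hm2]; exact hz2
  have h4 : ((2 * m : ℤ) : ℝ) = ((2 * k + 1 : ℤ) : ℝ) := by
    push_cast
    linarith
  have h5 : 2 * m = 2 * k + 1 := by exact_mod_cast h4
  omega

theorem circ_lift {ψ : ℝ × ℝ → AddCircle (1 : ℝ)} (hψ : Continuous ψ) :
    ∃ g : ℝ × ℝ → ℝ, Continuous g ∧ ∀ z, (g z : AddCircle (1 : ℝ)) = ψ z := by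
  obtain ⟨e₀, he⟩ := QuotientAddGroup.mk_surjective (s := AddSubgroup.zmultiples (1 : ℝ)) (ψ 0)
  obtain ⟨F, ⟨-, hF⟩, -⟩ := (AddCircle.isCoveringMap_coe (1 : ℝ)).existsUnique_continuousMap_lifts
    (⟨ψ, hψ⟩ : C(ℝ × ℝ, AddCircle (1 : ℝ))) 0 e₀ he
  exact ⟨F, F.continuous, fun z => congrFun hF z⟩

theorem int_const {X : Type*} [TopologicalSpace X] {S : Set X} (hS : IsPreconnected S) {u : X → ℝ} (hu : ContinuousOn u S)
    (h0 : ∀ x ∈ S, (u x : AddCircle (1 : ℝ)) = 0) {x y : X} (hx : x ∈ S) (hy : y ∈ S) : u x = u y ∧ ∃ k : ℤ, u x = k := by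
  have h1 : ∀ x ∈ S, ∃ k : ℤ, u x = k := by
    intro x hx
    obtain ⟨n, hn⟩ := AddCircle.coe_eq_zero_iff (1 : ℝ) |>.1 (h0 x hx)
    exact ⟨n, by rw [← hn]; simp⟩
  exact ⟨le_antisymm (l1_int hS hu h1 hy hx) (l1_int hS hu h1 hx hy), h1 x hx⟩

end H25S
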