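import Pool.Agent.Lib.H25S.T0
import Pool.Agent.Lib.H25S.L1

/-!
# Chunk L2 (M)
`wind`: lift `ψ ∘ pr` (`circ_lift`); `g (z + (1,0)) - g z` is continuous with integral values on `univ` (`pr (z + (1,0)) = pr z`), so it is a constant integer (`int_const`). `cyl_lift`: for `M ≤ z.2` the values of `g` are integral, constant on the half plane, so `k = 0`; `g` is invariant under `z ↦ z + (1,0)`, hence under `iv (k,0)`, and descends: `G w = g (lft w)`,
`G (pr z) = g z` (`pr_eq`), continuous as `pr` is a quotient map.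
-/

namespace H25S

open MeasureTheory H83D Set Filter Topology

theorem wind {ψ : Cyl → AddCircle (1 : ℝ)} (hψ : Continuous ψ) :
    ∃ (g : ℝ × ℝ → ℝ) (k : ℤ), Continuous g ∧ (∀ z, (g z : AddCircle (1 : ℝ)) = ψ (pr z)) ∧ ∀ z, g (z + (1, 0)) = g z + k := by
  obtain ⟨g, hg, h⟩ := circ_lift (hψ.comp pr_cont)
  have hpr : ∀ z : ℝ × ℝ, pr (z + (1, 0)) = pr z := by
    intro z
    symm
    rw [pr_eq]
    exact ⟨1, by simp [iv]⟩
  have hu : Continuous (fun z : ℝ × ℝ => g (z + (1, 0)) - g z) :=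
    (hg.comp (continuous_id.add continuous_const)).sub hg
  have h0 : ∀ z ∈ (univ : Set (ℝ × ℝ)), ((g (z + (1, 0)) - g z : ℝ) : AddCircle (1 : ℝ)) = 0 := by
    intro z _
    have e1 : (g (z + (1, 0)) : AddCircle (1 : ℝ)) = ψ (pr (z + (1, 0))) := h _
    have e2 : (g z : AddCircle (1 : ℝ)) = ψ (pr z) := h _
    rw [AddCircle.coe_sub, e1, e2, hpr z, sub_self]
  obtain ⟨k, hk⟩ := (int_const (S := univ) isPreconnected_univ hu.continuousOn h0 (mem_univ 0) (mem_univ 0)).2
  refine ⟨g, k, hg, fun z => h z, fun z => ?_⟩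
  have h1 := (int_const (S := univ) isPreconnected_univ hu.continuousOn h0 (mem_univ z) (mem_univ 0)).1
  have h2 : g (z + (1, 0)) - g z = (k : ℝ) := h1.trans hk
  linarith

theorem cyl_lift {ψ : Cyl → AddCircle (1 : ℝ)} (hψ : Continuous ψ) {M : ℝ} (h0 : ∀ w : Cyl, M ≤ w.2 → ψ w = 0) :
    ∃ G : Cyl → ℝ, Continuous G ∧ ∀ w, (G w : AddCircle (1 : ℝ)) = ψ w := by
  obtain ⟨g, k, hg, h, hk⟩ := wind hψ
  have hpre : IsPreconnected {z : ℝ × ℝ | M ≤ z.2} := by
    have hc : Convex ℝ {z : ℝ × ℝ | M ≤ z.2} := by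
      have hh : {z : ℝ × ℝ | M ≤ z.2} = (LinearMap.snd ℝ ℝ ℝ) ⁻¹' (Ici M) := rfl
      rw [hh]
      exact (convex_Ici M).linear_preimage _
    exact hc.isPreconnected
  have h00 : ∀ z ∈ {z : ℝ × ℝ | M ≤ z.2}, ((g z : ℝ) : AddCircle (1 : ℝ)) = 0 := by
    intro z hz
    have e1 : (g z : AddCircle (1 : ℝ)) = ψ (pr z) := h z
    rw [e1]
    exact h0 (pr z) hz
  have hk0 : (k : ℝ) = 0 := by
    have h1 := (int_const hpre hg.continuousOn h00 (x := (0, M) + (1, 0)) (y := (0, M))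
      (by simp) (by simp)).1
    have h2 := hk (0, M)
    linarith
  have hper : Function.Periodic g (1, 0) := by
    intro z
    rw [hk z, hk0, add_zero]
  have hiv : ∀ (z : ℝ × ℝ) (n : ℤ), g (z + iv (n, 0)) = g z := by
    intro z n
    have h1 := (hper.zsmul n) z
    have h2 : n • ((1 : ℝ), (0 : ℝ)) = iv (n, 0) := by
      simp [iv]
    rw [h2] at h1
    exact h1
  have hG : ∀ z, g (lft (pr z)) = g z := by
    intro z
    obtain ⟨n, hn⟩ := pr_eq.mp (pr_lft (pr z))
    have h1 := hiv (lft (pr z)) n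
    rw [← hn] at h1
    exact h1.symm
  refine ⟨fun w => g (lft w), ?_, ?_⟩
  · have hq : IsQuotientMap pr := pr_open.isQuotientMap pr_cont pr_surj
    rw [hq.continuous_iff]
    have e : (fun w => g (lft w)) ∘ pr = g := funext fun z => hG z
    rw [e]
    exact hg
  · intro w
    have e1 : (g (lft w) : AddCircle (1 : ℝ)) = ψ (pr (lft w)) := h _
    rw [pr_lft] at e1
    exact e1

end H25S
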