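import Pool.Agent.Lib.H25S.T5
import Pool.Agent.Lib.H25S.L2

/-!
# Chunk E2 (M)
GLUING. `ψ w = (θ w : AddCircle 1)` for `w ∈ Dn K`, `ψ w = w.1` otherwise: continuous, as `frontier (Dn K) ⊆ K` (`dn_front`) and there the two agree (`continuous_piecewise`, `Continuous.if`). `wind`: `g`, `k`. Let `|w.2| < M` on `K`. For `M ≤ z.2` the point `pr z` is in `Up K`, not in `Dn K`: `(g z : AddCircle 1) = z.1`, so `g z - z.1` is a constant
integer on `{M ≤ z.2}` (convex, `int_const`) and `k = 1`. For `z.2 ≤ -M`: `pr z ∈ Dn K`, `g z - θ (pr z)` is a constant integer, `θ (pr (z + (1,0))) = θ (pr z)`, so `k = 0`. Contradiction.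
-/

namespace H25S

open MeasureTheory H83D Set Filter Topology

theorem log_sep {K : Set Cyl} (hK : IsCompact K) (hs : Sep K) {θ : Cyl → ℝ} (cθ : Continuous θ)
    (hθ : ∀ w ∈ K, (θ w : AddCircle (1 : ℝ)) = w.1) : False := by
  classical
  obtain ⟨M, hM, hMK⟩ := cpt_bd hK
  have hψ : Continuous (fun w : Cyl => if w ∈ Dn K then (θ w : AddCircle (1 : ℝ)) else w.1) := by
    refine Continuous.if ?_ ((AddCircle.continuous_mk' (1 : ℝ)).comp cθ) continuous_fst
    intro a ha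
    have ha' : a ∈ frontier (Dn K) := ha
    exact hθ a (dn_front hK.isClosed ha')
  obtain ⟨g, k, cg, hg, hk⟩ := wind hψ
  have hk0 : ∀ y : ℝ, g (1, y) = g (0, y) + k := by
    intro y
    have h := hk (0, y)
    have h1 : ((0, y) : ℝ × ℝ) + (1, 0) = (1, y) := by simp
    rw [h1] at h
    exact h
  -- upper end
  have h1 : (k : ℝ) = 1 := by
    have hS : IsPreconnected {z : ℝ × ℝ | M ≤ z.2} := by
      have hc : Convex ℝ {z : ℝ × ℝ | M ≤ z.2} :=
        convex_halfSpace_ge (f := fun z : ℝ × ℝ => z.2) ⟨fun _ _ => rfl, fun _ _ => rfl⟩ M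
      exact hc.isPreconnected
    have hu : ContinuousOn (fun z : ℝ × ℝ => g z - z.1) {z : ℝ × ℝ | M ≤ z.2} :=
      (cg.sub continuous_fst).continuousOn
    have h0 : ∀ z ∈ {z : ℝ × ℝ | M ≤ z.2}, ((g z - z.1 : ℝ) : AddCircle (1 : ℝ)) = 0 := by
      intro z hz
      have hUp : pr z ∈ Up K := up_end (fun w hw => (abs_lt.1 (hMK w hw)).2) (pr z) hz
      have hDn : pr z ∉ Dn K := Set.disjoint_left.1 hs hUp
      have h2 := hg z
      rw [if_neg hDn] at h2
      rw [AddCircle.coe_sub, h2]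
      exact sub_self _
    have h3 := (int_const hS hu h0 (x := ((0 : ℝ), M)) (y := ((1 : ℝ), M)) (le_refl M) (le_refl M)).1
    have h4 := hk0 M
    simp only at h3
    linarith
  have h2 : (k : ℝ) = 0 := by
    have hS : IsPreconnected {z : ℝ × ℝ | z.2 ≤ -M} := by
      have hc : Convex ℝ {z : ℝ × ℝ | z.2 ≤ -M} :=
        convex_halfSpace_le (f := fun z : ℝ × ℝ => z.2) ⟨fun _ _ => rfl, fun _ _ => rfl⟩ (-M)
      exact hc.isPreconnected
    have hu : ContinuousOn (fun z : ℝ × ℝ => g z - θ (pr z)) {z : ℝ × ℝ | z.2 ≤ -M} :=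
      (cg.sub (cθ.comp pr_cont)).continuousOn
    have h0 : ∀ z ∈ {z : ℝ × ℝ | z.2 ≤ -M}, ((g z - θ (pr z) : ℝ) : AddCircle (1 : ℝ)) = 0 := by
      intro z hz
      have hDn : pr z ∈ Dn K := dn_end (fun w hw => (abs_lt.1 (hMK w hw)).1) (pr z) hz
      have h2 := hg z
      rw [if_pos hDn] at h2
      rw [AddCircle.coe_sub, h2]
      exact sub_self _
    have h3 := (int_const hS hu h0 (x := ((0 : ℝ), -M)) (y := ((1 : ℝ), -M)) (le_refl (-M)) (le_refl (-M))).1
    have h4 := hk0 (-M)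
    have h5 : pr (1, -M) = pr (0, -M) := by
      rw [pr_eq]
      exact ⟨-1, by simp [iv]⟩
    simp only [h5] at h3
    linarith
  linarith

end H25S
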