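import Pool.Agent.Lib.H25S.O3
import Pool.Agent.Lib.H25S.A1

/-!
# Chunk Q1 (M)
`H s` is bounded (`H83D.a4_bdd` for the continuous periodic `H s`). The set `{c | Ess (H s) c a}` is nonempty (`ess_min`), bounded above (`ess_le`) and downward closed (`ess_mono`); so `le_hh` is `le_csSup` and `lt_hh` is `exists_lt_of_lt_csSup` + `ess_mono`. Periodicity: `pers` (`H (s+1) = H s` as functions), `ess_sh`. `hh_rf`: `ess_rf` in both directions (`(z.1, -(-z.2)) = z`).
-/

namespace H25S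

open MeasureTheory H83D Set Filter Topology

theorem hh_basic {H : ℝ → ℝ × ℝ → ℝ} (hH : Ham H) (s a : ℝ) : BddAbove {c | Ess (H s) c a} ∧ {c | Ess (H s) c a}.Nonempty := by
  obtain ⟨C, hC⟩ := a4_bdd (ham_p2 hH s).smooth.continuous (ham_p2 hH s).per
  refine ⟨⟨C, fun c hc => ess_le hc fun z => ?_⟩, ⟨-C, ess_min (fun z => ?_) a⟩⟩
  · exact (le_abs_self _).trans ((Real.norm_eq_abs _).symm.le.trans (hC z))
  · have h1 := hC z
    rw [Real.norm_eq_abs] at h1
    exact (abs_le.1 h1).1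

theorem le_hh {H : ℝ → ℝ × ℝ → ℝ} (hH : Ham H) {s a c : ℝ} (h : Ess (H s) c a) : c ≤ hh H s a := by
  exact le_csSup (hh_basic hH s a).1 h

theorem lt_hh {H : ℝ → ℝ × ℝ → ℝ} (hH : Ham H) {s a c : ℝ} (h : c < hh H s a) : Ess (H s) c a := by
  obtain ⟨c', hc', h1⟩ := exists_lt_of_lt_csSup (hh_basic hH s a).2 h
  exact ess_mono h1.le hc'

theorem hh_pers {H : ℝ → ℝ × ℝ → ℝ} (hH : Ham H) (s a : ℝ) : hh H (s + 1) a = hh H s a := by
  have h1 : H (s + 1) = H s := funext fun z => hH.pers s z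
  rw [hh, hh, h1]

theorem hh_pera {H : ℝ → ℝ × ℝ → ℝ} (hH : Ham H) (s a : ℝ) (j : ℤ) : hh H s (a + j) = hh H s a := by
  have h1 : {c | Ess (H s) c (a + j)} = {c | Ess (H s) c a} := by
    ext c
    constructor
    · intro h
      have h2 := ess_sh (hH.per s) (show Ess (H s) c (a + j) from h) (-j)
      have h3 : a + j + ((-j : ℤ) : ℝ) = a := by push_cast; ring
      rw [h3] at h2
      exact h2
    · intro h
      exact ess_sh (hH.per s) h j
  rw [hh, hh, h1]

theorem hh_rf {H : ℝ → ℝ × ℝ → ℝ} (hH : Ham H) (s a : ℝ) : hh (fun s z => H s (z.1, -z.2)) s a = hh H s (-a) := by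
  have hg : ∀ (z : ℝ × ℝ) (k : ℤ × ℤ), (fun z : ℝ × ℝ => H s (z.1, -z.2)) (z + iv k) =
      (fun z : ℝ × ℝ => H s (z.1, -z.2)) z := by
    intro z k
    change H s ((z + iv k).1, -(z + iv k).2) = H s (z.1, -z.2)
    rw [← hH.per s (z.1, -z.2) (k.1, -k.2)]
    congr 1
    ext
    · simp [iv]
    · simp [iv]; ring
  have h1 : {c | Ess (fun z : ℝ × ℝ => H s (z.1, -z.2)) c a} = {c | Ess (H s) c (-a)} := by
    ext c
    constructor
    · intro h
      have h2 := ess_rf hg h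
      simp only [neg_neg] at h2
      exact h2
    · intro h
      have h2 := ess_rf (hH.per s) h
      rw [neg_neg] at h2
      exact h2
  rw [hh, hh, h1]

end H25S
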