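import Pool.Agent.Lib.H25S.X2
import Pool.Agent.Lib.H25S.Q1
import Pool.Agent.Lib.H25S.A1

/-!
# Chunk F1 (S)
`cross_sep` with `A = SL (H s) c` (`{x | c ≤ H s x} ⊆ pr ⁻¹' A`, `mem_sl`): `K`; `a = aU K`, `aL_le_aU`. Then `le_hh`.
-/

namespace H25S

open MeasureTheory H83D Set Filter Topology

theorem path_ess {H : ℝ → ℝ × ℝ → ℝ} (hH : Ham H) {s c : ℝ} {z : ℝ × ℝ} {k : ℤ} (hk : k ≠ 0)
    (hj : JoinedIn {x | c ≤ H s x} z (z + iv (k, 0))) : ∃ a, c ≤ hh H s a := by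
  have hp := hH.per s
  have hj' : JoinedIn (pr ⁻¹' SL (H s) c) z (z + iv (k, 0)) := by
    refine hj.mono ?_
    intro x hx
    exact (mem_sl hp c x).mpr hx
  obtain ⟨K, hKA, hKc, hKn, hKs⟩ := cross_sep hk hj'
  exact ⟨aU K, le_hh hH ⟨K, hKc, hKn, hKA, hKs, aL_le_aU hKc hKs, le_rfl⟩⟩

end H25S
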