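import Pool.Agent.Lib.H25S.A2

/-!
# Chunk F2 (M)
One step, `|σ| ≤ τ` (`push_const`): the map `φ z = z + (|σ| κ) • (d1, d2)` is continuous, commutes with `iv k`, maps `{c ≤ H s}` to `{c - |σ| ≤ H (s+σ)}` (`c - (1-η)|σ| ≥ c - |σ|`): the image of the path (`JoinedIn.map`-type, or compose the `Path`) joins `φ z` and `φ z + iv k`. Induction on `n` for `|s' - s| ≤ n τ`: go first to `s + (s'-s)(n-1)/n` and then make one step of length `|s'-s|/n ≤ τ`; the losses add up to `|s' - s|`.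
-/

namespace H25S

open MeasureTheory H83D Set Filter Topology

theorem f2_step {H : ℝ → ℝ × ℝ → ℝ} (hH : Ham H) : ∃ τ : ℝ, 0 < τ ∧ ∀ (s σ c : ℝ) (z : ℝ × ℝ) (k : ℤ × ℤ), |σ| ≤ τ →
    JoinedIn {x | c ≤ H s x} z (z + iv k) → ∃ z', JoinedIn {x | c - |σ| ≤ H (s + σ) x} z' (z' + iv k) := by
  obtain ⟨κ, η, τ, hκ, hη0, hη1, hτ, hp⟩ := push_const hH
  obtain ⟨-, c1, c2, -, -⟩ := ham_ds hH
  refine ⟨τ, hτ, fun s σ c z k hσ hj => ?_⟩
  have e1 : ∀ x, d1 (H s) (x + iv k) = d1 (H s) x := fun x => a2_per (hH.per s) (1, 0) x k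
  have e2 : ∀ x, d2 (H s) (x + iv k) = d2 (H s) x := fun x => a2_per (hH.per s) (0, 1) x k
  have cc1 : Continuous (d1 (H s)) := c1.comp (continuous_const.prodMk continuous_id)
  have cc2 : Continuous (d2 (H s)) := c2.comp (continuous_const.prodMk continuous_id)
  have cφ : Continuous fun x : ℝ × ℝ => x + (|σ| * κ) • ((d1 (H s) x, d2 (H s) x) : ℝ × ℝ) := by
    fun_prop
  have h1 := hj.map_continuousOn cφ.continuousOn
  refine ⟨z + (|σ| * κ) • ((d1 (H s) z, d2 (H s) z) : ℝ × ℝ), ?_⟩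
  have h2 : z + iv k + (|σ| * κ) • ((d1 (H s) (z + iv k), d2 (H s) (z + iv k)) : ℝ × ℝ) =
      z + (|σ| * κ) • ((d1 (H s) z, d2 (H s) z) : ℝ × ℝ) + iv k := by
    rw [e1, e2]
    exact add_right_comm _ _ _
  rw [h2] at h1
  refine h1.mono ?_
  rintro _ ⟨x, hx, rfl⟩
  have hx' : c ≤ H s x := hx
  have h3 := hp s σ x hσ
  have h4 : 0 ≤ η * |σ| := mul_nonneg hη0.le (abs_nonneg σ)
  show c - |σ| ≤ H (s + σ) _
  linarith

theorem path_push {H : ℝ → ℝ × ℝ → ℝ} (hH : Ham H) {s c : ℝ} {z : ℝ × ℝ} {k : ℤ × ℤ}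
    (hj : JoinedIn {x | c ≤ H s x} z (z + iv k)) (s' : ℝ) : ∃ z', JoinedIn {x | c - |s' - s| ≤ H s' x} z' (z' + iv k) := by
  obtain ⟨τ, hτ, hs⟩ := f2_step hH
  have key : ∀ (n : ℕ) (s' : ℝ), |s' - s| ≤ n * τ → ∃ z', JoinedIn {x | c - |s' - s| ≤ H s' x} z' (z' + iv k) := by
    intro n
    induction n with
    | zero =>
      intro s' h
      rw [Nat.cast_zero, zero_mul] at h
      have h0 : s' = s := by
        have h1 := abs_nonpos_iff.1 h
        linarith
      subst h0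
      refine ⟨z, hj.mono ?_⟩
      intro x hx
      have hx' : c ≤ H s' x := hx
      show c - |s' - s'| ≤ H s' x
      rw [sub_self, abs_zero, sub_zero]
      exact hx'
    | succ n ih =>
      intro s' h
      have hn : (0 : ℝ) < (n : ℝ) + 1 := by positivity
      have hn0 : (0 : ℝ) ≤ (n : ℝ) := n.cast_nonneg
      rw [Nat.cast_succ] at h
      have d1' : |s' - s| / (n + 1) ≤ τ := by
        rw [div_le_iff₀ hn]
        linarith
      have a1 : |s + (s' - s) * (n / (n + 1)) - s| = |s' - s| / (n + 1) * n := by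
        rw [add_sub_cancel_left, abs_mul, abs_of_nonneg (div_nonneg hn0 hn.le)]
        ring
      have a2 : |(s' - s) / (n + 1)| = |s' - s| / (n + 1) := by
        rw [abs_div, abs_of_pos hn]
      have hle : |s + (s' - s) * (n / (n + 1)) - s| ≤ n * τ := by
        rw [a1]
        nlinarith
      obtain ⟨z₁, hz₁⟩ := ih (s + (s' - s) * (n / (n + 1))) hle
      obtain ⟨z₂, hz₂⟩ := hs (s + (s' - s) * (n / (n + 1))) ((s' - s) / (n + 1)) _ z₁ k (by rw [a2]; exact d1') hz₁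
      have e1 : s + (s' - s) * (n / (n + 1)) + (s' - s) / (n + 1) = s' := by
        field_simp
        ring
      have e2 : |s' - s| / (n + 1) * n + |s' - s| / (n + 1) = |s' - s| := by
        field_simp
      refine ⟨z₂, hz₂.mono ?_⟩
      intro x hx
      have hx' : c - |s + (s' - s) * (n / (n + 1)) - s| - |(s' - s) / (n + 1)| ≤
        H (s + (s' - s) * (n / (n + 1)) + (s' - s) / (n + 1)) x := hx
      rw [e1, a1, a2] at hx'
      show c - |s' - s| ≤ H s' x
      linarith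
  obtain ⟨n, hn⟩ := exists_nat_ge (|s' - s| / τ)
  exact key n s' ((div_le_iff₀ hτ).1 hn)

end H25S
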