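import Pool.Agent.Lib.H25S.Defs
import Pool.Agent.Lib.H83D.A4

/-!
# Chunk Q10 (M (helper83))
Let `v` be coprime, `y` given. `f` is uniformly continuous (periodic): `r > 0` with `|f x - f x'| ≤ ε` for `‖x - x'‖ ≤ r`. For every `x` a step `w` (`‖w‖ < r`, `0 < lf v w`, `f x - lf v w < f (x + w)`); the inequality holds in a neighbourhood of `x`; by compactness of `[0,1]²` and periodicity there is a finite set `W` of steps such that for every `x` some `w ∈ W` works; `θ = min lf v w > 0`. Chain: `x 0 = y`, `x (n+1) = x n + w n`: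
`f (x n) ≥ f y - (lf v (x n) - lf v y)`, `lf v (x n) ≥ lf v y + n θ`. The piecewise linear curve through the `x n`, parametrised by `c = lf v - lf v y`, satisfies `f (γ c) ≥ f y - c - ε` for `0 ≤ c ≤ 20` (the node before has `f ≥ f y - c`). For `c ≤ 0` use `-v`. (Finite chains suffice; extend by `γ c = γ 20 + (c - 20) u`, `lf v u = 1`.) Divide by `1 + ε`: `(c + ε) / (1 + ε) ≤ max c 1`.
-/

namespace H25S

open MeasureTheory H83D Set Filter Topology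

theorem q10_fract (x : ℝ × ℝ) : x = (Int.fract x.1, Int.fract x.2) + iv (⌊x.1⌋, ⌊x.2⌋) := by
  unfold iv
  ext
  · show x.1 = Int.fract x.1 + (⌊x.1⌋ : ℝ)
    rw [Int.fract_add_floor]
  · show x.2 = Int.fract x.2 + (⌊x.2⌋ : ℝ)
    rw [Int.fract_add_floor]

theorem q10_unif {f : ℝ × ℝ → ℝ} (cf : Continuous f) (pf : ∀ (x : ℝ × ℝ) (m : ℤ × ℤ), f (x + iv m) = f x) {ε : ℝ}
    (hε : 0 < ε) : ∃ r : ℝ, 0 < r ∧ ∀ x w : ℝ × ℝ, |w.1| ≤ r → |w.2| ≤ r → f x - ε ≤ f (x + w) := by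
  have hK : IsCompact (Icc (-1 : ℝ) 2 ×ˢ Icc (-1 : ℝ) 2) := isCompact_Icc.prod isCompact_Icc
  have hu := hK.uniformContinuousOn_of_continuous cf.continuousOn
  obtain ⟨δ, hδ, hd⟩ := Metric.uniformContinuousOn_iff.1 hu ε hε
  refine ⟨min (δ / 2) 1, lt_min (by linarith) one_pos, fun x w h1 h2 => ?_⟩
  obtain ⟨a, ha⟩ : ∃ a : ℝ × ℝ, a = (Int.fract x.1, Int.fract x.2) := ⟨_, rfl⟩
  have hx : x = a + iv (⌊x.1⌋, ⌊x.2⌋) := by rw [ha]; exact q10_fract x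
  have e1 : f x = f a := by
    rw [hx]
    exact pf _ _
  have e2 : f (x + w) = f (a + w) := by
    have : x + w = a + w + iv (⌊x.1⌋, ⌊x.2⌋) := by
      conv_lhs => rw [hx]
      abel
    rw [this, pf]
  have a1 : 0 ≤ a.1 ∧ a.1 < 1 := by rw [ha]; exact ⟨Int.fract_nonneg _, Int.fract_lt_one _⟩
  have a2 : 0 ≤ a.2 ∧ a.2 < 1 := by rw [ha]; exact ⟨Int.fract_nonneg _, Int.fract_lt_one _⟩
  have w1 := abs_le.1 (h1.trans (min_le_right _ _))
  have w2 := abs_le.1 (h2.trans (min_le_right _ _))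
  have m1 : a ∈ Icc (-1 : ℝ) 2 ×ˢ Icc (-1 : ℝ) 2 :=
    ⟨⟨by linarith [a1.1], by linarith [a1.2]⟩, ⟨by linarith [a2.1], by linarith [a2.2]⟩⟩
  have m2 : a + w ∈ Icc (-1 : ℝ) 2 ×ˢ Icc (-1 : ℝ) 2 := by
    refine ⟨⟨?_, ?_⟩, ⟨?_, ?_⟩⟩
    · show -1 ≤ a.1 + w.1
      linarith [a1.1, w1.1]
    · show a.1 + w.1 ≤ 2
      linarith [a1.2, w1.2]
    · show -1 ≤ a.2 + w.2
      linarith [a2.1, w2.1]
    · show a.2 + w.2 ≤ 2
      linarith [a2.2, w2.2]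
  have hdist : dist (a + w) a < δ := by
    rw [dist_eq_norm, add_sub_cancel_left, Prod.norm_def]
    refine max_lt ?_ ?_
    · show |w.1| < δ
      have := h1.trans (min_le_left _ _)
      linarith
    · show |w.2| < δ
      have := h2.trans (min_le_left _ _)
      linarith
  have := hd _ m2 _ m1 hdist
  rw [Real.dist_eq] at this
  rw [e1, e2]
  linarith [(abs_lt.1 this).1]

theorem q10_lf_cont (v : ℤ × ℤ) : Continuous (lf v) := by
  unfold lf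
  fun_prop

theorem q10_steps {f : ℝ × ℝ → ℝ} (cf : Continuous f) (pf : ∀ (x : ℝ × ℝ) (m : ℤ × ℤ), f (x + iv m) = f x) {v : ℤ × ℤ}
    {r : ℝ} (hst : ∀ x : ℝ × ℝ, ∃ w : ℝ × ℝ, |w.1| < r ∧ |w.2| < r ∧ 0 < lf v w ∧ f x - lf v w < f (x + w)) :
    ∃ θ : ℝ, 0 < θ ∧ ∀ x : ℝ × ℝ, ∃ w : ℝ × ℝ, |w.1| ≤ r ∧ |w.2| ≤ r ∧ θ ≤ lf v w ∧ f x - lf v w ≤ f (x + w) := by
  choose S hS1 hS2 hS3 hS4 using hst
  have hK : IsCompact (Icc (0 : ℝ) 1 ×ˢ Icc (0 : ℝ) 1) := isCompact_Icc.prod isCompact_Icc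
  have hU : ∀ x ∈ Icc (0 : ℝ) 1 ×ˢ Icc (0 : ℝ) 1, {z : ℝ × ℝ | f z - lf v (S x) < f (z + S x)} ∈ 𝓝 x := by
    intro x _
    have ho : IsOpen {z : ℝ × ℝ | f z - lf v (S x) < f (z + S x)} :=
      isOpen_lt (by fun_prop) (cf.comp (by fun_prop))
    exact ho.mem_nhds (hS4 x)
  obtain ⟨t, _, hcov⟩ := hK.elim_nhds_subcover _ hU
  have hcov' : ∀ a ∈ Icc (0 : ℝ) 1 ×ˢ Icc (0 : ℝ) 1, ∃ z ∈ t, f a - lf v (S z) < f (a + S z) := by
    intro a ha
    have := hcov ha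
    simp only [mem_iUnion] at this
    obtain ⟨z, hz, hz'⟩ := this
    exact ⟨z, hz, hz'⟩
  obtain ⟨z0, hz0, _⟩ := hcov' (0, 0) ⟨⟨le_rfl, zero_le_one⟩, ⟨le_rfl, zero_le_one⟩⟩
  obtain ⟨z1, _, hz1m⟩ := Finset.exists_min_image t (fun x => lf v (S x)) ⟨z0, hz0⟩
  refine ⟨lf v (S z1), hS3 z1, fun x => ?_⟩
  obtain ⟨a, ha⟩ : ∃ a : ℝ × ℝ, a = (Int.fract x.1, Int.fract x.2) := ⟨_, rfl⟩
  have hx : x = a + iv (⌊x.1⌋, ⌊x.2⌋) := by rw [ha]; exact q10_fract x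
  have a1 : a ∈ Icc (0 : ℝ) 1 ×ˢ Icc (0 : ℝ) 1 := by
    rw [ha]
    exact ⟨⟨Int.fract_nonneg _, (Int.fract_lt_one _).le⟩, ⟨Int.fract_nonneg _, (Int.fract_lt_one _).le⟩⟩
  obtain ⟨z, hz, hzl⟩ := hcov' a a1
  refine ⟨S z, (hS1 z).le, (hS2 z).le, hz1m z hz, ?_⟩
  have e1 : f x = f a := by
    rw [hx]
    exact pf _ _
  have e2 : f (x + S z) = f (a + S z) := by
    have : x + S z = a + S z + iv (⌊x.1⌋, ⌊x.2⌋) := by
      conv_lhs => rw [hx]
      abel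
    rw [this, pf]
  rw [e1, e2]
  exact hzl.le

theorem q10_lf_add (v : ℤ × ℤ) (x w : ℝ × ℝ) (t : ℝ) : lf v (x + t • w) = lf v x + t * lf v w := by
  unfold lf
  simp only [Prod.fst_add, Prod.snd_add, Prod.smul_fst, Prod.smul_snd, smul_eq_mul]
  ring

theorem q10_chain {f : ℝ × ℝ → ℝ} {v : ℤ × ℤ} (hv : IsCoprime v.1 v.2) {ε r θ : ℝ} (hε : 0 < ε) (hθ : 0 < θ)
    (hu : ∀ x w : ℝ × ℝ, |w.1| ≤ r → |w.2| ≤ r → f x - ε ≤ f (x + w))
    (hst : ∀ x : ℝ × ℝ, ∃ w : ℝ × ℝ, |w.1| ≤ r ∧ |w.2| ≤ r ∧ θ ≤ lf v w ∧ f x - lf v w ≤ f (x + w)) (y : ℝ × ℝ) (n : ℕ) :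
    ∃ (γ : ℝ → ℝ × ℝ) (d : ℝ), Continuous γ ∧ γ 0 = y ∧ (∀ c, lf v (γ c) = lf v y + c) ∧ n * θ ≤ d ∧
      f y - d ≤ f (γ d) ∧ ∀ c, 0 ≤ c → c ≤ d → f y - c - ε ≤ f (γ c) := by
  induction n with
  | zero =>
    obtain ⟨a, b, hab⟩ := hv
    have hu1 : lf v ((a : ℝ), (b : ℝ)) = 1 := by
      unfold lf
      have : ((a * v.1 + b * v.2 : ℤ) : ℝ) = ((1 : ℤ) : ℝ) := by rw [hab]
      push_cast at this
      linarith
    refine ⟨fun c => y + c • (((a : ℝ), (b : ℝ)) : ℝ × ℝ), 0, by fun_prop, by simp, fun c => ?_, by simp, by simp, ?_⟩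
    · rw [q10_lf_add, hu1, mul_one]
    · intro c h1 h2
      have : c = 0 := le_antisymm h2 h1
      subst this
      simp
      exact hε.le
  | succ n ih =>
    obtain ⟨γ, d, cγ, γ0, γv, hd, hfd, hfc⟩ := ih
    have hd0 : 0 ≤ d := le_trans (by positivity) hd
    obtain ⟨w, hw1, hw2, hw3, hw4⟩ := hst (γ d)
    have hl : 0 < lf v w := lt_of_lt_of_le hθ hw3
    refine ⟨fun c => if c ≤ d then γ c else γ d + ((c - d) / lf v w) • w, d + lf v w, ?_, ?_, ?_, ?_, ?_, ?_⟩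
    · refine Continuous.if_le cγ (by fun_prop) continuous_id continuous_const ?_
      intro c hc
      have hc' : c = d := hc
      rw [hc', sub_self, zero_div, zero_smul, add_zero]
    · show (if (0 : ℝ) ≤ d then γ 0 else _) = y
      rw [if_pos hd0, γ0]
    · intro c
      show lf v (if c ≤ d then γ c else γ d + ((c - d) / lf v w) • w) = _
      split_ifs with h
      · exact γv c
      · rw [q10_lf_add, γv, div_mul_cancel₀ _ hl.ne']
        ring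
    · push_cast
      linarith
    · show f y - (d + lf v w) ≤ f (if d + lf v w ≤ d then γ (d + lf v w) else γ d + ((d + lf v w - d) / lf v w) • w)
      rw [if_neg (by linarith), add_sub_cancel_left, div_self hl.ne', one_smul]
      linarith
    · intro c h1 h2
      show f y - c - ε ≤ f (if c ≤ d then γ c else γ d + ((c - d) / lf v w) • w)
      split_ifs with h
      · exact hfc c h1 h
      · push Not at h
        have t0 : 0 ≤ (c - d) / lf v w := div_nonneg (by linarith) hl.le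
        have t1 : (c - d) / lf v w ≤ 1 := by
          rw [div_le_one hl]
          linarith
        have k1 : |(((c - d) / lf v w) • w).1| ≤ r := by
          rw [Prod.smul_fst, smul_eq_mul, abs_mul, abs_of_nonneg t0]
          calc (c - d) / lf v w * |w.1| ≤ 1 * |w.1| := mul_le_mul_of_nonneg_right t1 (abs_nonneg _)
            _ ≤ r := by rw [one_mul]; exact hw1
        have k2 : |(((c - d) / lf v w) • w).2| ≤ r := by
          rw [Prod.smul_snd, smul_eq_mul, abs_mul, abs_of_nonneg t0]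
          calc (c - d) / lf v w * |w.2| ≤ 1 * |w.2| := mul_le_mul_of_nonneg_right t1 (abs_nonneg _)
            _ ≤ r := by rw [one_mul]; exact hw2
        have := hu (γ d) _ k1 k2
        linarith

theorem q10_half {f : ℝ × ℝ → ℝ} (cf : Continuous f) (pf : ∀ (x : ℝ × ℝ) (m : ℤ × ℤ), f (x + iv m) = f x)
    (hst : ∀ v : ℤ × ℤ, IsCoprime v.1 v.2 → ∀ (x : ℝ × ℝ) (ρ : ℝ), 0 < ρ → ∃ w : ℝ × ℝ, |w.1| < ρ ∧ |w.2| < ρ ∧ 0 < lf v w ∧
      f x - lf v w < f (x + w)) {ε : ℝ} (hε : 0 < ε) {v : ℤ × ℤ} (hv : IsCoprime v.1 v.2) (y : ℝ × ℝ) :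
    ∃ γ : ℝ → ℝ × ℝ, Continuous γ ∧ γ 0 = y ∧ (∀ c, lf v (γ c) = lf v y + c) ∧
      ∀ c, 0 ≤ c → c ≤ 20 → f y - c - ε ≤ f (γ c) := by
  obtain ⟨r, hr, hu⟩ := q10_unif cf pf hε
  obtain ⟨θ, hθ, hS⟩ := q10_steps cf pf (v := v) (r := r) (fun x => hst v hv x r hr)
  obtain ⟨n, hn⟩ := exists_nat_ge (20 / θ)
  obtain ⟨γ, d, cγ, γ0, γv, hd, _, hfc⟩ := q10_chain hv hε hθ hu hS y n
  rw [div_le_iff₀ hθ] at hn
  exact ⟨γ, cγ, γ0, γv, fun c h1 h2 => hfc c h1 (by linarith)⟩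

theorem arcs_of_steps {f : ℝ × ℝ → ℝ} (cf : Continuous f) (pf : ∀ (x : ℝ × ℝ) (m : ℤ × ℤ), f (x + iv m) = f x)
    (hst : ∀ v : ℤ × ℤ, IsCoprime v.1 v.2 → ∀ (x : ℝ × ℝ) (ρ : ℝ), 0 < ρ → ∃ w : ℝ × ℝ, |w.1| < ρ ∧ |w.2| < ρ ∧ 0 < lf v w ∧
      f x - lf v w < f (x + w)) {ε : ℝ} (hε : 0 < ε) : Arcs (fun x => f x / (1 + ε)) := by
  intro v hv y
  obtain ⟨γ, cγ, γ0, γv, γh⟩ := q10_half cf pf hst hε hv y
  have hv' : IsCoprime ((-v.1, -v.2) : ℤ × ℤ).1 ((-v.1, -v.2) : ℤ × ℤ).2 := hv.neg_neg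
  obtain ⟨δ, cδ, δ0, δv, δh⟩ := q10_half cf pf hst hε hv' y
  have hneg : ∀ x, lf (-v.1, -v.2) x = -lf v x := by
    intro x
    unfold lf
    push_cast
    ring
  refine ⟨fun c => if 0 ≤ c then γ c else δ (-c), ?_, ?_, ?_, ?_⟩
  · refine Continuous.if_le cγ (cδ.comp continuous_neg) continuous_const continuous_id ?_
    intro c hc
    have hc' : c = 0 := Eq.symm hc
    rw [hc', neg_zero, γ0, δ0]
  · show (if (0 : ℝ) ≤ 0 then γ 0 else _) = y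
    rw [if_pos le_rfl, γ0]
  · intro c
    show lf v (if 0 ≤ c then γ c else δ (-c)) = _
    split_ifs with h
    · exact γv c
    · have := δv (-c)
      rw [hneg, hneg] at this
      linarith
  · intro c hc
    show f y / (1 + ε) - max |c| 1 ≤ f (if 0 ≤ c then γ c else δ (-c)) / (1 + ε)
    have h1 : (0 : ℝ) < 1 + ε := by linarith
    have key : f y - |c| - ε ≤ f (if 0 ≤ c then γ c else δ (-c)) := by
      split_ifs with h
      · rw [abs_of_nonneg h] at hc ⊢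
        exact γh c h hc
      · push Not at h
        rw [abs_of_neg h] at hc ⊢
        exact δh (-c) (by linarith) hc
    rw [div_sub' h1.ne', div_le_div_iff_of_pos_right h1]
    have h2 : |c| ≤ max |c| 1 := le_max_left _ _
    have h3 : 1 ≤ max |c| 1 := le_max_right _ _
    nlinarith

end H25S
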