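import Pool.Agent.Lib.H25S.T5

/-!
# Chunk T12 (S)
A homeomorphism `Φ` of the cylinder with `|(Φ w).2 - w.2| ≤ C` maps the sets `S` of the definition of `Up K` to such sets for `Φ '' K`: `Φ '' S` contains `{w | M + C ≤ w.2}` (apply the bound at `Φ.symm w`). The converse: apply this to `Φ.symm`. `sh j` is such a homeomorphism, also `iccIter`-free: `Homeomorph` with inverse `sh (-j)`.
-/

namespace H25S

open MeasureTheory H83D Set Filter Topology

theorem t12_symm (Φ : Cyl ≃ₜ Cyl) {C : ℝ} (hΦ : ∀ w, |(Φ w).2 - w.2| ≤ C) (w : Cyl) : |(Φ.symm w).2 - w.2| ≤ C := by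
  have h1 := hΦ (Φ.symm w)
  rw [Φ.apply_symm_apply] at h1
  rw [abs_sub_comm]
  exact h1

theorem t12_up (Φ : Cyl ≃ₜ Cyl) {C : ℝ} (hΦ : ∀ w, |(Φ w).2 - w.2| ≤ C) (K : Set Cyl) : Φ '' Up K ⊆ Up (Φ '' K) := by
  rintro _ ⟨z, ⟨S, hS, hd, hz, M, hM⟩, rfl⟩
  refine ⟨Φ '' S, hS.image _ Φ.continuous.continuousOn, ?_, ⟨z, hz, rfl⟩, M + C, fun w hw => ?_⟩
  · exact (Set.disjoint_image_iff Φ.injective).2 hd
  · refine ⟨Φ.symm w, hM _ ?_, Φ.apply_symm_apply w⟩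
    have h1 := (abs_le.mp (t12_symm Φ hΦ w)).1
    linarith

theorem t12_dn (Φ : Cyl ≃ₜ Cyl) {C : ℝ} (hΦ : ∀ w, |(Φ w).2 - w.2| ≤ C) (K : Set Cyl) : Φ '' Dn K ⊆ Dn (Φ '' K) := by
  rintro _ ⟨z, ⟨S, hS, hd, hz, M, hM⟩, rfl⟩
  refine ⟨Φ '' S, hS.image _ Φ.continuous.continuousOn, ?_, ⟨z, hz, rfl⟩, M - C, fun w hw => ?_⟩
  · exact (Set.disjoint_image_iff Φ.injective).2 hd
  · refine ⟨Φ.symm w, hM _ ?_, Φ.apply_symm_apply w⟩
    have h1 := (abs_le.mp (t12_symm Φ hΦ w)).2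
    linarith

/-- The vertical translation as a homeomorphism. -/
def t12_sh (j : ℝ) : Cyl ≃ₜ Cyl where
  toFun := sh j
  invFun := sh (-j)
  left_inv w := by
    apply Prod.ext
    · rfl
    · show w.2 + j + -j = w.2
      ring
  right_inv w := by
    apply Prod.ext
    · rfl
    · show w.2 + -j + j = w.2
      ring
  continuous_toFun := continuous_fst.prodMk (continuous_snd.add continuous_const)
  continuous_invFun := continuous_fst.prodMk (continuous_snd.add continuous_const)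

theorem t12_shb (j : ℝ) (w : Cyl) : |(t12_sh j w).2 - w.2| ≤ |j| := by
  have h1 : (t12_sh j w).2 - w.2 = j := by
    show w.2 + j - w.2 = j
    ring
  rw [h1]

theorem up_homeo (Φ : Cyl ≃ₜ Cyl) {C : ℝ} (hΦ : ∀ w, |(Φ w).2 - w.2| ≤ C) (K : Set Cyl) : Up (Φ '' K) = Φ '' Up K := by
  apply Set.Subset.antisymm
  · intro z hz
    have h1 := t12_up Φ.symm (t12_symm Φ hΦ) (Φ '' K)
    have h2 : Φ.symm '' (Φ '' K) = K := by
      rw [← Set.image_comp]
      have h3 : (Φ.symm ∘ Φ : Cyl → Cyl) = id := by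
        funext w
        exact Φ.symm_apply_apply w
      rw [h3, Set.image_id]
    rw [h2] at h1
    exact ⟨Φ.symm z, h1 ⟨z, hz, rfl⟩, Φ.apply_symm_apply z⟩
  · exact t12_up Φ hΦ K

theorem dn_homeo (Φ : Cyl ≃ₜ Cyl) {C : ℝ} (hΦ : ∀ w, |(Φ w).2 - w.2| ≤ C) (K : Set Cyl) : Dn (Φ '' K) = Φ '' Dn K := by
  apply Set.Subset.antisymm
  · intro z hz
    have h1 := t12_dn Φ.symm (t12_symm Φ hΦ) (Φ '' K)
    have h2 : Φ.symm '' (Φ '' K) = K := by
      rw [← Set.image_comp]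
      have h3 : (Φ.symm ∘ Φ : Cyl → Cyl) = id := by
        funext w
        exact Φ.symm_apply_apply w
      rw [h3, Set.image_id]
    rw [h2] at h1
    exact ⟨Φ.symm z, h1 ⟨z, hz, rfl⟩, Φ.apply_symm_apply z⟩
  · exact t12_dn Φ hΦ K

theorem sep_homeo (Φ : Cyl ≃ₜ Cyl) {C : ℝ} (hΦ : ∀ w, |(Φ w).2 - w.2| ≤ C) {K : Set Cyl} (hs : Sep K) : Sep (Φ '' K) := by
  unfold Sep
  rw [up_homeo Φ hΦ K, dn_homeo Φ hΦ K]
  exact (Set.disjoint_image_iff Φ.injective).2 hs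

theorem sh_cont (j : ℝ) : Continuous (sh j) := by
  exact continuous_fst.prodMk (continuous_snd.add continuous_const)

theorem up_sh (j : ℝ) (K : Set Cyl) : Up (sh j '' K) = sh j '' Up K := by
  exact up_homeo (t12_sh j) (t12_shb j) K

theorem dn_sh (j : ℝ) (K : Set Cyl) : Dn (sh j '' K) = sh j '' Dn K := by
  exact dn_homeo (t12_sh j) (t12_shb j) K

theorem sep_sh (j : ℝ) {K : Set Cyl} (hs : Sep K) : Sep (sh j '' K) := by
  exact sep_homeo (t12_sh j) (t12_shb j) hs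

end H25S
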