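import Pool.Agent.Lib.H25S.V3

/-!
# Chunk V4 (M)
`ar_sh`: for `j ≥ 0` compare `sh j '' D` with the sets: write `ar D = volume (D ∩ {-M < y}) - M` for `M` large (`vol_strip`, additivity) and use `vol_sh`: `volume (sh j '' D ∩ {-M < y}) = volume (sh j '' (D ∩ {-M - j < y})) = volume (D ∩ {-M-j<y})`, `ar D + (M + j) - M`. The formula `ar D = (volume (D ∩ {-M < y})).toReal - M`
for every `M` with `{y ≤ -M} ⊆ D` is the main step: `Dᶜ ∩ {y ≤ 0} = ({-M < y ≤ 0}) \ D`. `ar_rf`: `rf '' Dᶜ ∩ {0 < y} = rf '' (Dᶜ ∩ {y < 0})`, `(rf '' Dᶜ)ᶜ = rf '' D`, `rf '' D ∩ {y ≤ 0} = rf '' (D ∩ {0 ≤ y})`, `vol_rf`, `vol_line`.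
-/

namespace H25S

open MeasureTheory H83D Set Filter Topology

theorem v4_meas (a : ℝ) : MeasurableSet {w : Cyl | a < w.2} := measurableSet_lt measurable_const measurable_snd

theorem v4_fin {D : Set Cyl} (hD : Low D) (a : ℝ) : volume (D ∩ {w | a < w.2}) ≠ ⊤ := by
  obtain ⟨M, _, h2⟩ := hD
  refine (vol_bd (M := max M |a|) fun w hw => ?_).ne
  have h3 : w.2 < M := by
    by_contra h
    exact h2 w (not_lt.1 h) hw.1
  have h4 : a < w.2 := hw.2
  rw [abs_le]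
  constructor
  · have := neg_abs_le a
    have := le_max_right M |a|
    linarith
  · exact h3.le.trans (le_max_left _ _)

theorem ar_eq {D : Set Cyl} (mD : MeasurableSet D) {M : ℝ} (hM : 0 ≤ M) (h1 : ∀ w : Cyl, w.2 ≤ -M → w ∈ D) (hD : Low D) :
    ar D = (volume (D ∩ {w | -M < w.2})).toReal - M := by
  have e1 : volume (D ∩ {w : Cyl | -M < w.2} ∩ {w | 0 < w.2}) + volume ((D ∩ {w : Cyl | -M < w.2}) \ {w | 0 < w.2}) =
      volume (D ∩ {w : Cyl | -M < w.2}) := measure_inter_add_sdiff _ (v4_meas 0)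
  have s1 : D ∩ {w : Cyl | -M < w.2} ∩ {w | 0 < w.2} = D ∩ {w | 0 < w.2} := by
    ext w
    simp only [mem_inter_iff, mem_ofPred_eq]
    constructor
    · rintro ⟨⟨h, _⟩, h'⟩
      exact ⟨h, h'⟩
    · rintro ⟨h, h'⟩
      exact ⟨⟨h, by linarith⟩, h'⟩
  have s2 : (D ∩ {w : Cyl | -M < w.2}) \ {w | 0 < w.2} = {w : Cyl | -M < w.2 ∧ w.2 ≤ 0} ∩ D := by
    ext w
    simp only [mem_inter_iff, Set.mem_sdiff, mem_ofPred_eq, not_lt]
    tauto
  have s3 : Dᶜ ∩ {w : Cyl | w.2 ≤ 0} = {w : Cyl | -M < w.2 ∧ w.2 ≤ 0} \ D := by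
    ext w
    simp only [mem_inter_iff, Set.mem_sdiff, mem_ofPred_eq, mem_compl_iff]
    constructor
    · rintro ⟨h, h'⟩
      exact ⟨⟨not_le.1 fun h'' => h (h1 w h''), h'⟩, h⟩
    · rintro ⟨⟨_, h'⟩, h⟩
      exact ⟨h, h'⟩
  have e2 : volume ({w : Cyl | -M < w.2 ∧ w.2 ≤ 0} ∩ D) + volume ({w : Cyl | -M < w.2 ∧ w.2 ≤ 0} \ D) =
      volume {w : Cyl | -M < w.2 ∧ w.2 ≤ 0} := measure_inter_add_sdiff _ mD
  have e3 : volume {w : Cyl | -M < w.2 ∧ w.2 ≤ 0} = ENNReal.ofReal M := by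
    rw [vol_strip (by linarith : -M ≤ (0 : ℝ))]
    congr 1
    ring
  rw [s1, s2] at e1
  rw [e3] at e2
  have f0 : volume (D ∩ {w : Cyl | -M < w.2}) ≠ ⊤ := v4_fin hD _
  have f1 : volume (D ∩ {w : Cyl | 0 < w.2}) ≠ ⊤ := v4_fin hD _
  have f2 : volume ({w : Cyl | -M < w.2 ∧ w.2 ≤ 0} ∩ D) ≠ ⊤ := fun h => by
    rw [h, top_add] at e2
    exact ENNReal.ofReal_ne_top e2.symm
  have f3 : volume ({w : Cyl | -M < w.2 ∧ w.2 ≤ 0} \ D) ≠ ⊤ := fun h => by
    rw [h, add_top] at e2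
    exact ENNReal.ofReal_ne_top e2.symm
  have g1 := congrArg ENNReal.toReal e1
  have g2 := congrArg ENNReal.toReal e2
  rw [ENNReal.toReal_add f1 f2] at g1
  rw [ENNReal.toReal_add f2 f3, ENNReal.toReal_ofReal hM] at g2
  unfold ar
  rw [s3]
  linarith

theorem v4_mem_sh {D : Set Cyl} {j : ℝ} {w : Cyl} : w ∈ sh j '' D ↔ sh (-j) w ∈ D := by
  constructor
  · rintro ⟨v, hv, rfl⟩
    have : sh (-j) (sh j v) = v := by
      unfold sh
      simp
    rwa [this]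
  · intro h
    refine ⟨sh (-j) w, h, ?_⟩
    unfold sh
    simp

theorem low_sh {D : Set Cyl} (hD : Low D) (j : ℝ) : Low (sh j '' D) := by
  obtain ⟨M, h1, h2⟩ := hD
  refine ⟨M + |j|, fun w hw => ?_, fun w hw => ?_⟩
  · rw [v4_mem_sh]
    refine h1 _ ?_
    have : (sh (-j) w).2 = w.2 + -j := rfl
    rw [this]
    have := neg_abs_le j
    linarith
  · rw [v4_mem_sh]
    refine h2 _ ?_
    have : (sh (-j) w).2 = w.2 + -j := rfl
    rw [this]
    have := le_abs_self j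
    linarith

theorem ar_sh {D : Set Cyl} (mD : MeasurableSet D) (hD : Low D) (j : ℝ) : ar (sh j '' D) = ar D + j := by
  have hD' := hD
  obtain ⟨M₀, h1, h2⟩ := hD'
  obtain ⟨M, hM⟩ : ∃ M : ℝ, M = |M₀| + |j| := ⟨_, rfl⟩
  have a1 := le_abs_self M₀
  have a2 := abs_nonneg M₀
  have a3 := le_abs_self j
  have a4 := neg_abs_le j
  have a5 := abs_nonneg j
  have mS : MeasurableSet (sh j '' D) := by
    have : sh j '' D = sh (-j) ⁻¹' D := by
      ext w
      exact v4_mem_sh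
    rw [this]
    have hm : Measurable (sh (-j)) := Measurable.prodMk measurable_fst (measurable_snd.add_const _)
    exact hm mD
  have e1 : ar (sh j '' D) = (volume (sh j '' D ∩ {w | -M < w.2})).toReal - M := by
    refine ar_eq mS (by linarith) (fun w hw => ?_) (low_sh hD j)
    rw [v4_mem_sh]
    refine h1 _ ?_
    have : (sh (-j) w).2 = w.2 + -j := rfl
    rw [this]
    linarith
  have e2 : ar D = (volume (D ∩ {w | -(M + j) < w.2})).toReal - (M + j) := by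
    refine ar_eq mD (by linarith) (fun w hw => h1 _ (by linarith)) hD
  have e3 : sh j '' D ∩ {w | -M < w.2} = sh j '' (D ∩ {w | -(M + j) < w.2}) := by
    ext w
    rw [mem_inter_iff, v4_mem_sh, v4_mem_sh, mem_inter_iff]
    have : (sh (-j) w).2 = w.2 + -j := rfl
    rw [mem_ofPred_eq, mem_ofPred_eq, this]
    constructor
    · rintro ⟨h, h'⟩
      exact ⟨h, by linarith⟩
    · rintro ⟨h, h'⟩
      exact ⟨h, by linarith⟩
  rw [e1, e2, e3, vol_sh]
  ring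

theorem v4_mem_rf {D : Set Cyl} {w : Cyl} : w ∈ rf '' D ↔ rf w ∈ D := by
  constructor
  · rintro ⟨v, hv, rfl⟩
    have : rf (rf v) = v := by
      unfold rf
      simp
    rwa [this]
  · intro h
    refine ⟨rf w, h, ?_⟩
    unfold rf
    simp

theorem v4_line {S T : Set Cyl} (h1 : S ⊆ T) (h2 : T ⊆ S ∪ {w | w.2 = 0}) : volume S = volume T := by
  refine le_antisymm (measure_mono h1) ?_
  refine (measure_mono h2).trans ((measure_union_le _ _).trans ?_)
  rw [vol_line 0, add_zero]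

theorem ar_rf {D : Set Cyl} (mD : MeasurableSet D) (hD : Low D) : ar (rf '' Dᶜ) = - ar D := by
  have e1 : rf '' Dᶜ ∩ {w | 0 < w.2} = rf '' (Dᶜ ∩ {w | w.2 < 0}) := by
    ext w
    rw [mem_inter_iff, v4_mem_rf, v4_mem_rf, mem_inter_iff]
    have : (rf w).2 = -w.2 := rfl
    rw [mem_ofPred_eq, mem_ofPred_eq, this, neg_lt_zero]
  have e2 : (rf '' Dᶜ)ᶜ ∩ {w | w.2 ≤ 0} = rf '' (D ∩ {w | 0 ≤ w.2}) := by
    ext w
    rw [mem_inter_iff, mem_compl_iff, v4_mem_rf, v4_mem_rf, mem_inter_iff, mem_compl_iff, not_not]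
    have : (rf w).2 = -w.2 := rfl
    rw [mem_ofPred_eq, mem_ofPred_eq, this, neg_nonneg]
  have e3 : volume (Dᶜ ∩ {w : Cyl | w.2 < 0}) = volume (Dᶜ ∩ {w : Cyl | w.2 ≤ 0}) := by
    refine v4_line (fun w hw => ⟨hw.1, (le_of_lt hw.2 : w.2 ≤ 0)⟩) fun w hw => ?_
    have h' : w.2 ≤ 0 := hw.2
    rcases lt_or_eq_of_le h' with h | h
    · exact Or.inl ⟨hw.1, h⟩
    · exact Or.inr h
  have e4 : volume (D ∩ {w : Cyl | 0 < w.2}) = volume (D ∩ {w : Cyl | 0 ≤ w.2}) := by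
    refine v4_line (fun w hw => ⟨hw.1, (le_of_lt hw.2 : 0 ≤ w.2)⟩) fun w hw => ?_
    have h' : 0 ≤ w.2 := hw.2
    rcases lt_or_eq_of_le h' with h | h
    · exact Or.inl ⟨hw.1, h⟩
    · exact Or.inr h.symm
  unfold ar
  rw [e1, e2, vol_rf, vol_rf, e3, ← e4]
  ring

theorem ar_strict {D V : Set Cyl} (hD : Low D) (hV : Low V) (cD : IsClosed D) (oV : IsOpen V) (h : D ⊆ V) : ar D < ar V := by
  have h1 := ar_diff hD hV cD.measurableSet oV.measurableSet
  have h2 : D \ V = ∅ := sdiff_eq_empty.2 h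
  rw [h2, measure_empty, ENNReal.toReal_zero, sub_zero] at h1
  have h3 : IsOpen (V \ D) := oV.sdiff cD
  have h4 : (V \ D).Nonempty := by
    by_contra hn
    rw [not_nonempty_iff_eq_empty, sdiff_eq_empty] at hn
    have h5 : V = D := Subset.antisymm hn h
    have h6 : IsClopen D := ⟨cD, h5 ▸ oV⟩
    obtain ⟨M, m1, m2⟩ := hD
    rcases isClopen_iff.1 h6 with h7 | h7
    · have := m1 (0, -M) (le_refl _)
      rw [h7] at this
      exact this
    · have := m2 (0, M) (le_refl _)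
      rw [h7] at this
      exact this (mem_univ _)
  have h5 : 0 < (volume (V \ D)).toReal := ENNReal.toReal_pos (vol_open_pos h3 h4).ne' (low_diff hD hV).ne
  linarith

end H25S
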