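import Pool.Agent.Lib.H25S.T11
import Pool.Agent.Lib.H25S.T12
import Pool.Agent.Lib.H25S.V4

/-!
# Chunk O1 (M)
Measurability: `Up K` is open for closed `K`, hence `(Up K)ᶜ`, `Dn K` are measurable. `sep_low` gives `Low`. `aU_sh`: `up_sh`, `(sh j '' U)ᶜ = sh j '' Uᶜ` (`sh j` is a bijection), `ar_sh`. `aL_rf`: `Dn K = rf '' Up (rf '' K) = rf '' (Dᶜ)` with `D = (Up (rf '' K))ᶜ`, `ar_rf` (`sep_rf`).
`aU_rf`: apply it to `rf '' K` (`rf '' (rf '' K) = K`). Monotonicity: `up_anti`, `dn_anti`, `sep_sub`, `ar_mono`.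
-/

namespace H25S

open MeasureTheory H83D Set Filter Topology

theorem o1_bij (j : ℝ) : Function.Bijective (sh j) := by
  constructor
  · intro w w' h
    have h1 : w.1 = w'.1 := (Prod.ext_iff.1 h).1
    have h2 : w.2 + j = w'.2 + j := (Prod.ext_iff.1 h).2
    exact Prod.ext h1 (add_right_cancel h2)
  · intro w
    refine ⟨(w.1, w.2 - j), ?_⟩
    simp [sh]

theorem o1_mU {K : Set Cyl} (hK : IsCompact K) : MeasurableSet (Up K)ᶜ :=
  (up_open hK.isClosed).measurableSet.compl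

theorem o1_mD {K : Set Cyl} (hK : IsCompact K) : MeasurableSet (Dn K) :=
  (dn_open hK.isClosed).measurableSet

theorem aU_sh {K : Set Cyl} (hK : IsCompact K) (hs : Sep K) (j : ℝ) : aU (sh j '' K) = aU K + j := by
  rw [aU, up_sh, ← image_compl_eq (o1_bij j), ar_sh (o1_mU hK) (sep_low hK hs).1, aU]

theorem aL_sh {K : Set Cyl} (hK : IsCompact K) (hs : Sep K) (j : ℝ) : aL (sh j '' K) = aL K + j := by
  rw [aL, dn_sh, ar_sh (o1_mD hK) (sep_low hK hs).2, aL]

theorem aL_rf {K : Set Cyl} (hK : IsCompact K) (hs : Sep K) : aL K = - aU (rf '' K) := by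
  have hK' : IsCompact (rf '' K) := hK.image rf_cont
  have hs' : Sep (rf '' K) := (sep_rf K).2 hs
  have h := ar_rf (o1_mU hK') (sep_low hK' hs').1
  rw [compl_compl] at h
  rw [aL, dn_eq, h, aU]

theorem aU_rf {K : Set Cyl} (hK : IsCompact K) (hs : Sep K) : aU K = - aL (rf '' K) := by
  have hK' : IsCompact (rf '' K) := hK.image rf_cont
  have hs' : Sep (rf '' K) := (sep_rf K).2 hs
  have e : rf '' (rf '' K) = K := by
    rw [image_image]
    simp [rf_rf]
  rw [aL_rf hK' hs', e, neg_neg]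

theorem aU_mono {K K' : Set Cyl} (hK : IsCompact K) (hK' : IsCompact K') (hs : Sep K) (h : K ⊆ K') : aU K ≤ aU K' := by
  exact ar_mono (sep_low hK hs).1 (sep_low hK' (sep_mono h hs)).1 (o1_mU hK) (o1_mU hK')
    (compl_subset_compl.2 (up_anti h))

theorem aL_mono {K K' : Set Cyl} (hK : IsCompact K) (hK' : IsCompact K') (hs : Sep K) (h : K ⊆ K') : aL K' ≤ aL K := by
  exact ar_mono (sep_low hK' (sep_mono h hs)).2 (sep_low hK hs).2 (o1_mD hK') (o1_mD hK) (dn_anti h)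

theorem aL_le_aU {K : Set Cyl} (hK : IsCompact K) (hs : Sep K) : aL K ≤ aU K := by
  exact ar_mono (sep_low hK hs).2 (sep_low hK hs).1 (o1_mD hK) (o1_mU hK) (sep_sub hs)

end H25S
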