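import Pool.Agent.Lib.H25S.T9
import Pool.Agent.Lib.H25S.O1

/-!
# Chunk O2 (S)
Otherwise `K`, `L` are disjoint and by `order_sep` e.g. `(Up K)ᶜ ⊆ Dn L` (closed inside open): `ar_strict` gives `aU K < aL L ≤ a ≤ aU K`.
-/

namespace H25S

open MeasureTheory H83D Set Filter Topology

theorem meet_of_pos {K L : Set Cyl} (hK : IsCompact K) (cK : IsConnected K) (hL : IsCompact L) (cL : IsConnected L)
    (sK : Sep K) (sL : Sep L) {a : ℝ} (h1 : aL K ≤ a) (h2 : a ≤ aU K) (h3 : aL L ≤ a) (h4 : a ≤ aU L) : (K ∩ L).Nonempty := by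
  by_contra hne
  have hd : Disjoint K L :=
    Set.disjoint_iff_inter_eq_empty.2 (Set.not_nonempty_iff_eq_empty.1 hne)
  have lK := sep_low hK sK
  have lL := sep_low hL sL
  rcases order_sep hK cK hL cL hd sK sL with h | h
  · have h5 := ar_strict lK.1 lL.2 (up_open hK.isClosed).isClosed_compl (dn_open hL.isClosed) h
    unfold aL aU at *
    linarith
  · have h5 := ar_strict lL.1 lK.2 (up_open hL.isClosed).isClosed_compl (dn_open hK.isClosed) h
    unfold aL aU at *
    linarith

end H25S
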