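import Pool.Agent.Lib.H25S.Q1
import Pool.Agent.Lib.H25S.O2
import Pool.Agent.Lib.H25S.A4

/-!
# Chunk Q11 (S)
Suppose `0 < hh H s a + hh (-H) s a`: choose `c < hh H s a`, `c' < hh (-H) s a` with `0 < c + c'`. `lt_hh` (for `H` and, with `ham_neg`, for `-H`): `K`, `L`. `meet_of_pos`: `w ∈ K ∩ L`: `c ≤ dsc (H s) w`, `c' ≤ dsc (fun z => -H s z) w = - dsc (H s) w` (unfold `dsc`): contradiction.
-/

namespace H25S

open MeasureTheory H83D Set Filter Topology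

theorem hh_le_neg {H : ℝ → ℝ × ℝ → ℝ} (hH : Ham H) (s a : ℝ) : hh H s a ≤ - hh (fun s z => -H s z) s a := by
  by_contra hcon
  have hcon' := not_le.1 hcon
  obtain ⟨d, hd⟩ : ∃ d : ℝ, d = hh H s a + hh (fun s z => -H s z) s a := ⟨_, rfl⟩
  have hd0 : 0 < d := by linarith
  obtain ⟨K, k1, k2, k3, k4, k5, k6⟩ := lt_hh hH (s := s) (a := a) (c := hh H s a - d / 4) (by linarith)
  obtain ⟨L, l1, l2, l3, l4, l5, l6⟩ := lt_hh (ham_neg hH) (s := s) (a := a)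
    (c := hh (fun s z => -H s z) s a - d / 4) (by linarith)
  obtain ⟨w, w1, w2⟩ := meet_of_pos k1 k2 l1 l2 k4 l4 k5 k6 l5 l6
  have e1 : hh H s a - d / 4 ≤ H s (lft w) := k3 w1
  have e2 : hh (fun s z => -H s z) s a - d / 4 ≤ -H s (lft w) := l3 w2
  linarith

end H25S
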