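import Pool.Agent.Lib.H25S.T2
import Pool.Agent.Lib.H25S.O1

/-!
# Chunk Q3 (M)
`K ∩ sh j '' K ≠ ∅`, `j > 0`. `K N = ⋃_{i = -N}^{N} sh (i * j) '' K` (finite union; induction on `N`: consecutive translates meet): compact, connected, in `SL f c` (`dsc_sh`), contains `K`, so `Sep` (`sep_mono`). `aU (K N) ≥ aU (sh (N j) '' K) = aU K + N j` (`aU_mono`, `aU_sh`), `aL (K N) ≤ aL K - N j`. Choose `N` large.
-/

namespace H25S

open MeasureTheory H83D Set Filter Topology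

theorem q3_cont (r : ℝ) : Continuous (sh r) := by
  unfold sh
  fun_prop

theorem q3_add (r t : ℝ) (w : Cyl) : sh r (sh t w) = sh (t + r) w := by
  unfold sh
  exact Prod.ext rfl (by simp [add_assoc])

theorem q3_tr {f : ℝ × ℝ → ℝ} (hf : ∀ (z : ℝ × ℝ) (k : ℤ × ℤ), f (z + iv k) = f z) {c : ℝ} {K : Set Cyl}
    (h1 : IsCompact K) (h2 : IsConnected K) (h3 : K ⊆ SL f c) (m : ℤ) :
    IsCompact (sh (m : ℝ) '' K) ∧ IsConnected (sh (m : ℝ) '' K) ∧ sh (m : ℝ) '' K ⊆ SL f c := by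
  refine ⟨h1.image (q3_cont _), h2.image _ (q3_cont _).continuousOn, ?_⟩
  rintro w ⟨v, hv, rfl⟩
  change c ≤ dsc f (sh m v)
  rw [dsc_sh hf]
  exact h3 hv

theorem q3_chain {f : ℝ × ℝ → ℝ} (hf : ∀ (z : ℝ × ℝ) (k : ℤ × ℤ), f (z + iv k) = f z) {c : ℝ} {K : Set Cyl} {j : ℤ}
    (h1 : IsCompact K) (h2 : IsConnected K) (h3 : K ⊆ SL f c) (h5 : (K ∩ sh j '' K).Nonempty) (N : ℕ) :
    ∃ L : Set Cyl, IsCompact L ∧ IsConnected L ∧ L ⊆ SL f c ∧ K ⊆ L ∧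
      sh (((N : ℤ) * j : ℤ) : ℝ) '' K ⊆ L ∧ sh ((-((N : ℤ) * j) : ℤ) : ℝ) '' K ⊆ L := by
  induction N with
  | zero =>
    have e : ∀ w : Cyl, sh 0 w = w := by
      intro w
      unfold sh
      exact Prod.ext rfl (by simp)
    refine ⟨K, h1, h2, h3, subset_rfl, ?_, ?_⟩
    · rintro w ⟨v, hv, rfl⟩
      simp only [Nat.cast_zero, zero_mul, Int.cast_zero, e]
      exact hv
    · rintro w ⟨v, hv, rfl⟩
      simp only [Nat.cast_zero, zero_mul, neg_zero, Int.cast_zero, e]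
      exact hv
  | succ N ih =>
    obtain ⟨L, a1, a2, a3, a4, a5, a6⟩ := ih
    obtain ⟨w, hw, v, hv, hvw⟩ := h5
    obtain ⟨b1, b2, b3⟩ := q3_tr hf h1 h2 h3 (((N + 1 : ℕ) : ℤ) * j)
    obtain ⟨d1, d2, d3⟩ := q3_tr hf h1 h2 h3 (-(((N + 1 : ℕ) : ℤ) * j))
    have m1 : (L ∩ sh ((((N + 1 : ℕ) : ℤ) * j : ℤ) : ℝ) '' K).Nonempty := by
      refine ⟨sh (((N : ℤ) * j : ℤ) : ℝ) w, a5 ⟨w, hw, rfl⟩, v, hv, ?_⟩
      rw [← hvw, q3_add]
      congr 1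
      push_cast
      ring
    have m2 : (L ∩ sh ((-(((N + 1 : ℕ) : ℤ) * j) : ℤ) : ℝ) '' K).Nonempty := by
      refine ⟨sh ((-((N : ℤ) * j) : ℤ) : ℝ) v, a6 ⟨v, hv, rfl⟩, w, hw, ?_⟩
      rw [← hvw, q3_add]
      congr 1
      push_cast
      ring
    refine ⟨(L ∪ sh ((((N + 1 : ℕ) : ℤ) * j : ℤ) : ℝ) '' K) ∪ sh ((-(((N + 1 : ℕ) : ℤ) * j) : ℤ) : ℝ) '' K,
      (a1.union b1).union d1, ?_, union_subset (union_subset a3 b3) d3, ?_, ?_, ?_⟩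
    · have c1 : IsConnected (L ∪ sh ((((N + 1 : ℕ) : ℤ) * j : ℤ) : ℝ) '' K) := IsConnected.union m1 a2 b2
      refine IsConnected.union ?_ c1 d2
      exact m2.mono (inter_subset_inter_left _ subset_union_left)
    · exact a4.trans (subset_union_left.trans subset_union_left)
    · exact subset_union_right.trans subset_union_left
    · exact subset_union_right

theorem dbl_ess {f : ℝ × ℝ → ℝ} (hf : ∀ (z : ℝ × ℝ) (k : ℤ × ℤ), f (z + iv k) = f z) {c : ℝ} (h : Dbl f c) (a : ℝ) : Ess f c a := by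
  obtain ⟨K, j, h1, h2, h3, h4, hj, h5⟩ := h
  obtain ⟨N, hN⟩ := exists_nat_ge (max (a - aU K) (aL K - a))
  obtain ⟨L, a1, a2, a3, a4, a5, a6⟩ := q3_chain hf h1 h2 h3 h5 N
  have hj1 : (1 : ℝ) ≤ (j : ℝ) := by exact_mod_cast hj
  have hN0 : (0 : ℝ) ≤ (N : ℝ) := Nat.cast_nonneg N
  have hNj : (N : ℝ) ≤ (N : ℝ) * (j : ℝ) := le_mul_of_one_le_right hN0 hj1
  have t1 := q3_tr hf h1 h2 h3 ((N : ℤ) * j)
  have t2 := q3_tr hf h1 h2 h3 (-((N : ℤ) * j))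
  have u1 := aU_mono t1.1 a1 (sep_sh _ h4) a5
  have u2 := aL_mono t2.1 a1 (sep_sh _ h4) a6
  rw [aU_sh h1 h4] at u1
  rw [aL_sh h1 h4] at u2
  push_cast at u1 u2
  have m1 := (le_max_left (a - aU K) (aL K - a)).trans hN
  have m2 := (le_max_right (a - aU K) (aL K - a)).trans hN
  exact ⟨L, a1, a2, a3, sep_mono a4 h4, by linarith, by linarith⟩

end H25S
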