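import Pool.Agent.Lib.H25S.Defs

/-!
# Chunk LM1 (M)
Hausdorff limits of continua. The strip `X = {w : Cyl | |w.2| ≤ M}` is compact; `NonemptyCompacts X` (or `NonemptyCompacts Cyl` restricted, or `Vietoris`) is a compact metric space (`NonemptyCompacts.compactSpace`), so a subsequence of the `K n` converges to `L` in the Hausdorff distance
(`IsCompact.tendsto_subseq` / `CompactSpace.tendsto_subseq`; `Metric.NonemptyCompacts.dist_eq`, `Metric.hausdorffDist`). Open `O ⊇ L` (compact) contains an `ε`-thickening of `L` (`IsCompact.exists_thickening_subset_open`). CONNECTED: if `L ⊆ O₁ ∪ O₂` with `O₁, O₂` open, both meeting `L` and `L ∩ (O₁ ∩ O₂) = ∅`,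
then `L ∩ O₁`, `L ∩ O₂` are disjoint compact sets; separate them by disjoint open sets `V₁, V₂` (`SeparatedNhds`); eventually `K (φ n) ⊆ V₁ ∪ V₂` meets both: contradiction.
-/

namespace H25S

open MeasureTheory H83D Set Filter Topology

theorem cont_lim {K : ℕ → Set Cyl} {M : ℝ} (hK : ∀ n, IsCompact (K n)) (cK : ∀ n, IsConnected (K n))
    (hM : ∀ n, ∀ w ∈ K n, |w.2| ≤ M) :
    ∃ (φ : ℕ → ℕ) (L : Set Cyl), StrictMono φ ∧ IsCompact L ∧ IsConnected L ∧ (∀ w ∈ L, |w.2| ≤ M) ∧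
      (∀ O : Set Cyl, IsOpen O → L ⊆ O → ∀ᶠ n in atTop, K (φ n) ⊆ O) ∧
      ∀ w ∈ L, ∀ O : Set Cyl, IsOpen O → w ∈ O → ∀ᶠ n in atTop, (K (φ n) ∩ O).Nonempty := by
  have hX : IsCompact {w : Cyl | |w.2| ≤ M} := by
    have h1 : {w : Cyl | |w.2| ≤ M} = univ ×ˢ Icc (-M) M := by
      ext w
      simp [abs_le]
    rw [h1]
    exact isCompact_univ.prod isCompact_Icc
  let KK : ℕ → TopologicalSpace.NonemptyCompacts Cyl := fun n => ⟨⟨K n, hK n⟩, (cK n).nonempty⟩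
  have hS := TopologicalSpace.NonemptyCompacts.isCompact_subsets_of_isCompact hX
  obtain ⟨L, hL, φ, hφ, hlim⟩ := hS.tendsto_subseq (x := KK) (fun n w hw => hM n w hw)
  have hsub : ∀ O : Set Cyl, IsOpen O → (L : Set Cyl) ⊆ O → ∀ᶠ n in atTop, K (φ n) ⊆ O :=
    fun O hO hLO => hlim.eventually
      ((TopologicalSpace.NonemptyCompacts.isOpen_subsets_of_isOpen hO).mem_nhds hLO)
  have hint : ∀ w ∈ (L : Set Cyl), ∀ O : Set Cyl, IsOpen O → w ∈ O →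
      ∀ᶠ n in atTop, (K (φ n) ∩ O).Nonempty :=
    fun w hw O hO hwO => hlim.eventually
      ((TopologicalSpace.NonemptyCompacts.isOpen_inter_nonempty_of_isOpen hO).mem_nhds ⟨w, hw, hwO⟩)
  refine ⟨φ, L, hφ, L.isCompact, ⟨L.nonempty, ?_⟩, fun w hw => hL hw, hsub, hint⟩
  intro u v hu hv huv hLu hLv
  by_contra hne
  have hemp : ∀ x ∈ (L : Set Cyl), x ∈ u → x ∉ v := by
    intro x hx hxu hxv
    exact hne ⟨x, hx, hxu, hxv⟩
  have hc1 : IsCompact ((L : Set Cyl) ∩ vᶜ) := L.isCompact.inter_right hv.isClosed_compl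
  have hc2 : IsCompact ((L : Set Cyl) ∩ uᶜ) := L.isCompact.inter_right hu.isClosed_compl
  have hd : Disjoint ((L : Set Cyl) ∩ vᶜ) ((L : Set Cyl) ∩ uᶜ) := by
    rw [Set.disjoint_left]
    rintro x ⟨hx, hxv⟩ ⟨_, hxu⟩
    rcases huv hx with h | h
    · exact hxu h
    · exact hxv h
  obtain ⟨V₁, V₂, hV₁, hV₂, h1, h2, hV⟩ := SeparatedNhds.of_isCompact_isCompact hc1 hc2 hd
  have hLV : (L : Set Cyl) ⊆ V₁ ∪ V₂ := by
    intro x hx
    by_cases hxv : x ∈ v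
    · right
      exact h2 ⟨hx, fun hxu => hemp x hx hxu hxv⟩
    · left
      exact h1 ⟨hx, hxv⟩
  obtain ⟨x, hx, hxu⟩ := hLu
  obtain ⟨y, hy, hyv⟩ := hLv
  have hxV : x ∈ V₁ := h1 ⟨hx, hemp x hx hxu⟩
  have hyV : y ∈ V₂ := h2 ⟨hy, fun hyu => hemp y hy hyu hyv⟩
  obtain ⟨n, hn1, hn2, hn3⟩ := ((hsub _ (hV₁.union hV₂) hLV).and
    ((hint x hx _ hV₁ hxV).and (hint y hy _ hV₂ hyV))).exists
  obtain ⟨z, _, hz1, hz2⟩ := (cK (φ n)).isPreconnected V₁ V₂ hV₁ hV₂ hn1 hn2 hn3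
  exact Set.disjoint_left.1 hV hz1 hz2

end H25S
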