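import Pool.Agent.Lib.H25S.T5

/-!
# Chunk T11 (S)
If `Up K` and `Dn K` have a common point then `Up K ⊆ Dn K` and conversely (`up_conn`, `dn_max`), so `(Up K)ᶜ` does not meet the two ends and is closed: it is a closed subset of `univ ×ˢ Icc (-M) M` (compact).
-/

namespace H25S

open MeasureTheory H83D Set Filter Topology

theorem nsep_eq {K : Set Cyl} (hK : IsCompact K) (hs : ¬ Sep K) : Up K = Dn K := by
  obtain ⟨z, hz1, hz2⟩ := Set.not_disjoint_iff.1 hs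
  apply subset_antisymm
  · exact dn_max (up_conn hK).isPreconnected (up_disj K) ⟨z, hz1, hz2⟩
  · exact up_max (dn_conn hK).isPreconnected (dn_disj K) ⟨z, hz2, hz1⟩

theorem nsep_bd {K : Set Cyl} (hK : IsCompact K) (hs : ¬ Sep K) {M : ℝ} (hM : ∀ w ∈ K, |w.2| < M) :
    ∀ w ∈ (Up K)ᶜ, |w.2| < M := by
  intro w hw
  by_contra h
  rcases le_abs'.1 (not_lt.1 h) with h | h
  · apply hw
    rw [nsep_eq hK hs]
    exact dn_end (M := -M) (fun v hv => (abs_lt.1 (hM v hv)).1) w h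
  · exact hw (up_end (fun v hv => (abs_lt.1 (hM v hv)).2) w h)

theorem nsep_cpt {K : Set Cyl} (hK : IsCompact K) (hs : ¬ Sep K) : IsCompact (Up K)ᶜ := by
  obtain ⟨M, _, hM⟩ := cpt_bd hK
  have hc : IsClosed (Up K)ᶜ := (up_open hK.isClosed).isClosed_compl
  have hb : IsCompact ((univ : Set (AddCircle (1 : ℝ))) ×ˢ Icc (-M) M) := isCompact_univ.prod isCompact_Icc
  refine hb.of_isClosed_subset hc ?_
  intro w hw
  have := abs_lt.1 (nsep_bd hK hs hM w hw)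
  exact ⟨mem_univ _, this.1.le, this.2.le⟩

theorem sep_low {K : Set Cyl} (hK : IsCompact K) (hs : Sep K) : Low (Up K)ᶜ ∧ Low (Dn K) := by
  obtain ⟨M, _, hM⟩ := cpt_bd hK
  have hU : ∀ w : Cyl, M ≤ w.2 → w ∈ Up K := up_end (fun v hv => (abs_lt.1 (hM v hv)).2)
  have hD : ∀ w : Cyl, w.2 ≤ -M → w ∈ Dn K := dn_end (fun v hv => (abs_lt.1 (hM v hv)).1)
  refine ⟨⟨M, fun w hw hwU => Set.disjoint_left.1 hs hwU (hD w hw), fun w hw hwU => hwU (hU w hw)⟩,
    ⟨M, hD, fun w hw hwD => Set.disjoint_left.1 hs (hU w hw) hwD⟩⟩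

theorem sep_sub {K : Set Cyl} (hs : Sep K) : Dn K ⊆ (Up K)ᶜ :=
  fun _ hw hwU => Set.disjoint_left.1 hs hwU hw

end H25S
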