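import Pool.Agent.Lib.H25S.V3

/-!
# Chunk V5 (M)
Reverse Fatou on the strip `{|w.2| ≤ M}` (finite measure): `volume (limsup)`. With `ar_diff`: `ar (D n) ≤ ar E + volume (D n \ E)`. The sets `D n \ E ⊆ {|y| ≤ M}` and for every `w` eventually `w ∉ D n \ E`; so the indicators tend to `0` pointwise and are bounded by the indicator of the strip: `volume (D n \ E) → 0`
by dominated convergence (`tendsto_measure_of_...` or `tendsto_lintegral_of_dominated_convergence` for indicators). Same for `vol_lim`.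
-/

namespace H25S

open MeasureTheory H83D Set Filter Topology

theorem vol_lim {D : ℕ → Set Cyl} {M : ℝ} (mD : ∀ n, MeasurableSet (D n)) (hD : ∀ n, ∀ w ∈ D n, |w.2| ≤ M)
    (h : ∀ w, ∀ᶠ n in atTop, w ∉ D n) : Tendsto (fun n => (volume (D n)).toReal) atTop (𝓝 0) := by
  have hB : MeasurableSet {w : Cyl | |w.2| ≤ M} :=
    measurableSet_le (measurable_snd.norm) measurable_const
  have hfin : volume {w : Cyl | |w.2| ≤ M} < ⊤ := vol_bd (M := M) fun w hw => hw
  have h1 : Tendsto (fun n => volume (D n)) atTop (𝓝 (volume (∅ : Set Cyl))) := by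
    refine tendsto_measure_of_tendsto_indicator (A := ∅) atTop mD hB hfin.ne
      (Eventually.of_forall fun n w hw => hD n w hw) ?_
    intro w
    filter_upwards [h w] with n hn
    simp [hn]
  rw [measure_empty] at h1
  have h2 := (ENNReal.tendsto_toReal ENNReal.zero_ne_top).comp h1
  rwa [ENNReal.toReal_zero] at h2

theorem ar_lim {D : ℕ → Set Cyl} {E : Set Cyl} {M : ℝ} (mD : ∀ n, MeasurableSet (D n)) (mE : MeasurableSet E)
    (hD : ∀ n, (∀ w : Cyl, w.2 ≤ -M → w ∈ D n) ∧ ∀ w : Cyl, M ≤ w.2 → w ∉ D n)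
    (hE : (∀ w : Cyl, w.2 ≤ -M → w ∈ E) ∧ ∀ w : Cyl, M ≤ w.2 → w ∉ E)
    (h : ∀ w, w ∉ E → ∀ᶠ n in atTop, w ∉ D n) {a : ℝ} (ha : ∀ n, a ≤ ar (D n)) : a ≤ ar E := by
  have hLE : Low E := ⟨M, hE.1, hE.2⟩
  have hLD : ∀ n, Low (D n) := fun n => ⟨M, (hD n).1, (hD n).2⟩
  have h1 : ∀ n, a ≤ ar E + (volume (D n \ E)).toReal := by
    intro n
    have h2 := ar_diff hLE (hLD n) mE (mD n)
    have h3 : 0 ≤ (volume (E \ D n)).toReal := ENNReal.toReal_nonneg
    linarith [ha n]
  have h4 : Tendsto (fun n => (volume (D n \ E)).toReal) atTop (𝓝 0) := by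
    refine vol_lim (M := |M|) (fun n => (mD n).diff mE) ?_ ?_
    · rintro n w ⟨hw, hwE⟩
      have h5 : -M < w.2 := by
        by_contra hc
        exact hwE (hE.1 w (not_lt.mp hc))
      have h6 : w.2 < M := by
        by_contra hc
        exact (hD n).2 w (not_lt.mp hc) hw
      rw [abs_le]
      exact ⟨by linarith [le_abs_self M], by linarith [le_abs_self M]⟩
    · intro w
      by_cases hw : w ∈ E
      · exact Eventually.of_forall fun n hn => hn.2 hw
      · filter_upwards [h w hw] with n hn h7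
        exact hn h7.1
  have h8 := ge_of_tendsto' (h4.const_add (ar E)) h1
  rwa [add_zero] at h8

end H25S
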