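import Pool.Agent.Lib.H25S.T5
import Pool.Agent.Lib.H25S.T11
import Pool.Agent.Lib.H25S.V5

/-!
# Chunk LM2 (M)
`lim_up`: `w ∈ Up L`; `Up L` is open and connected, hence path connected (`cyl_lpc`, `IsOpen.isConnected_iff_isPathConnected`): a path from `w` to a point `(0, M')`, `M' > M`, in `Up L`; its range `P` is compact and disjoint from `L`, so `L ⊆ Pᶜ` open, eventually `K n ⊆ Pᶜ`; `P ∪ {w | M' ≤ w.2}` is preconnected and disjoint
from `K n` (`|w.2| ≤ M` there). `lim_dn`: the same or by `rf`. `lim_sep`: if `w ∈ Up L ∩ Dn L` then eventually `w ∈ Up (K n) ∩ Dn (K n)`. `lim_aU`: `ar_lim` with `D n = (Up (K n))ᶜ`, `E = (Up L)ᶜ`, constant `M + 1` (`up_end`, `dn_end`, `Sep`). `lim_aL`: `Dn`: apply `lim_aU` to the reflected sets or `ar_lim` to `rf` images; direct: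
`w ∈ Dn L → ∀ᶠ n, w ∈ Dn (K n)`. `lim_vol`: `volume (Up (K n))ᶜ ≤ volume (Up L)ᶜ + volume ((Up (K n))ᶜ \ (Up L)ᶜ)` and the last term tends to `0` (`vol_lim`, the sets are in the strip as `Up (K n) = Dn (K n)` contains both ends: `nsep_bd`).
-/

namespace H25S

open MeasureTheory H83D Set Filter Topology

theorem lim_up {K : ℕ → Set Cyl} {L : Set Cyl} {M : ℝ} (hL : IsCompact L) (hM : ∀ n, ∀ w ∈ K n, |w.2| ≤ M)
    (h : ∀ O : Set Cyl, IsOpen O → L ⊆ O → ∀ᶠ n in atTop, K n ⊆ O) {w : Cyl} (hw : w ∈ Up L) : ∀ᶠ n in atTop, w ∈ Up (K n) := by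
  obtain ⟨M1, -, hM1⟩ := cpt_bd hL
  obtain ⟨M', hM'⟩ : ∃ M' : ℝ, M' = max (M + 1) M1 := ⟨_, rfl⟩
  have h1 : ∀ v ∈ L, v.2 < M' := fun v hv =>
    lt_of_lt_of_le ((le_abs_self _).trans_lt (hM1 v hv)) (hM' ▸ le_max_right _ _)
  have hp : ((0 : AddCircle (1 : ℝ)), M') ∈ Up L := up_end h1 _ le_rfl
  have hpc : IsPathConnected (Up L) :=
    (IsOpen.isConnected_iff_isPathConnected (up_open hL.isClosed)).mp (up_conn hL)
  obtain ⟨γ, hγ⟩ := hpc.joinedIn w hw _ hp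
  have hPc : IsCompact (Set.range γ) := isCompact_range γ.continuous
  have hPL : L ⊆ (Set.range γ)ᶜ := by
    rintro v hv ⟨t, rfl⟩
    exact Set.disjoint_left.mp (up_disj L) (hγ t) hv
  filter_upwards [h _ hPc.isClosed.isOpen_compl hPL] with n hn
  have hw' : w ∈ Set.range γ := ⟨0, γ.source⟩
  have hp' : ((0 : AddCircle (1 : ℝ)), M') ∈ Set.range γ := ⟨1, γ.target⟩
  refine ⟨Set.range γ ∪ {v : Cyl | M' ≤ v.2}, ?_, ?_, Or.inl hw', M', fun v hv => Or.inr hv⟩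
  · refine IsPreconnected.union ((0 : AddCircle (1 : ℝ)), M') hp' (le_refl M')
      (isPreconnected_range γ.continuous) (end_up M').isPreconnected
  · rw [Set.disjoint_left]
    rintro v (hv | hv) hvK
    · exact hn hvK hv
    · have h2 : v.2 ≤ M := (le_abs_self _).trans (hM n v hvK)
      have h3 : M + 1 ≤ M' := hM' ▸ le_max_left _ _
      have h4 : M' ≤ v.2 := hv
      linarith

theorem lim_dn {K : ℕ → Set Cyl} {L : Set Cyl} {M : ℝ} (hL : IsCompact L) (hM : ∀ n, ∀ w ∈ K n, |w.2| ≤ M)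
    (h : ∀ O : Set Cyl, IsOpen O → L ⊆ O → ∀ᶠ n in atTop, K n ⊆ O) {w : Cyl} (hw : w ∈ Dn L) : ∀ᶠ n in atTop, w ∈ Dn (K n) := by
  rw [dn_eq] at hw
  obtain ⟨y, hy, rfl⟩ := hw
  have h1 : ∀ O : Set Cyl, IsOpen O → rf '' L ⊆ O → ∀ᶠ n in atTop, rf '' K n ⊆ O := by
    intro O hO hLO
    have h2 := h (rf ⁻¹' O) (hO.preimage rf_cont) (Set.image_subset_iff.mp hLO)
    filter_upwards [h2] with n hn
    exact Set.image_subset_iff.mpr hn
  have h2 : ∀ n, ∀ w ∈ rf '' K n, |w.2| ≤ M := by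
    rintro n w ⟨v, hv, rfl⟩
    simp only [rf, abs_neg]
    exact hM n v hv
  filter_upwards [lim_up (K := fun n => rf '' K n) (hL.image rf_cont) h2 h1 hy] with n hn
  rw [dn_eq]
  exact Set.mem_image_of_mem _ hn

theorem lim_sep {K : ℕ → Set Cyl} {L : Set Cyl} {M : ℝ} (hL : IsCompact L) (hM : ∀ n, ∀ w ∈ K n, |w.2| ≤ M)
    (h : ∀ O : Set Cyl, IsOpen O → L ⊆ O → ∀ᶠ n in atTop, K n ⊆ O) (hs : ∀ n, Sep (K n)) : Sep L := by
  unfold Sep
  rw [Set.disjoint_left]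
  intro w hw1 hw2
  obtain ⟨n, hn1, hn2⟩ := ((lim_up hL hM h hw1).and (lim_dn hL hM h hw2)).exists
  exact Set.disjoint_left.mp (hs n) hn1 hn2

theorem lm2_ends {K : Set Cyl} {M : ℝ} (hM : ∀ w ∈ K, |w.2| ≤ M) (hs : Sep K) :
    (∀ w : Cyl, w.2 ≤ -(M + 1) → w ∈ (Up K)ᶜ) ∧ ∀ w : Cyl, M + 1 ≤ w.2 → w ∉ (Up K)ᶜ := by
  constructor
  · intro w hw hw2
    have h1 : w ∈ Dn K := dn_end (M := -(M + 1))
      (fun v hv => by have := (abs_le.mp (hM v hv)).1; linarith) w hw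
    exact Set.disjoint_left.mp hs hw2 h1
  · intro w hw hw2
    exact hw2 (up_end (M := M + 1) (fun v hv => by have := (abs_le.mp (hM v hv)).2; linarith) w hw)

theorem lim_aU {K : ℕ → Set Cyl} {L : Set Cyl} {M : ℝ} (hK : ∀ n, IsCompact (K n)) (hL : IsCompact L)
    (hM : ∀ n, ∀ w ∈ K n, |w.2| ≤ M) (hML : ∀ w ∈ L, |w.2| ≤ M)
    (h : ∀ O : Set Cyl, IsOpen O → L ⊆ O → ∀ᶠ n in atTop, K n ⊆ O) (hs : ∀ n, Sep (K n)) {a : ℝ}
    (ha : ∀ n, a ≤ aU (K n)) : a ≤ aU L := by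
  have hLs : Sep L := lim_sep hL hM h hs
  have key := ar_lim (D := fun n => (Up (K n))ᶜ) (E := (Up L)ᶜ) (M := M + 1)
    (fun n => (up_open (hK n).isClosed).measurableSet.compl)
    (up_open hL.isClosed).measurableSet.compl
    (fun n => lm2_ends (hM n) (hs n)) (lm2_ends hML hLs)
    (fun w hw => by
      have hw' : w ∈ Up L := not_not.mp hw
      filter_upwards [lim_up hL hM h hw'] with n hn
      exact fun h' => h' hn) ha
  exact key

theorem lim_aL {K : ℕ → Set Cyl} {L : Set Cyl} {M : ℝ} (hK : ∀ n, IsCompact (K n)) (hL : IsCompact L)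
    (hM : ∀ n, ∀ w ∈ K n, |w.2| ≤ M) (hML : ∀ w ∈ L, |w.2| ≤ M)
    (h : ∀ O : Set Cyl, IsOpen O → L ⊆ O → ∀ᶠ n in atTop, K n ⊆ O) (hs : ∀ n, Sep (K n)) {a : ℝ}
    (ha : ∀ n, aL (K n) ≤ a) : aL L ≤ a := by
  have hLs : Sep L := lim_sep hL hM h hs
  have hv : Tendsto (fun n => (volume (Dn L \ Dn (K n))).toReal) atTop (𝓝 0) := by
    refine vol_lim (M := M + 1)
      (fun n => (dn_open hL.isClosed).measurableSet.diff (dn_open (hK n).isClosed).measurableSet)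
      (fun n w hw => ?_) (fun w => ?_)
    · rw [abs_le]
      constructor
      · by_contra hc
        push Not at hc
        exact hw.2 (dn_end (M := -(M + 1))
          (fun v hv => by have := (abs_le.mp (hM n v hv)).1; linarith) w hc.le)
      · by_contra hc
        push Not at hc
        have h1 : w ∈ Up L := up_end (M := M + 1)
          (fun v hv => by have := (abs_le.mp (hML v hv)).2; linarith) w hc.le
        exact Set.disjoint_left.mp hLs h1 hw.1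
    · by_cases hw : w ∈ Dn L
      · filter_upwards [lim_dn hL hM h hw] with n hn
        exact fun h' => h'.2 hn
      · exact Filter.Eventually.of_forall fun n h' => hw h'.1
  have hle : ∀ n, aL L ≤ a + (volume (Dn L \ Dn (K n))).toReal := by
    intro n
    have h1 := ar_diff (sep_low (hK n) (hs n)).2 (sep_low hL hLs).2
      (dn_open (hK n).isClosed).measurableSet (dn_open hL.isClosed).measurableSet
    have h2 : ar (Dn (K n)) ≤ a := ha n
    have h3 : 0 ≤ (volume (Dn (K n) \ Dn L)).toReal := ENNReal.toReal_nonneg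
    have h4 : aL L = ar (Dn L) := rfl
    rw [h4, h1]
    linarith
  have ht : Tendsto (fun n => a + (volume (Dn L \ Dn (K n))).toReal) atTop (𝓝 (a + 0)) :=
    tendsto_const_nhds.add hv
  rw [add_zero] at ht
  exact ge_of_tendsto' ht hle

theorem lim_vol {K : ℕ → Set Cyl} {L : Set Cyl} {M : ℝ} (hK : ∀ n, IsCompact (K n)) (hL : IsCompact L)
    (hM : ∀ n, ∀ w ∈ K n, |w.2| ≤ M) (hML : ∀ w ∈ L, |w.2| ≤ M)
    (h : ∀ O : Set Cyl, IsOpen O → L ⊆ O → ∀ᶠ n in atTop, K n ⊆ O) (hs : ∀ n, ¬ Sep (K n)) {b : ℕ → ℝ} {a : ℝ}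
    (hb : Tendsto b atTop (𝓝 a)) (ha : ∀ n, ENNReal.ofReal (b n) ≤ volume (Up (K n))ᶜ) : ENNReal.ofReal a ≤ volume (Up L)ᶜ := by
  have hbd : ∀ n, ∀ w ∈ (Up (K n))ᶜ \ (Up L)ᶜ, |w.2| ≤ M + 1 := fun n w hw =>
    (nsep_bd (hK n) (hs n) (M := M + 1) (fun v hv => by have := hM n v hv; linarith) w hw.1).le
  have hv : Tendsto (fun n => (volume ((Up (K n))ᶜ \ (Up L)ᶜ)).toReal) atTop (𝓝 0) := by
    refine vol_lim (M := M + 1)
      (fun n => (up_open (hK n).isClosed).measurableSet.compl.diff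
        (up_open hL.isClosed).measurableSet.compl)
      hbd (fun w => ?_)
    by_cases hw : w ∈ Up L
    · filter_upwards [lim_up hL hM h hw] with n hn
      exact fun h' => h'.1 hn
    · exact Filter.Eventually.of_forall fun n h' => h'.2 hw
  have hle : ∀ n, ENNReal.ofReal (b n) ≤
      volume (Up L)ᶜ + ENNReal.ofReal (volume ((Up (K n))ᶜ \ (Up L)ᶜ)).toReal := by
    intro n
    rw [ENNReal.ofReal_toReal (vol_bd (hbd n)).ne]
    refine (ha n).trans ((measure_mono ?_).trans (measure_union_le _ _))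
    intro w hw
    by_cases hw' : w ∈ (Up L)ᶜ
    · exact Or.inl hw'
    · exact Or.inr ⟨hw, hw'⟩
  have ht1 : Tendsto (fun n => ENNReal.ofReal (b n)) atTop (𝓝 (ENNReal.ofReal a)) :=
    ENNReal.tendsto_ofReal hb
  have ht2 : Tendsto (fun n => volume (Up L)ᶜ +
      ENNReal.ofReal (volume ((Up (K n))ᶜ \ (Up L)ᶜ)).toReal) atTop (𝓝 (volume (Up L)ᶜ + ENNReal.ofReal 0)) :=
    tendsto_const_nhds.add (ENNReal.tendsto_ofReal hv)
  rw [ENNReal.ofReal_zero, add_zero] at ht2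
  exact le_of_tendsto_of_tendsto' ht1 ht2 hle

end H25S
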