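import Pool.Agent.Lib.H25S.Defs

/-!
# Chunk LM4 (S)
By contradiction: `F s w < c`. By continuity there are a neighbourhood of `s` and an open set `O ∋ w` and `d > 0` with `F s' w' < c - d` there; eventually `s n` is in it, `c n > c - d`, and some `w' ∈ K n ∩ O`: `c n ≤ F (s n) w' < c - d`.
-/

namespace H25S

open MeasureTheory H83D Set Filter Topology

theorem lim_lev {F : ℝ → Cyl → ℝ} (cF : Continuous fun p : ℝ × Cyl => F p.1 p.2) {s c : ℕ → ℝ} {s₀ c₀ : ℝ}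
    (hs : Tendsto s atTop (𝓝 s₀)) (hc : Tendsto c atTop (𝓝 c₀)) {K : ℕ → Set Cyl} (hK : ∀ n, ∀ w ∈ K n, c n ≤ F (s n) w)
    {w : Cyl} (hw : ∀ O : Set Cyl, IsOpen O → w ∈ O → ∀ᶠ n in atTop, (K n ∩ O).Nonempty) : c₀ ≤ F s₀ w := by
  by_contra hlt
  obtain ⟨m, hm1, hm2⟩ := exists_between (not_le.1 hlt)
  have hop : IsOpen {p : ℝ × Cyl | F p.1 p.2 < m} := isOpen_lt cF continuous_const
  have hmem : ((s₀, w) : ℝ × Cyl) ∈ {p : ℝ × Cyl | F p.1 p.2 < m} := hm1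
  obtain ⟨U, O, hU, hO, hsU, hwO, hsub⟩ := isOpen_prod_iff.1 hop s₀ w hmem
  have h1 : ∀ᶠ n in atTop, s n ∈ U := hs.eventually (hU.mem_nhds hsU)
  have h2 : ∀ᶠ n in atTop, m < c n := hc.eventually (lt_mem_nhds hm2)
  obtain ⟨n, ⟨hn1, hn2⟩, w', hw'K, hw'O⟩ := ((h1.and h2).and (hw O hO hwO)).exists
  have h3 : F (s n) w' < m := hsub (Set.mk_mem_prod hn1 hw'O)
  have h4 := hK n w' hw'K
  linarith

end H25S
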