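import Pool.Agent.Lib.H25S.T4

/-!
# Chunk T14 (M)
Paths: `K` preconnected, `K ⊆ O`, `O` open in `Cyl`, `w, w' ∈ K`, `pr z = w`. `Cyl` is locally path connected, so `w`, `w'` are joined by a path in `O` (`IsOpen.isConnected_iff_isPathConnected` for the component `connectedComponentIn O w`, open; or the set of points joined to `w` in `O` is clopen in `O`). Lift its first coordinate
(a path in `AddCircle 1`) to `ℝ` starting at `z.1`: `IsCoveringMap.exists_path_lifts` for `AddCircle.isCoveringMap_coe`; the second coordinate is kept. The end `z'` satisfies `pr z' = w'`.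
-/

namespace H25S

open MeasureTheory H83D Set Filter Topology

theorem t14_path {O : Set Cyl} {w w' : Cyl} (h : JoinedIn O w w') {z : ℝ × ℝ} (hz : pr z = w) :
    ∃ z', pr z' = w' ∧ JoinedIn (pr ⁻¹' O) z z' := by
  obtain ⟨γ, hγ⟩ := h
  have hc1 : Continuous fun t : unitInterval => (γ t).1 := continuous_fst.comp γ.continuous
  obtain ⟨Γ, hΓ, hΓ0⟩ := (AddCircle.isCoveringMap_coe (1 : ℝ)).exists_path_lifts
    (⟨fun t => (γ t).1, hc1⟩ : C(unitInterval, AddCircle (1 : ℝ))) z.1 (by
      change (γ 0).1 = _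
      rw [γ.source, ← hz]
      rfl)
  have hΓt : ∀ t, ((Γ t : ℝ) : AddCircle (1 : ℝ)) = (γ t).1 := fun t => congrFun hΓ t
  have hpr : ∀ t, pr (Γ t, (γ t).2) = γ t := by
    intro t
    exact Prod.ext (hΓt t) rfl
  refine ⟨(Γ 1, (γ 1).2), ?_, ?_⟩
  · rw [hpr, γ.target]
  · refine ⟨{ toFun := fun t => (Γ t, (γ t).2)
              continuous_toFun := Γ.continuous.prodMk (continuous_snd.comp γ.continuous)
              source' := ?_
              target' := rfl }, ?_⟩
    · refine Prod.ext hΓ0 ?_
      change (γ 0).2 = z.2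
      rw [γ.source, ← hz]
      rfl
    · intro t
      change pr (Γ t, (γ t).2) ∈ O
      rw [hpr]
      exact hγ t

theorem joined_lift {K O : Set Cyl} (hK : IsPreconnected K) (hO : IsOpen O) (hKO : K ⊆ O) {w w' : Cyl} (hw : w ∈ K)
    (hw' : w' ∈ K) {z : ℝ × ℝ} (hz : pr z = w) : ∃ z', pr z' = w' ∧ JoinedIn (pr ⁻¹' O) z z' := by
  have h1 : K ⊆ connectedComponentIn O w := hK.subset_connectedComponentIn hw hKO
  have h2 : IsOpen (connectedComponentIn O w) := hO.connectedComponentIn
  have h3 : IsConnected (connectedComponentIn O w) :=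
    ⟨⟨w, h1 hw⟩, isPreconnected_connectedComponentIn⟩
  have h4 : IsPathConnected (connectedComponentIn O w) := (h2.isConnected_iff_isPathConnected).1 h3
  have h5 : JoinedIn O w w' :=
    (h4.joinedIn w (h1 hw) w' (h1 hw')).mono (connectedComponentIn_subset O w)
  exact t14_path h5 hz

/-- lifting of paths of the cylinder -/
theorem path_lift {O : Set Cyl} {w w' : Cyl} (h : JoinedIn O w w') {z : ℝ × ℝ} (hz : pr z = w) :
    ∃ z', pr z' = w' ∧ JoinedIn (pr ⁻¹' O) z z' := by
  exact t14_path h hz

end H25S
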