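import Pool.Agent.Lib.H25S.T0

/-!
# Chunk T2 (S)
`dsc_pr`: `lft (pr z) = z + iv (k, 0)` (`pr_lft`, `pr_eq`). `dsc_cont`: `pr` is a quotient map (`pr_open.isQuotientMap`), `dsc f ∘ pr = f`. `sl_closed`: preimage of `Ici c`. `sh j (pr z) = pr (z + iv (0, j))`.
-/

namespace H25S

open MeasureTheory H83D Set Filter Topology

theorem dsc_pr {f : ℝ × ℝ → ℝ} (hf : ∀ (z : ℝ × ℝ) (k : ℤ × ℤ), f (z + iv k) = f z) (z : ℝ × ℝ) : dsc f (pr z) = f z := by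
  obtain ⟨k, hk⟩ := pr_eq.1 (pr_lft (pr z)).symm
  rw [dsc, hk, hf]

theorem dsc_cont {f : ℝ × ℝ → ℝ} (cf : Continuous f) (hf : ∀ (z : ℝ × ℝ) (k : ℤ × ℤ), f (z + iv k) = f z) :
    Continuous (dsc f) := by
  have hq : IsQuotientMap pr := pr_open.isQuotientMap pr_cont (fun w => pr_surj w)
  rw [hq.continuous_iff]
  have e : dsc f ∘ pr = f := funext fun z => dsc_pr hf z
  rw [e]
  exact cf

theorem sl_closed {f : ℝ × ℝ → ℝ} (cf : Continuous f) (hf : ∀ (z : ℝ × ℝ) (k : ℤ × ℤ), f (z + iv k) = f z) (c : ℝ) :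
    IsClosed (SL f c) := by
  exact isClosed_Ici.preimage (dsc_cont cf hf)

theorem mem_sl {f : ℝ × ℝ → ℝ} (hf : ∀ (z : ℝ × ℝ) (k : ℤ × ℤ), f (z + iv k) = f z) (c : ℝ) (z : ℝ × ℝ) :
    pr z ∈ SL f c ↔ c ≤ f z := by
  show c ≤ dsc f (pr z) ↔ c ≤ f z
  rw [dsc_pr hf]

theorem sh_pr (j : ℤ) (z : ℝ × ℝ) : sh j (pr z) = pr (z + iv (0, j)) := by
  simp [sh, pr, iv]

theorem dsc_sh {f : ℝ × ℝ → ℝ} (hf : ∀ (z : ℝ × ℝ) (k : ℤ × ℤ), f (z + iv k) = f z) (j : ℤ) (w : Cyl) :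
    dsc f (sh j w) = dsc f w := by
  obtain ⟨z, rfl⟩ := pr_surj w
  rw [sh_pr, dsc_pr hf, dsc_pr hf, hf]

end H25S
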