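import Pool.Agent.Lib.H25S.S0
import Pool.Agent.Lib.H25S.T2
import Pool.Agent.Lib.H25S.T12
import Pool.Agent.Lib.H25S.T14

/-!
# Chunk Q4 (M)
`w₀ ∈ K`, `B = connectedComponentIn (SL f c) w₀` (`comp_closed`, `comp_max`): closed, connected, maximal, `K ⊆ B`. (1) For `j : ℤ`, `0 < j`: `B ∩ sh j '' B = ∅`. Suppose `b ∈ B`, `sh (-j) b ∈ B`. `O = {w | c'' < dsc f w}` is open, `B ⊆ O`. `joined_lift` gives paths in `pr ⁻¹' O` over `w₀, b` and over `w₀, sh (-j) b`; the images `P₁, P₂` of their ranges under `pr` are compact connected subsets of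
`SL f c''` containing `w₀`. `K* = K ∪ P₁ ∪ P₂` is compact connected, `Sep` (`sep_mono`), `b ∈ K* ∩ sh j '' K*`: `Dbl f c''`, contradiction. (2) BOUNDED: `|w.2| < M` on `K` (`cpt_bd`), `j : ℕ` with `2 M < j`. `sh j '' K ⊆ sh j '' B` is disjoint from `B`, and lies above `M`, so `w₀ ∈ Dn (sh j '' K)` (`dn_end`), `B ⊆ Dn (sh j '' K)` (`dn_max`); by `sep_sh` `Dn (sh j '' K)` is disjoint from
`Up (sh j '' K)`, which contains a half cylinder (`up_end`): `B` is bounded above. Below: `sh (-j) '' K` is disjoint from `B` (translate (1)), `B ⊆ Up (sh (-j) '' K)`. So `B` is compact.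
-/

namespace H25S

open MeasureTheory H83D Set Filter Topology

theorem q4_path {B O : Set Cyl} (hB : IsPreconnected B) (hO : IsOpen O) (hBO : B ⊆ O) {w w' : Cyl} (hw : w ∈ B)
    (hw' : w' ∈ B) : ∃ P : Set Cyl, IsCompact P ∧ IsConnected P ∧ P ⊆ O ∧ w ∈ P ∧ w' ∈ P := by
  obtain ⟨z, hz⟩ := pr_surj w
  obtain ⟨z', hz', γ, hγ⟩ := joined_lift hB hO hBO hw hw' hz
  have hc : Continuous fun t => pr (γ t) := pr_cont.comp γ.continuous
  refine ⟨range (fun t => pr (γ t)), isCompact_range hc, isConnected_range hc, ?_, ⟨0, ?_⟩, ⟨1, ?_⟩⟩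
  · rintro _ ⟨t, rfl⟩
    exact hγ t
  · show pr (γ 0) = w
    rw [γ.source, hz]
  · show pr (γ 1) = w'
    rw [γ.target, hz']

theorem q4_disj {f : ℝ × ℝ → ℝ} (cf : Continuous f) (hf : ∀ (z : ℝ × ℝ) (k : ℤ × ℤ), f (z + iv k) = f z) {c c'' : ℝ} (hc : c'' < c)
    (hd : ¬ Dbl f c'') {K B : Set Cyl} (hK : IsCompact K) (cK : IsConnected K) (hs : Sep K) (hKB : K ⊆ B)
    (hB : IsPreconnected B) (hBS : B ⊆ SL f c) (j : ℤ) (hj : 0 < j) : Disjoint B (sh j '' B) := by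
  rw [Set.disjoint_left]
  rintro b hb ⟨b', hb', hbb⟩
  obtain ⟨w₀, hw₀⟩ := cK.nonempty
  have hO : IsOpen {w : Cyl | c'' < dsc f w} := isOpen_Ioi.preimage (dsc_cont cf hf)
  have hBO : B ⊆ {w : Cyl | c'' < dsc f w} := fun w hw => lt_of_lt_of_le hc (hBS hw)
  obtain ⟨P1, h11, h12, h13, h14, h15⟩ := q4_path hB hO hBO (hKB hw₀) hb
  obtain ⟨P2, h21, h22, h23, h24, h25⟩ := q4_path hB hO hBO (hKB hw₀) hb'
  apply hd
  refine ⟨K ∪ (P1 ∪ P2), j, hK.union (h11.union h21), ?_, ?_, sep_mono subset_union_left hs, hj,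
    ⟨b, Or.inr (Or.inl h15), ⟨b', Or.inr (Or.inr h25), hbb⟩⟩⟩
  · exact IsConnected.union ⟨w₀, hw₀, Or.inl h14⟩ cK (IsConnected.union ⟨w₀, h14, h24⟩ h12 h22)
  · rintro w (hw | hw | hw)
    · have h1 : c'' < dsc f w := hBO (hKB hw)
      exact h1.le
    · have h1 : c'' < dsc f w := h13 hw
      exact h1.le
    · have h1 : c'' < dsc f w := h23 hw
      exact h1.le

theorem q4_bd {K B : Set Cyl} (hK : IsCompact K) (cK : IsConnected K) (hs : Sep K) (hKB : K ⊆ B)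
    (hB : IsPreconnected B) (hdj : ∀ j : ℤ, 0 < j → Disjoint B (sh j '' B)) :
    ∃ R : ℝ, ∀ b ∈ B, b.2 < R ∧ -R < b.2 := by
  obtain ⟨w₀, hw₀⟩ := cK.nonempty
  obtain ⟨M, hM, hMK⟩ := cpt_bd hK
  obtain ⟨n, hn⟩ := exists_nat_gt (2 * M)
  have hn0 : (0 : ℤ) < (n : ℤ) := by
    have h1 : (0 : ℝ) < (n : ℝ) := by linarith
    exact_mod_cast h1
  have hd := hdj (n : ℤ) hn0
  have e1 : (((n : ℤ) : ℝ)) = (n : ℝ) := by push_cast; rfl
  rw [e1] at hd
  have hw1 := abs_lt.1 (hMK w₀ hw₀)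
  refine ⟨M + n, fun b hb => ⟨?_, ?_⟩⟩
  · -- above
    have h1 : ∀ w ∈ sh n '' K, M < w.2 := by
      rintro _ ⟨k, hk, rfl⟩
      have h2 := abs_lt.1 (hMK k hk)
      show M < k.2 + n
      linarith [h2.1]
    have h3 : w₀ ∈ Dn (sh n '' K) := dn_end h1 w₀ hw1.2.le
    have h4 : Disjoint B (sh n '' K) := hd.mono_right (image_mono hKB)
    have h5 : B ⊆ Dn (sh n '' K) := dn_max hB h4 ⟨w₀, hKB hw₀, h3⟩
    by_contra h6
    have h7 : b ∈ Up (sh n '' K) := by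
      refine up_end (M := M + n) ?_ b (not_lt.1 h6)
      rintro _ ⟨k, hk, rfl⟩
      have h2 := abs_lt.1 (hMK k hk)
      show k.2 + n < M + n
      linarith [h2.2]
    exact Set.disjoint_left.1 (sep_sh (n : ℝ) hs) h7 (h5 hb)
  · have h1 : ∀ w ∈ sh (-(n : ℝ)) '' K, w.2 < -M := by
      rintro _ ⟨k, hk, rfl⟩
      have h2 := abs_lt.1 (hMK k hk)
      show k.2 + -(n : ℝ) < -M
      linarith [h2.2]
    have h3 : w₀ ∈ Up (sh (-(n : ℝ)) '' K) := up_end h1 w₀ hw1.1.le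
    have h4 : Disjoint B (sh (-(n : ℝ)) '' K) := by
      rw [Set.disjoint_left]
      rintro x hx ⟨k, hk, hkx⟩
      refine Set.disjoint_left.1 hd (hKB hk) ⟨x, hx, ?_⟩
      rw [← hkx]
      apply Prod.ext
      · rfl
      · show k.2 + -(n : ℝ) + n = k.2
        ring
    have h5 : B ⊆ Up (sh (-(n : ℝ)) '' K) := up_max hB h4 ⟨w₀, hKB hw₀, h3⟩
    by_contra h6
    have h7 : b ∈ Dn (sh (-(n : ℝ)) '' K) := by
      refine dn_end (M := -(M + n)) ?_ b (not_lt.1 h6)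
      rintro _ ⟨k, hk, rfl⟩
      have h2 := abs_lt.1 (hMK k hk)
      show -(M + n) < k.2 + -(n : ℝ)
      linarith [h2.1]
    exact Set.disjoint_left.1 (sep_sh (-(n : ℝ)) hs) (h5 hb) h7

theorem dbl_comp {f : ℝ × ℝ → ℝ} (cf : Continuous f) (hf : ∀ (z : ℝ × ℝ) (k : ℤ × ℤ), f (z + iv k) = f z) {c c'' : ℝ} (hc : c'' < c)
    (hd : ¬ Dbl f c'') {K : Set Cyl} (hK : IsCompact K) (cK : IsConnected K) (hs : Sep K) (hKc : K ⊆ SL f c) :
    ∃ K' : Set Cyl, K ⊆ K' ∧ IsComp K' (SL f c) := by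
  obtain ⟨w₀, hw₀⟩ := cK.nonempty
  have hwA : w₀ ∈ SL f c := hKc hw₀
  have hKB : K ⊆ connectedComponentIn (SL f c) w₀ := cK.isPreconnected.subset_connectedComponentIn hw₀ hKc
  have hB : IsPreconnected (connectedComponentIn (SL f c) w₀) := isPreconnected_connectedComponentIn
  have hBS : connectedComponentIn (SL f c) w₀ ⊆ SL f c := connectedComponentIn_subset _ _
  have hcl : IsClosed (connectedComponentIn (SL f c) w₀) := comp_closed (sl_closed cf hf c) hwA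
  obtain ⟨R, hR⟩ := q4_bd hK cK hs hKB hB (fun j hj => q4_disj cf hf hc hd hK cK hs hKB hB hBS j hj)
  refine ⟨connectedComponentIn (SL f c) w₀, hKB, ⟨?_, ⟨⟨w₀, hKB hw₀⟩, hB⟩, hBS, ?_⟩⟩
  · refine IsCompact.of_isClosed_subset
      ((isCompact_univ : IsCompact (univ : Set (AddCircle (1 : ℝ)))).prod (isCompact_Icc (a := -R) (b := R))) hcl ?_
    intro b hb
    have h1 := hR b hb
    exact ⟨mem_univ _, h1.2.le, h1.1.le⟩
  · intro S hS hSA hn
    exact comp_max hwA hS hSA hn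

end H25S
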