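import Pool.Agent.Lib.H25S.O2
import Pool.Agent.Lib.H25S.LM1
import Pool.Agent.Lib.H25S.LM2
import Pool.Agent.Lib.H25S.LM4
import Pool.Agent.Lib.H25S.Q4

/-!
# Chunk Q5 (M)
`c n = c - (c - c'')/(n + 2)`: `c'' < c n < c`, increasing to `c`, `c 0 ≤ c n`. `K n` a witness of `Ess f (c n) a`. `K' n ⊇ K n` a compact component of `SL f (c 0)` (`dbl_comp` at the level `c 0 > c''`; `K n ⊆ SL f (c n) ⊆ SL f (c 0)`), `Sep (K' n)`, `aL (K' n) ≤ aL (K n) ≤ a ≤ aU (K n) ≤ aU (K' n)` (`aL_mono`, `aU_mono`). `meet_of_pos`: `K' n` meets `K' 0`, so `K' n ⊆ K' 0` (maximality):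
`K n ⊆ K' 0`, uniform bound `M`. `cont_lim`: `φ`, `L`; `lim_sep`, `lim_aU`, `lim_aL` (for `K ∘ φ`), `lim_lev` with `F s w = dsc f w`, constant `s`: `L ⊆ SL f c`. `dbl_comp` at the level `c`: `K ⊇ L`, `IsComp K (SL f c)`, `Sep K`, `aL K ≤ aL L ≤ a ≤ aU L ≤ aU K`.
-/

namespace H25S

open MeasureTheory H83D Set Filter Topology

theorem ess_att {f : ℝ × ℝ → ℝ} (cf : Continuous f) (hf : ∀ (z : ℝ × ℝ) (k : ℤ × ℤ), f (z + iv k) = f z) {c a : ℝ}
    (h1 : ∀ c' : ℝ, c' < c → Ess f c' a) {c'' : ℝ} (hc : c'' < c) (hd : ¬ Dbl f c'') :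
    ∃ K : Set Cyl, IsComp K (SL f c) ∧ Sep K ∧ aL K ≤ a ∧ a ≤ aU K := by
  have hcc : 0 < c - c'' := sub_pos.mpr hc
  obtain ⟨cs, hcs⟩ : ∃ cs : ℕ → ℝ, ∀ n, cs n = c - (c - c'') / ((n : ℝ) + 2) := ⟨_, fun n => rfl⟩
  have hlt : ∀ n, cs n < c := by
    intro n
    have h2 : 0 < (c - c'') / ((n : ℝ) + 2) := by positivity
    rw [hcs n]
    linarith
  have hle0 : ∀ n, cs 0 ≤ cs n := by
    intro n
    rw [hcs 0, hcs n]
    have h2 : (c - c'') / ((n : ℝ) + 2) ≤ (c - c'') / (((0 : ℕ) : ℝ) + 2) := by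
      apply div_le_div_of_nonneg_left hcc.le (by positivity)
      have : (0 : ℝ) ≤ (n : ℝ) := Nat.cast_nonneg n
      push_cast
      linarith
    linarith
  have h0 : c'' < cs 0 := by
    rw [hcs 0]
    push_cast
    linarith
  have hcl : Tendsto cs atTop (𝓝 c) := by
    have h2 : Tendsto (fun n : ℕ => (c - c'') / ((n : ℝ) + 2)) atTop (𝓝 0) :=
      tendsto_const_nhds.div_atTop
        (tendsto_atTop_add_const_right _ _ tendsto_natCast_atTop_atTop)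
    have h3 : Tendsto (fun n : ℕ => c - (c - c'') / ((n : ℝ) + 2)) atTop (𝓝 (c - 0)) :=
      tendsto_const_nhds.sub h2
    rw [sub_zero] at h3
    exact h3.congr fun n => (hcs n).symm
  choose K hK cK hKs sK hKL hKU using fun n => h1 (cs n) (hlt n)
  have hKs0 : ∀ n, K n ⊆ SL f (cs 0) := fun n w hw => (hle0 n).trans (hKs n hw)
  choose K' hKK' hcomp using fun n => dbl_comp cf hf h0 hd (hK n) (cK n) (sK n) (hKs0 n)
  have hsub0 : ∀ n, K' n ⊆ K' 0 := by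
    intro n
    have hb : ∀ m, aL (K' m) ≤ a ∧ a ≤ aU (K' m) := fun m =>
      ⟨(aL_mono (hK m) (hcomp m).cpt (sK m) (hKK' m)).trans (hKL m),
        (hKU m).trans (aU_mono (hK m) (hcomp m).cpt (sK m) (hKK' m))⟩
    have h2 := meet_of_pos (hcomp n).cpt (hcomp n).con (hcomp 0).cpt (hcomp 0).con
      (sep_mono (hKK' n) (sK n)) (sep_mono (hKK' 0) (sK 0)) (hb n).1 (hb n).2 (hb 0).1 (hb 0).2
    exact (hcomp 0).max _ (hcomp n).con.isPreconnected (hcomp n).sub h2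
  obtain ⟨M, -, hM⟩ := cpt_bd (hcomp 0).cpt
  have hM' : ∀ n, ∀ w ∈ K n, |w.2| ≤ M := fun n w hw => (hM w (hsub0 n (hKK' n hw))).le
  obtain ⟨φ, L, hφ, hLc, hLcon, hLM, hsub, hint⟩ := cont_lim hK cK hM'
  have hLs : Sep L := lim_sep (K := fun n => K (φ n)) hLc (fun n => hM' (φ n)) hsub fun n => sK (φ n)
  have hLU : a ≤ aU L := lim_aU (K := fun n => K (φ n)) (fun n => hK (φ n)) hLc
    (fun n => hM' (φ n)) hLM hsub (fun n => sK (φ n)) fun n => hKU (φ n)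
  have hLL : aL L ≤ a := lim_aL (K := fun n => K (φ n)) (fun n => hK (φ n)) hLc
    (fun n => hM' (φ n)) hLM hsub (fun n => sK (φ n)) fun n => hKL (φ n)
  have hLf : L ⊆ SL f c := by
    intro w hw
    exact lim_lev (F := fun _ w => dsc f w) ((dsc_cont cf hf).comp continuous_snd)
      (s := fun _ => 0) (c := fun n => cs (φ n)) (s₀ := 0) tendsto_const_nhds
      (hcl.comp hφ.tendsto_atTop) (K := fun n => K (φ n)) (fun n w hw => hKs (φ n) hw)
      (hint w hw)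
  obtain ⟨K'', hLK, hcomp''⟩ := dbl_comp cf hf hc hd hLc hLcon hLs hLf
  exact ⟨K'', hcomp'', sep_mono hLK hLs, (aL_mono hLc hcomp''.cpt hLs hLK).trans hLL,
    hLU.trans (aU_mono hLc hcomp''.cpt hLs hLK)⟩

end H25S
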