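import Pool.Agent.Lib.H25S.A1
import Pool.Agent.Lib.H25S.T2

/-!
# Chunk Q7A (M)
`φ z = z + (t κ) • (d1 (H s) z, d2 (H s) z)`. `ham_const`: the gradient is Lipschitz (constant `C` in each coordinate, sup norm) and bounded by `C`. For `t κ C ≤ 1/2`: `φ - id` is Lipschitz with constant `≤ 1/2`, so `φ` is a homeomorphism of `ℝ × ℝ` (`ApproximatesLinearOn.toHomeomorph` with `f' = ContinuousLinearEquiv.refl`, `c = 1/2 < 1`; `‖id‖₊⁻¹ = 1`), commuting with `iv k`.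
It descends: `Φ w = pr (φ (lft w))`, inverse `pr (φ⁻¹ (lft w))`; `Φ (pr z) = pr (φ z)`; continuity: `pr` is an open quotient map. `|(Φ w).2 - w.2| ≤ t κ C`. `Φ (sh j w) = sh j (Φ w)` (`sh_pr`). Take `τ₀` with `τ₀ κ C ≤ 1/2`.
-/

namespace H25S

open MeasureTheory H83D Set Filter Topology

theorem q7a_pr {g : ℝ × ℝ → ℝ × ℝ} (hg : ∀ z (k : ℤ × ℤ), g (z + iv k) = g z + iv k) (z : ℝ × ℝ) :
    pr (g (lft (pr z))) = pr (g z) := by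
  obtain ⟨k, hk⟩ := pr_eq.1 (pr_lft (pr z)).symm
  rw [hk, hg]
  exact (pr_eq.2 ⟨k, rfl⟩).symm

theorem q7a_cont {g : ℝ × ℝ → ℝ × ℝ} (cg : Continuous g) (hg : ∀ z (k : ℤ × ℤ), g (z + iv k) = g z + iv k) :
    Continuous (fun w => pr (g (lft w))) := by
  have hq : IsQuotientMap pr := pr_open.isQuotientMap pr_cont (fun w => pr_surj w)
  rw [hq.continuous_iff]
  have e : (fun w => pr (g (lft w))) ∘ pr = fun z => pr (g z) := funext fun z => q7a_pr hg z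
  rw [e]
  exact pr_cont.comp cg

theorem q7a_desc (φ : (ℝ × ℝ) ≃ₜ (ℝ × ℝ)) (hφ : ∀ z (k : ℤ × ℤ), φ (z + iv k) = φ z + iv k) :
    ∃ Φ : Cyl ≃ₜ Cyl, ∀ z, Φ (pr z) = pr (φ z) := by
  have hs : ∀ z (k : ℤ × ℤ), φ.symm (z + iv k) = φ.symm z + iv k := by
    intro z k
    apply φ.injective
    rw [φ.apply_symm_apply, hφ, φ.apply_symm_apply]
  refine ⟨{ toFun := fun w => pr (φ (lft w))
            invFun := fun w => pr (φ.symm (lft w))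
            left_inv := ?_
            right_inv := ?_
            continuous_toFun := q7a_cont φ.continuous hφ
            continuous_invFun := q7a_cont φ.symm.continuous hs }, fun z => q7a_pr hφ z⟩
  · intro w
    obtain ⟨z, rfl⟩ := pr_surj w
    show pr (φ.symm (lft (pr (φ (lft (pr z)))))) = pr z
    rw [q7a_pr hφ, q7a_pr hs, φ.symm_apply_apply]
  · intro w
    obtain ⟨z, rfl⟩ := pr_surj w
    show pr (φ (lft (pr (φ.symm (lft (pr z)))))) = pr z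
    rw [q7a_pr hs, q7a_pr hφ, φ.apply_symm_apply]

theorem q7a_d1 {H : ℝ → ℝ × ℝ → ℝ} (hH : Ham H) (s : ℝ) (z : ℝ × ℝ) (k : ℤ × ℤ) :
    d1 (H s) (z + iv k) = d1 (H s) z ∧ d2 (H s) (z + iv k) = d2 (H s) z := by
  have h1 : ((s, z + iv k) : ℝ × (ℝ × ℝ)) = (s, z) + (((0 : ℤ) : ℝ), iv k) := by
    refine Prod.ext ?_ rfl
    simp
  constructor
  · rw [a1_d1 hH, a1_d1 hH, h1, a1_perd (a1_per hH)]
  · rw [a1_d2 hH, a1_d2 hH, h1, a1_perd (a1_per hH)]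

theorem push_homeo {H : ℝ → ℝ × ℝ → ℝ} (hH : Ham H) {κ : ℝ} (hκ : 0 ≤ κ) : ∃ τ₀ B : ℝ, 0 < τ₀ ∧ 0 ≤ B ∧
    ∀ s t : ℝ, 0 ≤ t → t ≤ τ₀ → ∃ (φ : (ℝ × ℝ) ≃ₜ (ℝ × ℝ)) (Φ : Cyl ≃ₜ Cyl),
      (∀ z, φ z = z + (t * κ) • ((d1 (H s) z, d2 (H s) z) : ℝ × ℝ)) ∧ (∀ z, Φ (pr z) = pr (φ z)) ∧
      (∀ z (k : ℤ × ℤ), φ (z + iv k) = φ z + iv k) ∧ (∀ w, |(Φ w).2 - w.2| ≤ B * t) ∧ ∀ (j : ℤ) (w : Cyl), Φ (sh j w) = sh j (Φ w) := by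
  obtain ⟨C, hC1, hb, hl, -⟩ := ham_const hH
  have hC0 : 0 < C := by linarith
  have hκC : 0 ≤ κ * C := mul_nonneg hκ hC0.le
  refine ⟨1 / (2 * (κ * C + 1)), κ * C, by positivity, hκC, ?_⟩
  intro s t ht ht'
  have htκ : 0 ≤ t * κ := mul_nonneg ht hκ
  have hsm : t * κ * C ≤ 1 / 2 := by
    have h1 : t * (κ * C) ≤ 1 / (2 * (κ * C + 1)) * (κ * C) := mul_le_mul_of_nonneg_right ht' hκC
    have h2 : 1 / (2 * (κ * C + 1)) * (κ * C) ≤ 1 / 2 := by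
      rw [one_div_mul_eq_div, div_le_div_iff₀ (by positivity) (by norm_num)]
      linarith
    calc t * κ * C = t * (κ * C) := by ring
      _ ≤ _ := h1
      _ ≤ _ := h2
  have hf : ApproximatesLinearOn (fun z : ℝ × ℝ => z + (t * κ) • ((d1 (H s) z, d2 (H s) z) : ℝ × ℝ))
      ((ContinuousLinearEquiv.refl ℝ (ℝ × ℝ) : (ℝ × ℝ) ≃L[ℝ] (ℝ × ℝ)) : (ℝ × ℝ) →L[ℝ] (ℝ × ℝ)) univ (1 / 2 : NNReal) := by
    intro x _ y _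
    have h1 : (x + (t * κ) • ((d1 (H s) x, d2 (H s) x) : ℝ × ℝ)) - (y + (t * κ) • ((d1 (H s) y, d2 (H s) y) : ℝ × ℝ)) -
        (((ContinuousLinearEquiv.refl ℝ (ℝ × ℝ) : (ℝ × ℝ) ≃L[ℝ] (ℝ × ℝ)) : (ℝ × ℝ) →L[ℝ] (ℝ × ℝ)) (x - y)) =
        (t * κ) • ((d1 (H s) x - d1 (H s) y, d2 (H s) x - d2 (H s) y) : ℝ × ℝ) := by
      refine Prod.ext ?_ ?_
      · simp; ring
      · simp; ring
    have h2 : ‖((d1 (H s) x - d1 (H s) y, d2 (H s) x - d2 (H s) y) : ℝ × ℝ)‖ ≤ C * ‖x - y‖ := by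
      rw [Prod.norm_mk, Real.norm_eq_abs, Real.norm_eq_abs]
      exact max_le (hl s x y).1 (hl s x y).2
    show ‖(x + (t * κ) • ((d1 (H s) x, d2 (H s) x) : ℝ × ℝ)) - (y + (t * κ) • ((d1 (H s) y, d2 (H s) y) : ℝ × ℝ)) -
        (((ContinuousLinearEquiv.refl ℝ (ℝ × ℝ) : (ℝ × ℝ) ≃L[ℝ] (ℝ × ℝ)) : (ℝ × ℝ) →L[ℝ] (ℝ × ℝ)) (x - y))‖ ≤ _
    rw [h1, norm_smul, Real.norm_eq_abs, abs_of_nonneg htκ]
    calc t * κ * ‖((d1 (H s) x - d1 (H s) y, d2 (H s) x - d2 (H s) y) : ℝ × ℝ)‖ ≤ t * κ * (C * ‖x - y‖) :=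
          mul_le_mul_of_nonneg_left h2 htκ
      _ = (t * κ * C) * ‖x - y‖ := by ring
      _ ≤ (1 / 2) * ‖x - y‖ := mul_le_mul_of_nonneg_right hsm (norm_nonneg _)
      _ = ((1 / 2 : NNReal) : ℝ) * ‖x - y‖ := by simp
  have hc : (1 / 2 : NNReal) < ‖(((ContinuousLinearEquiv.refl ℝ (ℝ × ℝ) : (ℝ × ℝ) ≃L[ℝ] (ℝ × ℝ)).symm :
      (ℝ × ℝ) ≃L[ℝ] (ℝ × ℝ)) : (ℝ × ℝ) →L[ℝ] (ℝ × ℝ))‖₊⁻¹ := by
    have h3 : ‖(((ContinuousLinearEquiv.refl ℝ (ℝ × ℝ) : (ℝ × ℝ) ≃L[ℝ] (ℝ × ℝ)).symm :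
      (ℝ × ℝ) ≃L[ℝ] (ℝ × ℝ)) : (ℝ × ℝ) →L[ℝ] (ℝ × ℝ))‖₊ = 1 := by
      rw [ContinuousLinearEquiv.refl_symm, ContinuousLinearEquiv.coe_refl]
      ext
      simp
    rw [h3, inv_one]
    rw [← NNReal.coe_lt_coe]
    norm_num
  set φ : (ℝ × ℝ) ≃ₜ (ℝ × ℝ) := hf.toHomeomorph _ (Or.inr hc) with hφdef
  have hφ : ∀ z, φ z = z + (t * κ) • ((d1 (H s) z, d2 (H s) z) : ℝ × ℝ) := fun z => rfl
  have hper : ∀ z (k : ℤ × ℤ), φ (z + iv k) = φ z + iv k := by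
    intro z k
    rw [hφ, hφ, (q7a_d1 hH s z k).1, (q7a_d1 hH s z k).2]
    abel
  obtain ⟨Φ, hΦ⟩ := q7a_desc φ hper
  refine ⟨φ, Φ, hφ, hΦ, hper, ?_, ?_⟩
  · intro w
    obtain ⟨z, rfl⟩ := pr_surj w
    rw [hΦ]
    have h1 : (pr (φ z)).2 - (pr z).2 = t * κ * d2 (H s) z := by
      show (φ z).2 - z.2 = _
      rw [hφ]
      simp
    rw [h1, abs_mul, abs_of_nonneg htκ]
    calc t * κ * |d2 (H s) z| ≤ t * κ * C := mul_le_mul_of_nonneg_left (hb s z).2.1 htκ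
      _ = κ * C * t := by ring
  · intro j w
    obtain ⟨z, rfl⟩ := pr_surj w
    rw [sh_pr, hΦ, hper, hΦ, sh_pr]

end H25S
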