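import Pool.Agent.Lib.H25S.Defs

/-!
# Chunk T0 (S)
Continuity: `AddCircle.continuous_mk'` / `continuous_quotient_mk'` and `continuous_snd`. Open: `IsOpenMap.prodMap` of `QuotientAddGroup.isOpenMap_coe` and the identity. Surjective: `QuotientAddGroup.mk_surjective`.
`pr_eq`: `AddCircle` equality is a difference in `zmultiples 1` (`QuotientAddGroup.eq`, `AddSubgroup.mem_zmultiples_iff`). `pr_lft`: `Function.surjInv_eq`.
-/

namespace H25S

open MeasureTheory H83D Set Filter Topology

theorem pr_cont : Continuous pr := by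
  exact ((AddCircle.continuous_mk' (1 : ℝ)).comp continuous_fst).prodMk continuous_snd

theorem pr_open : IsOpenMap pr := by
  have h1 : IsOpenMap (fun x : ℝ => (x : AddCircle (1 : ℝ))) := QuotientAddGroup.isOpenMap_coe
  have h2 : IsOpenMap (id : ℝ → ℝ) := IsOpenMap.id
  exact h1.prodMap h2

theorem pr_surj (w : Cyl) : ∃ z, pr z = w := by
  obtain ⟨x, hx⟩ := QuotientAddGroup.mk_surjective w.1
  exact ⟨(x, w.2), Prod.ext hx rfl⟩

theorem pr_add (z z' : ℝ × ℝ) : pr (z + z') = pr z + pr z' := by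
  rfl

theorem pr_eq {z z' : ℝ × ℝ} : pr z = pr z' ↔ ∃ k : ℤ, z' = z + iv (k, 0) := by
  constructor
  · intro h
    have h1 : (z.1 : AddCircle (1 : ℝ)) = (z'.1 : AddCircle (1 : ℝ)) := congrArg (fun w : Cyl => w.1) h
    have h2 : z.2 = z'.2 := congrArg (fun w : Cyl => w.2) h
    rw [QuotientAddGroup.eq, AddSubgroup.mem_zmultiples_iff] at h1
    obtain ⟨k, hk⟩ := h1
    refine ⟨k, ?_⟩
    apply Prod.ext
    · simp [iv] at hk ⊢
      linarith
    · simp [iv, h2]
  · rintro ⟨k, rfl⟩
    apply Prod.ext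
    · change (z.1 : AddCircle (1 : ℝ)) = ((z + iv (k, 0)).1 : AddCircle (1 : ℝ))
      rw [QuotientAddGroup.eq, AddSubgroup.mem_zmultiples_iff]
      exact ⟨k, by simp [iv]⟩
    · simp [pr, iv]

theorem pr_lft (w : Cyl) : pr (lft w) = w := by
  apply Prod.ext
  · exact Function.surjInv_eq (QuotientAddGroup.mk_surjective (s := AddSubgroup.zmultiples (1 : ℝ))) w.1
  · rfl

end H25S
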