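import Pool.Agent.Lib.H25S.T0

/-!
# Chunk V1 (M)
`pr` is injective on `S`. Let `S k = S ∩ (Ioc k (k+1) ×ˢ univ)`, `k : ℤ` (disjoint union `S`). On `Ioc k (k+1) ×ˢ univ` the map `pr` is measure preserving onto `Cyl` (`AddCircle.measurePreserving_mk 1 k`, product with the identity: `MeasurePreserving.prod`,
`Measure.prod_restrict`) and injective, so `volume (pr '' S k) = volume (S k)`: `pr '' S k` is measurable (`MeasurableSet.image_of_continuousOn_injOn`) and its preimage in the strip is `S k`. The sets `pr '' S k` are disjoint as `pr` is injective on `S`. Sum over `k` (`measure_iUnion`).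
-/

namespace H25S

open MeasureTheory H83D Set Filter Topology

theorem pr_meas {S : Set (ℝ × ℝ)} (hS : MeasurableSet S) (hi : InjOn pr S) : MeasurableSet (pr '' S) := by
  exact hS.image_of_continuousOn_injOn pr_cont.continuousOn hi

theorem v1_mp (k : ℤ) : MeasurePreserving pr (volume.restrict (Ioc (k : ℝ) (k + 1) ×ˢ (univ : Set ℝ))) volume := by
  have h1 := AddCircle.measurePreserving_mk (1 : ℝ) (k : ℝ)
  have h2 : MeasurePreserving (id : ℝ → ℝ) (volume : Measure ℝ) volume := MeasurePreserving.id _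
  have h3 := h1.prod h2
  have h4 : (volume.restrict (Ioc (k : ℝ) (k + 1))).prod (volume : Measure ℝ) =
      volume.restrict (Ioc (k : ℝ) (k + 1) ×ˢ (univ : Set ℝ)) := by
    rw [Measure.volume_eq_prod, ← Measure.prod_restrict, Measure.restrict_univ]
  rw [h4] at h3
  exact h3

theorem v1_piece {S : Set (ℝ × ℝ)} (hS : MeasurableSet S) (hi : InjOn pr S) (k : ℤ) :
    volume (pr '' (S ∩ (Ioc (k : ℝ) (k + 1) ×ˢ (univ : Set ℝ)))) = volume (S ∩ (Ioc (k : ℝ) (k + 1) ×ˢ (univ : Set ℝ))) := by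
  have hstrip : MeasurableSet (Ioc (k : ℝ) (k + 1) ×ˢ (univ : Set ℝ)) := measurableSet_Ioc.prod MeasurableSet.univ
  have hSk : MeasurableSet (S ∩ (Ioc (k : ℝ) (k + 1) ×ˢ (univ : Set ℝ))) := hS.inter hstrip
  have hm := pr_meas hSk (hi.mono inter_subset_left)
  rw [← (v1_mp k).measure_preimage hm.nullMeasurableSet, Measure.restrict_apply ((v1_mp k).measurable hm)]
  congr 1
  ext z
  constructor
  · rintro ⟨⟨w, ⟨hw1, hw2⟩, hw3⟩, hz⟩
    have hzw : z = w := by
      obtain ⟨n, hn⟩ := pr_eq.1 hw3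
      have h1 : z.1 = w.1 + n := by rw [hn]; simp [iv]
      have h2 : z.2 = w.2 := by rw [hn]; simp [iv]
      have hz1 := hz.1
      have hw1' := hw2.1
      simp only [mem_Ioc] at hz1 hw1'
      have hn0 : n = 0 := by
        have a1 : (n : ℝ) < 1 := by linarith [hz1.2, hw1'.1]
        have a2 : (-1 : ℝ) < n := by linarith [hz1.1, hw1'.2]
        have a3 : n < 1 := by exact_mod_cast a1
        have a4 : -1 < n := by exact_mod_cast a2
        omega
      rw [hn0] at h1
      exact Prod.ext (by simpa using h1) h2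
    rw [hzw]
    exact ⟨hw1, hw2⟩
  · rintro ⟨h1, h2⟩
    exact ⟨⟨z, ⟨h1, h2⟩, rfl⟩, h2⟩

theorem vol_pr {S : Set (ℝ × ℝ)} (hS : MeasurableSet S) (hi : InjOn pr S) : volume (pr '' S) = volume S := by
  have hstrip : ∀ k : ℤ, MeasurableSet (Ioc (k : ℝ) (k + 1) ×ˢ (univ : Set ℝ)) :=
    fun k => measurableSet_Ioc.prod MeasurableSet.univ
  have hU : S = ⋃ k : ℤ, S ∩ (Ioc (k : ℝ) (k + 1) ×ˢ (univ : Set ℝ)) := by
    ext z
    simp only [mem_iUnion, mem_inter_iff, mem_prod, mem_Ioc, mem_univ, and_true]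
    constructor
    · intro hz
      refine ⟨⌈z.1⌉ - 1, hz, ?_, ?_⟩
      · push_cast
        linarith [Int.ceil_lt_add_one z.1]
      · push_cast
        linarith [Int.le_ceil z.1]
    · rintro ⟨k, hz, _⟩
      exact hz
  have hdisj : Pairwise (Function.onFun Disjoint fun k : ℤ => S ∩ (Ioc (k : ℝ) (k + 1) ×ˢ (univ : Set ℝ))) := by
    intro i j hij
    rw [Function.onFun, Set.disjoint_left]
    rintro z ⟨_, h1⟩ ⟨_, h2⟩
    simp only [mem_prod, mem_Ioc, mem_univ, and_true] at h1 h2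
    apply hij
    have a1 : (i : ℝ) < j + 1 := by linarith [h1.1, h2.2]
    have a2 : (j : ℝ) < i + 1 := by linarith [h2.1, h1.2]
    have a3 : i < j + 1 := by exact_mod_cast a1
    have a4 : j < i + 1 := by exact_mod_cast a2
    omega
  have hdisj' : Pairwise (Function.onFun Disjoint fun k : ℤ => pr '' (S ∩ (Ioc (k : ℝ) (k + 1) ×ˢ (univ : Set ℝ)))) := by
    intro i j hij
    rw [Function.onFun, Set.disjoint_left]
    rintro w ⟨z, hz, rfl⟩ ⟨z', hz', hzz⟩
    have := hi hz'.1 hz.1 hzz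
    rw [this] at hz'
    exact Set.disjoint_left.1 (hdisj hij) hz hz'
  calc volume (pr '' S) = volume (⋃ k : ℤ, pr '' (S ∩ (Ioc (k : ℝ) (k + 1) ×ˢ (univ : Set ℝ)))) := by
        rw [← image_iUnion, ← hU]
    _ = ∑' k : ℤ, volume (pr '' (S ∩ (Ioc (k : ℝ) (k + 1) ×ˢ (univ : Set ℝ)))) :=
        measure_iUnion hdisj' fun k => pr_meas (hS.inter (hstrip k)) (hi.mono inter_subset_left)
    _ = ∑' k : ℤ, volume (S ∩ (Ioc (k : ℝ) (k + 1) ×ˢ (univ : Set ℝ))) := by
        simp only [v1_piece hS hi]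
    _ = volume (⋃ k : ℤ, S ∩ (Ioc (k : ℝ) (k + 1) ×ˢ (univ : Set ℝ))) :=
        (measure_iUnion hdisj fun k => hS.inter (hstrip k)).symm
    _ = volume S := by rw [← hU]

end H25S
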