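import Pool.Agent.Lib.H25S.A1
import Pool.Agent.Lib.H25S.T0
import Pool.Agent.Lib.H25S.V1
import Pool.Agent.Lib.H25S.Q7A

/-!
# Chunk Q7B (M)
VOLUMES. `D` measurable, `S = pr ⁻¹' D ∩ (Ioc 0 1 ×ˢ univ)`: `pr` is injective on `S`, `pr '' S = D`, so `volume D = volume S` (`vol_pr`). `Φ '' D = pr '' (φ '' S)` and `pr` is injective on `φ '' S` (if `φ z' = φ z + iv (k,0) = φ (z + iv (k,0))` then `z' = z + iv (k,0)`, `pr z = pr z'`, `z = z'`), so `volume (Φ '' D) = volume (φ '' S) = ∫⁻_S |det φ'|` (`lintegral_abs_det_fderiv_eq_addHaar_image`; `φ` is `C¹`).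
`φ' = 1 + t κ A` with the entries of `A` bounded by `C` (Lipschitz bound of `d1`, `d2`: `norm_fderiv_le_of_lipschitz` or direct), so `|det φ' - 1| ≤ t κ C (2 + 2 t κ C) ≤ B t` for `t ≤ τ₀`. (`det` of a map of `ℝ × ℝ` in the standard basis.)
-/

namespace H25S

open MeasureTheory H83D Set Filter Topology

theorem q7b_up {φ : ℝ × ℝ → ℝ × ℝ} {x : ℝ} (hx : 0 ≤ x) (hφ : ∀ z w, ‖φ z - φ w‖ ≤ (1 + x) * ‖z - w‖)
    (S : Set (ℝ × ℝ)) : volume (φ '' S) ≤ ENNReal.ofReal ((1 + x) ^ 2) * volume S := by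
  have h1 : LipschitzWith (Real.toNNReal (1 + x)) φ := by
    refine LipschitzWith.of_dist_le_mul fun z w => ?_
    rw [dist_eq_norm, dist_eq_norm, Real.coe_toNNReal _ (by linarith)]
    exact hφ z w
  have h2 := h1.hausdorffMeasure_image_le (d := 2) (by norm_num) S
  rw [hausdorffMeasure_prod_real, ENNReal.rpow_two] at h2
  rw [ENNReal.ofReal_pow (by linarith)]
  exact h2

theorem q7b_dn {φ : ℝ × ℝ → ℝ × ℝ} {x : ℝ} (hx1 : x < 1) (hφ : ∀ z w, (1 - x) * ‖z - w‖ ≤ ‖φ z - φ w‖)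
    (S : Set (ℝ × ℝ)) : ENNReal.ofReal ((1 - x) ^ 2) * volume S ≤ volume (φ '' S) := by
  have hx0 : 0 < 1 - x := by linarith
  have h1 : AntilipschitzWith (Real.toNNReal (1 - x)⁻¹) φ := by
    refine AntilipschitzWith.of_le_mul_dist fun z w => ?_
    rw [dist_eq_norm, dist_eq_norm, Real.coe_toNNReal _ (inv_pos.2 hx0).le, ← div_eq_inv_mul, le_div_iff₀ hx0]
    linarith [hφ z w]
  have h2 := h1.le_hausdorffMeasure_image (d := 2) (by norm_num) S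
  rw [hausdorffMeasure_prod_real, ENNReal.rpow_two] at h2
  have h3 : ENNReal.ofReal ((1 - x) ^ 2) * ((Real.toNNReal (1 - x)⁻¹ : ENNReal)) ^ 2 = 1 := by
    have h4 : ((Real.toNNReal (1 - x)⁻¹ : ENNReal)) ^ 2 = ENNReal.ofReal ((1 - x)⁻¹ ^ 2) :=
      (ENNReal.ofReal_pow (inv_pos.2 hx0).le 2).symm
    rw [h4, ← ENNReal.ofReal_mul (by positivity), ← mul_pow, mul_inv_cancel₀ hx0.ne', one_pow, ENNReal.ofReal_one]
  calc ENNReal.ofReal ((1 - x) ^ 2) * volume S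
      ≤ ENNReal.ofReal ((1 - x) ^ 2) * ((Real.toNNReal (1 - x)⁻¹ : ENNReal) ^ 2 * volume (φ '' S)) := by
        gcongr
    _ = volume (φ '' S) := by rw [← mul_assoc, h3, one_mul]

theorem q7b_vol (φ : (ℝ × ℝ) ≃ₜ (ℝ × ℝ)) (Φ : Cyl ≃ₜ Cyl) (hΦ : ∀ z, Φ (pr z) = pr (φ z))
    (hφ : ∀ z (k : ℤ × ℤ), φ (z + iv k) = φ z + iv k) {D : Set Cyl} (hD : MeasurableSet D) :
    ∃ S : Set (ℝ × ℝ), volume S = volume D ∧ volume (φ '' S) = volume (Φ '' D) := by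
  have hstrip : MeasurableSet (Ioc (0 : ℝ) 1 ×ˢ (univ : Set ℝ)) := measurableSet_Ioc.prod MeasurableSet.univ
  have hS : MeasurableSet (pr ⁻¹' D ∩ (Ioc (0 : ℝ) 1 ×ˢ (univ : Set ℝ))) := (pr_cont.measurable hD).inter hstrip
  have hi : InjOn pr (pr ⁻¹' D ∩ (Ioc (0 : ℝ) 1 ×ˢ (univ : Set ℝ))) := by
    rintro z ⟨-, hz⟩ w ⟨-, hw⟩ h
    obtain ⟨n, hn⟩ := pr_eq.1 h
    have h1 : w.1 = z.1 + n := by rw [hn]; simp [iv]
    have h2 : w.2 = z.2 := by rw [hn]; simp [iv]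
    have hz1 := hz.1
    have hw1 := hw.1
    simp only [mem_Ioc] at hz1 hw1
    have a1 : (n : ℝ) < 1 := by linarith [hw1.2, hz1.1]
    have a2 : (-1 : ℝ) < n := by linarith [hw1.1, hz1.2]
    have a3 : n < 1 := by exact_mod_cast a1
    have a4 : -1 < n := by exact_mod_cast a2
    have hn0 : n = 0 := by omega
    rw [hn0] at h1
    exact Prod.ext (by simpa using h1.symm) h2.symm
  have him : pr '' (pr ⁻¹' D ∩ (Ioc (0 : ℝ) 1 ×ˢ (univ : Set ℝ))) = D := by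
    ext w
    constructor
    · rintro ⟨z, ⟨hz, -⟩, rfl⟩
      exact hz
    · intro hw
      obtain ⟨z, rfl⟩ := pr_surj w
      have h1 : pr (z + iv (-(⌈z.1⌉ - 1), 0)) = pr z := (pr_eq.2 ⟨_, rfl⟩).symm
      refine ⟨z + iv (-(⌈z.1⌉ - 1), 0), ⟨?_, ?_, mem_univ _⟩, h1⟩
      · show pr (z + iv (-(⌈z.1⌉ - 1), 0)) ∈ D
        rw [h1]
        exact hw
      · have h2 : (z + iv (-(⌈z.1⌉ - 1), 0)).1 = z.1 - (⌈z.1⌉ - 1) := by
          simp [iv]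
          ring
        rw [h2]
        constructor
        · linarith [Int.ceil_lt_add_one z.1]
        · linarith [Int.le_ceil z.1]
  have hmφ : MeasurableSet (φ '' (pr ⁻¹' D ∩ (Ioc (0 : ℝ) 1 ×ˢ (univ : Set ℝ)))) :=
    φ.measurableEmbedding.measurableSet_image.2 hS
  have hiφ : InjOn pr (φ '' (pr ⁻¹' D ∩ (Ioc (0 : ℝ) 1 ×ˢ (univ : Set ℝ)))) := by
    rintro _ ⟨z, hz, rfl⟩ _ ⟨w, hw, rfl⟩ h
    obtain ⟨n, hn⟩ := pr_eq.1 h
    rw [← hφ] at hn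
    have h1 : w = z + iv (n, 0) := φ.injective hn
    have h2 : pr z = pr w := pr_eq.2 ⟨n, h1⟩
    rw [hi hz hw h2]
  have himφ : Φ '' D = pr '' (φ '' (pr ⁻¹' D ∩ (Ioc (0 : ℝ) 1 ×ˢ (univ : Set ℝ)))) := by
    conv_lhs => rw [← him]
    rw [image_image, image_image]
    exact image_congr fun z _ => hΦ z
  refine ⟨pr ⁻¹' D ∩ (Ioc (0 : ℝ) 1 ×ˢ (univ : Set ℝ)), ?_, ?_⟩
  · rw [← vol_pr hS hi, him]
  · rw [himφ, vol_pr hmφ hiφ]

theorem push_vol {H : ℝ → ℝ × ℝ → ℝ} (hH : Ham H) {κ : ℝ} (hκ : 0 ≤ κ) : ∃ τ₀ B : ℝ, 0 < τ₀ ∧ 0 ≤ B ∧ B * τ₀ ≤ 1 ∧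
    ∀ s t : ℝ, 0 ≤ t → t ≤ τ₀ → ∀ (φ : (ℝ × ℝ) ≃ₜ (ℝ × ℝ)) (Φ : Cyl ≃ₜ Cyl),
      (∀ z, φ z = z + (t * κ) • ((d1 (H s) z, d2 (H s) z) : ℝ × ℝ)) → (∀ z, Φ (pr z) = pr (φ z)) →
      (∀ z (k : ℤ × ℤ), φ (z + iv k) = φ z + iv k) → ∀ D : Set Cyl, MeasurableSet D →
        ENNReal.ofReal (1 - B * t) * volume D ≤ volume (Φ '' D) ∧ volume (Φ '' D) ≤ ENNReal.ofReal (1 + B * t) * volume D := by
  obtain ⟨C, hC1, -, hl, -⟩ := ham_const hH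
  have hC0 : 0 < C := by linarith
  have hκC : 0 ≤ κ * C := mul_nonneg hκ hC0.le
  have hpos : 0 < 3 * (κ * C) + 1 := by linarith
  refine ⟨1 / (3 * (κ * C) + 1), 3 * (κ * C), by positivity, by linarith, ?_, ?_⟩
  · rw [mul_one_div, div_le_one hpos]
    linarith
  intro s t ht ht' φ Φ hφ hΦ hper D hD
  have htκ : 0 ≤ t * κ := mul_nonneg ht hκ
  have hx0 : 0 ≤ t * κ * C := mul_nonneg htκ hC0.le
  have hx3 : 3 * (κ * C) * t ≤ 1 := by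
    have h1 : 3 * (κ * C) * t ≤ 3 * (κ * C) * (1 / (3 * (κ * C) + 1)) :=
      mul_le_mul_of_nonneg_left ht' (by linarith)
    have h2 : 3 * (κ * C) * (1 / (3 * (κ * C) + 1)) ≤ 1 := by
      rw [mul_one_div, div_le_one hpos]
      linarith
    linarith
  have hxe : 3 * (κ * C) * t = 3 * (t * κ * C) := by ring
  have hx1 : t * κ * C ≤ 1 / 3 := by linarith
  have hd : ∀ z w : ℝ × ℝ, ‖(t * κ) • ((d1 (H s) z - d1 (H s) w, d2 (H s) z - d2 (H s) w) : ℝ × ℝ)‖ ≤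
      t * κ * C * ‖z - w‖ := by
    intro z w
    rw [norm_smul, Real.norm_eq_abs, abs_of_nonneg htκ, mul_assoc (t * κ) C]
    refine mul_le_mul_of_nonneg_left ?_ htκ
    rw [Prod.norm_mk, Real.norm_eq_abs, Real.norm_eq_abs]
    exact max_le (hl s z w).1 (hl s z w).2
  have he : ∀ z w : ℝ × ℝ, φ z - φ w = (z - w) +
      (t * κ) • ((d1 (H s) z - d1 (H s) w, d2 (H s) z - d2 (H s) w) : ℝ × ℝ) := by
    intro z w
    rw [hφ, hφ]
    refine Prod.ext ?_ ?_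
    · simp
      ring
    · simp
      ring
  have hup : ∀ z w, ‖φ z - φ w‖ ≤ (1 + t * κ * C) * ‖z - w‖ := by
    intro z w
    rw [he]
    refine (norm_add_le _ _).trans ?_
    have h1 := hd z w
    linarith
  have hdn : ∀ z w, (1 - t * κ * C) * ‖z - w‖ ≤ ‖φ z - φ w‖ := by
    intro z w
    have h1 := hd z w
    have h2 : ‖z - w‖ ≤ ‖φ z - φ w‖ +
        ‖(t * κ) • ((d1 (H s) z - d1 (H s) w, d2 (H s) z - d2 (H s) w) : ℝ × ℝ)‖ := by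
      have h3 : z - w = (φ z - φ w) -
          (t * κ) • ((d1 (H s) z - d1 (H s) w, d2 (H s) z - d2 (H s) w) : ℝ × ℝ) := by
        rw [he, add_sub_cancel_right]
      calc ‖z - w‖ = ‖(φ z - φ w) -
          (t * κ) • ((d1 (H s) z - d1 (H s) w, d2 (H s) z - d2 (H s) w) : ℝ × ℝ)‖ := congrArg norm h3
        _ ≤ _ := norm_sub_le _ _
    linarith
  obtain ⟨S, hS1, hS2⟩ := q7b_vol φ Φ hΦ hper hD
  rw [← hS1, ← hS2]
  constructor
  · refine le_trans ?_ (q7b_dn (by linarith) hdn S)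
    gcongr
    rw [hxe]
    nlinarith
  · refine (q7b_up hx0 hup S).trans ?_
    gcongr
    rw [hxe]
    nlinarith

end H25S
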