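import Pool.Agent.Lib.H25S.V4

/-!
# Chunk Q7C (M)
`M ≥ 1` with `{y ≤ -M} ⊆ D`, `D ∩ {M ≤ y} = ∅`. `E = D ∩ {-M < y}`, `v = volume E ≤ 2M` finite, `ar D = v - M` (`ar_eq`). Let `ε' ≤ 1`. `Φ '' D = Φ '' E ∪ Φ '' {y ≤ -M}` (disjoint), `Φ '' D` is `Low`, contains `{y ≤ -(M+1)}`; `ar (Φ '' D) = volume (Φ '' D ∩ {-(M+1) < y}) - (M+1)`, and `Φ '' E ⊆ {-(M+1) < y}`, so this is `volume (Φ '' E) + volume (Φ '' {y ≤ -M} ∩ {-(M+1) < y}) - (M+1)`.
The second set is between `{-(M+1) < y ≤ -M-ε'}` and `{-(M+1) < y ≤ -M+ε'}`: volume in `[1 - ε', 1 + ε']` (`vol_strip`). The first is in `[(1-ε') v, (1+ε') v]`. So `|ar (Φ '' D) - ar D| ≤ ε' (v + 1) ≤ ε' (2M + 1)`.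
-/

namespace H25S

open MeasureTheory H83D Set Filter Topology

theorem q7c_real {A B : Set Cyl} {c : ℝ} (hc : 0 ≤ c) (hA : volume A ≠ ⊤)
    (h : volume B ≤ ENNReal.ofReal c * volume A) : (volume B).toReal ≤ c * (volume A).toReal := by
  have h1 := ENNReal.toReal_mono (ENNReal.mul_ne_top ENNReal.ofReal_ne_top hA) h
  rwa [ENNReal.toReal_mul, ENNReal.toReal_ofReal hc] at h1

theorem q7c_real2 {A B : Set Cyl} {c : ℝ} (hc : 0 ≤ c) (hB : volume B ≠ ⊤)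
    (h : ENNReal.ofReal c * volume A ≤ volume B) : c * (volume A).toReal ≤ (volume B).toReal := by
  have h1 := ENNReal.toReal_mono hB h
  rwa [ENNReal.toReal_mul, ENNReal.toReal_ofReal hc] at h1

theorem ar_push {D : Set Cyl} (mD : MeasurableSet D) (hD : Low D) {e : ℝ} (he : 0 < e) : ∃ τ₁ : ℝ, 0 < τ₁ ∧
    ∀ ε' : ℝ, 0 ≤ ε' → ε' ≤ τ₁ → ∀ Φ : Cyl ≃ₜ Cyl, (∀ w, |(Φ w).2 - w.2| ≤ ε') →
      (∀ E : Set Cyl, MeasurableSet E → ENNReal.ofReal (1 - ε') * volume E ≤ volume (Φ '' E) ∧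
        volume (Φ '' E) ≤ ENNReal.ofReal (1 + ε') * volume E) → |ar (Φ '' D) - ar D| ≤ e := by
  obtain ⟨M₀, k1, k2⟩ := id hD
  obtain ⟨M, hM⟩ : ∃ M : ℝ, M = |M₀| + 1 := ⟨_, rfl⟩
  have a1 := le_abs_self M₀
  have a2 := abs_nonneg M₀
  have hM1 : 1 ≤ M := by linarith
  have h1 : ∀ w : Cyl, w.2 ≤ -M → w ∈ D := fun w hw => k1 w (by linarith)
  have h2 : ∀ w : Cyl, M ≤ w.2 → w ∉ D := fun w hw => k2 w (by linarith)
  have hpos : 0 < 2 * M + 1 := by linarith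
  refine ⟨min 1 (e / (2 * M + 1)), lt_min one_pos (div_pos he hpos), ?_⟩
  intro ε' hε0 hε Φ hΦ hv
  have hε1 : ε' ≤ 1 := hε.trans (min_le_left _ _)
  have hε2 : ε' * (2 * M + 1) ≤ e := by
    have h3 := hε.trans (min_le_right _ _)
    rwa [le_div_iff₀ hpos] at h3
  set E : Set Cyl := D ∩ {w | -M < w.2} with hE
  have mE : MeasurableSet E := mD.inter (v4_meas _)
  have hEf : volume E ≠ ⊤ := v4_fin hD _
  have hEv : (volume E).toReal ≤ 2 * M := by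
    have h3 : volume E ≤ volume {w : Cyl | -M < w.2 ∧ w.2 ≤ M} := by
      apply measure_mono
      rintro w ⟨hw1, hw2⟩
      exact ⟨hw2, (not_le.1 fun h => h2 w h hw1).le⟩
    rw [vol_strip (by linarith : -M ≤ M)] at h3
    have h4 := ENNReal.toReal_mono ENNReal.ofReal_ne_top h3
    rw [ENNReal.toReal_ofReal (by linarith)] at h4
    linarith
  have mS : MeasurableSet (Φ '' D) := (Φ.measurableEmbedding.measurableSet_image).2 mD
  have mSE : MeasurableSet (Φ '' E) := (Φ.measurableEmbedding.measurableSet_image).2 mE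
  have hsy : ∀ w : Cyl, |(Φ.symm w).2 - w.2| ≤ ε' := by
    intro w
    have h3 := hΦ (Φ.symm w)
    rw [Φ.apply_symm_apply] at h3
    rwa [abs_sub_comm]
  have hlow1 : ∀ w : Cyl, w.2 ≤ -(M + 1) → w ∈ Φ '' D := by
    intro w hw
    refine ⟨Φ.symm w, h1 _ ?_, Φ.apply_symm_apply w⟩
    have h3 := (abs_le.1 (hsy w)).2
    linarith
  have hlow2 : ∀ w : Cyl, M + 1 ≤ w.2 → w ∉ Φ '' D := by
    rintro w hw ⟨v, hvD, hvw⟩
    refine h2 v ?_ hvD
    have h3 := (abs_le.1 (hΦ v)).2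
    rw [hvw] at h3
    linarith
  have hLow : Low (Φ '' D) := ⟨M + 1, hlow1, hlow2⟩
  have e1 : ar (Φ '' D) = (volume (Φ '' D ∩ {w | -(M + 1) < w.2})).toReal - (M + 1) :=
    ar_eq mS (by linarith) hlow1 hLow
  have e2 : ar D = (volume E).toReal - M := ar_eq mD (by linarith) h1 hD
  set F : Set Cyl := Φ '' {w : Cyl | w.2 ≤ -M} ∩ {w | -(M + 1) < w.2} with hF
  have hsplit : Φ '' D ∩ {w | -(M + 1) < w.2} = Φ '' E ∪ F := by
    ext w
    constructor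
    · rintro ⟨⟨v, hvD, rfl⟩, hw⟩
      by_cases hc : -M < v.2
      · exact Or.inl ⟨v, ⟨hvD, hc⟩, rfl⟩
      · exact Or.inr ⟨⟨v, not_lt.1 hc, rfl⟩, hw⟩
    · rintro (⟨v, ⟨hvD, hvM⟩, rfl⟩ | ⟨⟨v, hvM, rfl⟩, hw⟩)
      · refine ⟨⟨v, hvD, rfl⟩, ?_⟩
        have h3 := (abs_le.1 (hΦ v)).1
        have h4 : -M < v.2 := hvM
        show -(M + 1) < (Φ v).2
        linarith
      · exact ⟨⟨v, h1 v hvM, rfl⟩, hw⟩
  have hdis : Disjoint (Φ '' E) F := by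
    rw [Set.disjoint_left]
    rintro _ ⟨v, ⟨_, hvM⟩, rfl⟩ ⟨⟨u, hu, huv⟩, _⟩
    have h3 := Φ.injective huv
    rw [h3] at hu
    have h4 : -M < v.2 := hvM
    have h5 : v.2 ≤ -M := hu
    linarith
  have hF1 : {w : Cyl | -(M + 1) < w.2 ∧ w.2 ≤ -M - ε'} ⊆ F := by
    rintro w ⟨hw1, hw2⟩
    refine ⟨⟨Φ.symm w, ?_, Φ.apply_symm_apply w⟩, hw1⟩
    have h3 := (abs_le.1 (hsy w)).2
    show (Φ.symm w).2 ≤ -M
    linarith
  have hF2 : F ⊆ {w : Cyl | -(M + 1) < w.2 ∧ w.2 ≤ -M + ε'} := by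
    rintro _ ⟨⟨v, hvM, rfl⟩, hw⟩
    refine ⟨hw, ?_⟩
    have h3 := (abs_le.1 (hΦ v)).2
    have h4 : v.2 ≤ -M := hvM
    linarith
  have hFu : volume F ≤ ENNReal.ofReal (1 + ε') := by
    refine (measure_mono hF2).trans ?_
    rw [vol_strip (by linarith : -(M + 1) ≤ -M + ε')]
    exact ENNReal.ofReal_le_ofReal (by linarith)
  have hFl : ENNReal.ofReal (1 - ε') ≤ volume F := by
    refine le_trans ?_ (measure_mono hF1)
    rw [vol_strip (by linarith : -(M + 1) ≤ -M - ε')]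
    exact ENNReal.ofReal_le_ofReal (by linarith)
  have hFf : volume F ≠ ⊤ := ne_top_of_le_ne_top ENNReal.ofReal_ne_top hFu
  have hFu' : (volume F).toReal ≤ 1 + ε' := by
    have h3 := ENNReal.toReal_mono ENNReal.ofReal_ne_top hFu
    rwa [ENNReal.toReal_ofReal (by linarith)] at h3
  have hFl' : 1 - ε' ≤ (volume F).toReal := by
    have h3 := ENNReal.toReal_mono hFf hFl
    rwa [ENNReal.toReal_ofReal (by linarith)] at h3
  obtain ⟨hE1, hE2⟩ := hv E mE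
  have hEf' : volume (Φ '' E) ≠ ⊤ :=
    ne_top_of_le_ne_top (ENNReal.mul_ne_top ENNReal.ofReal_ne_top hEf) hE2
  have hE1' := q7c_real2 (by linarith) hEf' hE1
  have hE2' := q7c_real (by linarith) hEf hE2
  have hsum : (volume (Φ '' D ∩ {w | -(M + 1) < w.2})).toReal =
      (volume (Φ '' E)).toReal + (volume F).toReal := by
    rw [hsplit, measure_union' hdis mSE, ENNReal.toReal_add hEf' hFf]
  have hE0 : 0 ≤ (volume E).toReal := ENNReal.toReal_nonneg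
  have hεE : ε' * (volume E).toReal ≤ ε' * (2 * M) := mul_le_mul_of_nonneg_left hEv hε0
  rw [e1, e2, hsum, abs_le]
  constructor
  · linarith
  · linarith

end H25S
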