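import Pool.Agent.Lib.H25S.A2
import Pool.Agent.Lib.H25S.Q1
import Pool.Agent.Lib.H25S.Q3
import Pool.Agent.Lib.H25S.Q5
import Pool.Agent.Lib.H25S.Q7A
import Pool.Agent.Lib.H25S.Q7B
import Pool.Agent.Lib.H25S.Q7C
import Pool.Agent.Lib.H25S.T12

/-!
# Chunk Q8 (M)
`push_const`: `κ, η, τ`; `push_homeo`, `push_vol` (`B` the maximum of the two constants, `τ₀` the minimum). For small `t > 0`, `σ = e t` (`e = 1 ∨ e = -1`), `|σ| = t`: `Φ '' SL (H s) c ⊆ SL (H (s+σ)) (c - (1-η) t)` for all `c` (`mem_sl`, `pr_surj`). `c = hh H s a`. CASE A: `Dbl (H s) c''` for all `c'' < c`: the image `Φ '' K*` of the witness shows `Dbl (H (s+σ)) (c'' - (1-η) t)` (`sep_homeo`, commutes with `sh j`),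
so by `dbl_ess`, `le_hh`: `c'' - (1-η) t ≤ hh H (s+σ) a` for all `c'' < c`; `α = 0`. CASE B: `ess_att`: `K`. `ar_push` for `(Up K)ᶜ` and `Dn K` with `ρ/2`: for small `t`: `|aU (Φ '' K) - aU K| ≤ ρ/2`, `|aL (Φ '' K) - aL K| ≤ ρ/2` (`up_homeo`, `dn_homeo`; `Φ '' Uᶜ = (Φ '' U)ᶜ`). `a' = max (aL (Φ '' K)) (min a (aU (Φ '' K)))`: `aL ≤ a' ≤ aU` (`aL_le_aU`),
`|a' - a| ≤ ρ/2`. `Ess (H (s+σ)) (c - (1-η) t) a'`, `α = a' - a`, and `c - t < c - (1 - η) t`.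
-/

namespace H25S

open MeasureTheory H83D Set Filter Topology

theorem q8_lvl {H : ℝ → ℝ × ℝ → ℝ} (hH : Ham H) {κ η τ t s σ : ℝ}
    (hp : ∀ (s σ : ℝ) (z : ℝ × ℝ), |σ| ≤ τ →
      H s z - (1 - η) * |σ| ≤ H (s + σ) (z + (|σ| * κ) • ((d1 (H s) z, d2 (H s) z) : ℝ × ℝ)))
    (hσ : |σ| = t) (ht : t ≤ τ) {φ : (ℝ × ℝ) ≃ₜ (ℝ × ℝ)} {Φ : Cyl ≃ₜ Cyl}
    (hφ : ∀ z, φ z = z + (t * κ) • ((d1 (H s) z, d2 (H s) z) : ℝ × ℝ)) (hΦ : ∀ z, Φ (pr z) = pr (φ z))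
    {K : Set Cyl} {c : ℝ} (hK : K ⊆ SL (H s) c) : Φ '' K ⊆ SL (H (s + σ)) (c - (1 - η) * t) := by
  rintro _ ⟨w, hw, rfl⟩
  obtain ⟨z, rfl⟩ := pr_surj w
  have h1 : c ≤ H s z := (mem_sl (hH.per s) c z).1 (hK hw)
  rw [hΦ, mem_sl (hH.per (s + σ))]
  have h2 := hp s σ z (by rw [hσ]; exact ht)
  rw [hσ, ← hφ] at h2
  linarith

theorem q8_caseA {H : ℝ → ℝ × ℝ → ℝ} (hH : Ham H) {η t s σ c a : ℝ} {Φ : Cyl ≃ₜ Cyl} {C : ℝ}
    (hl : ∀ (K : Set Cyl) (c : ℝ), K ⊆ SL (H s) c → Φ '' K ⊆ SL (H (s + σ)) (c - (1 - η) * t))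
    (hb : ∀ w, |(Φ w).2 - w.2| ≤ C) (hsh : ∀ (j : ℤ) (w : Cyl), Φ (sh j w) = sh j (Φ w))
    (hD : ∀ c'' < c, Dbl (H s) c'') : c - (1 - η) * t ≤ hh H (s + σ) a := by
  refine le_of_forall_lt_imp_le_of_dense fun x hx => ?_
  obtain ⟨K, j, h1, h2, h3, h4, h5, h6⟩ := hD (x + (1 - η) * t) (by linarith)
  have h7 : Dbl (H (s + σ)) (x + (1 - η) * t - (1 - η) * t) := by
    refine ⟨Φ '' K, j, h1.image Φ.continuous, h2.image _ Φ.continuous.continuousOn, hl K _ h3, sep_homeo Φ hb h4, h5, ?_⟩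
    obtain ⟨w, hw, v, hv, hvw⟩ := h6
    refine ⟨Φ w, ⟨w, hw, rfl⟩, Φ v, ⟨v, hv, rfl⟩, ?_⟩
    rw [← hsh, hvw]
  rw [add_sub_cancel_right] at h7
  exact le_hh hH (dbl_ess (hH.per (s + σ)) h7 a)

theorem q8_caseB {H : ℝ → ℝ × ℝ → ℝ} (hH : Ham H) {η t s σ c a r : ℝ} {Φ : Cyl ≃ₜ Cyl} {C : ℝ}
    (hl : ∀ (K : Set Cyl) (c : ℝ), K ⊆ SL (H s) c → Φ '' K ⊆ SL (H (s + σ)) (c - (1 - η) * t))
    (hb : ∀ w, |(Φ w).2 - w.2| ≤ C) (hr : 0 ≤ r) {K : Set Cyl} (hK : IsComp K (SL (H s) c)) (hs : Sep K)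
    (h1 : aL K ≤ a) (h2 : a ≤ aU K) (hU : |ar (Φ '' (Up K)ᶜ) - ar (Up K)ᶜ| ≤ r) (hL : |ar (Φ '' Dn K) - ar (Dn K)| ≤ r) :
    ∃ α : ℝ, |α| ≤ r ∧ c - (1 - η) * t ≤ hh H (s + σ) (a + α) := by
  have hcK : IsCompact (Φ '' K) := hK.cpt.image Φ.continuous
  have hsK : Sep (Φ '' K) := sep_homeo Φ hb hs
  have eU : aU (Φ '' K) = ar (Φ '' (Up K)ᶜ) := by
    rw [aU, up_homeo Φ hb, Set.image_compl_eq Φ.bijective]
  have eL : aL (Φ '' K) = ar (Φ '' Dn K) := by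
    rw [aL, dn_homeo Φ hb]
  rw [← eU] at hU
  rw [← eL] at hL
  have hU' : |aU (Φ '' K) - aU K| ≤ r := hU
  have hL' : |aL (Φ '' K) - aL K| ≤ r := hL
  obtain ⟨u1, u2⟩ := abs_le.1 hU'
  obtain ⟨l1, l2⟩ := abs_le.1 hL'
  have hlu : aL (Φ '' K) ≤ aU (Φ '' K) := aL_le_aU hcK hsK
  obtain ⟨a', ha1, ha2, ha3⟩ : ∃ a' : ℝ, aL (Φ '' K) ≤ a' ∧ a' ≤ aU (Φ '' K) ∧ |a' - a| ≤ r := by
    rcases le_total a (aU (Φ '' K)) with h | h
    · rcases le_total (aL (Φ '' K)) a with h' | h'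
      · exact ⟨a, h', h, by rw [sub_self, abs_zero]; exact hr⟩
      · exact ⟨aL (Φ '' K), le_rfl, hlu, abs_le.2 ⟨by linarith, by linarith⟩⟩
    · exact ⟨aU (Φ '' K), hlu, le_rfl, abs_le.2 ⟨by linarith, by linarith⟩⟩
  refine ⟨a' - a, ha3, ?_⟩
  rw [add_sub_cancel]
  exact le_hh hH ⟨Φ '' K, hcK, hK.con.image _ Φ.continuous.continuousOn, hl K c hK.sub, hsK, ha1, ha2⟩

theorem step_side {H : ℝ → ℝ × ℝ → ℝ} (hH : Ham H) {e : ℤ} (he : e = 1 ∨ e = -1) (s a : ℝ) {ρ : ℝ} (hρ : 0 < ρ) :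
    ∃ σ α : ℝ, |σ| < ρ ∧ |α| < ρ ∧ 0 < e * σ ∧ hh H s a - e * σ < hh H (s + σ) (a + α) := by
  obtain ⟨κ, η, τ, hκ, hη0, hη1, hτ, hp⟩ := push_const hH
  obtain ⟨τ₀, B, hτ₀, hB, hpush⟩ := push_homeo hH hκ
  obtain ⟨τ₁, B₁, hτ₁, hB₁, hBτ, hvol⟩ := push_vol hH hκ
  have hes : ∀ t : ℝ, 0 < t → |(e : ℝ) * t| = t ∧ (e : ℝ) * ((e : ℝ) * t) = t := by
    intro t ht
    rcases he with rfl | rfl
    · constructor
      · rw [Int.cast_one, one_mul, abs_of_pos ht]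
      · rw [Int.cast_one, one_mul, one_mul]
    · constructor
      · rw [Int.cast_neg, Int.cast_one, neg_one_mul, abs_neg, abs_of_pos ht]
      · rw [Int.cast_neg, Int.cast_one, neg_one_mul, neg_one_mul, neg_neg]
  by_cases hD : ∀ c'' < hh H s a, Dbl (H s) c''
  · -- case A
    obtain ⟨t, ht⟩ : ∃ t : ℝ, t = min (min τ τ₀) (ρ / 2) := ⟨_, rfl⟩
    have ht0 : 0 < t := by
      rw [ht]
      exact lt_min (lt_min hτ hτ₀) (by linarith)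
    have ht1 : t ≤ τ := by
      rw [ht]
      exact (min_le_left _ _).trans (min_le_left _ _)
    have ht2 : t ≤ τ₀ := by
      rw [ht]
      exact (min_le_left _ _).trans (min_le_right _ _)
    have ht3 : t ≤ ρ / 2 := by
      rw [ht]
      exact min_le_right _ _
    obtain ⟨e1, e2⟩ := hes t ht0
    obtain ⟨φ, Φ, p1, p2, p3, p4, p5⟩ := hpush s t ht0.le ht2
    have hl : ∀ (K : Set Cyl) (c : ℝ), K ⊆ SL (H s) c → Φ '' K ⊆ SL (H (s + e * t)) (c - (1 - η) * t) :=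
      fun K c hK => q8_lvl hH hp e1 ht1 p1 p2 hK
    have h1 := q8_caseA (a := a) hH hl p4 p5 hD
    refine ⟨e * t, 0, by rw [e1]; linarith, by rw [abs_zero]; exact hρ, by rw [e2]; exact ht0, ?_⟩
    rw [e2, add_zero]
    have h2 : 0 < η * t := mul_pos hη0 ht0
    linarith
  · -- case B
    push Not at hD
    obtain ⟨c'', hc, hd⟩ := hD
    obtain ⟨K, hK, hs, ha1, ha2⟩ := ess_att (ham_p2 hH s).smooth.continuous (hH.per s) (c := hh H s a) (a := a)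
      (fun c' hc' => lt_hh hH hc') hc hd
    have hcl : IsClosed K := hK.cpt.isClosed
    obtain ⟨hlU, hlD⟩ := sep_low hK.cpt hs
    have mU : MeasurableSet (Up K)ᶜ := (up_open hcl).measurableSet.compl
    have mD : MeasurableSet (Dn K) := (dn_open hcl).measurableSet
    obtain ⟨δ₁, hδ₁, q1⟩ := ar_push mU hlU (e := ρ / 2) (by linarith)
    obtain ⟨δ₂, hδ₂, q2⟩ := ar_push mD hlD (e := ρ / 2) (by linarith)
    obtain ⟨A, hA⟩ : ∃ A : ℝ, A = B + B₁ + 1 := ⟨_, rfl⟩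
    have hA0 : 0 < A := by linarith
    obtain ⟨t, ht⟩ : ∃ t : ℝ, t = min (min (min τ τ₀) (min τ₁ (ρ / 2))) (min (δ₁ / A) (δ₂ / A)) := ⟨_, rfl⟩
    have ht0 : 0 < t := by
      rw [ht]
      exact lt_min (lt_min (lt_min hτ hτ₀) (lt_min hτ₁ (by linarith))) (lt_min (div_pos hδ₁ hA0) (div_pos hδ₂ hA0))
    have ht1 : t ≤ τ := by
      rw [ht]
      exact (min_le_left _ _).trans ((min_le_left _ _).trans (min_le_left _ _))
    have ht2 : t ≤ τ₀ := by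
      rw [ht]
      exact (min_le_left _ _).trans ((min_le_left _ _).trans (min_le_right _ _))
    have ht3 : t ≤ τ₁ := by
      rw [ht]
      exact (min_le_left _ _).trans ((min_le_right _ _).trans (min_le_left _ _))
    have ht4 : t ≤ ρ / 2 := by
      rw [ht]
      exact (min_le_left _ _).trans ((min_le_right _ _).trans (min_le_right _ _))
    have ht5 : A * t ≤ δ₁ := by
      have h : t ≤ δ₁ / A := by
        rw [ht]
        exact (min_le_right _ _).trans (min_le_left _ _)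
      rw [mul_comm]
      exact (le_div_iff₀ hA0).1 h
    have ht6 : A * t ≤ δ₂ := by
      have h : t ≤ δ₂ / A := by
        rw [ht]
        exact (min_le_right _ _).trans (min_le_right _ _)
      rw [mul_comm]
      exact (le_div_iff₀ hA0).1 h
    have hAt : 0 ≤ A * t := (mul_pos hA0 ht0).le
    have hBA : B * t ≤ A * t := mul_le_mul_of_nonneg_right (by linarith) ht0.le
    have hBA1 : B₁ * t ≤ A * t := mul_le_mul_of_nonneg_right (by linarith) ht0.le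
    obtain ⟨e1, e2⟩ := hes t ht0
    obtain ⟨φ, Φ, p1, p2, p3, p4, p5⟩ := hpush s t ht0.le ht2
    have hl : ∀ (K : Set Cyl) (c : ℝ), K ⊆ SL (H s) c → Φ '' K ⊆ SL (H (s + e * t)) (c - (1 - η) * t) :=
      fun K c hK => q8_lvl hH hp e1 ht1 p1 p2 hK
    have p4' : ∀ w, |(Φ w).2 - w.2| ≤ A * t := fun w => (p4 w).trans hBA
    have hv : ∀ E : Set Cyl, MeasurableSet E → ENNReal.ofReal (1 - A * t) * volume E ≤ volume (Φ '' E) ∧
        volume (Φ '' E) ≤ ENNReal.ofReal (1 + A * t) * volume E := by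
      intro E hE
      obtain ⟨v1, v2⟩ := hvol s t ht0.le ht3 φ Φ p1 p2 p3 E hE
      exact ⟨(mul_le_mul_left (ENNReal.ofReal_le_ofReal (by linarith)) _).trans v1,
        v2.trans (mul_le_mul_left (ENNReal.ofReal_le_ofReal (by linarith)) _)⟩
    have hU := q1 (A * t) hAt ht5 Φ p4' hv
    have hL := q2 (A * t) hAt ht6 Φ p4' hv
    obtain ⟨α, hα, h3⟩ := q8_caseB hH hl p4' (by linarith) hK hs ha1 ha2 hU hL
    refine ⟨e * t, α, by rw [e1]; linarith, by linarith, by rw [e2]; exact ht0, ?_⟩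
    rw [e2]
    have h2 : 0 < η * t := mul_pos hη0 ht0
    linarith

end H25S
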