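import Pool.Agent.Lib.H25S.Q6
import Pool.Agent.Lib.H25S.Q8
import Pool.Agent.Lib.H25S.A4

/-!
# Chunk Q9 (S)
`v.2 > 0`: `step_up`. `v.2 < 0`: `step_up` for `fun s z => H s (z.1, -z.2)` (`ham_rf`), `p = v.1`, `q = -v.2`, at `(s, -a)`: `σ, α`; `hh_rf`; use `(σ, -α)`. `v.2 = 0`: `IsCoprime v.1 0` gives `v.1 = 1 ∨ v.1 = -1` (`isCoprime_zero_right`, `Int.isUnit_iff`): `step_side`.
-/

namespace H25S

open MeasureTheory H83D Set Filter Topology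

theorem step_all {H : ℝ → ℝ × ℝ → ℝ} (hH : Ham H) {v : ℤ × ℤ} (hv : IsCoprime v.1 v.2) (s a : ℝ) {ρ : ℝ} (hρ : 0 < ρ) :
    ∃ σ α : ℝ, |σ| < ρ ∧ |α| < ρ ∧ 0 < v.1 * σ + v.2 * α ∧ hh H s a - (v.1 * σ + v.2 * α) < hh H (s + σ) (a + α) := by
  rcases lt_trichotomy v.2 0 with h | h | h
  · have hq : 0 < -v.2 := by omega
    obtain ⟨σ, α, h1, h2, h3, h4⟩ := step_up (ham_rf hH) (p := v.1) hq s (-a) hρ
    rw [hh_rf hH, hh_rf hH] at h4
    have e1 : -(-a) = a := neg_neg a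
    have e2 : -(-a + α) = a + -α := by ring
    rw [e1, e2] at h4
    push_cast at h3 h4
    refine ⟨σ, -α, h1, ?_, ?_, ?_⟩
    · rw [abs_neg]; exact h2
    · linarith
    · have e3 : (v.1 : ℝ) * σ + (v.2 : ℝ) * -α = (v.1 : ℝ) * σ + -(v.2 : ℝ) * α := by ring
      rw [e3]; exact h4
  · have hu : v.1 = 1 ∨ v.1 = -1 := by
      rw [h, isCoprime_zero_right] at hv
      exact Int.isUnit_iff.1 hv
    obtain ⟨σ, α, h1, h2, h3, h4⟩ := step_side hH hu s a hρ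
    refine ⟨σ, α, h1, h2, ?_, ?_⟩
    · rw [h]; push_cast; linarith
    · rw [h]; push_cast
      have e3 : (v.1 : ℝ) * σ + 0 * α = (v.1 : ℝ) * σ := by ring
      rw [e3]; exact h4
  · exact step_up hH (p := v.1) h s a hρ

end H25S
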