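import Pool.Agent.Lib.H25S.ZC

/-!
# Chunk Z (L, best for helper83): the abstract form of H83D
Copy H83D/A7 (use `Arcs` instead), B1 - B11, C6, C6B, D1 to `Lib/H25S/Z*.lean` with `Adm h` replaced by: `h` continuous, `ℤ²`-periodic, `Arcs h`. The only properties of `Adm` used there are
periodicity, continuity (`IsOpen {z | τ < h z}`), `arc_gen` / `arc_two` for `|c| ≤ 14` with the loss `≤ max |c| 1` (all uses have `1 ≤ |c|` or tolerate the loss `1`), and the invariance under `lm` with determinant `± 1`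
(`Arcs (fun x => h (lm p q r s x))`: apply `Arcs h` at `lm p q r s y` to the coprime vector `w` with `lf w (lm p q r s x) = lf v x` and pull the curve back with the inverse matrix).
`Arcs h` gives the form of `arc_two` (`v = (1, 0)`: `γ c = (y.1 + c, y.2 + g c)`). In `no_vert`, `no_two`, `c6_pos` and D1 there are now TWO functions `f ≤ k`: the curve `H` satisfies `a < f (H s)`, the curve `L` satisfies `k (L t) < b`,
and a common point of a curve with `f ≥ b` and of `L` is impossible as `f ≤ k`. `exists_per` is applied to `f` and to `-k`.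
-/

namespace H25S

open H83D

theorem arcs_osc {f k : ℝ × ℝ → ℝ} (cf : Continuous f) (ck : Continuous k)
    (pf : ∀ (x : ℝ × ℝ) (m : ℤ × ℤ), f (x + iv m) = f x) (pk : ∀ (x : ℝ × ℝ) (m : ℤ × ℤ), k (x + iv m) = k x)
    (af : Arcs f) (ak : Arcs (fun x => -k x)) (hle : ∀ x, f x ≤ k x) (x y : ℝ × ℝ) : f x - k y ≤ 31 := by
  have hf : AC f := ⟨cf, pf, af⟩
  have hk : AC (fun x => -k x) := ⟨ck.neg, fun x m => by rw [pk], ak⟩
  by_contra hc
  push Not at hc
  obtain ⟨ε, hε, he⟩ : ∃ ε : ℝ, 0 < ε ∧ 31 + 2 * ε ≤ f x - k y :=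
    ⟨(f x - k y - 31) / 2, by linarith, by linarith⟩
  obtain ⟨H, m, hm, cH, hH, pH⟩ := z_exists_per hf (τ := f x - 15 - ε) (x₀ := x) (by linarith)
  obtain ⟨L, m', hm', cL, hL, pL⟩ := z_exists_per hk (τ := -k y - 15 - ε) (x₀ := y) (by linarith)
  refine z_no_two hf hk hle (a := f x - 15 - ε) (b := k y + 15 + ε) (by linarith) cH cL hm hm' pH pL hH fun t => ?_
  have := hL t
  linarith

end H25S
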