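import Pool.Agent.Lib.H25S.Q2
import Pool.Agent.Lib.H25S.Q9
import Pool.Agent.Lib.H25S.Q10
import Pool.Agent.Lib.H25S.Q11
import Pool.Agent.Lib.H25S.Z

/-!
# Chunk Q12 (S)
For `ε > 0`: `f x = hh H x.1 x.2 / (1 + ε)`, `k x = - hh (-H) x.1 x.2 / (1 + ε)`: continuous (`hh_cont`), periodic (`hh_pers`, `hh_pera`; integer periods in the first variable by induction), `f ≤ k` (`hh_le_neg`), `Arcs f`, `Arcs (-k)` (`arcs_of_steps` with `step_all`; `ham_neg`). `arcs_osc`: `hh H s a + hh (-H) s' a' ≤ 31 (1 + ε)` for all `ε > 0`.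
-/

namespace H25S

open MeasureTheory H83D Set Filter Topology

theorem q12_per {H : ℝ → ℝ × ℝ → ℝ} (hH : Ham H) (x : ℝ × ℝ) (m : ℤ × ℤ) :
    hh H (x + iv m).1 (x + iv m).2 = hh H x.1 x.2 := by
  have h1 : Function.Periodic (fun s : ℝ => hh H s (x.2 + (m.2 : ℝ))) 1 := fun s => hh_pers hH s _
  have h2 := h1.int_mul m.1 x.1
  simp only [mul_one] at h2
  have h3 : (x + iv m).1 = x.1 + (m.1 : ℝ) := rfl
  have h4 : (x + iv m).2 = x.2 + (m.2 : ℝ) := rfl
  rw [h3, h4, h2]
  exact hh_pera hH x.1 x.2 m.2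

theorem q12_arcs {H : ℝ → ℝ × ℝ → ℝ} (hH : Ham H) {ε : ℝ} (hε : 0 < ε) :
    Arcs (fun x => hh H x.1 x.2 / (1 + ε)) := by
  refine arcs_of_steps (f := fun x : ℝ × ℝ => hh H x.1 x.2) (hh_cont hH) (q12_per hH) ?_ hε
  intro v hv x ρ hρ
  obtain ⟨σ, α, h1, h2, h3, h4⟩ := step_all hH hv x.1 x.2 hρ
  exact ⟨(σ, α), h1, h2, h3, h4⟩

theorem part_two {H : ℝ → ℝ × ℝ → ℝ} (hH : Ham H) (s a s' a' : ℝ) : hh H s a + hh (fun s z => -H s z) s' a' ≤ 31 := by
  have hN : Ham (fun s z => -H s z) := ham_neg hH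
  have key : ∀ ε : ℝ, 0 < ε → hh H s a + hh (fun s z => -H s z) s' a' ≤ 31 * (1 + ε) := by
    intro ε hε
    have h0 : 0 < 1 + ε := by linarith
    have af := q12_arcs hH hε
    have ag := q12_arcs hN hε
    have h1 := arcs_osc (f := fun x : ℝ × ℝ => hh H x.1 x.2 / (1 + ε))
      (k := fun x : ℝ × ℝ => -(hh (fun s z => -H s z) x.1 x.2 / (1 + ε)))
      ((hh_cont hH).div_const _) ((hh_cont hN).div_const _).neg
      (fun x m => by
        have := q12_per hH x m
        simp only [this])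
      (fun x m => by
        have := q12_per hN x m
        simp only [this])
      af (by simpa only [neg_neg] using ag)
      (fun x => by
        have h2 := hh_le_neg hH x.1 x.2
        have h3 : hh H x.1 x.2 / (1 + ε) ≤ (-hh (fun s z => -H s z) x.1 x.2) / (1 + ε) :=
          div_le_div_of_nonneg_right h2 h0.le
        rw [neg_div] at h3
        exact h3) (s, a) (s', a')
    simp only [sub_neg_eq_add] at h1
    rw [← add_div, div_le_iff₀ h0] at h1
    exact h1
  refine le_of_forall_pos_le_add fun ε hε => ?_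
  have h1 := key (ε / 31) (by positivity)
  linarith

end H25S
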