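import Pool.Agent.Lib.H25S.Defs

/-!
# Chunk X1 (S)
As in `H83D.exists_per` (B11.lean): `P` a path in `A` from `z` to `z + iv k`, extended to `ℝ`; `u t = P t - t • iv k` on `[0,1]` has `u 0 = u 1`, so `u ∘ Int.fract` is continuous (`ContinuousOn.comp_fract`), `Q t = u (Int.fract t) + t • iv k = P (fract t) + ⌊t⌋ • iv k`.
-/

namespace H25S

open MeasureTheory H83D Set Filter Topology

theorem per_ext {A : Set (ℝ × ℝ)} {z : ℝ × ℝ} {k : ℤ × ℤ} (hj : JoinedIn A z (z + iv k)) :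
    ∃ Q : ℝ → ℝ × ℝ, Continuous Q ∧ (∀ t, Q (t + 1) = Q t + iv k) ∧ ∀ t, Q t - iv (⌊t⌋ * k.1, ⌊t⌋ * k.2) ∈ A := by
  obtain ⟨P, hP, P0, P1, PS⟩ : ∃ P : ℝ → ℝ × ℝ, Continuous P ∧ P 0 = z ∧ P 1 = z + iv k ∧
      ∀ s ∈ Set.Icc (0 : ℝ) 1, P s ∈ A := by
    refine ⟨hj.somePath.extend, hj.somePath.continuous_extend, Path.extend_zero _, Path.extend_one _, ?_⟩
    intro s hs
    rw [Path.extend_apply _ hs]
    exact hj.somePath_mem _
  obtain ⟨u, hu⟩ : ∃ u : ℝ → ℝ × ℝ, ∀ s, u s = P s - s • iv k := ⟨_, fun _ => rfl⟩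
  have cu : Continuous u := by
    have : u = fun s => P s - s • iv k := funext hu
    rw [this]
    fun_prop
  have hu01 : u 0 = u 1 := by
    rw [hu, hu, P0, P1]
    simp
  have cf : Continuous fun s : ℝ => u (Int.fract s) := by
    have := ContinuousOn.comp_fract'' (f := u) cu.continuousOn hu01
    exact this
  have key : ∀ s : ℝ, u (Int.fract s) + s • iv k = P (Int.fract s) + iv (⌊s⌋ * k.1, ⌊s⌋ * k.2) := by
    intro s
    rw [hu]
    have h3 : s = Int.fract s + ⌊s⌋ := (Int.fract_add_floor s).symm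
    have h4 : s • iv k = Int.fract s • iv k + iv (⌊s⌋ * k.1, ⌊s⌋ * k.2) := by
      conv_lhs => rw [h3]
      rw [add_smul]
      congr 1
      unfold iv
      ext
      · simp
      · simp
    rw [h4]
    abel
  refine ⟨fun s => u (Int.fract s) + s • iv k, cf.add (by fun_prop), ?_, ?_⟩
  · intro s
    show u (Int.fract (s + 1)) + (s + 1) • iv k = u (Int.fract s) + s • iv k + iv k
    rw [Int.fract_add_one, add_smul, one_smul, add_assoc]
  · intro s
    show u (Int.fract s) + s • iv k - iv (⌊s⌋ * k.1, ⌊s⌋ * k.2) ∈ A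
    rw [key, add_sub_cancel_right]
    exact PS _ ⟨Int.fract_nonneg s, (Int.fract_lt_one s).le⟩

end H25S
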