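import Pool.Agent.Lib.H25S.F1
import Pool.Agent.Lib.H25S.F2
import Pool.Agent.Lib.H25S.Q12
import Pool.Agent.Lib.H25S.X1
import Pool.Agent.Lib.H25S.A4
import Pool.Agent.Lib.H83D.C6A
import Pool.Agent.Lib.H83D.C3

/-!
# Chunk F3 (M)
CASE 1: `k.1 * k'.2 - k.2 * k'.1 ≠ 0`. Let `s'' = s' + m`, `m ∈ ℤ`, `|s'' - s| ≤ 1` (`H s'' = H s'` by `pers`). `path_push` moves the first path to `s''`: level `c - 1`. `per_ext` for both paths (the sets are invariant under `iv`): curves `Q, Q'` with `c - 1 ≤ H s' (Q t)`, `c' ≤ - H s' (Q' t)`. `H83D.cross_det`: `Q t = Q' t'`: `c + c' ≤ 1`. CASE 2: determinant `0`: `H83D.par_vec`: `v, n, n'`, `k = (n v.1, n v.2)`,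
`k' = (n' v.1, n' v.2)`, `a v.1 + b v.2 = 1` (`IsCoprime`). `M = lm v.1 (-b) v.2 a` (determinant `v.1 a + b v.2 = 1`), `M (iv (n, 0)) = iv k`. `H' s z = H s (M z)` is `Ham` (`ham_lm`, `e = 1`). The inverse image of the first path (`lm_inv`) joins `M⁻¹ z` and `M⁻¹ z + iv (n, 0)` in `{c ≤ H' s}`: `path_ess`: `c ≤ hh H' s a`; for `-H'` (`ham_neg`): `c' ≤ hh (-H') s' a'`. `part_two`.
-/

namespace H25S

open MeasureTheory H83D Set Filter Topology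

theorem f3_map {A B : Set (ℝ × ℝ)} {x y : ℝ × ℝ} (hj : JoinedIn A x y) {g : ℝ × ℝ → ℝ × ℝ} (hg : Continuous g)
    (hAB : ∀ w ∈ A, g w ∈ B) : JoinedIn B (g x) (g y) :=
  ⟨hj.somePath.map hg, fun t => hAB _ (hj.somePath_mem t)⟩

theorem f3_lift {F : ℝ × ℝ → ℝ} {c : ℝ} {z : ℝ × ℝ} {k : ℤ × ℤ} {p q r t n : ℤ} (hd : p * t - q * r = 1)
    (hk : k = (n * p, n * r)) (hj : JoinedIn {x | c ≤ F x} z (z + iv k)) :
    JoinedIn {x | c ≤ F (lm p q r t x)} (lm (1 * t) (-(1 * q)) (-(1 * r)) (1 * p) z)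
      (lm (1 * t) (-(1 * q)) (-(1 * r)) (1 * p) z + iv (n, 0)) := by
  have h1 := f3_map hj (B := {x | c ≤ F (lm p q r t x)}) (lm_cont (1 * t) (-(1 * q)) (-(1 * r)) (1 * p)) (by
    intro w hw
    show c ≤ F (lm p q r t (lm (1 * t) (-(1 * q)) (-(1 * r)) (1 * p) w))
    rw [(lm_inv hd (by norm_num) w).2]
    exact hw)
  rw [lm_add] at h1
  have e : iv (1 * t * k.1 + -(1 * q) * k.2, -(1 * r) * k.1 + 1 * p * k.2) = iv (n, 0) := by
    subst hk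
    have e1 : 1 * t * (n * p) + -(1 * q) * (n * r) = n := by linear_combination n * hd
    have e2 : -(1 * r) * (n * p) + 1 * p * (n * r) = 0 := by ring
    show iv (1 * t * (n * p) + -(1 * q) * (n * r), -(1 * r) * (n * p) + 1 * p * (n * r)) = iv (n, 0)
    rw [e1, e2]
  rw [← e]
  exact h1

theorem f3_lev {F : ℝ × ℝ → ℝ} (pF : ∀ (z : ℝ × ℝ) (k : ℤ × ℤ), F (z + iv k) = F z) {c : ℝ} {z : ℝ × ℝ} {k : ℤ × ℤ}
    (hj : JoinedIn {x | c ≤ F x} z (z + iv k)) :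
    ∃ Q : ℝ → ℝ × ℝ, Continuous Q ∧ (∀ t, Q (t + 1) = Q t + iv k) ∧ ∀ t, c ≤ F (Q t) := by
  obtain ⟨Q, cQ, pQ, mQ⟩ := per_ext hj
  refine ⟨Q, cQ, pQ, fun t => ?_⟩
  have h1 : c ≤ F (Q t - iv (⌊t⌋ * k.1, ⌊t⌋ * k.2)) := mQ t
  have h2 := pF (Q t - iv (⌊t⌋ * k.1, ⌊t⌋ * k.2)) (⌊t⌋ * k.1, ⌊t⌋ * k.2)
  rw [sub_add_cancel] at h2
  rw [h2]
  exact h1

theorem two_paths {H : ℝ → ℝ × ℝ → ℝ} (hH : Ham H) {s s' c c' : ℝ} {z z' : ℝ × ℝ} {k k' : ℤ × ℤ} (hk : k ≠ 0) (hk' : k' ≠ 0)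
    (h1 : JoinedIn {x | c ≤ H s x} z (z + iv k)) (h2 : JoinedIn {x | c' ≤ -H s' x} z' (z' + iv k')) : c + c' ≤ 31 := by
  by_cases hd : k.1 * k'.2 - k.2 * k'.1 = 0
  · obtain ⟨v, n, n', ⟨a, b, hab⟩, hn, hn', ek, ek'⟩ := par_vec hk hk' hd
    have hdet : v.1 * a - (-b) * v.2 = 1 := by linear_combination hab
    have g1 := f3_lift (F := H s) hdet ek h1
    have g2 := f3_lift (F := fun x => -H s' x) hdet ek' h2
    have hH' := ham_lm hH hdet (by norm_num)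
    obtain ⟨α, hα⟩ := path_ess hH' hn g1
    obtain ⟨α', hα'⟩ := path_ess (ham_neg hH') hn' g2
    have := part_two hH' s α s' α'
    linarith
  · obtain ⟨m, hm⟩ : ∃ m : ℤ, |(s' + m) - s| ≤ 1 := by
      refine ⟨⌊s - s'⌋, ?_⟩
      rw [abs_le]
      constructor
      · linarith [Int.lt_floor_add_one (s - s')]
      · linarith [Int.floor_le (s - s')]
    obtain ⟨z1, hz1⟩ := path_push hH h1 (s' + m)
    have hp : ∀ x, H (s' + m) x = H s' x := fun x => a2_int (u := fun s => H s x) (fun s => hH.pers s x) m s'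
    obtain ⟨Q, cQ, pQ, lQ⟩ := f3_lev (hH.per (s' + m)) hz1
    obtain ⟨Q', cQ', pQ', lQ'⟩ := f3_lev (F := fun x => -H s' x) (fun z k => by rw [hH.per]) h2
    obtain ⟨t, t', htt⟩ := cross_det cQ cQ' pQ pQ' hd
    have e1 := lQ t
    have e2 := lQ' t'
    rw [hp, htt] at e1
    have e3 : c' ≤ -H s' (Q' t') := e2
    linarith

end H25S
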