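import Pool.Agent.Lib.H25S.P7
import Pool.Agent.Lib.H25S.F3

/-!
# Chunk F4 (M)
`c₁ = sSup {c | ∃ s z k, k ≠ 0 ∧ JoinedIn {x | c ≤ H s x} z (z + iv k)}`: nonempty (`c` a lower bound of `H`: the straight path), bounded above (by an upper bound of `H`; the start point of the path). `NoPath H c₁` (`le_csSup`). Similarly `c₂` for `-H` (`ham_neg`). `part_one`: `H s z ≤ c₁ + 1`, `- H s' z' ≤ c₂ + 1`. `c₁ + c₂ ≤ 31`: for `c < c₁`, `c' < c₂` there are paths at levels `≥ c`, `≥ c'` (`exists_lt_of_lt_csSup`):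
`two_paths`. `H` is bounded: `ham_const`-type bounds or `H83D.a4_bdd` plus `ham_lip` and `pers`.
-/

namespace H25S

open MeasureTheory H83D Set Filter Topology

theorem f4_bdd {H : ℝ → ℝ × ℝ → ℝ} (hH : Ham H) : ∃ B : ℝ, ∀ s z, |H s z| ≤ B := by
  obtain ⟨B, hB⟩ := a1_bdd (a1_smooth hH).continuous (a1_per hH)
  refine ⟨B, fun s z => ?_⟩
  have h1 := hB (s, z)
  rw [Real.norm_eq_abs] at h1
  exact h1

/-- the critical level of non-contractible paths -/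
theorem f4_lvl {H : ℝ → ℝ × ℝ → ℝ} (hH : Ham H) : ∃ c₁ : ℝ, NoPath H c₁ ∧ ∀ c < c₁,
    ∃ (s : ℝ) (z : ℝ × ℝ) (k : ℤ × ℤ), k ≠ 0 ∧ JoinedIn {x | c ≤ H s x} z (z + iv k) := by
  obtain ⟨B, hB⟩ := f4_bdd hH
  obtain ⟨S, hS⟩ : ∃ S : Set ℝ, S = {c | ∃ (s : ℝ) (z : ℝ × ℝ) (k : ℤ × ℤ), k ≠ 0 ∧
    JoinedIn {x | c ≤ H s x} z (z + iv k)} := ⟨_, rfl⟩
  have memS : ∀ c, c ∈ S ↔ ∃ (s : ℝ) (z : ℝ × ℝ) (k : ℤ × ℤ), k ≠ 0 ∧
      JoinedIn {x | c ≤ H s x} z (z + iv k) := fun c => by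
    rw [hS]
    rfl
  have hne : S.Nonempty := by
    refine ⟨-B, (memS _).2 ⟨0, 0, (1, 0), ?_, ?_⟩⟩
    · intro h
      have h1 : (1 : ℤ) = 0 := congrArg Prod.fst h
      omega
    · have e : {x : ℝ × ℝ | -B ≤ H 0 x} = univ := by
        rw [eq_univ_iff_forall]
        intro x
        exact (abs_le.1 (hB 0 x)).1
      rw [e, joinedIn_univ]
      exact PathConnectedSpace.joined _ _
  have hbd : BddAbove S := by
    refine ⟨B, fun c hc => ?_⟩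
    obtain ⟨s, z, k, -, hj⟩ := (memS c).1 hc
    have h1 : c ≤ H s z := hj.source_mem
    exact h1.trans (abs_le.1 (hB s z)).2
  refine ⟨sSup S, ?_, ?_⟩
  · intro s c z k hc hj
    by_contra hk
    have h1 : c ∈ S := (memS c).2 ⟨s, z, k, hk, hj⟩
    exact absurd (le_csSup hbd h1) (not_le.2 hc)
  · intro c hc
    obtain ⟨c', h1, h2⟩ := exists_lt_of_lt_csSup hne hc
    obtain ⟨s, z, k, hk, hj⟩ := (memS c').1 h1
    exact ⟨s, z, k, hk, hj.mono fun x hx => h2.le.trans hx⟩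

theorem ham_osc {H : ℝ → ℝ × ℝ → ℝ} (hH : Ham H) (s s' : ℝ) (z z' : ℝ × ℝ) : H s z - H s' z' ≤ 33 := by
  obtain ⟨c₁, n1, l1⟩ := f4_lvl hH
  obtain ⟨c₂, n2, l2⟩ := f4_lvl (ham_neg hH)
  have h1 := part_one hH n1 s z
  have h2 := part_one (ham_neg hH) n2 s' z'
  have h3 : c₁ + c₂ ≤ 31 := by
    by_contra hcon
    have hcon' := not_le.1 hcon
    obtain ⟨t, z₁, k, hk, j1⟩ := l1 (c₁ - (c₁ + c₂ - 31) / 4) (by linarith)
    obtain ⟨t', z₂, k', hk', j2⟩ := l2 (c₂ - (c₁ + c₂ - 31) / 4) (by linarith)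
    have h4 := two_paths hH hk hk' j1 j2
    linarith
  have h4 : -H s' z' ≤ c₂ + 1 := h2
  linarith

end H25S
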