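import Pool.Agent.Lib.H25S.Defs4

/-!
# Chunk G1 (M)
`G` is a closed additive subgroup of `E4`. `V = {v | ∀ t : ℝ, t • v ∈ G}` is a linear subspace (`Submodule ℝ E4`). CLAIM: there is `ρ > 0` such that `g ∈ G`, `v ∈ V`, `‖g - v‖ < ρ` imply `g ∈ V`. Otherwise there are `g n ∈ G \ V` with distance to `V` tending to `0`. Let `W` be a closed complement of `V` (`Submodule.exists_isCompl`, finite dimension: continuous projections `P` on `V` and `Q = 1 - P` on `W`);
`e n = Q (g n) = g n - P (g n) ∈ G ∩ W` (`V ⊆ G`), `e n ≠ 0`, `e n → 0` (`Q (g n) = Q (g n - v n)`, `Q` is continuous). The unit vectors `e n / ‖e n‖` have a convergent subsequence with limit `d ∈ W`, `‖d‖ = 1` (`W` closed, unit sphere compact). For `t : ℝ`: `⌊t / ‖e n‖⌋ • e n ∈ G` converges to `t • d`, so `t • d ∈ G`: `d ∈ V ∩ W = 0`: contradiction.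
-/

namespace H25S

open MeasureTheory H83D Set Filter Topology

theorem g1_gap {F : Type*} [NormedAddCommGroup F] [NormedSpace ℝ F] [FiniteDimensional ℝ F]
    {G : AddSubgroup F} (hG : IsClosed (G : Set F)) :
    ∃ ρ : ℝ, 0 < ρ ∧ ∀ g ∈ G, ∀ v : F, (∀ t : ℝ, t • v ∈ G) →
      ‖g - v‖ < ρ → ∀ t : ℝ, t • g ∈ G := by
  let V : Submodule ℝ F :=
    { carrier := {v | ∀ t : ℝ, t • v ∈ G}
      add_mem' := by
        intro a b ha hb t
        rw [smul_add]
        exact G.add_mem (ha t) (hb t)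
      zero_mem' := by
        intro t
        rw [smul_zero]
        exact G.zero_mem
      smul_mem' := by
        intro c x hx t
        rw [smul_smul]
        exact hx (t * c) }
  have hVmem : ∀ x : F, x ∈ V ↔ ∀ t : ℝ, t • x ∈ G := fun x => Iff.rfl
  have hVG : ∀ x ∈ V, x ∈ G := by
    intro x hx
    have := (hVmem x).1 hx 1
    rwa [one_smul] at this
  obtain ⟨W, hW⟩ := Submodule.exists_isCompl V
  let Q : F →ₗ[ℝ] F := W.projection V hW.symm
  have hQ0 : ∀ x, Q x = 0 ↔ x ∈ V := fun x => Submodule.projection_apply_eq_zero_iff hW.symm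
  have hQV : ∀ x, x - Q x ∈ V := fun x => Submodule.sub_projection_mem hW.symm x
  have hQQ : ∀ x, Q (Q x) = Q x := by
    intro x
    have h1 : Q (x - Q x) = 0 := (hQ0 _).2 (hQV x)
    rw [map_sub, sub_eq_zero] at h1
    exact h1.symm
  have hQc : Continuous Q := LinearMap.continuous_of_finiteDimensional Q
  by_contra hcon
  push Not at hcon
  choose g hg v hv hlt t ht using fun n : ℕ => hcon (1 / ((n : ℝ) + 1)) (by positivity)
  set e : ℕ → F := fun n => Q (g n) with he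
  have heG : ∀ n, e n ∈ G := by
    intro n
    have h1 := G.sub_mem (hg n) (hVG _ (hQV (g n)))
    rwa [sub_sub_cancel] at h1
  have he0 : ∀ n, e n ≠ 0 := by
    intro n h0
    exact ht n ((hVmem _).1 ((hQ0 _).1 h0) (t n))
  have hen : ∀ n, e n = Q (g n - v n) := by
    intro n
    have h1 : Q (v n) = 0 := (hQ0 _).2 ((hVmem _).2 (hv n))
    rw [map_sub, h1, sub_zero]
  have hd0 : Tendsto (fun n => g n - v n) atTop (𝓝 0) := by
    refine squeeze_zero_norm (fun n => (hlt n).le) ?_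
    exact tendsto_one_div_add_atTop_nhds_zero_nat
  have he_lim : Tendsto e atTop (𝓝 0) := by
    have h1 := (hQc.tendsto 0).comp hd0
    rw [map_zero] at h1
    refine h1.congr fun n => ?_
    exact (hen n).symm
  have hen0 : Tendsto (fun n => ‖e n‖) atTop (𝓝 0) := by
    have := he_lim.norm
    rwa [norm_zero] at this
  set u : ℕ → F := fun n => ‖e n‖⁻¹ • e n with hu
  have hu1 : ∀ n, u n ∈ Metric.sphere (0 : F) 1 := by
    intro n
    rw [mem_sphere_zero_iff_norm, hu]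
    simp only
    rw [norm_smul, norm_inv, norm_norm, inv_mul_cancel₀ (norm_ne_zero_iff.2 (he0 n))]
  obtain ⟨d, hd, φ, hφ, hlim⟩ := (isCompact_sphere (0 : F) 1).tendsto_subseq hu1
  have hdG : ∀ s : ℝ, s • d ∈ G := by
    intro s
    set w : ℕ → F := fun n => (⌊s / ‖e (φ n)‖⌋ : ℤ) • e (φ n) with hw
    have hwG : ∀ n, w n ∈ (G : Set F) := fun n => G.zsmul_mem (heG _) _
    have hdiff : Tendsto (fun n => w n - s • u (φ n)) atTop (𝓝 0) := by
      refine squeeze_zero_norm (a := fun n => ‖e (φ n)‖) (fun n => ?_) (hen0.comp hφ.tendsto_atTop)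
      have hpos : 0 < ‖e (φ n)‖ := norm_pos_iff.2 (he0 _)
      have h1 : w n - s • u (φ n) =
          (((⌊s / ‖e (φ n)‖⌋ : ℤ) : ℝ) - s / ‖e (φ n)‖) • e (φ n) := by
        rw [hw, hu]
        simp only
        rw [sub_smul, smul_smul, div_eq_mul_inv, Int.cast_smul_eq_zsmul]
      rw [h1, norm_smul]
      have h2 : ‖(((⌊s / ‖e (φ n)‖⌋ : ℤ) : ℝ) - s / ‖e (φ n)‖)‖ ≤ 1 := by
        rw [Real.norm_eq_abs, abs_le]
        have i1 := Int.floor_le (s / ‖e (φ n)‖)
        have i2 := Int.lt_floor_add_one (s / ‖e (φ n)‖)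
        constructor <;> linarith
      calc ‖(((⌊s / ‖e (φ n)‖⌋ : ℤ) : ℝ) - s / ‖e (φ n)‖)‖ * ‖e (φ n)‖ ≤ 1 * ‖e (φ n)‖ :=
            mul_le_mul_of_nonneg_right h2 hpos.le
        _ = ‖e (φ n)‖ := one_mul _
    have h3 : Tendsto (fun n => s • u (φ n)) atTop (𝓝 (s • d)) := hlim.const_smul s
    have h4 := hdiff.add h3
    have h5 : Tendsto w atTop (𝓝 (s • d)) := by
      rw [zero_add] at h4
      refine h4.congr fun n => ?_
      rw [sub_add_cancel]
    exact hG.mem_of_tendsto h5 (Eventually.of_forall hwG)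
  have hdV : d ∈ V := (hVmem d).2 hdG
  have hQd : Q d = 0 := (hQ0 d).2 hdV
  have hQu : ∀ n, Q (u n) = u n := by
    intro n
    rw [hu]
    simp only
    rw [map_smul, he]
    simp only
    rw [hQQ]
  have h6 : Tendsto (fun n => Q (u (φ n))) atTop (𝓝 (Q d)) := (hQc.tendsto d).comp hlim
  have h7 : Tendsto (fun n => Q (u (φ n))) atTop (𝓝 d) := hlim.congr fun n => (hQu (φ n)).symm
  have h8 : Q d = d := tendsto_nhds_unique h6 h7
  have h9 : d = 0 := by rw [← h8, hQd]
  rw [mem_sphere_zero_iff_norm, h9, norm_zero] at hd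
  exact zero_ne_one hd

theorem grp_gap {G : AddSubgroup E4} (hG : IsClosed (G : Set E4)) : ∃ ρ : ℝ, 0 < ρ ∧ ∀ g ∈ G, ∀ v : E4, (∀ t : ℝ, t • v ∈ G) →
    ‖g - v‖ < ρ → ∀ t : ℝ, t • g ∈ G := g1_gap hG

end H25S
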