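import Pool.Agent.Lib.H25S.G1

/-!
# Chunk G1B (M)
`ρ` of `grp_gap`, wlog `ρ ≤ 1/2`. `u ≠ 0`; `v = N • u` with `N : ℕ`, `‖v‖ ≥ 2`. PIGEONHOLE: the points `n • v` modulo `zv`, `n = 0, 1, 2, ..`: the vectors of fractional parts of the four coordinates are in the compact cube `[0,1]^4`, so two of them (`n < n'`) have distance `< ρ` (infinitely many points in a compact set): with the differences of the integral parts `m = zv a b`: `‖(n' - n) • v - m‖ < ρ`. `(n' - n) • v` satisfies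
`∀ t, t • _ ∈ G`, and `m ∈ G`: by `grp_gap` `t • m ∈ G` for all `t`. `m ≠ 0` because `‖(n'-n) • v‖ ≥ 2 > ρ`.
-/

namespace H25S

open MeasureTheory H83D Set Filter Topology

theorem rat_dir {G : AddSubgroup E4} (hG : IsClosed (G : Set E4)) (hZ : ∀ a b : Fin 2 → ℤ, zv a b ∈ G) {u : E4} (hu : u ≠ 0)
    (hGu : ∀ t : ℝ, t • u ∈ G) : ∃ a b : Fin 2 → ℤ, ¬ (a = 0 ∧ b = 0) ∧ ∀ t : ℝ, t • zv a b ∈ G := by
  obtain ⟨ρ₀, hρ₀, hgap⟩ := grp_gap hG
  set ρ : ℝ := min ρ₀ (1 / 2) with hρdef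
  have hρ : 0 < ρ := lt_min hρ₀ (by norm_num)
  have hun : 0 < ‖u‖ := norm_pos_iff.2 hu
  set v : E4 := (2 / ‖u‖) • u with hvdef
  have hvn : ‖v‖ = 2 := by
    rw [hvdef, norm_smul, Real.norm_of_nonneg (by positivity)]
    field_simp
  have hGv : ∀ t : ℝ, t • v ∈ G := by
    intro t
    rw [hvdef, smul_smul]
    exact hGu _
  let A : ℕ → Fin 2 → ℤ := fun n i => ⌊(n : ℝ) * v.1 i⌋
  let B : ℕ → Fin 2 → ℤ := fun n i => ⌊(n : ℝ) * v.2 i⌋
  let f : ℕ → E4 := fun n => (n : ℝ) • v - zv (A n) (B n)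
  have hf : ∀ n, f n ∈ Metric.closedBall (0 : E4) 1 := by
    intro n
    rw [mem_closedBall_zero_iff]
    have h1 : ‖(f n).1‖ ≤ 1 := by
      refine (pi_norm_le_iff_of_nonneg (by norm_num)).2 (fun i => ?_)
      have e : (f n).1 i = Int.fract ((n : ℝ) * v.1 i) := rfl
      rw [e, Real.norm_of_nonneg (Int.fract_nonneg _)]
      exact (Int.fract_lt_one _).le
    have h2 : ‖(f n).2‖ ≤ 1 := by
      refine (pi_norm_le_iff_of_nonneg (by norm_num)).2 (fun i => ?_)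
      have e : (f n).2 i = Int.fract ((n : ℝ) * v.2 i) := rfl
      rw [e, Real.norm_of_nonneg (Int.fract_nonneg _)]
      exact (Int.fract_lt_one _).le
    rw [Prod.norm_def]
    exact max_le h1 h2
  obtain ⟨a, -, φ, hφ, hlim⟩ := (isCompact_closedBall (0 : E4) 1).tendsto_subseq hf
  have hc := hlim.cauchySeq
  obtain ⟨N, hN⟩ := Metric.cauchySeq_iff.1 hc ρ hρ
  have hd := hN (N + 1) (Nat.le_succ N) N le_rfl
  have hlt : φ N < φ (N + 1) := hφ (Nat.lt_succ_self N)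
  rw [dist_eq_norm] at hd
  set c : ℝ := ((φ (N + 1) : ℕ) : ℝ) - ((φ N : ℕ) : ℝ) with hcdef
  have hc1 : 1 ≤ c := by
    have : ((φ N : ℕ) : ℝ) + 1 ≤ ((φ (N + 1) : ℕ) : ℝ) := by exact_mod_cast hlt
    rw [hcdef]; linarith
  set a' : Fin 2 → ℤ := A (φ (N + 1)) - A (φ N) with ha'
  set b' : Fin 2 → ℤ := B (φ (N + 1)) - B (φ N) with hb'
  have ez : zv a' b' = zv (A (φ (N + 1))) (B (φ (N + 1))) - zv (A (φ N)) (B (φ N)) := by
    simp only [zv, ha', hb', Prod.mk_sub_mk]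
    refine Prod.ext (funext fun i => ?_) (funext fun i => ?_) <;>
      simp [Pi.sub_apply]
  have e : (f ∘ φ) (N + 1) - (f ∘ φ) N = c • v - zv a' b' := by
    rw [ez, hcdef, sub_smul]
    simp only [f, Function.comp_apply]
    abel
  rw [e] at hd
  have hd1 : ‖c • v - zv a' b'‖ < ρ₀ := lt_of_lt_of_le hd (min_le_left _ _)
  have hd2 : ‖c • v - zv a' b'‖ < 1 / 2 := lt_of_lt_of_le hd (min_le_right _ _)
  refine ⟨a', b', ?_, ?_⟩
  · rintro ⟨h1, h2⟩
    have hz : zv a' b' = 0 := by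
      rw [h1, h2]
      simp only [zv]
      refine Prod.ext (funext fun i => ?_) (funext fun i => ?_) <;> simp
    rw [hz, sub_zero, norm_smul, hvn, Real.norm_of_nonneg (by linarith)] at hd2
    linarith
  · refine hgap (zv a' b') (hZ _ _) (c • v) ?_ ?_
    · intro t
      rw [smul_smul]
      exact hGv _
    · rw [norm_sub_rev]; exact hd1

end H25S
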