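import Pool.Agent.Lib.H25S.Defs4

/-!
# Chunk G2 (M)
`H ∘ A` is `C²`; periodic: `A (z + zv a b) = A z + zv a' b'`. Orbits: `fderiv ℝ (H ∘ A) z = (fderiv ℝ H (A z)).comp A` (`ContinuousLinearEquiv.comp_right_fderiv`), so if `γ' = jv (fderiv (H ∘ A) (γ t))` then `(A ∘ γ)' = A (jv ((fderiv H (A (γ t))).comp A)) = jv (fderiv H (A (γ t)))` by `hA`; `A (γ T) = A (γ 0) + zv a' b'`. So `A ∘ γ` is constant (`hH.orb`), hence `γ` (`A` is injective).
-/

namespace H25S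

open MeasureTheory H83D Set Filter Topology

theorem t4_comp {H : E4 → ℝ} (hH : T4 H) (A : E4 ≃L[ℝ] E4) (hA : ∀ l : E4 →L[ℝ] ℝ, A (jv (l.comp (A : E4 →L[ℝ] E4))) = jv l)
    (hZ : ∀ a b : Fin 2 → ℤ, ∃ a' b' : Fin 2 → ℤ, A (zv a b) = zv a' b') : T4 (fun z => H (A z)) := by
  refine ⟨hH.smooth.comp A.contDiff, ?_, ?_⟩
  · intro z a b
    obtain ⟨a', b', h⟩ := hZ a b
    change H (A (z + zv a b)) = H (A z)
    rw [map_add, h, hH.per]
  · intro T γ hT hT1 hγ hper t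
    obtain ⟨a, b, hab⟩ := hper
    obtain ⟨a', b', h⟩ := hZ a b
    have hd : ∀ t : ℝ, HasDerivAt (fun t => A (γ t)) (jv (fderiv ℝ H (A (γ t)))) t := by
      intro t
      have h1 : HasDerivAt (fun t => A (γ t)) (A (jv (fderiv ℝ (fun z => H (A z)) (γ t)))) t :=
        A.hasFDerivAt.comp_hasDerivAt t (hγ t)
      have h2 : fderiv ℝ (fun z => H (A z)) (γ t) = (fderiv ℝ H (A (γ t))).comp (A : E4 →L[ℝ] E4) :=
        A.comp_right_fderiv
      rw [h2, hA] at h1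
      exact h1
    have hc := hH.orb T (fun t => A (γ t)) hT hT1 hd ⟨a', b', by
      change A (γ T) = A (γ 0) + zv a' b'
      rw [hab, map_add, h]⟩ t
    exact A.injective hc

end H25S
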