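import Pool.Agent.Lib.H25S.G2

/-!
# Chunk G3 (M)
Each map is a `ContinuousLinearEquiv` of `E4` (`LinearEquiv` with explicit inverse + `LinearEquiv.toContinuousLinearEquiv`; inverse of the plane map: matrix `(s, -q; -r, p)`; of the swap: itself; of the third: the same with `(p,q,r,s)` replaced by `(s, -q, -r, p)`), maps integral vectors to integral vectors and satisfies `hA` of `t4_comp`. For `hA`: a linear form is determined by the four numbers
`l (0, single 0 1)`, `l (0, single 1 1)`, `l (single 0 1, 0)`, `l (single 1 1, 0)`; write `A (0, single i 1)`, `A (single i 1, 0)` as integral combinations of the four basis vectors, use linearity of `l`, and compare the four coordinates (`p s - q r = 1`; `ring` / `linear_combination`).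
-/

namespace H25S

open MeasureTheory H83D Set Filter Topology

/-- auxiliary: a continuous linear equivalence from two inverse linear maps -/
noncomputable def g3_mk (f g : E4 → E4) (ha : ∀ z w, f (z + w) = f z + f w)
    (hs : ∀ (c : ℝ) (z : E4), f (c • z) = c • f z) (hl : ∀ z, g (f z) = z) (hr : ∀ z, f (g z) = z) :
    E4 ≃L[ℝ] E4 :=
  LinearEquiv.toContinuousLinearEquiv
    { toFun := f
      map_add' := ha
      map_smul' := hs
      invFun := g
      left_inv := hl
      right_inv := hr }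

theorem g3_mk_apply (f g : E4 → E4) (ha : ∀ z w, f (z + w) = f z + f w)
    (hs : ∀ (c : ℝ) (z : E4), f (c • z) = c • f z) (hl : ∀ z, g (f z) = z) (hr : ∀ z, f (g z) = z)
    (z : E4) : g3_mk f g ha hs hl hr z = f z := rfl

theorem g3_ext {v w : E4} (h1 : v.1 0 = w.1 0) (h2 : v.1 1 = w.1 1) (h3 : v.2 0 = w.2 0)
    (h4 : v.2 1 = w.2 1) : v = w := by
  refine Prod.ext (funext fun i => ?_) (funext fun i => ?_)
  · fin_cases i
    · exact h1
    · exact h2
  · fin_cases i
    · exact h3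
    · exact h4

theorem g3_lin (l : E4 →L[ℝ] ℝ) (v : E4) : l v =
    v.1 0 * l ((Pi.single 0 (1 : ℝ) : Fin 2 → ℝ), (0 : Fin 2 → ℝ)) +
    v.1 1 * l ((Pi.single 1 (1 : ℝ) : Fin 2 → ℝ), (0 : Fin 2 → ℝ)) +
    v.2 0 * l ((0 : Fin 2 → ℝ), (Pi.single 0 (1 : ℝ) : Fin 2 → ℝ)) +
    v.2 1 * l ((0 : Fin 2 → ℝ), (Pi.single 1 (1 : ℝ) : Fin 2 → ℝ)) := by
  have e : v = v.1 0 • ((Pi.single 0 (1 : ℝ) : Fin 2 → ℝ), (0 : Fin 2 → ℝ)) +
      v.1 1 • ((Pi.single 1 (1 : ℝ) : Fin 2 → ℝ), (0 : Fin 2 → ℝ)) +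
      v.2 0 • ((0 : Fin 2 → ℝ), (Pi.single 0 (1 : ℝ) : Fin 2 → ℝ)) +
      v.2 1 • ((0 : Fin 2 → ℝ), (Pi.single 1 (1 : ℝ) : Fin 2 → ℝ)) := by
    apply g3_ext <;> simp
  conv_lhs => rw [e]
  simp only [map_add, map_smul, smul_eq_mul]

theorem t4_plane {H : E4 → ℝ} (hH : T4 H) {p q r s : ℤ} (h : p * s - q * r = 1) :
    T4 (fun z : E4 => H (![(p : ℝ) * z.1 0 + q * z.2 0, z.1 1], ![(r : ℝ) * z.1 0 + s * z.2 0, z.2 1])) := by
  have hR : (p : ℝ) * s - q * r = 1 := by exact_mod_cast h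
  refine t4_comp hH (g3_mk
    (fun z : E4 => (![(p : ℝ) * z.1 0 + q * z.2 0, z.1 1], ![(r : ℝ) * z.1 0 + s * z.2 0, z.2 1]))
    (fun z : E4 => (![(s : ℝ) * z.1 0 - q * z.2 0, z.1 1], ![-(r : ℝ) * z.1 0 + p * z.2 0, z.2 1]))
    ?_ ?_ ?_ ?_) ?_ ?_
  · intro z w
    apply g3_ext <;> simp <;> ring
  · intro c z
    apply g3_ext <;> simp <;> ring
  · intro z
    apply g3_ext <;> simp
    · linear_combination z.1 0 * hR
    · linear_combination z.2 0 * hR
  · intro z
    apply g3_ext <;> simp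
    · linear_combination z.1 0 * hR
    · linear_combination z.2 0 * hR
  · intro l
    rw [g3_mk_apply]
    apply g3_ext
    · simp only [jv, ContinuousLinearMap.comp_apply, ContinuousLinearEquiv.coe_coe, g3_mk_apply,
        Matrix.cons_val_zero]
      rw [g3_lin l (_, ![_, _]), g3_lin l (_, ![_, _])]
      simp
      linear_combination l ((0 : Fin 2 → ℝ), (Pi.single 0 (1 : ℝ) : Fin 2 → ℝ)) * hR
    · simp only [jv, ContinuousLinearMap.comp_apply, ContinuousLinearEquiv.coe_coe, g3_mk_apply,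
        Matrix.cons_val_one]
      rw [g3_lin l (_, ![_, _])]
      simp
    · simp only [jv, ContinuousLinearMap.comp_apply, ContinuousLinearEquiv.coe_coe, g3_mk_apply,
        Matrix.cons_val_zero]
      rw [g3_lin l (_, ![_, _]), g3_lin l (_, ![_, _])]
      simp
      linear_combination -l ((Pi.single 0 (1 : ℝ) : Fin 2 → ℝ), (0 : Fin 2 → ℝ)) * hR
    · simp only [jv, ContinuousLinearMap.comp_apply, ContinuousLinearEquiv.coe_coe, g3_mk_apply,
        Matrix.cons_val_one]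
      rw [g3_lin l (_, ![_, _])]
      simp
  · intro a b
    refine ⟨![p * a 0 + q * b 0, a 1], ![r * a 0 + s * b 0, b 1], ?_⟩
    rw [g3_mk_apply]
    apply g3_ext <;> simp [zv]

theorem t4_swap {H : E4 → ℝ} (hH : T4 H) : T4 (fun z : E4 => H (![z.1 1, z.1 0], ![z.2 1, z.2 0])) := by
  refine t4_comp hH (g3_mk
    (fun z : E4 => (![z.1 1, z.1 0], ![z.2 1, z.2 0]))
    (fun z : E4 => (![z.1 1, z.1 0], ![z.2 1, z.2 0]))
    ?_ ?_ ?_ ?_) ?_ ?_
  · intro z w
    apply g3_ext <;> simp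
  · intro c z
    apply g3_ext <;> simp
  · intro z
    apply g3_ext <;> simp
  · intro z
    apply g3_ext <;> simp
  · intro l
    rw [g3_mk_apply]
    apply g3_ext
    all_goals
      simp only [jv, ContinuousLinearMap.comp_apply, ContinuousLinearEquiv.coe_coe, g3_mk_apply,
        Matrix.cons_val_zero, Matrix.cons_val_one]
      rw [g3_lin l (_, ![_, _])]
      simp
  · intro a b
    refine ⟨![a 1, a 0], ![b 1, b 0], ?_⟩
    rw [g3_mk_apply]
    apply g3_ext <;> simp [zv]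

theorem t4_gl {H : E4 → ℝ} (hH : T4 H) {p q r s : ℤ} (h : p * s - q * r = 1) :
    T4 (fun z : E4 => H (![(s : ℝ) * z.1 0 - r * z.1 1, -(q : ℝ) * z.1 0 + p * z.1 1],
      ![(p : ℝ) * z.2 0 + q * z.2 1, (r : ℝ) * z.2 0 + s * z.2 1])) := by
  have hR : (p : ℝ) * s - q * r = 1 := by exact_mod_cast h
  refine t4_comp hH (g3_mk
    (fun z : E4 => (![(s : ℝ) * z.1 0 - r * z.1 1, -(q : ℝ) * z.1 0 + p * z.1 1],
      ![(p : ℝ) * z.2 0 + q * z.2 1, (r : ℝ) * z.2 0 + s * z.2 1]))
    (fun z : E4 => (![(p : ℝ) * z.1 0 + r * z.1 1, (q : ℝ) * z.1 0 + s * z.1 1],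
      ![(s : ℝ) * z.2 0 - q * z.2 1, -(r : ℝ) * z.2 0 + p * z.2 1]))
    ?_ ?_ ?_ ?_) ?_ ?_
  · intro z w
    apply g3_ext <;> simp <;> ring
  · intro c z
    apply g3_ext <;> simp <;> ring
  · intro z
    apply g3_ext <;> simp
    · linear_combination z.1 0 * hR
    · linear_combination z.1 1 * hR
    · linear_combination z.2 0 * hR
    · linear_combination z.2 1 * hR
  · intro z
    apply g3_ext <;> simp
    · linear_combination z.1 0 * hR
    · linear_combination z.1 1 * hR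
    · linear_combination z.2 0 * hR
    · linear_combination z.2 1 * hR
  · intro l
    rw [g3_mk_apply]
    apply g3_ext
    all_goals
      simp only [jv, ContinuousLinearMap.comp_apply, ContinuousLinearEquiv.coe_coe, g3_mk_apply,
        Matrix.cons_val_zero, Matrix.cons_val_one]
      rw [g3_lin l (![_, _], _), g3_lin l (![_, _], _)]
      simp
    · linear_combination l ((0 : Fin 2 → ℝ), (Pi.single 0 (1 : ℝ) : Fin 2 → ℝ)) * hR
    · linear_combination l ((0 : Fin 2 → ℝ), (Pi.single 1 (1 : ℝ) : Fin 2 → ℝ)) * hR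
    · linear_combination -l ((Pi.single 0 (1 : ℝ) : Fin 2 → ℝ), (0 : Fin 2 → ℝ)) * hR
    · linear_combination -l ((Pi.single 1 (1 : ℝ) : Fin 2 → ℝ), (0 : Fin 2 → ℝ)) * hR
  · intro a b
    refine ⟨![s * a 0 - r * a 1, -q * a 0 + p * a 1], ![p * b 0 + q * b 1, r * b 0 + s * b 1], ?_⟩
    rw [g3_mk_apply]
    apply g3_ext <;> simp [zv]

end H25S
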