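import Pool.Agent.Lib.H25S.G3

/-!
# Chunk G4 (M)
`sl2_col`: if `(a, b) = 0` take the identity matrix and `g = 0`; otherwise `g = gcd a b`, `a = g q`, `b = g s` with `q, s` coprime and `p s - q r = 1` from Bezout. Let `C H m` mean: `T4 H` and `∀ z t, H (z + t • m) = H z`. (1) `m = zv a b`: `sl2_col` for `(a 0, b 0)`: `H₁ z = H (plane map)`; it is invariant under `(![0, a 1], ![g₀, b 1])` (the plane map sends this vector to `m`). (2) swap, plane map for `(a 1, b 1)`, swap: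
invariant under `(0, ![g₀, g₁])`. (3) `sl2_col` for `(g₀, g₁)`: `g₀ = g q`, `g₁ = g s`, and `t4_gl` sends `(0, ![0, g])` to `(0, ![g q, g s])`: invariant under `t • (0, ![0, g])`, `g ≠ 0` (otherwise all are zero and `m = 0`), i.e. under `(0, Pi.single 1 t)`. All maps are surjective: `∀ z, ∃ w, H' w = H z`.
-/

namespace H25S

open MeasureTheory H83D Set Filter Topology

theorem sl2_col (a b : ℤ) : ∃ p q r s g : ℤ, p * s - q * r = 1 ∧ a = g * q ∧ b = g * s := by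
  by_cases h : a = 0 ∧ b = 0
  · exact ⟨1, 0, 0, 1, 0, by norm_num, by simp [h.1], by simp [h.2]⟩
  · have hpos : 0 < Int.gcd a b := by
      rw [Nat.pos_iff_ne_zero]
      intro h0
      rw [Int.gcd_eq_zero_iff] at h0
      exact h h0
    obtain ⟨q, s, hqs, ha, hb⟩ := Int.exists_gcd_one hpos
    obtain ⟨u, v, huv⟩ := Int.isCoprime_iff_gcd_eq_one.mpr hqs
    refine ⟨v, q, -u, s, (Int.gcd a b : ℤ), ?_, ?_, ?_⟩
    · linarith [huv, mul_comm u q]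
    · rw [mul_comm]; exact ha
    · rw [mul_comm]; exact hb

theorem e4_ext {z w : E4} (h0 : z.1 0 = w.1 0) (h1 : z.1 1 = w.1 1) (h2 : z.2 0 = w.2 0) (h3 : z.2 1 = w.2 1) : z = w := by
  refine Prod.ext ?_ ?_ <;> funext i <;> fin_cases i <;> simpa

theorem t4_norm {H : E4 → ℝ} (hH : T4 H) {a b : Fin 2 → ℤ} (hab : ¬ (a = 0 ∧ b = 0))
    (hinv : ∀ (z : E4) (t : ℝ), H (z + t • zv a b) = H z) :
    ∃ H' : E4 → ℝ, T4 H' ∧ (∀ (z : E4) (t : ℝ), H' (z + ((0 : Fin 2 → ℝ), (Pi.single 1 t : Fin 2 → ℝ))) = H' z) ∧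
      ∀ z, ∃ w, H' w = H z := by
  obtain ⟨p, q, r, s, g0, h0, ha0, hb0⟩ := sl2_col (a 0) (b 0)
  obtain ⟨p', q', r', s', g1, h1, ha1, hb1⟩ := sl2_col (a 1) (b 1)
  obtain ⟨p2, q2, r2, s2, g, h2, hg1, hg0⟩ := sl2_col g1 g0
  have H1 := t4_plane hH h0
  have H2 := t4_swap H1
  have H3 := t4_plane H2 h1
  have H4 := t4_gl H3 h2
  have r0 : (p : ℝ) * s - q * r = 1 := by exact_mod_cast h0
  have r1 : (p' : ℝ) * s' - q' * r' = 1 := by exact_mod_cast h1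
  have r2' : (p2 : ℝ) * s2 - q2 * r2 = 1 := by exact_mod_cast h2
  have ra0 : (a 0 : ℝ) = g0 * q := by exact_mod_cast ha0
  have rb0 : (b 0 : ℝ) = g0 * s := by exact_mod_cast hb0
  have ra1 : (a 1 : ℝ) = g1 * q' := by exact_mod_cast ha1
  have rb1 : (b 1 : ℝ) = g1 * s' := by exact_mod_cast hb1
  have rg1 : (g1 : ℝ) = g * q2 := by exact_mod_cast hg1
  have rg0 : (g0 : ℝ) = g * s2 := by exact_mod_cast hg0
  have hg : g ≠ 0 := by
    intro hg
    apply hab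
    have e1 : g1 = 0 := by rw [hg1, hg, zero_mul]
    have e0 : g0 = 0 := by rw [hg0, hg, zero_mul]
    constructor
    · funext i; fin_cases i
      · simpa [e0] using ha0
      · simpa [e1] using ha1
    · funext i; fin_cases i
      · simpa [e0] using hb0
      · simpa [e1] using hb1
  have hgR : (g : ℝ) ≠ 0 := by exact_mod_cast hg
  refine ⟨_, H4, ?_, ?_⟩
  · intro z t
    refine Eq.trans (congrArg H ?_) (hinv _ (t / g))
    apply e4_ext
    · simp [zv, Matrix.vecHead, Matrix.vecTail, ra0, rg0]; field_simp; ring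
    · simp [zv, Matrix.vecHead, Matrix.vecTail, ra1, rg1]; field_simp; ring
    · simp [zv, Matrix.vecHead, Matrix.vecTail, rb0, rg0]; field_simp; ring
    · simp [zv, Matrix.vecHead, Matrix.vecTail, rb1, rg1]; field_simp; ring
  · intro z
    let z1 : E4 := (![(s : ℝ) * z.1 0 - q * z.2 0, z.1 1], ![-(r : ℝ) * z.1 0 + p * z.2 0, z.2 1])
    let z2 : E4 := (![z1.1 1, z1.1 0], ![z1.2 1, z1.2 0])
    let z3 : E4 := (![(s' : ℝ) * z2.1 0 - q' * z2.2 0, z2.1 1], ![-(r' : ℝ) * z2.1 0 + p' * z2.2 0, z2.2 1])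
    let z4 : E4 := (![(p2 : ℝ) * z3.1 0 + r2 * z3.1 1, (q2 : ℝ) * z3.1 0 + s2 * z3.1 1],
      ![(s2 : ℝ) * z3.2 0 - q2 * z3.2 1, -(r2 : ℝ) * z3.2 0 + p2 * z3.2 1])
    refine ⟨z4, congrArg H ?_⟩
    have e3 : ((![(s2 : ℝ) * z4.1 0 - r2 * z4.1 1, -(q2 : ℝ) * z4.1 0 + p2 * z4.1 1],
      ![(p2 : ℝ) * z4.2 0 + q2 * z4.2 1, (r2 : ℝ) * z4.2 0 + s2 * z4.2 1]) : E4) = z3 := by
      apply e4_ext
      · show (s2 : ℝ) * ((p2 : ℝ) * z3.1 0 + r2 * z3.1 1) - r2 * ((q2 : ℝ) * z3.1 0 + s2 * z3.1 1) = z3.1 0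
        linear_combination (z3.1 0) * r2'
      · show -(q2 : ℝ) * ((p2 : ℝ) * z3.1 0 + r2 * z3.1 1) + p2 * ((q2 : ℝ) * z3.1 0 + s2 * z3.1 1) = z3.1 1
        linear_combination (z3.1 1) * r2'
      · show (p2 : ℝ) * ((s2 : ℝ) * z3.2 0 - q2 * z3.2 1) + q2 * (-(r2 : ℝ) * z3.2 0 + p2 * z3.2 1) = z3.2 0
        linear_combination (z3.2 0) * r2'
      · show (r2 : ℝ) * ((s2 : ℝ) * z3.2 0 - q2 * z3.2 1) + s2 * (-(r2 : ℝ) * z3.2 0 + p2 * z3.2 1) = z3.2 1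
        linear_combination (z3.2 1) * r2'
    have e2 : ((![(p' : ℝ) * z3.1 0 + q' * z3.2 0, z3.1 1], ![(r' : ℝ) * z3.1 0 + s' * z3.2 0, z3.2 1]) : E4) = z2 := by
      apply e4_ext
      · show (p' : ℝ) * ((s' : ℝ) * z2.1 0 - q' * z2.2 0) + q' * (-(r' : ℝ) * z2.1 0 + p' * z2.2 0) = z2.1 0
        linear_combination (z2.1 0) * r1
      · rfl
      · show (r' : ℝ) * ((s' : ℝ) * z2.1 0 - q' * z2.2 0) + s' * (-(r' : ℝ) * z2.1 0 + p' * z2.2 0) = z2.2 0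
        linear_combination (z2.2 0) * r1
      · rfl
    have e1 : ((![z2.1 1, z2.1 0], ![z2.2 1, z2.2 0]) : E4) = z1 := by
      apply e4_ext <;> rfl
    have e0 : ((![(p : ℝ) * z1.1 0 + q * z1.2 0, z1.1 1], ![(r : ℝ) * z1.1 0 + s * z1.2 0, z1.2 1]) : E4) = z := by
      apply e4_ext
      · show (p : ℝ) * ((s : ℝ) * z.1 0 - q * z.2 0) + q * (-(r : ℝ) * z.1 0 + p * z.2 0) = z.1 0
        linear_combination (z.1 0) * r0
      · rfl
      · show (r : ℝ) * ((s : ℝ) * z.1 0 - q * z.2 0) + s * (-(r : ℝ) * z.1 0 + p * z.2 0) = z.2 0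
        linear_combination (z.2 0) * r0
      · rfl
    refine Eq.trans ?_ e0
    rw [← e1, ← e2, ← e3]

end H25S
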