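import Pool.Agent.Lib.H25S.Defs4
import Pool.Agent.Lib.H83D.Defs

/-!
# Chunk G5 (M)
`e s z = (![z.1, s], ![z.2, 0])` is affine-linear in `(s, z)`: `red H` is `C²`; `d1 (red H s) z = fderiv ℝ H (e s z) (single 0 1, 0)`, `d2 (red H s) z = fderiv ℝ H (e s z) (0, single 0 1)`, `dS (red H) s z = fderiv ℝ H (e s z) (single 1 1, 0)` (chain rule). `hinv` gives `fderiv ℝ H (z + (0, single 1 t)) = fderiv ℝ H z` (`fderiv_comp_add_right`) and `fderiv ℝ H z (0, single 1 1) = 0`. `per`: `e s (z + iv k) = e s z + zv ![k.1, 0] ![k.2, 0]`; `pers`: `zv ![0, 1] 0`.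
`crit`: let `Crit (red H s) z`, `g = dS`, suppose `1 ≤ |g|`; `γ t = (![z.1, s], ![z.2, -(g * t)])` satisfies `γ' = jv (fderiv H (γ t)) = (0, ![0, -g])`; `T = 1/|g|`, `γ T = γ 0 + zv 0 ![0, ∓1]`; so `γ` is constant, `g = 0`: contradiction. `orb`: `Γ t = (![(γ t).1, s], ![(γ t).2, - ∫ τ in 0..t, dS (red H) s (γ τ)])` (`dS` and `γ` are continuous; `intervalIntegral.integral_hasDerivAt_right`): `Γ' = jv (fderiv H (Γ t))`,
`Γ T = Γ 0 + zv ![k.1, 0] ![k.2, -n]`, so `Γ` is constant and the derivative of `γ` at `0` is zero: `Crit`.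
-/

namespace H25S

open MeasureTheory H83D Set Filter Topology

theorem g5_der {a b c d : ℝ → ℝ} {a' b' c' d' t : ℝ} (ha : HasDerivAt a a' t) (hb : HasDerivAt b b' t)
    (hc : HasDerivAt c c' t) (hd : HasDerivAt d d' t) :
    HasDerivAt (fun t => ((![a t, b t], ![c t, d t]) : E4)) (![a', b'], ![c', d']) t := by
  refine HasDerivAt.prodMk ?_ ?_
  · rw [hasDerivAt_pi]
    intro i
    fin_cases i
    · exact ha
    · exact hb
  · rw [hasDerivAt_pi]
    intro i
    fin_cases i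
    · exact hc
    · exact hd

theorem g5_zv (a b c d : ℤ) : zv ![a, b] ![c, d] = ((![(a : ℝ), (b : ℝ)], ![(c : ℝ), (d : ℝ)]) : E4) := by
  refine Prod.ext ?_ ?_
  · funext i
    fin_cases i
    · rfl
    · rfl
  · funext i
    fin_cases i
    · rfl
    · rfl

theorem g5_add (a b c d a' b' c' d' : ℝ) : ((![a, b], ![c, d]) : E4) + (![a', b'], ![c', d']) =
    (![a + a', b + b'], ![c + c', d + d']) := by
  refine Prod.ext ?_ ?_
  · funext i
    fin_cases i
    · rfl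
    · rfl
  · funext i
    fin_cases i
    · rfl
    · rfl

/-- the embedding -/
def g5E (s : ℝ) (z : ℝ × ℝ) : E4 := (![z.1, s], ![z.2, 0])

theorem g5_E_cont (s : ℝ) : Continuous (g5E s) := by
  refine Continuous.prodMk ?_ ?_
  · refine continuous_pi fun i => ?_
    fin_cases i
    · exact continuous_fst
    · exact continuous_const
  · refine continuous_pi fun i => ?_
    fin_cases i
    · exact continuous_snd
    · exact continuous_const

theorem g5_E_smooth : ContDiff ℝ 2 (fun p : ℝ × (ℝ × ℝ) => g5E p.1 p.2) := by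
  refine ContDiff.prodMk ?_ ?_
  · refine contDiff_pi.2 fun i => ?_
    fin_cases i
    · exact contDiff_fst.comp contDiff_snd
    · exact contDiff_fst
  · refine contDiff_pi.2 fun i => ?_
    fin_cases i
    · exact contDiff_snd.comp contDiff_snd
    · exact contDiff_const

theorem g5_s0 : ((Pi.single 0 (1 : ℝ) : Fin 2 → ℝ)) = ![1, 0] := by
  funext i; fin_cases i <;> simp
theorem g5_s1 : ((Pi.single 1 (1 : ℝ) : Fin 2 → ℝ)) = ![0, 1] := by
  funext i; fin_cases i <;> simp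
theorem g5_z : (0 : Fin 2 → ℝ) = ![0, 0] := by
  funext i; fin_cases i <;> simp

theorem g5_jv (l : E4 →L[ℝ] ℝ) :
    jv l = (![l (![0, 0], ![1, 0]), l (![0, 0], ![0, 1])], ![-l (![1, 0], ![0, 0]), -l (![0, 1], ![0, 0])]) := by
  unfold jv
  refine Prod.ext ?_ ?_
  · funext i
    fin_cases i
    · show l ((0 : Fin 2 → ℝ), (Pi.single 0 (1 : ℝ) : Fin 2 → ℝ)) = l (![0, 0], ![1, 0])
      rw [g5_s0, g5_z]
    · show l ((0 : Fin 2 → ℝ), (Pi.single 1 (1 : ℝ) : Fin 2 → ℝ)) = l (![0, 0], ![0, 1])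
      rw [g5_s1, g5_z]
  · funext i
    fin_cases i
    · show -l ((Pi.single 0 (1 : ℝ) : Fin 2 → ℝ), (0 : Fin 2 → ℝ)) = -l (![1, 0], ![0, 0])
      rw [g5_s0, g5_z]
    · show -l ((Pi.single 1 (1 : ℝ) : Fin 2 → ℝ), (0 : Fin 2 → ℝ)) = -l (![0, 1], ![0, 0])
      rw [g5_s1, g5_z]

theorem g5_dS {H : E4 → ℝ} (hd : Differentiable ℝ H) (s : ℝ) (z : ℝ × ℝ) :
    dS (red H) s z = fderiv ℝ H (g5E s z) (![0, 1], ![0, 0]) := by
  unfold dS
  have h1 : HasDerivAt (fun t : ℝ => ((![z.1, t], ![z.2, 0]) : E4)) (![0, 1], ![0, 0]) s :=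
    g5_der (hasDerivAt_const s z.1) (hasDerivAt_id s) (hasDerivAt_const s z.2) (hasDerivAt_const s (0 : ℝ))
  exact ((hd (g5E s z)).hasFDerivAt.comp_hasDerivAt s h1).deriv

theorem g5_d1 {H : E4 → ℝ} (hd : Differentiable ℝ H) (s : ℝ) (z : ℝ × ℝ) :
    d1 (red H s) z = fderiv ℝ H (g5E s z) (![1, 0], ![0, 0]) := by
  have hs : DifferentiableAt ℝ (red H s) z := by
    have h2 : Differentiable ℝ (g5E s) := by
      intro w
      have h3 := (g5_E_smooth.comp (contDiff_const.prodMk contDiff_id : ContDiff ℝ 2 fun w : ℝ × ℝ => (s, w)))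
      exact (h3.differentiable (by norm_num)) w
    exact (hd _).comp z (h2 z)
  unfold d1
  have h1 : HasDerivAt (fun t : ℝ => ((z.1 + t, z.2) : ℝ × ℝ)) (1, 0) 0 := by
    have := ((hasDerivAt_id (0 : ℝ)).const_add z.1).prodMk (hasDerivAt_const (0 : ℝ) z.2)
    exact this
  have h0 : ((z.1 + (0 : ℝ), z.2) : ℝ × ℝ) = z := by simp
  have h4 : HasDerivAt (fun t : ℝ => red H s (z.1 + t, z.2)) (fderiv ℝ (red H s) z (1, 0)) 0 := by
    have h5 : HasFDerivAt (red H s) (fderiv ℝ (red H s) z) ((z.1 + (0 : ℝ), z.2) : ℝ × ℝ) := by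
      rw [h0]; exact hs.hasFDerivAt
    exact h5.comp_hasDerivAt (0 : ℝ) h1
  have h6 : HasDerivAt (fun t : ℝ => ((![z.1 + t, s], ![z.2, 0]) : E4)) (![1, 0], ![0, 0]) 0 :=
    g5_der ((hasDerivAt_id (0 : ℝ)).const_add z.1) (hasDerivAt_const _ s) (hasDerivAt_const _ z.2)
      (hasDerivAt_const _ (0 : ℝ))
  have h7 : HasDerivAt (fun t : ℝ => red H s (z.1 + t, z.2)) (fderiv ℝ H (g5E s z) (![1, 0], ![0, 0])) 0 := by
    have h8 : HasFDerivAt H (fderiv ℝ H (g5E s z)) ((![z.1 + (0 : ℝ), s], ![z.2, 0]) : E4) := by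
      have h9 : ((![z.1 + (0 : ℝ), s], ![z.2, 0]) : E4) = g5E s z := by simp [g5E]
      rw [h9]; exact (hd _).hasFDerivAt
    exact h8.comp_hasDerivAt (0 : ℝ) h6
  exact h4.unique h7

theorem g5_d2 {H : E4 → ℝ} (hd : Differentiable ℝ H) (s : ℝ) (z : ℝ × ℝ) :
    d2 (red H s) z = fderiv ℝ H (g5E s z) (![0, 0], ![1, 0]) := by
  have hs : DifferentiableAt ℝ (red H s) z := by
    have h2 : Differentiable ℝ (g5E s) := by
      intro w
      have h3 := (g5_E_smooth.comp (contDiff_const.prodMk contDiff_id : ContDiff ℝ 2 fun w : ℝ × ℝ => (s, w)))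
      exact (h3.differentiable (by norm_num)) w
    exact (hd _).comp z (h2 z)
  unfold d2
  have h1 : HasDerivAt (fun t : ℝ => ((z.1, z.2 + t) : ℝ × ℝ)) (0, 1) 0 := by
    have := (hasDerivAt_const (0 : ℝ) z.1).prodMk ((hasDerivAt_id (0 : ℝ)).const_add z.2)
    exact this
  have h0 : ((z.1, z.2 + (0 : ℝ)) : ℝ × ℝ) = z := by simp
  have h4 : HasDerivAt (fun t : ℝ => red H s (z.1, z.2 + t)) (fderiv ℝ (red H s) z (0, 1)) 0 := by
    have h5 : HasFDerivAt (red H s) (fderiv ℝ (red H s) z) ((z.1, z.2 + (0 : ℝ)) : ℝ × ℝ) := by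
      rw [h0]; exact hs.hasFDerivAt
    exact h5.comp_hasDerivAt (0 : ℝ) h1
  have h6 : HasDerivAt (fun t : ℝ => ((![z.1, s], ![z.2 + t, 0]) : E4)) (![0, 0], ![1, 0]) 0 :=
    g5_der (hasDerivAt_const _ z.1) (hasDerivAt_const _ s) ((hasDerivAt_id (0 : ℝ)).const_add z.2)
      (hasDerivAt_const _ (0 : ℝ))
  have h7 : HasDerivAt (fun t : ℝ => red H s (z.1, z.2 + t)) (fderiv ℝ H (g5E s z) (![0, 0], ![1, 0])) 0 := by
    have h8 : HasFDerivAt H (fderiv ℝ H (g5E s z)) ((![z.1, s], ![z.2 + (0 : ℝ), 0]) : E4) := by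
      have h9 : ((![z.1, s], ![z.2 + (0 : ℝ), 0]) : E4) = g5E s z := by simp [g5E]
      rw [h9]; exact (hd _).hasFDerivAt
    exact h8.comp_hasDerivAt (0 : ℝ) h6
  exact h4.unique h7

theorem g5_st (t : ℝ) : ((Pi.single 1 t : Fin 2 → ℝ)) = ![0, t] := by
  funext i
  fin_cases i
  · show (Pi.single (1 : Fin 2) t : Fin 2 → ℝ) 0 = 0
    simp
  · show (Pi.single (1 : Fin 2) t : Fin 2 → ℝ) 1 = t
    simp

theorem g5_shift (a s c t : ℝ) : ((![a, s], ![c, t]) : E4) =
    (![a, s], ![c, 0]) + ((0 : Fin 2 → ℝ), (Pi.single 1 t : Fin 2 → ℝ)) := by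
  rw [g5_st, g5_z, g5_add, add_zero, add_zero, add_zero, zero_add]

/-- The derivative is invariant. -/
theorem g5_inv {H : E4 → ℝ}
    (hinv : ∀ (z : E4) (t : ℝ), H (z + ((0 : Fin 2 → ℝ), (Pi.single 1 t : Fin 2 → ℝ))) = H z) (a s c t : ℝ) :
    fderiv ℝ H (![a, s], ![c, t]) = fderiv ℝ H (![a, s], ![c, 0]) := by
  rw [g5_shift, ← fderiv_comp_add_right]
  have : (fun z : E4 => H (z + ((0 : Fin 2 → ℝ), (Pi.single 1 t : Fin 2 → ℝ)))) = H := by
    funext z; exact hinv z t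
  rw [this]

theorem g5_zero {H : E4 → ℝ} (hd : Differentiable ℝ H)
    (hinv : ∀ (z : E4) (t : ℝ), H (z + ((0 : Fin 2 → ℝ), (Pi.single 1 t : Fin 2 → ℝ))) = H z) (s : ℝ) (z : ℝ × ℝ) :
    fderiv ℝ H (g5E s z) (![0, 0], ![0, 1]) = 0 := by
  have h6 : HasDerivAt (fun t : ℝ => ((![z.1, s], ![z.2, t]) : E4)) (![0, 0], ![0, 1]) 0 :=
    g5_der (hasDerivAt_const _ z.1) (hasDerivAt_const _ s) (hasDerivAt_const _ z.2) (hasDerivAt_id (0 : ℝ))
  have h7 : HasDerivAt (fun t : ℝ => H (![z.1, s], ![z.2, t])) (fderiv ℝ H (g5E s z) (![0, 0], ![0, 1])) 0 := by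
    have h8 : HasFDerivAt H (fderiv ℝ H (g5E s z)) ((![z.1, s], ![z.2, (0 : ℝ)]) : E4) := (hd _).hasFDerivAt
    exact h8.comp_hasDerivAt (0 : ℝ) h6
  have h9 : (fun t : ℝ => H (![z.1, s], ![z.2, t])) = fun _ => H (g5E s z) := by
    funext t
    rw [g5_shift, hinv]; rfl
  rw [h9] at h7
  exact h7.unique (hasDerivAt_const _ _)

/-- The Hamiltonian vector of `H` in the reduced form. -/
theorem g5_field {H : E4 → ℝ} (hd : Differentiable ℝ H)
    (hinv : ∀ (z : E4) (t : ℝ), H (z + ((0 : Fin 2 → ℝ), (Pi.single 1 t : Fin 2 → ℝ))) = H z) (s : ℝ) (z : ℝ × ℝ) (t : ℝ) :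
    jv (fderiv ℝ H (![z.1, s], ![z.2, t])) =
      (![d2 (red H s) z, 0], ![-d1 (red H s) z, -dS (red H) s z]) := by
  rw [g5_inv hinv, g5_jv]
  rw [g5_d1 hd, g5_d2 hd, g5_dS hd]
  rw [show ((![z.1, s], ![z.2, 0]) : E4) = g5E s z from rfl, g5_zero hd hinv]

theorem g5_dS_cont {H : E4 → ℝ} (hs : ContDiff ℝ 2 H) (s : ℝ) : Continuous (fun z => dS (red H) s z) := by
  have hd : Differentiable ℝ H := hs.differentiable (by norm_num)
  have h1 : Continuous (fderiv ℝ H) := hs.continuous_fderiv (by norm_num)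
  have h2 : (fun z => dS (red H) s z) = fun z => fderiv ℝ H (g5E s z) (![0, 1], ![0, 0]) := by
    funext z; exact g5_dS hd s z
  rw [h2]
  exact (h1.comp (g5_E_cont s)).clm_apply continuous_const

theorem ham_of {H : E4 → ℝ} (hH : T4 H)
    (hinv : ∀ (z : E4) (t : ℝ), H (z + ((0 : Fin 2 → ℝ), (Pi.single 1 t : Fin 2 → ℝ))) = H z) : Ham (red H) := by
  have hd : Differentiable ℝ H := hH.smooth.differentiable (by norm_num)
  refine ⟨?_, ?_, ?_, ?_, ?_⟩
  · exact hH.smooth.comp g5_E_smooth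
  · intro s z k
    have h1 := hH.per (g5E s z) ![k.1, 0] ![k.2, 0]
    have h2 : g5E s z + zv ![k.1, 0] ![k.2, 0] = g5E s (z + iv k) := by
      show ((![z.1, s], ![z.2, 0]) : E4) + zv ![k.1, 0] ![k.2, 0] = (![z.1 + (k.1 : ℝ), s], ![z.2 + (k.2 : ℝ), 0])
      rw [g5_zv, g5_add]
      simp only [Int.cast_zero, add_zero]
    rw [h2] at h1
    exact h1
  · intro s z
    have h1 := hH.per (g5E s z) ![0, 1] ![0, 0]
    have h2 : g5E s z + zv ![0, 1] ![0, 0] = g5E (s + 1) z := by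
      show ((![z.1, s], ![z.2, 0]) : E4) + zv ![0, 1] ![0, 0] = (![z.1, s + 1], ![z.2, 0])
      rw [g5_zv, g5_add]
      simp only [Int.cast_zero, Int.cast_one, add_zero]
    rw [h2] at h1
    exact h1
  · intro s z hc
    by_contra hg
    rw [not_lt] at hg
    set g := dS (red H) s z with hgd
    have hpos : 0 < |g| := by linarith
    have hg0 : g ≠ 0 := abs_pos.1 hpos
    have hT : (1 / |g|) ≤ 1 := by
      rw [div_le_one hpos]; exact hg
    let γ : ℝ → E4 := fun t => (![z.1, s], ![z.2, -(g * t)])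
    have hγ : ∀ t, HasDerivAt γ (jv (fderiv ℝ H (γ t))) t := by
      intro t
      have h1 : jv (fderiv ℝ H (γ t)) = (![0, 0], ![0, -g]) := by
        show jv (fderiv ℝ H (![z.1, s], ![z.2, -(g * t)])) = _
        rw [g5_field hd hinv, hc.1, hc.2, neg_zero, ← hgd]
      rw [h1]
      have h2 : HasDerivAt (fun t : ℝ => -(g * t)) (-g) t := by
        have h3 := ((hasDerivAt_id t).const_mul g).neg
        rw [mul_one] at h3
        exact h3
      exact g5_der (hasDerivAt_const _ z.1) (hasDerivAt_const _ s) (hasDerivAt_const _ z.2) h2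
    have hcl : ∃ a b : Fin 2 → ℤ, γ (1 / |g|) = γ 0 + zv a b := by
      rcases lt_or_gt_of_ne hg0 with hneg | hp
      · refine ⟨![0, 0], ![0, 1], ?_⟩
        show ((![z.1, s], ![z.2, -(g * (1 / |g|))]) : E4) = (![z.1, s], ![z.2, -(g * 0)]) + zv ![0, 0] ![0, 1]
        rw [g5_zv, g5_add, abs_of_neg hneg]
        have h4 : -(g * (1 / -g)) = -(g * 0) + ((1 : ℤ) : ℝ) := by
          field_simp
          norm_num
        rw [h4]
        simp only [Int.cast_zero, add_zero]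
      · refine ⟨![0, 0], ![0, -1], ?_⟩
        show ((![z.1, s], ![z.2, -(g * (1 / |g|))]) : E4) = (![z.1, s], ![z.2, -(g * 0)]) + zv ![0, 0] ![0, -1]
        rw [g5_zv, g5_add, abs_of_pos hp]
        have h4 : -(g * (1 / g)) = -(g * 0) + ((-1 : ℤ) : ℝ) := by
          field_simp
          norm_num
        rw [h4]
        simp only [Int.cast_zero, add_zero]
    have hconst := hH.orb (1 / |g|) γ (by positivity) hT hγ hcl 1
    have h3 : -(g * 1) = -(g * 0) := by
      have := congrFun (congrArg Prod.snd hconst) 1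
      simpa [γ] using this
    apply hg0
    linarith
  · intro s γ T k n hT hT1 hγ hper hint
    have hγc : Continuous γ := continuous_iff_continuousAt.2 fun t => (hγ t).continuousAt
    have hc : Continuous (fun t => dS (red H) s (γ t)) := (g5_dS_cont hH.smooth s).comp hγc
    let I : ℝ → ℝ := fun t => ∫ τ in (0 : ℝ)..t, dS (red H) s (γ τ)
    have hI : ∀ t, HasDerivAt I (dS (red H) s (γ t)) t := fun t =>
      intervalIntegral.integral_hasDerivAt_right (hc.intervalIntegrable _ _)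
        (hc.stronglyMeasurableAtFilter _ _) hc.continuousAt
    let Γ : ℝ → E4 := fun t => (![(γ t).1, s], ![(γ t).2, -I t])
    have h1 : ∀ t, HasDerivAt (fun t => (γ t).1) (d2 (red H s) (γ t)) t := fun t =>
      (hasFDerivAt_fst (𝕜 := ℝ) (E := ℝ) (F := ℝ) (p := γ t)).comp_hasDerivAt t (hγ t)
    have h2 : ∀ t, HasDerivAt (fun t => (γ t).2) (-d1 (red H s) (γ t)) t := fun t =>
      (hasFDerivAt_snd (𝕜 := ℝ) (E := ℝ) (F := ℝ) (p := γ t)).comp_hasDerivAt t (hγ t)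
    have hΓ : ∀ t, HasDerivAt Γ (jv (fderiv ℝ H (Γ t))) t := by
      intro t
      have h3 : jv (fderiv ℝ H (Γ t)) =
          (![d2 (red H s) (γ t), 0], ![-d1 (red H s) (γ t), -dS (red H) s (γ t)]) :=
        g5_field hd hinv s (γ t) (-I t)
      rw [h3]
      exact g5_der (h1 t) (hasDerivAt_const _ s) (h2 t) (hI t).neg
    have hcl : ∃ a b : Fin 2 → ℤ, Γ T = Γ 0 + zv a b := by
      refine ⟨![k.1, 0], ![k.2, -n], ?_⟩
      have h4 := hper 0
      rw [zero_add] at h4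
      have h5 : I T = n := hint
      have h6 : I 0 = 0 := intervalIntegral.integral_same
      show ((![(γ T).1, s], ![(γ T).2, -I T]) : E4) = (![(γ 0).1, s], ![(γ 0).2, -I 0]) + zv ![k.1, 0] ![k.2, -n]
      rw [g5_zv, g5_add, h4, h5, h6]
      show ((![(γ 0).1 + (k.1 : ℝ), s], ![(γ 0).2 + (k.2 : ℝ), -(n : ℝ)]) : E4) = _
      rw [Int.cast_zero, add_zero, Int.cast_neg, neg_zero, zero_add]
    have hconst := hH.orb T Γ hT hT1 hΓ hcl
    have hγ0 : γ = fun _ => γ 0 := by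
      funext t
      have h7 := hconst t
      refine Prod.ext ?_ ?_
      · have := congrFun (congrArg Prod.fst h7) 0
        simpa [Γ] using this
      · have := congrFun (congrArg Prod.snd h7) 0
        simpa [Γ] using this
    have h8 : HasDerivAt γ 0 0 := by
      rw [hγ0]; exact hasDerivAt_const _ _
    have h9 := (hγ 0).unique h8
    have h10 := congrArg Prod.fst h9
    have h11 := congrArg Prod.snd h9
    refine ⟨?_, ?_⟩
    · have : -d1 (red H s) (γ 0) = 0 := h11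
      linarith
    · exact h10

end H25S
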