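import Pool.Agent.Lib.H25S.F4
import Pool.Agent.Lib.H25S.G1B
import Pool.Agent.Lib.H25S.G4
import Pool.Agent.Lib.H25S.G5

/-!
# Chunk G6 (S)
`G = {v | ∀ z, H (z + v) = H z}` is a closed additive subgroup (`H` continuous), contains `zv a b` and `t • u`. `rat_dir`: `a, b`; `t4_norm`: `H'`; `ham_of`, `ham_osc`. Points: `z = (![x0, x1], ![y0, y1])`, `H' z = red H' x1 (x0, y0)` by invariance. `H z = H' z'`, `H w = H' w'`.
-/

namespace H25S

open MeasureTheory H83D Set Filter Topology

private lemma red_eq_g6 {H : E4 → ℝ}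
    (hinv : ∀ (z : E4) (t : ℝ), H (z + ((0 : Fin 2 → ℝ), (Pi.single 1 t : Fin 2 → ℝ))) = H z) (v : E4) :
    H v = red H (v.1 1) (v.1 0, v.2 0) := by
  have h1 := hinv ((![v.1 0, v.1 1] : Fin 2 → ℝ), (![v.2 0, 0] : Fin 2 → ℝ)) (v.2 1)
  unfold red
  rw [← h1]
  congr 1
  apply Prod.ext
  · funext i
    fin_cases i <;> simp [Matrix.vecHead, Matrix.vecTail]
  · funext i
    fin_cases i <;> simp [Matrix.vecHead, Matrix.vecTail]

theorem main {H : E4 → ℝ} (hH : T4 H) {u : E4} (hu : u ≠ 0) (hinv : ∀ (z : E4) (t : ℝ), H (z + t • u) = H z) (z w : E4) :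
    H z - H w ≤ 33 := by
  have hcont : Continuous H := hH.smooth.continuous
  let G : AddSubgroup E4 :=
    { carrier := {v | ∀ z, H (z + v) = H z}
      add_mem' := by
        intro a b ha hb z
        have h1 := hb (z + a)
        have h2 := ha z
        rw [← add_assoc, h1, h2]
      zero_mem' := by
        intro z
        simp
      neg_mem' := by
        intro a ha z
        have h1 := ha (z + -a)
        rw [← h1]
        simp }
  have hG : IsClosed (G : Set E4) := by
    have h1 : (G : Set E4) = ⋂ z : E4, {v | H (z + v) = H z} := by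
      ext v
      rw [mem_iInter]
      exact Iff.rfl
    rw [h1]
    exact isClosed_iInter (fun z => isClosed_eq (hcont.comp (continuous_const.add continuous_id)) continuous_const)
  obtain ⟨a, b, hab, ht⟩ := rat_dir hG (fun a b z => hH.per z a b) hu (fun t z => hinv z t)
  obtain ⟨H', hT, hi, hs⟩ := t4_norm hH hab (fun z t => ht t z)
  obtain ⟨z1, hz1⟩ := hs z
  obtain ⟨w1, hw1⟩ := hs w
  rw [← hz1, ← hw1, red_eq_g6 hi z1, red_eq_g6 hi w1]
  exact ham_osc (ham_of hT hi) _ _ _ _

end H25S
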