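import Pool.Agent.Lib.H25S.T3
import Pool.Agent.Lib.H25S.L2

/-!
# Chunk JS (M)
SEPARATION. `frontier N` is compact (`closure N` is) and disjoint from `Γ ⊆ N` (open), so `f ≠ c` there: `e > 0` with `e ≤ |f w - c|` on `frontier N` (if `frontier N` is empty, `e = 1`). `χ w = max 0 (min 1 (1/2 + (f w - c) / (2 * e)))`, `ψ w = (χ w : AddCircle 1)` for `w ∈ closure N` and `0` otherwise; continuous (`Continuous.piecewise` / `continuous_piecewise`: on
`frontier (closure N) ⊆ frontier N` we have `χ w ∈ {0, 1}`, so `ψ w = 0`). `N` is bounded, so `cyl_lift` gives `G`. On `Γ`: `ψ = 1/2`, so `G - 1/2` has integral values: `G = n + 1/2` on `Γ` (`int_const`, `Γ` is connected). `Wm = {G < n + 1/2}`, `Wp = {n + 1/2 < G}`. If `G w = n + 1/2` then `ψ w = 1/2 ≠ 0`, so `w ∈ closure N`, `χ w - 1/2` is an integer in `[-1/2, 1/2]`, hence `0`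
and `f w = c`, `w ∈ Γ`. `N' = N ∩ {|G - (n + 1/2)| < 1/2}`: there `G w ∈ (n, n+1)` and `G w - χ w` is an integer, `χ w ∈ [0,1]`, so `G w = n + χ w` (as `0 < G w - n < 1`), and `f w < c → χ w < 1/2`, `c < f w → χ w > 1/2`.
-/

namespace H25S

open MeasureTheory H83D Set Filter Topology

theorem js_int {x : ℝ} (h : (x : AddCircle (1 : ℝ)) = 0) : ∃ n : ℤ, x = n := by
  obtain ⟨n, hn⟩ := (AddCircle.coe_eq_zero_iff (1 : ℝ)).1 h
  exact ⟨n, by rw [← hn]; simp⟩

theorem js_zero (n : ℤ) : (((n : ℝ)) : AddCircle (1 : ℝ)) = 0 :=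
  (AddCircle.coe_eq_zero_iff (1 : ℝ)).2 ⟨n, by simp⟩

theorem sep_level {f : Cyl → ℝ} (cf : Continuous f) {c : ℝ} {N Γ : Set Cyl} (hN : IsOpen N) (cN : IsCompact (closure N))
    (hΓ : IsConnected Γ) (kΓ : IsCompact Γ) (hΓN : Γ ⊆ N) (hlev : closure N ∩ {w | f w = c} = Γ) :
    ∃ Wm Wp N' : Set Cyl, IsOpen Wm ∧ IsOpen Wp ∧ Disjoint Wm Wp ∧ Wm ∪ Wp = Γᶜ ∧ IsOpen N' ∧ Γ ⊆ N' ∧
      ∀ w ∈ N', (f w < c → w ∈ Wm) ∧ (c < f w → w ∈ Wp) := by
  classical
  have hfr : IsCompact (frontier N) := cN.of_isClosed_subset isClosed_frontier frontier_subset_closure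
  have hne : ∀ w ∈ frontier N, f w ≠ c := by
    intro w hw h
    have h1 : w ∈ Γ := by
      rw [← hlev]
      exact ⟨frontier_subset_closure hw, h⟩
    rw [hN.frontier_eq] at hw
    exact hw.2 (hΓN h1)
  obtain ⟨e, he, hfe⟩ : ∃ e : ℝ, 0 < e ∧ ∀ w ∈ frontier N, e ≤ |f w - c| := by
    rcases (frontier N).eq_empty_or_nonempty with h | h
    · exact ⟨1, one_pos, fun w hw => by rw [h] at hw; exact absurd hw (notMem_empty w)⟩
    · obtain ⟨w0, hw0, hmin⟩ := hfr.exists_isMinOn h ((cf.sub continuous_const).abs.continuousOn (s := frontier N))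
      refine ⟨|f w0 - c|, abs_pos.2 (sub_ne_zero.2 (hne w0 hw0)), fun w hw => ?_⟩
      exact hmin hw
  set χ : Cyl → ℝ := fun w => max 0 (min 1 (1 / 2 + (f w - c) / (2 * e))) with hχ
  have cχ : Continuous χ := by
    rw [hχ]
    exact continuous_const.max (continuous_const.min (continuous_const.add ((cf.sub continuous_const).div_const _)))
  have χ0 : ∀ w, 0 ≤ χ w := fun w => le_max_left _ _
  have χ1 : ∀ w, χ w ≤ 1 := fun w => max_le zero_le_one (min_le_left _ _)
  have χf : ∀ w, f w < c → χ w < 1 / 2 := by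
    intro w hw
    have h1 : (f w - c) / (2 * e) < 0 := div_neg_of_neg_of_pos (by linarith) (by linarith)
    show max 0 (min 1 (1 / 2 + (f w - c) / (2 * e))) < 1 / 2
    exact max_lt (by norm_num) (lt_of_le_of_lt (min_le_right _ _) (by linarith))
  have χf' : ∀ w, c < f w → 1 / 2 < χ w := by
    intro w hw
    have h1 : 0 < (f w - c) / (2 * e) := div_pos (by linarith) (by linarith)
    show 1 / 2 < max 0 (min 1 (1 / 2 + (f w - c) / (2 * e)))
    exact lt_of_lt_of_le (lt_min (by norm_num) (by linarith)) (le_max_right _ _)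
  have χc : ∀ w, f w = c → χ w = 1 / 2 := by
    intro w hw
    show max 0 (min 1 (1 / 2 + (f w - c) / (2 * e))) = 1 / 2
    rw [hw, sub_self, zero_div, add_zero, min_eq_right (by norm_num), max_eq_right (by norm_num)]
  have χhalf : ∀ w, χ w = 1 / 2 → f w = c := by
    intro w hw
    rcases lt_trichotomy (f w) c with h | h | h
    · have := χf w h; linarith
    · exact h
    · have := χf' w h; linarith
  have χfr : ∀ w ∈ frontier N, (χ w : AddCircle (1 : ℝ)) = 0 := by
    intro w hw
    have h1 := hfe w hw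
    rcases le_abs.1 h1 with h | h
    · have h2 : 1 / 2 ≤ (f w - c) / (2 * e) := by
        rw [le_div_iff₀ (by linarith)]
        linarith
      have h3 : χ w = 1 := by
        show max 0 (min 1 (1 / 2 + (f w - c) / (2 * e))) = 1
        rw [min_eq_left (by linarith), max_eq_right zero_le_one]
      rw [h3]
      exact_mod_cast js_zero 1
    · have h2 : (f w - c) / (2 * e) ≤ -(1 / 2) := by
        rw [div_le_iff₀ (by linarith)]
        linarith
      have h3 : χ w = 0 := by
        show max 0 (min 1 (1 / 2 + (f w - c) / (2 * e))) = 0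
        exact max_eq_left ((min_le_right _ _).trans (by linarith))
      rw [h3]
      exact_mod_cast js_zero 0
  set ψ : Cyl → AddCircle (1 : ℝ) := fun w => if w ∈ closure N then ((χ w : ℝ) : AddCircle (1 : ℝ)) else 0 with hψ
  have cψ : Continuous ψ := by
    rw [hψ]
    refine Continuous.if ?_ ((AddCircle.continuous_mk' 1).comp cχ) continuous_const
    intro w hw
    exact χfr w (frontier_closure_subset hw)
  obtain ⟨M, -, hM⟩ := cpt_bd cN
  obtain ⟨G, cG, hG⟩ := cyl_lift cψ (M := M) (fun w hw => by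
    have h1 : w ∉ closure N := fun h => by
      have := hM w h
      have := le_abs_self w.2
      linarith
    simp only [hψ, if_neg h1])
  have ψin : ∀ w ∈ closure N, ψ w = ((χ w : ℝ) : AddCircle (1 : ℝ)) := fun w hw => by simp only [hψ, if_pos hw]
  have ψout : ∀ w, w ∉ closure N → ψ w = 0 := fun w hw => by simp only [hψ, if_neg hw]
  have hΓc : ∀ w ∈ Γ, w ∈ closure N ∧ f w = c := fun w hw => by
    have h := hw
    rw [← hlev] at h
    exact h
  obtain ⟨w0, hw0⟩ := hΓ.nonempty
  have hu0 : ∀ x ∈ Γ, (((G x - 1 / 2 : ℝ)) : AddCircle (1 : ℝ)) = 0 := by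
    intro x hx
    rw [AddCircle.coe_sub, hG x, ψin x (hΓc x hx).1, χc x (hΓc x hx).2, sub_self]
  obtain ⟨-, k, hk⟩ := int_const hΓ.isPreconnected (u := fun x => G x - 1 / 2)
    ((cG.sub continuous_const).continuousOn) hu0 hw0 hw0
  have hGk : ∀ w ∈ Γ, G w = k + 1 / 2 := by
    intro w hw
    have h1 := (int_const hΓ.isPreconnected (u := fun x => G x - 1 / 2)
      ((cG.sub continuous_const).continuousOn) hu0 hw hw0).1
    have hk' : G w0 - 1 / 2 = k := hk
    have h1' : G w - 1 / 2 = G w0 - 1 / 2 := h1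
    linarith
  refine ⟨{w | G w < k + 1 / 2}, {w | (k : ℝ) + 1 / 2 < G w}, N ∩ {w | |G w - (k + 1 / 2)| < 1 / 2},
    isOpen_lt cG continuous_const, isOpen_lt continuous_const cG, ?_, ?_, ?_, ?_, ?_⟩
  · rw [Set.disjoint_left]
    intro w h1 h2
    exact lt_asymm (show G w < k + 1 / 2 from h1) h2
  · ext w
    show (G w < k + 1 / 2 ∨ (k : ℝ) + 1 / 2 < G w) ↔ w ∉ Γ
    constructor
    · intro h hw
      have := hGk w hw
      rcases h with h | h <;> linarith
    · intro hw
      by_contra hcon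
      push Not at hcon
      have hGw : G w = k + 1 / 2 := le_antisymm hcon.2 hcon.1
      apply hw
      rw [← hlev]
      have h1 : w ∈ closure N := by
        by_contra hn
        have h2 := hG w
        rw [ψout w hn, hGw] at h2
        obtain ⟨n, hn⟩ := js_int h2
        have h3 : (2 * k + 1 : ℤ) = 2 * n := by
          have : (2 * (k : ℝ) + 1) = 2 * n := by linarith
          exact_mod_cast this
        omega
      refine ⟨h1, χhalf w ?_⟩
      have h2 := hG w
      rw [ψin w h1] at h2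
      have h3 : (((G w - χ w : ℝ)) : AddCircle (1 : ℝ)) = 0 := by rw [AddCircle.coe_sub, h2, sub_self]
      obtain ⟨n, hn⟩ := js_int h3
      have h4 : χ w = 1 / 2 + ((k - n : ℤ) : ℝ) := by push_cast; linarith
      have h5 := χ0 w
      have h6 := χ1 w
      have h7 : k - n = 0 := by
        have h8 : ((k - n : ℤ) : ℝ) < 1 := by linarith
        have h9 : (-1 : ℝ) < ((k - n : ℤ) : ℝ) := by linarith
        have h10 : k - n < 1 := by exact_mod_cast h8
        have h11 : -1 < k - n := by exact_mod_cast h9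
        omega
      rw [h4, h7]
      norm_num
  · exact hN.inter (isOpen_lt ((cG.sub continuous_const).abs) continuous_const)
  · intro w hw
    refine ⟨hΓN hw, ?_⟩
    show |G w - (k + 1 / 2)| < 1 / 2
    rw [hGk w hw]
    norm_num
  · rintro w ⟨hwN, hw⟩
    have hw' : |G w - (k + 1 / 2)| < 1 / 2 := hw
    have h1 : w ∈ closure N := subset_closure hwN
    have h2 := hG w
    rw [ψin w h1] at h2
    have h3 : (((G w - χ w : ℝ)) : AddCircle (1 : ℝ)) = 0 := by rw [AddCircle.coe_sub, h2, sub_self]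
    obtain ⟨n, hn⟩ := js_int h3
    rw [abs_lt] at hw'
    have h5 := χ0 w
    have h6 := χ1 w
    have h7 : n = k := by
      have h8 : ((n : ℝ)) < k + 1 := by linarith [hw'.2]
      have h9 : (k : ℝ) - 1 < n := by linarith [hw'.1]
      have h10 : n < k + 1 := by exact_mod_cast h8
      have h11 : k - 1 < n := by exact_mod_cast h9
      omega
    rw [h7] at hn
    constructor
    · intro hf
      show G w < k + 1 / 2
      have := χf w hf
      linarith
    · intro hf
      show (k : ℝ) + 1 / 2 < G w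
      have := χf' w hf
      linarith

end H25S
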