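import Pool.Agent.Lib.H25S.T4

/-!
# Chunk T5 (S)
`rf` is a homeomorphism and an involution (`rf (rf w) = w`), it exchanges the ends. `dn_eq`: image of the sets `S` under `rf`. All other statements follow from `T4` for `rf '' K` (`dn_eq`) or can be proved in the same way.
-/

namespace H25S

open MeasureTheory H83D Set Filter Topology

theorem rf_rf (w : Cyl) : rf (rf w) = w := by
  simp [rf]

theorem rf_cont : Continuous rf := by
  unfold rf
  exact continuous_fst.prodMk continuous_snd.neg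

/-- `rf` as a homeomorphism -/
noncomputable def t5_hom : Cyl ≃ₜ Cyl where
  toFun := rf
  invFun := rf
  left_inv := rf_rf
  right_inv := rf_rf
  continuous_toFun := rf_cont
  continuous_invFun := rf_cont

theorem t5_inj : Function.Injective rf := t5_hom.injective

theorem t5_img (K : Set Cyl) : rf '' (rf '' K) = K := by
  rw [← Set.image_comp]
  have h : rf ∘ rf = id := funext rf_rf
  rw [h, Set.image_id]

theorem t5_up {K : Set Cyl} {z : Cyl} (hz : z ∈ Up K) : rf z ∈ Dn (rf '' K) := by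
  obtain ⟨S, h1, h2, h3, M, h4⟩ := hz
  refine ⟨rf '' S, h1.image _ rf_cont.continuousOn, (Set.disjoint_image_iff t5_inj).mpr h2,
    Set.mem_image_of_mem _ h3, -M, fun w hw => ?_⟩
  have h5 : rf w ∈ S := h4 (rf w) (by simp only [rf]; linarith)
  have h6 := Set.mem_image_of_mem rf h5
  rwa [rf_rf] at h6

theorem t5_dn {K : Set Cyl} {z : Cyl} (hz : z ∈ Dn K) : rf z ∈ Up (rf '' K) := by
  obtain ⟨S, h1, h2, h3, M, h4⟩ := hz
  refine ⟨rf '' S, h1.image _ rf_cont.continuousOn, (Set.disjoint_image_iff t5_inj).mpr h2,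
    Set.mem_image_of_mem _ h3, -M, fun w hw => ?_⟩
  have h5 : rf w ∈ S := h4 (rf w) (by simp only [rf]; linarith)
  have h6 := Set.mem_image_of_mem rf h5
  rwa [rf_rf] at h6

theorem dn_eq (K : Set Cyl) : Dn K = rf '' Up (rf '' K) := by
  ext z
  constructor
  · intro hz
    exact ⟨rf z, t5_dn hz, rf_rf z⟩
  · rintro ⟨y, hy, rfl⟩
    have h := t5_up hy
    rwa [t5_img] at h

theorem up_eq (K : Set Cyl) : Up K = rf '' Dn (rf '' K) := by
  ext z
  constructor
  · intro hz
    exact ⟨rf z, t5_up hz, rf_rf z⟩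
  · rintro ⟨y, hy, rfl⟩
    have h := t5_dn hy
    rwa [t5_img] at h

theorem t5_closed {K : Set Cyl} (hK : IsClosed K) : IsClosed (rf '' K) :=
  t5_hom.isClosedMap K hK

theorem dn_end {K : Set Cyl} {M : ℝ} (hK : ∀ w ∈ K, M < w.2) : ∀ w : Cyl, w.2 ≤ M → w ∈ Dn K := by
  intro w hw
  have h1 : ∀ v ∈ rf '' K, v.2 < -M := by
    rintro v ⟨y, hy, rfl⟩
    have := hK y hy
    simp only [rf]
    linarith
  have h2 := up_end h1 (rf w) (by simp only [rf]; linarith)
  rw [dn_eq]
  exact ⟨rf w, h2, rf_rf w⟩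

theorem dn_open {K : Set Cyl} (hK : IsClosed K) : IsOpen (Dn K) := by
  rw [dn_eq]
  exact t5_hom.isOpenMap _ (up_open (t5_closed hK))

theorem dn_conn {K : Set Cyl} (hK : IsCompact K) : IsConnected (Dn K) := by
  rw [dn_eq]
  exact (up_conn (hK.image rf_cont)).image _ rf_cont.continuousOn

theorem dn_disj (K : Set Cyl) : Disjoint (Dn K) K := by
  rw [Set.disjoint_left]
  rintro z ⟨S, h1, h2, h3, M, h4⟩ hz
  exact Set.disjoint_left.mp h2 h3 hz

theorem dn_max {K S : Set Cyl} (hS : IsPreconnected S) (hd : Disjoint S K) (hn : (S ∩ Dn K).Nonempty) : S ⊆ Dn K := by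
  obtain ⟨z, hz1, hz2⟩ := hn
  have h1 : rf '' S ⊆ Up (rf '' K) :=
    up_max (hS.image _ rf_cont.continuousOn) ((Set.disjoint_image_iff t5_inj).mpr hd)
      ⟨rf z, Set.mem_image_of_mem _ hz1, t5_dn hz2⟩
  intro w hw
  rw [dn_eq]
  exact ⟨rf w, h1 (Set.mem_image_of_mem _ hw), rf_rf w⟩

theorem dn_front {K : Set Cyl} (hK : IsClosed K) : frontier (Dn K) ⊆ K := by
  have h1 : frontier (Dn K) = rf '' frontier (Up (rf '' K)) := by
    rw [dn_eq]
    exact (t5_hom.image_frontier _).symm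
  rw [h1]
  have h2 := Set.image_mono (f := rf) (up_front (t5_closed hK))
  rwa [t5_img] at h2

theorem dn_anti {K K' : Set Cyl} (h : K ⊆ K') : Dn K' ⊆ Dn K := by
  rintro z ⟨S, h1, h2, h3, M, h4⟩
  exact ⟨S, h1, h2.mono_right h, h3, M, h4⟩

theorem sep_rf (K : Set Cyl) : Sep (rf '' K) ↔ Sep K := by
  have h1 : Up (rf '' K) = rf '' Dn K := by rw [up_eq, t5_img]
  have h2 : Dn (rf '' K) = rf '' Up K := by rw [dn_eq, t5_img]
  unfold Sep
  rw [h1, h2, Set.disjoint_image_iff t5_inj]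
  exact disjoint_comm

theorem sep_mono {K K' : Set Cyl} (h : K ⊆ K') (hK : Sep K) : Sep K' :=
  hK.mono (up_anti h) (dn_anti h)

end H25S
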