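import Pool.Agent.Lib.H25S.T2
import Pool.Agent.Lib.H25S.T5

/-!
# Chunk K1 (S)
`thk r K` is the image of `K ×ˢ (Icc (-r) r ×ˢ Icc (-r) r)` under a continuous map. `thk_sl`: `w = pr z` (`pr_surj`), `pr z + pr ζ = pr (z + ζ)`, `‖ζ‖ ≤ r` (sup norm). `thk_rf`: `rf (w + pr ζ) = rf w + pr (ζ.1, -ζ.2)`.
-/

namespace H25S

open MeasureTheory H83D Set Filter Topology

theorem thk_cpt {K : Set Cyl} (hK : IsCompact K) (r : ℝ) : IsCompact (thk r K) := by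
  unfold thk
  exact (hK.prod (isCompact_Icc.prod isCompact_Icc)).image
    (continuous_fst.add (pr_cont.comp continuous_snd))

theorem thk_con {K : Set Cyl} (hK : IsConnected K) {r : ℝ} (hr : 0 ≤ r) : IsConnected (thk r K) := by
  unfold thk
  have h1 : IsConnected (Set.Icc (-r) r) := isConnected_Icc (by linarith)
  exact (hK.prod (h1.prod h1)).image _
    (continuous_fst.add (pr_cont.comp continuous_snd)).continuousOn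

theorem thk_sub (K : Set Cyl) {r : ℝ} (hr : 0 ≤ r) : K ⊆ thk r K := by
  intro w hw
  refine ⟨(w, (0, 0)), ⟨hw, ⟨⟨by simpa using hr, by simpa using hr⟩, ⟨by simpa using hr, by simpa using hr⟩⟩⟩, ?_⟩
  have h1 : pr (0, 0) = 0 := by
    simp only [pr]
    rfl
  show w + pr (0, 0) = w
  rw [h1, add_zero]

theorem thk_sl {f : ℝ × ℝ → ℝ} (hf : ∀ (z : ℝ × ℝ) (k : ℤ × ℤ), f (z + iv k) = f z) {L : ℝ}
    (hL : ∀ z ζ : ℝ × ℝ, |f (z + ζ) - f z| ≤ L * ‖ζ‖) (hL0 : 0 ≤ L) {K : Set Cyl} {c r : ℝ} (h : K ⊆ SL f c) :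
    thk r K ⊆ SL f (c - L * r) := by
  rintro w ⟨⟨w', ζ⟩, ⟨hw', hζ⟩, rfl⟩
  obtain ⟨z, rfl⟩ := pr_surj w'
  have h1 : c ≤ f z := (mem_sl hf c z).mp (h hw')
  show pr z + pr ζ ∈ SL f (c - L * r)
  rw [← pr_add, mem_sl hf]
  have h2 : ‖ζ‖ ≤ r := by
    obtain ⟨⟨a1, a2⟩, ⟨b1, b2⟩⟩ := hζ
    rw [Prod.norm_def]
    apply max_le
    · rw [Real.norm_eq_abs]
      exact abs_le.mpr ⟨a1, a2⟩
    · rw [Real.norm_eq_abs]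
      exact abs_le.mpr ⟨b1, b2⟩
  have h3 := abs_le.mp (hL z ζ)
  have h4 : L * ‖ζ‖ ≤ L * r := mul_le_mul_of_nonneg_left h2 hL0
  linarith [h3.1]

theorem thk_rf (r : ℝ) (K : Set Cyl) : thk r (rf '' K) = rf '' thk r K := by
  have key : ∀ (w : Cyl) (a b : ℝ), rf w + pr (a, -b) = rf (w + pr (a, b)) := by
    intro w a b
    apply Prod.ext
    · simp [rf, pr]
    · simp only [rf, pr, Prod.snd_add]
      ring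
  ext w
  constructor
  · rintro ⟨⟨w', ζ⟩, ⟨⟨u, hu, rfl⟩, hζ⟩, rfl⟩
    obtain ⟨⟨a1, a2⟩, ⟨b1, b2⟩⟩ := hζ
    refine ⟨u + pr (ζ.1, -ζ.2), ⟨(u, (ζ.1, -ζ.2)), ⟨hu, ⟨⟨a1, a2⟩, ⟨?_, ?_⟩⟩⟩, rfl⟩, ?_⟩
    · show -r ≤ -ζ.2
      linarith [b2]
    · show -ζ.2 ≤ r
      linarith [b1]
    · show rf (u + pr (ζ.1, -ζ.2)) = rf u + pr ζ
      rw [← key u ζ.1 (-ζ.2), neg_neg]
  · rintro ⟨v, ⟨⟨u, ζ⟩, ⟨hu, hζ⟩, rfl⟩, rfl⟩
    obtain ⟨⟨a1, a2⟩, ⟨b1, b2⟩⟩ := hζ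
    refine ⟨(rf u, (ζ.1, -ζ.2)), ⟨⟨u, hu, rfl⟩, ⟨⟨a1, a2⟩, ⟨?_, ?_⟩⟩⟩, ?_⟩
    · show -r ≤ -ζ.2
      linarith [b2]
    · show -ζ.2 ≤ r
      linarith [b1]
    · show rf u + pr (ζ.1, -ζ.2) = rf (u + pr ζ)
      exact key u ζ.1 ζ.2

end H25S
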