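import Pool.Agent.Lib.H25S.O1
import Pool.Agent.Lib.H25S.K1

/-!
# Chunk K2 (M)
`D = (Up K)ᶜ`, `D' = (Up (thk r K))ᶜ ⊇ D` (`up_anti`, `thk_sub`), both `Low` and closed. `ar_diff`: it is enough that `r ≤ volume (D' \ D)`. For `x : AddCircle 1` the slice `{y | (x, y) ∈ D}` is closed, contains `Iic (-M)` and is bounded above; let `y` be its supremum, `(x, y) ∈ D`, and
`(x, y + t) ∈ Up K` for `t > 0`. So `(x, y) ∈ closure (Up K) \ Up K ⊆ frontier (Up K) ⊆ K` (`up_front`, open), and for `0 < t ≤ r` the point `(x, y + t) = (x, y) + pr (0, t)` is in `thk r K`, hence in `D'` (`up_disj`), and not in `D`. So the slice of `D' \ D` contains `Ioc y (y + r)`. `Measure.prod_apply`,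
`volume univ = 1` on `AddCircle 1`. `aL_thk`: reflection (`aL_rf`, `thk_rf`, `sep_rf`).
-/

namespace H25S

open MeasureTheory H83D Set Filter Topology

theorem k2_slice {K : Set Cyl} (hK : IsCompact K) (hs : Sep K) {r : ℝ} (x : AddCircle (1 : ℝ)) :
    ∃ y : ℝ, Ioc y (y + r) ⊆ Prod.mk x ⁻¹' ((Up (thk r K))ᶜ \ (Up K)ᶜ) := by
  obtain ⟨M, hM1, hM2⟩ := (sep_low hK hs).1
  have hop : IsOpen (Up K) := up_open hK.isClosed
  have hcl : IsClosed {y : ℝ | (x, y) ∈ (Up K)ᶜ} :=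
    hop.isClosed_compl.preimage (Continuous.prodMk_right x)
  have hne : {y : ℝ | (x, y) ∈ (Up K)ᶜ}.Nonempty := ⟨-M, hM1 (x, -M) le_rfl⟩
  have hbd : BddAbove {y : ℝ | (x, y) ∈ (Up K)ᶜ} := by
    refine ⟨M, fun y hy => ?_⟩
    by_contra h
    exact hM2 (x, y) (not_le.1 h).le hy
  have hy0 : (x, sSup {y : ℝ | (x, y) ∈ (Up K)ᶜ}) ∈ (Up K)ᶜ := hcl.csSup_mem hne hbd
  have habove : ∀ t : ℝ, sSup {y : ℝ | (x, y) ∈ (Up K)ᶜ} < t → (x, t) ∈ Up K := by
    intro t ht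
    by_contra h
    exact absurd (le_csSup hbd (show t ∈ {y : ℝ | (x, y) ∈ (Up K)ᶜ} from h)) (not_le.2 ht)
  have hK0 : (x, sSup {y : ℝ | (x, y) ∈ (Up K)ᶜ}) ∈ K := by
    refine up_front hK.isClosed ?_
    rw [hop.frontier_eq]
    refine ⟨?_, hy0⟩
    have hc : Continuous (fun t : ℝ => ((x, t) : Cyl)) := Continuous.prodMk_right x
    have h1 : Tendsto (fun t : ℝ => ((x, t) : Cyl)) (𝓝[>] (sSup {y : ℝ | (x, y) ∈ (Up K)ᶜ}))
        (𝓝 (x, sSup {y : ℝ | (x, y) ∈ (Up K)ᶜ})) := hc.continuousAt.tendsto.mono_left nhdsWithin_le_nhds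
    refine mem_closure_of_tendsto h1 ?_
    filter_upwards [self_mem_nhdsWithin] with t ht
    exact habove t ht
  refine ⟨sSup {y : ℝ | (x, y) ∈ (Up K)ᶜ}, fun t ht => ?_⟩
  refine ⟨?_, fun h => h (habove t ht.1)⟩
  have h2 : ((x, t) : Cyl) ∈ thk r K := by
    refine ⟨((x, sSup {y : ℝ | (x, y) ∈ (Up K)ᶜ}), (0, t - sSup {y : ℝ | (x, y) ∈ (Up K)ᶜ})), ⟨hK0, ?_, ?_⟩, ?_⟩
    · have h3 := ht.1
      have h4 := ht.2
      constructor
      · show -r ≤ 0
        linarith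
      · show 0 ≤ r
        linarith
    · have h3 := ht.1
      have h4 := ht.2
      constructor
      · show -r ≤ t - sSup {y : ℝ | (x, y) ∈ (Up K)ᶜ}
        linarith
      · show t - sSup {y : ℝ | (x, y) ∈ (Up K)ᶜ} ≤ r
        linarith
    · show (x, sSup {y : ℝ | (x, y) ∈ (Up K)ᶜ}) + pr (0, t - sSup {y : ℝ | (x, y) ∈ (Up K)ᶜ}) = (x, t)
      apply Prod.ext
      · show x + ((0 : ℝ) : AddCircle (1 : ℝ)) = x
        rw [AddCircle.coe_zero, add_zero]
      · show sSup {y : ℝ | (x, y) ∈ (Up K)ᶜ} + (t - sSup {y : ℝ | (x, y) ∈ (Up K)ᶜ}) = t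
        ring
  exact fun h => Set.disjoint_left.1 (up_disj (thk r K)) h h2

theorem aU_thk {K : Set Cyl} (hK : IsCompact K) (hs : Sep K) {r : ℝ} (hr : 0 ≤ r) : aU K + r ≤ aU (thk r K) := by
  have hs' : Sep (thk r K) := sep_mono (thk_sub K hr) hs
  have hK' : IsCompact (thk r K) := thk_cpt hK r
  have hD := (sep_low hK hs).1
  have hD' := (sep_low hK' hs').1
  have mD : MeasurableSet (Up K)ᶜ := (up_open hK.isClosed).measurableSet.compl
  have mD' : MeasurableSet (Up (thk r K))ᶜ := (up_open hK'.isClosed).measurableSet.compl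
  have hsub : (Up K)ᶜ ⊆ (Up (thk r K))ᶜ := Set.compl_subset_compl.2 (up_anti (thk_sub K hr))
  have h1 := ar_diff hD hD' mD mD'
  rw [Set.diff_eq_empty.2 hsub, measure_empty, ENNReal.toReal_zero, sub_zero] at h1
  have hfin := low_diff hD hD'
  have h2 : ENNReal.ofReal r ≤ volume ((Up (thk r K))ᶜ \ (Up K)ᶜ) := by
    rw [Measure.volume_eq_prod, Measure.prod_apply (mD'.diff mD)]
    have h3 : ∀ x : AddCircle (1 : ℝ),
        ENNReal.ofReal r ≤ volume (Prod.mk x ⁻¹' ((Up (thk r K))ᶜ \ (Up K)ᶜ)) := by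
      intro x
      obtain ⟨y, hy⟩ := k2_slice (r := r) hK hs x
      refine le_trans ?_ (measure_mono hy)
      rw [Real.volume_Ioc]
      refine ENNReal.ofReal_le_ofReal ?_
      linarith
    refine le_trans ?_ (lintegral_mono h3)
    rw [lintegral_const, AddCircle.measure_univ, ENNReal.ofReal_one, mul_one]
  have h4 : r ≤ (volume ((Up (thk r K))ᶜ \ (Up K)ᶜ)).toReal :=
    (ENNReal.ofReal_le_iff_le_toReal hfin.ne).1 h2
  unfold aU
  rw [h1]
  linarith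

theorem aL_thk {K : Set Cyl} (hK : IsCompact K) (hs : Sep K) {r : ℝ} (hr : 0 ≤ r) : aL (thk r K) ≤ aL K - r := by
  have hs' : Sep (thk r K) := sep_mono (thk_sub K hr) hs
  have hK' : IsCompact (thk r K) := thk_cpt hK r
  rw [aL_rf hK' hs', aL_rf hK hs, ← thk_rf]
  have h1 := aU_thk (hK.image rf_cont) ((sep_rf K).2 hs) hr
  linarith

end H25S
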