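import Pool.Agent.Lib.H25S.T2
import Pool.Agent.Lib.H25S.O1

/-!
# Chunk O3 (M)
`ess_sh`: translate `K` (`dsc_sh`, `aU_sh`, `aL_sh`, `sep_sh`). `ess_min`: the circle `K = {w | w.2 = a}` (image of the compact connected `univ ×ˢ {a}`): `Up K = {w | a < w.2}` and `Dn K = {w | w.2 < a}` (the sets are connected and disjoint from `K`; a preconnected set disjoint from `K` is on one side:
image under `Prod.snd`), `ar {w | w.2 ≤ a} = a = ar {w | w.2 < a}` (`ar_eq`, `vol_strip`, `vol_line`). `ess_le`: `K` is nonempty. `ess_rf`: reflect.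
-/

namespace H25S

open MeasureTheory H83D Set Filter Topology

theorem ess_mono {f : ℝ × ℝ → ℝ} {c c' a : ℝ} (h : c' ≤ c) (he : Ess f c a) : Ess f c' a := by
  obtain ⟨K, h1, h2, h3, h4⟩ := he
  exact ⟨K, h1, h2, fun w hw => h.trans (h3 hw), h4⟩

theorem ess_sh {f : ℝ × ℝ → ℝ} (hf : ∀ (z : ℝ × ℝ) (k : ℤ × ℤ), f (z + iv k) = f z) {c a : ℝ} (he : Ess f c a) (j : ℤ) :
    Ess f c (a + j) := by
  obtain ⟨K, h1, h2, h3, h4, h5, h6⟩ := he
  refine ⟨sh j '' K, h1.image (sh_cont j), h2.image _ (sh_cont j).continuousOn, ?_, sep_sh j h4, ?_, ?_⟩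
  · rintro w ⟨v, hv, rfl⟩
    change c ≤ dsc f (sh j v)
    rw [dsc_sh hf]
    exact h3 hv
  · rw [aL_sh h1 h4]; linarith
  · rw [aU_sh h1 h4]; linarith

theorem o3_side {S : Set Cyl} {a : ℝ} (hS : IsPreconnected S) (hd : Disjoint S {w : Cyl | w.2 = a}) {z z' : Cyl}
    (hz : z ∈ S) (hz' : z' ∈ S) (h : a < z'.2) : a < z.2 := by
  by_contra hn
  rw [not_lt] at hn
  have hp : IsPreconnected (Prod.snd '' S) := hS.image _ continuous_snd.continuousOn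
  obtain ⟨w, hw, hwa⟩ := hp.ordConnected.out ⟨z, hz, rfl⟩ ⟨z', hz', rfl⟩ ⟨hn, h.le⟩
  exact Set.disjoint_left.1 hd hw hwa

theorem o3_side' {S : Set Cyl} {a : ℝ} (hS : IsPreconnected S) (hd : Disjoint S {w : Cyl | w.2 = a}) {z z' : Cyl}
    (hz : z ∈ S) (hz' : z' ∈ S) (h : z'.2 < a) : z.2 < a := by
  by_contra hn
  rw [not_lt] at hn
  have hp : IsPreconnected (Prod.snd '' S) := hS.image _ continuous_snd.continuousOn
  obtain ⟨w, hw, hwa⟩ := hp.ordConnected.out ⟨z', hz', rfl⟩ ⟨z, hz, rfl⟩ ⟨h.le, hn⟩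
  exact Set.disjoint_left.1 hd hw hwa

theorem o3_up (a : ℝ) : Up {w : Cyl | w.2 = a} = {w : Cyl | a < w.2} := by
  ext z
  constructor
  · rintro ⟨S, hS, hd, hz, M, hM⟩
    have h1 : ((0 : AddCircle (1 : ℝ)), max M (a + 1)) ∈ S := hM _ (le_max_left _ _)
    refine o3_side hS hd hz h1 ?_
    exact lt_of_lt_of_le (lt_add_one a) (le_max_right _ _)
  · intro hz
    refine ⟨(univ : Set (AddCircle (1 : ℝ))) ×ˢ Ioi a, (t3_conn.prod isConnected_Ioi).isPreconnected, ?_, ⟨mem_univ _, hz⟩,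
      a + 1, fun w hw => ⟨mem_univ _, lt_of_lt_of_le (lt_add_one a) hw⟩⟩
    rw [Set.disjoint_left]
    rintro w ⟨_, hw⟩ hw'
    exact absurd (show w.2 = a from hw') (ne_of_gt hw)

theorem o3_dn (a : ℝ) : Dn {w : Cyl | w.2 = a} = {w : Cyl | w.2 < a} := by
  ext z
  constructor
  · rintro ⟨S, hS, hd, hz, M, hM⟩
    have h1 : ((0 : AddCircle (1 : ℝ)), min M (a - 1)) ∈ S := hM _ (min_le_left _ _)
    refine o3_side' hS hd hz h1 ?_
    exact lt_of_le_of_lt (min_le_right _ _) (sub_one_lt a)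
  · intro hz
    refine ⟨(univ : Set (AddCircle (1 : ℝ))) ×ˢ Iio a, (t3_conn.prod isConnected_Iio).isPreconnected, ?_, ⟨mem_univ _, hz⟩,
      a - 1, fun w hw => ⟨mem_univ _, lt_of_le_of_lt hw (sub_one_lt a)⟩⟩
    rw [Set.disjoint_left]
    rintro w ⟨_, hw⟩ hw'
    exact absurd (show w.2 = a from hw') (ne_of_lt hw)

theorem ess_min {f : ℝ × ℝ → ℝ} {c : ℝ} (h : ∀ z, c ≤ f z) (a : ℝ) : Ess f c a := by
  have e : {w : Cyl | w.2 = a} = (univ : Set (AddCircle (1 : ℝ))) ×ˢ {a} := by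
    ext w; simp
  have hK : IsCompact {w : Cyl | w.2 = a} := by
    rw [e]; exact isCompact_univ.prod isCompact_singleton
  have cK : IsConnected {w : Cyl | w.2 = a} := by
    rw [e]; exact t3_conn.prod isConnected_singleton
  have hs : Sep {w : Cyl | w.2 = a} := by
    rw [Sep, o3_up, o3_dn, Set.disjoint_left]
    intro w hw hw'
    exact lt_asymm (show a < w.2 from hw) hw'
  have hU : aU {w : Cyl | w.2 = a} = a := by
    have e2 : (Up {w : Cyl | w.2 = a})ᶜ = {w : Cyl | w.2 ≤ a} := by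
      rw [o3_up]; ext w; simp
    have hl : Low {w : Cyl | w.2 ≤ a} := e2 ▸ (sep_low hK hs).1
    have hm : MeasurableSet {w : Cyl | w.2 ≤ a} := e2 ▸ o1_mU hK
    rw [aU, e2, ar_eq hm (abs_nonneg a) (fun w hw => hw.trans (neg_abs_le a)) hl]
    have e3 : {w : Cyl | w.2 ≤ a} ∩ {w | -|a| < w.2} = {w : Cyl | -|a| < w.2 ∧ w.2 ≤ a} := by
      ext w; simp [and_comm]
    have h5 : -|a| ≤ a := neg_abs_le a
    rw [e3, vol_strip h5, ENNReal.toReal_ofReal (by linarith)]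
    ring
  refine ⟨{w : Cyl | w.2 = a}, hK, cK, fun w _ => h (lft w), hs, ?_, hU.ge⟩
  exact (aL_le_aU hK hs).trans hU.le

theorem ess_le {f : ℝ × ℝ → ℝ} {c a B : ℝ} (he : Ess f c a) (h : ∀ z, f z ≤ B) : c ≤ B := by
  obtain ⟨K, _, h2, h3, _⟩ := he
  obtain ⟨w, hw⟩ := h2.nonempty
  exact le_trans (show c ≤ dsc f w from h3 hw) (h (lft w))

theorem ess_level {f g : ℝ × ℝ → ℝ} {c a d : ℝ} (h : ∀ z, f z - d ≤ g z) (he : Ess f c a) : Ess g (c - d) a := by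
  obtain ⟨K, h1, h2, h3, h4⟩ := he
  refine ⟨K, h1, h2, fun w hw => ?_, h4⟩
  have h5 : c ≤ f (lft w) := h3 hw
  have h6 := h (lft w)
  change c - d ≤ g (lft w)
  linarith

theorem ess_rf {f : ℝ × ℝ → ℝ} (hf : ∀ (z : ℝ × ℝ) (k : ℤ × ℤ), f (z + iv k) = f z) {c a : ℝ} (he : Ess f c a) :
    Ess (fun z => f (z.1, -z.2)) c (-a) := by
  obtain ⟨K, h1, h2, h3, h4, h5, h6⟩ := he
  have hg : ∀ (z : ℝ × ℝ) (k : ℤ × ℤ), (fun z : ℝ × ℝ => f (z.1, -z.2)) (z + iv k) = (fun z : ℝ × ℝ => f (z.1, -z.2)) z := by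
    intro z k
    change f ((z + iv k).1, -(z + iv k).2) = f (z.1, -z.2)
    rw [← hf (z.1, -z.2) (k.1, -k.2)]
    congr 1
    ext
    · simp [iv]
    · simp [iv]; ring
  have hrp : ∀ z : ℝ × ℝ, rf (pr z) = pr (z.1, -z.2) := fun z => rfl
  refine ⟨rf '' K, h1.image rf_cont, h2.image _ rf_cont.continuousOn, ?_, (sep_rf K).2 h4, ?_, ?_⟩
  · rintro w ⟨v, hv, rfl⟩
    obtain ⟨z, rfl⟩ := pr_surj v
    change c ≤ dsc _ (rf (pr z))
    rw [hrp, dsc_pr hg]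
    have h7 : c ≤ dsc f (pr z) := h3 hv
    rw [dsc_pr hf] at h7
    simpa using h7
  · have := aU_rf h1 h4
    linarith
  · have := aL_rf h1 h4
    linarith

end H25S
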