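import Pool.Agent.Lib.H25S.Defs3
import Pool.Agent.Lib.H25S.A1
import Pool.Agent.Lib.H25S.E1
import Pool.Agent.Lib.H25S.E2
import Pool.Agent.Lib.H25S.T2

/-!
# Chunk P1 (M)
`c' = (c₁ + c) / 2`, `O = {w | c' < dsc (H s) w}` open, `K ⊆ O`; `JoinedIn (pr ⁻¹' O) z z'` gives `JoinedIn {x | c' ≤ H s x} z z'` (`dsc_pr`, `JoinedIn.mono`). (a) `Sep K`: by `NoPath` at level `c'` the hypothesis of `log_ex` holds (`iv (k,0)`: `(k,0) = 0 → k = 0`); `log_sep` gives `False`. (b) `w ∈ K ∩ sh j '' K`: `w = sh j w'`, `w' ∈ K`; `joined_lift` from `z' = lft w'`: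
`z` over `w` joined with `z'` in `pr ⁻¹' O`; `pr z = sh j (pr z') = pr (z' + iv (0, j))`, so `z = z' + iv (i, j)` (`pr_eq`), hence `(i, j) = 0`.
-/

namespace H25S

open MeasureTheory H83D Set Filter Topology

theorem p1_setup {H : ℝ → ℝ × ℝ → ℝ} (hH : Ham H) {c₁ c s : ℝ} (hn : NoPath H c₁) (hc : c₁ < c) {K : Set Cyl}
    (hKc : K ⊆ SL (H s) c) : ∃ O : Set Cyl, IsOpen O ∧ K ⊆ O ∧
      ∀ (z : ℝ × ℝ) (k : ℤ × ℤ), JoinedIn (pr ⁻¹' O) z (z + iv k) → k = 0 := by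
  refine ⟨{w | (c₁ + c) / 2 < dsc (H s) w}, ?_, ?_, ?_⟩
  · exact isOpen_lt continuous_const (dsc_cont (ham_p2 hH s).smooth.continuous (hH.per s))
  · intro w hw
    have h : c ≤ dsc (H s) w := hKc hw
    show (c₁ + c) / 2 < dsc (H s) w
    linarith
  · intro z k h
    refine hn s ((c₁ + c) / 2) z k (by linarith) (h.mono ?_)
    intro x hx
    have h1 : (c₁ + c) / 2 < dsc (H s) (pr x) := hx
    rw [dsc_pr (hH.per s)] at h1
    exact h1.le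

theorem np_sep {H : ℝ → ℝ × ℝ → ℝ} (hH : Ham H) {c₁ c s : ℝ} (hn : NoPath H c₁) (hc : c₁ < c) {K : Set Cyl} (hK : IsCompact K)
    (cK : IsConnected K) (hKc : K ⊆ SL (H s) c) : ¬ Sep K := by
  intro hs
  obtain ⟨O, hO, hKO, hno⟩ := p1_setup hH hn hc hKc
  obtain ⟨θ, cθ, hθ⟩ := log_ex hK cK hO hKO (fun z k h => (Prod.mk.inj (hno z (k, 0) h)).1)
  exact log_sep hK hs cθ hθ

theorem np_tr {H : ℝ → ℝ × ℝ → ℝ} (hH : Ham H) {c₁ c s : ℝ} (hn : NoPath H c₁) (hc : c₁ < c) {K : Set Cyl} (hK : IsCompact K)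
    (cK : IsConnected K) (hKc : K ⊆ SL (H s) c) {j : ℤ} (hj : j ≠ 0) : Disjoint K (sh j '' K) := by
  obtain ⟨O, hO, hKO, hno⟩ := p1_setup hH hn hc hKc
  rw [Set.disjoint_left]
  rintro w hw ⟨w', hw', rfl⟩
  obtain ⟨z, hz, hJ⟩ := joined_lift cK.isPreconnected hO hKO hw' hw (pr_lft w')
  have h1 : pr (lft w' + iv (0, j)) = pr z := by
    rw [hz, ← sh_pr, pr_lft]
  obtain ⟨i, hi⟩ := pr_eq.1 h1
  have h2 : z = lft w' + iv (i, j) := by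
    rw [hi, add_assoc]
    congr 1
    ext <;> simp [iv]
  rw [h2] at hJ
  exact hj (Prod.mk.inj (hno _ _ hJ)).2

end H25S
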