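import Pool.Agent.Lib.H25S.K1
import Pool.Agent.Lib.H25S.P1

/-!
# Chunk P2 (M)
`L` of `ham_lip`, `r > 0` with `L r < c - c₁`, `N : ℕ` with `1 / N < r`, `N ≥ 1`, `R = N`. Suppose `w, w' ∈ K`, `w.2 - w'.2 > N`. The image of `K` under `Prod.snd` is an interval: `w i ∈ K` with `(w i).2 = w'.2 + i`, `i = 0, .., N`. Pigeonhole on the fractional parts (cells `[m/N, (m+1)/N)`) of the representatives of `(w i).1 ∈ AddCircle 1` in `[0,1)`: `i < j` with
`(w j).1 - (w i).1 = (t : AddCircle 1)`, `|t| < 1/N < r`. `K' = thk r K` is compact connected, `⊆ SL (H s) (c - L r)`, `c₁ < c - L r`. It contains `w j` and `w i + pr (t, 0) = sh (-(j - i)) (w j)`, so `w j ∈ K' ∩ sh (j - i) '' K'`: contradiction to `np_tr`.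
-/

namespace H25S

open MeasureTheory H83D Set Filter Topology

/-- representatives in the unit interval -/
theorem p2_rep (w : Cyl) : ∃ x : ℝ, 0 ≤ x ∧ x < 1 ∧ pr (x, w.2) = w := by
  obtain ⟨z, rfl⟩ := pr_surj w
  refine ⟨Int.fract z.1, Int.fract_nonneg _, Int.fract_lt_one _, ?_⟩
  rw [pr_eq]
  refine ⟨⌊z.1⌋, ?_⟩
  refine Prod.ext ?_ ?_
  · show z.1 = Int.fract z.1 + ((⌊z.1⌋ : ℤ) : ℝ)
    rw [add_comm]
    exact (Int.floor_add_fract z.1).symm
  · show z.2 = (pr z).2 + ((0 : ℤ) : ℝ)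
    simp [pr]

/-- pigeonhole: two of the `N + 1` numbers are at distance `< 1 / N` -/
theorem p2_pig {N : ℕ} (hN : 1 ≤ N) (x : ℕ → ℝ) (h0 : ∀ i ≤ N, 0 ≤ x i) (h1 : ∀ i ≤ N, x i < 1) :
    ∃ i j : ℕ, i < j ∧ j ≤ N ∧ |x j - x i| < 1 / N := by
  have hNR : (0 : ℝ) < N := by exact_mod_cast hN
  have hmap : ∀ i ∈ Finset.range (N + 1), ⌊(N : ℝ) * x i⌋₊ ∈ Finset.range N := by
    intro i hi
    have hi' : i ≤ N := by
      have := Finset.mem_range.1 hi
      omega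
    rw [Finset.mem_range, Nat.floor_lt (mul_nonneg hNR.le (h0 i hi'))]
    have := mul_lt_mul_of_pos_left (h1 i hi') hNR
    linarith
  have key : ∀ i j : ℕ, i ≤ N → j ≤ N → ⌊(N : ℝ) * x i⌋₊ = ⌊(N : ℝ) * x j⌋₊ → |x j - x i| < 1 / N := by
    intro i j hi hj h
    have a1 := Nat.floor_le (mul_nonneg hNR.le (h0 i hi))
    have a2 := Nat.lt_floor_add_one ((N : ℝ) * x i)
    have a3 := Nat.floor_le (mul_nonneg hNR.le (h0 j hj))
    have a4 := Nat.lt_floor_add_one ((N : ℝ) * x j)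
    rw [h] at a1 a2
    rw [lt_div_iff₀ hNR]
    have a5 : |(N : ℝ) * x j - N * x i| < 1 := by
      rw [abs_lt]
      constructor <;> linarith
    rw [← mul_sub, abs_mul, abs_of_pos hNR] at a5
    linarith
  obtain ⟨i, hi, j, hj, hij, he⟩ := Finset.exists_ne_map_eq_of_card_lt_of_maps_to
    (s := Finset.range (N + 1)) (t := Finset.range N) (by simp) hmap
  have hi' : i ≤ N := by
    have := Finset.mem_range.1 hi
    omega
  have hj' : j ≤ N := by
    have := Finset.mem_range.1 hj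
    omega
  rcases lt_or_gt_of_ne hij with h | h
  · exact ⟨i, j, h, hj', key i j hi' hj' he⟩
  · exact ⟨j, i, h, hi', key j i hj' hi' he.symm⟩

theorem np_height {H : ℝ → ℝ × ℝ → ℝ} (hH : Ham H) {c₁ c : ℝ} (hn : NoPath H c₁) (hc : c₁ < c) :
    ∃ R : ℝ, 0 < R ∧ ∀ (s : ℝ) (K : Set Cyl), IsCompact K → IsConnected K → K ⊆ SL (H s) c → ∀ w ∈ K, ∀ w' ∈ K, w.2 - w'.2 ≤ R := by
  obtain ⟨L, hL1, -, hL⟩ := ham_lip hH
  have hL0 : 0 < L := by linarith
  set r : ℝ := (c - c₁) / (2 * L) with hr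
  have hr0 : 0 < r := div_pos (by linarith) (by linarith)
  have hLr : L * r = (c - c₁) / 2 := by
    rw [hr]
    field_simp
  obtain ⟨N, hN⟩ := exists_nat_gt (max 1 (1 / r))
  have hN1 : (1 : ℝ) < N := (le_max_left _ _).trans_lt hN
  have hNr : 1 / r < (N : ℝ) := (le_max_right _ _).trans_lt hN
  have hNn : 1 ≤ N := by
    have : (1 : ℝ) ≤ (N : ℝ) := hN1.le
    exact_mod_cast this
  have hN0 : (0 : ℝ) < N := by linarith
  have hNr' : 1 / (N : ℝ) < r := by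
    rw [div_lt_iff₀ hN0]
    rw [div_lt_iff₀ hr0] at hNr
    linarith
  refine ⟨N, hN0, fun s K hK cK hKc w hw w' hw' => ?_⟩
  by_contra hgt
  have hgt' : (N : ℝ) < w.2 - w'.2 := not_le.1 hgt
  have himg : OrdConnected (Prod.snd '' K) :=
    (cK.isPreconnected.image _ continuous_snd.continuousOn).ordConnected
  have hpt : ∀ i : ℕ, i ≤ N → ∃ x : ℝ, 0 ≤ x ∧ x < 1 ∧ pr (x, w'.2 + i) ∈ K := by
    intro i hi
    have hiN : (i : ℝ) ≤ N := by exact_mod_cast hi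
    have h1 : w'.2 + i ∈ Prod.snd '' K :=
      himg.out ⟨w', hw', rfl⟩ ⟨w, hw, rfl⟩ ⟨by
        have : (0 : ℝ) ≤ i := Nat.cast_nonneg i
        linarith, by linarith⟩
    obtain ⟨v, hv, hv2⟩ := h1
    obtain ⟨x, hx0, hx1, hx⟩ := p2_rep v
    refine ⟨x, hx0, hx1, ?_⟩
    rw [← hv2, hx]
    exact hv
  choose! x hx0 hx1 hxK using hpt
  obtain ⟨i, j, hij, hj, hd⟩ := p2_pig hNn x hx0 hx1
  have hK' := thk_cpt hK r
  have cK' := thk_con cK hr0.le
  have hKc' : thk r K ⊆ SL (H s) (c - L * r) := thk_sl (hH.per s) (hL s) hL0.le hKc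
  have hne : ((j : ℤ) - (i : ℤ)) ≠ 0 := by
    have : (i : ℤ) < (j : ℤ) := by exact_mod_cast hij
    omega
  have hdis := np_tr hH hn (c := c - L * r) (s := s) (by rw [hLr]; linarith) hK' cK' hKc' hne
  have m1 : pr (x j, w'.2 + j) ∈ thk r K := thk_sub K hr0.le (hxK j hj)
  have m2 : pr (x j, w'.2 + i) ∈ thk r K := by
    refine ⟨(pr (x i, w'.2 + i), (x j - x i, 0)), ⟨hxK i (by omega), ⟨?_, ?_⟩⟩, ?_⟩
    · have := abs_lt.1 hd
      exact ⟨by show -r ≤ x j - x i; linarith, by show x j - x i ≤ r; linarith⟩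
    · exact ⟨by show -r ≤ (0 : ℝ); linarith, by show (0 : ℝ) ≤ r; linarith⟩
    · show pr (x i, w'.2 + i) + pr (x j - x i, 0) = _
      rw [← pr_add]
      congr 1
      refine Prod.ext ?_ ?_
      · show x i + (x j - x i) = x j
        ring
      · show w'.2 + (i : ℝ) + 0 = w'.2 + i
        ring
  refine Set.disjoint_left.1 hdis m1 ⟨pr (x j, w'.2 + i), m2, ?_⟩
  refine Prod.ext rfl ?_
  show w'.2 + (i : ℝ) + (((j : ℤ) - (i : ℤ) : ℤ) : ℝ) = w'.2 + j
  push_cast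
  ring

end H25S
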