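import Pool.Agent.Lib.H25S.T1

/-!
# Chunk T7 (M)
`K` closed connected nonempty, `V` open, disjoint from `K`, `frontier V ⊆ K`. For `w ∉ V`, `w ∉ K` let `W = connectedComponentIn Kᶜ w` (open, connected, `⊆ Kᶜ`). (1) `W ∩ V = ∅`: `W` is preconnected and does not meet `frontier V`; if it met `V` it would be inside `V`
(`IsPreconnected.subset_of_disjoint_frontier`-type argument: `W = (W ∩ V) ∪ (W ∩ (closure V)ᶜ)`, `isPreconnected_iff_subset_of_disjoint`), but `w ∉ V`. (2) `closure W` meets `K`: otherwise `closure W ⊆ Kᶜ` is preconnected and contains `w`, so `closure W ⊆ W`, `W` is clopen and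
nonempty, hence `univ` (`IsClopen.eq_univ`, `Cyl` is connected), but `K` is nonempty. (3) with `k ∈ closure W ∩ K`: `W ∪ {k}` is preconnected (`IsPreconnected.subset_closure`), so is `(W ∪ {k}) ∪ K ⊆ Vᶜ`. Hence `Vᶜ` is the union of such sets and of `K`: `isPreconnected_of_forall` with a point of `K`.
-/

namespace H25S

open MeasureTheory H83D Set Filter Topology

theorem compl_conn {K V : Set Cyl} (hK : IsClosed K) (hc : IsConnected K) (hV : IsOpen V) (h1 : Disjoint V K)
    (h2 : frontier V ⊆ K) : IsConnected Vᶜ := by
  have : ConnectedSpace Cyl := Function.Surjective.connectedSpace (f := pr) pr_surj pr_cont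
  have hfr : frontier V = closure V \ V := hV.frontier_eq
  have hKV : K ⊆ Vᶜ := fun x hx hxV => Set.disjoint_left.mp h1 hxV hx
  obtain ⟨k0, hk0⟩ := hc.nonempty
  refine ⟨⟨k0, hKV hk0⟩, ?_⟩
  refine isPreconnected_of_forall k0 ?_
  intro w hw
  by_cases hwK : w ∈ K
  · exact ⟨K, hKV, hk0, hwK, hc.isPreconnected⟩
  · have hwKc : w ∈ Kᶜ := hwK
    have hWp : IsPreconnected (connectedComponentIn Kᶜ w) := isPreconnected_connectedComponentIn
    have hWs : connectedComponentIn Kᶜ w ⊆ Kᶜ := connectedComponentIn_subset _ _
    have hwW : w ∈ connectedComponentIn Kᶜ w := mem_connectedComponentIn hwKc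
    have hWo : IsOpen (connectedComponentIn Kᶜ w) := hK.isOpen_compl.connectedComponentIn
    have hWV : connectedComponentIn Kᶜ w ⊆ Vᶜ := by
      have h := (isPreconnected_iff_subset_of_disjoint.mp hWp) V (closure V)ᶜ hV
        isClosed_closure.isOpen_compl (by
          intro x hx
          by_cases hxV : x ∈ V
          · exact Or.inl hxV
          · refine Or.inr ?_
            intro hxc
            exact hWs hx (h2 (by rw [hfr]; exact ⟨hxc, hxV⟩))) (by
          apply Set.eq_empty_of_forall_notMem
          rintro x ⟨_, hxV, hxc⟩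
          exact hxc (subset_closure hxV))
      rcases h with h | h
      · exact absurd (h hwW) hw
      · intro x hx hxV
        exact h hx (subset_closure hxV)
    have hcl : (closure (connectedComponentIn Kᶜ w) ∩ K).Nonempty := by
      by_contra hne
      rw [Set.not_nonempty_iff_eq_empty] at hne
      have hsub : closure (connectedComponentIn Kᶜ w) ⊆ Kᶜ := by
        intro x hx hxK
        have : x ∈ closure (connectedComponentIn Kᶜ w) ∩ K := ⟨hx, hxK⟩
        rw [hne] at this
        exact this
      have hsub2 : closure (connectedComponentIn Kᶜ w) ⊆ connectedComponentIn Kᶜ w :=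
        hWp.closure.subset_connectedComponentIn (subset_closure hwW) hsub
      have hclosed : IsClosed (connectedComponentIn Kᶜ w) := by
        have : closure (connectedComponentIn Kᶜ w) = connectedComponentIn Kᶜ w :=
          Set.Subset.antisymm hsub2 subset_closure
        rw [← this]
        exact isClosed_closure
      have huniv : connectedComponentIn Kᶜ w = Set.univ :=
        IsClopen.eq_univ ⟨hclosed, hWo⟩ ⟨w, hwW⟩
      have : k0 ∈ connectedComponentIn Kᶜ w := by rw [huniv]; trivial
      exact hWs this hk0
    obtain ⟨k, hkc, hkK⟩ := hcl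
    have h3 : IsPreconnected (insert k (connectedComponentIn Kᶜ w)) := by
      refine hWp.subset_closure (Set.subset_insert _ _) ?_
      intro x hx
      rcases hx with rfl | hx
      · exact hkc
      · exact subset_closure hx
    refine ⟨insert k (connectedComponentIn Kᶜ w) ∪ K, ?_, Or.inr hk0, Or.inl (Or.inr hwW),
      IsPreconnected.union k (Or.inl rfl) hkK h3 hc.isPreconnected⟩
    intro x hx
    rcases hx with (rfl | hx) | hx
    · exact hKV hkK
    · exact hWV hx
    · exact hKV hx

/-- a connected open set with frontier in `K` together with `K` is connected -/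
theorem union_conn {K V : Set Cyl} (hc : IsConnected K) (hV : IsOpen V) (hVc : IsConnected V) (h1 : Disjoint V K)
    (h2 : frontier V ⊆ K) : IsConnected (K ∪ V) := by
  have : ConnectedSpace Cyl := Function.Surjective.connectedSpace (f := pr) pr_surj pr_cont
  have hfr : frontier V = closure V \ V := hV.frontier_eq
  have hne : (frontier V).Nonempty := by
    rw [nonempty_frontier_iff]
    refine ⟨hVc.nonempty, ?_⟩
    intro huniv
    obtain ⟨k0, hk0⟩ := hc.nonempty
    exact Set.disjoint_left.mp h1 (by rw [huniv]; trivial) hk0
  obtain ⟨x, hx⟩ := hne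
  have hxc : x ∈ closure V := by
    rw [hfr] at hx
    exact hx.1
  have heq : K ∪ V = K ∪ closure V := by
    apply Set.Subset.antisymm
    · exact Set.union_subset_union_right K subset_closure
    · intro y hy
      rcases hy with hy | hy
      · exact Or.inl hy
      · by_cases hyV : y ∈ V
        · exact Or.inr hyV
        · exact Or.inl (h2 (by rw [hfr]; exact ⟨hy, hyV⟩))
  rw [heq]
  exact IsConnected.union ⟨x, h2 hx, hxc⟩ hc hVc.closure

end H25S
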