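import Pool.Agent.Lib.H25S.T4
import Pool.Agent.Lib.H25S.T7

/-!
# Chunk T10 (S)
`K`, `L` compact connected disjoint. If `L` does not meet `Up K`: `Up K` is preconnected (`up_conn`), disjoint from `L`, meets `Up L` (upper end), so `Up K ⊆ Up L`. Similarly if `K` does not meet `Up L`. Otherwise `L ⊆ Up K` and `K ⊆ Up L` (`up_max`): `(Up K)ᶜ` is connected (`compl_conn`),
disjoint from `L`, and contains `K ⊆ Up L`, so `(Up K)ᶜ ⊆ Up L`.
-/

namespace H25S

open MeasureTheory H83D Set Filter Topology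

theorem t10_sub {K L : Set Cyl} (hK : IsCompact K) (hL : IsCompact L) (h : Disjoint L (Up K)) : Up K ⊆ Up L := by
  obtain ⟨M, -, hM⟩ := cpt_bd hK
  obtain ⟨M', -, hM'⟩ := cpt_bd hL
  have h1 : ((0 : AddCircle (1 : ℝ)), max M M') ∈ Up K :=
    up_end (fun w hw => (abs_lt.1 (hM w hw)).2) _ (le_max_left _ _)
  have h2 : ((0 : AddCircle (1 : ℝ)), max M M') ∈ Up L :=
    up_end (fun w hw => (abs_lt.1 (hM' w hw)).2) _ (le_max_right _ _)
  exact up_max (up_conn hK).isPreconnected h.symm ⟨_, h1, h2⟩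

theorem order_gen {K L : Set Cyl} (hK : IsCompact K) (cK : IsConnected K) (hL : IsCompact L) (cL : IsConnected L)
    (hd : Disjoint K L) : Disjoint (Up K)ᶜ (Up L)ᶜ ∨ (Up L)ᶜ ⊆ (Up K)ᶜ ∨ (Up K)ᶜ ⊆ (Up L)ᶜ := by
  by_cases h1 : Disjoint L (Up K)
  · exact Or.inr (Or.inl (Set.compl_subset_compl.2 (t10_sub hK hL h1)))
  by_cases h2 : Disjoint K (Up L)
  · exact Or.inr (Or.inr (Set.compl_subset_compl.2 (t10_sub hL hK h2)))
  left
  rw [Set.not_disjoint_iff_nonempty_inter] at h1 h2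
  have hLK : L ⊆ Up K := up_max cL.isPreconnected hd.symm h1
  have hKL : K ⊆ Up L := up_max cK.isPreconnected hd h2
  have hc : IsConnected (Up K)ᶜ := compl_conn hK.isClosed cK (up_open hK.isClosed) (up_disj K) (up_front hK.isClosed)
  have h3 : (Up K)ᶜ ⊆ Up L := by
    refine up_max hc.isPreconnected ?_ ?_
    · rw [Set.disjoint_left]
      intro w hw hwL
      exact hw (hLK hwL)
    · obtain ⟨x, hx⟩ := cK.nonempty
      exact ⟨x, fun h => Set.disjoint_left.1 (up_disj K) h hx, hKL hx⟩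
  rw [Set.disjoint_left]
  intro w hw hw'
  exact hw' (h3 hw)

end H25S
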