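import Pool.Agent.Lib.H25S.Defs

/-!
# Chunk V2 (S)
`volume` on `Cyl` is the product measure; `volume univ = 1` on `AddCircle 1`. `sh j` and `rf` are measure preserving equivalences (identity times a translation / the negation; `MeasurePreserving.prod`, `measurePreserving_add_right`, `Measure.measurePreserving_neg`). Strips are products `univ ×ˢ I`. `IsOpenPosMeasure`: instance of the product
(nonempty open sets have positive measure).
-/

namespace H25S

open MeasureTheory H83D Set Filter Topology

theorem v2_mp_sh (j : ℝ) : MeasurePreserving (sh j) (volume : Measure Cyl) (volume : Measure Cyl) := by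
  have h := (MeasurePreserving.id (volume : Measure (AddCircle (1 : ℝ)))).prod
    (measurePreserving_add_right (volume : Measure ℝ) j)
  exact h

theorem v2_mp_rf : MeasurePreserving rf (volume : Measure Cyl) (volume : Measure Cyl) := by
  have h := (MeasurePreserving.id (volume : Measure (AddCircle (1 : ℝ)))).prod
    (Measure.measurePreserving_neg (volume : Measure ℝ))
  exact h

theorem v2_sh_sh (j : ℝ) (w : Cyl) : sh j (sh (-j) w) = w := by
  unfold sh
  ext
  · rfl
  · simp

theorem v2_sh_sh2 (j : ℝ) (w : Cyl) : sh (-j) (sh j w) = w := by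
  unfold sh
  ext
  · rfl
  · simp

theorem v2_rf_rf (w : Cyl) : rf (rf w) = w := by
  unfold rf
  ext
  · rfl
  · simp

/-- `sh j` as a measurable equivalence -/
def v2_esh (j : ℝ) : Cyl ≃ᵐ Cyl where
  toFun := sh j
  invFun := sh (-j)
  left_inv := v2_sh_sh2 j
  right_inv := v2_sh_sh j
  measurable_toFun := (v2_mp_sh j).measurable
  measurable_invFun := (v2_mp_sh (-j)).measurable

/-- `rf` as a measurable equivalence -/
def v2_erf : Cyl ≃ᵐ Cyl where
  toFun := rf
  invFun := rf
  left_inv := v2_rf_rf
  right_inv := v2_rf_rf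
  measurable_toFun := v2_mp_rf.measurable
  measurable_invFun := v2_mp_rf.measurable

theorem v2_strip_eq (a b : ℝ) : {w : Cyl | a < w.2 ∧ w.2 ≤ b} = Set.univ ×ˢ Set.Ioc a b := by
  ext w
  simp

theorem vol_sh (j : ℝ) (S : Set Cyl) : volume (sh j '' S) = volume S := by
  have h1 : sh j '' S = (v2_esh (-j)) ⁻¹' S := by
    exact congrFun (Set.image_eq_preimage_of_inverse (f := sh j) (g := sh (-j))
      (v2_sh_sh2 j) (v2_sh_sh j)) S
  rw [h1]
  have h2 : MeasurePreserving (v2_esh (-j)) (volume : Measure Cyl) volume := v2_mp_sh (-j)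
  exact h2.measure_preimage_equiv S

theorem vol_rf (S : Set Cyl) : volume (rf '' S) = volume S := by
  have h1 : rf '' S = v2_erf ⁻¹' S := by
    exact congrFun (Set.image_eq_preimage_of_inverse (f := rf) (g := rf)
      v2_rf_rf v2_rf_rf) S
  rw [h1]
  have h2 : MeasurePreserving v2_erf (volume : Measure Cyl) volume := v2_mp_rf
  exact h2.measure_preimage_equiv S

theorem vol_strip {a b : ℝ} (hab : a ≤ b) : volume {w : Cyl | a < w.2 ∧ w.2 ≤ b} = ENNReal.ofReal (b - a) := by
  rw [v2_strip_eq, Measure.volume_eq_prod, Measure.prod_prod, AddCircle.measure_univ,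
    Real.volume_Ioc]
  simp

theorem vol_line (a : ℝ) : volume {w : Cyl | w.2 = a} = 0 := by
  have h1 : {w : Cyl | w.2 = a} = Set.univ ×ˢ {a} := by
    ext w
    simp
  rw [h1, Measure.volume_eq_prod, Measure.prod_prod, Real.volume_singleton, mul_zero]

theorem vol_open_pos {U : Set Cyl} (hU : IsOpen U) (hn : U.Nonempty) : 0 < volume U := by
  have h : (volume : Measure Cyl).IsOpenPosMeasure := by
    rw [Measure.volume_eq_prod]
    infer_instance
  exact hU.measure_pos volume hn

theorem vol_bd {U : Set Cyl} {M : ℝ} (hU : ∀ w ∈ U, |w.2| ≤ M) : volume U < ⊤ := by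
  have h1 : U ⊆ {w : Cyl | -|M| - 1 < w.2 ∧ w.2 ≤ |M|} := by
    intro w hw
    have h := hU w hw
    have h2 := le_abs_self M
    have h3 := abs_le.1 h
    constructor
    · linarith [h3.1]
    · linarith [h3.2]
  refine lt_of_le_of_lt (measure_mono h1) ?_
  rw [vol_strip (by linarith [abs_nonneg M])]
  exact ENNReal.ofReal_lt_top

end H25S
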