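import Pool.Agent.Lib.H25S.P1
import Pool.Agent.Lib.H25S.T10
import Pool.Agent.Lib.H25S.T11
import Pool.Agent.Lib.H25S.T12
import Pool.Agent.Lib.H25S.V2

/-!
# Chunk P3 (M)
`D = (Up K)ᶜ` is compact (`nsep_cpt`, `np_sep`) and nonempty (`K ⊆ D`). For `j ≠ 0`: `K' = sh j '' K` is disjoint from `K` (`np_tr`), `(Up K')ᶜ = sh j '' D` (`up_sh`). `order_gen`: `D ∩ sh j '' D = ∅`, or `sh j '' D ⊆ D`, or `D ⊆ sh j '' D` (i.e. `sh (-j) '' D ⊆ D`). `sh j '' D ⊆ D` with `j ≠ 0` gives points of `D` with arbitrarily large `|w.2|` (induction): impossible.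
VOLUME: `D = ⋃_j D ∩ {j < y ≤ j + 1}`; `volume (D ∩ {j < y ≤ j+1}) = volume (sh (-j) '' D ∩ {0 < y ≤ 1})` (`vol_sh`), the sets `sh (-j) '' D` are disjoint, so the sum is at most `volume {0 < y ≤ 1} = 1` (`measure_iUnion`, `vol_strip`).
-/

namespace H25S

open MeasureTheory H83D Set Filter Topology

theorem p3_iter {D : Set Cyl} {j : ℝ} (h : sh j '' D ⊆ D) {w : Cyl} (hw : w ∈ D) (n : ℕ) :
    ((w.1, w.2 + n * j) : Cyl) ∈ D := by
  induction n with
  | zero =>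
    have h1 : ((w.1, w.2 + ((0 : ℕ) : ℝ) * j) : Cyl) = w := by
      apply Prod.ext
      · rfl
      · simp
    rw [h1]
    exact hw
  | succ n ih =>
    apply h
    refine ⟨_, ih, ?_⟩
    apply Prod.ext
    · rfl
    · show w.2 + n * j + j = w.2 + ((n + 1 : ℕ) : ℝ) * j
      push_cast
      ring

theorem p3_no {D : Set Cyl} (hD : IsCompact D) (hne : D.Nonempty) {j : ℝ} (hj : 1 ≤ |j|)
    (h : sh j '' D ⊆ D) : False := by
  obtain ⟨w, hw⟩ := hne
  obtain ⟨M, hM0, hM⟩ := cpt_bd hD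
  obtain ⟨n, hn⟩ := exists_nat_gt (2 * M)
  have h1 := abs_lt.1 (hM _ (p3_iter h hw n))
  have h2 := abs_lt.1 (hM w hw)
  have h3 : |(n : ℝ) * j| < 2 * M := by
    rw [abs_lt]
    constructor
    · have := h1.1
      simp only at this
      linarith [h2.2]
    · have := h1.2
      simp only at this
      linarith [h2.1]
  rw [abs_mul, Nat.abs_cast] at h3
  have h4 : (n : ℝ) * 1 ≤ n * |j| := mul_le_mul_of_nonneg_left hj (Nat.cast_nonneg n)
  linarith

theorem p3_comp (a b : ℝ) (w : Cyl) : sh a (sh b w) = sh (b + a) w := by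
  apply Prod.ext
  · rfl
  · show w.2 + b + a = w.2 + (b + a)
    ring

theorem p3_inj (a : ℝ) : Function.Injective (sh a) := by
  intro x y h
  have h1 : sh (-a) (sh a x) = sh (-a) (sh a y) := by rw [h]
  rw [p3_comp, p3_comp] at h1
  have h2 : ∀ w : Cyl, sh (a + -a) w = w := by
    intro w
    apply Prod.ext
    · rfl
    · show w.2 + (a + -a) = w.2
      ring
  rwa [h2, h2] at h1

theorem p3_compl (a : ℝ) (S : Set Cyl) : sh a '' Sᶜ = (sh a '' S)ᶜ := by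
  apply Set.image_compl_eq
  refine ⟨p3_inj a, fun w => ⟨sh (-a) w, ?_⟩⟩
  rw [p3_comp]
  apply Prod.ext
  · rfl
  · show w.2 + (-a + a) = w.2
    ring

theorem p3_vol {D : Set Cyl} (hD : IsCompact D) (hd : ∀ j : ℤ, j ≠ 0 → Disjoint D (sh j '' D)) :
    volume D ≤ 1 := by
  have hDm : MeasurableSet D := hD.isClosed.measurableSet
  have hst : ∀ j : ℤ, MeasurableSet {w : Cyl | (j : ℝ) < w.2 ∧ w.2 ≤ j + 1} := fun j =>
    (measurableSet_lt measurable_const measurable_snd).inter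
      (measurableSet_le measurable_snd measurable_const)
  set S : ℤ → Set Cyl := fun j => sh (j : ℝ) ⁻¹' (D ∩ {w : Cyl | (j : ℝ) < w.2 ∧ w.2 ≤ j + 1}) with hS
  have hSm : ∀ j, MeasurableSet (S j) := fun j =>
    (hDm.inter (hst j)).preimage (sh_cont _).measurable
  have hvol : ∀ j : ℤ, volume (D ∩ {w : Cyl | (j : ℝ) < w.2 ∧ w.2 ≤ j + 1}) = volume (S j) := by
    intro j
    have h1 : sh (j : ℝ) '' (S j) = D ∩ {w : Cyl | (j : ℝ) < w.2 ∧ w.2 ≤ j + 1} := by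
      rw [hS]
      apply Set.image_preimage_eq
      intro w
      refine ⟨sh (-(j : ℝ)) w, ?_⟩
      rw [p3_comp]
      apply Prod.ext
      · rfl
      · show w.2 + (-(j : ℝ) + j) = w.2
        ring
    rw [← h1, vol_sh]
  have hdis : Pairwise (Function.onFun Disjoint S) := by
    intro i j hij
    rw [Function.onFun, Set.disjoint_left]
    intro w hi hj
    have h1 : sh (i : ℝ) w ∈ D := hi.1
    have h2 : sh (j : ℝ) w ∈ D := hj.1
    have h3 := hd (j - i) (sub_ne_zero.2 (Ne.symm hij))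
    refine Set.disjoint_left.1 h3 h2 ⟨sh (i : ℝ) w, h1, ?_⟩
    rw [p3_comp]
    congr 1
    push_cast
    ring
  have hcov : D ⊆ ⋃ j : ℤ, D ∩ {w : Cyl | (j : ℝ) < w.2 ∧ w.2 ≤ j + 1} := by
    intro w hw
    rw [Set.mem_iUnion]
    refine ⟨⌈w.2⌉ - 1, hw, ?_, ?_⟩
    · push_cast
      linarith [Int.ceil_lt_add_one w.2]
    · push_cast
      linarith [Int.le_ceil w.2]
  have hsub : (⋃ j : ℤ, S j) ⊆ {w : Cyl | (0 : ℝ) < w.2 ∧ w.2 ≤ 1} := by
    intro w hw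
    rw [Set.mem_iUnion] at hw
    obtain ⟨j, hj⟩ := hw
    have h1 : (j : ℝ) < w.2 + j ∧ w.2 + j ≤ j + 1 := hj.2
    exact ⟨by linarith [h1.1], by linarith [h1.2]⟩
  calc volume D ≤ volume (⋃ j : ℤ, D ∩ {w : Cyl | (j : ℝ) < w.2 ∧ w.2 ≤ j + 1}) := measure_mono hcov
    _ ≤ ∑' j : ℤ, volume (D ∩ {w : Cyl | (j : ℝ) < w.2 ∧ w.2 ≤ j + 1}) := measure_iUnion_le _
    _ = ∑' j : ℤ, volume (S j) := by simp only [hvol]
    _ = volume (⋃ j : ℤ, S j) := (measure_iUnion hdis hSm).symm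
    _ ≤ volume {w : Cyl | (0 : ℝ) < w.2 ∧ w.2 ≤ 1} := measure_mono hsub
    _ = 1 := by rw [vol_strip zero_le_one]; simp

theorem np_vol {H : ℝ → ℝ × ℝ → ℝ} (hH : Ham H) {c₁ c s : ℝ} (hn : NoPath H c₁) (hc : c₁ < c) {K : Set Cyl} (hK : IsCompact K)
    (cK : IsConnected K) (hKc : K ⊆ SL (H s) c) : volume (Up K)ᶜ ≤ 1 := by
  have hs := np_sep hH hn hc hK cK hKc
  have hD : IsCompact (Up K)ᶜ := nsep_cpt hK hs
  have hne : ((Up K)ᶜ).Nonempty := by
    obtain ⟨x, hx⟩ := cK.nonempty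
    exact ⟨x, fun h => Set.disjoint_left.1 (up_disj K) h hx⟩
  apply p3_vol hD
  intro j hj
  have hj1 : 1 ≤ |(j : ℝ)| := by
    rw [← Int.cast_abs]
    exact_mod_cast Int.one_le_abs hj
  have hd := np_tr hH hn hc hK cK hKc hj
  have hK' : IsCompact (sh (j : ℝ) '' K) := hK.image (sh_cont _)
  have cK' : IsConnected (sh (j : ℝ) '' K) := cK.image _ (sh_cont _).continuousOn
  have h1 := order_gen hK cK hK' cK' hd
  rw [up_sh, ← p3_compl] at h1
  rcases h1 with h1 | h1 | h1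
  · exact h1
  · exact (p3_no hD hne hj1 h1).elim
  · exfalso
    refine p3_no hD hne (j := -(j : ℝ)) (by rwa [abs_neg]) ?_
    rintro _ ⟨w, hw, rfl⟩
    obtain ⟨v, hv, hvw⟩ := h1 hw
    rw [← hvw, p3_comp]
    have h2 : sh ((j : ℝ) + -(j : ℝ)) v = v := by
      apply Prod.ext
      · rfl
      · show v.2 + ((j : ℝ) + -(j : ℝ)) = v.2
        ring
    rw [h2]
    exact hv

end H25S
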