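import Pool.Agent.Lib.H25S.Defs

/-!
# Chunk S0 (S)
Components of closed sets: `C = connectedComponentIn A w₀`. Its closure is preconnected and contained in the closed set `A`, so `closure C ⊆ C` (`IsPreconnected.subset_connectedComponentIn`). If `S` is preconnected, `S ⊆ A`, and meets `C`, then `S ∪ C` is preconnected, contains `w₀`, `⊆ A`.
-/

namespace H25S

open MeasureTheory H83D Set Filter Topology

theorem comp_closed {A : Set Cyl} (hA : IsClosed A) {w₀ : Cyl} (hw : w₀ ∈ A) : IsClosed (connectedComponentIn A w₀) := by
  have h1 : IsPreconnected (closure (connectedComponentIn A w₀)) :=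
    isPreconnected_connectedComponentIn.closure
  have h2 : closure (connectedComponentIn A w₀) ⊆ A :=
    closure_minimal (connectedComponentIn_subset A w₀) hA
  have h3 := h1.subset_connectedComponentIn (subset_closure (mem_connectedComponentIn hw)) h2
  exact isClosed_of_closure_subset h3

theorem comp_max {A : Set Cyl} {w₀ : Cyl} (hw : w₀ ∈ A) {S : Set Cyl} (hS : IsPreconnected S) (hSA : S ⊆ A)
    (hn : (S ∩ connectedComponentIn A w₀).Nonempty) : S ⊆ connectedComponentIn A w₀ := by
  obtain ⟨z, hz1, hz2⟩ := hn
  have h1 : IsPreconnected (S ∪ connectedComponentIn A w₀) :=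
    hS.union z hz1 hz2 isPreconnected_connectedComponentIn
  exact subset_union_left.trans (h1.subset_connectedComponentIn
    (Or.inr (mem_connectedComponentIn hw)) (union_subset hSA (connectedComponentIn_subset A w₀)))

end H25S
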