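import Pool.Agent.Lib.H25S.P2
import Pool.Agent.Lib.H25S.S0

/-!
# Chunk P4 (M)
`w₀ ∈ K`, `K̂ = connectedComponentIn (SL (H s) c) w₀`: closed, connected, maximal (`comp_closed`, `comp_max`), `K ⊆ K̂`. BOUNDED: let `c'' = (c₁ + c)/2`, `O = {w | c'' < dsc (H s) w}`, `R` of `np_height` for `c''`. For `w ∈ K̂`: `joined_lift` gives a path in `pr ⁻¹' O` over `w₀`, `w`; the image of its range under `pr` is compact, connected, in `SL (H s) c''`, contains `w₀` and `w`:
`|w.2 - w₀.2| ≤ R`. So `K̂` is compact (closed in `univ ×ˢ Icc`). `¬ Sep` by `np_sep`.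
-/

namespace H25S

open MeasureTheory H83D Set Filter Topology

theorem np_comp {H : ℝ → ℝ × ℝ → ℝ} (hH : Ham H) {c₁ c s : ℝ} (hn : NoPath H c₁) (hc : c₁ < c) {K : Set Cyl} (hK : IsCompact K)
    (cK : IsConnected K) (hKc : K ⊆ SL (H s) c) : ∃ K' : Set Cyl, K ⊆ K' ∧ IsComp K' (SL (H s) c) := by
  obtain ⟨w₀, hw₀⟩ := cK.nonempty
  have hw₀c : w₀ ∈ SL (H s) c := hKc hw₀
  have cH : Continuous (H s) := by
    have h := hH.smooth.continuous
    exact h.comp (continuous_const.prodMk continuous_id)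
  have hcl : IsClosed (SL (H s) c) := sl_closed cH (hH.per s) c
  set C : Set Cyl := connectedComponentIn (SL (H s) c) w₀ with hC
  have hCc : IsConnected C := ⟨⟨w₀, mem_connectedComponentIn hw₀c⟩, isPreconnected_connectedComponentIn⟩
  have hCsub : C ⊆ SL (H s) c := connectedComponentIn_subset _ _
  set c2 : ℝ := (c₁ + c) / 2 with hc2
  have h12 : c₁ < c2 := by
    rw [hc2]
    linarith
  have h2c : c2 < c := by
    rw [hc2]
    linarith
  obtain ⟨R, hR0, hR⟩ := np_height hH hn h12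
  have hO : IsOpen {w : Cyl | c2 < dsc (H s) w} := isOpen_lt continuous_const (dsc_cont cH (hH.per s))
  have hCO : C ⊆ {w : Cyl | c2 < dsc (H s) w} := fun w hw => h2c.trans_le (hCsub hw)
  have hbd : ∀ w ∈ C, |w.2 - w₀.2| ≤ R := by
    intro w hw
    have g1 : C ⊆ connectedComponentIn {w : Cyl | c2 < dsc (H s) w} w₀ :=
      hCc.isPreconnected.subset_connectedComponentIn (mem_connectedComponentIn hw₀c) hCO
    have g2 : IsOpen (connectedComponentIn {w : Cyl | c2 < dsc (H s) w} w₀) := hO.connectedComponentIn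
    have g3 : IsConnected (connectedComponentIn {w : Cyl | c2 < dsc (H s) w} w₀) :=
      ⟨⟨w₀, g1 (mem_connectedComponentIn hw₀c)⟩, isPreconnected_connectedComponentIn⟩
    have g4 := (g2.isConnected_iff_isPathConnected).1 g3
    obtain ⟨γ, hγ⟩ := g4.joinedIn w₀ (g1 (mem_connectedComponentIn hw₀c)) w (g1 hw)
    have k1 : IsCompact (range γ) := isCompact_range γ.continuous
    have k2 : IsConnected (range γ) := isConnected_range γ.continuous
    have k3 : range γ ⊆ SL (H s) c2 := by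
      rintro _ ⟨t, rfl⟩
      have q0 : γ t ∈ {w : Cyl | c2 < dsc (H s) w} := connectedComponentIn_subset _ _ (hγ t)
      have q1 : c2 < dsc (H s) (γ t) := q0
      exact q1.le
    have k4 : w₀ ∈ range γ := ⟨0, γ.source⟩
    have k5 : w ∈ range γ := ⟨1, γ.target⟩
    rw [abs_le]
    have e1 := hR s _ k1 k2 k3 w k5 w₀ k4
    have e2 := hR s _ k1 k2 k3 w₀ k4 w k5
    constructor <;> linarith
  have hCcl : IsClosed C := comp_closed hcl hw₀c
  have hCcpt : IsCompact C := by
    have hK0 : IsCompact ((univ : Set (AddCircle (1 : ℝ))) ×ˢ Icc (w₀.2 - R) (w₀.2 + R)) :=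
      isCompact_univ.prod isCompact_Icc
    refine hK0.of_isClosed_subset hCcl fun w hw => ⟨mem_univ _, ?_⟩
    have := abs_le.1 (hbd w hw)
    exact ⟨by linarith, by linarith⟩
  exact ⟨C, cK.isPreconnected.subset_connectedComponentIn hw₀ hKc,
    ⟨hCcpt, hCc, hCsub, fun S hS hSA hne => comp_max hw₀c hS hSA hne⟩⟩

end H25S
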