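import Pool.Agent.Lib.H25S.R3

/-!
# Chunk R5 (M)
Inverse function theorem at `(t₀, 0)`: `Psi` is `C¹` with invertible derivative (`psi_det`; `ContinuousLinearMap.det ≠ 0` gives a `ContinuousLinearEquiv`: `ContinuousLinearMap.toContinuousLinearEquivOfDetNeZero`), `ContDiffAt.toOpenPartialHomeomorph` / `HasStrictFDerivAt.toOpenPartialHomeomorph`. Choose `r` with the square inside the source; images of open subsets of the source are open.
-/

namespace H25S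

open MeasureTheory H83D Set Filter Topology

theorem psi_box {f : ℝ × ℝ → ℝ} (hf : P2 f) {γ : ℝ → ℝ × ℝ} (h : Orb f γ) (h0 : ¬ Crit f (γ 0)) (t₀ : ℝ) :
    ∃ r : ℝ, 0 < r ∧ InjOn (Psi f γ) (Ioo (t₀ - r) (t₀ + r) ×ˢ Ioo (-r) r) ∧
      ∀ O : Set (ℝ × ℝ), O ⊆ Ioo (t₀ - r) (t₀ + r) ×ˢ Ioo (-r) r → IsOpen O → IsOpen (Psi f γ '' O) := by
  have hc := psi_cd hf h h0
  have hs : HasStrictFDerivAt (Psi f γ) (fderiv ℝ (Psi f γ) (t₀, 0)) (t₀, 0) :=
    hc.contDiffAt.hasStrictFDerivAt one_ne_zero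
  have hd : (fderiv ℝ (Psi f γ) (t₀, 0)).det ≠ 0 := by
    rw [psi_det hf h h0]; exact one_ne_zero
  set e := ContinuousLinearMap.toContinuousLinearEquivOfDetNeZero _ hd with he
  have hs' : HasStrictFDerivAt (Psi f γ) (e : ℝ × ℝ →L[ℝ] ℝ × ℝ) (t₀, 0) := by
    rw [he, ContinuousLinearMap.coe_toContinuousLinearEquivOfDetNeZero]
    exact hs
  set Φ := hs'.toOpenPartialHomeomorph (Psi f γ) with hΦ
  have hco : (Φ : ℝ × ℝ → ℝ × ℝ) = Psi f γ := hs'.toOpenPartialHomeomorph_coe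
  have hmem : (t₀, (0 : ℝ)) ∈ Φ.source := hs'.mem_toOpenPartialHomeomorph_source
  obtain ⟨r, hr, hsub⟩ := Metric.mem_nhds_iff.1 (Φ.open_source.mem_nhds hmem)
  have hball : Metric.ball (t₀, (0 : ℝ)) r = Ioo (t₀ - r) (t₀ + r) ×ˢ Ioo (-r) r := by
    rw [← ball_prod_same, Real.ball_eq_Ioo, Real.ball_eq_Ioo]
    simp
  rw [hball] at hsub
  refine ⟨r, hr, ?_, ?_⟩
  · rw [← hco]
    exact Φ.injOn.mono hsub
  · intro O hO hop
    rw [← hco]
    exact Φ.isOpen_image_of_subset_source hop (hO.trans hsub)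

end H25S
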