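import Pool.Agent.Lib.H25S.R4
import Pool.Agent.Lib.H25S.R5
import Pool.Agent.Lib.H25S.T0

/-!
# Chunk R10 (M)
Tube. `Psi (t + T, u) = Psi (t, u) + iv (k, 0)` (`nv f` is periodic). (a) DET: `(t,u) ↦ (fderiv (Psi) (t,u)).det` is continuous, `1` at `u = 0`, `T`-periodic in `t`: for `e > 0` there is `r > 0` with `|det - 1| ≤ e` for `|u| < r` (compactness of `Icc 0 T`). (b) SIGN: `psi_sign` with `A = T`, extended by periodicity (`t = t' + n T`, `t' ∈ [0,T)`, `f` periodic).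
(c) OPEN: for `|u| < r` (`|det - 1| ≤ 1/2`) `Psi` is a local homeomorphism at `(t,u)`, so it maps open subsets of `univ ×ˢ Ioo (-r) r` to open sets (`HasStrictFDerivAt.map_nhds_eq_of_equiv`, `IsOpenMap`). (d) INJECTIVE: otherwise for every `n` there are `t, t' ∈ [0, T]` (reduce by periodicity; `t'` shifted by multiples of `T` keeps `pr (Psi)`), `|u|, |u'| < 1/n`, `pr (Psi (t,u)) = pr (Psi (t',u'))`,
and not (`u = u'` and `t' - t ∈ ℤ T`). Subsequences: `t → a`, `t' → b`, `pr (γ a) = pr (γ b)`, so `b = a + m T` (`hmin`); replace `t'` by `t' - m T`: both tend to `a`, and `Psi (t',u') = Psi (t,u) + iv (i, 0)` with `i = 0` for large `n` (both tend to `γ a`). `psi_box` at `a`: `(t,u) = (t',u')`: contradiction.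
-/

namespace H25S

open MeasureTheory H83D Set Filter Topology

theorem r10_iv (a b : ℤ) : iv (a, 0) + iv (b, 0) = iv (a + b, 0) := by
  unfold iv
  ext
  · simp
  · simp

theorem r10_red {T : ℝ} (hT : 0 < T) (t : ℝ) : ∃ n : ℤ, t + n * T ∈ Icc (0 : ℝ) T := by
  have h1 := Int.floor_le (t / T)
  have h2 := Int.lt_floor_add_one (t / T)
  rw [le_div_iff₀ hT] at h1
  rw [div_lt_iff₀ hT] at h2
  have h3 : ((⌊t / T⌋ : ℝ) + 1) * T = ⌊t / T⌋ * T + T := by ring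
  rw [h3] at h2
  refine ⟨-⌊t / T⌋, ?_, ?_⟩
  · push_cast
    linarith
  · push_cast
    linarith

theorem psi_per {f : ℝ × ℝ → ℝ} (hf : P2 f) {γ : ℝ → ℝ × ℝ} {T : ℝ} {k : ℤ} (hp : ∀ t, γ (t + T) = γ t + iv (k, 0)) (t u : ℝ) :
    Psi f γ (t + T, u) = Psi f γ (t, u) + iv (k, 0) := by
  have h1 : d1 f (γ t + iv (k, 0)) = d1 f (γ t) := by
    unfold d1
    rw [a3_pf hf]
  have h2 : d2 f (γ t + iv (k, 0)) = d2 f (γ t) := by
    unfold d2
    rw [a3_pf hf]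
  have h3 : nv f (γ t + iv (k, 0)) = nv f (γ t) := by
    unfold nv
    rw [h1, h2]
  change γ (t + T) + u • nv f (γ (t + T)) = γ t + u • nv f (γ t) + iv (k, 0)
  rw [hp, h3]
  abel

theorem r10_pern {f : ℝ × ℝ → ℝ} (hf : P2 f) {γ : ℝ → ℝ × ℝ} {T : ℝ} {k : ℤ}
    (hp : ∀ t, γ (t + T) = γ t + iv (k, 0)) (t u : ℝ) (n : ℤ) :
    Psi f γ (t + n * T, u) = Psi f γ (t, u) + iv (n * k, 0) := by
  induction n using Int.induction_on with
  | zero => simp [iv]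
  | succ n ih =>
    have e : t + ((n + 1 : ℤ) : ℝ) * T = (t + ((n : ℤ) : ℝ) * T) + T := by
      push_cast
      ring
    rw [e, psi_per hf hp, ih, add_assoc, r10_iv]
    congr 3
    ring
  | pred n ih =>
    have e : t + ((-n : ℤ) : ℝ) * T = (t + ((-n - 1 : ℤ) : ℝ) * T) + T := by
      push_cast
      ring
    rw [e, psi_per hf hp] at ih
    have h1 : iv (-(n : ℤ) * k, 0) = iv ((-(n : ℤ) - 1) * k, 0) + iv (k, 0) := by
      rw [r10_iv]
      congr 2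
      ring
    rw [h1, ← add_assoc] at ih
    exact add_right_cancel ih

theorem r10_prn {f : ℝ × ℝ → ℝ} (hf : P2 f) {γ : ℝ → ℝ × ℝ} {T : ℝ} {k : ℤ}
    (hp : ∀ t, γ (t + T) = γ t + iv (k, 0)) (t u : ℝ) (n : ℤ) :
    pr (Psi f γ (t + n * T, u)) = pr (Psi f γ (t, u)) :=
  (pr_eq.2 ⟨n * k, r10_pern hf hp t u n⟩).symm

theorem psi_detb {f : ℝ × ℝ → ℝ} (hf : P2 f) {γ : ℝ → ℝ × ℝ} (h : Orb f γ) (h0 : ¬ Crit f (γ 0)) {T : ℝ} {k : ℤ} (hT : 0 < T)
    (hp : ∀ t, γ (t + T) = γ t + iv (k, 0)) {e : ℝ} (he : 0 < e) :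
    ∃ r : ℝ, 0 < r ∧ ∀ t u : ℝ, |u| < r → |(fderiv ℝ (Psi f γ) (t, u)).det - 1| ≤ e := by
  have hc := psi_cd hf h h0
  have hfc : Continuous (fderiv ℝ (Psi f γ)) := hc.continuous_fderiv one_ne_zero
  have hdc : Continuous fun p => (fderiv ℝ (Psi f γ) p).det :=
    ContinuousLinearMap.continuous_det.comp hfc
  have ho : IsOpen {p : ℝ × ℝ | |(fderiv ℝ (Psi f γ) p).det - 1| < e} :=
    isOpen_lt (hdc.sub continuous_const).abs continuous_const
  obtain ⟨U, V, hU, hV, hAU, h0V, hUV⟩ := generalized_tube_lemma (isCompact_Icc (a := (0 : ℝ)) (b := T))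
    (isCompact_singleton (x := (0 : ℝ))) ho (by
      rintro ⟨t, u⟩ ⟨-, hu⟩
      have hu' : u = 0 := hu
      subst hu'
      change |(fderiv ℝ (Psi f γ) (t, 0)).det - 1| < e
      rw [psi_det hf h h0, sub_self, abs_zero]
      exact he)
  obtain ⟨r, hr, hrV⟩ := Metric.isOpen_iff.1 hV 0 (h0V rfl)
  refine ⟨r, hr, fun t u hu => ?_⟩
  obtain ⟨n, hn⟩ := r10_red hT t
  have h1 : fderiv ℝ (Psi f γ) (t + n * T, u) = fderiv ℝ (Psi f γ) (t, u) := by
    have h2 := fderiv_comp_add_right (𝕜 := ℝ) (f := Psi f γ) (x := (t, u)) ((n * T, 0) : ℝ × ℝ)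
    have h3 : (fun p : ℝ × ℝ => Psi f γ (p + (n * T, 0))) =
        fun p => Psi f γ p + iv (n * k, 0) := by
      funext p
      obtain ⟨a, b⟩ := p
      have h4 := r10_pern hf hp a b n
      have h5 : ((a, b) : ℝ × ℝ) + (n * T, 0) = (a + n * T, b) := by simp
      rw [h5]
      exact h4
    rw [h3, fderiv_add_const] at h2
    have h4 : ((t, u) : ℝ × ℝ) + (n * T, 0) = (t + n * T, u) := by simp
    rw [h4] at h2
    exact h2.symm
  rw [← h1]
  have h5 : ((t + n * T, u) : ℝ × ℝ) ∈ U ×ˢ V :=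
    ⟨hAU hn, hrV (by rw [Metric.mem_ball, dist_zero_right, Real.norm_eq_abs]; exact hu)⟩
  exact (show |(fderiv ℝ (Psi f γ) (t + n * T, u)).det - 1| < e from hUV h5).le

theorem tube_ex {f : ℝ × ℝ → ℝ} (hf : P2 f) {γ : ℝ → ℝ × ℝ} (h : Orb f γ) (h0 : ¬ Crit f (γ 0)) {T : ℝ} {k : ℤ} (hT : 0 < T)
    (hp : ∀ t, γ (t + T) = γ t + iv (k, 0)) (hmin : ∀ t t' : ℝ, pr (γ t) = pr (γ t') → ∃ n : ℤ, t' = t + n * T) :
    ∃ ε : ℝ, 0 < ε ∧ (∀ t u t' u' : ℝ, |u| < ε → |u'| < ε → pr (Psi f γ (t, u)) = pr (Psi f γ (t', u')) →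
        u = u' ∧ ∃ n : ℤ, t' = t + n * T) ∧
      (∀ t u : ℝ, |u| < ε → (0 ≤ u → f (γ 0) + u / 2 ≤ f (Psi f γ (t, u))) ∧
        (u ≤ 0 → f (Psi f γ (t, u)) ≤ f (γ 0) + u / 2)) ∧
      ∀ O : Set (ℝ × ℝ), O ⊆ univ ×ˢ Ioo (-ε) ε → IsOpen O → IsOpen (Psi f γ '' O) := by
  have hc := psi_cd hf h h0
  have hPc : Continuous (Psi f γ) := hc.continuous
  obtain ⟨r1, hr1, hs1⟩ := psi_sign hf h h0 T
  obtain ⟨r2, hr2, hs2⟩ := psi_detb hf h h0 hT hp (e := 1 / 2) (by norm_num)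
  -- injectivity
  have key : ∀ᶠ v : ℝ × ℝ in 𝓝 (0, 0), ∀ s ∈ Icc (0 : ℝ) T ×ˢ Icc (0 : ℝ) T,
      pr (Psi f γ (s.1, v.1)) = pr (Psi f γ (s.2, v.2)) → v.1 = v.2 ∧ ∃ n : ℤ, s.2 = s.1 + n * T := by
    refine (isCompact_Icc.prod isCompact_Icc).eventually_forall_of_forall_eventually ?_
    rintro ⟨a, b⟩ -
    have c1 : Continuous fun z : (ℝ × ℝ) × (ℝ × ℝ) => Psi f γ (z.2.1, z.1.1) :=
      hPc.comp (by fun_prop)
    have c2 : Continuous fun z : (ℝ × ℝ) × (ℝ × ℝ) => Psi f γ (z.2.2, z.1.2) :=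
      hPc.comp (by fun_prop)
    by_cases hab : pr (γ a) = pr (γ b)
    · obtain ⟨m, rfl⟩ := hmin a b hab
      obtain ⟨r, hr, hinj, -⟩ := psi_box hf h h0 a
      have c3 : Continuous fun z : (ℝ × ℝ) × (ℝ × ℝ) => Psi f γ (z.2.2 - m * T, z.1.2) :=
        hPc.comp (by fun_prop)
      have e1 : ∀ᶠ z : (ℝ × ℝ) × (ℝ × ℝ) in 𝓝 ((0, 0), (a, a + m * T)),
          dist (Psi f γ (z.2.2 - m * T, z.1.2)) (Psi f γ (z.2.1, z.1.1)) < 1 := by
        refine (c3.dist c1).continuousAt.eventually_lt_const ?_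
        change dist (Psi f γ (a + m * T - m * T, 0)) (Psi f γ (a, 0)) < 1
        rw [add_sub_cancel_right, dist_self]
        exact one_pos
      have ho : IsOpen {z : (ℝ × ℝ) × (ℝ × ℝ) | z.2.1 ∈ Ioo (a - r) (a + r) ∧ z.1.1 ∈ Ioo (-r) r ∧
          z.2.2 - m * T ∈ Ioo (a - r) (a + r) ∧ z.1.2 ∈ Ioo (-r) r} := by
        refine (isOpen_Ioo.preimage (by fun_prop)).inter ((isOpen_Ioo.preimage (by fun_prop)).inter
          ((isOpen_Ioo.preimage (by fun_prop)).inter (isOpen_Ioo.preimage (by fun_prop))))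
      have e2 := ho.mem_nhds (x := ((0, 0), (a, a + m * T)))
        ⟨⟨by linarith, by linarith⟩, ⟨by linarith, by linarith⟩,
          ⟨by linarith, by linarith⟩, ⟨by linarith, by linarith⟩⟩
      filter_upwards [e1, e2]
      rintro ⟨⟨u, u'⟩, ⟨t, t'⟩⟩ g1 ⟨g2, g3, g4, g5⟩ hpr
      simp only at g1 g2 g3 g4 g5 hpr ⊢
      have g6 : pr (Psi f γ (t' - m * T, u')) = pr (Psi f γ (t', u')) := by
        have g7 := r10_prn hf hp (t' - m * T) u' m
        rw [sub_add_cancel] at g7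
        exact g7.symm
      rw [← g6] at hpr
      obtain ⟨i, hi⟩ := pr_eq.1 hpr
      have hi0 : i = 0 := by
        rw [hi, dist_eq_norm, add_sub_cancel_left] at g1
        have g8 : ‖((i : ℝ))‖ ≤ ‖iv (i, 0)‖ := norm_fst_le (iv (i, 0))
        have g9 : ‖((i : ℝ))‖ < 1 := g8.trans_lt g1
        rw [Real.norm_eq_abs] at g9
        have g10 : |i| < 1 := by exact_mod_cast g9
        exact Int.abs_lt_one_iff.1 g10
      subst hi0
      have hi' : Psi f γ (t' - m * T, u') = Psi f γ (t, u) := by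
        rw [hi]
        simp [iv]
      have g11 := hinj ⟨g4, g5⟩ ⟨g2, g3⟩ hi'
      have g12 : t' - m * T = t := congrArg Prod.fst g11
      have g13 : u' = u := congrArg Prod.snd g11
      exact ⟨g13.symm, m, by linarith⟩
    · have d1' : Continuous fun z : (ℝ × ℝ) × (ℝ × ℝ) => pr (Psi f γ (z.2.1, z.1.1)) :=
        pr_cont.comp c1
      have d2' : Continuous fun z : (ℝ × ℝ) × (ℝ × ℝ) => pr (Psi f γ (z.2.2, z.1.2)) :=
        pr_cont.comp c2
      have ho : IsOpen {z : (ℝ × ℝ) × (ℝ × ℝ) | pr (Psi f γ (z.2.1, z.1.1)) ≠ pr (Psi f γ (z.2.2, z.1.2))} :=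
        isOpen_ne_fun d1' d2'
      have hm := ho.mem_nhds (x := ((0, 0), (a, b))) (by
        change pr (Psi f γ (a, 0)) ≠ pr (Psi f γ (b, 0))
        rw [psi_zero, psi_zero]
        exact hab)
      filter_upwards [hm] with z hz hpr
      exact absurd hpr hz
  obtain ⟨r3, hr3, hs3⟩ := Metric.eventually_nhds_iff.1 key
  refine ⟨min r1 (min r2 r3), lt_min hr1 (lt_min hr2 hr3), ?_, ?_, ?_⟩
  · intro t u t' u' hu hu' hpr
    obtain ⟨n, hn⟩ := r10_red hT t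
    obtain ⟨n', hn'⟩ := r10_red hT t'
    have h3 : dist ((u, u') : ℝ × ℝ) (0, 0) < r3 := by
      rw [Prod.dist_eq]
      have k1 : dist u 0 < r3 := by
        rw [dist_zero_right, Real.norm_eq_abs]
        exact hu.trans_le ((min_le_right _ _).trans (min_le_right _ _))
      have k2 : dist u' 0 < r3 := by
        rw [dist_zero_right, Real.norm_eq_abs]
        exact hu'.trans_le ((min_le_right _ _).trans (min_le_right _ _))
      exact max_lt k1 k2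
    obtain ⟨q1, q, q2⟩ := hs3 h3 (t + n * T, t' + n' * T) ⟨hn, hn'⟩ (by
      change pr (Psi f γ (t + n * T, u)) = pr (Psi f γ (t' + n' * T, u'))
      rw [r10_prn hf hp, r10_prn hf hp]
      exact hpr)
    refine ⟨q1, n + q - n', ?_⟩
    push_cast
    simp only at q2
    linarith
  · intro t u hu
    obtain ⟨n, hn⟩ := r10_red hT t
    have h3 := hs1 (t + n * T) u (abs_le.2 ⟨by linarith [hn.1], hn.2⟩) (hu.trans_le (min_le_left _ _))
    rw [r10_pern hf hp, hf.per] at h3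
    exact h3
  · intro O hO hop
    rw [isOpen_iff_mem_nhds]
    rintro _ ⟨⟨t, u⟩, hx, rfl⟩
    have hu : |u| < r2 := by
      have h3 := (hO hx).2
      exact (abs_lt.2 h3).trans_le ((min_le_right _ _).trans (min_le_left _ _))
    have h4 := hs2 t u hu
    have hd : (fderiv ℝ (Psi f γ) (t, u)).det ≠ 0 := by
      intro h5
      rw [h5] at h4
      norm_num at h4
    have hs : HasStrictFDerivAt (Psi f γ) (fderiv ℝ (Psi f γ) (t, u)) (t, u) :=
      hc.contDiffAt.hasStrictFDerivAt one_ne_zero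
    obtain ⟨e, he⟩ : ∃ e : (ℝ × ℝ) ≃L[ℝ] (ℝ × ℝ), (e : ℝ × ℝ →L[ℝ] ℝ × ℝ) = fderiv ℝ (Psi f γ) (t, u) :=
      ⟨ContinuousLinearMap.toContinuousLinearEquivOfDetNeZero _ hd,
        ContinuousLinearMap.coe_toContinuousLinearEquivOfDetNeZero _ hd⟩
    rw [← he] at hs
    rw [← hs.map_nhds_eq_of_equiv]
    exact image_mem_map (hop.mem_nhds hx)

end H25S
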