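import Pool.Agent.Lib.H25S.R8

/-!
# Chunk R9A (M)
`Γ = range (pr ∘ γ) = (pr ∘ γ) '' Icc 0 T` (periodicity) is compact and connected. For each `w = pr (γ t)` the box (`psi_sign`, `psi_box` for the orbit `fun τ => γ (t + τ)`) gives an open `V_w = pr '' (Psi '' square) ∋ w` with `V_w ∩ {dsc f = c} ⊆ Γ` (`dsc f (pr z) = f z = c` forces `u = 0` by `psi_sign`, so the point is `pr (γ (t + τ))`; here `f (γ 0) = c`).
`O = ⋃ V_w ⊇ Γ` open; choose `N` open with `Γ ⊆ N`, `closure N ⊆ O`, `closure N` compact (`exists_open_between_and_isCompact_closure`, `Cyl` is locally compact). `closure N ∩ {dsc f = c} = Γ`.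
-/

namespace H25S

open MeasureTheory H83D Set Filter Topology

/-- the box around one point of the orbit -/
theorem r9a_box {f : ℝ × ℝ → ℝ} (hf : P2 f) {γ : ℝ → ℝ × ℝ} (h : Orb f γ) (h0 : ¬ Crit f (γ 0)) (t : ℝ) :
    ∃ V : Set Cyl, IsOpen V ∧ pr (γ t) ∈ V ∧
      ∀ w ∈ V, dsc f w = f (γ 0) → w ∈ range fun t => pr (γ t) := by
  have hs : Orb f (fun τ => γ (t + τ)) := orb_shift h t
  have hs0 : ¬ Crit f ((fun τ => γ (t + τ)) 0) := orb_reg hf h h0 (t + 0)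
  obtain ⟨r1, hr1, h1⟩ := psi_sign hf hs hs0 1
  obtain ⟨r2, hr2, -, h2⟩ := psi_box hf hs hs0 0
  have hr : 0 < min (min r1 r2) 1 := lt_min (lt_min hr1 hr2) one_pos
  have hle1 : min (min r1 r2) 1 ≤ r1 := (min_le_left _ _).trans (min_le_left _ _)
  have hle2 : min (min r1 r2) 1 ≤ r2 := (min_le_left _ _).trans (min_le_right _ _)
  have hle3 : min (min r1 r2) 1 ≤ 1 := min_le_right _ _
  generalize min (min r1 r2) 1 = r at hr hle1 hle2 hle3
  have hsub : Ioo (-r) r ×ˢ Ioo (-r) r ⊆ Ioo (0 - r2) (0 + r2) ×ˢ Ioo (-r2) r2 := by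
    apply Set.prod_mono
    · exact Ioo_subset_Ioo (by linarith) (by linarith)
    · exact Ioo_subset_Ioo (by linarith) (by linarith)
  have hO : IsOpen (Psi f (fun τ => γ (t + τ)) '' (Ioo (-r) r ×ˢ Ioo (-r) r)) :=
    h2 _ hsub (isOpen_Ioo.prod isOpen_Ioo)
  refine ⟨pr '' (Psi f (fun τ => γ (t + τ)) '' (Ioo (-r) r ×ˢ Ioo (-r) r)), pr_open _ hO, ?_, ?_⟩
  · refine ⟨Psi f (fun τ => γ (t + τ)) (0, 0), ⟨(0, 0), ⟨⟨by linarith, by linarith⟩, ⟨by linarith, by linarith⟩⟩, rfl⟩, ?_⟩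
    rw [psi_zero]
    simp
  · rintro w ⟨z, ⟨⟨τ, u⟩, ⟨hτ, hu⟩, rfl⟩, rfl⟩ hw
    simp only [mem_Ioo] at hτ hu
    have hτ' : |τ| ≤ 1 := by
      rw [abs_le]
      constructor <;> linarith [hτ.1, hτ.2]
    have hu' : |u| < r1 := by
      rw [abs_lt]
      constructor <;> linarith [hu.1, hu.2]
    obtain ⟨ha, hb⟩ := h1 τ u hτ' hu'
    rw [dsc_pr hf.per] at hw
    have hl : f ((fun τ => γ (t + τ)) 0) = f (γ 0) := orb_level hf h (t + 0)
    rw [hl] at ha hb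
    have hu0 : u = 0 := by
      rcases lt_trichotomy u 0 with h3 | h3 | h3
      · have := hb h3.le
        linarith
      · exact h3
      · have := ha h3.le
        linarith
    subst hu0
    rw [psi_zero]
    exact ⟨t + τ, rfl⟩

theorem orb_nbhd {f : ℝ × ℝ → ℝ} (hf : P2 f) {γ : ℝ → ℝ × ℝ} (h : Orb f γ) (h0 : ¬ Crit f (γ 0)) {T : ℝ} {k : ℤ} (hT : 0 < T)
    (hp : ∀ t, γ (t + T) = γ t + iv (k, 0)) :
    IsCompact (range fun t => pr (γ t)) ∧ IsConnected (range fun t => pr (γ t)) ∧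
      ∃ N : Set Cyl, IsOpen N ∧ IsCompact (closure N) ∧ (range fun t => pr (γ t)) ⊆ N ∧
        closure N ∩ {w | dsc f w = f (γ 0)} = range fun t => pr (γ t) := by
  have hc : Continuous fun t => pr (γ t) := pr_cont.comp (orb_cont h)
  have hper : Function.Periodic (fun t => pr (γ t)) T := by
    intro t
    change pr (γ (t + T)) = pr (γ t)
    rw [hp t]
    exact (pr_eq.2 ⟨k, rfl⟩).symm
  have hK : IsCompact (range fun t => pr (γ t)) := hper.compact_of_continuous hT.ne' hc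
  refine ⟨hK, isConnected_range hc, ?_⟩
  choose V hV1 hV2 hV3 using r9a_box hf h h0
  have hO : IsOpen (⋃ t, V t) := isOpen_iUnion hV1
  have hsub : (range fun t => pr (γ t)) ⊆ ⋃ t, V t := by
    rintro w ⟨t, rfl⟩
    exact mem_iUnion.2 ⟨t, hV2 t⟩
  obtain ⟨N, hN1, hN2, hN3, hN4⟩ := exists_open_between_and_isCompact_closure hK hO hsub
  refine ⟨N, hN1, hN4, hN2, ?_⟩
  apply Subset.antisymm
  · rintro w ⟨hw1, hw2⟩
    obtain ⟨t, ht⟩ := mem_iUnion.1 (hN3 hw1)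
    exact hV3 t w ht hw2
  · rintro w ⟨t, rfl⟩
    refine ⟨subset_closure (hN2 ⟨t, rfl⟩), ?_⟩
    change dsc f (pr (γ t)) = f (γ 0)
    rw [dsc_pr hf.per, orb_level hf h t]

end H25S
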