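import Pool.Agent.Lib.H25S.JS
import Pool.Agent.Lib.H25S.R9A

/-!
# Chunk R9 (M)
`Γ = range (pr ∘ γ) ⊆ frontier (Up K)` (`orb_front`), `f (γ 0) = c` (`front_level`). `sep_level` for `dsc f`: `Wm, Wp, N'`. (a) `K ∩ Wm = ∅`: `K ∩ Wm` is relatively open in `K`; it is relatively closed: let `x ∈ K`, `x ∈ closure (K ∩ Wm)`, `x ∉ Wm`; `closure Wm ∩ Wp = ∅`, so `x ∈ Γ ⊆ N'`; so there is a point `y ∈ K ∩ Wm ∩ N'`: `dsc f y ≥ c` (`K ⊆ SL f c`);
`dsc f y > c` would give `y ∈ Wp`, so `dsc f y = c`; take moreover `y ∈ N` (intersect `N'` with `N`), then `y ∈ Γ`, not in `Wm`: contradiction. `K` is connected and `pr (γ 0) ∈ K \ Wm`, so `K ∩ Wm = ∅`. (b) `Up K` is connected and disjoint from `Γ ⊆ K`, so it is in `Wm` or in `Wp`; by `comp_box` it contains points `pr (Psi (0,u))`, `u < 0` small, in `N'`, with `f < c` (`psi_sign`),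
so `Up K ⊆ Wm`. (c) `Wm ⊆ Up K`: let `z ∈ Wm`, `V = connectedComponentIn Wm z`, open. Its frontier is disjoint from `Wm` (a point of `Wm` has a connected neighbourhood in `Wm`) and from `Wp`, so `⊆ Γ`. `V ≠ univ` is not clopen, so there is `w ∈ frontier V ⊆ Γ`, `w = pr (γ t)`; `comp_box` at `w` (shifted orbit): a neighbourhood of `w` (image of the square, open by `psi_box`, `pr_open`) consists
of points of `K` and of `Up K`; `V` meets it, `V ∩ K = ∅` by (a), so `V` meets `Up K`, `V ⊆ Up K` (`up_max`). (d) `Up K = Wm`, `frontier Wm ⊆ Γ`.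
-/

namespace H25S

open MeasureTheory H83D Set Filter Topology

/-- A point of `Up K` below the level. -/
theorem r9_pt {f : ℝ × ℝ → ℝ} (hf : P2 f) {c : ℝ} {K : Set Cyl} (hK : IsComp K (SL f c)) {γ : ℝ → ℝ × ℝ} (h : Orb f γ)
    (h0 : ¬ Crit f (γ 0)) (hz : pr (γ 0) ∈ frontier (Up K)) {N' : Set Cyl} (hN' : IsOpen N') (hm : pr (γ 0) ∈ N') :
    ∃ w ∈ N', w ∈ Up K ∧ dsc f w < f (γ 0) := by
  obtain ⟨r, hr, hbox⟩ := comp_box hf hK h h0 hz
  obtain ⟨r', hr', hsgn⟩ := psi_sign hf h h0 1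
  have hcont : Continuous (fun u : ℝ => pr (Psi f γ (0, u))) := by
    refine pr_cont.comp ?_
    show Continuous (fun u : ℝ => γ 0 + u • nv f (γ 0))
    exact continuous_const.add (continuous_id.smul continuous_const)
  have hopen : IsOpen ((fun u : ℝ => pr (Psi f γ (0, u))) ⁻¹' N') := hN'.preimage hcont
  have h00 : (0 : ℝ) ∈ (fun u : ℝ => pr (Psi f γ (0, u))) ⁻¹' N' := by
    show pr (Psi f γ (0, 0)) ∈ N'
    rw [psi_zero]
    exact hm
  obtain ⟨ε, hε, hball⟩ := Metric.isOpen_iff.1 hopen 0 h00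
  set u : ℝ := -(min (min r r') ε / 2) with hu
  have hpos : 0 < min (min r r') ε := lt_min (lt_min hr hr') hε
  have hu0 : u < 0 := by
    rw [hu]
    linarith
  have hu1 : |u| < min (min r r') ε := by
    rw [hu, abs_neg, abs_of_pos (by linarith)]
    linarith
  have hur : |u| < r := hu1.trans_le ((min_le_left _ _).trans (min_le_left _ _))
  have hur' : |u| < r' := hu1.trans_le ((min_le_left _ _).trans (min_le_right _ _))
  have huε : |u| < ε := hu1.trans_le (min_le_right _ _)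
  refine ⟨pr (Psi f γ (0, u)), ?_, (hbox 0 u (by rwa [abs_zero]) hur).2 hu0, ?_⟩
  · exact hball (by rw [Metric.mem_ball, dist_zero_right, Real.norm_eq_abs]; exact huε)
  · rw [dsc_pr hf.per]
    have h1 := (hsgn 0 u (by rw [abs_zero]; exact zero_le_one) hur').2 hu0.le
    linarith

/-- Near a point of the orbit there are only points of `K` and of `Up K`. -/
theorem r9_nb {f : ℝ × ℝ → ℝ} (hf : P2 f) {c : ℝ} {K : Set Cyl} (hK : IsComp K (SL f c))
    (hreg : ∀ z, pr z ∈ frontier (Up K) → ¬ Crit f z) {γ : ℝ → ℝ × ℝ} (h : Orb f γ) (hz : pr (γ 0) ∈ frontier (Up K)) (t : ℝ) :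
    ∃ O : Set Cyl, IsOpen O ∧ pr (γ t) ∈ O ∧ O ⊆ K ∪ Up K := by
  have h' : Orb f (fun τ => γ (t + τ)) := orb_shift h t
  have hz' : pr ((fun τ => γ (t + τ)) 0) ∈ frontier (Up K) := by
    show pr (γ (t + 0)) ∈ frontier (Up K)
    exact orb_front hf hK hreg h hz _
  have h0' : ¬ Crit f ((fun τ => γ (t + τ)) 0) := hreg _ hz'
  obtain ⟨r1, hr1, hbox⟩ := comp_box hf hK h' h0' hz'
  obtain ⟨r2, hr2, -, himg⟩ := psi_box hf h' h0' 0
  have hr : 0 < min r1 r2 := lt_min hr1 hr2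
  refine ⟨pr '' (Psi f (fun τ => γ (t + τ)) '' (Ioo (-(min r1 r2)) (min r1 r2) ×ˢ Ioo (-(min r1 r2)) (min r1 r2))), ?_, ?_, ?_⟩
  · refine pr_open _ (himg _ ?_ (isOpen_Ioo.prod isOpen_Ioo))
    rw [zero_sub, zero_add]
    exact Set.prod_mono (Ioo_subset_Ioo (neg_le_neg (min_le_right _ _)) (min_le_right _ _))
      (Ioo_subset_Ioo (neg_le_neg (min_le_right _ _)) (min_le_right _ _))
  · refine ⟨γ t, ⟨(0, 0), ⟨⟨by linarith, hr⟩, ⟨by linarith, hr⟩⟩, ?_⟩, rfl⟩
    rw [psi_zero]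
    show γ (t + 0) = γ t
    rw [add_zero]
  · rintro _ ⟨_, ⟨⟨τ, u⟩, ⟨hτ, hu⟩, rfl⟩, rfl⟩
    have hτ' : |τ| < r1 := abs_lt.2 ⟨by linarith [hτ.1, min_le_left r1 r2], lt_of_lt_of_le hτ.2 (min_le_left _ _)⟩
    have hu' : |u| < r1 := abs_lt.2 ⟨by linarith [hu.1, min_le_left r1 r2], lt_of_lt_of_le hu.2 (min_le_left _ _)⟩
    rcases lt_or_ge u 0 with h1 | h1
    · exact Or.inr ((hbox τ u hτ' hu').2 h1)
    · exact Or.inl ((hbox τ u hτ' hu').1 h1)

/-- The frontier of a component of an open set. -/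
theorem r9_fr {W : Set Cyl} (hW : IsOpen W) {z w : Cyl} (hw : w ∈ frontier (connectedComponentIn W z)) : w ∉ W := by
  intro hwW
  have hV : IsOpen (connectedComponentIn W z) := hW.connectedComponentIn
  have hVw : IsOpen (connectedComponentIn W w) := hW.connectedComponentIn
  have hwc : w ∈ closure (connectedComponentIn W z) := hw.1
  obtain ⟨y, hy1, hy2⟩ := mem_closure_iff.1 hwc _ hVw (mem_connectedComponentIn hwW)
  have e : connectedComponentIn W w = connectedComponentIn W z :=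
    (connectedComponentIn_eq hy1).trans (connectedComponentIn_eq hy2).symm
  have hwV : w ∈ connectedComponentIn W z := e ▸ mem_connectedComponentIn hwW
  rw [hV.frontier_eq] at hw
  exact hw.2 hwV

theorem front_orb {f : ℝ × ℝ → ℝ} (hf : P2 f) {c : ℝ} {K : Set Cyl} (hK : IsComp K (SL f c))
    (hreg : ∀ z, pr z ∈ frontier (Up K) → ¬ Crit f z) {γ : ℝ → ℝ × ℝ} (h : Orb f γ) (hz : pr (γ 0) ∈ frontier (Up K))
    {T : ℝ} {k : ℤ} (hT : 0 < T) (hp : ∀ t, γ (t + T) = γ t + iv (k, 0)) :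
    frontier (Up K) = range (fun t => pr (γ t)) := by
  have hcl : IsClosed K := hK.cpt.isClosed
  have hfr : frontier (Up K) ⊆ K := up_front hcl
  have hΓf : range (fun t => pr (γ t)) ⊆ frontier (Up K) := by
    rintro _ ⟨t, rfl⟩
    exact orb_front hf hK hreg h hz t
  have hc : f (γ 0) = c := front_level hf hK hz
  have h0 : ¬ Crit f (γ 0) := hreg _ hz
  obtain ⟨kΓ, cΓ, N, hN, cN, hΓN, hlev⟩ := orb_nbhd hf h h0 hT hp
  obtain ⟨Wm, Wp, N', hWm, hWp, hd, hun, hN', hΓN', hsg⟩ := sep_level (dsc_cont hf.smooth.continuous hf.per) hN cN cΓ kΓ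
    hΓN hlev
  set Γ : Set Cyl := range (fun t => pr (γ t)) with hΓ
  have hmemΓ : ∀ w : Cyl, w ∉ Wm → w ∉ Wp → w ∈ Γ := by
    intro w h1 h2
    by_contra h3
    have h4 : w ∈ Wm ∪ Wp := by
      rw [hun]
      exact h3
    rcases h4 with h5 | h5
    · exact h1 h5
    · exact h2 h5
  have hWmΓ : ∀ w ∈ Wm, w ∉ Γ := by
    intro w hw
    have : w ∈ Wm ∪ Wp := Or.inl hw
    rw [hun] at this
    exact this
  have hγ0 : pr (γ 0) ∈ Γ := ⟨0, rfl⟩
  -- (a)
  have hNN : ∀ y ∈ K, y ∈ N ∩ N' → y ∉ Wm := by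
    intro y hyK hyN hyW
    have h1 : c ≤ dsc f y := hK.sub hyK
    rcases h1.lt_or_eq with h2 | h2
    · rw [← hc] at h2
      exact Set.disjoint_left.1 hd hyW ((hsg y hyN.2).2 h2)
    · refine hWmΓ y hyW ?_
      rw [← hlev]
      refine ⟨subset_closure hyN.1, ?_⟩
      show dsc f y = f (γ 0)
      rw [hc, ← h2]
  have hKW : ∀ y ∈ K, y ∉ Wm := by
    by_contra hcon
    push Not at hcon
    obtain ⟨y, hyK, hyW⟩ := hcon
    have hcov : K ⊆ Wm ∪ (Wp ∪ (N ∩ N')) := by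
      intro x hx
      by_cases h1 : x ∈ Wm
      · exact Or.inl h1
      by_cases h2 : x ∈ Wp
      · exact Or.inr (Or.inl h2)
      · exact Or.inr (Or.inr ⟨hΓN (hmemΓ x h1 h2), hΓN' (hmemΓ x h1 h2)⟩)
    obtain ⟨x, hxK, hx1, hx2⟩ := hK.con.isPreconnected Wm (Wp ∪ (N ∩ N')) hWm (hWp.union (hN.inter hN')) hcov
      ⟨y, hyK, hyW⟩ ⟨pr (γ 0), hfr hz, Or.inr ⟨hΓN hγ0, hΓN' hγ0⟩⟩
    rcases hx2 with hx2 | hx2
    · exact Set.disjoint_left.1 hd hx1 hx2
    · exact hNN x hxK hx2 hx1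
  -- (b)
  have hUW : Up K ⊆ Wm := by
    have hcov : Up K ⊆ Wm ∪ Wp := by
      intro x hx
      rw [hun]
      intro hxΓ
      exact Set.disjoint_left.1 (up_disj K) hx (hfr (hΓf hxΓ))
    rcases (up_conn hK.cpt).isPreconnected.subset_or_subset hWm hWp hd hcov with h1 | h1
    · exact h1
    · exfalso
      obtain ⟨w, hw1, hw2, hw3⟩ := r9_pt hf hK h h0 hz hN' (hΓN' hγ0)
      exact Set.disjoint_left.1 hd ((hsg w hw1).1 hw3) (h1 hw2)
  -- (c)
  have hWU : Wm ⊆ Up K := by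
    intro z hzW
    set V : Set Cyl := connectedComponentIn Wm z with hV
    have hVo : IsOpen V := hWm.connectedComponentIn
    have hVs : V ⊆ Wm := connectedComponentIn_subset Wm z
    have hVp : IsPreconnected V := isPreconnected_connectedComponentIn
    have hVz : z ∈ V := mem_connectedComponentIn hzW
    have hfn : (frontier V).Nonempty := by
      rw [Set.nonempty_iff_ne_empty]
      intro he
      have hcl' : IsClopen V := isClopen_iff_frontier_eq_empty.2 he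
      have huniv : V = univ := hcl'.eq_univ ⟨z, hVz⟩
      have : pr (γ 0) ∈ V := by
        rw [huniv]
        trivial
      exact hWmΓ _ (hVs this) hγ0
    obtain ⟨w, hw⟩ := hfn
    have hw1 : w ∉ Wm := r9_fr hWm hw
    have hw2 : w ∉ Wp := by
      intro hwp
      obtain ⟨y, hy1, hy2⟩ := mem_closure_iff.1 hw.1 _ hWp hwp
      exact Set.disjoint_left.1 hd (hVs hy2) hy1
    obtain ⟨t, rfl⟩ := hmemΓ w hw1 hw2
    obtain ⟨O, hO, hwO, hOs⟩ := r9_nb hf hK hreg h hz t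
    obtain ⟨y, hy1, hy2⟩ := mem_closure_iff.1 hw.1 _ hO hwO
    have hyU : y ∈ Up K := by
      rcases hOs hy1 with h1 | h1
      · exact absurd (hVs hy2) (hKW y h1)
      · exact h1
    refine up_max hVp ?_ ⟨y, hy2, hyU⟩ hVz
    rw [Set.disjoint_left]
    intro x hx hxK
    exact hKW x hxK (hVs hx)
  have hEq : Up K = Wm := Set.Subset.antisymm hUW hWU
  refine Set.Subset.antisymm ?_ hΓf
  intro w hw
  rw [hEq] at hw
  refine hmemΓ w ?_ ?_
  · intro hw1
    rw [hWm.frontier_eq] at hw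
    exact hw.2 hw1
  · intro hwp
    obtain ⟨y, hy1, hy2⟩ := mem_closure_iff.1 hw.1 _ hWp hwp
    exact Set.disjoint_left.1 hd hy2 hy1

end H25S
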