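import Pool.Agent.Lib.H25S.Defs2
import Pool.Agent.Lib.H25S.R9
import Pool.Agent.Lib.H25S.R10

/-!
# Chunk R11 (S)
`frontier (Up K)` is nonempty (`Up K` is open, nonempty, `≠ univ` as `K` is nonempty; `Cyl` is connected): `pr z₀` in it, `γ` the orbit of `z₀` (`orb_ex`). `orb_close`, `front_orb`, `tube_ex`. `inK`: the set `{pr (Psi (t,u)) | 0 ≤ u < ε}` is the image of a convex set, in `SL f c` (`f (γ 0) = c`, sign), contains `pr (γ 0) ∈ K`: `hK.max`. `inU`: `{pr (Psi (t,u)) | -ε < u < 0}` is preconnected,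
disjoint from `K ⊆ SL f c` (sign), and meets `Up K` (`comp_box`, small `u`): `up_max`.
-/

namespace H25S

open MeasureTheory H83D Set Filter Topology

theorem tube_main {f : ℝ × ℝ → ℝ} (hf : P2 f) {c : ℝ} {K : Set Cyl} (hK : IsComp K (SL f c))
    (hreg : ∀ z, pr z ∈ frontier (Up K) → ¬ Crit f z) :
    ∃ (γ : ℝ → ℝ × ℝ) (T : ℝ) (k : ℤ) (ε : ℝ), Tube f γ T k ε K ∧ f (γ 0) = c := by
  have hKn : K.Nonempty := hK.con.nonempty
  have hfr : (frontier (Up K)).Nonempty := by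
    by_contra hne
    have h1 : frontier (Up K) = ∅ := Set.not_nonempty_iff_eq_empty.1 hne
    have h2 : IsClopen (Up K) := isClopen_iff_frontier_eq_empty.2 h1
    rcases isClopen_iff.1 h2 with h3 | h3
    · exact (up_conn hK.cpt).nonempty.ne_empty h3
    · obtain ⟨x, hx⟩ := hKn
      have h4 : x ∈ Up K := by rw [h3]; trivial
      exact (Set.disjoint_left.1 (up_disj K)) h4 hx
  obtain ⟨w, hw⟩ := hfr
  obtain ⟨z₀, hz₀⟩ := pr_surj w
  obtain ⟨γ, hγ, hγ0⟩ := orb_ex hf z₀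
  have hz : pr (γ 0) ∈ frontier (Up K) := by rw [hγ0, hz₀]; exact hw
  have h0 : ¬ Crit f (γ 0) := hreg _ hz
  obtain ⟨T, k, hT, hp, hmin⟩ := orb_close hf hK hreg hγ hz
  obtain ⟨ε, hε, hinj, hsign, hopn⟩ := tube_ex hf hγ h0 hT hp hmin
  have hlev : f (γ 0) = c := front_level hf hK hz
  have hPc : Continuous (Psi f γ) := (psi_cd hf hγ h0).continuous
  have hcc : Continuous fun p : ℝ × ℝ => pr (Psi f γ p) := pr_cont.comp hPc
  have hγK : pr (γ 0) ∈ K := up_front hK.cpt.isClosed hz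
  refine ⟨γ, T, k, ε, ?_, hlev⟩
  refine { p2 := hf, orb := hγ, reg := h0, Tpos := hT, epos := hε, per := hp, inj := ?_,
           opn := hopn, cpt := hK.cpt, inK := ?_, inU := ?_, fro := ?_ }
  · intro t u t' u' hu hu' he
    exact hinj t u t' u' hu hu' he
  · intro t u hu hu'
    have hS : IsPreconnected ((fun p : ℝ × ℝ => pr (Psi f γ p)) '' (univ ×ˢ Ico 0 ε)) :=
      ((convex_univ.prod (convex_Ico 0 ε)).isPreconnected).image _ hcc.continuousOn
    have hsub : (fun p : ℝ × ℝ => pr (Psi f γ p)) '' (univ ×ˢ Ico 0 ε) ⊆ SL f c := by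
      rintro x ⟨⟨t', u'⟩, ⟨-, hu1⟩, rfl⟩
      have hu2 : 0 ≤ u' ∧ u' < ε := hu1
      refine (mem_sl hf.per c _).2 ?_
      have h1 := (hsign t' u' (abs_lt.2 ⟨by linarith [hu2.1], hu2.2⟩)).1 hu2.1
      rw [hlev] at h1
      linarith [hu2.1]
    have hmeet : (((fun p : ℝ × ℝ => pr (Psi f γ p)) '' (univ ×ˢ Ico 0 ε)) ∩ K).Nonempty := by
      refine ⟨pr (γ 0), ⟨(0, 0), ⟨trivial, ⟨le_refl 0, hε⟩⟩, ?_⟩, hγK⟩
      simp only [psi_zero]
    exact hK.max _ hS hsub hmeet ⟨(t, u), ⟨trivial, ⟨hu, hu'⟩⟩, rfl⟩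
  · intro t u hu hu'
    have hS : IsPreconnected ((fun p : ℝ × ℝ => pr (Psi f γ p)) '' (univ ×ˢ Ioo (-ε) 0)) :=
      ((convex_univ.prod (convex_Ioo (-ε) 0)).isPreconnected).image _ hcc.continuousOn
    have hdis : Disjoint ((fun p : ℝ × ℝ => pr (Psi f γ p)) '' (univ ×ˢ Ioo (-ε) 0)) K := by
      rw [Set.disjoint_left]
      rintro x ⟨⟨t', u'⟩, ⟨-, hu1⟩, rfl⟩ hxK
      have hu2 : -ε < u' ∧ u' < 0 := hu1
      have h1 := (hsign t' u' (abs_lt.2 ⟨hu2.1, by linarith [hu2.2]⟩)).2 hu2.2.le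
      have h2 : c ≤ f (Psi f γ (t', u')) := (mem_sl hf.per c _).1 (hK.sub hxK)
      rw [hlev] at h1
      linarith [hu2.2]
    obtain ⟨r, hr, hbox⟩ := comp_box hf hK hγ h0 hz
    have hmeet : (((fun p : ℝ × ℝ => pr (Psi f γ p)) '' (univ ×ˢ Ioo (-ε) 0)) ∩ Up K).Nonempty := by
      have hm : 0 < min r ε := lt_min hr hε
      have hm1 : min r ε ≤ r := min_le_left _ _
      have hm2 : min r ε ≤ ε := min_le_right _ _
      refine ⟨pr (Psi f γ (0, -(min r ε) / 2)), ⟨(0, -(min r ε) / 2), ⟨trivial, ?_⟩, rfl⟩, ?_⟩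
      · constructor
        · change -ε < -(min r ε) / 2
          linarith
        · change -(min r ε) / 2 < 0
          linarith
      · refine (hbox 0 (-(min r ε) / 2) (by simpa using hr) ?_).2 (by linarith)
        rw [abs_lt]
        constructor <;> linarith
    exact up_max hS hdis hmeet ⟨(t, u), ⟨trivial, ⟨hu, hu'⟩⟩, rfl⟩
  · exact front_orb hf hK hreg hγ hz hT hp

end H25S
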