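import Pool.Agent.Lib.H25S.A3

/-!
# Chunk R3 (M)
`γ' = X (γ)` with `X z = (d2 f z, - d1 f z)` of class `C¹`, so `γ` is `C¹` and then `X ∘ γ` is `C¹`, so `γ` is `C²` (`contDiff_succ_iff_deriv` / `contDiff_one_iff_deriv`; `deriv γ = X ∘ γ`). `nv f ∘ γ` is `C¹`: the denominator does not vanish (`orb_reg`). So `Psi` is `C¹`. At `(t, 0)` the derivative is `(a, b) ↦ a • X (γ t) + b • nv f (γ t)`;
its determinant (`LinearMap.det` in the standard basis of `ℝ × ℝ`, e.g. `LinearMap.det_toLin` / `Basis.finTwoProd`; `ContinuousLinearMap.det`) is `d2 * d2 / n + d1 * d1 / n = 1`. See whether the library has `det_prod_two` or similar (grep `finTwoProd`).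
-/

namespace H25S

open MeasureTheory H83D Set Filter Topology

theorem r3_d1 {f : ℝ × ℝ → ℝ} (hf : P2 f) : ContDiff ℝ 1 (d1 f) := by
  have h1 : ContDiff ℝ 1 (fderiv ℝ f) := hf.smooth.fderiv_right (by norm_num)
  exact h1.clm_apply contDiff_const

theorem r3_d2 {f : ℝ × ℝ → ℝ} (hf : P2 f) : ContDiff ℝ 1 (d2 f) := by
  have h1 : ContDiff ℝ 1 (fderiv ℝ f) := hf.smooth.fderiv_right (by norm_num)
  exact h1.clm_apply contDiff_const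

theorem r3_gam {f : ℝ × ℝ → ℝ} (hf : P2 f) {γ : ℝ → ℝ × ℝ} (h : Orb f γ) : ContDiff ℝ 1 γ := by
  rw [contDiff_one_iff_deriv]
  refine ⟨fun t => (h t).differentiableAt, ?_⟩
  have h1 : deriv γ = fun t => (d2 f (γ t), -d1 f (γ t)) := by
    funext t
    exact (h t).deriv
  rw [h1]
  exact ((r3_d2 hf).continuous.comp (orb_cont h)).prodMk ((r3_d1 hf).continuous.comp (orb_cont h)).neg

theorem r3_ne {f : ℝ × ℝ → ℝ} {z : ℝ × ℝ} (hz : ¬ Crit f z) : d1 f z ^ 2 + d2 f z ^ 2 ≠ 0 := by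
  intro h1
  apply hz
  have h2 : d1 f z ^ 2 = 0 := by nlinarith [sq_nonneg (d1 f z), sq_nonneg (d2 f z)]
  have h3 : d2 f z ^ 2 = 0 := by nlinarith [sq_nonneg (d1 f z), sq_nonneg (d2 f z)]
  exact ⟨pow_eq_zero_iff (two_ne_zero) |>.mp h2, pow_eq_zero_iff (two_ne_zero) |>.mp h3⟩

theorem r3_nv {f : ℝ × ℝ → ℝ} (hf : P2 f) {γ : ℝ → ℝ × ℝ} (h : Orb f γ) (h0 : ¬ Crit f (γ 0)) :
    ContDiff ℝ 1 (fun t => nv f (γ t)) := by
  have g1 : ContDiff ℝ 1 (fun t => d1 f (γ t)) := (r3_d1 hf).comp (r3_gam hf h)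
  have g2 : ContDiff ℝ 1 (fun t => d2 f (γ t)) := (r3_d2 hf).comp (r3_gam hf h)
  have g3 : ContDiff ℝ 1 (fun t => d1 f (γ t) ^ 2 + d2 f (γ t) ^ 2) := (g1.pow 2).add (g2.pow 2)
  have g4 : ∀ t, d1 f (γ t) ^ 2 + d2 f (γ t) ^ 2 ≠ 0 := fun t => r3_ne (orb_reg hf h h0 t)
  exact (g1.div g3 g4).prodMk (g2.div g3 g4)

theorem r3_det (L : ℝ × ℝ →L[ℝ] ℝ × ℝ) {x y : ℝ × ℝ} (hx : L (1, 0) = x) (hy : L (0, 1) = y) :
    L.det = x.1 * y.2 - x.2 * y.1 := by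
  have h1 : L.det = LinearMap.det (L : ℝ × ℝ →ₗ[ℝ] ℝ × ℝ) := rfl
  rw [h1, ← LinearMap.det_toMatrix (Module.Basis.finTwoProd ℝ), Matrix.det_fin_two]
  simp only [LinearMap.toMatrix_apply, Module.Basis.finTwoProd_zero, Module.Basis.finTwoProd_one,
    Module.Basis.coe_finTwoProd_repr, ContinuousLinearMap.coe_coe, hx, hy, Matrix.cons_val_zero,
    Matrix.cons_val_one]
  ring

theorem psi_cd {f : ℝ × ℝ → ℝ} (hf : P2 f) {γ : ℝ → ℝ × ℝ} (h : Orb f γ) (h0 : ¬ Crit f (γ 0)) : ContDiff ℝ 1 (Psi f γ) := by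
  have g1 : ContDiff ℝ 1 (fun p : ℝ × ℝ => γ p.1) := (r3_gam hf h).comp contDiff_fst
  have g2 : ContDiff ℝ 1 (fun p : ℝ × ℝ => nv f (γ p.1)) := (r3_nv hf h h0).comp contDiff_fst
  exact g1.add (contDiff_snd.smul g2)

theorem psi_zero (f : ℝ × ℝ → ℝ) (γ : ℝ → ℝ × ℝ) (t : ℝ) : Psi f γ (t, 0) = γ t := by
  simp [Psi]

theorem psi_det {f : ℝ × ℝ → ℝ} (hf : P2 f) {γ : ℝ → ℝ × ℝ} (h : Orb f γ) (h0 : ¬ Crit f (γ 0)) (t : ℝ) :
    (fderiv ℝ (Psi f γ) (t, 0)).det = 1 := by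
  have g2 : ContDiff ℝ 1 (fun p : ℝ × ℝ => nv f (γ p.1)) := (r3_nv hf h h0).comp contDiff_fst
  have e1 : HasFDerivAt (fun p : ℝ × ℝ => γ p.1) _ ((t, 0) : ℝ × ℝ) :=
    HasFDerivAt.comp ((t, 0) : ℝ × ℝ) (h t).hasFDerivAt hasFDerivAt_fst
  have e2 := (g2.differentiable one_ne_zero ((t, 0) : ℝ × ℝ)).hasFDerivAt
  have e3 := e1.add ((hasFDerivAt_snd (p := ((t, 0) : ℝ × ℝ))).smul e2)
  have e4 : HasFDerivAt (Psi f γ) _ ((t, 0) : ℝ × ℝ) := e3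
  have hx : fderiv ℝ (Psi f γ) (t, 0) (1, 0) = (d2 f (γ t), -d1 f (γ t)) := by
    rw [e4.fderiv]
    simp
  have hy : fderiv ℝ (Psi f γ) (t, 0) (0, 1) = nv f (γ t) := by
    rw [e4.fderiv]
    simp
  rw [r3_det _ hx hy]
  have h4 := r3_ne (orb_reg hf h h0 t)
  simp only [nv]
  field_simp
  ring

end H25S
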