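import Pool.Agent.Lib.H25S.T0

/-!
# Chunk T3 (S)
`{w | M ≤ w.2}` is `univ ×ˢ Ici M` (product of preconnected sets; `AddCircle 1` is connected: `PathConnectedSpace` instance). Compact sets are bounded: `|w.2|` is continuous, `IsCompact.exists_bound_of_continuousOn` for `fun w => w.2`.
-/

namespace H25S

open MeasureTheory H83D Set Filter Topology

theorem t3_conn : IsConnected (univ : Set (AddCircle (1 : ℝ))) := by
  have h : IsConnected (range ((↑) : ℝ → AddCircle (1 : ℝ))) :=
    isConnected_range (AddCircle.continuous_mk' 1)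
  have e : range ((↑) : ℝ → AddCircle (1 : ℝ)) = univ :=
    range_eq_univ.2 (QuotientAddGroup.mk_surjective (s := AddSubgroup.zmultiples (1 : ℝ)))
  rw [← e]
  exact h

theorem end_up (M : ℝ) : IsConnected {w : Cyl | M ≤ w.2} := by
  have e : {w : Cyl | M ≤ w.2} = (univ : Set (AddCircle (1 : ℝ))) ×ˢ Ici M := by
    ext w; simp
  rw [e]
  exact t3_conn.prod isConnected_Ici

theorem end_dn (M : ℝ) : IsConnected {w : Cyl | w.2 ≤ M} := by
  have e : {w : Cyl | w.2 ≤ M} = (univ : Set (AddCircle (1 : ℝ))) ×ˢ Iic M := by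
    ext w; simp
  rw [e]
  exact t3_conn.prod isConnected_Iic

theorem cpt_bd {K : Set Cyl} (hK : IsCompact K) : ∃ M : ℝ, 0 < M ∧ ∀ w ∈ K, |w.2| < M := by
  obtain ⟨C, hC⟩ := hK.exists_bound_of_continuousOn (f := fun w : Cyl => w.2) continuous_snd.continuousOn
  refine ⟨|C| + 1, by positivity, fun w hw => ?_⟩
  have h := hC w hw
  rw [Real.norm_eq_abs] at h
  have h2 := le_abs_self C
  linarith

end H25S
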