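import Pool.Agent.Lib.H25S.T1
import Pool.Agent.Lib.H25S.T3

/-!
# Chunk T4 (M)
Let `K` be compact, `|w.2| < M` on `K`. (a) `{w | M ≤ w.2}` is preconnected and disjoint from `K`, so it is contained in `Up K`. (b) Preconnected: `Up K` is the union of the sets `S` of the definition; any two of them meet (both contain an upper end).
Use `isPreconnected_of_forall` with the base point `(0, M)` (enlarge `S` by the end: `IsPreconnected.union`). (c) Disjoint from `K`: clear. (d) If `S` is preconnected, disjoint from `K` and meets `Up K` at `z`, with the set `S'` for `z`, then `S ∪ S'` shows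
that `S ⊆ Up K`. (e) Open: `z ∈ Up K`, `z ∉ K`, `Kᶜ` open: `connectedComponentIn Kᶜ z` is open (`IsOpen.connectedComponentIn`), preconnected, disjoint from `K`, so it is in `Up K` by (d). (f) `z ∈ frontier (Up K)`, `z ∉ K`: the component of (e) meets `Up K`
(`z ∈ closure (Up K)`), so it is in `Up K` and `z ∈ Up K = interior (Up K)`: contradiction.
-/

namespace H25S

open MeasureTheory H83D Set Filter Topology

theorem t4_end {K : Set Cyl} {M : ℝ} (hK : ∀ w ∈ K, w.2 < M) : ∀ w : Cyl, M ≤ w.2 → w ∈ Up K := by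
  intro w hw
  refine ⟨{w | M ≤ w.2}, (end_up M).isPreconnected, ?_, hw, M, fun w h => h⟩
  rw [Set.disjoint_left]
  intro z hz hzK
  exact absurd (hK z hzK) (not_lt.2 hz)

theorem t4_max {K S : Set Cyl} (hS : IsPreconnected S) (hd : Disjoint S K) (hn : (S ∩ Up K).Nonempty) : S ⊆ Up K := by
  obtain ⟨z, hzS, S', hS', hd', hz', M, hM⟩ := hn
  intro w hw
  exact ⟨S ∪ S', IsPreconnected.union z hzS hz' hS hS', Disjoint.union_left hd hd', Or.inl hw, M,
    fun v hv => Or.inr (hM v hv)⟩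

theorem up_end {K : Set Cyl} {M : ℝ} (hK : ∀ w ∈ K, w.2 < M) : ∀ w : Cyl, M ≤ w.2 → w ∈ Up K := by
  intro w hw
  refine ⟨{w | M ≤ w.2}, (end_up M).isPreconnected, ?_, hw, M, fun w h => h⟩
  rw [Set.disjoint_left]
  intro z hz hzK
  exact absurd (hK z hzK) (not_lt.2 hz)

theorem up_open {K : Set Cyl} (hK : IsClosed K) : IsOpen (Up K) := by
  rw [isOpen_iff_mem_nhds]
  intro z hz
  have hzK : z ∈ Kᶜ := by
    obtain ⟨S, _, hd, hzS, _⟩ := hz
    exact Set.disjoint_left.1 hd hzS
  have ho : IsOpen (connectedComponentIn Kᶜ z) := hK.isOpen_compl.connectedComponentIn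
  refine Filter.mem_of_superset (ho.mem_nhds (mem_connectedComponentIn hzK)) ?_
  refine t4_max isPreconnected_connectedComponentIn ?_ ⟨z, mem_connectedComponentIn hzK, hz⟩
  rw [Set.disjoint_left]
  intro w hw
  exact connectedComponentIn_subset _ _ hw

theorem up_conn {K : Set Cyl} (hK : IsCompact K) : IsConnected (Up K) := by
  obtain ⟨M, hM, hMK⟩ := cpt_bd hK
  have hMK' : ∀ w ∈ K, w.2 < M := fun w hw => (abs_lt.1 (hMK w hw)).2
  have h0 : ((0, M) : Cyl) ∈ Up K := t4_end hMK' _ le_rfl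
  refine ⟨⟨_, h0⟩, isPreconnected_of_forall ((0, M) : Cyl) fun y hy => ?_⟩
  obtain ⟨S, hS, hd, hyS, M', hM'⟩ := hy
  have hE : IsPreconnected {w : Cyl | M ≤ w.2} := (end_up M).isPreconnected
  have hEd : Disjoint {w : Cyl | M ≤ w.2} K := by
    rw [Set.disjoint_left]
    intro z hz hzK
    exact absurd (hMK' z hzK) (not_lt.2 hz)
  have hU : IsPreconnected (S ∪ {w : Cyl | M ≤ w.2}) :=
    IsPreconnected.union ((0, max M M') : Cyl) (hM' _ (le_max_right _ _)) (show M ≤ max M M' from le_max_left _ _) hS hE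
  have hUd : Disjoint (S ∪ {w : Cyl | M ≤ w.2}) K := Disjoint.union_left hd hEd
  refine ⟨S ∪ {w : Cyl | M ≤ w.2}, fun w hw => ?_, Or.inr (show M ≤ M from le_rfl), Or.inl hyS, hU⟩
  exact ⟨S ∪ {w : Cyl | M ≤ w.2}, hU, hUd, hw, M, fun w h => Or.inr h⟩

theorem up_disj (K : Set Cyl) : Disjoint (Up K) K := by
  rw [Set.disjoint_left]
  rintro z ⟨S, _, hd, hzS, _⟩ hzK
  exact Set.disjoint_left.1 hd hzS hzK

theorem up_max {K S : Set Cyl} (hS : IsPreconnected S) (hd : Disjoint S K) (hn : (S ∩ Up K).Nonempty) : S ⊆ Up K := by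
  exact t4_max hS hd hn

theorem up_front {K : Set Cyl} (hK : IsClosed K) : frontier (Up K) ⊆ K := by
  intro z hz
  by_contra hzK
  have hzK' : z ∈ Kᶜ := hzK
  have ho : IsOpen (connectedComponentIn Kᶜ z) := hK.isOpen_compl.connectedComponentIn
  have hm := ho.mem_nhds (mem_connectedComponentIn hzK')
  have hcl : z ∈ closure (Up K) := frontier_subset_closure hz
  obtain ⟨w, hw1, hw2⟩ := mem_closure_iff_nhds.1 hcl _ hm
  have hsub : connectedComponentIn Kᶜ z ⊆ Up K := by
    refine t4_max isPreconnected_connectedComponentIn ?_ ⟨w, hw1, hw2⟩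
    rw [Set.disjoint_left]
    intro v hv
    exact connectedComponentIn_subset _ _ hv
  exact hz.2 (mem_interior_iff_mem_nhds.2 (Filter.mem_of_superset hm hsub))

theorem up_anti {K K' : Set Cyl} (h : K ⊆ K') : Up K' ⊆ Up K := by
  rintro z ⟨S, hS, hd, hzS, hM⟩
  exact ⟨S, hS, hd.mono_right h, hzS, hM⟩

end H25S
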