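import Pool.Agent.Lib.H25S.Defs2
import Pool.Agent.Lib.H25S.R3
import Pool.Agent.Lib.H25S.T4

/-!
# Chunk R12 (M)
`b` continuous, `T`-periodic, `|b t| ≤ ε/2`. `Psi (t + T, u) = Psi (t, u) + iv (k, 0)`: so `crv` is the image of `Icc 0 T`: compact, connected. FRONTIER: `D = (Up K)ᶜ`, `D' = mdf f γ ε b D`. Let `w ∉ crv`. (i) `w ∈ tub`: `w = pr (Psi (t,u))`, `u ≠ b t`. By `inj` and periodicity of `b`, inside the tube `D'` is exactly the set of the points `pr (Psi (t,u))` with `b t ≤ u`.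
If `b t < u` then the image of the open set `{b t' < u' < ε}` is an open neighbourhood of `w` inside `D'` (`opn`, `pr_open`); if `u < b t` the image of `{-ε < u' < b t'}` is open and disjoint from `D'`. (ii) `w ∉ tub`: `C = {pr (Psi (t,u)) | |u| ≤ 2 ε / 3}` is compact (image of `Icc 0 T ×ˢ Icc _ _`) and `w ∉ C`; on the open set `Cᶜ` the sets `D'` and `D` agree
(a point of the tube outside `C` has `|u| > 2ε/3 > |b t|`, and it is in `D` iff `0 ≤ u`, by `inK`, `inU`, `up_disj`); `frontier D = frontier (Up K) = {u = 0} ⊆ C` (`fro`), so `w ∉ frontier D` and hence `w ∉ frontier D'`. `tub` is bounded. Measurable: `tub` is open, the second set of `mdf` is `tub` minus the open image of `{u < b t}`.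
-/

namespace H25S

open MeasureTheory H83D Set Filter Topology

theorem r12_fd {f : ℝ × ℝ → ℝ} (hf : ∀ (z : ℝ × ℝ) (k : ℤ × ℤ), f (z + iv k) = f z) (z : ℝ × ℝ) (k : ℤ × ℤ) :
    fderiv ℝ f (z + iv k) = fderiv ℝ f z := by
  have h1 : (fun x => f (x + iv k)) = f := funext fun x => hf x k
  have h2 := fderiv_comp_add_right (𝕜 := ℝ) (f := f) (x := z) (iv k)
  rw [h1] at h2
  exact h2.symm

theorem r12_nv {f : ℝ × ℝ → ℝ} (hf : ∀ (z : ℝ × ℝ) (k : ℤ × ℤ), f (z + iv k) = f z) (z : ℝ × ℝ) (k : ℤ × ℤ) :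
    nv f (z + iv k) = nv f z := by
  unfold nv d1 d2
  rw [r12_fd hf]

theorem r12_psi {f : ℝ × ℝ → ℝ} {γ : ℝ → ℝ × ℝ} {T : ℝ} {k : ℤ} {ε : ℝ} {K : Set Cyl} (hT : Tube f γ T k ε K) (t u : ℝ) :
    Psi f γ (t + T, u) = Psi f γ (t, u) + iv (k, 0) := by
  show γ (t + T) + u • nv f (γ (t + T)) = γ t + u • nv f (γ t) + iv (k, 0)
  rw [hT.per, r12_nv hT.p2.per]
  abel

theorem r12_per {f : ℝ × ℝ → ℝ} {γ : ℝ → ℝ × ℝ} {T : ℝ} {k : ℤ} {ε : ℝ} {K : Set Cyl} (hT : Tube f γ T k ε K) (u : ℝ) :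
    Function.Periodic (fun t => pr (Psi f γ (t, u))) T := by
  intro t
  show pr (Psi f γ (t + T, u)) = pr (Psi f γ (t, u))
  rw [r12_psi hT]
  exact (pr_eq.2 ⟨k, rfl⟩).symm

theorem r12_pc {f : ℝ × ℝ → ℝ} {γ : ℝ → ℝ × ℝ} {T : ℝ} {k : ℤ} {ε : ℝ} {K : Set Cyl} (hT : Tube f γ T k ε K) :
    Continuous (fun p => pr (Psi f γ p)) :=
  pr_cont.comp (psi_cd hT.p2 hT.orb hT.reg).continuous

theorem r12_bper {T : ℝ} {b : ℝ → ℝ} (pb : ∀ t, b (t + T) = b t) (n : ℤ) (t : ℝ) : b (t + n * T) = b t := by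
  have h : Function.Periodic b T := pb
  have := h.int_mul n t
  simpa using this

theorem r12_im {f : ℝ × ℝ → ℝ} {γ : ℝ → ℝ × ℝ} {T : ℝ} {k : ℤ} {ε : ℝ} {K : Set Cyl} (hT : Tube f γ T k ε K)
    {O : Set (ℝ × ℝ)} (hO : IsOpen O) (hs : ∀ p ∈ O, |p.2| < ε) : IsOpen ((fun p => pr (Psi f γ p)) '' O) := by
  have h1 : IsOpen (Psi f γ '' O) := by
    refine hT.opn O ?_ hO
    intro p hp
    exact ⟨mem_univ _, abs_lt.1 (hs p hp)⟩
  have h2 := pr_open _ h1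
  rwa [image_image] at h2

theorem r12_tub {f : ℝ × ℝ → ℝ} {γ : ℝ → ℝ × ℝ} {T : ℝ} {k : ℤ} {ε : ℝ} {K : Set Cyl} (hT : Tube f γ T k ε K) :
    IsOpen (tub f γ ε) := by
  have h := r12_im hT (O := {p : ℝ × ℝ | |p.2| < ε}) (isOpen_lt (by fun_prop) continuous_const) (fun p hp => hp)
  have e : tub f γ ε = (fun p => pr (Psi f γ p)) '' {p : ℝ × ℝ | |p.2| < ε} := by
    ext w
    constructor
    · rintro ⟨t, u, hu, rfl⟩
      exact ⟨(t, u), hu, rfl⟩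
    · rintro ⟨⟨t, u⟩, hu, rfl⟩
      exact ⟨t, u, hu, rfl⟩
  rw [e]
  exact h

theorem r12_low {f : ℝ × ℝ → ℝ} {γ : ℝ → ℝ × ℝ} {T : ℝ} {k : ℤ} {ε : ℝ} {K : Set Cyl} (hT : Tube f γ T k ε K) {b : ℝ → ℝ}
    (cb : Continuous b) : IsOpen ((fun p => pr (Psi f γ p)) '' {p : ℝ × ℝ | p.2 < b p.1 ∧ |p.2| < ε}) :=
  r12_im hT ((isOpen_lt continuous_snd (cb.comp continuous_fst)).inter (isOpen_lt (continuous_abs.comp continuous_snd) continuous_const))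
    (fun p hp => hp.2)

theorem r12_up {f : ℝ × ℝ → ℝ} {γ : ℝ → ℝ × ℝ} {T : ℝ} {k : ℤ} {ε : ℝ} {K : Set Cyl} (hT : Tube f γ T k ε K) {b : ℝ → ℝ}
    (cb : Continuous b) : IsOpen ((fun p => pr (Psi f γ p)) '' {p : ℝ × ℝ | b p.1 < p.2 ∧ |p.2| < ε}) :=
  r12_im hT ((isOpen_lt (cb.comp continuous_fst) continuous_snd).inter (isOpen_lt (continuous_abs.comp continuous_snd) continuous_const))
    (fun p hp => hp.2)

/-- Membership of a point of the tube in the modified set. -/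
theorem r12_mem {f : ℝ × ℝ → ℝ} {γ : ℝ → ℝ × ℝ} {T : ℝ} {k : ℤ} {ε : ℝ} {K : Set Cyl} (hT : Tube f γ T k ε K) {b : ℝ → ℝ}
    (pb : ∀ t, b (t + T) = b t) (D : Set Cyl) {t u : ℝ} (hu : |u| < ε) :
    pr (Psi f γ (t, u)) ∈ mdf f γ ε b D ↔ b t ≤ u := by
  constructor
  · rintro (⟨_, h2⟩ | ⟨t', u', h1, h2, h3⟩)
    · exact absurd ⟨t, u, hu, rfl⟩ h2
    · obtain ⟨e1, n, e2⟩ := hT.inj t u t' u' hu h2 h3
      rw [e1]
      rw [e2, r12_bper pb] at h1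
      exact h1
  · intro h
    exact Or.inr ⟨t, u, h, hu, rfl⟩

theorem r12_bd {f : ℝ × ℝ → ℝ} {γ : ℝ → ℝ × ℝ} {T : ℝ} {k : ℤ} {ε : ℝ} {K : Set Cyl} (hT : Tube f γ T k ε K) (t u : ℝ) :
    ∃ t' ∈ Icc 0 T, pr (Psi f γ (t, u)) = pr (Psi f γ (t', u)) := by
  obtain ⟨y, hy, e⟩ := (r12_per hT u).exists_mem_Ico₀ hT.Tpos t
  exact ⟨y, ⟨hy.1, hy.2.le⟩, e⟩

theorem r12_cc {f : ℝ × ℝ → ℝ} {γ : ℝ → ℝ × ℝ} {T : ℝ} {k : ℤ} {ε : ℝ} {K : Set Cyl} (hT : Tube f γ T k ε K) (c : ℝ) :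
    IsCompact {w : Cyl | ∃ t u : ℝ, |u| ≤ c ∧ w = pr (Psi f γ (t, u))} := by
  have e : {w : Cyl | ∃ t u : ℝ, |u| ≤ c ∧ w = pr (Psi f γ (t, u))} =
      (fun p => pr (Psi f γ p)) '' (Icc 0 T ×ˢ Icc (-c) c) := by
    ext w
    constructor
    · rintro ⟨t, u, hu, rfl⟩
      obtain ⟨t', ht', e'⟩ := r12_bd hT t u
      exact ⟨(t', u), ⟨ht', abs_le.1 hu⟩, e'.symm⟩
    · rintro ⟨⟨t, u⟩, ⟨_, hu⟩, rfl⟩
      exact ⟨t, u, abs_le.2 hu, rfl⟩
  rw [e]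
  exact (isCompact_Icc.prod isCompact_Icc).image (r12_pc hT)

theorem crv_cont {f : ℝ × ℝ → ℝ} {γ : ℝ → ℝ × ℝ} {T : ℝ} {k : ℤ} {ε : ℝ} {K : Set Cyl} (hT : Tube f γ T k ε K) {b : ℝ → ℝ}
    (cb : Continuous b) (pb : ∀ t, b (t + T) = b t) : IsCompact (crv f γ b) ∧ IsConnected (crv f γ b) := by
  have hc : Continuous (fun t : ℝ => pr (Psi f γ (t, b t))) :=
    (r12_pc hT).comp (continuous_id.prodMk cb)
  have hp : Function.Periodic (fun t : ℝ => pr (Psi f γ (t, b t))) T := by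
    intro t
    show pr (Psi f γ (t + T, b (t + T))) = pr (Psi f γ (t, b t))
    rw [pb]
    exact r12_per hT (b t) t
  have e1 : crv f γ b = range (fun t : ℝ => pr (Psi f γ (t, b t))) := by
    ext w
    constructor
    · rintro ⟨t, rfl⟩
      exact ⟨t, rfl⟩
    · rintro ⟨t, rfl⟩
      exact ⟨t, rfl⟩
  constructor
  · rw [e1, ← hp.image_Icc hT.Tpos 0]
    exact isCompact_Icc.image hc
  · rw [e1]
    exact isConnected_range hc

theorem mdf_front {f : ℝ × ℝ → ℝ} {γ : ℝ → ℝ × ℝ} {T : ℝ} {k : ℤ} {ε : ℝ} {K : Set Cyl} (hT : Tube f γ T k ε K) {b : ℝ → ℝ}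
    (cb : Continuous b) (pb : ∀ t, b (t + T) = b t) (hb : ∀ t, |b t| ≤ ε / 2) :
    frontier (mdf f γ ε b (Up K)ᶜ) ⊆ crv f γ b := by
  have hε := hT.epos
  intro w hw
  by_contra hn
  by_cases hwt : w ∈ tub f γ ε
  · obtain ⟨t, u, hu, rfl⟩ := hwt
    rcases lt_trichotomy (b t) u with h | h | h
    · have hO := r12_up hT cb
      have hsub : (fun p => pr (Psi f γ p)) '' {p : ℝ × ℝ | b p.1 < p.2 ∧ |p.2| < ε} ⊆ mdf f γ ε b (Up K)ᶜ := by
        rintro _ ⟨⟨t', u'⟩, ⟨h1, h2⟩, rfl⟩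
        exact (r12_mem hT pb _ h2).2 h1.le
      have hin : pr (Psi f γ (t, u)) ∈ interior (mdf f γ ε b (Up K)ᶜ) :=
        interior_maximal hsub hO ⟨(t, u), ⟨h, hu⟩, rfl⟩
      exact hw.2 hin
    · exact hn ⟨t, by rw [h]⟩
    · have hO := r12_low hT cb
      obtain ⟨w', hw1, hw2⟩ := mem_closure_iff.1 hw.1 _ hO ⟨(t, u), ⟨h, hu⟩, rfl⟩
      obtain ⟨⟨t', u'⟩, ⟨h1, h2⟩, rfl⟩ := hw1
      have := (r12_mem hT pb _ h2).1 hw2
      exact absurd h1 (not_lt.2 this)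
  · set C : Set Cyl := {w : Cyl | ∃ t u : ℝ, |u| ≤ 2 * ε / 3 ∧ w = pr (Psi f γ (t, u))} with hC
    have hCc : IsClosed C := (r12_cc hT (2 * ε / 3)).isClosed
    have hwC : w ∉ C := by
      rintro ⟨t, u, hu, rfl⟩
      exact hwt ⟨t, u, by linarith, rfl⟩
    have hagree : ∀ w' ∉ C, (w' ∈ mdf f γ ε b (Up K)ᶜ ↔ w' ∈ (Up K)ᶜ) := by
      intro w' hw'
      by_cases h' : w' ∈ tub f γ ε
      · obtain ⟨t, u, hu, rfl⟩ := h'
        have h23 : 2 * ε / 3 < |u| := by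
          by_contra hh
          exact hw' ⟨t, u, not_lt.1 hh, rfl⟩
        rw [r12_mem hT pb _ hu]
        rcases le_total 0 u with h0 | h0
        · rw [abs_of_nonneg h0] at h23 hu
          constructor
          · intro _ hup
            exact Set.disjoint_left.1 (up_disj K) hup (hT.inK t u h0 hu)
          · intro _
            linarith [(abs_le.1 (hb t)).2]
        · rw [abs_of_nonpos h0] at h23 hu
          constructor
          · intro h1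
            linarith [(abs_le.1 (hb t)).1]
          · intro h1
            exact absurd (hT.inU t u (by linarith) (by linarith)) h1
      · constructor
        · rintro (⟨h1, _⟩ | ⟨t', u', _, h2, h3⟩)
          · exact h1
          · exact absurd ⟨t', u', h2, h3⟩ h'
        · intro h1
          exact Or.inl ⟨h1, h'⟩
    have hfr : w ∈ frontier (Up K) := by
      rw [← frontier_compl]
      constructor
      · rw [mem_closure_iff]
        intro O hO hwO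
        obtain ⟨w', hw1, hw2⟩ := mem_closure_iff.1 hw.1 (O ∩ Cᶜ) (hO.inter hCc.isOpen_compl) ⟨hwO, hwC⟩
        exact ⟨w', hw1.1, (hagree w' hw1.2).1 hw2⟩
      · intro hint
        apply hw.2
        rw [mem_interior]
        refine ⟨interior (Up K)ᶜ ∩ Cᶜ, ?_, isOpen_interior.inter hCc.isOpen_compl, hint, hwC⟩
        rintro w' ⟨h1, h2⟩
        exact (hagree w' h2).2 (interior_subset h1)
    rw [hT.fro] at hfr
    obtain ⟨t, ht⟩ := hfr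
    apply hwC
    refine ⟨t, 0, by rw [abs_zero]; linarith, ?_⟩
    rw [psi_zero]
    exact ht.symm

theorem mdf_meas {f : ℝ × ℝ → ℝ} {γ : ℝ → ℝ × ℝ} {T : ℝ} {k : ℤ} {ε : ℝ} {K : Set Cyl} (hT : Tube f γ T k ε K) {b : ℝ → ℝ}
    (cb : Continuous b) (pb : ∀ t, b (t + T) = b t) : MeasurableSet (mdf f γ ε b (Up K)ᶜ) := by
  have h1 : MeasurableSet (Up K)ᶜ := (up_open hT.cpt.isClosed).measurableSet.compl
  have h2 : MeasurableSet (tub f γ ε) := (r12_tub hT).measurableSet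
  have h3 : MeasurableSet ((fun p => pr (Psi f γ p)) '' {p : ℝ × ℝ | p.2 < b p.1 ∧ |p.2| < ε}) :=
    (r12_low hT cb).measurableSet
  have e : {w : Cyl | ∃ t u : ℝ, b t ≤ u ∧ |u| < ε ∧ w = pr (Psi f γ (t, u))} =
      tub f γ ε \ ((fun p => pr (Psi f γ p)) '' {p : ℝ × ℝ | p.2 < b p.1 ∧ |p.2| < ε}) := by
    ext w
    constructor
    · rintro ⟨t, u, hu1, hu2, rfl⟩
      refine ⟨⟨t, u, hu2, rfl⟩, ?_⟩
      rintro ⟨⟨t', u'⟩, ⟨h4, h5⟩, h6⟩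
      have h6' : pr (Psi f γ (t', u')) = pr (Psi f γ (t, u)) := h6
      obtain ⟨e1, n, e2⟩ := hT.inj t' u' t u h5 hu2 h6'
      have h4' : u' < b t' := h4
      rw [e2, r12_bper pb] at hu1
      linarith
    · rintro ⟨⟨t, u, hu, rfl⟩, h4⟩
      refine ⟨t, u, ?_, hu, rfl⟩
      by_contra hlt
      exact h4 ⟨(t, u), ⟨not_le.1 hlt, hu⟩, rfl⟩
  unfold mdf
  rw [e]
  exact (h1.diff h2).union (h2.diff h3)

theorem mdf_ends {f : ℝ × ℝ → ℝ} {γ : ℝ → ℝ × ℝ} {T : ℝ} {k : ℤ} {ε : ℝ} {K : Set Cyl} (hT : Tube f γ T k ε K) {b : ℝ → ℝ} :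
    ∃ M : ℝ, 0 < M ∧ ∀ w : Cyl, M ≤ |w.2| → (w ∈ mdf f γ ε b (Up K)ᶜ ↔ w ∈ (Up K)ᶜ) := by
  obtain ⟨M, hM⟩ := (r12_cc hT ε).exists_bound_of_continuousOn (f := fun w : Cyl => w.2) continuous_snd.continuousOn
  refine ⟨|M| + 1, by positivity, ?_⟩
  intro w hw
  have hwt : w ∉ tub f γ ε := by
    rintro ⟨t, u, hu, e⟩
    have := hM w ⟨t, u, hu.le, e⟩
    rw [Real.norm_eq_abs] at this
    linarith [le_abs_self M]
  constructor
  · rintro (⟨h1, _⟩ | ⟨t', u', _, h2, h3⟩)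
    · exact h1
    · exact absurd ⟨t', u', h2, h3⟩ hwt
  · intro h1
    exact Or.inl ⟨h1, hwt⟩

end H25S
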