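import Pool.Agent.Lib.H25S.V1
import Pool.Agent.Lib.H25S.Defs2
import Pool.Agent.Lib.H25S.R10

/-!
# Chunk R13 (M)
With `inj`: `mdf \ (Up K)ᶜ = pr '' (Psi '' A)`, `A = {(t,u) | 0 ≤ t < T, b t ≤ u < 0}`, and `(Up K)ᶜ \ mdf = pr '' (Psi '' B)`, `B = {(t,u) | 0 ≤ t < T, 0 ≤ u < b t}` (`inK`, `inU`, `up_disj`: inside the tube `(Up K)ᶜ` is `{0 ≤ u}` and `mdf` is `{b t ≤ u}`; outside they agree). `pr` is injective on `Psi '' A` and `Psi` on `A` (`inj`), so by `vol_pr` and the area formula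
(`lintegral_abs_det_fderiv_eq_addHaar_image` on the measurable `A`) the volume is `∫_A |det|`, and `|det - 1| ≤ e`; `volume A = ∫_0^T max (-b t) 0`, `volume B = ∫_0^T max (b t) 0` (`volume_regionBetween_eq_integral` or Fubini). So the difference is `- ∫_0^T b` up to `e (volume A + volume B) = e ∫_0^T |b| ≤ e T β`.
-/

namespace H25S

open MeasureTheory H83D Set Filter Topology

theorem r13_sec {a c : ℝ → ℝ} (ca : Continuous a) (cc : Continuous c) {T : ℝ} (hT : 0 < T) {A : Set (ℝ × ℝ)}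
    (hA : A = {p | (0 ≤ p.1 ∧ p.1 < T) ∧ a p.1 ≤ p.2 ∧ p.2 < c p.1}) :
    MeasurableSet A ∧ (volume A).toReal = ∫ t in (0 : ℝ)..T, max (c t - a t) 0 := by
  have mA : MeasurableSet A := by
    rw [hA]
    have m1 : MeasurableSet {p : ℝ × ℝ | 0 ≤ p.1} := measurableSet_le measurable_const measurable_fst
    have m2 : MeasurableSet {p : ℝ × ℝ | p.1 < T} := measurableSet_lt measurable_fst measurable_const
    have m3 : MeasurableSet {p : ℝ × ℝ | a p.1 ≤ p.2} :=
      measurableSet_le (ca.comp continuous_fst).measurable measurable_snd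
    have m4 : MeasurableSet {p : ℝ × ℝ | p.2 < c p.1} :=
      measurableSet_lt measurable_snd (cc.comp continuous_fst).measurable
    exact (m1.inter m2).inter (m3.inter m4)
  refine ⟨mA, ?_⟩
  have h1 : volume A = ∫⁻ t in Ico (0 : ℝ) T, ENNReal.ofReal (max (c t - a t) 0) := by
    rw [Measure.volume_eq_prod, Measure.prod_apply mA, ← lintegral_indicator measurableSet_Ico]
    refine lintegral_congr fun t => ?_
    by_cases ht : t ∈ Ico (0 : ℝ) T
    · rw [indicator_of_mem ht]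
      have h2 : Prod.mk t ⁻¹' A = Ico (a t) (c t) := by
        ext u
        rw [hA]
        exact ⟨fun hu => hu.2, fun hu => ⟨ht, hu⟩⟩
      rw [h2, Real.volume_Ico]
      rcases le_total (c t - a t) 0 with h | h
      · rw [max_eq_right h, ENNReal.ofReal_of_nonpos h, ENNReal.ofReal_zero]
      · rw [max_eq_left h]
    · rw [indicator_of_notMem ht]
      have h2 : Prod.mk t ⁻¹' A = ∅ := by
        ext u
        rw [hA]
        exact ⟨fun hu => ht hu.1, fun hu => hu.elim⟩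
      rw [h2, measure_empty]
  have cm : Continuous fun t => max (c t - a t) 0 := (cc.sub ca).max continuous_const
  have hi : IntegrableOn (fun t => max (c t - a t) 0) (Ico (0 : ℝ) T) volume :=
    (cm.continuousOn.integrableOn_compact (isCompact_Icc (a := (0 : ℝ)) (b := T))).mono_set Ico_subset_Icc_self
  rw [h1, ← ofReal_integral_eq_lintegral_ofReal hi (ae_of_all _ fun t => le_max_right _ _),
    ENNReal.toReal_ofReal (integral_nonneg (f := fun t => max (c t - a t) 0) fun t => le_max_right _ _),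
    intervalIntegral.integral_of_le hT.le,
    integral_Ico_eq_integral_Ioo, integral_Ioc_eq_integral_Ioo]

theorem r13_vol {f : ℝ × ℝ → ℝ} (hf : P2 f) {γ : ℝ → ℝ × ℝ} (h : Orb f γ) (h0 : ¬ Crit f (γ 0)) {T β e : ℝ}
    {A : Set (ℝ × ℝ)} (mA : MeasurableSet A) (bA : A ⊆ Icc 0 T ×ˢ Icc (-β) β)
    (iA : InjOn (fun p => pr (Psi f γ p)) A) (he : ∀ p ∈ A, |(fderiv ℝ (Psi f γ) p).det - 1| ≤ e) :
    volume (pr '' (Psi f γ '' A)) < ⊤ ∧
      |(volume (pr '' (Psi f γ '' A))).toReal - (volume A).toReal| ≤ e * (volume A).toReal := by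
  have hc := psi_cd hf h h0
  have cd : Continuous fun p => (fderiv ℝ (Psi f γ) p).det := by
    exact ContinuousLinearMap.continuous_det.comp (hc.continuous_fderiv (by norm_num))
  have i1 : InjOn (Psi f γ) A := by
    intro p hp q hq e
    exact iA hp hq (congrArg pr e)
  have i2 : InjOn pr (Psi f γ '' A) := by
    rintro _ ⟨p, hp, rfl⟩ _ ⟨q, hq, rfl⟩ e
    rw [iA hp hq e]
  have m1 : MeasurableSet (Psi f γ '' A) := mA.image_of_continuousOn_injOn hc.continuous.continuousOn i1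
  have v1 : volume (pr '' (Psi f γ '' A)) = ∫⁻ p in A, ENNReal.ofReal |(fderiv ℝ (Psi f γ) p).det| := by
    rw [vol_pr m1 i2, lintegral_abs_det_fderiv_eq_addHaar_image volume mA (fun p _ =>
      ((hc.differentiable (by norm_num) p).hasFDerivAt).hasFDerivWithinAt) i1]
  have cpt : IsCompact (Icc (0 : ℝ) T ×ˢ Icc (-β) β) := isCompact_Icc.prod isCompact_Icc
  have fA : volume A < ⊤ := (measure_mono bA).trans_lt cpt.measure_lt_top
  have j1 : IntegrableOn (fun p => |(fderiv ℝ (Psi f γ) p).det|) A volume :=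
    (cd.abs.continuousOn.integrableOn_compact cpt).mono_set bA
  have j2 : IntegrableOn (fun _ : ℝ × ℝ => (1 : ℝ)) A volume := integrableOn_const fA.ne
  have v2 : volume (pr '' (Psi f γ '' A)) = ENNReal.ofReal (∫ p in A, |(fderiv ℝ (Psi f γ) p).det|) := by
    rw [v1, ofReal_integral_eq_lintegral_ofReal j1 (ae_of_all _ fun p => abs_nonneg _)]
  refine ⟨by rw [v2]; exact ENNReal.ofReal_lt_top, ?_⟩
  rw [v2, ENNReal.toReal_ofReal (integral_nonneg fun p => abs_nonneg _)]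
  have v3 : (volume A).toReal = ∫ p in A, (1 : ℝ) := by
    rw [setIntegral_const, smul_eq_mul, mul_one]
    rfl
  have v4 : (∫ p in A, |(fderiv ℝ (Psi f γ) p).det|) - ∫ p in A, (1 : ℝ) = ∫ p in A, (|(fderiv ℝ (Psi f γ) p).det| - 1) :=
    (integral_sub j1 j2).symm
  have v5 : ‖∫ p in A, (|(fderiv ℝ (Psi f γ) p).det| - 1)‖ ≤ e * volume.real A := by
    refine norm_setIntegral_le_of_norm_le_const fA fun p hp => ?_
    rw [Real.norm_eq_abs]
    have k1 := he p hp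
    have k2 : |(|(fderiv ℝ (Psi f γ) p).det| - |(1 : ℝ)|)| ≤ |(fderiv ℝ (Psi f γ) p).det - 1| := abs_abs_sub_abs_le _ _
    rw [abs_one] at k2
    exact k2.trans k1
  rw [← v4, ← v3, Real.norm_eq_abs] at v5
  exact v5

theorem r13_red {f : ℝ × ℝ → ℝ} {γ : ℝ → ℝ × ℝ} {T : ℝ} {k : ℤ} {ε : ℝ} {K : Set Cyl} (hT : Tube f γ T k ε K) (t : ℝ) :
    ∃ (s : ℝ) (n : ℤ), 0 ≤ s ∧ s < T ∧ t = s + n * T ∧ ∀ u, pr (Psi f γ (t, u)) = pr (Psi f γ (s, u)) := by
  obtain ⟨n, hn⟩ : ∃ n : ℤ, n = ⌊t / T⌋ := ⟨_, rfl⟩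
  have Tp := hT.Tpos
  refine ⟨t - n * T, n, ?_, ?_, by ring, fun u => ?_⟩
  · have h1 := Int.floor_le (t / T)
    rw [← hn, le_div_iff₀ Tp] at h1
    linarith
  · have h1 := Int.lt_floor_add_one (t / T)
    rw [← hn, div_lt_iff₀ Tp] at h1
    linarith
  · have hp : ∀ s, pr (Psi f γ (s + T, u)) = pr (Psi f γ (s, u)) := by
      intro s
      rw [psi_per hT.p2 hT.per]
      exact (pr_eq.2 ⟨k, rfl⟩).symm
    have hp' : Function.Periodic (fun s => pr (Psi f γ (s, u))) T := hp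
    have h1 := hp'.sub_zsmul_eq n (x := t)
    rw [zsmul_eq_mul] at h1
    exact h1.symm

theorem mdf_area {f : ℝ × ℝ → ℝ} {γ : ℝ → ℝ × ℝ} {T : ℝ} {k : ℤ} {ε : ℝ} {K : Set Cyl} (hT : Tube f γ T k ε K) {b : ℝ → ℝ}
    (cb : Continuous b) (pb : ∀ t, b (t + T) = b t) {β e : ℝ} (hβ : ∀ t, |b t| ≤ β) (hβε : β ≤ ε / 2)
    (he : ∀ t u : ℝ, |u| ≤ β → |(fderiv ℝ (Psi f γ) (t, u)).det - 1| ≤ e) :
    volume (mdf f γ ε b (Up K)ᶜ \ (Up K)ᶜ) < ⊤ ∧ volume ((Up K)ᶜ \ mdf f γ ε b (Up K)ᶜ) < ⊤ ∧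
    |(volume (mdf f γ ε b (Up K)ᶜ \ (Up K)ᶜ)).toReal - (volume ((Up K)ᶜ \ mdf f γ ε b (Up K)ᶜ)).toReal
      + ∫ t in (0 : ℝ)..T, b t| ≤ e * (T * β) := by
  have Tp := hT.Tpos
  have εp := hT.epos
  have pb' : Function.Periodic b T := pb
  have pbn : ∀ (s : ℝ) (n : ℤ), b (s + n * T) = b s := by
    intro s n
    exact pb'.int_mul n s
  have hβ0 : 0 ≤ β := (abs_nonneg _).trans (hβ 0)
  have he0 : 0 ≤ e := (abs_nonneg _).trans (he 0 0 (by rw [abs_zero]; exact hβ0))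
  have hin : InjOn (fun p => pr (Psi f γ p)) {p : ℝ × ℝ | (0 ≤ p.1 ∧ p.1 < T) ∧ |p.2| < ε} := by
    rintro ⟨t, u⟩ ⟨⟨h1, h2⟩, h3⟩ ⟨t', u'⟩ ⟨⟨h1', h2'⟩, h3'⟩ hh
    obtain ⟨e1, n, e2⟩ := hT.inj t u t' u' h3 h3' hh
    have hn : n = 0 := by
      have k1 : (n : ℝ) * T < 1 * T := by
        have : t' < T := h2'
        have : 0 ≤ t := h1
        linarith
      have k2 : (-1 : ℝ) * T < n * T := by
        have : t < T := h2
        have : 0 ≤ t' := h1'
        linarith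
      have k3 : (n : ℝ) < 1 := lt_of_mul_lt_mul_right k1 Tp.le
      have k4 : (-1 : ℝ) < n := lt_of_mul_lt_mul_right k2 Tp.le
      have k5 : n < 1 := by exact_mod_cast k3
      have k6 : -1 < n := by exact_mod_cast k4
      omega
    rw [hn, Int.cast_zero, zero_mul, add_zero] at e2
    rw [e1, e2]
  obtain ⟨A, hA⟩ : ∃ A : Set (ℝ × ℝ), A = {p | (0 ≤ p.1 ∧ p.1 < T) ∧ b p.1 ≤ p.2 ∧ p.2 < (fun _ : ℝ => (0 : ℝ)) p.1} := ⟨_, rfl⟩
  obtain ⟨B, hB⟩ : ∃ B : Set (ℝ × ℝ), B = {p | (0 ≤ p.1 ∧ p.1 < T) ∧ (fun _ : ℝ => (0 : ℝ)) p.1 ≤ p.2 ∧ p.2 < b p.1} := ⟨_, rfl⟩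
  obtain ⟨mA, vA⟩ := r13_sec cb continuous_const Tp hA
  obtain ⟨mB, vB⟩ := r13_sec continuous_const cb Tp hB
  have sA : ∀ p ∈ A, (0 ≤ p.1 ∧ p.1 < T) ∧ b p.1 ≤ p.2 ∧ p.2 < 0 := by
    intro p hp
    rw [hA] at hp
    exact hp
  have sB : ∀ p ∈ B, (0 ≤ p.1 ∧ p.1 < T) ∧ 0 ≤ p.2 ∧ p.2 < b p.1 := by
    intro p hp
    rw [hB] at hp
    exact hp
  have bA : ∀ p ∈ A, |p.2| ≤ β := by
    intro p hp
    have h1 := sA p hp
    have h2 := (abs_le.1 (hβ p.1)).1
    rw [abs_le]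
    constructor
    · linarith [h1.2.1]
    · linarith [h1.2.2]
  have bB : ∀ p ∈ B, |p.2| ≤ β := by
    intro p hp
    have h1 := sB p hp
    have h2 := (abs_le.1 (hβ p.1)).2
    rw [abs_le]
    constructor
    · linarith [h1.2.1]
    · linarith [h1.2.2]
  have nA : A ⊆ {p : ℝ × ℝ | (0 ≤ p.1 ∧ p.1 < T) ∧ |p.2| < ε} := fun p hp =>
    ⟨(sA p hp).1, (bA p hp).trans_lt (by linarith)⟩
  have nB : B ⊆ {p : ℝ × ℝ | (0 ≤ p.1 ∧ p.1 < T) ∧ |p.2| < ε} := fun p hp =>
    ⟨(sB p hp).1, (bB p hp).trans_lt (by linarith)⟩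
  have iA := r13_vol hT.p2 hT.orb hT.reg mA (T := T) (β := β) (e := e)
    (fun p hp => mem_prod.2 ⟨⟨(sA p hp).1.1, (sA p hp).1.2.le⟩, abs_le.1 (bA p hp)⟩)
    (hin.mono nA) (fun p hp => he p.1 p.2 (bA p hp))
  have iB := r13_vol hT.p2 hT.orb hT.reg mB (T := T) (β := β) (e := e)
    (fun p hp => mem_prod.2 ⟨⟨(sB p hp).1.1, (sB p hp).1.2.le⟩, abs_le.1 (bB p hp)⟩)
    (hin.mono nB) (fun p hp => he p.1 p.2 (bB p hp))
  have uK : ∀ w ∈ K, w ∉ Up K := by
    rintro w hw ⟨S, _, hd, hz, _⟩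
    exact hd.le_bot ⟨hz, hw⟩
  have eA : mdf f γ ε b (Up K)ᶜ \ (Up K)ᶜ = pr '' (Psi f γ '' A) := by
    ext w
    constructor
    · rintro ⟨h1, h2⟩
      have h3 : w ∈ Up K := not_not.1 h2
      rcases h1 with h1 | ⟨t, u, h4, h5, h6⟩
      · exact absurd h3 h1.1
      · have hu : u < 0 := by
          by_contra hc
          push Not at hc
          exact uK w (by rw [h6]; exact hT.inK t u hc (lt_of_abs_lt h5)) h3
        obtain ⟨s, n, s0, s1, s2, s3⟩ := r13_red hT t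
        refine ⟨Psi f γ (s, u), ⟨(s, u), ?_, rfl⟩, ?_⟩
        · rw [hA]
          refine ⟨⟨s0, s1⟩, ?_, hu⟩
          show b s ≤ u
          rw [← pbn s n, ← s2]
          exact h4
        · rw [h6, s3]
    · rintro ⟨_, ⟨p, hp, rfl⟩, rfl⟩
      obtain ⟨h1, h2, h3⟩ := sA p hp
      have h4 := bA p hp
      have h5 : |p.2| < ε := h4.trans_lt (by linarith)
      have h6 : pr (Psi f γ (p.1, p.2)) ∈ Up K := hT.inU p.1 p.2 (neg_lt_of_abs_lt h5) h3
      exact ⟨Or.inr ⟨p.1, p.2, h2, h5, rfl⟩, fun hc => hc h6⟩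
  have eB : (Up K)ᶜ \ mdf f γ ε b (Up K)ᶜ = pr '' (Psi f γ '' B) := by
    ext w
    constructor
    · rintro ⟨h1, h2⟩
      have h3 : w ∈ tub f γ ε := by
        by_contra hc
        exact h2 (Or.inl ⟨h1, hc⟩)
      obtain ⟨t, u, h4, h5⟩ := h3
      have h6 : u < b t := by
        by_contra hc
        push Not at hc
        exact h2 (Or.inr ⟨t, u, hc, h4, h5⟩)
      have h7 : 0 ≤ u := by
        by_contra hc
        push Not at hc
        exact h1 (by rw [h5]; exact hT.inU t u (neg_lt_of_abs_lt h4) hc)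
      obtain ⟨s, n, s0, s1, s2, s3⟩ := r13_red hT t
      refine ⟨Psi f γ (s, u), ⟨(s, u), ?_, rfl⟩, ?_⟩
      · rw [hB]
        refine ⟨⟨s0, s1⟩, h7, ?_⟩
        show u < b s
        rw [← pbn s n, ← s2]
        exact h6
      · rw [h5, s3]
    · rintro ⟨_, ⟨p, hp, rfl⟩, rfl⟩
      obtain ⟨h1, h2, h3⟩ := sB p hp
      have h4 := bB p hp
      have h5 : |p.2| < ε := h4.trans_lt (by linarith)
      have h6 : pr (Psi f γ (p.1, p.2)) ∈ K := hT.inK p.1 p.2 h2 (lt_of_abs_lt h5)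
      refine ⟨uK _ h6, ?_⟩
      rintro (hc | ⟨t, u, h7, h8, h9⟩)
      · exact hc.2 ⟨p.1, p.2, h5, rfl⟩
      · obtain ⟨e1, n, e2⟩ := hT.inj p.1 p.2 t u h5 h8 h9
        rw [e2, pbn] at h7
        linarith
  rw [eA, eB]
  refine ⟨iA.1, iB.1, ?_⟩
  have cA : Continuous fun t => max (0 - b t) 0 := (continuous_const.sub cb).max continuous_const
  have cB : Continuous fun t => max (b t - 0) 0 := (cb.sub continuous_const).max continuous_const
  have q1 : (volume A).toReal - (volume B).toReal = -∫ t in (0 : ℝ)..T, b t := by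
    rw [vA, vB, ← intervalIntegral.integral_sub (cA.intervalIntegrable _ _) (cB.intervalIntegrable _ _),
      ← intervalIntegral.integral_neg]
    refine intervalIntegral.integral_congr fun t _ => ?_
    show max (0 - b t) 0 - max (b t - 0) 0 = -b t
    rcases le_total (b t) 0 with h | h
    · rw [max_eq_left (by linarith), max_eq_right (by linarith)]
      ring
    · rw [max_eq_right (by linarith), max_eq_left (by linarith)]
      ring
  have q2 : (volume A).toReal + (volume B).toReal ≤ T * β := by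
    rw [vA, vB, ← intervalIntegral.integral_add (cA.intervalIntegrable _ _) (cB.intervalIntegrable _ _)]
    have h1 : ∫ t in (0 : ℝ)..T, (max (0 - b t) 0 + max (b t - 0) 0) ≤ ∫ _ in (0 : ℝ)..T, β := by
      refine intervalIntegral.integral_mono_on Tp.le ((cA.add cB).intervalIntegrable _ _)
        (continuous_const.intervalIntegrable _ _) fun t _ => ?_
      show max (0 - b t) 0 + max (b t - 0) 0 ≤ β
      have h2 := abs_le.1 (hβ t)
      rcases le_total (b t) 0 with h | h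
      · rw [max_eq_left (by linarith), max_eq_right (by linarith)]
        linarith
      · rw [max_eq_right (by linarith), max_eq_left (by linarith)]
        linarith
    rw [intervalIntegral.integral_const, sub_zero, smul_eq_mul] at h1
    exact h1
  have q3 := iA.2
  have q4 := iB.2
  have q5 : e * ((volume A).toReal + (volume B).toReal) ≤ e * (T * β) := mul_le_mul_of_nonneg_left q2 he0
  rw [abs_le] at q3 q4 ⊢
  constructor
  · linarith [q3.1, q4.2]
  · linarith [q3.2, q4.1]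

end H25S
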