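import Pool.Agent.Lib.H25S.A1
import Pool.Agent.Lib.H25S.R11
import Pool.Agent.Lib.H25S.R12
import Pool.Agent.Lib.H25S.R13

/-!
# Chunk R14 (M)
ASSEMBLY. `tube_main`: `γ, T, k, ε`, `f = H s`. `g t = dS H s (γ t)`, continuous, `T`-periodic, `|g| ≤ C`; `n t = nv f (γ t)` is bounded, `‖n t‖ ≤ N`, `N ≥ 1`. Let `e₀ > 0` be given, `q = |σ| + |δ|`. Put `η = e₀ / (4 T)`, `b t = - (δ + σ g t) + η q`, `|b t| ≤ (1 + C + η) q =: β`. LEVEL: `ham_const` with `ζ = b t • n t`, `ζ.1 d1 + ζ.2 d2 = b t`: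
`H (s + σ) (Psi (t, b t)) ≥ c + σ g t + b t - C (|σ| + N |b t|)^2 = c - δ + η q - C (1 + N (1 + C + η))^2 q^2 ≥ c - δ` for small `q`. So `K' = crv f γ b ⊆ SL (H (s+σ)) (c - δ)` (`mem_sl`). `D' = mdf f γ ε b (Up K)ᶜ`. AREA: `mdf_area` with `e` such that `e T (1 + C + η) ≤ e₀ / 2` (`psi_detb`), `∫ b = - (δ T + σ ∫ g) + η q T`, and `η T ≤ e₀/4`.
Also `frontier D' ⊆ K'`, `crv_cont`, `mdf_meas`, `mdf_ends`. `β ≤ ε/2` for small `q`.
-/

namespace H25S

open MeasureTheory H83D Set Filter Topology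

theorem r14_per {g : ℝ → ℝ} {T : ℝ} (hT : 0 < T) (cg : Continuous g) (pg : ∀ t, g (t + T) = g t) :
    ∃ N : ℝ, 1 ≤ N ∧ ∀ t, |g t| ≤ N := by
  obtain ⟨N, hN⟩ := (isCompact_Icc : IsCompact (Icc (0 : ℝ) T)).exists_bound_of_continuousOn cg.continuousOn
  refine ⟨max N 1, le_max_right _ _, fun t => ?_⟩
  have hp : Function.Periodic g T := pg
  obtain ⟨y, hy, he⟩ := hp.exists_mem_Ico₀ hT t
  rw [he]
  exact (hN y ⟨hy.1, hy.2.le⟩).trans (le_max_left _ _)

theorem r14_nv {f : ℝ × ℝ → ℝ} {z : ℝ × ℝ} (h : ¬ Crit f z) (b : ℝ) :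
    (b • nv f z).1 * d1 f z + (b • nv f z).2 * d2 f z = b := by
  have h1 : d1 f z ^ 2 + d2 f z ^ 2 ≠ 0 := by
    intro h0
    apply h
    have a1 := sq_nonneg (d1 f z)
    have a2 := sq_nonneg (d2 f z)
    exact ⟨pow_eq_zero_iff (two_ne_zero) |>.1 (by linarith), pow_eq_zero_iff (two_ne_zero) |>.1 (by linarith)⟩
  show b * (d1 f z / (d1 f z ^ 2 + d2 f z ^ 2)) * d1 f z + b * (d2 f z / (d1 f z ^ 2 + d2 f z ^ 2)) * d2 f z = b
  field_simp

theorem reg_main {H : ℝ → ℝ × ℝ → ℝ} (hH : Ham H) {s c : ℝ} {K : Set Cyl} (hK : IsComp K (SL (H s) c))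
    (hreg : ∀ z, pr z ∈ frontier (Up K) → ¬ Crit (H s) z) :
    ∃ (γ : ℝ → ℝ × ℝ) (T : ℝ) (k : ℤ), 0 < T ∧ Orb (H s) γ ∧ ¬ Crit (H s) (γ 0) ∧ (∀ t, γ (t + T) = γ t + iv (k, 0)) ∧
      ∀ e : ℝ, 0 < e → ∃ τ : ℝ, 0 < τ ∧ ∀ σ δ : ℝ, |σ| < τ → |δ| < τ →
        ∃ K' D' : Set Cyl, IsCompact K' ∧ IsConnected K' ∧ K' ⊆ SL (H (s + σ)) (c - δ) ∧ MeasurableSet D' ∧
          frontier D' ⊆ K' ∧ (∃ M : ℝ, 0 < M ∧ ∀ w : Cyl, M ≤ |w.2| → (w ∈ D' ↔ w ∈ (Up K)ᶜ)) ∧
          volume (D' \ (Up K)ᶜ) < ⊤ ∧ volume ((Up K)ᶜ \ D') < ⊤ ∧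
          |(volume (D' \ (Up K)ᶜ)).toReal - (volume ((Up K)ᶜ \ D')).toReal
            - (δ * T + σ * ∫ t in (0 : ℝ)..T, dS H s (γ t))| ≤ e * (|σ| + |δ|) := by
  obtain ⟨γ, T, k, ε, hT, hc⟩ := tube_main (ham_p2 hH s) hK hreg
  refine ⟨γ, T, k, hT.Tpos, hT.orb, hT.reg, hT.per, fun e he => ?_⟩
  have Tp := hT.Tpos
  obtain ⟨C, hC1, hCb, -, hTay⟩ := ham_const hH
  have cγ : Continuous γ := orb_cont hT.orb
  obtain ⟨g, hg⟩ : ∃ g : ℝ → ℝ, g = fun t => dS H s (γ t) := ⟨_, rfl⟩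
  have cg : Continuous g := by
    rw [hg]
    exact (ham_ds hH).1.comp (continuous_const.prodMk cγ)
  have pg : ∀ t, g (t + T) = g t := by
    intro t
    rw [hg]
    show dS H s (γ (t + T)) = dS H s (γ t)
    rw [hT.per, (ham_ds hH).2.2.2.1]
  have bg : ∀ t, |g t| ≤ C := by
    intro t
    rw [hg]
    exact (hCb s (γ t)).2.2
  have cn : Continuous fun t => nv (H s) (γ t) := by
    have h1 : (fun t => nv (H s) (γ t)) = fun t => Psi (H s) γ (t, 1) - γ t := by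
      funext t
      show nv (H s) (γ t) = γ t + (1 : ℝ) • nv (H s) (γ t) - γ t
      rw [one_smul, add_sub_cancel_left]
    rw [h1]
    exact ((psi_cd (ham_p2 hH s) hT.orb hT.reg).continuous.comp (continuous_id.prodMk continuous_const)).sub cγ
  have pn : ∀ t, nv (H s) (γ (t + T)) = nv (H s) (γ t) := by
    intro t
    have h1 := psi_per (ham_p2 hH s) hT.per t 1
    unfold Psi at h1
    have h2 : γ (t + T) + (1 : ℝ) • nv (H s) (γ (t + T)) = γ t + (1 : ℝ) • nv (H s) (γ t) + iv (k, 0) := h1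
    have h3 : γ (t + T) = γ t + iv (k, 0) := hT.per t
    obtain ⟨v, hv⟩ : ∃ v, v = nv (H s) (γ (t + T)) := ⟨_, rfl⟩
    obtain ⟨v', hv'⟩ : ∃ v', v' = nv (H s) (γ t) := ⟨_, rfl⟩
    rw [← hv, ← hv', h3, one_smul, one_smul] at h2
    rw [← hv, ← hv']
    have h4 : v = v' + (γ t + iv (k, 0) + v - (γ t + v' + iv (k, 0))) := by abel
    rw [h4, h2, sub_self, add_zero]
  obtain ⟨N, hN1, hN⟩ := r14_per (g := fun t => ‖nv (H s) (γ t)‖) Tp cn.norm (fun t => by
    show ‖nv (H s) (γ (t + T))‖ = _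
    rw [pn])
  have hN' : ∀ t, ‖nv (H s) (γ t)‖ ≤ N := fun t => (le_abs_self _).trans (hN t)
  obtain ⟨η, hη⟩ : ∃ η, η = e / (4 * T) := ⟨_, rfl⟩
  have ηp : 0 < η := by rw [hη]; positivity
  have ηT : η * T = e / 4 := by rw [hη]; field_simp
  obtain ⟨M, hM⟩ : ∃ M, M = 1 + C + η := ⟨_, rfl⟩
  have Mp : 1 ≤ M := by rw [hM]; linarith
  obtain ⟨e₁, he₁⟩ : ∃ e₁, e₁ = e / (2 * T * M) := ⟨_, rfl⟩
  have e₁p : 0 < e₁ := by rw [he₁]; positivity
  have e₁M : e₁ * (T * M) = e / 2 := by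
    rw [he₁]
    field_simp
  obtain ⟨r, rp, hr⟩ := psi_detb (ham_p2 hH s) hT.orb hT.reg Tp hT.per e₁p
  obtain ⟨D, hD⟩ : ∃ D, D = C * (1 + N * M) ^ 2 := ⟨_, rfl⟩
  have Dp : 0 < D := by
    rw [hD]
    have : 0 < N * M := by positivity
    positivity
  have εp := hT.epos
  refine ⟨min (η / (2 * D)) (min (ε / (4 * M)) (r / (2 * M))), by positivity, ?_⟩
  intro σ δ hσ hδ
  obtain ⟨q, hq⟩ : ∃ q, q = |σ| + |δ| := ⟨_, rfl⟩
  have q0 : 0 ≤ q := by rw [hq]; positivity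
  have q1 : q ≤ η / D := by
    have h1 := hσ.le.trans (min_le_left _ _)
    have h2 := hδ.le.trans (min_le_left _ _)
    have h3 : η / D = η / (2 * D) + η / (2 * D) := by field_simp; ring
    rw [hq, h3]
    exact add_le_add h1 h2
  have q2 : M * q ≤ ε / 2 := by
    have h1 := hσ.le.trans ((min_le_right _ _).trans (min_le_left _ _))
    have h2 := hδ.le.trans ((min_le_right _ _).trans (min_le_left _ _))
    have h3 : ε / 2 = M * (ε / (4 * M) + ε / (4 * M)) := by field_simp; ring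
    rw [hq, h3]
    exact mul_le_mul_of_nonneg_left (add_le_add h1 h2) (by linarith)
  have q3 : M * q < r := by
    have h1 := hσ.trans_le ((min_le_right _ _).trans (min_le_right _ _))
    have h2 := hδ.trans_le ((min_le_right _ _).trans (min_le_right _ _))
    have h3 : r = M * (r / (2 * M) + r / (2 * M)) := by field_simp; ring
    rw [hq, h3]
    exact mul_lt_mul_of_pos_left (add_lt_add h1 h2) (by linarith)
  obtain ⟨b, hb⟩ : ∃ b : ℝ → ℝ, b = fun t => -(δ + σ * g t) + η * q := ⟨_, rfl⟩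
  have hb' : ∀ t, b t = -(δ + σ * g t) + η * q := fun t => by rw [hb]
  have cb : Continuous b := by
    rw [hb]
    fun_prop
  have pb : ∀ t, b (t + T) = b t := fun t => by rw [hb', hb', pg]
  have bb : ∀ t, |b t| ≤ M * q := by
    intro t
    rw [hb', hM]
    have h1 : |σ * g t| ≤ |σ| * C := by
      rw [abs_mul]
      exact mul_le_mul_of_nonneg_left (bg t) (abs_nonneg σ)
    have h2 : |-(δ + σ * g t) + η * q| ≤ |δ| + |σ| * C + η * q := by
      refine (abs_add_le _ _).trans (add_le_add ?_ ?_)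
      · rw [abs_neg]
        exact (abs_add_le _ _).trans (by linarith)
      · rw [abs_of_nonneg (by positivity)]
    have h3 : |δ| ≤ q := by rw [hq]; linarith [abs_nonneg σ]
    have h4 : |σ| * C ≤ q * C := mul_le_mul_of_nonneg_right (by rw [hq]; linarith [abs_nonneg δ]) (by linarith)
    nlinarith
  obtain ⟨cK, cK'⟩ := crv_cont hT cb pb
  refine ⟨crv (H s) γ b, mdf (H s) γ ε b (Up K)ᶜ, cK, cK', ?_, mdf_meas hT cb pb, mdf_front hT cb pb (fun t => (bb t).trans q2),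
    mdf_ends hT, ?_⟩
  · rintro w ⟨t, rfl⟩
    rw [mem_sl (fun z k => hH.per (s + σ) z k)]
    have h1 := hTay s σ (γ t) (b t • nv (H s) (γ t))
    rw [r14_nv (orb_reg (ham_p2 hH s) hT.orb hT.reg t)] at h1
    have h2 : H s (γ t) = c := by rw [orb_level (ham_p2 hH s) hT.orb, hc]
    have h3 : ‖b t • nv (H s) (γ t)‖ ≤ M * q * N := by
      rw [norm_smul, Real.norm_eq_abs]
      exact mul_le_mul (bb t) (hN' t) (norm_nonneg _) (by positivity)
    have h4 : |σ| + ‖b t • nv (H s) (γ t)‖ ≤ (1 + N * M) * q := by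
      have : |σ| ≤ q := by rw [hq]; linarith [abs_nonneg δ]
      linarith
    have h5 : C * (|σ| + ‖b t • nv (H s) (γ t)‖) ^ 2 ≤ η * q := by
      have k1 : (|σ| + ‖b t • nv (H s) (γ t)‖) ^ 2 ≤ ((1 + N * M) * q) ^ 2 :=
        pow_le_pow_left₀ (by positivity) h4 2
      have k2 : C * (|σ| + ‖b t • nv (H s) (γ t)‖) ^ 2 ≤ C * ((1 + N * M) * q) ^ 2 :=
        mul_le_mul_of_nonneg_left k1 (by linarith)
      have k3 : C * ((1 + N * M) * q) ^ 2 = D * q * q := by rw [hD]; ring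
      have k4 : D * q ≤ η := by
        rw [le_div_iff₀ Dp] at q1
        linarith
      have k5 : D * q * q ≤ η * q := mul_le_mul_of_nonneg_right k4 q0
      linarith
    have h6 := (abs_le.1 h1).1
    have h7 : dS H s (γ t) = g t := by rw [hg]
    rw [h7, h2] at h6
    have h8 := hb' t
    show c - δ ≤ H (s + σ) (γ t + b t • nv (H s) (γ t))
    linarith
  · obtain ⟨m1, m2, m3⟩ := mdf_area hT cb pb bb q2 (e := e₁) (fun t u hu => hr t u (hu.trans_lt q3))
    refine ⟨m1, m2, ?_⟩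
    have i1 : ∫ t in (0 : ℝ)..T, b t = -(δ * T + σ * ∫ t in (0 : ℝ)..T, g t) + e / 4 * q := by
      rw [hb]
      have j1 : IntervalIntegrable (fun t => -(δ + σ * g t)) volume 0 T :=
        (continuous_const.add (continuous_const.mul cg)).neg.intervalIntegrable _ _
      have j2 : IntervalIntegrable (fun _ : ℝ => η * q) volume 0 T := continuous_const.intervalIntegrable _ _
      have j3 : IntervalIntegrable (fun _ : ℝ => δ) volume 0 T := continuous_const.intervalIntegrable _ _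
      have j4 : IntervalIntegrable (fun t : ℝ => σ * g t) volume 0 T := (continuous_const.mul cg).intervalIntegrable _ _
      rw [intervalIntegral.integral_add j1 j2, intervalIntegral.integral_neg, intervalIntegral.integral_add j3 j4,
        intervalIntegral.integral_const_mul, intervalIntegral.integral_const, intervalIntegral.integral_const]
      simp only [sub_zero, smul_eq_mul]
      linear_combination q * ηT
    have i2 : ∫ t in (0 : ℝ)..T, dS H s (γ t) = ∫ t in (0 : ℝ)..T, g t := by rw [hg]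
    rw [i1] at m3
    rw [i2, ← hq]
    have i3 : e₁ * (T * (M * q)) = e / 2 * q := by linear_combination q * e₁M
    rw [i3] at m3
    have i4 : 0 ≤ e * q := by positivity
    rw [abs_le] at m3 ⊢
    constructor
    · linarith [m3.1]
    · linarith [m3.2]

end H25S
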