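import Pool.Agent.Lib.H25S.S1
import Pool.Agent.Lib.H25S.T2
import Pool.Agent.Lib.H25S.T4

/-!
# Chunk S2 (M)
(1) `K` meets the circle (`circ_meet`: `z₀` itself, `hbig`): `θK`. `Up K` meets the circle: `pr z₀ ∈ frontier (Up K)` gives a point of `Up K` over the disc (`pr_open`), and `(x, M)`, `M` large, is a point of `Up K` with all `z` over it far from `z₀` (`up_end`): `θU`. Replace `θK` by `θK + 2 π n ∈ [θU - 2π, θU)` (`≠ θU` as `Up K ∩ K = ∅`).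
(2) `θ₀ = sSup {θ ∈ Icc θK θU | pr (cz z₀ ρ θ) ∈ K}` (closed set, attained), `θ₀ < θU`. For `θ ∈ Ioc θ₀ θU` the point is not in `K`, and `pr (cz '' Ioc θ₀ θU)` is preconnected and meets `Up K`: it is in `Up K` (`up_max`). (3) There is `θ' ∈ Ioc θ₀ θU` with `f (cz z₀ ρ θ') < c`: otherwise the image of `Icc θ₀ θU` is a preconnected subset of `SL f c` meeting `K`, so it is in `K` (`hK.max`):
contradiction. `m = c - f (cz z₀ ρ θ')`. (4) For `0 < δ < m` let `θ₁ = sInf {θ ∈ Icc θ₀ θ' | f (cz z₀ ρ θ) ≤ c - δ}`: `f (cz θ₁) = c - δ` (or `≤`), `c - δ ≤ f` on `Icc θ₀ θ₁`, `θ₀ < θ₁` as `c ≤ f (cz θ₀)`. The derivative of `θ ↦ f (cz z₀ ρ θ)` is `ρ (- sin θ d1 f + cos θ d2 f)`, of absolute value `≤ ρ (C ρ + C ρ)` (`d1 f z₀ = d2 f z₀ = 0`,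
`‖cz z₀ ρ θ - z₀‖ ≤ ρ`). Mean value inequality: `δ ≤ f (cz θ₀) - f (cz θ₁) ≤ 2 C ρ ^ 2 (θ₁ - θ₀)`.
-/

namespace H25S

open MeasureTheory H83D Set Filter Topology

theorem s2_cz_cont (z₀ : ℝ × ℝ) (ρ : ℝ) : Continuous (cz z₀ ρ) := by
  unfold cz
  fun_prop

theorem s2_per (z₀ : ℝ × ℝ) (ρ θ θ' : ℝ) (n : ℤ) (h : θ = θ' + n * (2 * Real.pi)) : cz z₀ ρ θ = cz z₀ ρ θ' := by
  unfold cz
  rw [h, Real.cos_add_int_mul_two_pi, Real.sin_add_int_mul_two_pi]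

/-- the derivative along the circle -/
theorem s2_der {f : ℝ × ℝ → ℝ} (hf : P2 f) (z₀ : ℝ × ℝ) (ρ θ : ℝ) :
    HasDerivAt (fun θ => f (cz z₀ ρ θ))
      (-(ρ * Real.sin θ) * d1 f (cz z₀ ρ θ) + ρ * Real.cos θ * d2 f (cz z₀ ρ θ)) θ := by
  have hd : HasFDerivAt f (fderiv ℝ f (cz z₀ ρ θ)) (cz z₀ ρ θ) :=
    ((hf.smooth.differentiable (by norm_num)) _).hasFDerivAt
  have h1 : HasDerivAt (fun θ => z₀.1 + ρ * Real.cos θ) (ρ * (-Real.sin θ)) θ :=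
    ((Real.hasDerivAt_cos θ).const_mul ρ).const_add z₀.1
  have h2 : HasDerivAt (fun θ => z₀.2 + ρ * Real.sin θ) (ρ * Real.cos θ) θ :=
    ((Real.hasDerivAt_sin θ).const_mul ρ).const_add z₀.2
  have h3 : HasDerivAt (cz z₀ ρ) ((ρ * (-Real.sin θ), ρ * Real.cos θ) : ℝ × ℝ) θ := h1.prodMk h2
  have h4 := hd.comp_hasDerivAt θ h3
  have h5 : fderiv ℝ f (cz z₀ ρ θ) ((ρ * (-Real.sin θ), ρ * Real.cos θ) : ℝ × ℝ) =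
      -(ρ * Real.sin θ) * d1 f (cz z₀ ρ θ) + ρ * Real.cos θ * d2 f (cz z₀ ρ θ) := by
    have e : ((ρ * (-Real.sin θ), ρ * Real.cos θ) : ℝ × ℝ) =
        (-(ρ * Real.sin θ)) • ((1, 0) : ℝ × ℝ) + (ρ * Real.cos θ) • ((0, 1) : ℝ × ℝ) := by
      ext <;> simp
    rw [e, map_add, map_smul, map_smul]
    rfl
  rw [h5] at h4
  exact h4

/-- the bound of the derivative near a critical point -/
theorem s2_bd {f : ℝ × ℝ → ℝ} {C : ℝ} (hC0 : 0 < C)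
    (hC : ∀ z z' : ℝ × ℝ, |d1 f z - d1 f z'| ≤ C * ‖z - z'‖ ∧ |d2 f z - d2 f z'| ≤ C * ‖z - z'‖)
    {z₀ : ℝ × ℝ} (h0 : Crit f z₀) {ρ : ℝ} (hρ : 0 < ρ) (θ : ℝ) :
    ‖-(ρ * Real.sin θ) * d1 f (cz z₀ ρ θ) + ρ * Real.cos θ * d2 f (cz z₀ ρ θ)‖ ≤ 2 * C * ρ ^ 2 := by
  have hn : ‖cz z₀ ρ θ - z₀‖ ≤ ρ := by
    have e : cz z₀ ρ θ - z₀ = (ρ * Real.cos θ, ρ * Real.sin θ) := by
      unfold cz
      ext <;> simp
    rw [e, Prod.norm_mk, Real.norm_eq_abs, Real.norm_eq_abs, abs_mul, abs_mul, abs_of_pos hρ]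
    refine max_le ?_ ?_
    · exact mul_le_of_le_one_right hρ.le (Real.abs_cos_le_one θ)
    · exact mul_le_of_le_one_right hρ.le (Real.abs_sin_le_one θ)
  have hb := hC (cz z₀ ρ θ) z₀
  rw [h0.1, h0.2, sub_zero, sub_zero] at hb
  have hCρ : C * ‖cz z₀ ρ θ - z₀‖ ≤ C * ρ := mul_le_mul_of_nonneg_left hn hC0.le
  have b1 : |d1 f (cz z₀ ρ θ)| ≤ C * ρ := hb.1.trans hCρ
  have b2 : |d2 f (cz z₀ ρ θ)| ≤ C * ρ := hb.2.trans hCρ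
  have c1 : |-(ρ * Real.sin θ) * d1 f (cz z₀ ρ θ)| ≤ ρ * (C * ρ) := by
    rw [abs_mul, abs_neg, abs_mul, abs_of_pos hρ]
    refine mul_le_mul ?_ b1 (abs_nonneg _) hρ.le
    exact mul_le_of_le_one_right hρ.le (Real.abs_sin_le_one θ)
  have c2 : |ρ * Real.cos θ * d2 f (cz z₀ ρ θ)| ≤ ρ * (C * ρ) := by
    rw [abs_mul, abs_mul, abs_of_pos hρ]
    refine mul_le_mul ?_ b2 (abs_nonneg _) hρ.le
    exact mul_le_of_le_one_right hρ.le (Real.abs_cos_le_one θ)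
  rw [Real.norm_eq_abs]
  refine (abs_add_le _ _).trans ?_
  calc _ ≤ ρ * (C * ρ) + ρ * (C * ρ) := add_le_add c1 c2
    _ = 2 * C * ρ ^ 2 := by ring

theorem sing_arc {f : ℝ × ℝ → ℝ} (hf : P2 f) {C : ℝ} (hC0 : 0 < C)
    (hC : ∀ z z' : ℝ × ℝ, |d1 f z - d1 f z'| ≤ C * ‖z - z'‖ ∧ |d2 f z - d2 f z'| ≤ C * ‖z - z'‖)
    {c : ℝ} {K : Set Cyl} (hK : IsComp K (SL f c)) {z₀ : ℝ × ℝ} (hz : pr z₀ ∈ frontier (Up K)) (h0 : Crit f z₀)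
    {ρ : ℝ} (hρ : 0 < ρ) (hbig : ∃ w ∈ K, ∀ z, pr z = w → ρ ^ 2 < d2q z z₀) :
    ∃ m : ℝ, 0 < m ∧ ∀ δ : ℝ, 0 < δ → δ < m → ∃ θ₀ θ₁ : ℝ, θ₀ < θ₁ ∧ θ₁ ≤ θ₀ + 2 * Real.pi ∧
      δ ≤ 2 * C * ρ ^ 2 * (θ₁ - θ₀) ∧ pr (cz z₀ ρ θ₀) ∈ K ∧ (∀ θ ∈ Ioc θ₀ θ₁, pr (cz z₀ ρ θ) ∈ Up K) ∧
      ∀ θ ∈ Icc θ₀ θ₁, c - δ ≤ f (cz z₀ ρ θ) := by
  have cf : Continuous f := hf.smooth.continuous
  have hcz := s2_cz_cont z₀ ρ
  have hzK : pr z₀ ∈ K := up_front hK.cpt.isClosed hz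
  have hd0 : d2q z₀ z₀ < ρ ^ 2 := by
    unfold d2q
    simp only [sub_self]
    have : 0 < ρ ^ 2 := by positivity
    simpa using this
  obtain ⟨θK, hθK⟩ := circ_meet hK.con.isPreconnected hρ ⟨z₀, hzK, hd0⟩ hbig
  have hUp : ∃ θU : ℝ, pr (cz z₀ ρ θU) ∈ Up K := by
    refine circ_meet (up_conn hK.cpt).isPreconnected hρ ?_ ?_
    · have hcl : pr z₀ ∈ closure (Up K) := frontier_subset_closure hz
      have ho : IsOpen (pr '' {z : ℝ × ℝ | d2q z z₀ < ρ ^ 2}) :=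
        pr_open _ (isOpen_lt (s1_cont z₀) continuous_const)
      obtain ⟨w, ⟨z, hz1, hzw⟩, hw2⟩ := mem_closure_iff.1 hcl _ ho ⟨z₀, hd0, rfl⟩
      refine ⟨z, ?_, hz1⟩
      rw [hzw]
      exact hw2
    · obtain ⟨M, -, hM⟩ := cpt_bd hK.cpt
      have hM' : ∀ w ∈ K, w.2 < M := fun w hw => (abs_lt.1 (hM w hw)).2
      refine ⟨((0 : AddCircle (1 : ℝ)), max M (z₀.2 + ρ + 1)), up_end hM' _ (le_max_left _ _), fun z hzz => ?_⟩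
      have e : z.2 = max M (z₀.2 + ρ + 1) := congrArg Prod.snd hzz
      have e1 : z₀.2 + ρ + 1 ≤ z.2 := by
        rw [e]
        exact le_max_right _ _
      unfold d2q
      nlinarith [sq_nonneg (z.1 - z₀.1)]
  obtain ⟨θU, hθU⟩ := hUp
  have hdis : ∀ w, w ∈ Up K → w ∉ K := fun w h1 h2 => Set.disjoint_left.1 (up_disj K) h1 h2
  have hπ : (0 : ℝ) < 2 * Real.pi := Real.two_pi_pos
  obtain ⟨a, ha1, ha2, haK⟩ : ∃ a : ℝ, θU - 2 * Real.pi ≤ a ∧ a < θU ∧ pr (cz z₀ ρ a) ∈ K := by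
    have h1 := toIcoMod_mem_Ico hπ (θU - 2 * Real.pi) θK
    have h2 := toIcoMod_add_toIcoDiv_zsmul hπ (θU - 2 * Real.pi) θK
    refine ⟨toIcoMod hπ (θU - 2 * Real.pi) θK, h1.1, ?_, ?_⟩
    · have := h1.2
      linarith
    · rw [← s2_per z₀ ρ θK _ (toIcoDiv hπ (θU - 2 * Real.pi) θK) (by rw [← zsmul_eq_mul, h2])]
      exact hθK
  have hcpr : Continuous fun θ => pr (cz z₀ ρ θ) := pr_cont.comp hcz
  have hS0 : IsCompact {θ : ℝ | θ ∈ Icc a θU ∧ pr (cz z₀ ρ θ) ∈ K} :=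
    isCompact_Icc.inter_right (hK.cpt.isClosed.preimage hcpr)
  obtain ⟨θ₀, ⟨hθ₀I, hθ₀K⟩, hθ₀m⟩ := hS0.exists_isGreatest ⟨a, ⟨le_rfl, ha2.le⟩, haK⟩
  have hθ₀U : θ₀ < θU := by
    refine lt_of_le_of_ne hθ₀I.2 fun h => ?_
    rw [h] at hθ₀K
    exact hdis _ hθU hθ₀K
  have hnK : ∀ θ ∈ Ioc θ₀ θU, pr (cz z₀ ρ θ) ∉ K := by
    intro θ hθ h
    have := hθ₀m ⟨⟨hθ₀I.1.trans hθ.1.le, hθ.2⟩, h⟩
    exact absurd hθ.1 (not_lt.2 this)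
  have hUpI : ∀ θ ∈ Ioc θ₀ θU, pr (cz z₀ ρ θ) ∈ Up K := by
    have h1 : IsPreconnected ((fun θ => pr (cz z₀ ρ θ)) '' Ioc θ₀ θU) :=
      isPreconnected_Ioc.image _ hcpr.continuousOn
    have h2 : Disjoint ((fun θ => pr (cz z₀ ρ θ)) '' Ioc θ₀ θU) K := by
      rw [Set.disjoint_left]
      rintro _ ⟨θ, hθ, rfl⟩
      exact hnK θ hθ
    have h3 := up_max h1 h2 ⟨_, ⟨θU, ⟨hθ₀U, le_rfl⟩, rfl⟩, hθU⟩
    exact fun θ hθ => h3 ⟨θ, hθ, rfl⟩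
  have hf0 : c ≤ f (cz z₀ ρ θ₀) := (mem_sl hf.per c _).1 (hK.sub hθ₀K)
  obtain ⟨θ', hθ', hfθ'⟩ : ∃ θ' ∈ Ioc θ₀ θU, f (cz z₀ ρ θ') < c := by
    by_contra hno
    push Not at hno
    have h1 : IsPreconnected ((fun θ => pr (cz z₀ ρ θ)) '' Icc θ₀ θU) :=
      isPreconnected_Icc.image _ hcpr.continuousOn
    have h2 : (fun θ => pr (cz z₀ ρ θ)) '' Icc θ₀ θU ⊆ SL f c := by
      rintro _ ⟨θ, hθ, rfl⟩
      refine (mem_sl hf.per c _).2 ?_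
      rcases eq_or_lt_of_le hθ.1 with h | h
      · rw [← h]
        exact hf0
      · exact hno θ ⟨h, hθ.2⟩
    have h3 := hK.max _ h1 h2 ⟨_, ⟨θ₀, ⟨le_rfl, hθ₀U.le⟩, rfl⟩, hθ₀K⟩
    exact hdis _ hθU (h3 ⟨θU, ⟨hθ₀U.le, le_rfl⟩, rfl⟩)
  refine ⟨c - f (cz z₀ ρ θ'), by linarith, fun δ hδ hδm => ?_⟩
  have cg : Continuous fun θ => f (cz z₀ ρ θ) := cf.comp hcz
  have hS1 : IsCompact {θ : ℝ | θ ∈ Icc θ₀ θ' ∧ f (cz z₀ ρ θ) ≤ c - δ} :=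
    isCompact_Icc.inter_right (isClosed_le cg continuous_const)
  obtain ⟨θ₁, ⟨hθ₁I, hθ₁f⟩, hθ₁m⟩ := hS1.exists_isLeast ⟨θ', ⟨hθ'.1.le, le_rfl⟩, by linarith⟩
  have h01 : θ₀ < θ₁ := by
    refine lt_of_le_of_ne hθ₁I.1 fun h => ?_
    rw [← h] at hθ₁f
    linarith
  have hlow : ∀ θ ∈ Ico θ₀ θ₁, c - δ ≤ f (cz z₀ ρ θ) := by
    intro θ hθ
    by_contra h
    have h1 := hθ₁m ⟨⟨hθ.1, hθ.2.le.trans hθ₁I.2⟩, (not_le.1 h).le⟩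
    exact absurd hθ.2 (not_lt.2 h1)
  have hlow' : ∀ θ ∈ Icc θ₀ θ₁, c - δ ≤ f (cz z₀ ρ θ) := by
    have h1 : IsClosed {θ : ℝ | c - δ ≤ f (cz z₀ ρ θ)} := isClosed_le continuous_const cg
    have h2 := closure_minimal (s := Ico θ₀ θ₁) hlow h1
    rw [closure_Ico h01.ne] at h2
    exact h2
  refine ⟨θ₀, θ₁, h01, ?_, ?_, hθ₀K, fun θ hθ => hUpI θ ⟨hθ.1, hθ.2.trans (hθ₁I.2.trans hθ'.2)⟩, hlow'⟩
  · have h1 := hθ₁I.2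
    have h2 := hθ'.2
    have h3 := hθ₀I.1
    linarith
  · have hmv := (convex_Icc θ₀ θ₁).norm_image_sub_le_of_norm_hasDerivWithin_le
      (f := fun θ => f (cz z₀ ρ θ))
      (f' := fun θ => -(ρ * Real.sin θ) * d1 f (cz z₀ ρ θ) + ρ * Real.cos θ * d2 f (cz z₀ ρ θ))
      (C := 2 * C * ρ ^ 2)
      (fun θ _ => (s2_der hf z₀ ρ θ).hasDerivWithinAt) (fun θ _ => s2_bd hC0 hC h0 hρ θ)
      (left_mem_Icc.2 h01.le) (right_mem_Icc.2 h01.le)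
    rw [Real.norm_eq_abs, Real.norm_eq_abs, abs_of_pos (by linarith : 0 < θ₁ - θ₀)] at hmv
    have h1 := neg_abs_le (f (cz z₀ ρ θ₁) - f (cz z₀ ρ θ₀))
    linarith

end H25S
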