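import Pool.Agent.Lib.H25S.S3

/-!
# Chunk S4 (M)
By contradiction: there are `A > 0` and `δ n → 0`, `δ n > 0`, with `volume (E (δ n)) < ofReal (A * δ n)`. `F n ρ = ofReal ρ * volume {θ | .. ∈ E (δ n)} / ofReal (δ n)`: `∫⁻ ρ in Ioo 0 ρ₀, F n ρ ≤ volume (E (δ n)) / δ n ≤ A` (`polar_low`). For fixed `ρ` and large `n` (`δ n < m`): `F n ρ ≥ ofReal (ρ * (δ n / (C ρ^2)) / δ n) = ofReal (1 / (C ρ))` (`arc_meas`).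
Fatou (`lintegral_liminf_le`): `∫⁻ ρ in Ioo 0 ρ₀, ofReal (1 / (C ρ)) ≤ liminf ∫⁻ F n ≤ A < ∞`; but the integral of `1/(C ρ)` over `(0, ρ₀)` is infinite (over `(ρ₁, ρ₀)` it is `log (ρ₀/ρ₁) / C`; `not_intervalIntegrable_of_..`, `integrableOn_Ioo_rpow_iff` with exponent `-1`, `integral_inv`).
-/

namespace H25S

open MeasureTheory H83D Set Filter Topology

theorem s4_div {C ρ₀ A : ℝ} (hρ : 0 < ρ₀) (hC : 0 < C)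
    (h : ∫⁻ ρ in Ioo 0 ρ₀, ENNReal.ofReal (C⁻¹ * ρ ^ (-1 : ℝ)) ≤ ENNReal.ofReal A) : False := by
  have hint : IntegrableOn (fun ρ : ℝ => C⁻¹ * ρ ^ (-1 : ℝ)) (Ioo 0 ρ₀) := by
    refine ⟨((measurable_id.pow_const (-1 : ℝ)).const_mul C⁻¹).aestronglyMeasurable, ?_⟩
    rw [hasFiniteIntegral_iff_ofReal]
    · exact lt_of_le_of_lt h ENNReal.ofReal_lt_top
    · refine (ae_restrict_iff' measurableSet_Ioo).mpr (ae_of_all _ fun ρ hρ' => ?_)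
      exact mul_nonneg (inv_nonneg.mpr hC.le) (Real.rpow_nonneg hρ'.1.le _)
  have hint2 := hint.const_mul C
  have he : (fun ρ : ℝ => C * (C⁻¹ * ρ ^ (-1 : ℝ))) = fun ρ => ρ ^ (-1 : ℝ) := by
    funext ρ
    rw [← mul_assoc, mul_inv_cancel₀ hC.ne', one_mul]
  have hint3 : IntegrableOn (fun ρ : ℝ => ρ ^ (-1 : ℝ)) (Ioo 0 ρ₀) := by
    rw [← he]
    exact hint2
  rw [intervalIntegral.integrableOn_Ioo_rpow_iff hρ] at hint3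
  exact lt_irrefl _ hint3

theorem s4_point {C ρ δ θ₀ θ₁ : ℝ} {v : ENNReal} (hC : 0 < C) (hρ : 0 < ρ) (hδ : 0 < δ)
    (h : δ ≤ C * ρ ^ 2 * (θ₁ - θ₀)) (hv : ENNReal.ofReal (θ₁ - θ₀) ≤ v) :
    ENNReal.ofReal (C⁻¹ * ρ ^ (-1 : ℝ)) ≤ ENNReal.ofReal ρ * v * (ENNReal.ofReal δ)⁻¹ := by
  have h1 : C⁻¹ * ρ ^ (-1 : ℝ) ≤ ρ * (θ₁ - θ₀) * δ⁻¹ := by
    rw [Real.rpow_neg_one, ← div_eq_mul_inv _ δ, le_div_iff₀ hδ]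
    have h2 : C⁻¹ * ρ⁻¹ * δ ≤ C⁻¹ * ρ⁻¹ * (C * ρ ^ 2 * (θ₁ - θ₀)) :=
      mul_le_mul_of_nonneg_left h (by positivity)
    refine h2.trans (le_of_eq ?_)
    field_simp
  refine (ENNReal.ofReal_le_ofReal h1).trans ?_
  rw [ENNReal.ofReal_mul' (inv_nonneg.mpr hδ.le), ENNReal.ofReal_mul hρ.le, ENNReal.ofReal_inv_of_pos hδ]
  gcongr

theorem polar_fatou {z₀ : ℝ × ℝ} {ρ₀ C : ℝ} (hρ : 0 < ρ₀) (hC : 0 < C) {E : ℝ → Set (ℝ × ℝ)} (mE : ∀ δ, MeasurableSet (E δ))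
    (h : ∀ ρ : ℝ, 0 < ρ → ρ < ρ₀ → ∃ m : ℝ, 0 < m ∧ ∀ δ : ℝ, 0 < δ → δ < m → ∃ θ₀ θ₁ : ℝ, θ₀ < θ₁ ∧
      θ₁ ≤ θ₀ + 2 * Real.pi ∧ δ ≤ C * ρ ^ 2 * (θ₁ - θ₀) ∧ ∀ θ ∈ Ioc θ₀ θ₁, cz z₀ ρ θ ∈ E δ) :
    ∀ A : ℝ, 0 < A → ∃ δ₀ : ℝ, 0 < δ₀ ∧ ∀ δ : ℝ, 0 < δ → δ < δ₀ → ENNReal.ofReal (A * δ) ≤ volume (E δ) := by
  by_contra hcon
  push Not at hcon
  obtain ⟨A, hA, hcon⟩ := hcon
  have hseq : ∀ n : ℕ, ∃ δ : ℝ, 0 < δ ∧ δ < 1 / ((n : ℝ) + 1) ∧ volume (E δ) < ENNReal.ofReal (A * δ) := fun n =>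
    hcon (1 / ((n : ℝ) + 1)) (by positivity)
  choose δ hδ0 hδ1 hδ2 using hseq
  have hlim : Tendsto δ atTop (𝓝 0) :=
    squeeze_zero (fun n => (hδ0 n).le) (fun n => (hδ1 n).le) tendsto_one_div_add_atTop_nhds_zero_nat
  let F : ℕ → ℝ → ENNReal := fun n ρ =>
    ENNReal.ofReal ρ * volume {θ | θ ∈ Ioo (-Real.pi) Real.pi ∧ cz z₀ ρ θ ∈ E (δ n)} * (ENNReal.ofReal (δ n))⁻¹
  have hF : ∀ n, Measurable (F n) := fun n =>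
    (ENNReal.measurable_ofReal.mul (polar_meas (mE (δ n)))).mul_const _
  have hint : ∀ n, ∫⁻ ρ in Ioo 0 ρ₀, F n ρ ≤ ENNReal.ofReal A := by
    intro n
    have h1 : ∫⁻ ρ in Ioo 0 ρ₀, F n ρ = (∫⁻ ρ in Ioo 0 ρ₀, ENNReal.ofReal ρ *
        volume {θ | θ ∈ Ioo (-Real.pi) Real.pi ∧ cz z₀ ρ θ ∈ E (δ n)}) * (ENNReal.ofReal (δ n))⁻¹ :=
      lintegral_mul_const _ (ENNReal.measurable_ofReal.mul (polar_meas (mE (δ n))))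
    rw [h1]
    have h2 := (polar_low (z₀ := z₀) hρ (mE (δ n))).trans (hδ2 n).le
    calc _ ≤ ENNReal.ofReal (A * δ n) * (ENNReal.ofReal (δ n))⁻¹ := by gcongr
      _ = ENNReal.ofReal A := by
        rw [← ENNReal.ofReal_inv_of_pos (hδ0 n), ← ENNReal.ofReal_mul (mul_nonneg hA.le (hδ0 n).le), mul_assoc,
          mul_inv_cancel₀ (hδ0 n).ne', mul_one]
  have hfat : ∫⁻ ρ in Ioo 0 ρ₀, liminf (fun n => F n ρ) atTop ≤ ENNReal.ofReal A := by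
    refine (lintegral_liminf_le hF).trans ?_
    exact liminf_le_of_le (by isBoundedDefault) fun b hb => by
      obtain ⟨n, hn⟩ := hb.exists
      exact hn.trans (hint n)
  refine s4_div hρ hC (A := A) (le_trans ?_ hfat)
  refine lintegral_mono_ae ((ae_restrict_iff' measurableSet_Ioo).mpr (ae_of_all _ fun ρ hρ' => ?_))
  obtain ⟨m, hm, hm'⟩ := h ρ hρ'.1 hρ'.2
  have hev : ∀ᶠ n in atTop, ENNReal.ofReal (C⁻¹ * ρ ^ (-1 : ℝ)) ≤ F n ρ := by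
    filter_upwards [hlim.eventually_lt_const hm] with n hn
    obtain ⟨θ₀, θ₁, a1, a2, a3, a4⟩ := hm' (δ n) (hδ0 n) hn
    exact s4_point hC hρ'.1 (hδ0 n) a3 (arc_meas a1 a2 a4)
  exact le_liminf_of_le (by isBoundedDefault) hev

end H25S
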