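import Pool.Agent.Lib.H25S.S0
import Pool.Agent.Lib.H25S.S2
import Pool.Agent.Lib.H25S.S4
import Pool.Agent.Lib.H25S.T3
import Pool.Agent.Lib.H25S.V1

/-!
# Chunk S5 (M)
Let `|w.2| < M` on `K` (`cpt_bd`) with `M ≥ |z₀.2| + 1`. For `δ > 0`: `A δ = SL f (c - δ) ∩ {w | |w.2| ≤ M}` compact, `K' δ = connectedComponentIn (A δ) (pr z₀)`: compact (`comp_closed`), connected, contains `K` (`comp_max`, `SL f c ⊆ SL f (c-δ)`). `E δ = {z | d2q z z₀ < ρ₀ ^ 2 ∧ pr z ∈ K' δ ∩ Up K}` measurable (`Up K` open). For `0 < ρ < ρ₀` (`hbig` for `ρ₀` gives it for `ρ`)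
`sing_arc` gives `θ₀, θ₁`: the points `cz z₀ ρ θ`, `θ ∈ Ioc θ₀ θ₁`, are in `E δ`: `d2q (cz z₀ ρ θ) z₀ = ρ ^ 2 < ρ₀ ^ 2`, `pr (cz '' Icc θ₀ θ₁)` is preconnected, in `A δ`, meets `K ⊆ K' δ`. `polar_fatou` with `2 C`. Finally `pr` is injective on `{d2q z z₀ < ρ₀ ^ 2}` (`ρ₀ ≤ 1/4`, `pr_eq`), so `volume (E δ) = volume (pr '' E δ) ≤ volume (K' δ ∩ Up K)` (`vol_pr`).
-/

namespace H25S

open MeasureTheory H83D Set Filter Topology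

theorem s5_bd {M : ℝ} {A : Set Cyl} (hA : IsClosed A) (h : ∀ w ∈ A, |w.2| ≤ M) : IsCompact A := by
  have hb : IsCompact ((univ : Set (AddCircle (1 : ℝ))) ×ˢ Icc (-M) M) := isCompact_univ.prod isCompact_Icc
  refine hb.of_isClosed_subset hA ?_
  intro w hw
  have := abs_le.1 (h w hw)
  exact ⟨mem_univ _, this.1, this.2⟩

theorem s5_closed {A : Set Cyl} (hA : IsClosed A) (w₀ : Cyl) : IsClosed (connectedComponentIn A w₀) := by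
  by_cases h : w₀ ∈ A
  · exact comp_closed hA h
  · rw [connectedComponentIn_eq_empty h]
    exact isClosed_empty

theorem s5_inj {z₀ : ℝ × ℝ} {ρ₀ : ℝ} (hρ : 0 < ρ₀) (hρ' : ρ₀ ≤ 1 / 4) : InjOn pr {z | d2q z z₀ < ρ₀ ^ 2} := by
  intro z hz z' hz' h
  obtain ⟨k, hk⟩ := pr_eq.1 h
  have h1 : (z.1 - z₀.1) ^ 2 + (z.2 - z₀.2) ^ 2 < ρ₀ ^ 2 := hz
  have h2 : (z'.1 - z₀.1) ^ 2 + (z'.2 - z₀.2) ^ 2 < ρ₀ ^ 2 := hz'
  have h3 : |z.1 - z₀.1| < ρ₀ := abs_lt_of_sq_lt_sq (by nlinarith [sq_nonneg (z.2 - z₀.2)]) hρ.le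
  have h4 : |z'.1 - z₀.1| < ρ₀ := abs_lt_of_sq_lt_sq (by nlinarith [sq_nonneg (z'.2 - z₀.2)]) hρ.le
  have h5 : z'.1 = z.1 + k := by rw [hk]; simp [iv]
  have h6 : |(k : ℝ)| < 1 := by
    have : (k : ℝ) = (z'.1 - z₀.1) - (z.1 - z₀.1) := by rw [h5]; ring
    rw [this]
    have := abs_sub (z'.1 - z₀.1) (z.1 - z₀.1)
    linarith
  have h7 : k = 0 := by
    have a1 := (abs_lt.1 h6)
    have a2 : -1 < k := by exact_mod_cast a1.1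
    have a3 : k < 1 := by exact_mod_cast a1.2
    omega
  rw [h7] at hk
  rw [hk]
  simp [iv]

theorem s5_circ (z₀ : ℝ × ℝ) (ρ θ : ℝ) : d2q (cz z₀ ρ θ) z₀ = ρ ^ 2 := by
  have h := Real.sin_sq_add_cos_sq θ
  unfold d2q cz
  linear_combination ρ ^ 2 * h

theorem sing_main {f : ℝ × ℝ → ℝ} (hf : P2 f) {C : ℝ} (hC0 : 0 < C)
    (hC : ∀ z z' : ℝ × ℝ, |d1 f z - d1 f z'| ≤ C * ‖z - z'‖ ∧ |d2 f z - d2 f z'| ≤ C * ‖z - z'‖)
    {c : ℝ} {K : Set Cyl} (hK : IsComp K (SL f c)) {z₀ : ℝ × ℝ} (hz : pr z₀ ∈ frontier (Up K)) (h0 : Crit f z₀)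
    {ρ₀ : ℝ} (hρ : 0 < ρ₀) (hρ' : ρ₀ ≤ 1 / 4) (hbig : ∃ w ∈ K, ∀ z, pr z = w → ρ₀ ^ 2 < d2q z z₀) :
    ∀ A : ℝ, 0 < A → ∃ δ₀ : ℝ, 0 < δ₀ ∧ ∀ δ : ℝ, 0 < δ → δ < δ₀ → ∃ K' : Set Cyl, K ⊆ K' ∧ IsCompact K' ∧ IsConnected K' ∧
      K' ⊆ SL f (c - δ) ∧ ENNReal.ofReal (A * δ) ≤ volume (K' ∩ Up K) := by
  obtain ⟨M₁, _, hM₁⟩ := cpt_bd hK.cpt
  have cf : Continuous f := hf.smooth.continuous
  let M : ℝ := max M₁ (|z₀.2| + 1)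
  let B : ℝ → Set Cyl := fun δ => SL f (c - δ) ∩ {w | |w.2| ≤ M}
  let K' : ℝ → Set Cyl := fun δ => connectedComponentIn (B δ) (pr z₀)
  let E : ℝ → Set (ℝ × ℝ) := fun δ => {z | d2q z z₀ < ρ₀ ^ 2} ∩ pr ⁻¹' (K' δ ∩ Up K)
  have cB : ∀ δ, IsClosed (B δ) := fun δ => (sl_closed cf hf.per (c - δ)).inter
    (isClosed_le (continuous_abs.comp continuous_snd) continuous_const)
  have cK' : ∀ δ, IsClosed (K' δ) := fun δ => s5_closed (cB δ) (pr z₀)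
  have mE : ∀ δ, MeasurableSet (E δ) := fun δ =>
    ((isOpen_lt (s1_cont z₀) continuous_const).measurableSet).inter
      (pr_cont.measurable ((cK' δ).measurableSet.inter (up_open hK.cpt.isClosed).measurableSet))
  have hzK : pr z₀ ∈ K := up_front hK.cpt.isClosed hz
  have hKB : ∀ δ, 0 < δ → K ⊆ B δ := by
    intro δ hδ w hw
    refine ⟨?_, (hM₁ w hw).le.trans (le_max_left _ _)⟩
    have h1 : c ≤ dsc f w := hK.sub hw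
    show c - δ ≤ dsc f w
    linarith
  have hKK' : ∀ δ, 0 < δ → K ⊆ K' δ := fun δ hδ =>
    comp_max (hKB δ hδ hzK) hK.con.isPreconnected (hKB δ hδ) ⟨pr z₀, hzK, mem_connectedComponentIn (hKB δ hδ hzK)⟩
  have hmain := polar_fatou (z₀ := z₀) (ρ₀ := ρ₀) (C := 2 * C) hρ (by positivity) (E := E) mE (by
    intro ρ hρ1 hρ2
    obtain ⟨w, hwK, hw⟩ := hbig
    obtain ⟨m, hm, hm'⟩ := sing_arc hf hC0 hC hK hz h0 hρ1 ⟨w, hwK, fun z hz => lt_trans (by nlinarith) (hw z hz)⟩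
    refine ⟨m, hm, fun δ hδ hδm => ?_⟩
    obtain ⟨θ₀, θ₁, a1, a2, a3, a4, a5, a6⟩ := hm' δ hδ hδm
    refine ⟨θ₀, θ₁, a1, a2, a3, fun θ hθ => ⟨?_, ?_, a5 θ hθ⟩⟩
    · show d2q (cz z₀ ρ θ) z₀ < ρ₀ ^ 2
      rw [s5_circ]
      nlinarith
    · have hcont : Continuous fun θ : ℝ => pr (cz z₀ ρ θ) :=
        pr_cont.comp ((s3_cont z₀).comp (Continuous.prodMk continuous_const continuous_id))
      have hS : IsPreconnected ((fun θ : ℝ => pr (cz z₀ ρ θ)) '' Icc θ₀ θ₁) :=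
        isPreconnected_Icc.image _ hcont.continuousOn
      have hSB : (fun θ : ℝ => pr (cz z₀ ρ θ)) '' Icc θ₀ θ₁ ⊆ B δ := by
        rintro _ ⟨φ, hφ, rfl⟩
        refine ⟨(mem_sl hf.per _ _).2 (a6 φ hφ), ?_⟩
        show |z₀.2 + ρ * Real.sin φ| ≤ M
        refine le_trans ?_ (le_max_right _ _)
        refine (abs_add_le _ _).trans ?_
        have h1 : |ρ * Real.sin φ| ≤ 1 := by
          rw [abs_mul, abs_of_pos hρ1]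
          have := Real.abs_sin_le_one φ
          nlinarith [abs_nonneg (Real.sin φ)]
        linarith
      exact comp_max (hKB δ hδ hzK) hS hSB ⟨_, ⟨θ₀, ⟨le_rfl, a1.le⟩, rfl⟩, hKK' δ hδ a4⟩ ⟨θ, ⟨hθ.1.le, hθ.2⟩, rfl⟩)
  intro A hA
  obtain ⟨δ₀, hδ₀, h⟩ := hmain A hA
  refine ⟨δ₀, hδ₀, fun δ hδ hδ' => ⟨K' δ, hKK' δ hδ, ?_, ?_, ?_, ?_⟩⟩
  · exact s5_bd (cK' δ) fun w hw => (connectedComponentIn_subset _ _ hw).2
  · exact isConnected_connectedComponentIn_iff.2 (hKB δ hδ hzK)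
  · exact (connectedComponentIn_subset _ _).trans inter_subset_left
  · have hi : InjOn pr (E δ) := (s5_inj hρ hρ').mono inter_subset_left
    refine (h δ hδ hδ').trans ?_
    rw [← vol_pr (mE δ) hi]
    refine measure_mono ?_
    rintro _ ⟨z, hz, rfl⟩
    exact hz.2

end H25S
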