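import Pool.Agent.Lib.H25S.Defs2
import Pool.Agent.Lib.H25S.T4
import Pool.Agent.Lib.H25S.V1

/-!
# Chunk S7 (M)
Otherwise every `w ∈ K` is `pr z` with `d2q z z₀ ≤ ρ ^ 2`, so `K ⊆ B = pr '' (Icc (z₀.1 - ρ) (z₀.1 + ρ) ×ˢ Icc (z₀.2 - ρ) (z₀.2 + ρ))`. The complement of `B` contains `{w | z₀.2 + ρ < w.2}`, `{w | w.2 < z₀.2 - ρ}` and `pr '' (Ioo (z₀.1 + ρ) (z₀.1 + 1 - ρ) ×ˢ univ)`, three connected sets, the third meets the other two, and `Bᶜ` is their union: preconnected, disjoint from `K`, contains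
the upper end. So `Bᶜ ⊆ Up K` (`up_max`, `up_end`), `(Up K)ᶜ ⊆ B`, and `volume B = 4 ρ ^ 2` (`vol_pr`, `pr` is injective on the square as `ρ < 1/2`).
-/

namespace H25S

open MeasureTheory H83D Set Filter Topology

theorem vol_big {K : Set Cyl} (hK : IsCompact K) (z₀ : ℝ × ℝ) {ρ : ℝ} (hρ : 0 < ρ) (hρ' : ρ < 1 / 2)
    (hv : ENNReal.ofReal (4 * ρ ^ 2) < volume (Up K)ᶜ) : ∃ w ∈ K, ∀ z, pr z = w → ρ ^ 2 < d2q z z₀ := by
  by_contra hcon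
  push Not at hcon
  set R : Set (ℝ × ℝ) := Icc (z₀.1 - ρ) (z₀.1 + ρ) ×ˢ Icc (z₀.2 - ρ) (z₀.2 + ρ) with hR
  have hKB : ∀ w ∈ K, ∃ z ∈ R, pr z = w := by
    intro w hw
    obtain ⟨z, hz, hd⟩ := hcon w hw
    refine ⟨z, ?_, hz⟩
    unfold d2q at hd
    have h1 : |z.1 - z₀.1| ≤ ρ := abs_le_of_sq_le_sq (by nlinarith [sq_nonneg (z.2 - z₀.2)]) hρ.le
    have h2 : |z.2 - z₀.2| ≤ ρ := abs_le_of_sq_le_sq (by nlinarith [sq_nonneg (z.1 - z₀.1)]) hρ.le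
    rw [abs_le] at h1 h2
    exact ⟨⟨by linarith, by linarith⟩, ⟨by linarith, by linarith⟩⟩
  have hK2 : ∀ w ∈ K, z₀.2 - ρ ≤ w.2 ∧ w.2 ≤ z₀.2 + ρ := by
    intro w hw
    obtain ⟨z, hz, rfl⟩ := hKB w hw
    exact hz.2
  -- the upper part
  have hA1 : ∀ w : Cyl, z₀.2 + ρ < w.2 → w ∈ Up K := fun w hw =>
    up_end (M := w.2) (fun v hv => lt_of_le_of_lt (hK2 v hv).2 hw) w le_rfl
  -- the strip
  have hA3 : pr '' (Ioo (z₀.1 + ρ) (z₀.1 + 1 - ρ) ×ˢ (univ : Set ℝ)) ⊆ Up K := by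
    have hc : Convex ℝ (Ioo (z₀.1 + ρ) (z₀.1 + 1 - ρ) ×ˢ (univ : Set ℝ)) := (convex_Ioo _ _).prod convex_univ
    refine up_max (hc.isPreconnected.image _ pr_cont.continuousOn) ?_
      ⟨pr (z₀.1 + 1 / 2, z₀.2 + ρ + 1), ⟨_, ⟨⟨by dsimp only; linarith, by dsimp only; linarith⟩, mem_univ _⟩, rfl⟩,
        hA1 _ (by simp only [pr]; linarith)⟩
    rw [Set.disjoint_left]
    rintro w ⟨z, hz, rfl⟩ hw
    obtain ⟨z', hz', he⟩ := hKB _ hw
    obtain ⟨k, hk⟩ := pr_eq.1 he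
    have h1 : z.1 = z'.1 + k := by rw [hk]; simp [iv]
    have h2 := hz.1
    have h3 := hz'.1
    simp only [mem_Ioo, mem_Icc] at h2 h3
    have a1 : (0 : ℝ) < k := by linarith [h2.1, h3.2]
    have a2 : (k : ℝ) < 1 := by linarith [h2.2, h3.1]
    have a3 : (0 : ℤ) < k := by exact_mod_cast a1
    have a4 : k < 1 := by exact_mod_cast a2
    omega
  -- the lower part
  have hA2 : pr '' {z : ℝ × ℝ | z.2 < z₀.2 - ρ} ⊆ Up K := by
    have hc : Convex ℝ {z : ℝ × ℝ | z.2 < z₀.2 - ρ} :=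
      convex_halfSpace_lt (f := fun z : ℝ × ℝ => z.2) ⟨fun _ _ => rfl, fun _ _ => rfl⟩ _
    refine up_max (hc.isPreconnected.image _ pr_cont.continuousOn) ?_
      ⟨pr (z₀.1 + 1 / 2, z₀.2 - ρ - 1), ⟨_, ?_, rfl⟩, hA3 ⟨_, ⟨⟨?_, ?_⟩, mem_univ _⟩, rfl⟩⟩
    · rw [Set.disjoint_left]
      rintro w ⟨z, hz, rfl⟩ hw
      have h1 := (hK2 _ hw).1
      have h2 : z.2 < z₀.2 - ρ := hz
      simp only [pr] at h1
      linarith
    · show z₀.2 - ρ - 1 < z₀.2 - ρ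
      linarith
    · dsimp only; linarith
    · dsimp only; linarith
  have hsub : (Up K)ᶜ ⊆ pr '' R := by
    intro w hw
    obtain ⟨z, rfl⟩ := pr_surj w
    have h1 : z.2 ≤ z₀.2 + ρ := by
      by_contra h
      exact hw (hA1 _ (not_le.1 h))
    have h2 : z₀.2 - ρ ≤ z.2 := by
      by_contra h
      exact hw (hA2 ⟨z, not_le.1 h, rfl⟩)
    have h3 : pr z = pr (z + iv (-⌊z.1 - (z₀.1 - ρ)⌋, 0)) := pr_eq.2 ⟨_, rfl⟩
    have h4 : (z + iv (-⌊z.1 - (z₀.1 - ρ)⌋, 0)).1 = z.1 - ⌊z.1 - (z₀.1 - ρ)⌋ := by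
      simp [iv]; ring
    have h5 : (z + iv (-⌊z.1 - (z₀.1 - ρ)⌋, 0)).2 = z.2 := by
      simp [iv]
    have h6 := Int.floor_le (z.1 - (z₀.1 - ρ))
    have h7 := Int.lt_floor_add_one (z.1 - (z₀.1 - ρ))
    by_cases h8 : z.1 - ⌊z.1 - (z₀.1 - ρ)⌋ ≤ z₀.1 + ρ
    · refine ⟨_, ⟨⟨?_, ?_⟩, ⟨?_, ?_⟩⟩, h3.symm⟩
      · rw [h4]; linarith
      · rw [h4]; exact h8
      · rw [h5]; exact h2
      · rw [h5]; exact h1
    · exfalso
      apply hw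
      rw [h3]
      refine hA3 ⟨_, ⟨⟨?_, ?_⟩, mem_univ _⟩, rfl⟩
      · rw [h4]; exact not_le.1 h8
      · rw [h4]; linarith
  have hinj : InjOn pr R := by
    intro z hz z' hz' he
    obtain ⟨k, hk⟩ := pr_eq.1 he
    have h1 : z'.1 = z.1 + k := by rw [hk]; simp [iv]
    have h2 : z'.2 = z.2 := by rw [hk]; simp [iv]
    have h3 := hz.1
    have h4 := hz'.1
    simp only [mem_Icc] at h3 h4
    have a1 : (-1 : ℝ) < k := by linarith [h3.2, h4.1]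
    have a2 : (k : ℝ) < 1 := by linarith [h3.1, h4.2]
    have a3 : -1 < k := by exact_mod_cast a1
    have a4 : k < 1 := by exact_mod_cast a2
    have a5 : k = 0 := by omega
    rw [a5] at h1
    exact Prod.ext (by simpa using h1.symm) h2.symm
  have hvol : volume (pr '' R) = ENNReal.ofReal (4 * ρ ^ 2) := by
    rw [vol_pr (measurableSet_Icc.prod measurableSet_Icc) hinj, Measure.volume_eq_prod, Measure.prod_prod,
      Real.volume_Icc, Real.volume_Icc, ← ENNReal.ofReal_mul (by linarith)]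
    congr 1
    ring
  have := measure_mono (μ := volume) hsub
  rw [hvol] at this
  exact absurd hv (not_lt.2 this)

end H25S
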