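import Pool.Agent.Lib.H25S.Defs

/-!
# Chunk T13 (S)
A preconnected set `S` which does not meet `frontier D` is inside `D` or inside `Dᶜ` (split `S` into `S ∩ interior D` and `S ∩ interior Dᶜ`; `isPreconnected_iff_subset_of_disjoint`). For `z ∈ Up K` with the set `S` of the definition: `S` is disjoint from `K ⊇ frontier D` and contains a point of the
upper end which is not in `D`. So `z ∉ D`. Similarly for `Dn K`.
-/

namespace H25S

open MeasureTheory H83D Set Filter Topology

theorem pre_front {S D : Set Cyl} (hS : IsPreconnected S) (hd : Disjoint S (frontier D)) (hn : (S ∩ D).Nonempty) : S ⊆ D := by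
  obtain ⟨x, hxS, hxD⟩ := hn
  have key : ∀ y ∈ S, y ∈ interior D ∨ y ∈ interior Dᶜ := by
    intro y hy
    by_cases h : y ∈ closure D
    · left
      by_contra h2
      exact Set.disjoint_left.1 hd hy ⟨h, h2⟩
    · right
      rw [interior_compl]
      exact h
  have hx : x ∈ interior D := by
    rcases key x hxS with h | h
    · exact h
    · exact absurd hxD (interior_subset h)
  intro y hy
  by_contra hyD
  have hy' : y ∈ interior Dᶜ := by
    rcases key y hy with h | h
    · exact absurd (interior_subset h) hyD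
    · exact h
  obtain ⟨z, -, hz1, hz2⟩ := hS (interior D) (interior Dᶜ) isOpen_interior isOpen_interior (fun w hw => key w hw)
    ⟨x, hxS, hx⟩ ⟨y, hy, hy'⟩
  exact (interior_subset hz2) (interior_subset hz1)

theorem up_of_front {K D : Set Cyl} (hf : frontier D ⊆ K) {M : ℝ} (hM : ∀ w : Cyl, M ≤ w.2 → w ∉ D) : Disjoint (Up K) D := by
  rw [Set.disjoint_left]
  rintro z ⟨S, hS, hSK, hz, M', hM'⟩ hzD
  have h1 : S ⊆ D := pre_front hS (hSK.mono_right hf) ⟨z, hz, hzD⟩
  exact hM ((0 : AddCircle (1 : ℝ)), max M M') (le_max_left _ _) (h1 (hM' _ (le_max_right _ _)))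

theorem dn_of_front {K D : Set Cyl} (hf : frontier D ⊆ K) {M : ℝ} (hM : ∀ w : Cyl, w.2 ≤ M → w ∈ D) : Dn K ⊆ D := by
  rintro z ⟨S, hS, hSK, hz, M', hM'⟩
  have h1 : S ⊆ D := pre_front hS (hSK.mono_right hf)
    ⟨((0 : AddCircle (1 : ℝ)), min M M'), hM' _ (min_le_right _ _), hM _ (min_le_left _ _)⟩
  exact h1 hz

end H25S
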