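import Pool.Agent.Lib.H25S.P3
import Pool.Agent.Lib.H25S.P4
import Pool.Agent.Lib.H25S.R14
import Pool.Agent.Lib.H25S.S5
import Pool.Agent.Lib.H25S.S7
import Pool.Agent.Lib.H25S.T13

/-!
# Chunk P5 (M)
`K̂ ⊇ K` of `np_comp`, `D = (Up K̂)ᶜ ⊇ (Up K)ᶜ` (`up_anti`), `volume D ≤ 1`, `ofReal α ≤ volume D`. CASE 1: some `z₀` with `pr z₀ ∈ frontier (Up K̂)` is critical. `ρ₀ ≤ 1/4`, `4 ρ₀ ^ 2 < α`: `vol_big`, `sing_main` with `A = 1` (`C` of `ham_const`), `δ < min ρ (c - c₁)`, `c' = c - δ`: `K' ⊇ K̂`, `(Up K')ᶜ ⊇ D ∪ (K' ∩ Up K̂)` (disjoint): volume `≥ α + δ`.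
CASE 2: regular: `reg_main`: `γ, T, k`, `G = ∫ dS`. If `G = 0` then `1 < T` (otherwise `hH.orb` with `(k, 0)`, `n = 0` gives `Crit`): `e = T - 1`, `σ = 0`, small `δ > 0`: growth `≥ δ T - e δ = δ`. If `G ≠ 0`: `e = |G| / 2`, `m > 0` with `m |G| / 2 ≥ 1 + |G|/2`, `σ = m δ sign G`: growth `≥ δ T + m δ |G| - e (m δ + δ) ≥ δ`. `K', D'` of `reg_main`: `D' ⊆ (Up K')ᶜ` (`up_of_front`; above `M`: `w ∉ D'`
iff `w ∈ Up K̂`, enlarge `M` with `up_end`), `volume D' + volume (D \ D') = volume D + volume (D' \ D)` (all finite), so `volume D' ≥ volume D + δ`. `c' = c - δ`, `s' = s + σ`.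
-/

namespace H25S

open MeasureTheory H83D Set Filter Topology

theorem p5_p2 {H : ℝ → ℝ × ℝ → ℝ} (hH : Ham H) (s : ℝ) : P2 (H s) where
  smooth := hH.smooth.comp (contDiff_const.prodMk contDiff_id)
  per := hH.per s

/-- The singular case. -/
theorem p5_sing {H : ℝ → ℝ × ℝ → ℝ} (hH : Ham H) {c₁ c s : ℝ} (hc : c₁ < c) {K : Set Cyl} (hK : IsComp K (SL (H s) c))
    {α : ℝ} (hα : 0 < α) (hv : ENNReal.ofReal α ≤ volume (Up K)ᶜ) {ρ : ℝ} (hρ : 0 < ρ) {z₀ : ℝ × ℝ}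
    (hz : pr z₀ ∈ frontier (Up K)) (h0 : Crit (H s) z₀) :
    ∃ (c' s' : ℝ) (K' : Set Cyl), c - ρ < c' ∧ c' < c ∧ c₁ < c' ∧ IsCompact K' ∧ IsConnected K' ∧ K' ⊆ SL (H s') c' ∧
      ENNReal.ofReal (α + (c - c')) ≤ volume (Up K')ᶜ := by
  obtain ⟨C, hC1, -, hC, -⟩ := ham_const hH
  set ρ₀ : ℝ := min (1 / 4) (Real.sqrt α / 4) with hρ₀
  have hsq : 0 < Real.sqrt α := Real.sqrt_pos.2 hα
  have hρ₀0 : 0 < ρ₀ := lt_min (by norm_num) (by positivity)
  have hρ₀4 : ρ₀ ≤ 1 / 4 := min_le_left _ _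
  have hρ₀α : 4 * ρ₀ ^ 2 < α := by
    have h1 : ρ₀ ≤ Real.sqrt α / 4 := min_le_right _ _
    have h2 : ρ₀ ^ 2 ≤ (Real.sqrt α / 4) ^ 2 := pow_le_pow_left₀ hρ₀0.le h1 2
    have h3 : (Real.sqrt α / 4) ^ 2 = α / 16 := by
      rw [div_pow, Real.sq_sqrt hα.le]
      norm_num
    linarith
  have hbig := vol_big hK.cpt z₀ hρ₀0 (by linarith)
    (lt_of_lt_of_le ((ENNReal.ofReal_lt_ofReal_iff hα).2 hρ₀α) hv)
  obtain ⟨δ₀, hδ₀, hmain⟩ := sing_main (p5_p2 hH s) (by linarith : (0 : ℝ) < C) (hC s) hK hz h0 hρ₀0 hρ₀4 hbig 1 one_pos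
  set m : ℝ := min (min δ₀ ρ) (c - c₁) with hm
  have hm0 : 0 < m := lt_min (lt_min hδ₀ hρ) (by linarith)
  have hm1 : m ≤ δ₀ := (min_le_left _ _).trans (min_le_left _ _)
  have hm2 : m ≤ ρ := (min_le_left _ _).trans (min_le_right _ _)
  have hm3 : m ≤ c - c₁ := min_le_right _ _
  obtain ⟨K', hKK', cK', conK', hsub, hvol⟩ := hmain (m / 2) (by linarith) (by linarith)
  refine ⟨c - m / 2, s, K', by linarith, by linarith, by linarith, cK', conK', hsub, ?_⟩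
  have hmeas : MeasurableSet (K' ∩ Up K) := cK'.isClosed.measurableSet.inter (up_open hK.cpt.isClosed).measurableSet
  have hdisj : Disjoint (Up K)ᶜ (K' ∩ Up K) := by
    rw [Set.disjoint_left]
    intro w h1 h2
    exact h1 h2.2
  have hincl : (Up K)ᶜ ∪ (K' ∩ Up K) ⊆ (Up K')ᶜ := by
    refine Set.union_subset (Set.compl_subset_compl.2 (up_anti hKK')) ?_
    intro w hw hwU
    exact Set.disjoint_left.1 (up_disj K') hwU hw.1
  calc ENNReal.ofReal (α + (c - (c - m / 2))) = ENNReal.ofReal α + ENNReal.ofReal (1 * (m / 2)) := by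
        rw [← ENNReal.ofReal_add hα.le (by linarith)]
        congr 1
        ring
    _ ≤ volume (Up K)ᶜ + volume (K' ∩ Up K) := add_le_add hv hvol
    _ = volume ((Up K)ᶜ ∪ (K' ∩ Up K)) := (measure_union hdisj hmeas).symm
    _ ≤ volume (Up K')ᶜ := measure_mono hincl

/-- The numbers of the regular case. -/
theorem p5_num {T G : ℝ} (hT : 0 < T) (h : G = 0 → 1 < T) : ∃ e m : ℝ, 0 < e ∧ 0 ≤ m ∧ ∀ δ : ℝ, 0 < δ →
    ∃ σ : ℝ, |σ| = m * δ ∧ δ ≤ δ * T + σ * G - e * (|σ| + |δ|) := by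
  by_cases hG : G = 0
  · refine ⟨T - 1, 0, by linarith [h hG], le_rfl, fun δ hδ => ⟨0, by simp, ?_⟩⟩
    rw [abs_zero, abs_of_pos hδ]
    linarith
  · have hG0 : 0 < |G| := abs_pos.2 hG
    refine ⟨|G| / 2, 2 / |G| + 1, by positivity, by positivity, fun δ hδ => ?_⟩
    have hm : 0 < 2 / |G| + 1 := by positivity
    have hmG : (2 / |G| + 1) * |G| = 2 + |G| := by field_simp
    have key : ∀ σ : ℝ, |σ| = (2 / |G| + 1) * δ → σ * G = (2 / |G| + 1) * δ * |G| →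
        δ ≤ δ * T + σ * G - |G| / 2 * (|σ| + |δ|) := by
      intro σ h1 h2
      rw [h1, h2, abs_of_pos hδ]
      have e1 : (2 / |G| + 1) * δ * |G| = (2 + |G|) * δ := by
        rw [← hmG]
        ring
      have e2 : |G| / 2 * ((2 / |G| + 1) * δ + δ) = (2 + |G|) * δ / 2 + |G| / 2 * δ := by
        rw [← hmG]
        ring
      rw [e1, e2]
      have : 0 < δ * T := mul_pos hδ hT
      nlinarith
    rcases lt_or_gt_of_ne hG with h1 | h1
    · refine ⟨-((2 / |G| + 1) * δ), ?_, key _ ?_ ?_⟩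
      · rw [abs_neg, abs_of_pos (by positivity)]
      · rw [abs_neg, abs_of_pos (by positivity)]
      · rw [abs_of_neg h1]
        ring
    · refine ⟨(2 / |G| + 1) * δ, ?_, key _ ?_ ?_⟩
      · rw [abs_of_pos (by positivity)]
      · rw [abs_of_pos (by positivity)]
      · rw [abs_of_pos h1]

/-- The regular case. -/
theorem p5_reg {H : ℝ → ℝ × ℝ → ℝ} (hH : Ham H) {c₁ c s : ℝ} (hc : c₁ < c) {K : Set Cyl} (hK : IsComp K (SL (H s) c))
    {α : ℝ} (hα : 0 < α) (hv : ENNReal.ofReal α ≤ volume (Up K)ᶜ) (hv1 : volume (Up K)ᶜ ≤ 1) {ρ : ℝ} (hρ : 0 < ρ)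
    (hreg : ∀ z, pr z ∈ frontier (Up K) → ¬ Crit (H s) z) :
    ∃ (c' s' : ℝ) (K' : Set Cyl), c - ρ < c' ∧ c' < c ∧ c₁ < c' ∧ IsCompact K' ∧ IsConnected K' ∧ K' ⊆ SL (H s') c' ∧
      ENNReal.ofReal (α + (c - c')) ≤ volume (Up K')ᶜ := by
  obtain ⟨γ, T, k, hT, horb, hnc, hper, hmain⟩ := reg_main hH hK hreg
  obtain ⟨e, m, he, hm, hem⟩ := p5_num (G := ∫ t in (0 : ℝ)..T, dS H s (γ t)) hT (by
    intro hG
    by_contra hle
    rw [not_lt] at hle
    exact hnc (hH.orb s γ T (k, 0) 0 hT hle horb hper (by rw [hG]; simp)))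
  obtain ⟨τ, hτ, hmain⟩ := hmain e he
  set δ : ℝ := min (min ρ (c - c₁)) (τ / (m + 1)) / 2 with hδ
  have hq0 : 0 < min (min ρ (c - c₁)) (τ / (m + 1)) := lt_min (lt_min hρ (by linarith)) (by positivity)
  have hδ0 : 0 < δ := by
    rw [hδ]
    linarith
  have hδ1 : δ < ρ := by
    have := (min_le_left (min ρ (c - c₁)) (τ / (m + 1))).trans (min_le_left _ _)
    rw [hδ]
    linarith
  have hδ2 : δ < c - c₁ := by
    have := (min_le_left (min ρ (c - c₁)) (τ / (m + 1))).trans (min_le_right _ _)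
    rw [hδ]
    linarith
  have hδ3 : (m + 1) * δ < τ := by
    have h1 : δ < τ / (m + 1) := by
      have := min_le_right (min ρ (c - c₁)) (τ / (m + 1))
      rw [hδ]
      linarith
    rwa [lt_div_iff₀ (by linarith), mul_comm] at h1
  obtain ⟨σ, hσ, hgr⟩ := hem δ hδ0
  obtain ⟨K', D', cK', conK', hsub, hDm, hfr, ⟨M, -, hM⟩, fin1, fin2, habs⟩ := hmain σ δ (by rw [hσ]; nlinarith)
    (by rw [abs_of_pos hδ0]; nlinarith)
  refine ⟨c - δ, s + σ, K', by linarith, by linarith, by linarith, cK', conK', hsub, ?_⟩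
  -- `D' ⊆ (Up K')ᶜ`
  obtain ⟨MK, -, hMK⟩ := cpt_bd hK.cpt
  have hdis : Disjoint (Up K') D' := by
    refine up_of_front (M := max M MK) hfr (fun w hw hwD => ?_)
    have h1 : M ≤ |w.2| := ((le_max_left _ _).trans hw).trans (le_abs_self _)
    have h2 : w ∈ Up K := up_end (fun w hw => (abs_lt.1 (hMK w hw)).2) w ((le_max_right _ _).trans hw)
    exact (hM w h1).1 hwD h2
  have hD'sub : D' ⊆ (Up K')ᶜ := fun w hw hwU => Set.disjoint_left.1 hdis hwU hw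
  refine le_trans ?_ (measure_mono hD'sub)
  -- areas
  set D : Set Cyl := (Up K)ᶜ with hDd
  have hDmeas : MeasurableSet D := (up_open hK.cpt.isClosed).measurableSet.compl
  have hDfin : volume D < ⊤ := lt_of_le_of_lt hv1 ENNReal.one_lt_top
  have e1 : volume (D' ∩ D) + volume (D' \ D) = volume D' := measure_inter_add_sdiff D' hDmeas
  have e2 : volume (D ∩ D') + volume (D \ D') = volume D := measure_inter_add_sdiff D hDm
  have hI : volume (D' ∩ D) < ⊤ := lt_of_le_of_lt (measure_mono inter_subset_right) hDfin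
  have hD'fin : volume D' < ⊤ := by
    rw [← e1]
    exact ENNReal.add_lt_top.2 ⟨hI, fin1⟩
  have r1 : (volume (D' ∩ D)).toReal + (volume (D' \ D)).toReal = (volume D').toReal := by
    rw [← e1, ENNReal.toReal_add hI.ne fin1.ne]
  have r2 : (volume (D' ∩ D)).toReal + (volume (D \ D')).toReal = (volume D).toReal := by
    rw [← e2, Set.inter_comm D' D, ENNReal.toReal_add (by rw [Set.inter_comm]; exact hI.ne) fin2.ne]
  have r3 : α ≤ (volume D).toReal := (ENNReal.ofReal_le_iff_le_toReal hDfin.ne).1 hv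
  have h4 := (abs_le.1 habs).1
  rw [ENNReal.ofReal_le_iff_le_toReal hD'fin.ne]
  linarith

theorem step_one {H : ℝ → ℝ × ℝ → ℝ} (hH : Ham H) {c₁ c s : ℝ} (hn : NoPath H c₁) (hc : c₁ < c) {K : Set Cyl} (hK : IsCompact K)
    (cK : IsConnected K) (hKc : K ⊆ SL (H s) c) {α : ℝ} (hα : 0 < α) (hv : ENNReal.ofReal α ≤ volume (Up K)ᶜ) {ρ : ℝ} (hρ : 0 < ρ) :
    ∃ (c' s' : ℝ) (K' : Set Cyl), c - ρ < c' ∧ c' < c ∧ c₁ < c' ∧ IsCompact K' ∧ IsConnected K' ∧ K' ⊆ SL (H s') c' ∧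
      ENNReal.ofReal (α + (c - c')) ≤ volume (Up K')ᶜ := by
  obtain ⟨Kh, hsub, hKh⟩ := np_comp hH hn hc hK cK hKc
  have hv' : ENNReal.ofReal α ≤ volume (Up Kh)ᶜ := hv.trans (measure_mono (Set.compl_subset_compl.2 (up_anti hsub)))
  by_cases h : ∃ z₀, pr z₀ ∈ frontier (Up Kh) ∧ Crit (H s) z₀
  · obtain ⟨z₀, hz, h0⟩ := h
    exact p5_sing hH hc hKh hα hv' hρ hz h0
  · push Not at h
    exact p5_reg hH hc hKh hα hv' (np_vol hH hn hc hKh.cpt hKh.con hKh.sub) hρ h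

end H25S
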