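import Pool.Agent.Lib.H25S.P2
import Pool.Agent.Lib.H25S.P3
import Pool.Agent.Lib.H25S.LM1
import Pool.Agent.Lib.H25S.LM2
import Pool.Agent.Lib.H25S.LM4

/-!
# Chunk P6 (M)
LIMIT. Replace `s n` by its fractional part (`pers`, `H (s + m) = H s`) and `K n` by a vertical integral translate (`dsc_sh`, `up_sh`, `vol_sh`) which contains a point with second coordinate in `[0,1]`: by `np_height` (for the level `c₂`) `|w.2| ≤ R + 1` on all `K n` (`c₂ ≤ c n`, so `K n ⊆ SL (H (s n)) c₂`). Subsequences: `s n → s₀` (`[0,1]` compact), then `cont_lim`: `L`. `lim_lev` with `F s w = dsc (H s) w`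
(continuous in both variables: `dsc (H s) (pr z) = H s z` and `Prod.map id pr` is an open quotient map), `lim_vol` with `b n = v n` (`np_sep`).
-/

namespace H25S

open MeasureTheory H83D Set Filter Topology

theorem p6_fract {H : ℝ → ℝ × ℝ → ℝ} (hH : Ham H) (s : ℝ) : H (Int.fract s) = H s := by
  funext z
  have h1 : Function.Periodic (fun s => H s z) 1 := fun s => hH.pers s z
  have h2 := h1.int_mul ⌊s⌋ (Int.fract s)
  have h3 : Int.fract s + ⌊s⌋ * 1 = s := by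
    rw [mul_one]
    exact Int.fract_add_floor s
  have h4 : H (Int.fract s + ⌊s⌋ * 1) z = H (Int.fract s) z := h2
  rw [h3] at h4
  exact h4.symm

theorem p6_cont {H : ℝ → ℝ × ℝ → ℝ} (hH : Ham H) : Continuous fun p : ℝ × Cyl => dsc (H p.1) p.2 := by
  have ho : IsOpenMap (Prod.map id pr : ℝ × (ℝ × ℝ) → ℝ × Cyl) := IsOpenMap.id.prodMap pr_open
  have hc : Continuous (Prod.map id pr : ℝ × (ℝ × ℝ) → ℝ × Cyl) := continuous_id.prodMap pr_cont
  have hs : Function.Surjective (Prod.map id pr : ℝ × (ℝ × ℝ) → ℝ × Cyl) := by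
    rintro ⟨a, w⟩
    obtain ⟨z, rfl⟩ := pr_surj w
    exact ⟨(a, z), rfl⟩
  rw [(ho.isQuotientMap hc hs).continuous_iff]
  have e : (fun p : ℝ × Cyl => dsc (H p.1) p.2) ∘ (Prod.map id pr : ℝ × (ℝ × ℝ) → ℝ × Cyl) =
      fun p : ℝ × (ℝ × ℝ) => H p.1 p.2 := by
    funext p
    exact dsc_pr (hH.per p.1) p.2
  rw [e]
  exact hH.smooth.continuous

theorem p6_compl (j : ℝ) (S : Set Cyl) : (sh j '' S)ᶜ = sh j '' Sᶜ := by
  refine (image_compl_eq ?_).symm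
  refine ⟨fun a b h => ?_, fun w => ⟨sh (-j) w, ?_⟩⟩
  · have h1 : (sh j a).1 = (sh j b).1 := congrArg Prod.fst h
    have h2 : (sh j a).2 = (sh j b).2 := congrArg Prod.snd h
    exact Prod.ext h1 (add_right_cancel h2)
  · unfold sh
    simp

theorem np_lim {H : ℝ → ℝ × ℝ → ℝ} (hH : Ham H) {c₁ c₂ : ℝ} (hn : NoPath H c₁) (hc : c₁ < c₂) {s c v : ℕ → ℝ} {K : ℕ → Set Cyl}
    (hc2 : ∀ n, c₂ ≤ c n) (hK : ∀ n, IsCompact (K n)) (cK : ∀ n, IsConnected (K n)) (hKc : ∀ n, K n ⊆ SL (H (s n)) (c n))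
    (hv : ∀ n, ENNReal.ofReal (v n) ≤ volume (Up (K n))ᶜ) {c₀ v₀ : ℝ} (tc : Tendsto c atTop (𝓝 c₀)) (tv : Tendsto v atTop (𝓝 v₀)) :
    ∃ (s₀ : ℝ) (L : Set Cyl), IsCompact L ∧ IsConnected L ∧ L ⊆ SL (H s₀) c₀ ∧ ENNReal.ofReal v₀ ≤ volume (Up L)ᶜ := by
  obtain ⟨R, hR0, hR⟩ := np_height hH hn hc
  have hex : ∀ n, ∃ w, w ∈ K n := fun n => (cK n).nonempty
  choose w hw using hex
  obtain ⟨j, hj⟩ : ∃ j : ℕ → ℤ, ∀ n, j n = -⌊(w n).2⌋ := ⟨fun n => -⌊(w n).2⌋, fun n => rfl⟩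
  obtain ⟨K', hK'⟩ : ∃ K' : ℕ → Set Cyl, ∀ n, K' n = sh (j n) '' K n := ⟨fun n => sh (j n) '' K n, fun n => rfl⟩
  have k1 : ∀ n, IsCompact (K' n) := fun n => by
    rw [hK']
    exact (hK n).image (sh_cont _)
  have k2 : ∀ n, IsConnected (K' n) := fun n => by
    rw [hK']
    exact (cK n).image _ (sh_cont _).continuousOn
  have k3 : ∀ n, K' n ⊆ SL (H (Int.fract (s n))) (c n) := fun n => by
    rw [hK', p6_fract hH]
    rintro _ ⟨x, hx, rfl⟩
    show c n ≤ dsc (H (s n)) (sh (j n) x)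
    rw [dsc_sh (hH.per (s n))]
    exact hKc n hx
  have k4 : ∀ n, K' n ⊆ SL (H (Int.fract (s n))) c₂ := fun n x hx => (hc2 n).trans (k3 n hx)
  have k5 : ∀ n, ∀ x ∈ K' n, |x.2| ≤ R + 1 := fun n x hx => by
    have h1 : sh (j n) (w n) ∈ K' n := by
      rw [hK']
      exact mem_image_of_mem _ (hw n)
    have h2 : (sh (j n) (w n)).2 = (w n).2 + j n := rfl
    have h3 : (w n).2 + j n = Int.fract (w n).2 := by
      rw [hj, Int.cast_neg]
      exact (sub_eq_add_neg _ _).symm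
    have h4 := Int.fract_nonneg (w n).2
    have h5 := (Int.fract_lt_one (w n).2).le
    have h6 := hR _ (K' n) (k1 n) (k2 n) (k4 n) x hx _ h1
    have h7 := hR _ (K' n) (k1 n) (k2 n) (k4 n) _ h1 x hx
    rw [h2, h3] at h6 h7
    rw [abs_le]
    constructor
    · linarith
    · linarith
  have k6 : ∀ n, ENNReal.ofReal (v n) ≤ volume (Up (K' n))ᶜ := fun n => by
    rw [hK', up_sh, p6_compl, vol_sh]
    exact hv n
  obtain ⟨s₀, _, φ₁, hφ₁, hs₁⟩ := isCompact_Icc.tendsto_subseq (x := fun n => Int.fract (s n)) (s := Icc (0 : ℝ) 1)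
    fun n => ⟨Int.fract_nonneg _, (Int.fract_lt_one _).le⟩
  obtain ⟨φ₂, L, hφ₂, hL, cL, bL, uL, mL⟩ := cont_lim (K := fun n => K' (φ₁ n)) (M := R + 1) (fun n => k1 _) (fun n => k2 _)
    fun n => k5 _
  have hφ : StrictMono fun n => φ₁ (φ₂ n) := hφ₁.comp hφ₂
  refine ⟨s₀, L, hL, cL, fun x hx => ?_, ?_⟩
  · exact lim_lev (p6_cont hH) (hs₁.comp hφ₂.tendsto_atTop) (tc.comp hφ.tendsto_atTop)
      (K := fun n => K' (φ₁ (φ₂ n))) (F := fun s w => dsc (H s) w) (fun n y hy => k3 _ hy) (mL x hx)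
  · exact lim_vol (K := fun n => K' (φ₁ (φ₂ n))) (M := R + 1) (fun n => k1 _) hL (fun n => k5 _) bL uL
      (fun n => np_sep hH hn hc (k1 _) (k2 _) (k4 _)) (tv.comp hφ.tendsto_atTop) fun n => k6 _

end H25S
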