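import Pool.Agent.Lib.H25S.P5
import Pool.Agent.Lib.H25S.P6

/-!
# Chunk P7 (M)
Suppose `c₁ + 1 < H s z`. Choose `c₂ > c₁` and `0 < r < 1/2` with `c₀ := H s z - L r` (`L` of `ham_lip`) and `c₀ - c₂ ≥ 1`, `c₂ < c₀`. `K₀ = pr '' (z + [-r,r]^2)` (compact, connected) `⊆ SL (H s) c₀`, `volume (Up K₀)ᶜ ≥ volume K₀ = 4 r ^ 2 =: α` (`vol_pr`). `S = {c ∈ Icc c₂ c₀ | ∃ s K, IsCompact K ∧ IsConnected K ∧ K ⊆ SL (H s) c ∧ ofReal (α + (c₀ - c)) ≤ volume (Up K)ᶜ}`, `c₀ ∈ S`,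
`c* = sInf S`; `c* ∈ S` by `np_lim` (a sequence in `S` tending to `c*`). If `c₂ < c*`: `step_one` with `ρ = c* - c₂` gives `c' ∈ S`, `c' < c*`: contradiction. So `c* = c₂` and the volume is `≥ α + (c₀ - c₂) > 1`: contradiction to `np_vol`.
-/

namespace H25S

open MeasureTheory H83D Set Filter Topology

/-- the closed square around `z` -/
def p7_sq (z : ℝ × ℝ) (r : ℝ) : Set (ℝ × ℝ) := Icc (z.1 - r) (z.1 + r) ×ˢ Icc (z.2 - r) (z.2 + r)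

theorem p7_inj (z : ℝ × ℝ) {r : ℝ} (hr : r < 1 / 2) : InjOn pr (p7_sq z r) := by
  intro a ha b hb hab
  obtain ⟨k, hk⟩ := pr_eq.1 hab
  have h1 : b.1 = a.1 + k := by
    rw [hk]
    rfl
  have h2 : b.2 = a.2 + ((0 : ℤ) : ℝ) := by
    rw [hk]
    rfl
  rw [Int.cast_zero, add_zero] at h2
  have ha1 := ha.1
  have hb1 := hb.1
  rw [mem_Icc] at ha1 hb1
  have hk0 : k = 0 := by
    have a1 : (k : ℝ) < 1 := by linarith [ha1.1, hb1.2]
    have a2 : (-1 : ℝ) < k := by linarith [ha1.2, hb1.1]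
    have a3 : k < 1 := by exact_mod_cast a1
    have a4 : -1 < k := by exact_mod_cast a2
    omega
  rw [hk0, Int.cast_zero, add_zero] at h1
  exact Prod.ext h1.symm h2.symm

theorem p7_vol (z : ℝ × ℝ) {r : ℝ} (hr0 : 0 < r) (hr : r < 1 / 2) :
    ENNReal.ofReal (4 * r ^ 2) ≤ volume (pr '' p7_sq z r) := by
  have hm : MeasurableSet (p7_sq z r) := measurableSet_Icc.prod measurableSet_Icc
  rw [vol_pr hm (p7_inj z hr)]
  unfold p7_sq
  rw [Measure.volume_eq_prod, Measure.prod_prod, Real.volume_Icc, Real.volume_Icc,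
    ← ENNReal.ofReal_mul (by linarith)]
  refine ENNReal.ofReal_le_ofReal (le_of_eq ?_)
  ring

theorem p7_up {K : Set Cyl} : K ⊆ (Up K)ᶜ := by
  rintro w hw ⟨S, -, hd, hwS, -⟩
  exact Set.disjoint_left.1 hd hwS hw

/-- the initial continuum -/
theorem p7_start {H : ℝ → ℝ × ℝ → ℝ} (hH : Ham H) {L : ℝ} (hL1 : 1 ≤ L)
    (hL : ∀ s (z ζ : ℝ × ℝ), |H s (z + ζ) - H s z| ≤ L * ‖ζ‖) (s : ℝ) (z : ℝ × ℝ) {r : ℝ} (hr0 : 0 < r) (hr : r < 1 / 2) :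
    ∃ K : Set Cyl, IsCompact K ∧ IsConnected K ∧ K ⊆ SL (H s) (H s z - L * r) ∧
      ENNReal.ofReal (4 * r ^ 2) ≤ volume (Up K)ᶜ := by
  refine ⟨pr '' p7_sq z r, (isCompact_Icc.prod isCompact_Icc).image pr_cont, ?_, ?_, ?_⟩
  · exact ((isConnected_Icc (by linarith)).prod (isConnected_Icc (by linarith))).image pr pr_cont.continuousOn
  · rintro _ ⟨z', hz', rfl⟩
    show H s z - L * r ≤ dsc (H s) (pr z')
    rw [dsc_pr (hH.per s)]
    have h1 := hL s z (z' - z)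
    rw [add_sub_cancel] at h1
    have h2 : ‖z' - z‖ ≤ r := by
      rw [Prod.norm_def]
      have a1 := hz'.1
      have a2 := hz'.2
      rw [mem_Icc] at a1 a2
      refine max_le ?_ ?_
      · show |z'.1 - z.1| ≤ r
        rw [abs_le]
        constructor <;> linarith [a1.1, a1.2]
      · show |z'.2 - z.2| ≤ r
        rw [abs_le]
        constructor <;> linarith [a2.1, a2.2]
    have h3 : L * ‖z' - z‖ ≤ L * r := mul_le_mul_of_nonneg_left h2 (by linarith)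
    have h4 := (abs_le.1 (h1.trans h3)).1
    linarith
  · exact (p7_vol z hr0 hr).trans (measure_mono p7_up)

theorem part_one {H : ℝ → ℝ × ℝ → ℝ} (hH : Ham H) {c₁ : ℝ} (hn : NoPath H c₁) (s : ℝ) (z : ℝ × ℝ) : H s z ≤ c₁ + 1 := by
  by_contra hcon
  have hg : 0 < H s z - c₁ - 1 := by
    have := not_le.1 hcon
    linarith
  obtain ⟨L, hL1, -, hL⟩ := ham_lip hH
  have hL0 : 0 < L := by linarith
  obtain ⟨g, hgd⟩ : ∃ g : ℝ, g = H s z - c₁ - 1 := ⟨_, rfl⟩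
  rw [← hgd] at hg
  obtain ⟨r, hr⟩ : ∃ r : ℝ, r = min (1 / 4) (g / (4 * L)) := ⟨_, rfl⟩
  have hr0 : 0 < r := by
    rw [hr]
    exact lt_min (by norm_num) (div_pos hg (by linarith))
  have hr1 : r < 1 / 2 := by
    have : r ≤ 1 / 4 := by
      rw [hr]
      exact min_le_left _ _
    linarith
  have hr2 : L * r ≤ g / 4 := by
    have h1 : r ≤ g / (4 * L) := by
      rw [hr]
      exact min_le_right _ _
    have h2 := mul_le_mul_of_nonneg_left h1 hL0.le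
    have e : L * (g / (4 * L)) = g / 4 := by
      field_simp
    linarith
  obtain ⟨K₀, k1, k2, k3, k4⟩ := p7_start hH hL1 hL s z hr0 hr1
  obtain ⟨c₀, hc₀⟩ : ∃ c₀ : ℝ, c₀ = H s z - L * r := ⟨_, rfl⟩
  obtain ⟨c₂, hc₂⟩ : ∃ c₂ : ℝ, c₂ = c₁ + g / 4 := ⟨_, rfl⟩
  obtain ⟨α, hα⟩ : ∃ α : ℝ, α = 4 * r ^ 2 := ⟨_, rfl⟩
  rw [← hc₀] at k3
  rw [← hα] at k4
  have hα0 : 0 < α := by
    rw [hα]
    positivity
  have hc12 : c₁ < c₂ := by linarith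
  have hc20 : c₂ + 1 < c₀ := by linarith
  obtain ⟨S, hS⟩ : ∃ S : Set ℝ, S = {c | c₂ ≤ c ∧ c ≤ c₀ ∧ ∃ (s : ℝ) (K : Set Cyl), IsCompact K ∧ IsConnected K ∧
    K ⊆ SL (H s) c ∧ ENNReal.ofReal (α + (c₀ - c)) ≤ volume (Up K)ᶜ} := ⟨_, rfl⟩
  have memS : ∀ c, c ∈ S ↔ (c₂ ≤ c ∧ c ≤ c₀ ∧ ∃ (s : ℝ) (K : Set Cyl), IsCompact K ∧ IsConnected K ∧
    K ⊆ SL (H s) c ∧ ENNReal.ofReal (α + (c₀ - c)) ≤ volume (Up K)ᶜ) := fun c => by
    rw [hS]
    rfl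
  have h0 : c₀ ∈ S := by
    rw [memS]
    refine ⟨by linarith, le_rfl, s, K₀, k1, k2, k3, ?_⟩
    rw [sub_self, add_zero]
    exact k4
  have hb : BddBelow S := ⟨c₂, fun c hc => ((memS c).1 hc).1⟩
  obtain ⟨u, -, tu, uS⟩ := exists_seq_tendsto_sInf ⟨c₀, h0⟩ hb
  have h2 : c₂ ≤ sInf S := le_csInf ⟨c₀, h0⟩ fun c hc => ((memS c).1 hc).1
  have h3 : sInf S ≤ c₀ := csInf_le hb h0
  have hu := fun n => (memS _).1 (uS n)
  choose hu1 hu2 s' K' q1 q2 q3 q4 using hu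
  have tv : Tendsto (fun n => α + (c₀ - u n)) atTop (𝓝 (α + (c₀ - sInf S))) :=
    tendsto_const_nhds.add (tendsto_const_nhds.sub tu)
  obtain ⟨s₀, L', l1, l2, l3, l4⟩ := np_lim hH hn hc12 hu1 q1 q2 q3 q4 tu tv
  rcases h2.eq_or_lt with he | hlt
  · rw [← he] at l3 l4
    have h5 := l4.trans (np_vol hH hn hc12 l1 l2 l3)
    rw [ENNReal.ofReal_le_one] at h5
    linarith
  · obtain ⟨c', s'', K'', m1, m2, m3, m4, m5, m6, m7⟩ :=
      step_one hH hn (hc12.trans hlt) l1 l2 l3 (α := α + (c₀ - sInf S)) (by linarith) l4 (ρ := sInf S - c₂) (by linarith)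
    have h6 : c' ∈ S := by
      rw [memS]
      refine ⟨by linarith, by linarith, s'', K'', m4, m5, m6, ?_⟩
      have e : α + (c₀ - c') = α + (c₀ - sInf S) + (sInf S - c') := by ring
      rw [e]
      exact m7
    have h7 := csInf_le hb h6
    linarith

end H25S
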