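import Pool.Agent.Lib.H25S.Q1
import Pool.Agent.Lib.H25S.K2

/-!
# Chunk Q2 (M)
`L` of `ham_lip`. In `s`: `Ess (H s) c a → Ess (H s') (c - L |s - s'|) a` (`ess_level`). In `a`: let `K` be a witness of `Ess (H s) c a`, `r = |a' - a|`: `thk r K` (`thk_cpt`, `thk_con`, `thk_sub`, `sep_mono`, `thk_sl`) with `aU_thk`, `aL_thk`: `aL (thk r K) ≤ aL K - r ≤ a' ≤ aU K + r ≤ aU (thk r K)`: `Ess (H s) (c - L r) a'`. Take suprema.
-/

namespace H25S

open MeasureTheory H83D Set Filter Topology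

theorem q2_one {H : ℝ → ℝ × ℝ → ℝ} (hH : Ham H) {L : ℝ} (hL : 1 ≤ L)
    (h1 : ∀ s s' z, |H s z - H s' z| ≤ L * |s - s'|) (h2 : ∀ s (z ζ : ℝ × ℝ), |H s (z + ζ) - H s z| ≤ L * ‖ζ‖)
    (s s' a a' : ℝ) : hh H s a - L * (|s - s'| + |a - a'|) ≤ hh H s' a' := by
  refine le_of_forall_lt fun c hc => ?_
  have hc' : c + L * (|s - s'| + |a - a'|) < hh H s a := by linarith
  obtain ⟨c₁, hc₁, hc₂⟩ := exists_between hc'
  have he : Ess (H s) c₁ a := lt_hh hH hc₂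
  obtain ⟨K, k1, k2, k3, k4, k5, k6⟩ := he
  have hr : 0 ≤ |a - a'| := abs_nonneg _
  have hK' : IsCompact (thk |a - a'| K) := thk_cpt k1 _
  have he2 : Ess (H s) (c₁ - L * |a - a'|) a' := by
    refine ⟨thk |a - a'| K, hK', thk_con k2 hr, thk_sl (hH.per s) (h2 s) (by linarith) k3,
      sep_mono (thk_sub K hr) k4, ?_, ?_⟩
    · have h3 := aL_thk k1 k4 hr
      have h4 := le_abs_self (a - a')
      linarith
    · have h3 := aU_thk k1 k4 hr
      have h4 := neg_abs_le (a - a')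
      linarith
  have he3 : Ess (H s') (c₁ - L * |a - a'| - L * |s - s'|) a' := by
    refine ess_level (fun z => ?_) he2
    have := (abs_le.1 (h1 s s' z)).2
    linarith
  have h5 := le_hh hH he3
  have h6 : L * (|s - s'| + |a - a'|) = L * |s - s'| + L * |a - a'| := by ring
  linarith

theorem hh_lip {H : ℝ → ℝ × ℝ → ℝ} (hH : Ham H) : ∃ L : ℝ, 1 ≤ L ∧ ∀ s s' a a' : ℝ, |hh H s a - hh H s' a'| ≤ L * (|s - s'| + |a - a'|) := by
  obtain ⟨L, hL, h1, h2⟩ := ham_lip hH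
  refine ⟨L, hL, fun s s' a a' => ?_⟩
  have h3 := q2_one hH hL h1 h2 s s' a a'
  have h4 := q2_one hH hL h1 h2 s' s a' a
  rw [abs_sub_comm s' s, abs_sub_comm a' a] at h4
  rw [abs_le]
  constructor <;> linarith

theorem hh_cont {H : ℝ → ℝ × ℝ → ℝ} (hH : Ham H) : Continuous fun p : ℝ × ℝ => hh H p.1 p.2 := by
  obtain ⟨L, hL, h⟩ := hh_lip hH
  rw [continuous_iff_continuousAt]
  intro p
  have h0 : Tendsto (fun q : ℝ × ℝ => L * (|q.1 - p.1| + |q.2 - p.2|)) (𝓝 p) (𝓝 0) := by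
    have hc : Continuous (fun q : ℝ × ℝ => L * (|q.1 - p.1| + |q.2 - p.2|)) := by fun_prop
    have := hc.tendsto p
    simpa using this
  rw [ContinuousAt, tendsto_iff_dist_tendsto_zero]
  refine squeeze_zero (fun _ => dist_nonneg) (fun q => ?_) h0
  rw [Real.dist_eq]
  exact h q.1 p.1 q.2 p.2

end H25S
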