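import Pool.Agent.Lib.H25S.Defs

/-!
# Chunk Q6A (S)
`v = (p, q) ≠ 0`, `w = (ξ₁ + p, ξ₂ + q)`. `w ≠ 0` (`l = 0`). Let `|v|`, `|w|` be the Euclidean lengths and `(x, y) = v / |v| + w / |w|`. `v . (x, y) = |v| + v.w / |w| ≥ 0` with equality only if `v.w = - |v| |w|`, i.e. `w = - μ v` with `μ = |w| / |v| > 0` (Cauchy-Schwarz equality: `(|w| v + |v| w)^2 = 0`), excluded by `l = μ`. Similarly for `w`.
-/

namespace H25S

open MeasureTheory H83D Set Filter Topology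

theorem dir_ex {ξ₁ ξ₂ p q : ℝ} (hv : p ≠ 0 ∨ q ≠ 0) (hno : ∀ l : ℝ, 0 ≤ l → ¬ (ξ₁ = -(1 + l) * p ∧ ξ₂ = -(1 + l) * q)) :
    ∃ x y : ℝ, 0 < p * x + q * y ∧ 0 < (ξ₁ + p) * x + (ξ₂ + q) * y := by
  obtain ⟨r, hr⟩ : ∃ r : ℝ, r = ξ₁ + p := ⟨_, rfl⟩
  obtain ⟨t, ht⟩ : ∃ t : ℝ, t = ξ₂ + q := ⟨_, rfl⟩
  rw [← hr, ← ht]
  have ha0 : 0 < p ^ 2 + q ^ 2 := by
    rcases hv with h | h
    · have := pow_pos (abs_pos.2 h) 2
      rw [sq_abs] at this
      nlinarith [sq_nonneg q]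
    · have := pow_pos (abs_pos.2 h) 2
      rw [sq_abs] at this
      nlinarith [sq_nonneg p]
  obtain ⟨a, ha⟩ : ∃ a : ℝ, a = Real.sqrt (p ^ 2 + q ^ 2) := ⟨_, rfl⟩
  obtain ⟨b, hb⟩ : ∃ b : ℝ, b = Real.sqrt (r ^ 2 + t ^ 2) := ⟨_, rfl⟩
  have a0 : 0 < a := by
    rw [ha]
    exact Real.sqrt_pos.2 ha0
  have a2 : a ^ 2 = p ^ 2 + q ^ 2 := by
    rw [ha]
    exact Real.sq_sqrt ha0.le
  have b0 : 0 ≤ b := by
    rw [hb]
    exact Real.sqrt_nonneg _
  have b2 : b ^ 2 = r ^ 2 + t ^ 2 := by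
    rw [hb]
    exact Real.sq_sqrt (by positivity)
  have key : 0 < a * b + (p * r + q * t) := by
    by_contra hc
    rw [not_lt] at hc
    have h1 : (a * b) ^ 2 ≤ (p * r + q * t) ^ 2 := by
      have h2 : 0 ≤ a * b := mul_nonneg a0.le b0
      nlinarith
    have h3 : (a * b) ^ 2 = (p ^ 2 + q ^ 2) * (r ^ 2 + t ^ 2) := by
      rw [mul_pow, a2, b2]
    have h4 : (p * t - q * r) ^ 2 ≤ 0 := by nlinarith
    have h5 : p * t - q * r = 0 := pow_eq_zero_iff (two_ne_zero) |>.1 (le_antisymm h4 (sq_nonneg _))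
    have h6 : p * r + q * t ≤ 0 := by
      have h2 : 0 ≤ a * b := mul_nonneg a0.le b0
      linarith
    refine hno (-(p * r + q * t) / (p ^ 2 + q ^ 2)) (div_nonneg (by linarith) ha0.le) ⟨?_, ?_⟩
    · have h7 : ξ₁ = r - p := by linarith
      rw [h7]
      field_simp
      linear_combination (-q) * h5
    · have h7 : ξ₂ = t - q := by linarith
      rw [h7]
      field_simp
      linear_combination p * h5
  have bpos : 0 < b := by
    rcases b0.lt_or_eq with h | h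
    · exact h
    · exfalso
      have h1 : r ^ 2 + t ^ 2 = 0 := by
        rw [← b2, ← h]
        ring
      have h2 : r = 0 := by nlinarith [sq_nonneg r, sq_nonneg t]
      have h3 : t = 0 := by nlinarith [sq_nonneg r, sq_nonneg t]
      rw [← h, h2, h3] at key
      simp at key
  refine ⟨b * p + a * r, b * q + a * t, ?_, ?_⟩
  · have h1 : p * (b * p + a * r) + q * (b * q + a * t) = a * (a * b + (p * r + q * t)) := by
      linear_combination (-b) * a2
    rw [h1]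
    positivity
  · have h1 : r * (b * p + a * r) + t * (b * q + a * t) = b * (a * b + (p * r + q * t)) := by
      linear_combination (-a) * b2
    rw [h1]
    positivity

end H25S
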