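import Pool.Agent.Lib.H25S.R14
import Pool.Agent.Lib.H25S.T13
import Pool.Agent.Lib.H25S.V4
import Pool.Agent.Lib.H25S.T11
import Pool.Agent.Lib.H25S.Q6A

/-!
# Chunk Q6B (M)
`reg_main`: `γ, T, k`; `G = ∫_0^T dS`. `ξ₁ = G / T`, `ξ₂ = - 1 / T`. If `ξ₁ = -(1+l) p`, `ξ₂ = -(1+l) q`, `l ≥ 0`: `q T = 1/(1+l) ∈ (0, 1]`, `q G = q T ξ₁ = -p`; the orbit has the period `q T` with the vector `iv (q k, 0)` (`q > 0`: iterate), `∫_0^(qT) dS = q G = -p` (`Function.Periodic.intervalIntegral_add_eq`, induction on the natural number `q`), so `hH.orb` gives `Crit (H s) (γ 0)`: contradiction. `dir_ex`: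
`x, y`, `μ₁ = p x + q y > 0`, `μ₂ = (ξ₁ + p) x + (ξ₂ + q) y > 0`. `E = |x| + |y - x G| / T`, `e = min μ₁ μ₂ / (2 q (E + 1))`, `τ` of `reg_main`. For small `t > 0`: `σ = t x`, `δ = t (y - x G) / T`; `K', D'`. `D'` is `Low` (ends of `(Up K)ᶜ`, `sep_low`), `ar D' = aU K + δ T + σ G + err = a + t y + err` (`ar_diff`), `|err| ≤ e t E`. `α = ar D' - a`.
`Disjoint (Up K') D'`, `Dn K' ⊆ D'` (`up_of_front`, `dn_of_front`), so `Sep K'`, `aL K' ≤ ar D' ≤ aU K'` (`ar_mono`): `Ess (H (s+σ)) (c - δ) (a + α)`. `c' = c - δ = c + t (ξ₁ x + ξ₂ y)`. `p σ + q α = t μ₁ + q err > 0`, `c' - (c - (p σ + q α)) = t μ₂ + q err > 0`. `|σ|, |α| < ρ` for small `t`.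
-/

namespace H25S

open MeasureTheory H83D Set Filter Topology

theorem q6b_per {γ : ℝ → ℝ × ℝ} {T : ℝ} {k : ℤ} (hper : ∀ t, γ (t + T) = γ t + iv (k, 0)) (n : ℕ) :
    ∀ t, γ (t + n * T) = γ t + iv (n * k, 0) := by
  induction n with
  | zero =>
    intro t
    have h : iv (((0 : ℕ) : ℤ) * k, 0) = 0 := by
      unfold iv
      apply Prod.ext
      · simp
      · simp
    rw [h, Nat.cast_zero, zero_mul, add_zero, add_zero]
  | succ n ih =>
    intro t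
    have h1 : t + ((n + 1 : ℕ) : ℝ) * T = (t + n * T) + T := by
      push_cast
      ring
    rw [h1, hper, ih, add_assoc]
    congr 1
    unfold iv
    apply Prod.ext
    · show ((((n : ℤ) * k : ℤ) : ℝ)) + (k : ℝ) = ((((n + 1 : ℕ) : ℤ) * k : ℤ) : ℝ)
      push_cast
      ring
    · show (((0 : ℤ) : ℝ)) + ((0 : ℤ) : ℝ) = ((0 : ℤ) : ℝ)
      simp

theorem q6b_int {g : ℝ → ℝ} {T : ℝ} (cg : Continuous g) (pg : ∀ t, g (t + T) = g t) (n : ℤ) :
    ∫ t in (0 : ℝ)..(n * T), g t = n * ∫ t in (0 : ℝ)..T, g t := by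
  have hp : Function.Periodic g T := pg
  have h := hp.intervalIntegral_add_zsmul_eq n 0 (fun t₁ t₂ => cg.intervalIntegrable t₁ t₂)
  rw [zero_add, zero_add, zsmul_eq_mul, zsmul_eq_mul] at h
  exact h

theorem q6b_no {H : ℝ → ℝ × ℝ → ℝ} (hH : Ham H) {p q : ℤ} (hq : 0 < q) {s : ℝ} {γ : ℝ → ℝ × ℝ} {T : ℝ} {k : ℤ}
    (hT : 0 < T) (hO : Orb (H s) γ) (hc : ¬ Crit (H s) (γ 0)) (hper : ∀ t, γ (t + T) = γ t + iv (k, 0)) :
    ∀ l : ℝ, 0 ≤ l → ¬ ((∫ t in (0 : ℝ)..T, dS H s (γ t)) / T = -(1 + l) * p ∧ -1 / T = -(1 + l) * q) := by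
  rintro l hl ⟨h1, h2⟩
  apply hc
  have hq' : (0 : ℝ) < q := by exact_mod_cast hq
  have h3 : (1 + l) * (q * T) = 1 := by
    have h := congrArg (fun x => x * T) h2
    have h4 : -1 / T * T = -1 := by field_simp
    have h5 : -1 / T * T = -(1 + l) * q * T := h
    rw [h4] at h5
    linarith
  have h4 : (q : ℝ) * T ≤ 1 := by
    have h5 : 0 < (q : ℝ) * T := mul_pos hq' hT
    nlinarith
  have h5 : (q : ℝ) * ∫ t in (0 : ℝ)..T, dS H s (γ t) = -p := by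
    have h := congrArg (fun x => x * T) h1
    have h6 : (∫ t in (0 : ℝ)..T, dS H s (γ t)) / T * T = ∫ t in (0 : ℝ)..T, dS H s (γ t) := by field_simp
    have h7 : (∫ t in (0 : ℝ)..T, dS H s (γ t)) / T * T = -(1 + l) * p * T := h
    rw [h6] at h7
    rw [h7]
    have h8 : (q : ℝ) * (-(1 + l) * p * T) = -p * ((1 + l) * (q * T)) := by ring
    rw [h8, h3, mul_one]
  have hds := ham_ds hH
  have cg : Continuous fun t => dS H s (γ t) := hds.1.comp (continuous_const.prodMk (orb_cont hO))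
  have pg : ∀ t, dS H s (γ (t + T)) = dS H s (γ t) := by
    intro t
    rw [hper, hds.2.2.2.1]
  have h6 := q6b_int cg pg q
  obtain ⟨n, hn⟩ : ∃ n : ℕ, (n : ℤ) = q := ⟨q.toNat, Int.toNat_of_nonneg hq.le⟩
  refine hH.orb s γ (q * T) (q * k, 0) (-p) (mul_pos hq' hT) h4 hO ?_ ?_
  · intro t
    have h7 := q6b_per hper n t
    have h8 : ((n : ℕ) : ℝ) = (q : ℝ) := by
      rw [← hn]
      simp
    rw [h8, hn] at h7
    exact h7
  · rw [h6, h5]
    push_cast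
    ring

theorem q6b_low {D D' : Set Cyl} (hD : Low D) (h : ∃ M : ℝ, 0 < M ∧ ∀ w : Cyl, M ≤ |w.2| → (w ∈ D' ↔ w ∈ D)) : Low D' := by
  obtain ⟨M, h1, h2⟩ := hD
  obtain ⟨M', hM', h'⟩ := h
  refine ⟨max M M', fun w hw => ?_, fun w hw => ?_⟩
  · have a1 := le_max_left M M'
    have a2 := le_max_right M M'
    have a3 : M' ≤ |w.2| := by
      have := neg_le_abs w.2
      linarith
    exact (h' w a3).2 (h1 w (by linarith))
  · have a1 := le_max_left M M'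
    have a2 := le_max_right M M'
    have a3 : M' ≤ |w.2| := by
      have := le_abs_self w.2
      linarith
    exact fun hw' => h2 w (by linarith) ((h' w a3).1 hw')

theorem q6b_ess {f : ℝ × ℝ → ℝ} {c : ℝ} {K' D' : Set Cyl} (cK : IsCompact K') (nK : IsConnected K') (sK : K' ⊆ SL f c)
    (mD : MeasurableSet D') (hf : frontier D' ⊆ K') (hL : Low D') : Ess f c (ar D') := by
  obtain ⟨M, h1, h2⟩ := hL
  have hU : Disjoint (Up K') D' := up_of_front hf h2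
  have hD : Dn K' ⊆ D' := dn_of_front (M := -M) hf h1
  have hs : Sep K' := hU.mono_right hD
  have hl := sep_low cK hs
  have hL : Low D' := ⟨M, h1, h2⟩
  refine ⟨K', cK, nK, sK, hs, ?_, ?_⟩
  · exact ar_mono hl.2 hL (dn_open cK.isClosed).measurableSet mD hD
  · refine ar_mono hL hl.1 mD (up_open cK.isClosed).measurableSet.compl ?_
    intro w hw hwU
    exact Set.disjoint_left.1 hU hwU hw

theorem step_reg {H : ℝ → ℝ × ℝ → ℝ} (hH : Ham H) {p q : ℤ} (hq : 0 < q) {s c a : ℝ} {K : Set Cyl} (hK : IsComp K (SL (H s) c))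
    (hs : Sep K) (ha : a = aU K) (hreg : ∀ z, pr z ∈ frontier (Up K) → ¬ Crit (H s) z) {ρ : ℝ} (hρ : 0 < ρ) :
    ∃ σ α c' : ℝ, |σ| < ρ ∧ |α| < ρ ∧ 0 < p * σ + q * α ∧ c - (p * σ + q * α) < c' ∧ Ess (H (s + σ)) c' (a + α) := by
  obtain ⟨γ, T, k, Tp, hO, hcr, hper, hmain⟩ := reg_main hH hK hreg
  obtain ⟨G, hG⟩ : ∃ G, G = ∫ t in (0 : ℝ)..T, dS H s (γ t) := ⟨_, rfl⟩
  have hno := q6b_no hH (p := p) hq Tp hO hcr hper
  rw [← hG] at hno hmain
  have hq' : (0 : ℝ) < q := by exact_mod_cast hq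
  obtain ⟨x, y, hμ₁, hμ₂⟩ := dir_ex (ξ₁ := G / T) (ξ₂ := -1 / T) (p := p) (q := q) (Or.inr hq'.ne') hno
  obtain ⟨μ₁, e1⟩ : ∃ μ₁, μ₁ = p * x + q * y := ⟨_, rfl⟩
  obtain ⟨μ₂, e2⟩ : ∃ μ₂, μ₂ = (G / T + p) * x + (-1 / T + q) * y := ⟨_, rfl⟩
  rw [← e1] at hμ₁
  rw [← e2] at hμ₂
  obtain ⟨E, hE⟩ : ∃ E, E = |x| + |y - x * G| / T := ⟨_, rfl⟩
  have E0 : 0 ≤ E := by rw [hE]; positivity
  obtain ⟨e, he⟩ : ∃ e, e = min μ₁ μ₂ / (2 * q * (E + 1)) := ⟨_, rfl⟩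
  have ep : 0 < e := by
    rw [he]
    have : 0 < min μ₁ μ₂ := lt_min hμ₁ hμ₂
    positivity
  obtain ⟨τ, hτ, hm⟩ := hmain e ep
  obtain ⟨B, hB⟩ : ∃ B, B = |x| + |y| + e * E + E + 1 := ⟨_, rfl⟩
  have Bp : 0 < B := by rw [hB]; positivity
  obtain ⟨t, ht⟩ : ∃ t, t = min τ ρ / (2 * B) := ⟨_, rfl⟩
  have tp : 0 < t := by
    rw [ht]
    have : 0 < min τ ρ := lt_min hτ hρ
    positivity
  have tB : t * B < min τ ρ := by
    have h1 : t * B = min τ ρ / 2 := by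
      rw [ht]
      field_simp
    rw [h1]
    have : 0 < min τ ρ := lt_min hτ hρ
    linarith
  have tBτ : t * B < τ := tB.trans_le (min_le_left _ _)
  have tBρ : t * B < ρ := tB.trans_le (min_le_right _ _)
  obtain ⟨σ, hσ⟩ : ∃ σ, σ = t * x := ⟨_, rfl⟩
  obtain ⟨δ, hδ⟩ : ∃ δ, δ = t * ((y - x * G) / T) := ⟨_, rfl⟩
  have aσ : |σ| = t * |x| := by rw [hσ, abs_mul, abs_of_pos tp]
  have aδ : |δ| = t * (|y - x * G| / T) := by rw [hδ, abs_mul, abs_of_pos tp, abs_div, abs_of_pos Tp]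
  have aE : |σ| + |δ| = t * E := by rw [aσ, aδ, hE]; ring
  have tx0 : 0 ≤ t * |x| := by positivity
  have ty0 : 0 ≤ t * |y| := by positivity
  have te0 : 0 ≤ t * (e * E) := by positivity
  have tE0 : 0 ≤ t * E := by positivity
  have tBe : t * B = t * |x| + t * |y| + t * (e * E) + t * E + t := by rw [hB]; ring
  have hστ : |σ| < τ := by
    have := abs_nonneg δ
    linarith
  have hδτ : |δ| < τ := by
    have := abs_nonneg σ
    linarith
  obtain ⟨K', D', cK', nK', sK', mD', fD', eD', v1, v2, herr⟩ := hm σ δ hστ hδτ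
  have hl := sep_low hK.cpt hs
  have mU : MeasurableSet (Up K)ᶜ := (up_open hK.cpt.isClosed).measurableSet.compl
  have hL : Low D' := q6b_low hl.1 eD'
  have har := ar_diff hl.1 hL mU mD'
  have haU : ar (Up K)ᶜ = a := ha.symm
  rw [haU] at har
  have hsum : δ * T + σ * G = t * y := by
    rw [hσ, hδ]
    field_simp
    ring
  rw [hsum, aE] at herr
  obtain ⟨r, hr⟩ : ∃ r, r = ar D' - a - t * y := ⟨_, rfl⟩
  have hr' : |r| ≤ e * (t * E) := by
    have h1 : r = (volume (D' \ (Up K)ᶜ)).toReal - (volume ((Up K)ᶜ \ D')).toReal - t * y := by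
      rw [hr, har]
      ring
    rw [h1]
    exact herr
  have hα : ar D' - a = t * y + r := by rw [hr]; ring
  have hr1 := (abs_le.1 hr').1
  have hr2 := (abs_le.1 hr').2
  have heE : q * (e * (t * E)) < t * min μ₁ μ₂ := by
    have hmin : 0 < min μ₁ μ₂ := lt_min hμ₁ hμ₂
    have h1 : q * (e * (t * E)) = t * (min μ₁ μ₂ * (E / (2 * (E + 1)))) := by
      rw [he]
      field_simp
    rw [h1]
    refine mul_lt_mul_of_pos_left ?_ tp
    have h2 : E / (2 * (E + 1)) < 1 := by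
      rw [div_lt_one (by positivity)]
      linarith
    calc min μ₁ μ₂ * (E / (2 * (E + 1))) < min μ₁ μ₂ * 1 := mul_lt_mul_of_pos_left h2 hmin
      _ = min μ₁ μ₂ := mul_one _
  have hm1 : t * min μ₁ μ₂ ≤ t * μ₁ := mul_le_mul_of_nonneg_left (min_le_left _ _) tp.le
  have hm2 : t * min μ₁ μ₂ ≤ t * μ₂ := mul_le_mul_of_nonneg_left (min_le_right _ _) tp.le
  have hqr : -(q * (e * (t * E))) ≤ q * r := by
    have := mul_le_mul_of_nonneg_left hr1 hq'.le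
    linarith
  have k1 : p * σ + q * (ar D' - a) = t * μ₁ + q * r := by
    rw [hα, hσ, e1]
    ring
  have k2 : p * σ + q * (ar D' - a) - δ = t * μ₂ + q * r := by
    rw [k1, e1, e2, hδ]
    field_simp
    ring
  refine ⟨σ, ar D' - a, c - δ, ?_, ?_, ?_, ?_, ?_⟩
  · linarith
  · rw [hα]
    have h1 : |t * y + r| ≤ |t * y| + |r| := abs_add_le _ _
    have h2 : |t * y| = t * |y| := by rw [abs_mul, abs_of_pos tp]
    have h3 : e * (t * E) = t * (e * E) := by ring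
    linarith
  · rw [k1]
    linarith
  · linarith
  · have h1 : a + (ar D' - a) = ar D' := by ring
    rw [h1]
    exact q6b_ess cK' nK' sK' mD' fD' hL

end H25S
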