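import Pool.Agent.Lib.H25S.Defs2
import Pool.Agent.Lib.H25S.T5

/-!
# Chunk S6 (S)
The vertical line `{w | w.1 = x}`, `x = (z₀.1 + 1/2 : AddCircle 1)`, is connected and meets `Up K` and `Dn K` (ends); if it did not meet `K` it would be in both (`up_max`, `dn_max`), contradiction to `Sep K`. So there is `w ∈ K` with `w.1 = x`, and `pr z = w` gives `z.1 = z₀.1 + 1/2 + k`, `(z.1 - z₀.1)^2 ≥ 1/4 > ρ^2`.
-/

namespace H25S

open MeasureTheory H83D Set Filter Topology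

theorem sep_big {K : Set Cyl} (hK : IsCompact K) (hs : Sep K) (z₀ : ℝ × ℝ) {ρ : ℝ} (hρ : 0 < ρ) (hρ' : ρ < 1 / 2) :
    ∃ w ∈ K, ∀ z, pr z = w → ρ ^ 2 < d2q z z₀ := by
  obtain ⟨M, -, hM⟩ := cpt_bd hK
  obtain ⟨x, hx⟩ : ∃ x : AddCircle (1 : ℝ), x = ((z₀.1 + 1 / 2 : ℝ) : AddCircle (1 : ℝ)) := ⟨_, rfl⟩
  have hw : ∃ w ∈ K, w.1 = x := by
    by_contra hc
    push Not at hc
    have hpre : IsPreconnected (Set.range fun t : ℝ => ((x, t) : Cyl)) :=
      isPreconnected_range (continuous_const.prodMk continuous_id)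
    have hdis : Disjoint (Set.range fun t : ℝ => ((x, t) : Cyl)) K := by
      rw [Set.disjoint_left]
      rintro w ⟨t, rfl⟩ hw
      exact hc _ hw rfl
    have h1 : ((x, M) : Cyl) ∈ Up K :=
      up_end (M := M) (fun w hw => (le_abs_self _).trans_lt (hM w hw)) _ le_rfl
    have h2 : ((x, -M) : Cyl) ∈ Dn K :=
      dn_end (M := -M) (fun w hw => (abs_lt.mp (hM w hw)).1) _ le_rfl
    have h3 := up_max hpre hdis ⟨_, ⟨M, rfl⟩, h1⟩
    exact Set.disjoint_left.mp hs (h3 ⟨-M, rfl⟩) h2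
  obtain ⟨w, hwK, hw1⟩ := hw
  refine ⟨w, hwK, fun z hz => ?_⟩
  have h1 : pr z = pr (z₀.1 + 1 / 2, w.2) := by
    rw [hz]
    ext
    · rw [hw1, hx]
      rfl
    · rfl
  obtain ⟨k, hk⟩ := pr_eq.mp h1
  have h2 : z₀.1 + 1 / 2 = z.1 + k := by
    have := congrArg Prod.fst hk
    simpa [iv] using this
  have h3 : (0 : ℝ) ≤ (k : ℝ) ^ 2 - k := by
    rcases le_or_gt k 0 with h | h
    · have h4 : (k : ℝ) ≤ 0 := by exact_mod_cast h
      nlinarith
    · have h4 : (1 : ℝ) ≤ (k : ℝ) := by exact_mod_cast h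
      nlinarith
  have h5 : z.1 - z₀.1 = 1 / 2 - k := by linarith
  unfold d2q
  rw [h5]
  nlinarith [sq_nonneg (z.2 - z₀.2)]

end H25S
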