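import Pool.Agent.Lib.H25S.S5
import Pool.Agent.Lib.H25S.S6
import Pool.Agent.Lib.H25S.A1
import Pool.Agent.Lib.H25S.O1

/-!
# Chunk Q6C (M)
`sep_big` with `ρ₀ = 1/4`, `sing_main` with `A = 2` (`C` of `ham_const`): for small `δ > 0` (`2 δ < ρ`) `K' ⊇ K`, compact connected, `⊆ SL (H s) (c - δ)`, `2 δ ≤ volume (K' ∩ Up K)`. `(Up K')ᶜ ⊇ (Up K)ᶜ` and `⊇ K'`, so `(Up K')ᶜ \ (Up K)ᶜ ⊇ K' ∩ Up K`; `ar_diff` (`sep_low`, `low_diff`): `aU K' ≥ aU K + 2 δ`. `aL K' ≤ aL K ≤ a`. `α = 2 δ`, `c' = c - δ > c - q α` (`q ≥ 1`).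
-/

namespace H25S

open MeasureTheory H83D Set Filter Topology

theorem step_sing {H : ℝ → ℝ × ℝ → ℝ} (hH : Ham H) {q : ℤ} (hq : 0 < q) {s c a : ℝ} {K : Set Cyl} (hK : IsComp K (SL (H s) c))
    (hs : Sep K) (ha : a = aU K) (haL : aL K ≤ a) {z₀ : ℝ × ℝ} (hz : pr z₀ ∈ frontier (Up K)) (h0 : Crit (H s) z₀) {ρ : ℝ} (hρ : 0 < ρ) :
    ∃ α c' : ℝ, 0 < α ∧ α < ρ ∧ c - q * α < c' ∧ Ess (H s) c' (a + α) := by
  obtain ⟨C, hC1, hC2, hC3, _⟩ := ham_const hH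
  have hC0 : 0 < C := by linarith
  have hbig := sep_big hK.cpt hs z₀ (ρ := 1 / 4) (by norm_num) (by norm_num)
  obtain ⟨δ₀, hδ₀, hmain⟩ := sing_main (ham_p2 hH s) hC0 (fun z z' => hC3 s z z') hK hz h0
    (ρ₀ := 1 / 4) (by norm_num) le_rfl hbig 2 (by norm_num)
  obtain ⟨δ, hδ, h1, h2⟩ : ∃ δ : ℝ, 0 < δ ∧ δ < δ₀ ∧ 2 * δ < ρ := by
    refine ⟨min (δ₀ / 2) (ρ / 4), lt_min (by linarith) (by linarith), ?_, ?_⟩
    · have h3 := min_le_left (δ₀ / 2) (ρ / 4)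
      linarith
    · have h3 := min_le_right (δ₀ / 2) (ρ / 4)
      linarith
  obtain ⟨K', hKK', hcpt, hcon, hsub, hvol⟩ := hmain δ hδ h1
  have hsep : Sep K' := sep_mono hKK' hs
  have hq1 : (1 : ℝ) ≤ (q : ℝ) := by exact_mod_cast hq
  refine ⟨2 * δ, c - δ, by linarith, h2, by nlinarith, K', hcpt, hcon, hsub, hsep, ?_, ?_⟩
  · have h3 := aL_mono hK.cpt hcpt hs hKK'
    linarith
  · have hlow : Low (Up K)ᶜ := (sep_low hK.cpt hs).1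
    have hlow' : Low (Up K')ᶜ := (sep_low hcpt hsep).1
    have hd := ar_diff hlow hlow' (o1_mU hK.cpt) (o1_mU hcpt)
    have he : (Up K)ᶜ \ (Up K')ᶜ = ∅ :=
      sdiff_eq_empty.2 (compl_subset_compl.2 (up_anti hKK'))
    rw [he, measure_empty, ENNReal.toReal_zero, sub_zero] at hd
    have hin : K' ∩ Up K ⊆ (Up K')ᶜ \ (Up K)ᶜ := by
      rintro w ⟨hw1, hw2⟩
      refine ⟨fun h => Set.disjoint_left.1 (up_disj K') h hw1, fun h => h hw2⟩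
    have hv : ENNReal.ofReal (2 * δ) ≤ volume ((Up K')ᶜ \ (Up K)ᶜ) := hvol.trans (measure_mono hin)
    have hfin : volume ((Up K')ᶜ \ (Up K)ᶜ) ≠ ⊤ := (low_diff hlow hlow').ne
    have hv2 : 2 * δ ≤ (volume ((Up K')ᶜ \ (Up K)ᶜ)).toReal :=
      (ENNReal.ofReal_le_iff_le_toReal hfin).1 hv
    have ha2 : aU K = ar (Up K)ᶜ := rfl
    have ha3 : aU K' = ar (Up K')ᶜ := rfl
    rw [ha3, hd, ← ha2, ha]
    linarith

end H25S
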