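import Pool.Agent.Lib.H25S.Q1
import Pool.Agent.Lib.H25S.Q3
import Pool.Agent.Lib.H25S.Q5
import Pool.Agent.Lib.H25S.Q6B
import Pool.Agent.Lib.H25S.Q6C

/-!
# Chunk Q6 (M)
`c = hh H s a`. CASE A: `Dbl (H s) c''` for all `c'' < c`: `dbl_ess` gives `Ess (H s) c'' a'` for all `c'' < c`, `a'`, so `c ≤ hh H s a'`: `σ = 0`, `α = ρ/2`. CASE B: `¬ Dbl (H s) c''`, `c'' < c`: `ess_att` (`lt_hh`): `K`. If `a < aU K`: `σ = 0`, `α = min (ρ/2) (aU K - a)`: `Ess (H s) c (a + α)`, `le_hh`. If `a = aU K`: some critical point in the frontier: `step_sing`, `σ = 0`; otherwise `step_reg`. `le_hh`.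
-/

namespace H25S

open MeasureTheory H83D Set Filter Topology

theorem step_up {H : ℝ → ℝ × ℝ → ℝ} (hH : Ham H) {p q : ℤ} (hq : 0 < q) (s a : ℝ) {ρ : ℝ} (hρ : 0 < ρ) :
    ∃ σ α : ℝ, |σ| < ρ ∧ |α| < ρ ∧ 0 < p * σ + q * α ∧ hh H s a - (p * σ + q * α) < hh H (s + σ) (a + α) := by
  have hq' : (0 : ℝ) < (q : ℝ) := by exact_mod_cast hq
  have key : ∀ α c' : ℝ, 0 < α → α < ρ → hh H s a - q * α < c' → c' ≤ hh H s (a + α) →
      ∃ σ α : ℝ, |σ| < ρ ∧ |α| < ρ ∧ 0 < p * σ + q * α ∧ hh H s a - (p * σ + q * α) < hh H (s + σ) (a + α) := by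
    intro α c' h1 h2 h3 h4
    refine ⟨0, α, ?_, ?_, ?_, ?_⟩
    · rw [abs_zero]; exact hρ
    · rw [abs_of_pos h1]; exact h2
    · rw [mul_zero, zero_add]; exact mul_pos hq' h1
    · rw [mul_zero, zero_add, add_zero]; exact h3.trans_le h4
  by_cases hA : ∀ c'' : ℝ, c'' < hh H s a → Dbl (H s) c''
  · have h1 : hh H s a ≤ hh H s (a + ρ / 2) := by
      refine le_of_forall_lt fun c'' hc => ?_
      obtain ⟨c₁, h2, h3⟩ := exists_between hc
      exact h2.trans_le (le_hh hH (dbl_ess (hH.per s) (hA c₁ h3) _))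
    refine key (ρ / 2) (hh H s a) (by linarith) (by linarith) ?_ h1
    have : 0 < (q : ℝ) * (ρ / 2) := mul_pos hq' (by linarith)
    linarith
  · push Not at hA
    obtain ⟨c'', hc, hd⟩ := hA
    obtain ⟨K, hK, hs, hL, hU⟩ := ess_att (ham_p2 hH s).smooth.continuous (hH.per s)
      (c := hh H s a) (a := a) (fun c' hc' => lt_hh hH hc') hc hd
    rcases hU.lt_or_eq with hlt | heq
    · have hα : 0 < min (ρ / 2) (aU K - a) := lt_min (by linarith) (by linarith)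
      have hα1 : min (ρ / 2) (aU K - a) ≤ ρ / 2 := min_le_left _ _
      have hα2 : min (ρ / 2) (aU K - a) ≤ aU K - a := min_le_right _ _
      refine key (min (ρ / 2) (aU K - a)) (hh H s a) hα (by linarith) ?_ ?_
      · have : 0 < (q : ℝ) * min (ρ / 2) (aU K - a) := mul_pos hq' hα
        linarith
      · exact le_hh hH ⟨K, hK.cpt, hK.con, hK.sub, hs, by linarith, by linarith⟩
    · by_cases hcr : ∃ z₀, pr z₀ ∈ frontier (Up K) ∧ Crit (H s) z₀
      · obtain ⟨z₀, hz, h0⟩ := hcr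
        obtain ⟨α, c', h1, h2, h3, h4⟩ := step_sing hH hq hK hs heq hL hz h0 hρ
        exact key α c' h1 h2 h3 (le_hh hH h4)
      · push Not at hcr
        obtain ⟨σ, α, c', h1, h2, h3, h4, h5⟩ := step_reg hH (p := p) hq hK hs heq hcr hρ
        exact ⟨σ, α, h1, h2, h3, h4.trans_le (le_hh hH h5)⟩

end H25S
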