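import Pool.Agent.Lib.H25S.R3

/-!
# Chunk R4 (M)
`m (t, u) = d1 f (Psi (t,u)) * (nv f (γ t)).1 + d2 f (Psi (t,u)) * (nv f (γ t)).2` is continuous, `m (t, 0) = 1`, and it is the derivative of `u ↦ f (Psi (t,u))` (chain rule). By compactness of `Icc (-A) A` (`IsCompact` tube lemma: `generalized_tube_lemma`, or uniform continuity on `Icc (-A) A ×ˢ Icc (-1) 1`) there is `r > 0` with `1/2 ≤ m` for `|t| ≤ A`, `|u| < r`.
Mean value theorem for `u ↦ f (Psi (t,u)) - u/2` (monotone on `Ioo (-r) r`), `f (γ t) = f (γ 0)`.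
-/

namespace H25S

open MeasureTheory H83D Set Filter Topology

theorem r4_fd (f : ℝ × ℝ → ℝ) (z v : ℝ × ℝ) :
    fderiv ℝ f z v = v.1 * d1 f z + v.2 * d2 f z := by
  have h1 : v = v.1 • ((1, 0) : ℝ × ℝ) + v.2 • ((0, 1) : ℝ × ℝ) := by
    ext <;> simp
  conv_lhs => rw [h1]
  rw [map_add, map_smul, map_smul]
  simp [d1, d2, smul_eq_mul]

theorem psi_sign {f : ℝ × ℝ → ℝ} (hf : P2 f) {γ : ℝ → ℝ × ℝ} (h : Orb f γ) (h0 : ¬ Crit f (γ 0)) (A : ℝ) :
    ∃ r : ℝ, 0 < r ∧ ∀ t u : ℝ, |t| ≤ A → |u| < r → (0 ≤ u → f (γ 0) + u / 2 ≤ f (Psi f γ (t, u))) ∧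
      (u ≤ 0 → f (Psi f γ (t, u)) ≤ f (γ 0) + u / 2) := by
  have hfd : Differentiable ℝ f := hf.smooth.differentiable (by norm_num)
  have hfc : Continuous (fderiv ℝ f) := hf.smooth.continuous_fderiv (by norm_num)
  have hPc : Continuous (Psi f γ) := (psi_cd hf h h0).continuous
  have hnv : ∀ t, nv f (γ t) = Psi f γ (t, 1) - Psi f γ (t, 0) := by
    intro t
    simp [Psi]
  have hnvc : Continuous fun p : ℝ × ℝ => nv f (γ p.1) := by
    simp only [hnv]
    exact (hPc.comp (by fun_prop)).sub (hPc.comp (by fun_prop))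
  have hmc : Continuous fun p : ℝ × ℝ => fderiv ℝ f (Psi f γ p) (nv f (γ p.1)) :=
    (hfc.comp hPc).clm_apply hnvc
  have hm0 : ∀ t, fderiv ℝ f (Psi f γ (t, 0)) (nv f (γ t)) = 1 := by
    intro t
    rw [psi_zero, r4_fd]
    have h1 := orb_reg hf h h0 t
    have h2 : d1 f (γ t) ^ 2 + d2 f (γ t) ^ 2 ≠ 0 := by
      intro h3
      have h4 : d1 f (γ t) ^ 2 = 0 := by nlinarith [sq_nonneg (d1 f (γ t)), sq_nonneg (d2 f (γ t))]
      have h5 : d2 f (γ t) ^ 2 = 0 := by nlinarith [sq_nonneg (d1 f (γ t)), sq_nonneg (d2 f (γ t))]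
      exact h1 ⟨pow_eq_zero_iff (two_ne_zero) |>.1 h4, pow_eq_zero_iff (two_ne_zero) |>.1 h5⟩
    simp only [nv]
    field_simp
  have ho : IsOpen {p : ℝ × ℝ | 1 / 2 < fderiv ℝ f (Psi f γ p) (nv f (γ p.1))} :=
    isOpen_lt continuous_const hmc
  obtain ⟨U, V, hU, hV, hAU, h0V, hUV⟩ := generalized_tube_lemma (isCompact_Icc (a := -A) (b := A))
    (isCompact_singleton (x := (0 : ℝ))) ho (by
      rintro ⟨t, u⟩ ⟨-, hu⟩
      have hu' : u = 0 := hu
      subst hu'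
      change 1 / 2 < fderiv ℝ f (Psi f γ (t, 0)) (nv f (γ t))
      rw [hm0 t]
      norm_num)
  obtain ⟨r, hr, hrV⟩ := Metric.isOpen_iff.1 hV 0 (h0V rfl)
  refine ⟨r, hr, ?_⟩
  intro t u ht hu
  have hder : ∀ x : ℝ, HasDerivAt (fun x => f (Psi f γ (t, x)) - x / 2)
      (fderiv ℝ f (Psi f γ (t, x)) (nv f (γ t)) - 1 / 2) x := by
    intro x
    have h1 : HasDerivAt (fun x : ℝ => Psi f γ (t, x)) (nv f (γ t)) x := by
      have h2 : HasDerivAt (fun x : ℝ => γ t + x • nv f (γ t)) ((1 : ℝ) • nv f (γ t)) x :=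
        ((hasDerivAt_id x).smul_const _).const_add _
      rw [one_smul] at h2
      exact h2
    have h3 : HasDerivAt (fun x : ℝ => f (Psi f γ (t, x)))
        (fderiv ℝ f (Psi f γ (t, x)) (nv f (γ t))) x :=
      (hfd _).hasFDerivAt.comp_hasDerivAt x h1
    exact h3.sub ((hasDerivAt_id x).div_const 2)
  have hmono : MonotoneOn (fun x => f (Psi f γ (t, x)) - x / 2) (Ioo (-r) r) := by
    refine monotoneOn_of_deriv_nonneg (convex_Ioo _ _)
      (fun x _ => (hder x).continuousAt.continuousWithinAt)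
      (fun x _ => (hder x).differentiableAt.differentiableWithinAt) ?_
    intro x hx
    rw [interior_Ioo] at hx
    rw [(hder x).deriv]
    have h1 : ((t, x) : ℝ × ℝ) ∈ U ×ˢ V := by
      refine ⟨hAU (abs_le.1 ht), hrV ?_⟩
      rw [Metric.mem_ball, Real.dist_eq, sub_zero, abs_lt]
      exact hx
    have h2 : 1 / 2 < fderiv ℝ f (Psi f γ (t, x)) (nv f (γ t)) := hUV h1
    linarith
  have hlev : f (Psi f γ (t, 0)) = f (γ 0) := by rw [psi_zero, orb_level hf h]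
  have hu' := abs_lt.1 hu
  have h0m : (0 : ℝ) ∈ Ioo (-r) r := ⟨by linarith, hr⟩
  constructor
  · intro h1
    have h2 := hmono h0m ⟨hu'.1, hu'.2⟩ h1
    simp only at h2
    rw [hlev] at h2
    linarith
  · intro h1
    have h2 := hmono ⟨hu'.1, hu'.2⟩ h0m h1
    simp only at h2
    rw [hlev] at h2
    linarith

end H25S
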