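import Pool.Agent.Lib.H25S.T2
import Pool.Agent.Lib.H25S.T4
import Pool.Agent.Lib.H25S.R4
import Pool.Agent.Lib.H25S.R5

/-!
# Chunk R6 (M)
`front_level`: `pr z ∈ frontier (Up K) ⊆ K ⊆ SL f c` (`up_front`), so `c ≤ f z`. If `c < f z` then on a ball `B` around `z` still `c ≤ f`, `pr '' B` is preconnected, `⊆ SL f c`, meets `K`, so it is in `K`; it is an open neighbourhood of `pr z`, so it meets `Up K`: contradiction to `up_disj`.
`comp_box`: `f (γ 0) = c`. Let `r` be smaller than the radii of `psi_sign` (with `A = 1`, `r ≤ 1`) and `psi_box` (`t₀ = 0`). `A⁺ = {Psi (t,u) | |t| < r, 0 ≤ u < r}` is the image of a convex set, `c ≤ f` on it, contains `γ 0`: `pr '' A⁺ ⊆ K` (`hK.max`). `A⁻ = {Psi (t,u) | |t| < r, -r < u < 0}`: `f < c`, so `pr '' A⁻` is disjoint from `K` and preconnected.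
The image of the open square is open (`psi_box`, `pr_open`) and contains `pr (γ 0) ∈ closure (Up K)`, so it contains a point of `Up K`, not in `K`, hence in `pr '' A⁻`; so `pr '' A⁻ ⊆ Up K` (`up_max`).
-/

namespace H25S

open MeasureTheory H83D Set Filter Topology

theorem front_level {f : ℝ × ℝ → ℝ} (hf : P2 f) {c : ℝ} {K : Set Cyl} (hK : IsComp K (SL f c)) {z : ℝ × ℝ}
    (hz : pr z ∈ frontier (Up K)) : f z = c := by
  have hKc : IsClosed K := hK.cpt.isClosed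
  have hzK : pr z ∈ K := up_front hKc hz
  have h1 : c ≤ f z := (mem_sl hf.per c z).1 (hK.sub hzK)
  rcases h1.eq_or_lt with h | h
  · exact h.symm
  exfalso
  have cf : Continuous f := hf.smooth.continuous
  have hev : ∀ᶠ x in 𝓝 z, c < f x := cf.continuousAt.eventually (lt_mem_nhds h)
  obtain ⟨r, hr, hball⟩ := Metric.eventually_nhds_iff_ball.1 hev
  have hpre : IsPreconnected (pr '' Metric.ball z r) :=
    ((convex_ball z r).isPreconnected).image pr pr_cont.continuousOn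
  have hsub : pr '' Metric.ball z r ⊆ SL f c := by
    rintro _ ⟨x, hx, rfl⟩
    exact (mem_sl hf.per c x).2 (hball x hx).le
  have hmem : pr z ∈ pr '' Metric.ball z r := ⟨z, Metric.mem_ball_self hr, rfl⟩
  have hin : pr '' Metric.ball z r ⊆ K := hK.max _ hpre hsub ⟨pr z, hmem, hzK⟩
  have hopen : IsOpen (pr '' Metric.ball z r) := pr_open _ Metric.isOpen_ball
  have hcl : pr z ∈ closure (Up K) := frontier_subset_closure hz
  obtain ⟨w, hw1, hw2⟩ := mem_closure_iff_nhds.1 hcl _ (hopen.mem_nhds hmem)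
  exact Set.disjoint_left.1 (up_disj K) hw2 (hin hw1)

theorem comp_box {f : ℝ × ℝ → ℝ} (hf : P2 f) {c : ℝ} {K : Set Cyl} (hK : IsComp K (SL f c)) {γ : ℝ → ℝ × ℝ} (h : Orb f γ)
    (h0 : ¬ Crit f (γ 0)) (hz : pr (γ 0) ∈ frontier (Up K)) :
    ∃ r : ℝ, 0 < r ∧ ∀ t u : ℝ, |t| < r → |u| < r →
      (0 ≤ u → pr (Psi f γ (t, u)) ∈ K) ∧ (u < 0 → pr (Psi f γ (t, u)) ∈ Up K) := by
  have hKc : IsClosed K := hK.cpt.isClosed
  have hlev : f (γ 0) = c := front_level hf hK hz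
  have hzK : pr (γ 0) ∈ K := up_front hKc hz
  have hΨ : Continuous (Psi f γ) := (psi_cd hf h h0).continuous
  obtain ⟨r₁, hr₁, hs⟩ := psi_sign hf h h0 1
  obtain ⟨r₂, hr₂, -, hop⟩ := psi_box hf h h0 0
  obtain ⟨r, hr, hrr1, hrr2, hr1⟩ : ∃ r : ℝ, 0 < r ∧ r ≤ r₁ ∧ r ≤ r₂ ∧ r ≤ 1 :=
    ⟨min (min r₁ r₂) 1, lt_min (lt_min hr₁ hr₂) one_pos, (min_le_left _ _).trans (min_le_left _ _),
      (min_le_left _ _).trans (min_le_right _ _), min_le_right _ _⟩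
  have hm0 : pr (γ 0) = pr (Psi f γ (0, 0)) := by rw [psi_zero]
  -- the upper part
  have hpos : ∀ t u : ℝ, |t| < r → 0 ≤ u → u < r → pr (Psi f γ (t, u)) ∈ K := by
    have hpre : IsPreconnected (pr '' (Psi f γ '' (Ioo (-r) r ×ˢ Ico (0 : ℝ) r))) :=
      ((((convex_Ioo (-r) r).prod (convex_Ico (0 : ℝ) r)).isPreconnected).image _ hΨ.continuousOn).image pr
        pr_cont.continuousOn
    have hsub : pr '' (Psi f γ '' (Ioo (-r) r ×ˢ Ico (0 : ℝ) r)) ⊆ SL f c := by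
      rintro _ ⟨_, ⟨⟨t, u⟩, ⟨ht, hu⟩, rfl⟩, rfl⟩
      have ht' : |t| ≤ 1 := (abs_lt.2 ht).le.trans hr1
      have hu' : |u| < r₁ := by
        rw [abs_of_nonneg hu.1]
        exact lt_of_lt_of_le hu.2 hrr1
      have h1 := (hs t u ht' hu').1 hu.1
      have h2 : (0 : ℝ) ≤ u := hu.1
      exact (mem_sl hf.per c _).2 (by rw [hlev] at h1; linarith)
    have hin : pr '' (Psi f γ '' (Ioo (-r) r ×ˢ Ico (0 : ℝ) r)) ⊆ K := by
      refine hK.max _ hpre hsub ⟨pr (γ 0), ⟨_, ⟨(0, 0), ⟨⟨?_, hr⟩, ⟨le_rfl, hr⟩⟩, rfl⟩, hm0.symm⟩, hzK⟩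
      show -r < 0
      linarith
    intro t u ht hu hu'
    exact hin ⟨_, ⟨(t, u), ⟨abs_lt.1 ht, ⟨hu, hu'⟩⟩, rfl⟩, rfl⟩
  -- the lower part
  have hpre : IsPreconnected (pr '' (Psi f γ '' (Ioo (-r) r ×ˢ Ioo (-r) (0 : ℝ)))) :=
    ((((convex_Ioo (-r) r).prod (convex_Ioo (-r) (0 : ℝ))).isPreconnected).image _ hΨ.continuousOn).image pr
      pr_cont.continuousOn
  have hdis : Disjoint (pr '' (Psi f γ '' (Ioo (-r) r ×ˢ Ioo (-r) (0 : ℝ)))) K := by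
    rw [Set.disjoint_left]
    rintro _ ⟨_, ⟨⟨t, u⟩, ⟨ht, hu⟩, rfl⟩, rfl⟩ hk
    have ht' : |t| ≤ 1 := (abs_lt.2 ht).le.trans hr1
    have h3 : -r < u := hu.1
    have h4 : u < 0 := hu.2
    have hu' : |u| < r₁ := by
      rw [abs_of_neg h4]
      linarith
    have h1 := (hs t u ht' hu').2 h4.le
    have h2 := (mem_sl hf.per c _).1 (hK.sub hk)
    rw [hlev] at h1
    linarith
  have hO : IsOpen (pr '' (Psi f γ '' (Ioo (-r) r ×ˢ Ioo (-r) r))) := by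
    refine pr_open _ (hop _ ?_ (isOpen_Ioo.prod isOpen_Ioo))
    rintro ⟨t, u⟩ ⟨ht, hu⟩
    exact ⟨⟨by have := ht.1; simp only at this ⊢; linarith, by have := ht.2; simp only at this ⊢; linarith⟩,
      ⟨by have := hu.1; simp only at this ⊢; linarith, by have := hu.2; simp only at this ⊢; linarith⟩⟩
  have hmem : pr (γ 0) ∈ pr '' (Psi f γ '' (Ioo (-r) r ×ˢ Ioo (-r) r)) :=
    ⟨_, ⟨(0, 0), ⟨⟨by show -r < 0; linarith, hr⟩, ⟨by show -r < 0; linarith, hr⟩⟩, rfl⟩, hm0.symm⟩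
  have hcl : pr (γ 0) ∈ closure (Up K) := frontier_subset_closure hz
  obtain ⟨w, hw1, hw2⟩ := mem_closure_iff_nhds.1 hcl _ (hO.mem_nhds hmem)
  have hne : (pr '' (Psi f γ '' (Ioo (-r) r ×ˢ Ioo (-r) (0 : ℝ))) ∩ Up K).Nonempty := by
    refine ⟨w, ?_, hw2⟩
    obtain ⟨_, ⟨⟨t, u⟩, ⟨ht, hu⟩, rfl⟩, rfl⟩ := hw1
    rcases le_or_gt 0 u with h1 | h1
    · exact absurd (hpos t u (abs_lt.2 ht) h1 hu.2) (Set.disjoint_left.1 (up_disj K) hw2)
    · exact ⟨_, ⟨(t, u), ⟨ht, ⟨hu.1, h1⟩⟩, rfl⟩, rfl⟩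
  have hlow := up_max hpre hdis hne
  refine ⟨r, hr, fun t u ht hu => ⟨fun h1 => hpos t u ht h1 (abs_lt.1 hu).2, fun h1 => ?_⟩⟩
  exact hlow ⟨_, ⟨(t, u), ⟨abs_lt.1 ht, ⟨(abs_lt.1 hu).1, h1⟩⟩, rfl⟩, rfl⟩

end H25S
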