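import Pool.Agent.Lib.H25S.R6

/-!
# Chunk R7 (S)
The set `{t | pr (γ t) ∈ frontier (Up K)}` is closed, contains `0`, and is open: at `t` apply `comp_box` to the orbit `fun τ => γ (t + τ)` (`orb_shift`; `Psi` of the shifted orbit), for `|τ| < r` the point `pr (γ (t + τ)) = pr (Psi (τ, 0))` is in `K`, so not in `Up K`, and it is the limit of the points `pr (Psi (τ, u)) ∈ Up K`, `u < 0`, `u → 0`.
So it is in `closure (Up K) \ Up K = frontier (Up K)` (open). `ℝ` is connected (`IsClopen.eq_univ`).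
-/

namespace H25S

open MeasureTheory H83D Set Filter Topology

theorem orb_front {f : ℝ × ℝ → ℝ} (hf : P2 f) {c : ℝ} {K : Set Cyl} (hK : IsComp K (SL f c))
    (hreg : ∀ z, pr z ∈ frontier (Up K) → ¬ Crit f z) {γ : ℝ → ℝ × ℝ} (h : Orb f γ) (hz : pr (γ 0) ∈ frontier (Up K)) (t : ℝ) :
    pr (γ t) ∈ frontier (Up K) := by
  have cγ : Continuous γ := continuous_iff_continuousAt.2 fun t => (h t).continuousAt
  have hKc : IsClosed K := hK.cpt.isClosed
  have hUo : IsOpen (Up K) := up_open hKc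
  have hcl : IsClosed {t : ℝ | pr (γ t) ∈ frontier (Up K)} :=
    isClosed_frontier.preimage (pr_cont.comp cγ)
  have hop : IsOpen {t : ℝ | pr (γ t) ∈ frontier (Up K)} := by
    rw [Metric.isOpen_iff]
    intro t₀ ht₀
    have ht₀' : pr (γ t₀) ∈ frontier (Up K) := ht₀
    have hsh : Orb f (fun τ => γ (τ + t₀)) := by
      intro τ
      have := (h (τ + t₀)).comp_add_const τ t₀
      exact this
    obtain ⟨r, hr, hbox⟩ := comp_box hf hK hsh (by simpa using hreg _ ht₀') (by simpa using ht₀')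
    refine ⟨r, hr, ?_⟩
    intro t ht
    have htr : |t - t₀| < r := by
      rw [Metric.mem_ball, Real.dist_eq] at ht
      exact ht
    show pr (γ t) ∈ frontier (Up K)
    have hψ0 : Psi f (fun τ => γ (τ + t₀)) (t - t₀, 0) = γ t := by
      rw [psi_zero]
      simp
    have hin : pr (γ t) ∈ K := by
      have := (hbox (t - t₀) 0 htr (by simpa using hr)).1 le_rfl
      rwa [hψ0] at this
    have hnot : pr (γ t) ∉ Up K := fun hu => Set.disjoint_left.1 (up_disj K) hu hin
    have hclos : pr (γ t) ∈ closure (Up K) := by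
      have hc : Continuous fun u : ℝ => pr (Psi f (fun τ => γ (τ + t₀)) (t - t₀, u)) := by
        refine pr_cont.comp ?_
        show Continuous fun u : ℝ => γ (t - t₀ + t₀) + u • nv f (γ (t - t₀ + t₀))
        exact continuous_const.add (continuous_id.smul continuous_const)
      have hlim : Tendsto (fun u : ℝ => pr (Psi f (fun τ => γ (τ + t₀)) (t - t₀, u))) (𝓝[<] 0) (𝓝 (pr (γ t))) := by
        have := (hc.tendsto 0).mono_left (nhdsWithin_le_nhds (s := Set.Iio (0 : ℝ)))
        rwa [hψ0] at this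
      refine mem_closure_of_tendsto hlim ?_
      have hmem : Set.Ioo (-r) 0 ∈ 𝓝[<] (0 : ℝ) := Ioo_mem_nhdsLT (by linarith)
      filter_upwards [hmem] with u hu
      exact (hbox (t - t₀) u htr (by rw [abs_lt]; exact ⟨hu.1, by linarith [hu.2]⟩)).2 hu.2
    rw [hUo.frontier_eq]
    exact ⟨hclos, hnot⟩
  have huniv : {t : ℝ | pr (γ t) ∈ frontier (Up K)} = univ := IsClopen.eq_univ ⟨hcl, hop⟩ ⟨0, hz⟩
  have : t ∈ {t : ℝ | pr (γ t) ∈ frontier (Up K)} := by rw [huniv]; trivial
  exact this

end H25S
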