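import Pool.Agent.Lib.H25S.R7

/-!
# Chunk R8 (M)
(1) The points `pr (γ n)`, `n : ℕ`, are in the compact set `frontier (Up K) ⊆ K`: a subsequence converges to `w = pr w̃ ∈ frontier (Up K)`. Let `γw` be the orbit with `γw 0 = w̃` (regular), `r ≤ 1/4` a radius for `psi_sign` (`A = 1`) and `psi_box` at `0`; `V = pr '' (Psi f γw '' (Ioo (-r) r ×ˢ Ioo (-r) r))` is an open neighbourhood of `w`. There are `n`, `m ≥ n + 2` with
`pr (γ n), pr (γ m) ∈ V`; as `f = c` at both (`front_level`, `orb_front`) `psi_sign` gives `u = 0`: `γ n = γw t + iv (i, 0)`, `γ m = γw t' + iv (i', 0)`, `|t|, |t'| < r`. By `orb_uniq` (and `orb_add`) `γ (n + (t' - t)) = γw t' + iv (i, 0) = γ m + iv (i - i', 0)`, so with `T₀ = m - n - (t' - t) ≥ 1` and some `k`: `γ (τ + T₀) = γ τ + iv (k, 0)` for all `τ`.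
(2) `P = {T | ∃ k : ℤ, ∀ t, γ (t + T) = γ t + iv (k, 0)}` is an `AddSubgroup ℝ` containing `T₀ > 0`. If `T ∈ P`, `|T| < r'` (small) then `T = 0` (`psi_box` for `γ` at `0` in the plane plus: `pr` is injective on small balls; or: `γ T = γ 0 + iv (k,0)` with `γ T` close to `γ 0` forces `k = 0`, and `Psi` is injective near `(0,0)`). So `P` is not dense: `AddSubgroup.dense_or_cyclic`: `P = zmultiples T`, `T ≠ 0`, wlog `0 < T`.
(3) `pr (γ t) = pr (γ t')` gives `γ t' = γ t + iv (k, 0)`, so `t' - t ∈ P` (`orb_uniq`).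
-/

namespace H25S

open MeasureTheory H83D Set Filter Topology

/-- Orbits which agree up to a horizontal translation. -/
theorem r8_shift {f : ℝ × ℝ → ℝ} (hf : P2 f) {γ γ' : ℝ → ℝ × ℝ} (h : Orb f γ) (h' : Orb f γ') {a b : ℝ} {i : ℤ}
    (e : γ a = γ' b + iv (i, 0)) (t : ℝ) : γ (a + t) = γ' (b + t) + iv (i, 0) :=
  orb_uniq hf h (orb_add hf h' (i, 0)) (b := b) e t

theorem r8_iv_add (i j : ℤ) : iv (i, 0) + iv (j, 0) = iv (i + j, 0) := by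
  unfold iv
  ext
  · simp
  · simp

/-- The horizontal periods of an orbit. -/
def r8_per (γ : ℝ → ℝ × ℝ) : AddSubgroup ℝ where
  carrier := {T | ∃ k : ℤ, ∀ t, γ (t + T) = γ t + iv (k, 0)}
  zero_mem' := ⟨0, fun t => by
    have h0 : iv (0, 0) = 0 := by
      unfold iv
      ext <;> simp
    rw [h0, add_zero, add_zero]⟩
  add_mem' := by
    rintro a b ⟨k, hk⟩ ⟨l, hl⟩
    refine ⟨k + l, fun t => ?_⟩
    rw [← add_assoc, hl, hk, add_assoc, r8_iv_add]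
  neg_mem' := by
    rintro a ⟨k, hk⟩
    refine ⟨-k, fun t => ?_⟩
    have h1 := hk (t + -a)
    rw [neg_add_cancel_right] at h1
    rw [h1, add_assoc, r8_iv_add, add_neg_cancel]
    have h0 : iv (0, 0) = 0 := by
      unfold iv
      ext <;> simp
    rw [h0, add_zero]

theorem r8_mem {γ : ℝ → ℝ × ℝ} {T : ℝ} : T ∈ r8_per γ ↔ ∃ k : ℤ, ∀ t, γ (t + T) = γ t + iv (k, 0) := Iff.rfl

/-- A positive period. -/
theorem r8_pos {f : ℝ × ℝ → ℝ} (hf : P2 f) {c : ℝ} {K : Set Cyl} (hK : IsComp K (SL f c))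
    (hreg : ∀ z, pr z ∈ frontier (Up K) → ¬ Crit f z) {γ : ℝ → ℝ × ℝ} (h : Orb f γ) (hz : pr (γ 0) ∈ frontier (Up K)) :
    ∃ T : ℝ, 0 < T ∧ T ∈ r8_per γ := by
  have hF : IsCompact (frontier (Up K)) :=
    hK.cpt.of_isClosed_subset isClosed_frontier (up_front hK.cpt.isClosed)
  have hfr : ∀ t, pr (γ t) ∈ frontier (Up K) := fun t => orb_front hf hK hreg h hz t
  obtain ⟨w, hw, φ, hφ, hlim⟩ := hF.tendsto_subseq (x := fun n : ℕ => pr (γ n)) fun n => hfr n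
  obtain ⟨γw, hγw, hγw0⟩ := orb_ex hf (lft w)
  have hprw : pr (γw 0) = w := by rw [hγw0, pr_lft]
  have hwF : pr (γw 0) ∈ frontier (Up K) := by rw [hprw]; exact hw
  have hwreg : ¬ Crit f (γw 0) := hreg _ hwF
  have hwc : f (γw 0) = c := front_level hf hK hwF
  obtain ⟨r1, hr1, hs1⟩ := psi_sign hf hγw hwreg 1
  obtain ⟨r2, hr2, _, ho2⟩ := psi_box hf hγw hwreg 0
  obtain ⟨r, hr⟩ : ∃ r : ℝ, r = min (min r1 r2) (1 / 4) := ⟨_, rfl⟩
  have hrp : 0 < r := by rw [hr]; exact lt_min (lt_min hr1 hr2) (by norm_num)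
  have hra : r ≤ r1 := by rw [hr]; exact (min_le_left _ _).trans (min_le_left _ _)
  have hrb : r ≤ r2 := by rw [hr]; exact (min_le_left _ _).trans (min_le_right _ _)
  have hrc : r ≤ 1 / 4 := by rw [hr]; exact min_le_right _ _
  have hO : IsOpen (Psi f γw '' (Ioo (-r) r ×ˢ Ioo (-r) r)) := by
    refine ho2 _ ?_ (isOpen_Ioo.prod isOpen_Ioo)
    rintro ⟨t, u⟩ ⟨ht, hu⟩
    exact ⟨⟨by linarith [ht.1], by linarith [ht.2]⟩, ⟨by linarith [hu.1], by linarith [hu.2]⟩⟩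
  have hV : IsOpen (pr '' (Psi f γw '' (Ioo (-r) r ×ˢ Ioo (-r) r))) := pr_open _ hO
  have hwV : w ∈ pr '' (Psi f γw '' (Ioo (-r) r ×ˢ Ioo (-r) r)) := by
    refine ⟨γw 0, ⟨(0, 0), ⟨⟨by show -r < 0; linarith, hrp⟩, ⟨by show -r < 0; linarith, hrp⟩⟩, psi_zero f γw 0⟩, hprw⟩
  have hev := hlim.eventually (hV.mem_nhds hwV)
  obtain ⟨N, hN⟩ := Filter.eventually_atTop.1 hev
  have hpt : ∀ s : ℝ, pr (γ s) ∈ pr '' (Psi f γw '' (Ioo (-r) r ×ˢ Ioo (-r) r)) →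
      ∃ (t : ℝ) (i : ℤ), |t| < r ∧ γ s = γw t + iv (i, 0) := by
    rintro s ⟨z, ⟨⟨t, u⟩, ⟨ht, hu⟩, hz1⟩, hz2⟩
    have hu' : |u| < r := abs_lt.2 ⟨hu.1, hu.2⟩
    have ht' : |t| < r := abs_lt.2 ⟨ht.1, ht.2⟩
    obtain ⟨i, hi⟩ := pr_eq.1 hz2
    have hfs : f (γ s) = c := front_level hf hK (hfr s)
    have hfz : f (Psi f γw (t, u)) = c := by
      rw [hz1, ← hfs, hi, hf.per]
    obtain ⟨a1, a2⟩ := hs1 t u (by linarith) (by linarith)
    have hu0 : u = 0 := by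
      rcases le_total 0 u with k | k
      · have := a1 k
        linarith
      · have := a2 k
        linarith
    refine ⟨t, i, ht', ?_⟩
    rw [hi, ← hz1, hu0, psi_zero]
  obtain ⟨t1, i1, ht1, e1⟩ := hpt _ (hN N le_rfl)
  obtain ⟨t2, i2, ht2, e2⟩ := hpt _ (hN (N + 2) (by omega))
  have hφ2 : φ N + 2 ≤ φ (N + 2) := by
    have k1 := hφ (show N < N + 1 by omega)
    have k2 := hφ (show N + 1 < N + 2 by omega)
    omega
  have hφ3 : (φ N : ℝ) + 2 ≤ (φ (N + 2) : ℝ) := by exact_mod_cast hφ2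
  have b1 := abs_lt.1 ht1
  have b2 := abs_lt.1 ht2
  refine ⟨(φ (N + 2) : ℝ) - φ N - (t2 - t1), by linarith, i2 - i1, fun s => ?_⟩
  have k1 := r8_shift hf h hγw e1 (s - φ N)
  have k2 := r8_shift hf h hγw e2 (s - φ N - (t2 - t1))
  have l1 : (φ N : ℝ) + (s - φ N) = s := by ring
  have l2 : (φ (N + 2) : ℝ) + (s - φ N - (t2 - t1)) = s + ((φ (N + 2) : ℝ) - φ N - (t2 - t1)) := by ring
  have l3 : t2 + (s - φ N - (t2 - t1)) = t1 + (s - φ N) := by ring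
  rw [l1] at k1
  rw [l2, l3] at k2
  rw [k2, k1, add_assoc, r8_iv_add]
  congr 3
  ring

/-- Zero is isolated in the group of periods. -/
theorem r8_iso {f : ℝ × ℝ → ℝ} (hf : P2 f) {γ : ℝ → ℝ × ℝ} (h : Orb f γ) (h0 : ¬ Crit f (γ 0)) :
    ∃ r : ℝ, 0 < r ∧ ∀ T ∈ r8_per γ, |T| < r → T = 0 := by
  obtain ⟨r3, hr3, hinj, _⟩ := psi_box hf h h0 0
  have hc : Continuous γ := orb_cont h
  obtain ⟨δ, hδ, hδ'⟩ := Metric.continuousAt_iff.1 (hc.continuousAt (x := (0 : ℝ))) 1 one_pos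
  refine ⟨min r3 δ, lt_min hr3 hδ, ?_⟩
  rintro T ⟨k, hk⟩ hT
  have hT1 : |T| < r3 := hT.trans_le (min_le_left _ _)
  have hT2 : |T| < δ := hT.trans_le (min_le_right _ _)
  have e1 := hk 0
  rw [zero_add] at e1
  have hd := hδ' (x := T) (by rw [Real.dist_eq, sub_zero]; exact hT2)
  rw [e1, dist_eq_norm, add_sub_cancel_left, Prod.norm_def] at hd
  have hk1 : |(k : ℝ)| < 1 := lt_of_le_of_lt (le_max_left _ _) hd
  have hk0 : k = 0 := by
    have : |k| < 1 := by exact_mod_cast hk1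
    exact Int.abs_lt_one_iff.1 this
  have e2 : γ T = γ 0 := by
    rw [e1, hk0]
    have h00 : iv (0, 0) = 0 := by
      unfold iv
      ext <;> simp
    rw [h00, add_zero]
  have e3 : Psi f γ (T, 0) = Psi f γ (0, 0) := by rw [psi_zero, psi_zero, e2]
  have b := abs_lt.1 hT1
  have e4 := hinj (show ((T, 0) : ℝ × ℝ) ∈ Ioo (0 - r3) (0 + r3) ×ˢ Ioo (-r3) r3 from
    ⟨⟨by linarith [b.1], by linarith [b.2]⟩, ⟨by linarith, hr3⟩⟩)
    (show ((0, 0) : ℝ × ℝ) ∈ Ioo (0 - r3) (0 + r3) ×ˢ Ioo (-r3) r3 from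
    ⟨⟨by linarith, by linarith⟩, ⟨by linarith, hr3⟩⟩) e3
  exact (Prod.ext_iff.1 e4).1

theorem orb_close {f : ℝ × ℝ → ℝ} (hf : P2 f) {c : ℝ} {K : Set Cyl} (hK : IsComp K (SL f c))
    (hreg : ∀ z, pr z ∈ frontier (Up K) → ¬ Crit f z) {γ : ℝ → ℝ × ℝ} (h : Orb f γ) (hz : pr (γ 0) ∈ frontier (Up K)) :
    ∃ (T : ℝ) (k : ℤ), 0 < T ∧ (∀ t, γ (t + T) = γ t + iv (k, 0)) ∧
      ∀ t t' : ℝ, pr (γ t) = pr (γ t') → ∃ n : ℤ, t' = t + n * T := by
  obtain ⟨T₀, hT₀, hT₀P⟩ := r8_pos hf hK hreg h hz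
  obtain ⟨r, hr, hiso⟩ := r8_iso hf h (hreg _ hz)
  have hdis : Disjoint (r8_per γ : Set ℝ) (Ioo 0 r) := by
    rw [Set.disjoint_left]
    intro x hx hx'
    have := hiso x hx (by rw [abs_of_pos hx'.1]; exact hx'.2)
    linarith [hx'.1]
  obtain ⟨b, hb⟩ := AddSubgroup.cyclic_of_isolated_zero hr hdis
  have hmem : ∀ x, x ∈ r8_per γ ↔ ∃ n : ℤ, n • b = x := by
    intro x
    rw [hb, AddSubgroup.mem_closure_singleton]
  have hb0 : b ≠ 0 := by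
    rintro rfl
    obtain ⟨n, hn⟩ := (hmem T₀).1 hT₀P
    rw [smul_zero] at hn
    linarith
  obtain ⟨e, he, he'⟩ : ∃ e : ℤ, |b| = e • b ∧ b = e • |b| := by
    rcases le_total 0 b with k | k
    · exact ⟨1, by rw [abs_of_nonneg k, one_smul], by rw [abs_of_nonneg k, one_smul]⟩
    · exact ⟨-1, by rw [abs_of_nonpos k, neg_smul, one_smul], by rw [abs_of_nonpos k, neg_smul, one_smul, neg_neg]⟩
  have hTP : |b| ∈ r8_per γ := (hmem _).2 ⟨e, he.symm⟩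
  obtain ⟨k, hk⟩ := hTP
  refine ⟨|b|, k, abs_pos.2 hb0, hk, fun t t' htt => ?_⟩
  obtain ⟨i, hi⟩ := pr_eq.1 htt
  have h1 : t' - t ∈ r8_per γ := by
    refine ⟨i, fun s => ?_⟩
    have h2 := r8_shift hf h h hi (s - t)
    have l1 : t' + (s - t) = s + (t' - t) := by ring
    have l2 : t + (s - t) = s := by ring
    rw [l1, l2] at h2
    exact h2
  obtain ⟨n, hn⟩ := (hmem _).1 h1
  refine ⟨n * e, ?_⟩
  have h3 : t' - t = ((n * e : ℤ) : ℝ) * |b| := by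
    rw [← hn, zsmul_eq_mul]
    conv_lhs => rw [he']
    rw [zsmul_eq_mul]
    push_cast
    ring
  linarith

end H25S
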