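import Pool.Agent.Lib.H25S.Defs2
import Pool.Agent.Lib.H25S.T0

/-!
# Chunk S1 (S)
`O₁ = pr '' {z | d2q z z₀ < ρ ^ 2}` is open (`pr_open`), `O₂ = (pr '' {z | d2q z z₀ ≤ ρ ^ 2})ᶜ` is open (the image of a compact set is compact, closed), `O₁ ∩ O₂ = ∅`. If `A` does not meet the circle then `A ⊆ O₁ ∪ O₂`: for `w ∉ O₂` there is `z`, `pr z = w`, `d2q z z₀ ≤ ρ ^ 2`; equality would give `z = cz z₀ ρ θ` for some `θ`
(`Complex.arg` or `exists θ, x = ρ cos θ ∧ y = ρ sin θ` for `x^2 + y^2 = ρ^2`), so `w ∈ O₁`. `A` meets both: contradiction (`isPreconnected_iff_subset_of_disjoint` or the definition of `IsPreconnected`).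
-/

namespace H25S

open MeasureTheory H83D Set Filter Topology

theorem s1_polar {x y ρ : ℝ} (hρ : 0 < ρ) (h : x ^ 2 + y ^ 2 = ρ ^ 2) :
    ∃ θ : ℝ, x = ρ * Real.cos θ ∧ y = ρ * Real.sin θ := by
  refine ⟨Complex.arg ⟨x, y⟩, ?_, ?_⟩
  · have h1 := Complex.norm_mul_cos_arg ⟨x, y⟩
    have h2 : ‖(⟨x, y⟩ : ℂ)‖ = ρ := by
      have h3 : ‖(⟨x, y⟩ : ℂ)‖ ^ 2 = ρ ^ 2 := by
        rw [← Complex.normSq_eq_norm_sq, Complex.normSq_mk, ← h]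
        ring
      nlinarith [norm_nonneg (⟨x, y⟩ : ℂ), sq_nonneg (‖(⟨x, y⟩ : ℂ)‖ - ρ)]
    rw [h2] at h1
    exact h1.symm
  · have h1 := Complex.norm_mul_sin_arg ⟨x, y⟩
    have h2 : ‖(⟨x, y⟩ : ℂ)‖ = ρ := by
      have h3 : ‖(⟨x, y⟩ : ℂ)‖ ^ 2 = ρ ^ 2 := by
        rw [← Complex.normSq_eq_norm_sq, Complex.normSq_mk, ← h]
        ring
      nlinarith [norm_nonneg (⟨x, y⟩ : ℂ), sq_nonneg (‖(⟨x, y⟩ : ℂ)‖ - ρ)]
    rw [h2] at h1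
    exact h1.symm

theorem s1_cont (z₀ : ℝ × ℝ) : Continuous (fun z : ℝ × ℝ => d2q z z₀) := by
  unfold d2q
  fun_prop

theorem s1_cpt (z₀ : ℝ × ℝ) {ρ : ℝ} (hρ : 0 < ρ) : IsCompact {z : ℝ × ℝ | d2q z z₀ ≤ ρ ^ 2} := by
  have hc : IsClosed {z : ℝ × ℝ | d2q z z₀ ≤ ρ ^ 2} := isClosed_le (s1_cont z₀) continuous_const
  have hK : IsCompact (Set.Icc (z₀.1 - ρ) (z₀.1 + ρ) ×ˢ Set.Icc (z₀.2 - ρ) (z₀.2 + ρ)) :=
    isCompact_Icc.prod isCompact_Icc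
  refine hK.of_isClosed_subset hc ?_
  intro z hz
  have h : (z.1 - z₀.1) ^ 2 + (z.2 - z₀.2) ^ 2 ≤ ρ ^ 2 := hz
  have h1 : |z.1 - z₀.1| ≤ ρ := by
    apply abs_le_of_sq_le_sq
    · nlinarith [sq_nonneg (z.2 - z₀.2)]
    · exact hρ.le
  have h2 : |z.2 - z₀.2| ≤ ρ := by
    apply abs_le_of_sq_le_sq
    · nlinarith [sq_nonneg (z.1 - z₀.1)]
    · exact hρ.le
  have h3 := abs_le.1 h1
  have h4 := abs_le.1 h2
  exact ⟨⟨by linarith [h3.1], by linarith [h3.2]⟩, ⟨by linarith [h4.1], by linarith [h4.2]⟩⟩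

theorem circ_meet {A : Set Cyl} (hA : IsPreconnected A) {z₀ : ℝ × ℝ} {ρ : ℝ} (hρ : 0 < ρ)
    (h1 : ∃ z, pr z ∈ A ∧ d2q z z₀ < ρ ^ 2) (h2 : ∃ w ∈ A, ∀ z, pr z = w → ρ ^ 2 < d2q z z₀) :
    ∃ θ : ℝ, pr (cz z₀ ρ θ) ∈ A := by
  by_contra hno
  push_neg at hno
  have hO1 : IsOpen (pr '' {z : ℝ × ℝ | d2q z z₀ < ρ ^ 2}) :=
    pr_open _ (isOpen_lt (s1_cont z₀) continuous_const)
  have hO2 : IsOpen (pr '' {z : ℝ × ℝ | d2q z z₀ ≤ ρ ^ 2})ᶜ :=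
    ((s1_cpt z₀ hρ).image pr_cont).isClosed.isOpen_compl
  have hsub : A ⊆ pr '' {z : ℝ × ℝ | d2q z z₀ < ρ ^ 2} ∪ (pr '' {z : ℝ × ℝ | d2q z z₀ ≤ ρ ^ 2})ᶜ := by
    intro w hw
    by_cases hw2 : w ∈ pr '' {z : ℝ × ℝ | d2q z z₀ ≤ ρ ^ 2}
    · left
      obtain ⟨z, hz, hzw⟩ := hw2
      rcases lt_or_eq_of_le (show d2q z z₀ ≤ ρ ^ 2 from hz) with h | h
      · exact ⟨z, h, hzw⟩
      · exfalso
        obtain ⟨θ, h3, h4⟩ := s1_polar hρ (show (z.1 - z₀.1) ^ 2 + (z.2 - z₀.2) ^ 2 = ρ ^ 2 from h)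
        apply hno θ
        have h5 : cz z₀ ρ θ = z := by
          unfold cz
          ext
          · show z₀.1 + ρ * Real.cos θ = z.1
            linarith
          · show z₀.2 + ρ * Real.sin θ = z.2
            linarith
        rw [h5, hzw]
        exact hw
    · right
      exact hw2
  obtain ⟨z, hzA, hz⟩ := h1
  obtain ⟨w, hwA, hw⟩ := h2
  have hne := hA _ _ hO1 hO2 hsub ⟨pr z, hzA, ⟨z, hz, rfl⟩⟩ ⟨w, hwA, by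
    rintro ⟨z', hz', hz'w⟩
    have h6 := hw z' hz'w
    have h7 : d2q z' z₀ ≤ ρ ^ 2 := hz'
    linarith⟩
  obtain ⟨x, _, hx1, hx2⟩ := hne
  apply hx2
  obtain ⟨z', hz', hz'x⟩ := hx1
  exact ⟨z', le_of_lt (show d2q z' z₀ < ρ ^ 2 from hz'), hz'x⟩

end H25S
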