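import Pool.Agent.Lib.H25S.Defs2

/-!
# Chunk S3 (M)
Polar coordinates: `volume E ≥ ∫⁻ ρ in Ioo 0 ρ₀, ENNReal.ofReal ρ * volume {θ ∈ Ioo (-π) π | cz z₀ ρ θ ∈ E}` (translate by `z₀`, `lintegral_comp_polarCoord_symm` for the indicator of `E`, drop the radii `≥ ρ₀`; Tonelli). `arc_meas`: an arc of length `≤ 2π` has the same measure modulo `2π`: the set `{θ ∈ Ioo (-π) π | cz z₀ ρ θ ∈ E}` has measure at least `θ₁ - θ₀`
(`cz` is `2π`-periodic in `θ`; translate by a multiple of `2π` so that `θ₀ ∈ [-π, π)`, split `Ioc θ₀ θ₁` at `π` and translate the second part by `-2π`; disjoint as `θ₁ ≤ θ₀ + 2π`; or `Function.Periodic.setLIntegral..`, `AddCircle`).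
-/

namespace H25S

open MeasureTheory H83D Set Filter Topology

theorem s3_cont (z₀ : ℝ × ℝ) : Continuous fun p : ℝ × ℝ => cz z₀ p.1 p.2 := by
  unfold cz
  fun_prop

theorem s3_per (z₀ : ℝ × ℝ) (ρ θ : ℝ) (m : ℤ) : cz z₀ ρ (θ + m * (2 * Real.pi)) = cz z₀ ρ θ := by
  unfold cz
  rw [Real.cos_add_int_mul_two_pi, Real.sin_add_int_mul_two_pi]

theorem s3_set {z₀ : ℝ × ℝ} {E : Set (ℝ × ℝ)} (mE : MeasurableSet E) :
    MeasurableSet {p : ℝ × ℝ | p.2 ∈ Ioo (-Real.pi) Real.pi ∧ cz z₀ p.1 p.2 ∈ E} :=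
  (measurable_snd measurableSet_Ioo).inter ((s3_cont z₀).measurable mE)

theorem polar_low {z₀ : ℝ × ℝ} {ρ₀ : ℝ} (hρ : 0 < ρ₀) {E : Set (ℝ × ℝ)} (mE : MeasurableSet E) :
    (∫⁻ ρ in Ioo 0 ρ₀, ENNReal.ofReal ρ * volume {θ | θ ∈ Ioo (-Real.pi) Real.pi ∧ cz z₀ ρ θ ∈ E}) ≤ volume E := by
  have mE' : MeasurableSet ((fun z : ℝ × ℝ => z₀ + z) ⁻¹' E) := (measurable_const_add z₀) mE
  have h1 : volume E = ∫⁻ z : ℝ × ℝ, ((fun z : ℝ × ℝ => z₀ + z) ⁻¹' E).indicator 1 z := by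
    rw [lintegral_indicator_one mE', measure_preimage_add]
  have hmeas : Measurable fun p : ℝ × ℝ => ENNReal.ofReal p.1 * ((fun z : ℝ × ℝ => z₀ + z) ⁻¹' E).indicator 1 (polarCoord.symm p) :=
    (ENNReal.measurable_ofReal.comp measurable_fst).mul
      ((measurable_one.indicator mE').comp continuous_polarCoord_symm.measurable)
  have h2 : (∫⁻ p in Ioo 0 ρ₀ ×ˢ Ioo (-Real.pi) Real.pi,
      ENNReal.ofReal p.1 * ((fun z : ℝ × ℝ => z₀ + z) ⁻¹' E).indicator 1 (polarCoord.symm p)) ≤ volume E := by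
    rw [h1, ← lintegral_comp_polarCoord_symm]
    refine lintegral_mono_set ?_
    intro p hp
    exact ⟨hp.1.1, hp.2⟩
  refine le_trans (le_of_eq ?_) h2
  rw [Measure.volume_eq_prod, ← Measure.prod_restrict, lintegral_prod _ hmeas.aemeasurable]
  refine lintegral_congr fun ρ => ?_
  have h3 : (∫⁻ θ in Ioo (-Real.pi) Real.pi, ENNReal.ofReal ρ *
      ((fun z : ℝ × ℝ => z₀ + z) ⁻¹' E).indicator 1 (polarCoord.symm (ρ, θ))) =
      ENNReal.ofReal ρ * ∫⁻ θ in Ioo (-Real.pi) Real.pi,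
      ((fun z : ℝ × ℝ => z₀ + z) ⁻¹' E).indicator 1 (polarCoord.symm (ρ, θ)) :=
    lintegral_const_mul _ (((measurable_one.indicator mE').comp continuous_polarCoord_symm.measurable).comp
      measurable_prodMk_left)
  show _ = (∫⁻ θ in Ioo (-Real.pi) Real.pi, ENNReal.ofReal ρ *
      ((fun z : ℝ × ℝ => z₀ + z) ⁻¹' E).indicator 1 (polarCoord.symm (ρ, θ)))
  rw [h3]
  congr 1
  have h4 : ∀ θ : ℝ, ((fun z : ℝ × ℝ => z₀ + z) ⁻¹' E).indicator (1 : ℝ × ℝ → ENNReal) (polarCoord.symm (ρ, θ)) =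
      {θ : ℝ | cz z₀ ρ θ ∈ E}.indicator 1 θ := fun θ => rfl
  have h5 : MeasurableSet {θ : ℝ | cz z₀ ρ θ ∈ E} :=
    ((s3_cont z₀).comp (Continuous.prodMk continuous_const continuous_id)).measurable mE
  simp only [h4]
  rw [lintegral_indicator_one h5, Measure.restrict_apply h5]
  congr 1
  ext θ
  exact and_comm

theorem polar_meas {z₀ : ℝ × ℝ} {E : Set (ℝ × ℝ)} (mE : MeasurableSet E) :
    Measurable fun ρ : ℝ => volume {θ | θ ∈ Ioo (-Real.pi) Real.pi ∧ cz z₀ ρ θ ∈ E} :=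
  measurable_measure_prodMk_left (s3_set mE)

theorem s3_shift (θ : ℝ) : ∃ m : ℤ, -Real.pi ≤ θ + m * (2 * Real.pi) ∧ θ + m * (2 * Real.pi) < Real.pi := by
  have hpi : 0 < 2 * Real.pi := by positivity
  refine ⟨-⌊(θ + Real.pi) / (2 * Real.pi)⌋, ?_, ?_⟩
  · have h := Int.floor_le ((θ + Real.pi) / (2 * Real.pi))
    rw [le_div_iff₀ hpi] at h
    push_cast
    linarith
  · have h := Int.lt_floor_add_one ((θ + Real.pi) / (2 * Real.pi))
    rw [div_lt_iff₀ hpi] at h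
    push_cast
    linarith

theorem s3_arc {z₀ : ℝ × ℝ} {ρ a b : ℝ} (ha : -Real.pi ≤ a) (ha' : a < Real.pi) (h1 : a < b) (h2 : b ≤ a + 2 * Real.pi)
    {E : Set (ℝ × ℝ)} (h : ∀ θ ∈ Ioc a b, cz z₀ ρ θ ∈ E) :
    ENNReal.ofReal (b - a) ≤ volume {θ | θ ∈ Ioo (-Real.pi) Real.pi ∧ cz z₀ ρ θ ∈ E} := by
  rcases le_or_gt b Real.pi with hb | hb
  · rw [← Real.volume_Ioo]
    refine measure_mono fun θ hθ => ⟨⟨?_, ?_⟩, h θ ⟨hθ.1, hθ.2.le⟩⟩
    · linarith [hθ.1]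
    · linarith [hθ.2]
  · have hsub : Ioo a Real.pi ∪ Ioo (-Real.pi) (b - 2 * Real.pi) ⊆
        {θ | θ ∈ Ioo (-Real.pi) Real.pi ∧ cz z₀ ρ θ ∈ E} := by
      rintro θ (hθ | hθ)
      · refine ⟨⟨?_, hθ.2⟩, h θ ⟨hθ.1, ?_⟩⟩
        · linarith [hθ.1]
        · linarith [hθ.2]
      · refine ⟨⟨hθ.1, ?_⟩, ?_⟩
        · linarith [hθ.2]
        · have h3 := h (θ + (1 : ℤ) * (2 * Real.pi)) ⟨by push_cast; linarith [hθ.1], by push_cast; linarith [hθ.2]⟩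
          rwa [s3_per] at h3
    have hd : Disjoint (Ioo a Real.pi) (Ioo (-Real.pi) (b - 2 * Real.pi)) := by
      rw [Set.disjoint_left]
      intro θ hθ hθ'
      linarith [hθ.1, hθ'.2]
    refine le_trans (le_of_eq ?_) (measure_mono hsub)
    rw [measure_union hd measurableSet_Ioo, Real.volume_Ioo, Real.volume_Ioo, ← ENNReal.ofReal_add]
    · congr 1
      ring
    · linarith
    · linarith

theorem arc_meas {z₀ : ℝ × ℝ} {ρ θ₀ θ₁ : ℝ} (h1 : θ₀ < θ₁) (h2 : θ₁ ≤ θ₀ + 2 * Real.pi) {E : Set (ℝ × ℝ)}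
    (h : ∀ θ ∈ Ioc θ₀ θ₁, cz z₀ ρ θ ∈ E) :
    ENNReal.ofReal (θ₁ - θ₀) ≤ volume {θ | θ ∈ Ioo (-Real.pi) Real.pi ∧ cz z₀ ρ θ ∈ E} := by
  obtain ⟨m, hm1, hm2⟩ := s3_shift θ₀
  have h3 := s3_arc (z₀ := z₀) (ρ := ρ) (a := θ₀ + m * (2 * Real.pi)) (b := θ₁ + m * (2 * Real.pi)) hm1 hm2
    (by linarith) (by linarith) (E := E) (by
      intro θ hθ
      have h4 := h (θ - m * (2 * Real.pi)) ⟨by linarith [hθ.1], by linarith [hθ.2]⟩
      have h5 := s3_per z₀ ρ (θ - m * (2 * Real.pi)) m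
      rw [sub_add_cancel] at h5
      rwa [h5])
  refine le_trans (le_of_eq ?_) h3
  congr 1
  ring

end H25S
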