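import Pool.Agent.Lib.H25S.T0

/-!
# Chunk T1 (M)
`Cyl` is locally path connected: `pr` is an open quotient map of the locally path connected space `ℝ × ℝ`: `Topology.IsQuotientMap.locallyPathConnectedSpace` or similar (search Mathlib/Topology/Connected/LocallyPathConnected.lean), or:
`AddCircle (1:ℝ)` is a quotient (an instance for `Quotient` / `QuotientAddGroup` may exist after unfolding), product. `LocallyConnectedSpace` follows by the instance.
-/

namespace H25S

open MeasureTheory H83D Set Filter Topology

instance cyl_lpc : LocallyPathConnectedSpace Cyl := by
  have h : Topology.IsQuotientMap pr := pr_open.isQuotientMap pr_cont pr_surj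
  exact h.locallyPathConnectedSpace

instance cyl_lc : LocallyConnectedSpace Cyl := by
  infer_instance

end H25S
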