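import Pool.Agent.Lib.H25S.T5
import Pool.Agent.Lib.H25S.T7

/-!
# Chunk T9 (M)
`K`, `L` compact connected disjoint, both separating. `L` is preconnected and disjoint from `K`. CASE 1: `L` meets `Up K`: `L ⊆ Up K` (`up_max`). `(Up K)ᶜ` is connected (`compl_conn`, `up_open`, `up_disj`, `up_front`), disjoint from `L`, and contains the lower end
(the lower end of `K` is in `Dn K`, `dn_end`, disjoint from `Up K` by `Sep K`); so it meets `Dn L` (`dn_end` for `L`) and `(Up K)ᶜ ⊆ Dn L` (`dn_max`). CASE 2: `L` meets `Dn K`: `L ⊆ Dn K`, `(Dn K)ᶜ` is connected, disjoint from `L`, contains the upper end, so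
`(Dn K)ᶜ ⊆ Up L`, i.e. `(Up L)ᶜ ⊆ Dn K`. CASE 3: `L` is disjoint from `Up K`, `Dn K`, `K`: `(K ∪ Up K) ∪ (K ∪ Dn K)` is connected (`union_conn`), disjoint from `L`, meets `Up L` and `Dn L` (the ends), so it is contained in both: contradiction to `Sep L`.
-/

namespace H25S

open MeasureTheory H83D Set Filter Topology

theorem order_sep {K L : Set Cyl} (hK : IsCompact K) (cK : IsConnected K) (hL : IsCompact L) (cL : IsConnected L)
    (hd : Disjoint K L) (sK : Sep K) (sL : Sep L) : (Up K)ᶜ ⊆ Dn L ∨ (Up L)ᶜ ⊆ Dn K := by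
  obtain ⟨M₁, _, hM₁⟩ := cpt_bd hK
  obtain ⟨M₂, _, hM₂⟩ := cpt_bd hL
  have hU₁ : ((0, max M₁ M₂) : Cyl) ∈ Up K :=
    up_end (fun v hv => (abs_lt.1 (hM₁ v hv)).2) _ (le_max_left M₁ M₂)
  have hU₂ : ((0, max M₁ M₂) : Cyl) ∈ Up L :=
    up_end (fun v hv => (abs_lt.1 (hM₂ v hv)).2) _ (le_max_right M₁ M₂)
  have hD₁ : ((0, -max M₁ M₂) : Cyl) ∈ Dn K :=
    dn_end (fun v hv => (abs_lt.1 (hM₁ v hv)).1) _ (neg_le_neg (le_max_left M₁ M₂))
  have hD₂ : ((0, -max M₁ M₂) : Cyl) ∈ Dn L :=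
    dn_end (fun v hv => (abs_lt.1 (hM₂ v hv)).1) _ (neg_le_neg (le_max_right M₁ M₂))
  by_cases h1 : (L ∩ Up K).Nonempty
  · left
    have hLU : L ⊆ Up K := up_max cL.isPreconnected hd.symm h1
    have hc : IsConnected (Up K)ᶜ := compl_conn hK.isClosed cK (up_open hK.isClosed) (up_disj K) (up_front hK.isClosed)
    exact dn_max hc.isPreconnected (Set.disjoint_left.2 fun w hw hwL => hw (hLU hwL))
      ⟨_, fun hw => Set.disjoint_left.1 sK hw hD₁, hD₂⟩
  · by_cases h2 : (L ∩ Dn K).Nonempty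
    · right
      have hLD : L ⊆ Dn K := dn_max cL.isPreconnected hd.symm h2
      have hc : IsConnected (Dn K)ᶜ := compl_conn hK.isClosed cK (dn_open hK.isClosed) (dn_disj K) (dn_front hK.isClosed)
      have h3 : (Dn K)ᶜ ⊆ Up L := up_max hc.isPreconnected (Set.disjoint_left.2 fun w hw hwL => hw (hLD hwL))
        ⟨_, fun hw => Set.disjoint_left.1 sK hU₁ hw, hU₂⟩
      exact Set.compl_subset_comm.1 h3
    · exfalso
      obtain ⟨k, hk⟩ := cK.nonempty
      have c1 : IsConnected (K ∪ Up K) := union_conn cK (up_open hK.isClosed) (up_conn hK) (up_disj K) (up_front hK.isClosed)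
      have c2 : IsConnected (K ∪ Dn K) := union_conn cK (dn_open hK.isClosed) (dn_conn hK) (dn_disj K) (dn_front hK.isClosed)
      have c3 : IsPreconnected ((K ∪ Up K) ∪ (K ∪ Dn K)) :=
        IsPreconnected.union k (Or.inl hk) (Or.inl hk) c1.isPreconnected c2.isPreconnected
      have hdis : Disjoint ((K ∪ Up K) ∪ (K ∪ Dn K)) L := by
        rw [Set.disjoint_left]
        rintro w ((hw | hw) | (hw | hw)) hwL
        · exact Set.disjoint_left.1 hd hw hwL
        · exact h1 ⟨w, hwL, hw⟩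
        · exact Set.disjoint_left.1 hd hw hwL
        · exact h2 ⟨w, hwL, hw⟩
      have hU := up_max c3 hdis ⟨_, Or.inl (Or.inr hU₁), hU₂⟩
      have hD := dn_max c3 hdis ⟨_, Or.inr (Or.inr hD₁), hD₂⟩
      exact Set.disjoint_left.1 sL (hU (Or.inl (Or.inl hk))) (hD (Or.inl (Or.inl hk)))

end H25S
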