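import Pool.Agent.Lib.H25S.V2

/-!
# Chunk V3 (M)
For a lower set `D` (`Low D`, constant `M`) both `D ∩ {0 < w.2}` and `Dᶜ ∩ {w.2 ≤ 0}` are in `{|w.2| ≤ M}`, finite volume (`vol_bd`). `ar_diff`: split `volume (D' ∩ {0<y}) = volume (D ∩ D' ∩ {0<y}) + volume (D' \ D ∩ {0<y})` etc. (`measure_inter_add_diff`), four identities; add. `ar_mono`: `D \ D' = ∅`.
-/

namespace H25S

open MeasureTheory H83D Set Filter Topology

theorem v3_split {S T : Set Cyl} (hT : MeasurableSet T) (hS : volume S < ⊤) :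
    (volume S).toReal = (volume (S ∩ T)).toReal + (volume (S \ T)).toReal := by
  have h1 : volume (S ∩ T) ≠ ⊤ := ne_of_lt (lt_of_le_of_lt (measure_mono inter_subset_left) hS)
  have h2 : volume (S \ T) ≠ ⊤ := ne_of_lt (lt_of_le_of_lt (measure_mono sdiff_subset) hS)
  rw [← ENNReal.toReal_add h1 h2, measure_inter_add_sdiff S hT]

theorem v3_up {D : Set Cyl} (hD : Low D) : volume (D ∩ {w | 0 < w.2}) < ⊤ := by
  obtain ⟨M, _, h2⟩ := hD
  refine vol_bd (M := |M|) ?_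
  rintro w ⟨hw, hp⟩
  have h3 : w.2 < M := by
    by_contra h
    exact h2 w (not_lt.mp h) hw
  have h4 : (0 : ℝ) < w.2 := hp
  rw [abs_le]
  exact ⟨by linarith [abs_nonneg M], by linarith [le_abs_self M]⟩

theorem v3_dn {D : Set Cyl} (hD : Low D) : volume (Dᶜ ∩ {w | w.2 ≤ 0}) < ⊤ := by
  obtain ⟨M, h1, _⟩ := hD
  refine vol_bd (M := |M|) ?_
  rintro w ⟨hw, hp⟩
  have h3 : -M < w.2 := by
    by_contra h
    exact hw (h1 w (not_lt.mp h))
  have h4 : w.2 ≤ (0 : ℝ) := hp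
  rw [abs_le]
  exact ⟨by linarith [le_abs_self M], by linarith [abs_nonneg M]⟩

theorem v3_meas : MeasurableSet {w : Cyl | 0 < w.2} := measurableSet_lt measurable_const measurable_snd

theorem low_diff {D D' : Set Cyl} (hD : Low D) (hD' : Low D') : volume (D' \ D) < ⊤ := by
  obtain ⟨M₁, h1, _⟩ := hD
  obtain ⟨M₂, _, h2⟩ := hD'
  refine vol_bd (M := max |M₁| |M₂|) ?_
  rintro w ⟨hw', hw⟩
  have h3 : -M₁ < w.2 := by
    by_contra h
    exact hw (h1 w (not_lt.mp h))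
  have h4 : w.2 < M₂ := by
    by_contra h
    exact h2 w (not_lt.mp h) hw'
  rw [abs_le]
  have h5 := le_max_left |M₁| |M₂|
  have h6 := le_max_right |M₁| |M₂|
  exact ⟨by linarith [le_abs_self M₁], by linarith [le_abs_self M₂]⟩

theorem ar_diff {D D' : Set Cyl} (hD : Low D) (hD' : Low D') (mD : MeasurableSet D) (mD' : MeasurableSet D') :
    ar D' = ar D + (volume (D' \ D)).toReal - (volume (D \ D')).toReal := by
  have hP := v3_meas
  have e1 := v3_split mD (v3_up hD')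
  have e2 := v3_split mD' (v3_up hD)
  have e3 := v3_split mD (v3_dn hD')
  have e4 := v3_split mD' (v3_dn hD)
  have e5 := v3_split hP (low_diff hD hD')
  have e6 := v3_split hP (low_diff hD' hD)
  have s1 : D' ∩ {w : Cyl | 0 < w.2} ∩ D = D ∩ {w : Cyl | 0 < w.2} ∩ D' := by
    ext w
    simp only [mem_inter_iff, mem_ofPred_eq]
    tauto
  have s2 : (D' ∩ {w : Cyl | 0 < w.2}) \ D = (D' \ D) ∩ {w : Cyl | 0 < w.2} := by
    ext w
    simp only [mem_inter_iff, Set.mem_sdiff, mem_ofPred_eq]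
    tauto
  have s3 : (D ∩ {w : Cyl | 0 < w.2}) \ D' = (D \ D') ∩ {w : Cyl | 0 < w.2} := by
    ext w
    simp only [mem_inter_iff, Set.mem_sdiff, mem_ofPred_eq]
    tauto
  have s4 : D'ᶜ ∩ {w : Cyl | w.2 ≤ 0} ∩ D = (D \ D') \ {w : Cyl | 0 < w.2} := by
    ext w
    simp only [mem_inter_iff, Set.mem_sdiff, mem_compl_iff, mem_ofPred_eq, not_lt]
    tauto
  have s5 : Dᶜ ∩ {w : Cyl | w.2 ≤ 0} ∩ D' = (D' \ D) \ {w : Cyl | 0 < w.2} := by
    ext w
    simp only [mem_inter_iff, Set.mem_sdiff, mem_compl_iff, mem_ofPred_eq, not_lt]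
    tauto
  have s6 : (D'ᶜ ∩ {w : Cyl | w.2 ≤ 0}) \ D = (Dᶜ ∩ {w : Cyl | w.2 ≤ 0}) \ D' := by
    ext w
    simp only [mem_inter_iff, Set.mem_sdiff, mem_compl_iff, mem_ofPred_eq]
    tauto
  rw [s1, s2] at e1
  rw [s3] at e2
  rw [s4, s6] at e3
  rw [s5] at e4
  unfold ar
  linarith

theorem ar_mono {D D' : Set Cyl} (hD : Low D) (hD' : Low D') (mD : MeasurableSet D) (mD' : MeasurableSet D') (h : D ⊆ D') :
    ar D ≤ ar D' := by
  have h1 := ar_diff hD hD' mD mD'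
  have h2 : D \ D' = ∅ := sdiff_eq_empty.mpr h
  rw [h2, measure_empty, ENNReal.toReal_zero, sub_zero] at h1
  have h3 : 0 ≤ (volume (D' \ D)).toReal := ENNReal.toReal_nonneg
  linarith

end H25S
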