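import Pool.Agent.Lib.H25S.T5
import Pool.Agent.Lib.H25S.T14
import Pool.Agent.Lib.H25S.X1
import Pool.Agent.Lib.H83D.C3

/-!
# Chunk X2 (M)
CROSSING. `K = pr '' P`, `P` the range of the path (compact, connected), `K ⊆ A`; the periodic extension `Q` (apply `per_ext` with `A := ` the range of the path) satisfies `pr (Q t) ∈ K` (`pr_eq`). Suppose `¬ Sep K`: then `Up K = Dn K =: U` (`up_conn`, `dn_max`, `dn_conn`, `up_max`), open and connected, hence path connected; `|w.2| < M` on `K`, `M` a natural number: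
the points `(0, M)`, `(0, -M)` of `Cyl` are in `U`, joined in `Kᶜ`; lift (`path_lift`): a path from `(0,-M)` to `(j, M)` in `pr ⁻¹' Kᶜ`, `j ∈ ℤ`. Its second coordinates are bounded by a natural number `M' > M`. Add vertical segments: `(0,-M')` and `(j, M')` are joined in `B = pr ⁻¹' Kᶜ ∩ {z | |z.2| ≤ M'}`. `per_ext` with `k = (j, 2 * M')`: `Q'`.
`H83D.cross_det` (determinant `k * 2 * M' ≠ 0`): `Q s = Q' t`. Let `n = ⌊t⌋`; `Q' t - iv (n * j, n * 2 * M') ∈ B`. If `n = 0`: `pr (Q' t) ∉ K`, but `pr (Q s) ∈ K`. If `n ≠ 0`: `|(Q' t).2| ≥ 2 M' |n| - M' ≥ M' > M > |(Q s).2|`. Contradiction.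
-/

namespace H25S

open MeasureTheory H83D Set Filter Topology

theorem x2_seg {K : Set Cyl} {M M' : ℝ} (h0M : 0 ≤ M) (hM : ∀ w ∈ K, |w.2| < M) {a b c : ℝ}
    (hb : M ≤ |b|) (hc : M ≤ |c|) (hbM : |b| ≤ M') (hcM : |c| ≤ M') (hs : (0 ≤ b ∧ 0 ≤ c) ∨ (b ≤ 0 ∧ c ≤ 0)) :
    JoinedIn (pr ⁻¹' Kᶜ ∩ {z | |z.2| ≤ M'}) (a, b) (a, c) := by
  rcases hs with ⟨hb0, hc0⟩ | ⟨hb0, hc0⟩
  · have hcv : Convex ℝ {z : ℝ × ℝ | z.2 ∈ Set.Icc M M'} :=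
      (convex_Icc M M').is_linear_preimage (f := fun z : ℝ × ℝ => z.2) (LinearMap.snd ℝ ℝ ℝ).isLinear
    rw [abs_of_nonneg hb0] at hb hbM
    rw [abs_of_nonneg hc0] at hc hcM
    refine (JoinedIn.of_segment_subset (hcv.segment_subset (x := (a, b)) (y := (a, c)) ⟨hb, hbM⟩ ⟨hc, hcM⟩)).mono ?_
    intro z hz
    have h1 : M ≤ z.2 := hz.1
    have h2 : z.2 ≤ M' := hz.2
    refine ⟨fun hK => ?_, ?_⟩
    · have h3 := hM _ hK
      have h4 : |z.2| < M := h3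
      linarith [le_abs_self z.2]
    · show |z.2| ≤ M'
      rw [abs_le]
      exact ⟨by linarith, h2⟩
  · have hcv : Convex ℝ {z : ℝ × ℝ | z.2 ∈ Set.Icc (-M') (-M)} :=
      (convex_Icc (-M') (-M)).is_linear_preimage (f := fun z : ℝ × ℝ => z.2) (LinearMap.snd ℝ ℝ ℝ).isLinear
    rw [abs_of_nonpos hb0] at hb hbM
    rw [abs_of_nonpos hc0] at hc hcM
    refine (JoinedIn.of_segment_subset (hcv.segment_subset (x := (a, b)) (y := (a, c))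
      ⟨by show -M' ≤ b; linarith, by show b ≤ -M; linarith⟩ ⟨by show -M' ≤ c; linarith, by show c ≤ -M; linarith⟩)).mono ?_
    intro z hz
    have h1 : -M' ≤ z.2 := hz.1
    have h2 : z.2 ≤ -M := hz.2
    refine ⟨fun hK => ?_, ?_⟩
    · have h3 := hM _ hK
      have h4 : |z.2| < M := h3
      linarith [neg_abs_le z.2]
    · show |z.2| ≤ M'
      rw [abs_le]
      exact ⟨h1, by linarith⟩

theorem cross_sep {A : Set Cyl} {z : ℝ × ℝ} {k : ℤ} (hk : k ≠ 0) (hj : JoinedIn (pr ⁻¹' A) z (z + iv (k, 0))) :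
    ∃ K : Set Cyl, K ⊆ A ∧ IsCompact K ∧ IsConnected K ∧ Sep K := by
  obtain ⟨γ, hγ⟩ : ∃ γ : Path z (z + iv (k, 0)), ∀ t, pr (γ t) ∈ A := ⟨hj.somePath, fun t => hj.somePath_mem t⟩
  have cγ : Continuous γ := γ.continuous
  obtain ⟨K, hK⟩ : ∃ K : Set Cyl, K = pr '' Set.range γ := ⟨_, rfl⟩
  have K1 : IsCompact K := by
    rw [hK]
    exact (isCompact_range cγ).image pr_cont
  have K2 : IsConnected K := by
    rw [hK]
    exact (isConnected_range cγ).image _ pr_cont.continuousOn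
  refine ⟨K, ?_, K1, K2, ?_⟩
  · rw [hK]
    rintro _ ⟨_, ⟨t, rfl⟩, rfl⟩
    exact hγ t
  have hjP : JoinedIn (Set.range γ) z (z + iv (k, 0)) := ⟨γ, fun t => Set.mem_range_self t⟩
  obtain ⟨Q, cQ, pQ, hQ⟩ := per_ext hjP
  have prQ : ∀ t, pr (Q t) ∈ K := by
    intro t
    rw [hK]
    refine ⟨_, hQ t, ?_⟩
    rw [pr_eq]
    exact ⟨⌊t⌋ * k, by simp⟩
  by_contra hs
  have hne : (Up K ∩ Dn K).Nonempty := by
    by_contra hcon
    exact hs (Set.disjoint_iff_inter_eq_empty.mpr (Set.not_nonempty_iff_eq_empty.mp hcon))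
  have hsub : Dn K ⊆ Up K :=
    up_max (dn_conn K1).isPreconnected (dn_disj K) (by rw [Set.inter_comm]; exact hne)
  obtain ⟨M0, hM00, hM0⟩ := cpt_bd K1
  obtain ⟨N, hN⟩ := exists_nat_gt M0
  have hNpos : (0 : ℝ) < N := lt_trans hM00 hN
  have hM : ∀ w ∈ K, |w.2| < (N : ℝ) := fun w hw => (hM0 w hw).trans hN
  have u1 : ((0 : AddCircle (1 : ℝ)), (N : ℝ)) ∈ Up K :=
    up_end (M := (N : ℝ)) (fun w hw => (le_abs_self _).trans_lt (hM w hw)) _ le_rfl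
  have u2 : ((0 : AddCircle (1 : ℝ)), (-N : ℝ)) ∈ Up K :=
    hsub (dn_end (M := (-N : ℝ)) (fun w hw => by linarith [neg_abs_le w.2, hM w hw]) _ le_rfl)
  have hop : IsOpen (Up K) := up_open K1.isClosed
  have hpc : IsPathConnected (Up K) := (hop.isConnected_iff_isPathConnected).mp (up_conn K1)
  have hUK : Up K ⊆ Kᶜ := Set.disjoint_left.mp (up_disj K)
  have hjU : JoinedIn Kᶜ ((0 : AddCircle (1 : ℝ)), (-N : ℝ)) ((0 : AddCircle (1 : ℝ)), (N : ℝ)) :=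
    (hpc.joinedIn _ u2 _ u1).mono hUK
  have hz0 : pr ((0 : ℝ), (-N : ℝ)) = ((0 : AddCircle (1 : ℝ)), (-N : ℝ)) := by
    unfold pr
    simp
  obtain ⟨z', hz', hjz⟩ := path_lift hjU hz0
  obtain ⟨j, hj'⟩ : ∃ j : ℤ, z' = ((0 : ℝ), (N : ℝ)) + iv (j, 0) := by
    rw [← pr_eq, hz']
    unfold pr
    simp
  have hz'1 : z' = ((j : ℝ), (N : ℝ)) := by
    rw [hj']
    unfold iv
    ext <;> simp
  subst hz'1
  obtain ⟨β, hβ⟩ : ∃ β : Path ((0 : ℝ), (-N : ℝ)) ((j : ℝ), (N : ℝ)), ∀ t, β t ∈ pr ⁻¹' Kᶜ :=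
    ⟨hjz.somePath, fun t => hjz.somePath_mem t⟩
  obtain ⟨B, hB⟩ : ∃ B : ℝ, ∀ t, |(β t).2| ≤ B := by
    have hc : IsCompact (Set.range fun t => |(β t).2|) :=
      isCompact_range (continuous_abs.comp (continuous_snd.comp β.continuous))
    obtain ⟨B, hB⟩ := hc.bddAbove
    exact ⟨B, fun t => hB ⟨t, rfl⟩⟩
  obtain ⟨N', hN'⟩ := exists_nat_gt (max (N : ℝ) B)
  have hNN : (N : ℝ) < N' := (le_max_left _ _).trans_lt hN'
  have hBN : B < N' := (le_max_right _ _).trans_lt hN'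
  have j1 : JoinedIn (pr ⁻¹' Kᶜ ∩ {z | |z.2| ≤ (N' : ℝ)}) ((0 : ℝ), (-N : ℝ)) ((j : ℝ), (N : ℝ)) :=
    ⟨β, fun t => ⟨hβ t, (hB t).trans hBN.le⟩⟩
  have j0 : JoinedIn (pr ⁻¹' Kᶜ ∩ {z | |z.2| ≤ (N' : ℝ)}) ((0 : ℝ), (-N' : ℝ)) ((0 : ℝ), (-N : ℝ)) := by
    refine x2_seg hNpos.le hM ?_ ?_ ?_ ?_ (Or.inr ⟨by linarith, by linarith⟩)
    · rw [abs_neg, abs_of_pos (by linarith)]; exact hNN.le
    · rw [abs_neg, abs_of_pos hNpos]
    · rw [abs_neg, abs_of_pos (by linarith)]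
    · rw [abs_neg, abs_of_pos hNpos]; exact hNN.le
  have j2 : JoinedIn (pr ⁻¹' Kᶜ ∩ {z | |z.2| ≤ (N' : ℝ)}) ((j : ℝ), (N : ℝ)) ((j : ℝ), (N' : ℝ)) := by
    refine x2_seg hNpos.le hM ?_ ?_ ?_ ?_ (Or.inl ⟨by linarith, by linarith⟩)
    · rw [abs_of_pos hNpos]
    · rw [abs_of_pos (by linarith)]; exact hNN.le
    · rw [abs_of_pos hNpos]; exact hNN.le
    · rw [abs_of_pos (by linarith)]
  have j3 : JoinedIn (pr ⁻¹' Kᶜ ∩ {z | |z.2| ≤ (N' : ℝ)}) ((0 : ℝ), (-N' : ℝ))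
      (((0 : ℝ), (-N' : ℝ)) + iv (j, 2 * N')) := by
    have he : (((0 : ℝ), (-N' : ℝ)) + iv (j, 2 * N')) = ((j : ℝ), (N' : ℝ)) := by
      unfold iv
      ext
      · simp
      · simp
        ring
    rw [he]
    exact (j0.trans j1).trans j2
  obtain ⟨Q', cQ', pQ', hQ'⟩ := per_ext j3
  have hdet : ((k, 0) : ℤ × ℤ).1 * ((j, 2 * (N' : ℤ)) : ℤ × ℤ).2 - ((k, 0) : ℤ × ℤ).2 * ((j, 2 * (N' : ℤ)) : ℤ × ℤ).1 ≠ 0 := by
    have hN'0 : (N' : ℤ) ≠ 0 := by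
      have : (0 : ℝ) < N' := by linarith
      exact_mod_cast this.ne'
    simp only [zero_mul, sub_zero]
    exact mul_ne_zero hk (mul_ne_zero two_ne_zero hN'0)
  obtain ⟨s, t, hst⟩ := H83D.cross_det cQ cQ' pQ pQ' hdet
  have hy := hQ' t
  have hQs := prQ s
  have h1 : |(Q s).2| < (N : ℝ) := hM _ hQs
  by_cases hn : ⌊t⌋ = 0
  · refine hy.1 ?_
    have h2 : Q' t - iv (⌊t⌋ * ((j, 2 * (N' : ℤ)) : ℤ × ℤ).1, ⌊t⌋ * ((j, 2 * (N' : ℤ)) : ℤ × ℤ).2) = Q' t := by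
      rw [hn]
      unfold iv
      ext <;> simp
    rw [h2, ← hst]
    exact hQs
  · have h2 : |(Q' t).2 - ⌊t⌋ * (2 * (N' : ℝ))| ≤ (N' : ℝ) := by
      have h3 := hy.2
      have h4 : (Q' t - iv (⌊t⌋ * ((j, 2 * (N' : ℤ)) : ℤ × ℤ).1, ⌊t⌋ * ((j, 2 * (N' : ℤ)) : ℤ × ℤ).2)).2 =
          (Q' t).2 - ⌊t⌋ * (2 * (N' : ℝ)) := by
        unfold iv
        simp
      rw [← h4]
      exact h3
    rw [← hst] at h2
    have h5 : (1 : ℝ) ≤ |(⌊t⌋ : ℝ)| := by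
      have := Int.one_le_abs hn
      exact_mod_cast this
    have h6 : |(⌊t⌋ : ℝ) * (2 * (N' : ℝ))| = |(⌊t⌋ : ℝ)| * (2 * (N' : ℝ)) := by
      rw [abs_mul, abs_of_pos (a := 2 * (N' : ℝ)) (by linarith)]
    have h7 : |(⌊t⌋ : ℝ) * (2 * (N' : ℝ))| ≤ |(Q s).2 - ⌊t⌋ * (2 * (N' : ℝ))| + |(Q s).2| := by
      have := abs_sub_abs_le_abs_sub ((⌊t⌋ : ℝ) * (2 * (N' : ℝ))) ((Q s).2)
      rw [abs_sub_comm] at this
      linarith
    have h8 : 1 * (2 * (N' : ℝ)) ≤ |(⌊t⌋ : ℝ)| * (2 * (N' : ℝ)) :=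
      mul_le_mul_of_nonneg_right h5 (by linarith)
    linarith

end H25S
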