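import Pool.Agent.Lib.H25S.Defs
import Pool.Agent.Lib.H83D.D1

/-!
# H25S, block Z: arcs in all directions, part 1
Copy of `H83D` B1 - B7 with `Adm h` replaced by the abstract condition `AC h`.
-/

namespace H25S

open H83D

/-- Continuous, periodic, with arcs in all directions. -/
structure AC (h : ℝ × ℝ → ℝ) : Prop where
  cont : Continuous h
  per : ∀ (x : ℝ × ℝ) (k : ℤ × ℤ), h (x + iv k) = h x
  arcs : Arcs h

/-- The situation to be refuted (as `H83D.Ctx`). -/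
structure ZCtx (h : ℝ × ℝ → ℝ) (τ : ℝ) (x₀ : ℝ × ℝ) : Prop where
  adm : AC h
  low : τ + 15 < h x₀
  dis : ∀ (q : ℝ × ℝ) (k : ℤ × ℤ), Rch h τ x₀ q → Rch h τ x₀ (q + iv k) → k = 0

theorem z_arcs_lm {h : ℝ × ℝ → ℝ} (hA : Arcs h) {p q r s e : ℤ} (hd : p * s - q * r = e) (he : e * e = 1) :
    Arcs (fun x => h (lm p q r s x)) := by
  intro v hv y
  obtain ⟨a, b, hab⟩ := hv
  obtain ⟨w, hw⟩ : ∃ w : ℤ × ℤ, w = (v.1 * (e * s) + v.2 * (-(e * r)), v.1 * (-(e * q)) + v.2 * (e * p)) := ⟨_, rfl⟩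
  have hw1 : w.1 * p + w.2 * r = v.1 := by
    rw [hw]
    show (v.1 * (e * s) + v.2 * (-(e * r))) * p + (v.1 * (-(e * q)) + v.2 * (e * p)) * r = v.1
    linear_combination (v.1 * e) * hd + v.1 * he
  have hw2 : w.1 * q + w.2 * s = v.2 := by
    rw [hw]
    show (v.1 * (e * s) + v.2 * (-(e * r))) * q + (v.1 * (-(e * q)) + v.2 * (e * p)) * s = v.2
    linear_combination (v.2 * e) * hd + v.2 * he
  have hcop : IsCoprime w.1 w.2 := by
    refine ⟨a * p + b * q, a * r + b * s, ?_⟩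
    linear_combination hab + a * hw1 + b * hw2
  have hlf : ∀ x, lf w (lm p q r s x) = lf v x := by
    intro x
    have k1 : ((w.1 * p + w.2 * r : ℤ) : ℝ) = (v.1 : ℝ) := by rw [hw1]
    have k2 : ((w.1 * q + w.2 * s : ℤ) : ℝ) = (v.2 : ℝ) := by rw [hw2]
    push_cast at k1 k2
    unfold lf lm
    linear_combination x.1 * k1 + x.2 * k2
  obtain ⟨γ, cγ, γ0, γv, γh⟩ := hA w hcop (lm p q r s y)
  have hi : ∀ x, lm p q r s (lm (e * s) (-(e * q)) (-(e * r)) (e * p) x) = x := fun x => (lm_inv hd he x).2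
  have hi' : ∀ x, lm (e * s) (-(e * q)) (-(e * r)) (e * p) (lm p q r s x) = x := fun x => (lm_inv hd he x).1
  refine ⟨fun c => lm (e * s) (-(e * q)) (-(e * r)) (e * p) (γ c), (lm_cont _ _ _ _).comp cγ, ?_, ?_, ?_⟩
  · show lm (e * s) (-(e * q)) (-(e * r)) (e * p) (γ 0) = y
    rw [γ0, hi']
  · intro c
    show lf v (lm (e * s) (-(e * q)) (-(e * r)) (e * p) (γ c)) = lf v y + c
    rw [← hlf, hi, γv, hlf]
  · intro c hc
    show h (lm p q r s y) - max |c| 1 ≤ h (lm p q r s (lm (e * s) (-(e * q)) (-(e * r)) (e * p) (γ c)))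
    rw [hi]
    exact γh c hc

theorem z_ac_lm {h : ℝ × ℝ → ℝ} (hA : AC h) {p q r s e : ℤ} (hd : p * s - q * r = e) (he : e * e = 1) :
    AC (fun x => h (lm p q r s x)) := by
  refine ⟨hA.cont.comp (lm_cont _ _ _ _), fun x k => ?_, z_arcs_lm hA.arcs hd he⟩
  show h (lm p q r s (x + iv k)) = h (lm p q r s x)
  rw [lm_add]
  exact hA.per _ _

/-- The arc in the direction `(1, 0)`. -/
theorem z_arc_two {h : ℝ × ℝ → ℝ} (hA : AC h) (y : ℝ × ℝ) :
    ∃ g : ℝ → ℝ, Continuous g ∧ g 0 = 0 ∧ ∀ c, |c| ≤ 20 → h y - max |c| 1 ≤ h (y + (c, g c)) := by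
  obtain ⟨γ, cγ, γ0, γv, γh⟩ := hA.arcs (1, 0) isCoprime_one_left y
  have h1 : ∀ c, (γ c).1 = y.1 + c := by
    intro c
    have := γv c
    unfold lf at this
    simpa using this
  refine ⟨fun c => (γ c).2 - y.2, by fun_prop, ?_, fun c hc => ?_⟩
  · show (γ 0).2 - y.2 = 0
    rw [γ0]
    ring
  have h2 : y + (c, (γ c).2 - y.2) = γ c := by
    ext
    · show y.1 + c = (γ c).1
      rw [h1]
    · show y.2 + ((γ c).2 - y.2) = (γ c).2
      ring
  rw [h2]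
  exact γh c hc

theorem z_ctx_lm {h : ℝ × ℝ → ℝ} {τ : ℝ} {x₀ : ℝ × ℝ} (hC : ZCtx h τ x₀) {p q r s e : ℤ} (hd : p * s - q * r = e)
    (he : e * e = 1) : ZCtx (fun x => h (lm p q r s x)) τ (lm (e * s) (-(e * q)) (-(e * r)) (e * p) x₀) := by
  refine ⟨z_ac_lm hC.adm hd he, ?_, ?_⟩
  · show τ + 15 < h (lm p q r s (lm (e * s) (-(e * q)) (-(e * r)) (e * p) x₀))
    rw [(lm_inv hd he x₀).2]
    exact hC.low
  · intro u k h1 h2
    rw [rch_lm hd he, (lm_inv hd he x₀).2] at h1 h2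
    rw [lm_add] at h2
    have h3 := hC.dis _ _ h1 h2
    rw [Prod.mk_eq_zero] at h3
    obtain ⟨k4, k5⟩ := h3
    have he0 : e ≠ 0 := by
      rintro rfl
      norm_num at he
    have k6 : e * k.1 = 0 := by rw [← hd]; linear_combination s * k4 - q * k5
    have k7 : e * k.2 = 0 := by rw [← hd]; linear_combination p * k5 - r * k4
    exact Prod.ext ((mul_eq_zero.1 k6).resolve_left he0) ((mul_eq_zero.1 k7).resolve_left he0)

theorem z_osc_up {h : ℝ × ℝ → ℝ} {τ : ℝ} {x₀ : ℝ × ℝ} (hC : ZCtx h τ x₀) {f : ℝ → ℝ} (hf : Continuous f) {r : ℝ}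
    (hr : ∀ x, r - 1 ≤ x → x ≤ r + 1 → Rch h τ x₀ (x, f x) ∧ τ + 1 < h (x, f x)) {y : ℝ} (h1 : r - 1 ≤ y)
    (h2 : y ≤ r + 1) : f y ≤ max (f (r - 1)) (f (r + 1)) + 1 := by
  obtain ⟨p, hp, hmax⟩ := isCompact_Icc.exists_isMaxOn (s := Set.Icc (r - 1) (r + 1)) ⟨r, by constructor <;> linarith⟩
    hf.continuousOn
  have hmax' : ∀ x ∈ Set.Icc (r - 1) (r + 1), f x ≤ f p := fun x hx => hmax hx
  have hcop : IsCoprime ((0, 1) : ℤ × ℤ).1 ((0, 1) : ℤ × ℤ).2 := isCoprime_one_right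
  obtain ⟨γ, cγ, γ0, γv, γh⟩ := hC.adm.arcs (0, 1) hcop (p, f p)
  have γ2 : ∀ t, (γ t).2 = f p + t := by
    intro t
    have := γv t
    unfold lf at this
    simpa using this
  obtain ⟨hp1, hp2⟩ := hr p hp.1 hp.2
  have hreach : ∀ t ∈ Set.Icc (0 : ℝ) 1, Rch h τ x₀ (γ t) := by
    intro t ht
    have j1 : JoinedIn {z | τ < h z} (γ 0) (γ t) := by
      refine joined_curve cγ fun u hu => ?_
      rw [Set.uIcc_of_le ht.1] at hu
      show τ < h (γ u)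
      have h3 := γh u (by rw [abs_of_nonneg hu.1]; linarith [hu.2, ht.2])
      rw [abs_of_nonneg hu.1, max_eq_right (by linarith [hu.2, ht.2])] at h3
      linarith [hu.2, ht.2]
    rw [γ0] at j1
    exact JoinedIn.trans hp1 j1
  obtain ⟨c, hc⟩ : ∃ c : ℝ → ℝ, ∀ t, c t = max (r - 1) (min (r + 1) (γ t).1) := ⟨_, fun _ => rfl⟩
  have cc : Continuous c := by
    have : c = fun t => max (r - 1) (min (r + 1) (γ t).1) := funext hc
    rw [this]
    fun_prop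
  have cm : ∀ t, c t ∈ Set.Icc (r - 1) (r + 1) := by
    intro t
    rw [hc]
    exact ⟨le_max_left _ _, max_le (by linarith) (min_le_left _ _)⟩
  have cF : Continuous fun t => f (c t) + 1 - (f p + t) := by fun_prop
  have F0 : 0 ≤ f (c 0) + 1 - (f p + 0) := by
    have e1 : c 0 = p := by
      rw [hc, γ0, min_eq_right hp.2, max_eq_right hp.1]
    rw [e1]
    linarith
  have F1 : f (c 1) + 1 - (f p + 1) ≤ 0 := by
    have := hmax' _ (cm 1)
    linarith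
  obtain ⟨t, ht, hFt⟩ := intermediate_value_Icc' (zero_le_one' ℝ) cF.continuousOn ⟨F1, F0⟩
  have hFt' : f (c t) + 1 = f p + t := by
    have : f (c t) + 1 - (f p + t) = 0 := hFt
    linarith
  have hyp : f y ≤ f p := hmax' y ⟨h1, h2⟩
  rcases lt_or_ge (γ t).1 (r - 1) with k | k
  · have e1 : c t = r - 1 := by
      rw [hc, min_eq_right (by linarith), max_eq_left k.le]
    rw [e1] at hFt'
    have := le_max_left (f (r - 1)) (f (r + 1))
    linarith [ht.1]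
  · rcases lt_or_ge (r + 1) (γ t).1 with k' | k'
    · have e1 : c t = r + 1 := by
        rw [hc, min_eq_left k'.le, max_eq_right (by linarith)]
      rw [e1] at hFt'
      have := le_max_right (f (r - 1)) (f (r + 1))
      linarith [ht.1]
    · exfalso
      have e1 : c t = (γ t).1 := by
        rw [hc, min_eq_right k', max_eq_right k]
      have e2 : γ t = ((γ t).1, f (γ t).1) + iv (0, 1) := by
        ext
        · show (γ t).1 = (γ t).1 + ((0 : ℤ) : ℝ)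
          norm_num
        · show (γ t).2 = f (γ t).1 + ((1 : ℤ) : ℝ)
          rw [γ2, ← hFt', e1]
          norm_num
      have h3 := (hr _ k k').1
      have h4 := hreach t ht
      rw [e2] at h4
      have h5 := hC.dis _ _ h3 h4
      rw [Prod.mk_eq_zero] at h5
      exact one_ne_zero h5.2

theorem z_osc_down {h : ℝ × ℝ → ℝ} {τ : ℝ} {x₀ : ℝ × ℝ} (hC : ZCtx h τ x₀) {f : ℝ → ℝ} (hf : Continuous f) {r : ℝ}
    (hr : ∀ x, r - 1 ≤ x → x ≤ r + 1 → Rch h τ x₀ (x, f x) ∧ τ + 1 < h (x, f x)) {y : ℝ} (h1 : r - 1 ≤ y)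
    (h2 : y ≤ r + 1) : min (f (r - 1)) (f (r + 1)) - 1 ≤ f y := by
  have hd : (1 : ℤ) * (-1) - 0 * 0 = -1 := by norm_num
  have he : (-1 : ℤ) * (-1) = 1 := by norm_num
  have hC' := z_ctx_lm hC hd he
  have e1 : ∀ x : ℝ, lm 1 0 0 (-1) (x, -f x) = (x, f x) := by
    intro x
    unfold lm
    ext <;> simp
  have key := z_osc_up hC' (f := fun x => -f x) (by fun_prop) (r := r) (fun x hx1 hx2 => ?_) h1 h2
  · have e2 : max (-f (r - 1)) (-f (r + 1)) = -min (f (r - 1)) (f (r + 1)) := by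
      rw [max_neg_neg]
    rw [e2] at key
    linarith
  · obtain ⟨k1, k2⟩ := hr x hx1 hx2
    refine ⟨?_, ?_⟩
    · rw [rch_lm hd he, (lm_inv hd he x₀).2, e1]
      exact k1
    · show τ + 1 < h (lm 1 0 0 (-1) (x, -f x))
      rw [e1]
      exact k2

theorem z_int_gap {h : ℝ × ℝ → ℝ} {τ : ℝ} {x₀ : ℝ × ℝ} (hC : ZCtx h τ x₀) {f : ℝ → ℝ} (hf : Continuous f) {a b : ℝ}
    (hr : ∀ x, a ≤ x → x ≤ b → Rch h τ x₀ (x, f x)) :
    ∃ k : ℤ, ∀ x, a ≤ x → x + 1 ≤ b → (k : ℝ) < f (x + 1) - f x ∧ f (x + 1) - f x < k + 1 := by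
  have hG : Continuous fun x => f (x + 1) - f x := by fun_prop
  have hno : ∀ x, a ≤ x → x + 1 ≤ b → ∀ j : ℤ, f (x + 1) - f x ≠ j := by
    intro x hx hxb j hj
    have h1 := hr x hx (by linarith)
    have h2 := hr (x + 1) (by linarith) hxb
    have h3 : ((x + 1, f (x + 1)) : ℝ × ℝ) = (x, f x) + iv (1, j) := by
      ext
      · show x + 1 = x + ((1 : ℤ) : ℝ)
        norm_num
      · show f (x + 1) = f x + (j : ℝ)
        linarith
    rw [h3] at h2
    have h4 := hC.dis _ _ h1 h2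
    rw [Prod.mk_eq_zero] at h4
    exact one_ne_zero h4.1
  refine ⟨⌊f (a + 1) - f a⌋, fun x hx hxb => ?_⟩
  have hfl := Int.floor_le (f (a + 1) - f a)
  have hfu := Int.lt_floor_add_one (f (a + 1) - f a)
  constructor
  · by_contra hc
    push Not at hc
    obtain ⟨z, hz, hzk⟩ := intermediate_value_Icc' hx hG.continuousOn ⟨hc, hfl⟩
    exact hno z hz.1 (by linarith [hz.2]) _ hzk
  · by_contra hc
    push Not at hc
    obtain ⟨z, hz, hzk⟩ := intermediate_value_Icc hx hG.continuousOn ⟨hfu.le, hc⟩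
    refine hno z hz.1 (by linarith [hz.2]) (⌊f (a + 1) - f a⌋ + 1) ?_
    push_cast
    exact hzk

theorem z_near_graph {h : ℝ × ℝ → ℝ} {τ : ℝ} {x₀ : ℝ × ℝ} (hC : ZCtx h τ x₀) {f : ℝ → ℝ} (hf : Continuous f) {a b : ℝ}
    (hr : ∀ x, a ≤ x → x ≤ b → Rch h τ x₀ (x, f x)) {K : Set (ℝ × ℝ)} (hK : IsPreconnected K)
    (hQ : ∀ x ∈ K, Rch h τ x₀ x) (hab : ∀ x ∈ K, a ≤ x.1 ∧ x.1 ≤ b) {y : ℝ × ℝ} (hy : y ∈ K) (hy2 : y.2 = f y.1) :
    ∀ x ∈ K, |x.2 - f x.1| < 1 := by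
  have hφ : Continuous fun x : ℝ × ℝ => x.2 - f x.1 := by fun_prop
  have hno : ∀ x ∈ K, ∀ j : ℤ, j ≠ 0 → x.2 - f x.1 ≠ j := by
    intro x hx j hj hxj
    have h1 := hr x.1 (hab x hx).1 (hab x hx).2
    have h2 := hQ x hx
    have h3 : x = (x.1, f x.1) + iv (0, j) := by
      ext
      · show x.1 = x.1 + ((0 : ℤ) : ℝ)
        norm_num
      · show x.2 = f x.1 + (j : ℝ)
        linarith
    rw [h3] at h2
    have h4 := hC.dis _ _ h1 h2
    rw [Prod.mk_eq_zero] at h4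
    exact hj h4.2
  have hI : IsPreconnected ((fun x : ℝ × ℝ => x.2 - f x.1) '' K) := hK.image _ hφ.continuousOn
  have hO := hI.ordConnected
  have h0 : (0 : ℝ) ∈ (fun x : ℝ × ℝ => x.2 - f x.1) '' K := ⟨y, hy, by show y.2 - f y.1 = 0; linarith⟩
  intro x hx
  rw [abs_lt]
  have hx' : x.2 - f x.1 ∈ (fun x : ℝ × ℝ => x.2 - f x.1) '' K := ⟨x, hx, rfl⟩
  constructor
  · by_contra hc
    push Not at hc
    obtain ⟨z, hz, hz1⟩ := hO.out hx' h0 ⟨hc, by norm_num⟩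
    refine hno z hz (-1) (by norm_num) ?_
    push_cast
    exact hz1
  · by_contra hc
    push Not at hc
    obtain ⟨z, hz, hz1⟩ := hO.out h0 hx' ⟨by norm_num, hc⟩
    refine hno z hz 1 (by norm_num) ?_
    push_cast
    exact hz1

theorem z_key_shear {h : ℝ × ℝ → ℝ} {τ : ℝ} {x₀ : ℝ × ℝ} (hC : ZCtx h τ x₀) {f : ℝ → ℝ} (hf : Continuous f) {c1 c2 : ℝ}
    (hL : c2 - c1 ≤ 13)
    (hr : ∀ x, c1 - 1 ≤ x → x ≤ c2 + 1 → Rch h τ x₀ (x, f x) ∧ τ + 1 < h (x, f x))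
    (h01 : ∀ x, c1 - 1 ≤ x → x ≤ c2 → 0 < f (x + 1) - f x ∧ f (x + 1) - f x < 1) :
    (∀ x ∈ Set.Icc c1 c2, ∀ y ∈ Set.Icc c1 c2, f x - f y ≤ 21 / 2) ∨
      (∀ x ∈ Set.Icc c1 c2, ∀ y ∈ Set.Icc c1 c2, (x - f x) - (y - f y) ≤ 21 / 2) := by
  have H2 : ∀ x y, c1 ≤ x → x ≤ y → y ≤ c2 → y ≤ x + 1 → |f y - f x| < 2 := by
    intro x y hx hxy hy hyx
    have hr' : ∀ z, x - 1 ≤ z → z ≤ x + 1 → Rch h τ x₀ (z, f z) ∧ τ + 1 < h (z, f z) :=
      fun z h1 h2 => hr z (by linarith) (by linarith)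
    have a1 := z_osc_up hC hf hr' (y := y) (by linarith) hyx
    have a2 := z_osc_down hC hf hr' (y := y) (by linarith) hyx
    obtain ⟨b1, b2⟩ := h01 x (by linarith) (by linarith)
    obtain ⟨b3, b4⟩ := h01 (x - 1) (by linarith) (by linarith)
    rw [sub_add_cancel] at b3 b4
    have c1' : max (f (x - 1)) (f (x + 1)) < f x + 1 := max_lt (by linarith) (by linarith)
    have c2' : f x - 1 < min (f (x - 1)) (f (x + 1)) := lt_min (by linarith) (by linarith)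
    rw [abs_lt]
    constructor <;> linarith
  have H1 : ∀ x, c1 ≤ x → x + 1 ≤ c2 → f x < f (x + 1) ∧ f (x + 1) < f x + 1 := by
    intro x h1 h2
    obtain ⟨b1, b2⟩ := h01 x (by linarith) (by linarith)
    constructor <;> linarith
  rcases osc_range H1 H2 with h | h
  · exact Or.inl fun x hx y hy => (h x hx y hy).trans (by linarith)
  · exact Or.inr fun x hx y hy => (h x hx y hy).trans (by linarith)

theorem z_key_one {h : ℝ × ℝ → ℝ} {τ : ℝ} {x₀ : ℝ × ℝ} (hC : ZCtx h τ x₀) {K : Set (ℝ × ℝ)} (hK : IsPreconnected K)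
    (h0 : x₀ ∈ K) (hQ : ∀ x ∈ K, Rch h τ x₀ x) {c1 c2 : ℝ} (hL : c2 - c1 ≤ 13)
    (hc : ∀ x ∈ K, c1 ≤ x.1 ∧ x.1 ≤ c2) : ∃ v : ℤ × ℤ, IsCoprime v.1 v.2 ∧ Wle v K (25 / 2) := by
  obtain ⟨g, cg, g0, hg⟩ := z_arc_two hC.adm x₀
  obtain ⟨f, hf⟩ : ∃ f : ℝ → ℝ, ∀ x, f x = x₀.2 + g (x - x₀.1) := ⟨_, fun _ => rfl⟩
  have cf : Continuous f := by
    have : f = fun x => x₀.2 + g (x - x₀.1) := funext hf
    rw [this]
    fun_prop
  have hfx : ∀ x, x₀ + (x - x₀.1, g (x - x₀.1)) = (x, f x) := by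
    intro x
    rw [hf]
    ext
    · show x₀.1 + (x - x₀.1) = x
      ring
    · rfl
  have hhf : ∀ x, |x - x₀.1| ≤ 14 → h x₀ - 14 ≤ h (x, f x) := by
    intro x hx
    have := hg (x - x₀.1) (by linarith)
    rw [hfx] at this
    have h2 : max |x - x₀.1| 1 ≤ 14 := max_le hx (by norm_num)
    linarith
  have hx0 := hc x₀ h0
  have hlow := hC.low
  have hr : ∀ x, c1 - 1 ≤ x → x ≤ c2 + 1 → Rch h τ x₀ (x, f x) ∧ τ + 1 < h (x, f x) := by
    intro x h1 h2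
    have habs : |x - x₀.1| ≤ 14 := by
      rw [abs_le]
      constructor <;> linarith
    have hk := hhf x habs
    refine ⟨?_, by linarith⟩
    have cγ : Continuous fun t : ℝ => ((t, f t) : ℝ × ℝ) := by fun_prop
    have j1 : JoinedIn {z | τ < h z} ((x₀.1, f x₀.1) : ℝ × ℝ) ((x, f x) : ℝ × ℝ) := by
      refine joined_curve (a := x₀.1) (b := x) cγ fun t ht => ?_
      show τ < h (t, f t)
      have h4 : |t - x₀.1| ≤ |x - x₀.1| := by
        have := Set.abs_sub_left_of_mem_uIcc ht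
        exact this
      have h3 := hhf t (by linarith)
      linarith
    have e1 : ((x₀.1, f x₀.1) : ℝ × ℝ) = x₀ := by
      rw [hf, sub_self, g0, add_zero]
    rw [e1] at j1
    exact j1
  obtain ⟨k, hk⟩ := z_int_gap hC cf (a := c1 - 1) (b := c2 + 1) fun x h1 h2 => (hr x h1 h2).1
  have hng := z_near_graph hC cf (a := c1 - 1) (b := c2 + 1) (fun x h1 h2 => (hr x h1 h2).1) hK hQ
    (fun x hx => ⟨by linarith [(hc x hx).1], by linarith [(hc x hx).2]⟩) h0 (by rw [hf, sub_self, g0, add_zero])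
  have hd : (1 : ℤ) * 1 - 0 * k = 1 := by ring
  have he : (1 : ℤ) * 1 = 1 := by norm_num
  have hC' := z_ctx_lm hC hd he
  have e1 : ∀ x : ℝ, lm 1 0 k 1 (x, f x - k * x) = (x, f x) := by
    intro x
    unfold lm
    ext
    · simp
    · simp
  have key := z_key_shear hC' (f := fun x => f x - k * x) (by fun_prop) hL (fun x h1 h2 => ?_) (fun x h1 h2 => ?_)
  · rcases key with key | key
    · refine ⟨(-k, 1), ⟨0, 1, by norm_num⟩, fun x hx y hy => ?_⟩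
      have a1 := abs_lt.1 (hng x hx)
      have a2 := abs_lt.1 (hng y hy)
      have a3 := key x.1 ⟨(hc x hx).1, (hc x hx).2⟩ y.1 ⟨(hc y hy).1, (hc y hy).2⟩
      unfold lf
      push_cast
      linarith [a1.2, a2.1]
    · refine ⟨(1 + k, -1), ⟨0, -1, by norm_num⟩, fun x hx y hy => ?_⟩
      have a1 := abs_lt.1 (hng x hx)
      have a2 := abs_lt.1 (hng y hy)
      have a3 := key x.1 ⟨(hc x hx).1, (hc x hx).2⟩ y.1 ⟨(hc y hy).1, (hc y hy).2⟩
      unfold lf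
      push_cast
      linarith [a1.1, a2.2]
  · obtain ⟨k1, k2⟩ := hr x h1 h2
    refine ⟨?_, ?_⟩
    · rw [rch_lm hd he, (lm_inv hd he x₀).2, e1]
      exact k1
    · show τ + 1 < h (lm 1 0 k 1 (x, f x - k * x))
      rw [e1]
      exact k2
  · obtain ⟨k1, k2⟩ := hk x h1 (by linarith)
    constructor
    · linarith
    · linarith

end H25S
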