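import Pool.Agent.Lib.H25S.ZA

/-!
# H25S, block Z: arcs in all directions, part 2
Copy of `H83D` B7 - B11 for `AC h`.
-/

namespace H25S

open H83D

theorem z_key_star {h : ℝ × ℝ → ℝ} {τ : ℝ} {x₀ : ℝ × ℝ} (hC : ZCtx h τ x₀) {K : Set (ℝ × ℝ)} (hK : IsPreconnected K)
    (h0 : x₀ ∈ K) (hQ : ∀ x ∈ K, Rch h τ x₀ x) {v : ℤ × ℤ} (hv : IsCoprime v.1 v.2) (hw : Wle v K 13) :
    ∃ v' : ℤ × ℤ, IsCoprime v'.1 v'.2 ∧ Wle v' K (25 / 2) := by
  obtain ⟨s, r', hsr⟩ := hv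
  obtain ⟨r, hr⟩ : ∃ r, r = -r' := ⟨_, rfl⟩
  have hd : v.1 * s - v.2 * r = 1 := by rw [hr]; linarith
  have hd' : s * v.1 - (-v.2) * (-r) = 1 := by linarith
  have he : (1 : ℤ) * 1 = 1 := by norm_num
  have hA : ∀ x, lm s (-v.2) (-r) v.1 (lm v.1 v.2 r s x) = x := by
    intro x
    have := (lm_inv hd he x).1
    simpa using this
  have hC' := z_ctx_lm hC hd' he
  have hb : ∀ x, lm (1 * v.1) (-(1 * (-v.2))) (-(1 * (-r))) (1 * s) x = lm v.1 v.2 r s x := by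
    intro x
    simp
  rw [hb] at hC'
  obtain ⟨i, hi⟩ : ∃ i, i = sInf (lf v '' K) := ⟨_, rfl⟩
  have hbdd : BddBelow (lf v '' K) := by
    refine ⟨lf v x₀ - 13, ?_⟩
    rintro _ ⟨x, hx, rfl⟩
    have := hw x₀ h0 x hx
    linarith
  have hne : (lf v '' K).Nonempty := ⟨_, x₀, h0, rfl⟩
  have hi1 : ∀ x ∈ K, i ≤ lf v x := fun x hx => by rw [hi]; exact csInf_le hbdd ⟨x, hx, rfl⟩
  have hi2 : ∀ x ∈ K, lf v x ≤ i + 13 := by
    intro x hx
    have : lf v x - 13 ≤ i := by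
      rw [hi]
      refine le_csInf hne ?_
      rintro _ ⟨z, hz, rfl⟩
      have := hw x hx z hz
      linarith
    linarith
  have cA : Continuous (lm v.1 v.2 r s) := lm_cont _ _ _ _
  obtain ⟨u, hu, huW⟩ := z_key_one hC' (K := lm v.1 v.2 r s '' K) (hK.image _ cA.continuousOn) ⟨x₀, h0, rfl⟩
    (by
      rintro _ ⟨x, hx, rfl⟩
      rw [rch_lm hd' he, hA, hA]
      exact hQ x hx) (c1 := i) (c2 := i + 13) (by linarith)
    (by
      rintro _ ⟨x, hx, rfl⟩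
      exact ⟨hi1 x hx, hi2 x hx⟩)
  obtain ⟨a, b, hab⟩ := hu
  refine ⟨(v.1 * u.1 + r * u.2, v.2 * u.1 + s * u.2), ?_, fun x hx y hy => ?_⟩
  · refine ⟨a * s - b * v.2, -a * r + b * v.1, ?_⟩
    show (a * s - b * v.2) * (v.1 * u.1 + r * u.2) + (-a * r + b * v.1) * (v.2 * u.1 + s * u.2) = 1
    linear_combination hab + (a * u.1 + b * u.2) * hd
  · have h1 := huW _ ⟨x, hx, rfl⟩ _ ⟨y, hy, rfl⟩
    have h2 : ∀ z, lf u (lm v.1 v.2 r s z) = lf (v.1 * u.1 + r * u.2, v.2 * u.1 + s * u.2) z := by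
      intro z
      unfold lf lm
      push_cast
      ring
    rw [h2, h2] at h1
    exact h1

theorem z_ext_one {h : ℝ × ℝ → ℝ} {τ : ℝ} {x₀ : ℝ × ℝ} (hC : ZCtx h τ x₀) {K : Set (ℝ × ℝ)} (hK : IsPreconnected K)
    (h0 : x₀ ∈ K) (hQ : ∀ x ∈ K, Rch h τ x₀ x) {v : ℤ × ℤ} (hv : IsCoprime v.1 v.2) (hw : Wle v K (25 / 2)) :
    ∃ K' : Set (ℝ × ℝ), K ⊆ K' ∧ IsPreconnected K' ∧ (∀ x ∈ K', Rch h τ x₀ x) ∧ Wle v K' 13 ∧ ¬ Wle v K' (25 / 2) := by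
  obtain ⟨i, hi⟩ : ∃ i, i = sInf (lf v '' K) := ⟨_, rfl⟩
  have hbdd : BddBelow (lf v '' K) := by
    refine ⟨lf v x₀ - 25 / 2, ?_⟩
    rintro _ ⟨x, hx, rfl⟩
    have := hw x₀ h0 x hx
    linarith
  have hne : (lf v '' K).Nonempty := ⟨_, x₀, h0, rfl⟩
  have hi1 : ∀ x ∈ K, i ≤ lf v x := fun x hx => by rw [hi]; exact csInf_le hbdd ⟨x, hx, rfl⟩
  have hi2 : ∀ x ∈ K, lf v x ≤ i + 25 / 2 := by
    intro x hx
    have : lf v x - 25 / 2 ≤ i := by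
      rw [hi]
      refine le_csInf hne ?_
      rintro _ ⟨z, hz, rfl⟩
      have := hw x hx z hz
      linarith
    linarith
  obtain ⟨c, hc⟩ : ∃ c, c = i + 13 - lf v x₀ := ⟨_, rfl⟩
  have hc1 : 1 / 2 ≤ c := by have := hi2 x₀ h0; linarith
  have hc2 : c ≤ 13 := by have := hi1 x₀ h0; linarith
  obtain ⟨γ, cγ, γ0, γv, γh⟩ := hC.adm.arcs v hv x₀
  refine ⟨K ∪ γ '' Set.Icc 0 c, Set.subset_union_left, ?_, ?_, ?_, ?_⟩
  · refine IsPreconnected.union x₀ h0 ⟨0, ⟨le_rfl, by linarith⟩, γ0⟩ hK ?_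
    exact isPreconnected_Icc.image _ cγ.continuousOn
  · rintro x (hx | ⟨t, ht, rfl⟩)
    · exact hQ x hx
    · have j1 : JoinedIn {z | τ < h z} (γ 0) (γ t) := by
        refine joined_curve cγ fun u hu => ?_
        rw [Set.uIcc_of_le ht.1] at hu
        show τ < h (γ u)
        have h3 := γh u (by rw [abs_of_nonneg hu.1]; linarith [hu.2, ht.2])
        rw [abs_of_nonneg hu.1] at h3
        have h4 : max u 1 ≤ 13 := max_le (by linarith [hu.2, ht.2]) (by norm_num)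
        have := hC.low
        linarith [hu.2, ht.2]
      rw [γ0] at j1
      exact j1
  · have b1 : ∀ x ∈ K ∪ γ '' Set.Icc 0 c, i ≤ lf v x ∧ lf v x ≤ i + 13 := by
      rintro x (hx | ⟨t, ht, rfl⟩)
      · exact ⟨hi1 x hx, by have := hi2 x hx; linarith⟩
      · rw [γv]
        have := hi1 x₀ h0
        exact ⟨by linarith [ht.1], by linarith [ht.2]⟩
    intro x hx y hy
    have := (b1 x hx).2
    have := (b1 y hy).1
    linarith
  · intro hW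
    obtain ⟨a, ⟨x, hx, rfl⟩, ha⟩ := exists_lt_of_csInf_lt hne (show sInf (lf v '' K) < i + 1 / 4 by rw [← hi]; linarith)
    have := hW (γ c) (Or.inr ⟨c, ⟨by linarith, le_rfl⟩, rfl⟩) x (Or.inl hx)
    rw [γv] at this
    linarith

theorem z_step {h : ℝ × ℝ → ℝ} {τ : ℝ} {x₀ : ℝ × ℝ} (hC : ZCtx h τ x₀) {ρ : ℝ} (hρ : 0 < ρ) (n : ℕ) :
    ∀ K : Set (ℝ × ℝ), Metric.ball x₀ ρ ⊆ K → IsPreconnected K → (∀ x ∈ K, Rch h τ x₀ x) →
      {v : ℤ × ℤ | IsCoprime v.1 v.2 ∧ Wle v K (25 / 2)}.ncard ≤ n →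
      {v : ℤ × ℤ | IsCoprime v.1 v.2 ∧ Wle v K (25 / 2)}.Nonempty → False := by
  have hfin : ∀ K : Set (ℝ × ℝ), Metric.ball x₀ ρ ⊆ K →
      {v : ℤ × ℤ | IsCoprime v.1 v.2 ∧ Wle v K (25 / 2)}.Finite := by
    intro K hB
    refine (fin_dirs x₀ hρ (25 / 2)).subset ?_
    rintro v ⟨_, hv⟩ x hx y hy
    exact hv x (hB hx) y (hB hy)
  induction n with
  | zero =>
    intro K hB _ _ hn hne
    have h0 : {v : ℤ × ℤ | IsCoprime v.1 v.2 ∧ Wle v K (25 / 2)}.ncard = 0 := by omega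
    rw [Set.ncard_eq_zero (hfin K hB)] at h0
    exact hne.ne_empty h0
  | succ n ih =>
    intro K hB hK hQ hn hne
    obtain ⟨v, hv1, hv2⟩ := hne
    have h0 : x₀ ∈ K := hB (Metric.mem_ball_self hρ)
    obtain ⟨K', hKK, hK', hQ', hw, hnw⟩ := z_ext_one hC hK h0 hQ hv1 hv2
    obtain ⟨v', hv'1, hv'2⟩ := z_key_star hC hK' (hKK h0) hQ' hv1 hw
    refine ih K' (hB.trans hKK) hK' hQ' ?_ ⟨v', hv'1, hv'2⟩
    have hss : {v : ℤ × ℤ | IsCoprime v.1 v.2 ∧ Wle v K' (25 / 2)} ⊂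
        {v : ℤ × ℤ | IsCoprime v.1 v.2 ∧ Wle v K (25 / 2)} := by
      rw [Set.ssubset_iff_of_subset]
      · exact ⟨v, ⟨hv1, hv2⟩, fun h => hnw h.2⟩
      · rintro w ⟨hw1, hw2⟩
        exact ⟨hw1, fun x hx y hy => hw2 x (hKK hx) y (hKK hy)⟩
    have := Set.ncard_lt_ncard hss (hfin K hB)
    omega

theorem z_no_ctx {h : ℝ × ℝ → ℝ} {τ : ℝ} {x₀ : ℝ × ℝ} : ¬ ZCtx h τ x₀ := by
  intro hC
  have hopen : IsOpen {z : ℝ × ℝ | τ < h z} := isOpen_lt continuous_const hC.adm.cont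
  have hx : x₀ ∈ {z : ℝ × ℝ | τ < h z} := by
    show τ < h x₀
    linarith [hC.low]
  obtain ⟨ρ₀, hρ₀, hball⟩ := Metric.isOpen_iff.1 hopen x₀ hx
  have hρ : 0 < min ρ₀ 1 := lt_min hρ₀ one_pos
  have hsub : Metric.ball x₀ (min ρ₀ 1) ⊆ {z : ℝ × ℝ | τ < h z} :=
    (Metric.ball_subset_ball (min_le_left _ _)).trans hball
  refine z_step hC hρ _ (Metric.ball x₀ (min ρ₀ 1)) subset_rfl (convex_ball x₀ _).isPreconnected ?_ le_rfl ?_
  · intro x hx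
    have h1 : IsPathConnected (Metric.ball x₀ (min ρ₀ 1)) :=
      (convex_ball x₀ _).isPathConnected ⟨x₀, Metric.mem_ball_self hρ⟩
    exact (h1.joinedIn x₀ (Metric.mem_ball_self hρ) x hx).mono hsub
  · refine ⟨(1, 0), isCoprime_one_left, ?_⟩
    intro x hx y hy
    have hx' : dist x x₀ < 1 := lt_of_lt_of_le (Metric.mem_ball.1 hx) (min_le_right _ _)
    have hy' : dist y x₀ < 1 := lt_of_lt_of_le (Metric.mem_ball.1 hy) (min_le_right _ _)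
    rw [Prod.dist_eq, max_lt_iff, Real.dist_eq, Real.dist_eq] at hx' hy'
    have h1 := abs_lt.1 hx'.1
    have h2 := abs_lt.1 hy'.1
    simp only [lf]
    push_cast
    linarith [h1.1, h1.2, h2.1, h2.2]

theorem z_exists_per {h : ℝ × ℝ → ℝ} (hA : AC h) {τ : ℝ} {x₀ : ℝ × ℝ} (h0 : τ + 15 < h x₀) :
    ∃ (H : ℝ → ℝ × ℝ) (k : ℤ × ℤ), k ≠ 0 ∧ Continuous H ∧ (∀ s, τ < h (H s)) ∧ ∀ s, H (s + 1) = H s + iv k := by
  obtain ⟨q, k, h1, h2, hk⟩ : ∃ (q : ℝ × ℝ) (k : ℤ × ℤ), Rch h τ x₀ q ∧ Rch h τ x₀ (q + iv k) ∧ k ≠ 0 := by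
    by_contra hc
    push Not at hc
    exact z_no_ctx ⟨hA, h0, hc⟩
  have hj : JoinedIn {z | τ < h z} q (q + iv k) := JoinedIn.trans (JoinedIn.symm h1) h2
  obtain ⟨P, hP, P0, P1, PS⟩ : ∃ P : ℝ → ℝ × ℝ, Continuous P ∧ P 0 = q ∧ P 1 = q + iv k ∧
      ∀ s ∈ Set.Icc (0 : ℝ) 1, τ < h (P s) := by
    refine ⟨hj.somePath.extend, hj.somePath.continuous_extend, Path.extend_zero _, Path.extend_one _, ?_⟩
    intro s hs
    rw [Path.extend_apply _ hs]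
    exact hj.somePath_mem _
  obtain ⟨u, hu⟩ : ∃ u : ℝ → ℝ × ℝ, ∀ s, u s = P s - s • iv k := ⟨_, fun _ => rfl⟩
  have cu : Continuous u := by
    have : u = fun s => P s - s • iv k := funext hu
    rw [this]
    fun_prop
  have hu01 : u 0 = u 1 := by
    rw [hu, hu, P0, P1]
    simp
  have cf : Continuous fun s : ℝ => u (Int.fract s) := by
    have := ContinuousOn.comp_fract'' (f := u) cu.continuousOn hu01
    exact this
  have key : ∀ s : ℝ, u (Int.fract s) + s • iv k = P (Int.fract s) + iv (⌊s⌋ * k.1, ⌊s⌋ * k.2) := by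
    intro s
    rw [hu]
    have h3 : s = Int.fract s + ⌊s⌋ := (Int.fract_add_floor s).symm
    have h4 : s • iv k = Int.fract s • iv k + iv (⌊s⌋ * k.1, ⌊s⌋ * k.2) := by
      conv_lhs => rw [h3]
      rw [add_smul]
      congr 1
      unfold iv
      ext
      · simp
      · simp
    rw [h4]
    abel
  refine ⟨fun s => u (Int.fract s) + s • iv k, k, hk, cf.add (by fun_prop), ?_, ?_⟩
  · intro s
    show τ < h (u (Int.fract s) + s • iv k)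
    rw [key, hA.per]
    exact PS _ ⟨Int.fract_nonneg s, (Int.fract_lt_one s).le⟩
  · intro s
    show u (Int.fract (s + 1)) + (s + 1) • iv k = u (Int.fract s) + s • iv k + iv k
    rw [Int.fract_add_one, add_smul, one_smul, add_assoc]

end H25S
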