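import Pool.Agent.Lib.H25S.ZB

/-!
# H25S, block Z: arcs in all directions, part 3
Copy of `H83D` C6, C6B for two functions `f ≤ h`.
-/

namespace H25S

open H83D

theorem z_no_vert {f h : ℝ × ℝ → ℝ} (hf : AC f) (hper0 : ∀ (x : ℝ × ℝ) (k : ℤ × ℤ), h (x + iv k) = h x)
    (hle : ∀ x, f x ≤ h x) {a b : ℝ} (hab : b ≤ a - 1) {H L : ℝ → ℝ × ℝ} (hH : Continuous H)
    (hL : Continuous L) {n n' : ℤ} (hn : 0 < n) (hn' : 0 < n') (pH : ∀ s, H (s + 1) = H s + iv (0, n))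
    (pL : ∀ t, L (t + 1) = L t + iv (0, n')) (h1 : ∀ s, a < f (H s)) (h2 : ∀ t, h (L t) < b) : False := by
  have pH' : ∀ s, H (s + 1) = H s + (0, (n : ℝ)) := by
    intro s
    rw [pH]
    simp [iv]
  have pL' : ∀ t, L (t + 1) = L t + (0, (n' : ℝ)) := by
    intro s
    rw [pL]
    simp [iv]
  obtain ⟨⟨s₀, hs₀⟩, _⟩ := vper_max hH pH'
  obtain ⟨⟨t₀, ht₀⟩, _⟩ := vper_max hL pL'
  set i : ℤ := ⌊(H s₀).1 - (L t₀).1⌋ + 1 with hi
  have hi1 : (H s₀).1 - (L t₀).1 < (i : ℝ) := by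
    rw [hi]
    push_cast
    exact Int.lt_floor_add_one _
  have hi2 : (i : ℝ) ≤ (H s₀).1 - (L t₀).1 + 1 := by
    rw [hi]
    push_cast
    linarith [Int.floor_le ((H s₀).1 - (L t₀).1)]
  set L' : ℝ → ℝ × ℝ := fun t => L t + iv (i, 0) with hL'
  have hL'c : Continuous L' := hL.add continuous_const
  have hper : ∀ t, h (L' t) = h (L t) := fun t => hper0 _ _
  have hL'1 : ∀ t, (L' t).1 = (L t).1 + i := by
    intro t
    simp [hL', iv]
  have pL'' : ∀ t, L' (t + 1) = L' t + (0, (n' : ℝ)) := by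
    intro t
    simp only [hL']
    rw [pL' t]
    abel
  obtain ⟨g, hg, g0, hg1⟩ := z_arc_two hf (H s₀)
  have hn1 : (0 : ℝ) < n := by exact_mod_cast hn
  have hn'1 : (0 : ℝ) < n' := by exact_mod_cast hn'
  rcases cross_vert hH hL'c hn1 hn'1 pH' pL'' hs₀ (t₀ := t₀) (fun t => by
      rw [hL'1, hL'1]; linarith [ht₀ t]) (by rw [hL'1]; linarith) (by rw [hL'1]; linarith) hg g0 with
    ⟨s, t, he⟩ | ⟨c, hc, N, t, he⟩
  · have h3 := h1 s
    have h4 := hle (H s)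
    rw [he, hper] at h4
    rw [he] at h3
    linarith [h2 t]
  · have h5 : |c| ≤ 1 := by
      rw [abs_of_nonneg hc.1]
      exact hc.2
    have h3 := hg1 c (by linarith)
    rw [max_eq_right h5] at h3
    have h4 := h1 s₀
    have h6 : ((0, (n : ℝ) * N) : ℝ × ℝ) = iv (0, n * N) := by
      simp [iv]
    rw [h6] at he
    have h7 : h (H s₀ + (c, g c)) = h (L t) := by
      rw [← hper, ← he, hper0]
    have h8 := hle (H s₀ + (c, g c))
    rw [h7] at h8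
    linarith [h2 t]

theorem z_pos {f h : ℝ × ℝ → ℝ} (hf : AC f) (hh : AC (fun x => -h x)) (hle : ∀ x, f x ≤ h x) {a b : ℝ} (hab : b ≤ a - 1) {H L : ℝ → ℝ × ℝ} (hH : Continuous H)
    (hL : Continuous L) {v : ℤ × ℤ} (hv : IsCoprime v.1 v.2) {n n' : ℤ} (hn : 0 < n) (hn' : 0 < n')
    (pH : ∀ s, H (s + 1) = H s + iv (n * v.1, n * v.2)) (pL : ∀ t, L (t + 1) = L t + iv (n' * v.1, n' * v.2))
    (h1 : ∀ s, a < f (H s)) (h2 : ∀ t, h (L t) < b) : False := by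
  obtain ⟨p, q, hpq⟩ := hv
  have hd : v.2 * q - (-v.1) * p = 1 := by linarith
  have hd' : q * v.2 - v.1 * (-p) = 1 := by linarith
  have he : (1 : ℤ) * 1 = 1 := by norm_num
  have hi : ∀ x, lm q v.1 (-p) v.2 (lm v.2 (-v.1) p q x) = x := by
    intro x
    have := (lm_inv hd he x).1
    simpa using this
  have hA' : AC (fun x => f (lm q v.1 (-p) v.2 x)) := z_ac_lm hf hd' he
  have hP' : ∀ (x : ℝ × ℝ) (k : ℤ × ℤ), h (lm q v.1 (-p) v.2 (x + iv k)) = h (lm q v.1 (-p) v.2 x) := by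
    intro x k
    have := hh.per (lm q v.1 (-p) v.2 x)
    rw [lm_add]
    have h5 := this (q * k.1 + v.1 * k.2, -p * k.1 + v.2 * k.2)
    exact neg_injective h5
  have hper : ∀ (m : ℤ) (x : ℝ × ℝ), lm v.2 (-v.1) p q (x + iv (m * v.1, m * v.2)) = lm v.2 (-v.1) p q x + iv (0, m) := by
    intro m x
    rw [lm_add]
    congr 2
    refine Prod.ext ?_ ?_
    · show v.2 * (m * v.1) + -v.1 * (m * v.2) = 0
      ring
    · show p * (m * v.1) + q * (m * v.2) = m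
      linear_combination m * hpq
  refine z_no_vert (h := fun x => h (lm q v.1 (-p) v.2 x)) hA' hP' (fun x => hle _) hab (H := fun s => lm v.2 (-v.1) p q (H s)) (L := fun s => lm v.2 (-v.1) p q (L s))
    ((lm_cont _ _ _ _).comp hH) ((lm_cont _ _ _ _).comp hL) hn hn' (fun s => ?_) (fun s => ?_) (fun s => ?_) (fun s => ?_)
  · show lm v.2 (-v.1) p q (H (s + 1)) = _
    rw [pH, hper]
  · show lm v.2 (-v.1) p q (L (s + 1)) = _
    rw [pL, hper]
  · show a < f (lm q v.1 (-p) v.2 (lm v.2 (-v.1) p q (H s)))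
    rw [hi]
    exact h1 s
  · show h (lm q v.1 (-p) v.2 (lm v.2 (-v.1) p q (L s))) < b
    rw [hi]
    exact h2 s

theorem z_no_two {f h : ℝ × ℝ → ℝ} (hf : AC f) (hh : AC (fun x => -h x)) (hle : ∀ x, f x ≤ h x) {a b : ℝ} (hab : b ≤ a - 1) {H L : ℝ → ℝ × ℝ} (hH : Continuous H)
    (hL : Continuous L) {k k' : ℤ × ℤ} (hk : k ≠ 0) (hk' : k' ≠ 0) (pH : ∀ s, H (s + 1) = H s + iv k)
    (pL : ∀ t, L (t + 1) = L t + iv k') (h1 : ∀ s, a < f (H s)) (h2 : ∀ t, h (L t) < b) : False := by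
  by_cases hd : k.1 * k'.2 - k.2 * k'.1 = 0
  · obtain ⟨v, n, n', hv, hn, hn', rfl, rfl⟩ := par_vec hk hk' hd
    obtain ⟨H', m, cH', hm, pH', eH'⟩ := c6_rev hH hn pH
    obtain ⟨L', m', cL', hm', pL', eL'⟩ := c6_rev hL hn' pL
    refine z_pos hf hh hle hab cH' cL' hv hm hm' pH' pL' (fun s => ?_) (fun s => ?_)
    · obtain ⟨s', hs'⟩ := eH' s
      rw [hs']
      exact h1 s'
    · obtain ⟨s', hs'⟩ := eL' s
      rw [hs']
      exact h2 s'
  · obtain ⟨s, t, hst⟩ := cross_det hH hL pH pL hd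
    have e1 := h1 s
    have e2 := h2 t
    have e3 := hle (H s)
    rw [hst] at e1 e3
    linarith

end H25S
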